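import Pool.Agent.Lib_helper39.RCA.SPV
namespace Pool.Agent.RC

open Complex MeasureTheory Filter Topology

lemma rc_off_val {N : ℕ} (hN : ¬ IsSquare N) :
    ∃ p v M : ℕ, p.Prime ∧ Odd v ∧ ¬ p ∣ M ∧ N = p ^ v * M := by
  have hN0 : N ≠ 0 := by rintro rfl; exact hN ⟨0, rfl⟩
  by_contra hcon
  push Not at hcon
  apply hN
  have h : ∀ p ∈ N.primeFactors, Even (N.factorization p) := by
    intro p hp
    by_contra h
    have hpp := Nat.prime_of_mem_primeFactors hp
    exact hcon p (N.factorization p) (N / p ^ N.factorization p) hpp (Nat.not_even_iff_odd.1 h)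
      (Nat.not_dvd_ordCompl hpp hN0) (Nat.ordProj_mul_ordCompl_eq_self N p).symm
  refine ⟨∏ p ∈ N.primeFactors, p ^ (N.factorization p / 2), ?_⟩
  rw [← Finset.prod_mul_distrib]
  conv_lhs => rw [← Nat.prod_factorization_pow_eq_self hN0]
  rw [Finsupp.prod, Nat.support_factorization]
  apply Finset.prod_congr rfl
  intro p hp
  rw [← pow_add]
  congr 1
  obtain ⟨k, hk⟩ := h p hp
  omega

lemma rc_off_J1 {M m : ℕ} (hM : Odd M) (h4 : m % 4 = 1) (h : m ≡ 1 [MOD M]) :
    jacobiSym (M : ℤ) m = 1 := by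
  rw [jacobiSym.quadratic_reciprocity_one_mod_four' hM h4]
  have : jacobiSym (m : ℤ) M = jacobiSym 1 M := by
    apply jacobiSym.mod_left'
    exact_mod_cast h
  rw [this, jacobiSym.one_left]

lemma rc_off_J2 {M m : ℕ} (hM : M ≠ 0) (h8 : m % 8 = 1) (h : m ≡ 1 [MOD M]) :
    jacobiSym (M : ℤ) m = 1 := by
  obtain ⟨s, M', hM', rfl⟩ := Nat.exists_eq_two_pow_mul_odd hM
  have hm : Odd m := by rw [Nat.odd_iff]; omega
  push_cast
  rw [jacobiSym.mul_left, jacobiSym.pow_left, jacobiSym.at_two hm,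
    ZMod.χ₈_nat_mod_eight, h8, rc_off_J1 hM' (by omega)
      (h.of_mul_left (2 ^ s))]
  simp

lemma rc_off_nonres (p : ℕ) [Fact p.Prime] (hp2 : p ≠ 2) :
    ∃ a : ℕ, jacobiSym (a : ℤ) p = -1 := by
  obtain ⟨a, ha⟩ := FiniteField.exists_nonsquare (F := ZMod p) (by rw [ZMod.ringChar_zmod_n]; exact hp2)
  refine ⟨a.val, ?_⟩
  rw [← jacobiSym.legendreSym.to_jacobiSym, legendreSym.eq_neg_one_iff]
  simpa using ha

lemma rc_off_neg {N : ℕ} (hN : ¬ IsSquare N) : ∃ m : ℕ, Odd m ∧ jacobiSym (N : ℤ) m = -1 := by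
  obtain ⟨p, v, M, hp, hv, hpM, rfl⟩ := rc_off_val hN
  have hM0 : M ≠ 0 := by rintro rfl; exact hpM (dvd_zero _)
  by_cases hp2 : p = 2
  · subst hp2
    have hMo : Odd M := by rwa [← Nat.not_even_iff_odd, even_iff_two_dvd]
    have hco : Nat.Coprime 8 M := by
      rw [show 8 = 2 ^ 3 by norm_num]
      exact Nat.Coprime.pow_left 3 (Nat.coprime_two_left.2 hMo)
    obtain ⟨m, h1, h2⟩ := Nat.chineseRemainder hco 5 1
    have h8 : m % 8 = 5 := h1
    have hm : Odd m := by rw [Nat.odd_iff]; omega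
    refine ⟨m, hm, ?_⟩
    push_cast
    rw [jacobiSym.mul_left, jacobiSym.pow_left, jacobiSym.at_two hm,
      ZMod.χ₈_nat_mod_eight, h8, rc_off_J1 hMo (by omega) h2]
    have : ZMod.χ₈ ((5 : ℕ) : ZMod 8) = -1 := by decide
    rw [this, hv.neg_one_pow]
    norm_num
  · haveI : Fact p.Prime := ⟨hp⟩
    obtain ⟨a, ha⟩ := rc_off_nonres p hp2
    have hpo : Odd p := hp.odd_of_ne_two hp2
    have hco : Nat.Coprime (8 * M) p := by
      apply Nat.Coprime.mul_left
      · rw [show 8 = 2 ^ 3 by norm_num]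
        exact Nat.Coprime.pow_left 3 (Nat.coprime_two_left.2 hpo)
      · exact ((Nat.Prime.coprime_iff_not_dvd hp).2 hpM).symm
    obtain ⟨m, h1, h2⟩ := Nat.chineseRemainder hco 1 a
    have h8 : m % 8 = 1 := (h1.of_mul_right M : m ≡ 1 [MOD 8])
    have h1M : m ≡ 1 [MOD M] := h1.of_mul_left 8
    have hm : Odd m := by rw [Nat.odd_iff]; omega
    refine ⟨m, hm, ?_⟩
    push_cast
    rw [jacobiSym.mul_left, jacobiSym.pow_left, rc_off_J2 hM0 h8 h1M,
      jacobiSym.quadratic_reciprocity_one_mod_four' hpo (by omega)]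
    have : jacobiSym (m : ℤ) p = jacobiSym a p := by
      apply jacobiSym.mod_left'
      exact_mod_cast h2
    rw [this, ha, hv.neg_one_pow]
    norm_num

/-- `m ↦ (N/m)` for odd `m` -/
noncomputable def rc_off_g (N m : ℕ) : ℂ := if Odd m then ((jacobiSym (N : ℤ) m : ℤ) : ℂ) else 0

lemma rc_off_g_mod (N m : ℕ) : rc_off_g N (m % (4 * N)) = rc_off_g N m := by
  have h1 : Odd (m % (4 * N)) ↔ Odd m := by
    rw [Nat.odd_iff, Nat.odd_iff, Nat.mod_mod_of_dvd]
    exact ⟨2 * N, by ring⟩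
  unfold rc_off_g
  by_cases h : Odd m
  · rw [if_pos h, if_pos (h1.2 h), jacobiSym.mod_right (N : ℤ) h]
    simp
  · rw [if_neg h, if_neg (fun h' => h (h1.1 h'))]

lemma rc_off_g_mul (N a b : ℕ) : rc_off_g N (a * b) = rc_off_g N a * rc_off_g N b := by
  unfold rc_off_g
  by_cases ha : Odd a
  · by_cases hb : Odd b
    · rw [if_pos ha, if_pos hb, if_pos (ha.mul hb), jacobiSym.mul_right' _ ha.pos.ne' hb.pos.ne']
      push_cast; ring
    · rw [if_neg hb, if_neg (fun h => hb (Nat.odd_mul.1 h).2), mul_zero]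
  · rw [if_neg ha, if_neg (fun h => ha (Nat.odd_mul.1 h).1), zero_mul]

/-- The Dirichlet character `m ↦ (N/m)` modulo `4N`. -/
noncomputable def rc_off_chi (N : ℕ) [NeZero N] : DirichletCharacter ℂ (4 * N) where
  toFun x := rc_off_g N x.val
  map_one' := by
    have h : ((1 : ℕ) : ZMod (4 * N)) = 1 := Nat.cast_one
    rw [← h, ZMod.val_natCast, rc_off_g_mod]
    simp [rc_off_g]
  map_mul' x y := by
    rw [ZMod.val_mul, rc_off_g_mod, rc_off_g_mul]
  map_nonunit' x hx := by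
    change rc_off_g N x.val = 0
    by_contra h
    apply hx
    unfold rc_off_g at h
    by_cases ho : Odd x.val
    · rw [if_pos ho] at h
      have h1 : jacobiSym (N : ℤ) x.val ≠ 0 := by exact_mod_cast h
      haveI : NeZero x.val := ⟨ho.pos.ne'⟩
      rw [Ne, jacobiSym.eq_zero_iff_not_coprime, not_not] at h1
      have h2 : Nat.Coprime N x.val := h1
      have h3 : Nat.Coprime x.val (4 * N) := by
        apply Nat.Coprime.mul_right
        · exact Nat.Coprime.pow_right 2 (Nat.coprime_two_right.2 ho)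
        · exact h2.symm
      have h4 := (ZMod.isUnit_iff_coprime x.val (4 * N)).2 h3
      simpa using h4
    · rw [if_neg ho] at h
      exact absurd rfl h

lemma rc_off_chi_nat (N : ℕ) [NeZero N] (m : ℕ) :
    rc_off_chi N (m : ZMod (4 * N)) = rc_off_g N m := by
  change rc_off_g N (m : ZMod (4 * N)).val = _
  rw [ZMod.val_natCast, rc_off_g_mod]

theorem off_pr : ∃ C : ℝ, 0 < C ∧ ∀ N K : ℕ, ¬ IsSquare N →
    |∑ i ∈ Finset.range K, ∑ l ∈ Finset.range (2 * K),
      (if Odd (i + l) then (jacobiSym (N : ℤ) (i + l) : ℝ) else 0)| ≤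
        C * (N : ℝ) ^ (3 / 2 : ℝ) := by
  obtain ⟨C, hC, h⟩ := spv_pr
  refine ⟨8 * C, by positivity, ?_⟩
  intro N K hN
  have hN0 : N ≠ 0 := by rintro rfl; exact hN ⟨0, rfl⟩
  haveI : NeZero N := ⟨hN0⟩
  obtain ⟨m, hmo, hm⟩ := rc_off_neg hN
  have hne : rc_off_chi N ≠ 1 := by
    intro e
    have h1 := rc_off_chi_nat N m
    unfold rc_off_g at h1
    rw [if_pos hmo, hm, e] at h1
    by_cases hu : IsUnit (m : ZMod (4 * N))
    · rw [MulChar.one_apply hu] at h1
      norm_num at h1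
    · rw [MulChar.map_nonunit _ hu] at h1
      norm_num at h1
  have h2 := h (4 * N) (rc_off_chi N) hne K (2 * K)
  have e : ((∑ i ∈ Finset.range K, ∑ l ∈ Finset.range (2 * K),
      (if Odd (i + l) then (jacobiSym (N : ℤ) (i + l) : ℝ) else 0) : ℝ) : ℂ) =
      ∑ i ∈ Finset.range K, ∑ l ∈ Finset.range (2 * K),
        rc_off_chi N ((i + l : ℕ) : ZMod (4 * N)) := by
    push_cast
    apply Finset.sum_congr rfl; intro i _
    apply Finset.sum_congr rfl; intro l _
    have := rc_off_chi_nat N (i + l)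
    push_cast at this
    rw [this]
    unfold rc_off_g
    split_ifs <;> simp
  rw [← e, Complex.norm_real, Real.norm_eq_abs] at h2
  refine h2.trans ?_
  push_cast
  rw [Real.mul_rpow (by norm_num) (Nat.cast_nonneg _)]
  have h4 : (4 : ℝ) ^ (3 / 2 : ℝ) = 8 := by
    rw [show (4 : ℝ) = 2 ^ (2 : ℝ) by norm_num, ← Real.rpow_mul (by norm_num)]
    norm_num
  rw [h4]
  apply le_of_eq
  ring

end Pool.Agent.RC

namespace Pool.Agent.RC

alias off := off_pr

end Pool.Agent.RC
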