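import Pool.Agent.Lib_helper39.RC.Defs
set_option autoImplicit false

namespace Pool.Agent.RC

open Complex MeasureTheory Filter Topology

theorem rc_ind_psi (j : Fin 4) (q : ℕ) (hq : Odd q) : psi j q = 1 ∨ psi j q = -1 := by
  have h8 : ∃ r : ℕ, r < 8 ∧ Odd r ∧ (q : ZMod 8) = (r : ZMod 8) ∧ (q : ZMod 4) = (r : ZMod 4) := by
    refine ⟨q % 8, Nat.mod_lt _ (by norm_num), ?_, by simp, ?_⟩
    · rw [Nat.odd_iff] at hq ⊢
      omega
    · rw [ZMod.natCast_eq_natCast_iff, Nat.ModEq]
      omega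
  obtain ⟨r, hr8, hr, h8', h4'⟩ := h8
  have hr' : r = 1 ∨ r = 3 ∨ r = 5 ∨ r = 7 := by
    rw [Nat.odd_iff] at hr
    omega
  unfold psi
  rw [h8', h4']
  fin_cases j
  · left; rfl
  · rcases hr' with rfl | rfl | rfl | rfl
    · left; decide
    · right; decide
    · left; decide
    · right; decide
  · rcases hr' with rfl | rfl | rfl | rfl
    · left; decide
    · right; decide
    · right; decide
    · left; decide
  · rcases hr' with rfl | rfl | rfl | rfl
    · left; decide
    · left; decide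
    · right; decide
    · right; decide

/-- `c ↦ (p/c)` is periodic mod `4p` on odd `c` -/
theorem rc_ind_per (j : Fin 4) (p c c' : ℕ) (hc : Odd c) (hc' : Odd c')
    (h : c ≡ c' [MOD 4 * p]) : rv j c p = rv j c' p := by
  unfold rv
  rw [jacobiSym.mod_right' p hc, jacobiSym.mod_right' p hc', h]

/-- the sum over one period -/
theorem rc_ind_one (j : Fin 4) (q : ℕ) (hq : q.Prime) (hq2 : q ≠ 2) (M c : ℕ) (hM4 : 4 ∣ M)
    (hMq : M.Coprime q) (hc : Odd c) (F : ℤ → ℝ) :
    ∑ i ∈ Finset.range q, F (rv j (c + M * i) q) =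
      F 0 + ((q : ℝ) - 1) * ((F 1 + F (-1)) / 2) := by
  have : Fact q.Prime := ⟨hq⟩
  have hqo : Odd q := hq.odd_of_ne_two hq2
  obtain ⟨M', rfl⟩ := hM4
  have hci : ∀ i, Odd (c + 4 * M' * i) := by
    intro i
    rw [Nat.odd_iff] at hc ⊢
    have : 4 * M' * i = 2 * (2 * M' * i) := by ring
    omega
  set ε : ℤ := psi j q * qrSign c q with hε
  have hε1 : ε = 1 ∨ ε = -1 := by
    have h1 := rc_ind_psi j q hqo
    have h2 : qrSign c q = 1 ∨ qrSign c q = -1 := by
      have h3 := qrSign.sq_eq_one hc hqo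
      have h4 : (qrSign c q - 1) * (qrSign c q + 1) = 0 := by
        linear_combination h3
      rcases mul_eq_zero.1 h4 with h5 | h5
      · left; omega
      · right; omega
    rcases h1 with h1 | h1 <;> rcases h2 with h2 | h2 <;> rw [hε, h1, h2] <;> simp
  have hrv : ∀ i : ℕ, rv j (c + 4 * M' * i) q =
      ε * quadraticChar (ZMod q) ((c : ZMod q) + ((4 * M' : ℕ) : ZMod q) * (i : ZMod q)) := by
    intro i
    unfold rv
    rw [jacobiSym.quadratic_reciprocity' hqo (hci i)]
    have h1 : qrSign (c + 4 * M' * i) q = qrSign c q := by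
      unfold qrSign
      have h4 : ((c + 4 * M' * i : ℕ) : ZMod 4) = ((c : ℕ) : ZMod 4) := by
        rw [ZMod.natCast_eq_natCast_iff, Nat.ModEq]
        have : 4 * M' * i = 4 * (M' * i) := by ring
        omega
      rw [h4]
    have hJ : jacobiSym ((c + 4 * M' * i : ℕ) : ℤ) q =
        quadraticChar (ZMod q) ((c : ZMod q) + ((4 * M' : ℕ) : ZMod q) * (i : ZMod q)) := by
      rw [← jacobiSym.legendreSym.to_jacobiSym, legendreSym]
      congr 1
      push_cast
      ring
    rw [h1, hJ, hε]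
    ring
  -- bijection with ZMod q
  have hunit : IsUnit ((4 * M' : ℕ) : ZMod q) := (ZMod.isUnit_iff_coprime _ _).2 hMq
  obtain ⟨u, hu⟩ := hunit
  have hbij : ∑ i ∈ Finset.range q, F (rv j (c + 4 * M' * i) q) =
      ∑ x : ZMod q, F (ε * quadraticChar (ZMod q) x) := by
    refine Finset.sum_bij' (fun i _ => (c : ZMod q) + ((4 * M' : ℕ) : ZMod q) * (i : ZMod q))
      (fun x _ => ((x - c) * ((u⁻¹ : (ZMod q)ˣ) : ZMod q)).val) ?_ ?_ ?_ ?_ ?_
    · intro i _
      exact Finset.mem_univ _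
    · intro x _
      rw [Finset.mem_range]
      exact ZMod.val_lt _
    · intro i hi
      rw [Finset.mem_range] at hi
      have : ((c : ZMod q) + ((4 * M' : ℕ) : ZMod q) * (i : ZMod q) - c) *
          ((u⁻¹ : (ZMod q)ˣ) : ZMod q) = (i : ZMod q) := by
        rw [← hu, add_sub_cancel_left, mul_comm, ← mul_assoc, Units.inv_mul, one_mul]
      simp only [this]
      exact ZMod.val_cast_of_lt hi
    · intro x _
      simp only [ZMod.natCast_val, ZMod.cast_id', id_eq]
      rw [← hu, mul_comm (x - (c : ZMod q)), ← mul_assoc, Units.mul_inv, one_mul]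
      ring
    · intro i _
      rw [hrv i]
  rw [hbij]
  have hterm : ∀ x : ZMod q, F (ε * quadraticChar (ZMod q) x) =
      (if x = 0 then F 0 - (F 1 + F (-1)) / 2 else 0) + (F 1 + F (-1)) / 2 +
        (F 1 - F (-1)) / 2 * ε * (quadraticChar (ZMod q) x : ℝ) := by
    intro x
    by_cases hx : x = 0
    · subst hx
      simp
    · rw [if_neg hx]
      rcases quadraticChar_dichotomy hx with h | h <;> rcases hε1 with h' | h' <;> rw [h, h'] <;>
        norm_num <;> ring
  rw [Finset.sum_congr rfl fun x _ => hterm x, Finset.sum_add_distrib, Finset.sum_add_distrib,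
    ← Finset.mul_sum, ← Int.cast_sum, quadraticChar_sum_zero]
  · simp only [Finset.sum_ite_eq', Finset.mem_univ, if_true, Finset.sum_const, Finset.card_univ,
      ZMod.card, nsmul_eq_mul, Int.cast_zero, mul_zero, add_zero]
    ring
  · rw [ZMod.ringChar_zmod_n]
    exact hq2

theorem rc_ind_shift (R M i : ℕ) (hR0 : 0 < R) (hM : 2 ∣ M) (hMR : M ∣ R) (G : ℕ → ℝ) :
    ∑ c ∈ odds R, G ((c + M * i) % R) = ∑ c ∈ odds R, G c := by
  obtain ⟨M', rfl⟩ := hM
  obtain ⟨t, rfl⟩ := hMR
  set R := 2 * M' * t with hR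
  have hev : ∀ x, (x % R) % 2 = x % 2 := by
    intro x
    have : 2 ∣ R := ⟨M' * t, by rw [hR]; ring⟩
    exact Nat.mod_mod_of_dvd x this
  have hev2 : (2 * M' * i) % 2 = 0 := by
    rw [mul_assoc]
    omega
  refine Finset.sum_bij (fun c _ => (c + 2 * M' * i) % R) ?_ ?_ ?_ ?_
  · intro c hc
    unfold odds at hc ⊢
    rw [Finset.mem_filter, Finset.mem_range, Nat.odd_iff] at hc ⊢
    refine ⟨Nat.mod_lt _ hR0, ?_⟩
    rw [hev]
    omega
  · intro c hc c' hc' h
    unfold odds at hc hc'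
    rw [Finset.mem_filter, Finset.mem_range] at hc hc'
    have h1 : c + 2 * M' * i ≡ c' + 2 * M' * i [MOD R] := h
    have h2 : c ≡ c' [MOD R] := Nat.ModEq.add_right_cancel' _ h1
    rw [Nat.ModEq, Nat.mod_eq_of_lt hc.1, Nat.mod_eq_of_lt hc'.1] at h2
    exact h2
  · intro c' hc'
    unfold odds at hc' ⊢
    rw [Finset.mem_filter, Finset.mem_range, Nat.odd_iff] at hc'
    refine ⟨(c' + (R - (2 * M' * i) % R)) % R, ?_, ?_⟩
    · rw [Finset.mem_filter, Finset.mem_range, Nat.odd_iff]
      refine ⟨Nat.mod_lt _ hR0, ?_⟩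
      rw [hev]
      have h1 : (2 * M' * i) % R < R := Nat.mod_lt _ hR0
      have h2 : ((2 * M' * i) % R) % 2 = 0 := by rw [hev]; exact hev2
      have h3 : R % 2 = 0 := by rw [hR, mul_assoc]; omega
      omega
    · have h1 : (2 * M' * i) % R < R := Nat.mod_lt _ hR0
      rw [Nat.mod_add_mod]
      have h2 : (c' + (R - (2 * M' * i) % R) + 2 * M' * i) ≡ c' [MOD R] := by
        have h3 : 2 * M' * i ≡ (2 * M' * i) % R [MOD R] := (Nat.mod_modEq _ _).symm
        calc c' + (R - (2 * M' * i) % R) + 2 * M' * i ≡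
              c' + (R - (2 * M' * i) % R) + (2 * M' * i) % R [MOD R] := Nat.ModEq.add_left _ h3
          _ = c' + R := by omega
          _ ≡ c' [MOD R] := by simp [Nat.ModEq]
      rw [h2, Nat.mod_eq_of_lt hc'.1]
  · intro c _
    rfl

theorem rc_ind_card (R : ℕ) (hR : 2 ∣ R) : ((odds R).card : ℝ) = (R : ℝ) / 2 := by
  obtain ⟨t, rfl⟩ := hR
  have : (odds (2 * t)).card = t := by
    unfold odds
    induction t with
    | zero => simp
    | succ t ih =>
      rw [show 2 * (t + 1) = 2 * t + 1 + 1 by ring, Finset.range_add_one, Finset.filter_insert,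
        if_pos (by simp), Finset.card_insert_of_notMem (by simp), Finset.range_add_one,
        Finset.filter_insert, if_neg (by simp), ih]
  rw [this]
  push_cast
  ring

theorem ind_pr (S : Finset ℕ) (hS : ∀ p ∈ S, p.Prime ∧ p ≠ 2) (R : ℕ) (hR0 : 0 < R)
    (hR : 8 * ∏ p ∈ S, p ∣ R) (j : Fin 4) (F : ℕ → ℤ → ℝ) :
    ∑ c ∈ odds R, ∏ p ∈ S, F p (rv j c p) =
      (R : ℝ) / 2 * ∏ p ∈ S, (1 / (p : ℝ) * F p 0 +
        (1 - 1 / (p : ℝ)) * ((F p 1 + F p (-1)) / 2)) := by
  classical
  induction S using Finset.induction_on with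
  | empty =>
    simp only [Finset.prod_empty, Finset.sum_const, nsmul_eq_mul, mul_one]
    refine rc_ind_card R ?_
    rw [Finset.prod_empty, mul_one] at hR
    exact dvd_trans (by norm_num) hR
  | insert q S hqS ih =>
    have hq := hS q (Finset.mem_insert_self q S)
    have hS' : ∀ p ∈ S, p.Prime ∧ p ≠ 2 := fun p hp => hS p (Finset.mem_insert_of_mem hp)
    rw [Finset.prod_insert hqS] at hR
    set M : ℕ := 8 * ∏ p ∈ S, p with hM
    have hMR : M ∣ R := dvd_trans ⟨q, by rw [hM]; ring⟩ hR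
    have hMqR : 4 * q ∣ R := dvd_trans ⟨2 * ∏ p ∈ S, p, by ring⟩ hR
    have ih' := ih hS' hMR
    have hcop : M.Coprime q := by
      rw [hM]
      refine Nat.Coprime.mul_left ?_ ?_
      · have : Nat.Coprime 2 q := (Nat.coprime_primes Nat.prime_two hq.1).2 (Ne.symm hq.2)
        exact Nat.Coprime.pow_left 3 this
      · refine Nat.Coprime.prod_left fun p hp => ?_
        exact (Nat.coprime_primes (hS' p hp).1 hq.1).2 (fun h => hqS (h ▸ hp))
    have hq0 : (0 : ℝ) < q := by exact_mod_cast hq.1.pos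
    rw [Finset.prod_insert hqS]
    set A : ℝ := 1 / (q : ℝ) * F q 0 + (1 - 1 / (q : ℝ)) * ((F q 1 + F q (-1)) / 2) with hA
    have hstep : (q : ℝ) * ∑ c ∈ odds R, ∏ p ∈ insert q S, F p (rv j c p) =
        q * (A * ∑ c ∈ odds R, ∏ p ∈ S, F p (rv j c p)) := by
      have h1 : (q : ℝ) * ∑ c ∈ odds R, ∏ p ∈ insert q S, F p (rv j c p) =
          ∑ i ∈ Finset.range q, ∑ c ∈ odds R,
            (fun c => ∏ p ∈ insert q S, F p (rv j c p)) ((c + M * i) % R) := by
        rw [Finset.sum_congr rfl fun i _ => rc_ind_shift R M i hR0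
          ⟨4 * ∏ p ∈ S, p, by rw [hM]; ring⟩ hMR (fun c => ∏ p ∈ insert q S, F p (rv j c p))]
        rw [Finset.sum_const, Finset.card_range, nsmul_eq_mul]
      rw [h1, Finset.sum_comm, Finset.mul_sum, Finset.mul_sum]
      refine Finset.sum_congr rfl fun c hc => ?_
      unfold odds at hc
      rw [Finset.mem_filter] at hc
      have hc2 := hc.2
      have hodd : ∀ i, Odd ((c + M * i) % R) := by
        intro i
        rw [Nat.odd_iff] at hc2 ⊢
        rw [Nat.mod_mod_of_dvd _ (dvd_trans ⟨4 * ∏ p ∈ S, p, by rw [hM]; ring⟩ hMR)]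
        have : M * i = 2 * (4 * (∏ p ∈ S, p) * i) := by rw [hM]; ring
        omega
      have hodd' : ∀ i, Odd (c + M * i) := by
        intro i
        rw [Nat.odd_iff] at hc2 ⊢
        have : M * i = 2 * (4 * (∏ p ∈ S, p) * i) := by rw [hM]; ring
        omega
      have h2 : ∀ i, (fun c => ∏ p ∈ insert q S, F p (rv j c p)) ((c + M * i) % R) =
          F q (rv j (c + M * i) q) * ∏ p ∈ S, F p (rv j c p) := by
        intro i
        simp only
        rw [Finset.prod_insert hqS]
        congr 1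
        · congr 1
          refine rc_ind_per j q _ _ (hodd i) (hodd' i) ?_
          exact (Nat.mod_modEq _ _).of_dvd hMqR
        · refine Finset.prod_congr rfl fun p hp => ?_
          congr 1
          refine rc_ind_per j p _ _ (hodd i) hc2 ?_
          have hpM : 4 * p ∣ M := by
            obtain ⟨t, ht⟩ := Finset.dvd_prod_of_mem (fun x => x) hp
            exact ⟨2 * t, by rw [hM, ht]; ring⟩
          have h3 : (c + M * i) % R ≡ c + M * i [MOD 4 * p] :=
            (Nat.mod_modEq _ _).of_dvd (dvd_trans hpM hMR)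
          have h4 : c + M * i ≡ c [MOD 4 * p] := by
            have : M * i ≡ 0 [MOD 4 * p] := (Nat.modEq_zero_iff_dvd).2 (dvd_trans hpM ⟨i, rfl⟩)
            simpa using Nat.ModEq.add_left c this
          exact h3.trans h4
      rw [Finset.sum_congr rfl fun i _ => h2 i, ← Finset.sum_mul,
        rc_ind_one j q hq.1 hq.2 M c ⟨2 * ∏ p ∈ S, p, by rw [hM]; ring⟩ hcop hc2 (F q), hA]
      field_simp
    have h3 := mul_left_cancel₀ hq0.ne' hstep
    rw [h3, ih']
    ring

end Pool.Agent.RC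

namespace Pool.Agent.RC

alias ind := ind_pr

end Pool.Agent.RC
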