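import Pool.Agent.Lib_helper39.RC.Defs
/-!
# LOC: local expansions
-/

namespace Pool.Agent.RC

open Complex

/-- `(1 - 2 r c + r²)^{-1/2}`. -/
noncomputable def rc_loc_a (r c : ℝ) : ℝ := (Real.sqrt (1 - 2 * r * c + r ^ 2))⁻¹

theorem rc_loc_pos {r c : ℝ} (hr : 0 < r) (hr2 : r ^ 2 ≤ 1 / 3) (hc : |c| ≤ 1) :
    1 / 9 ≤ 1 - 2 * r * c + r ^ 2 := by
  have h1 : r ≤ 3 / 5 := by nlinarith
  have h2 := abs_le.mp hc
  nlinarith [mul_nonneg hr.le (by linarith : 0 ≤ 1 - c)]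

/-- `q² (1 + u) = 1 + O(u³)`, `q = 1 - u/2 + 3u²/8`. -/
theorem rc_loc_inv {r c : ℝ} (hr : 0 < r) (hr2 : r ^ 2 ≤ 1 / 3) (hc : |c| ≤ 1) :
    |rc_loc_a r c - (1 + r * c + r ^ 2 * (3 * c ^ 2 - 1) / 2)| ≤ 1000 * r ^ 3 := by
  have hr1 : r ≤ 3 / 5 := by nlinarith
  have hcc := abs_le.mp hc
  have hpos := rc_loc_pos hr hr2 hc
  set u : ℝ := -2 * r * c + r ^ 2 with hu
  have h1u : 1 - 2 * r * c + r ^ 2 = 1 + u := by rw [hu]; ring
  rw [rc_loc_a, h1u]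
  rw [h1u] at hpos
  set v : ℝ := Real.sqrt (1 + u) with hv
  have hv0 : 1 / 3 ≤ v := by
    rw [hv]
    apply Real.le_sqrt_of_sq_le
    linarith
  have hv2 : v ^ 2 = 1 + u := Real.sq_sqrt (by linarith)
  set q : ℝ := 1 - u / 2 + 3 * u ^ 2 / 8 with hq
  have hq0 : 0 < q := by
    rw [hq]
    nlinarith [sq_nonneg (u - 2 / 3)]
  have hu1 : |u| ≤ 3 * r := by
    rw [hu, abs_le]
    constructor <;> nlinarith [mul_nonneg hr.le (by linarith : 0 ≤ 1 - c),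
      mul_nonneg hr.le (by linarith : 0 ≤ 1 + c)]
  have hu2 : |u| ≤ 2 := hu1.trans (by linarith)
  have hu3 : |u| ^ 3 ≤ 27 * r ^ 3 := by
    calc |u| ^ 3 ≤ (3 * r) ^ 3 := pow_le_pow_left₀ (abs_nonneg u) hu1 3
      _ = 27 * r ^ 3 := by ring
  have key : v⁻¹ - q = -(u ^ 3 * (5 / 8 - 15 * u / 64 + 9 * u ^ 2 / 64)) / (v * (1 + q * v)) := by
    have hvne : v ≠ 0 := by linarith
    have h1 : 1 + q * v ≠ 0 := by positivity
    rw [eq_div_iff (mul_ne_zero hvne h1)]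
    have h2 : (v⁻¹ - q) * (v * (1 + q * v)) = 1 - q ^ 2 * v ^ 2 := by
      field_simp
      ring
    rw [h2, hv2, hq]
    ring
  have hb : |v⁻¹ - q| ≤ 6 * |u| ^ 3 := by
    rw [key, abs_div, abs_neg, abs_mul, abs_pow]
    have h1 : |5 / 8 - 15 * u / 64 + 9 * u ^ 2 / 64| ≤ 2 := by
      have := abs_le.mp hu2
      rw [abs_le]
      constructor <;> nlinarith
    have h2 : 1 / 3 ≤ |v * (1 + q * v)| := by
      rw [abs_of_pos (by positivity)]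
      have h3 : 0 ≤ q * v := by positivity
      nlinarith
    rw [div_le_iff₀ (by linarith)]
    have h3 : 0 ≤ |u| ^ 3 := by positivity
    calc |u| ^ 3 * |5 / 8 - 15 * u / 64 + 9 * u ^ 2 / 64| ≤ |u| ^ 3 * 2 :=
          mul_le_mul_of_nonneg_left h1 h3
      _ = 6 * |u| ^ 3 * (1 / 3) := by ring
      _ ≤ 6 * |u| ^ 3 * |v * (1 + q * v)| := mul_le_mul_of_nonneg_left h2 (by positivity)
  have hq2 : q - (1 + r * c + r ^ 2 * (3 * c ^ 2 - 1) / 2) =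
      r ^ 3 * (-(3 * c / 2) + 3 * r / 8) := by
    rw [hq, hu]
    ring
  have hb2 : |q - (1 + r * c + r ^ 2 * (3 * c ^ 2 - 1) / 2)| ≤ 2 * r ^ 3 := by
    rw [hq2, abs_mul, abs_of_pos (by positivity : 0 < r ^ 3), mul_comm]
    apply mul_le_mul_of_nonneg_right _ (by positivity)
    rw [abs_le]
    constructor <;> linarith
  calc |v⁻¹ - (1 + r * c + r ^ 2 * (3 * c ^ 2 - 1) / 2)|
      = |(v⁻¹ - q) + (q - (1 + r * c + r ^ 2 * (3 * c ^ 2 - 1) / 2))| := by ring_nf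
    _ ≤ |v⁻¹ - q| + |q - (1 + r * c + r ^ 2 * (3 * c ^ 2 - 1) / 2)| := abs_add_le _ _
    _ ≤ 6 * |u| ^ 3 + 2 * r ^ 3 := add_le_add hb hb2
    _ ≤ 6 * (27 * r ^ 3) + 2 * r ^ 3 := by linarith
    _ ≤ 1000 * r ^ 3 := by
      have : 0 < r ^ 3 := by positivity
      linarith

/-- A continuous function of boundedly many bounded variables is bounded. -/
theorem rc_loc_bdd (F : (Fin 9 → ℝ) → ℝ) (hF : Continuous F) (K : ℝ) :
    ∃ C : ℝ, 0 < C ∧ ∀ x : Fin 9 → ℝ, (∀ i, |x i| ≤ K) → |F x| ≤ C := by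
  have h1 : IsCompact (Set.pi Set.univ (fun _ : Fin 9 => Set.Icc (-K) K)) :=
    isCompact_univ_pi (fun _ => isCompact_Icc)
  obtain ⟨C, hC⟩ := h1.exists_bound_of_continuousOn hF.continuousOn
  refine ⟨max C 1, by positivity, fun x hx => ?_⟩
  have h2 := hC x (fun i _ => ⟨(abs_le.mp (hx i)).1, (abs_le.mp (hx i)).2⟩)
  rw [Real.norm_eq_abs] at h2
  exact h2.trans (le_max_left _ _)

theorem rc_loc_exp {r c : ℝ} (hr : 0 < r) (hr2 : r ^ 2 ≤ 1 / 3) (hc : |c| ≤ 1) :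
    ∃ e : ℝ, |e| ≤ 1000 ∧
      rc_loc_a r c = 1 + r * c + r ^ 2 * (3 * c ^ 2 - 1) / 2 + r ^ 3 * e := by
  have h := rc_loc_inv hr hr2 hc
  have hr3 : 0 < r ^ 3 := by positivity
  refine ⟨(rc_loc_a r c - (1 + r * c + r ^ 2 * (3 * c ^ 2 - 1) / 2)) / r ^ 3, ?_, ?_⟩
  · rw [abs_div, abs_of_pos hr3, div_le_iff₀ hr3]
    exact h
  · field_simp
    ring

theorem rc_loc_core : ∃ C : ℝ, 0 < C ∧ ∀ r c d : ℝ, 0 < r → r ^ 2 ≤ 1 / 3 → |c| ≤ 1 → |d| ≤ 1 →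
    |r ^ 2 + (1 - r ^ 2) * ((rc_loc_a r c + rc_loc_a r (-c)) / 2) - 1 -
      (3 * c ^ 2 - 1) / 2 * r ^ 2| ≤ C * r ^ 3 ∧
    |r ^ 2 + (1 - r ^ 2) * ((rc_loc_a r c * rc_loc_a r d + rc_loc_a r (-c) * rc_loc_a r (-d)) / 2) -
      (r ^ 2 + (1 - r ^ 2) * ((rc_loc_a r c + rc_loc_a r (-c)) / 2)) *
      (r ^ 2 + (1 - r ^ 2) * ((rc_loc_a r d + rc_loc_a r (-d)) / 2)) * (1 + r ^ 2 * c * d)| ≤
        C * r ^ 3 ∧
    |r ^ 2 + (1 - r ^ 2) * ((rc_loc_a r c ^ 2 + rc_loc_a r (-c) ^ 2) / 2) - 1 -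
      (4 * c ^ 2 - 1) * r ^ 2| ≤ C * r ^ 3 := by
  -- variables: r, c, d, e, e', f, f'
  obtain ⟨C1, hC1, h1⟩ := rc_loc_bdd (fun x => -x 0 * (3 * x 1 ^ 2 - 1) / 2 +
    (1 - x 0 ^ 2) * (x 3 + x 4) / 2) (by fun_prop) 1000
  obtain ⟨C3, hC3, h3⟩ := rc_loc_bdd (fun x =>
    let r := x 0; let c := x 1; let e := x 3; let e' := x 4
    let X := (3 * c ^ 2 - 1) / 2
    (1 - r ^ 2) * (e + e' + c * r * (e - e') + r * X ^ 2 + r ^ 2 * X * (e + e') +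
      r ^ 3 * (e ^ 2 + e' ^ 2) / 2) - r * (4 * c ^ 2 - 1)) (by fun_prop) 1000
  obtain ⟨C2, hC2, h2⟩ := rc_loc_bdd (fun x =>
    let r := x 0; let c := x 1; let d := x 2; let e := x 3; let e' := x 4
    let f := x 5; let f' := x 6
    let X := (3 * c ^ 2 - 1) / 2
    let Y := (3 * d ^ 2 - 1) / 2
    let A := (e + e') / 2
    let B := (f + f') / 2
    -- a a-average: 1 + r^2 X + r^3 A ; mp = 1 + r^2 X + r^3 (A - r X - r^2 A)
    let P := A - r * X - r ^ 2 * A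
    let Q := B - r * Y - r ^ 2 * B
    -- (a b + a' b')/2 = 1 + r^2 (X + Y + c d) + r^3 W
    let W := A + B + r * (d * (e - e') / 2) + r * (c * (f - f') / 2) + r * X * Y +
      r ^ 2 * X * B + r ^ 2 * Y * A + r ^ 3 * (e * f + e' * f') / 2
    (W - r * (X + Y + c * d) - r ^ 2 * W) -
      (P + Q + r * (X * Y) + r ^ 2 * (X * Q) + r ^ 2 * (Y * P) + r ^ 3 * (P * Q)) -
      (c * d) * (r * X + r * Y + r ^ 2 * P + r ^ 2 * Q + r ^ 3 * (X * Y) + r ^ 4 * (X * Q) +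
        r ^ 4 * (Y * P) + r ^ 5 * (P * Q))) (by fun_prop) 1000
  refine ⟨C1 + C2 + C3, by positivity, fun r c d hr hr2 hc hd => ?_⟩
  have hr1 : r ≤ 3 / 5 := by nlinarith
  have hr3 : 0 < r ^ 3 := by positivity
  have hrr : |r| ≤ 1000 := by rw [abs_of_pos hr]; linarith
  obtain ⟨e, he, hea⟩ := rc_loc_exp hr hr2 hc
  obtain ⟨e', he', hea'⟩ := rc_loc_exp hr hr2 (c := -c) (by rwa [abs_neg])
  obtain ⟨f, hf, hfa⟩ := rc_loc_exp hr hr2 hd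
  obtain ⟨f', hf', hfa'⟩ := rc_loc_exp hr hr2 (c := -d) (by rwa [abs_neg])
  have hx : ∀ i, |(![r, c, d, e, e', f, f', 0, 0] : Fin 9 → ℝ) i| ≤ 1000 := by
    intro i
    fin_cases i <;> simp <;> linarith
  have g1 := h1 _ hx
  have g2 := h2 _ hx
  have g3 := h3 _ hx
  simp only [Matrix.cons_val] at g1 g2 g3
  refine ⟨?_, ?_, ?_⟩
  · rw [hea, hea']
    calc _ = |r ^ 3 * (-r * (3 * c ^ 2 - 1) / 2 + (1 - r ^ 2) * (e + e') / 2)| := by
          congr 1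
          ring
      _ = r ^ 3 * |-r * (3 * c ^ 2 - 1) / 2 + (1 - r ^ 2) * (e + e') / 2| := by
          rw [abs_mul, abs_of_pos hr3]
      _ ≤ r ^ 3 * C1 := mul_le_mul_of_nonneg_left g1 hr3.le
      _ ≤ (C1 + C2 + C3) * r ^ 3 := by nlinarith
  · rw [hea, hea', hfa, hfa']
    refine le_trans (le_of_eq ?_) ((mul_le_mul_of_nonneg_left g2 hr3.le).trans
      (by nlinarith : r ^ 3 * C2 ≤ (C1 + C2 + C3) * r ^ 3))
    rw [← abs_of_pos hr3, ← abs_mul, abs_of_pos hr3]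
    congr 1
    ring
  · rw [hea, hea']
    refine le_trans (le_of_eq ?_) ((mul_le_mul_of_nonneg_left g3 hr3.le).trans
      (by nlinarith : r ^ 3 * C3 ≤ (C1 + C2 + C3) * r ^ 3))
    rw [← abs_of_pos hr3, ← abs_mul, abs_of_pos hr3]
    congr 1
    ring

theorem rc_loc_zz_re {p : ℕ} (hp : 0 < p) (t : ℝ) :
    (zz p t).re = (p : ℝ) ^ (-(1 / 2) : ℝ) * Real.cos (t * Real.log p) ∧
    (zz p t).im = -((p : ℝ) ^ (-(1 / 2) : ℝ) * Real.sin (t * Real.log p)) := by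
  have hp0 : (0 : ℝ) < p := by exact_mod_cast hp
  have hpc : (p : ℂ) ≠ 0 := by exact_mod_cast hp.ne'
  have h1 : zz p t = cexp (((-(1 / 2) * Real.log p : ℝ) : ℂ) +
      ((-(t * Real.log p) : ℝ) : ℂ) * I) := by
    rw [zz, Complex.cpow_def_of_ne_zero hpc]
    congr 1
    have h2 : Complex.log (p : ℂ) = ((Real.log p : ℝ) : ℂ) := by
      rw [Complex.ofReal_log hp0.le]
      simp
    rw [h2]
    push_cast
    ring
  have h3 : Real.exp (-(1 / 2) * Real.log p) = (p : ℝ) ^ (-(1 / 2) : ℝ) := by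
    rw [Real.rpow_def_of_pos hp0, mul_comm]
  rw [h1, Complex.exp_add, ← Complex.ofReal_exp, h3, Complex.exp_mul_I, ← Complex.ofReal_cos,
    ← Complex.ofReal_sin, Real.cos_neg, Real.sin_neg]
  constructor
  · rw [Complex.re_ofReal_mul, Complex.add_re, Complex.ofReal_re, Complex.re_ofReal_mul,
      Complex.I_re]
    ring
  · rw [Complex.im_ofReal_mul, Complex.add_im, Complex.ofReal_im, Complex.im_ofReal_mul,
      Complex.I_im]
    ring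

theorem rc_loc_norm {p : ℕ} (hp : 0 < p) (t : ℝ) :
    ‖1 - zz p t‖⁻¹ = rc_loc_a ((p : ℝ) ^ (-(1 / 2) : ℝ)) (Real.cos (t * Real.log p)) ∧
    ‖1 + zz p t‖⁻¹ = rc_loc_a ((p : ℝ) ^ (-(1 / 2) : ℝ)) (-Real.cos (t * Real.log p)) := by
  obtain ⟨h1, h2⟩ := rc_loc_zz_re hp t
  set r := (p : ℝ) ^ (-(1 / 2) : ℝ)
  have h3 := Real.sin_sq_add_cos_sq (t * Real.log p)
  constructor
  · rw [rc_loc_a, Complex.norm_def, Complex.normSq_apply, Complex.sub_re, Complex.sub_im, h1, h2,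
      Complex.one_re, Complex.one_im]
    congr 2
    linear_combination r ^ 2 * h3
  · rw [rc_loc_a, Complex.norm_def, Complex.normSq_apply, Complex.add_re, Complex.add_im, h1, h2,
      Complex.one_re, Complex.one_im]
    congr 2
    linear_combination r ^ 2 * h3

theorem rc_loc_half {r c : ℝ} (hr : 0 < r) (hr2 : r ^ 2 ≤ 1 / 3) (hc : |c| ≤ 1) :
    1 / 2 ≤ rc_loc_a r c := by
  have hcc := abs_le.mp hc
  have hpos := rc_loc_pos hr hr2 hc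
  have hr1 : r ≤ 1 := by nlinarith
  have h1 : Real.sqrt (1 - 2 * r * c + r ^ 2) ≤ 2 := by
    apply Real.sqrt_le_iff.mpr
    refine ⟨by norm_num, ?_⟩
    nlinarith [mul_nonneg hr.le (by linarith : 0 ≤ 1 + c)]
  have h2 : 0 < Real.sqrt (1 - 2 * r * c + r ^ 2) := Real.sqrt_pos.mpr (by linarith)
  rw [rc_loc_a, one_div]
  exact inv_anti₀ h2 h1

/-- LOC: local expansions. -/
theorem loc_pr : ∃ C : ℝ, 0 < C ∧ ∀ p : ℕ, 3 ≤ p → ∀ t s : ℝ,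
    |mp p t - 1 - (1 / 4 + 3 / 4 * Real.cos (2 * t * Real.log p)) / p| ≤
      C * (p : ℝ) ^ (-(3 / 2 : ℝ)) ∧
    |mp2 p t s / (mp p t * mp p s) - 1 - Real.cos (t * Real.log p) * Real.cos (s * Real.log p) / p|
      ≤ C * (p : ℝ) ^ (-(3 / 2 : ℝ)) ∧
    |mq p t - 1 - (1 + 2 * Real.cos (2 * t * Real.log p)) / p| ≤ C * (p : ℝ) ^ (-(3 / 2 : ℝ)) ∧
    1 / 2 ≤ mp p t := by
  obtain ⟨C, hC, hcore⟩ := rc_loc_core
  refine ⟨4 * C, by positivity, fun p hp t s => ?_⟩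
  have hp0 : (0 : ℝ) < p := by exact_mod_cast (by omega : 0 < p)
  have hp3 : (3 : ℝ) ≤ p := by exact_mod_cast hp
  set r : ℝ := (p : ℝ) ^ (-(1 / 2) : ℝ) with hrdef
  have hr : 0 < r := Real.rpow_pos_of_pos hp0 _
  have hrp : 1 / (p : ℝ) = r ^ 2 := by
    rw [hrdef, ← Real.rpow_natCast, ← Real.rpow_mul hp0.le]
    norm_num [Real.rpow_neg_one]
  have hr3 : (p : ℝ) ^ (-(3 / 2 : ℝ)) = r ^ 3 := by
    rw [hrdef, ← Real.rpow_natCast, ← Real.rpow_mul hp0.le]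
    norm_num
  have hr2 : r ^ 2 ≤ 1 / 3 := by
    rw [← hrp]
    exact one_div_le_one_div_of_le (by norm_num) hp3
  set c : ℝ := Real.cos (t * Real.log p) with hc
  set d : ℝ := Real.cos (s * Real.log p) with hd
  have hc1 : |c| ≤ 1 := Real.abs_cos_le_one _
  have hd1 : |d| ≤ 1 := Real.abs_cos_le_one _
  obtain ⟨n1, n2⟩ := rc_loc_norm (by omega : 0 < p) t
  obtain ⟨n3, n4⟩ := rc_loc_norm (by omega : 0 < p) s
  obtain ⟨k1, k2, k3⟩ := hcore r c d hr hr2 hc1 hd1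
  have hcos2 : Real.cos (2 * t * Real.log p) = 2 * c ^ 2 - 1 := by
    rw [mul_assoc, Real.cos_two_mul]
  have hmp : mp p t = r ^ 2 + (1 - r ^ 2) * ((rc_loc_a r c + rc_loc_a r (-c)) / 2) := by
    rw [mp, n1, n2, hrp]
  have hmps : mp p s = r ^ 2 + (1 - r ^ 2) * ((rc_loc_a r d + rc_loc_a r (-d)) / 2) := by
    rw [mp, n3, n4, hrp]
  have hmp2 : mp2 p t s = r ^ 2 + (1 - r ^ 2) *
      ((rc_loc_a r c * rc_loc_a r d + rc_loc_a r (-c) * rc_loc_a r (-d)) / 2) := by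
    rw [mp2, n1, n2, n3, n4, hrp]
  have hmq : mq p t = r ^ 2 + (1 - r ^ 2) *
      ((rc_loc_a r c ^ 2 + rc_loc_a r (-c) ^ 2) / 2) := by
    rw [mq, n1, n2, hrp]
  have hl : ∀ x : ℝ, |x| ≤ 1 → 1 / 2 ≤ r ^ 2 + (1 - r ^ 2) *
      ((rc_loc_a r x + rc_loc_a r (-x)) / 2) := by
    intro x hx
    have h1 := rc_loc_half hr hr2 hx
    have h2 := rc_loc_half hr hr2 (c := -x) (by rwa [abs_neg])
    nlinarith
  have hr3p : 0 < r ^ 3 := by positivity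
  have hdiv : ∀ x : ℝ, x / p = x * r ^ 2 := by
    intro x
    rw [← hrp]
    ring
  rw [hr3, hdiv, hdiv, hdiv, hcos2]
  refine ⟨?_, ?_, ?_, ?_⟩
  · rw [hmp]
    calc _ = |r ^ 2 + (1 - r ^ 2) * ((rc_loc_a r c + rc_loc_a r (-c)) / 2) - 1 -
          (3 * c ^ 2 - 1) / 2 * r ^ 2| := by congr 1; ring
      _ ≤ C * r ^ 3 := k1
      _ ≤ 4 * C * r ^ 3 := by nlinarith
  · have hm1 : 1 / 2 ≤ mp p t := by rw [hmp]; exact hl c hc1
    have hm2 : 1 / 2 ≤ mp p s := by rw [hmps]; exact hl d hd1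
    have hm : 1 / 4 ≤ mp p t * mp p s := by
      have := mul_le_mul hm1 hm2 (by norm_num) (by linarith)
      linarith
    rw [← hmp, ← hmps, ← hmp2] at k2
    clear hmp hmps hmp2 hmq hl k1 k3 n1 n2 n3 n4
    have h5 : mp2 p t s / (mp p t * mp p s) - 1 - c * d * r ^ 2 =
        (mp2 p t s - mp p t * mp p s * (1 + r ^ 2 * c * d)) / (mp p t * mp p s) := by
      have h6 : mp p t * mp p s ≠ 0 := by linarith
      rw [sub_sub, sub_div, mul_div_cancel_left₀ _ h6]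
      ring
    rw [h5, abs_div, abs_of_pos (by linarith : 0 < mp p t * mp p s),
      div_le_iff₀ (by linarith)]
    calc _ ≤ C * r ^ 3 := k2
      _ = 4 * C * r ^ 3 * (1 / 4) := by ring
      _ ≤ 4 * C * r ^ 3 * (mp p t * mp p s) := mul_le_mul_of_nonneg_left hm (by positivity)
  · rw [hmq]
    calc _ = |r ^ 2 + (1 - r ^ 2) * ((rc_loc_a r c ^ 2 + rc_loc_a r (-c) ^ 2) / 2) - 1 -
          (4 * c ^ 2 - 1) * r ^ 2| := by congr 1; ring
      _ ≤ C * r ^ 3 := k3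
      _ ≤ 4 * C * r ^ 3 := by nlinarith
  · rw [hmp]
    exact hl c hc1

end Pool.Agent.RC

namespace Pool.Agent.RC

alias loc := loc_pr

end Pool.Agent.RC
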