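import Pool.Agent.Lib_helper39.RC.Defs
/-!
# RC, block PR1
-/

namespace Pool.Agent.RC

open Complex MeasureTheory Filter Topology

theorem rc_pr1_theta (N : ℕ) : ∑ p ∈ pr N, Real.log p ≤ Real.log 4 * N := by
  have h := Chebyshev.theta_le_log4_mul_x (x := (N : ℝ)) (Nat.cast_nonneg N)
  have h2 : Chebyshev.theta (N : ℝ) = ∑ p ∈ pr N, Real.log p := by
    rw [Chebyshev.theta_eq_sum_Icc]
    apply Finset.sum_congr _ (fun _ _ => rfl)
    ext p
    simp only [pr, Finset.mem_filter, Finset.mem_Icc, Finset.mem_range, Nat.floor_natCast]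
    constructor
    · rintro ⟨⟨_, h1⟩, h2⟩
      exact ⟨by omega, h2⟩
    · rintro ⟨h1, h2⟩
      exact ⟨⟨by omega, by omega⟩, h2⟩
  rw [← h2]
  exact h

theorem rc_pr1_dvd (N : ℕ) : ∏ p ∈ pr N, p ^ (N / p) ∣ N.factorial := by
  apply Finset.prod_dvd_of_isRelPrime
  · intro p hp q hq hpq
    have hp' := (Finset.mem_filter.mp (Finset.mem_coe.mp hp)).2
    have hq' := (Finset.mem_filter.mp (Finset.mem_coe.mp hq)).2
    exact Nat.coprime_iff_isRelPrime.mp
      (Nat.Coprime.pow _ _ ((Nat.coprime_primes hp' hq').mpr hpq))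
  · intro p hp
    simp only [pr, Finset.mem_filter, Finset.mem_range] at hp
    have hb : Nat.log p N < N + 2 := lt_of_le_of_lt (Nat.log_le_self p N) (by omega)
    rw [hp.2.pow_dvd_factorial_iff hb]
    have h1 : N / p = N / p ^ 1 := by rw [pow_one]
    rw [h1]
    exact Finset.single_le_sum (f := fun i => N / p ^ i) (fun i _ => Nat.zero_le _)
      (Finset.mem_Ico.mpr ⟨le_refl 1, by omega⟩)

theorem pr1_pr : ∃ C : ℝ, 0 < C ∧ ∀ N : ℕ, 2 ≤ N →
    ∑ p ∈ pr N, Real.log p / p ≤ C * Real.log N := by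
  refine ⟨3, by norm_num, ?_⟩
  intro N hN
  have hN0 : (0 : ℝ) < N := by positivity
  have hp0 : ∀ p ∈ pr N, (0 : ℝ) < p ∧ 0 ≤ Real.log p := by
    intro p hp
    simp only [pr, Finset.mem_filter, Finset.mem_range] at hp
    have := hp.2.one_lt
    exact ⟨by exact_mod_cast (by omega : 0 < p), Real.log_natCast_nonneg p⟩
  have hfac : ∑ p ∈ pr N, ((N / p : ℕ) : ℝ) * Real.log p ≤ N * Real.log N := by
    have h1 : (∏ p ∈ pr N, p ^ (N / p)) ≤ N ^ N :=
      (Nat.le_of_dvd (Nat.factorial_pos N) (rc_pr1_dvd N)).trans (Nat.factorial_le_pow N)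
    have h2 : Real.log ((∏ p ∈ pr N, p ^ (N / p) : ℕ) : ℝ) ≤ Real.log ((N ^ N : ℕ) : ℝ) := by
      apply Real.log_le_log
      · have : 0 < ∏ p ∈ pr N, p ^ (N / p) := by
          apply Finset.prod_pos
          intro p hp
          simp only [pr, Finset.mem_filter, Finset.mem_range] at hp
          exact pow_pos hp.2.pos _
        exact_mod_cast this
      · exact_mod_cast h1
    rw [Nat.cast_pow, Real.log_pow, Nat.cast_prod, Real.log_prod] at h2
    · refine le_trans (le_of_eq ?_) h2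
      apply Finset.sum_congr rfl
      intro p hp
      rw [Nat.cast_pow, Real.log_pow]
    · intro p hp
      rw [Nat.cast_pow]
      exact pow_ne_zero _ (hp0 p hp).1.ne'
  have hlow : ∀ p ∈ pr N, (N : ℝ) * (Real.log p / p) ≤
      ((N / p : ℕ) : ℝ) * Real.log p + Real.log p := by
    intro p hp
    obtain ⟨h1, h2⟩ := hp0 p hp
    have h3 : (N : ℝ) / p ≤ ((N / p : ℕ) : ℝ) + 1 := by
      have := Nat.lt_div_mul_add (a := N) (b := p) (by exact_mod_cast h1)
      rw [div_le_iff₀ h1]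
      have h4 : (N : ℝ) < ((N / p : ℕ) : ℝ) * p + p := by exact_mod_cast this
      nlinarith
    calc (N : ℝ) * (Real.log p / p) = ((N : ℝ) / p) * Real.log p := by ring
      _ ≤ (((N / p : ℕ) : ℝ) + 1) * Real.log p := mul_le_mul_of_nonneg_right h3 h2
      _ = _ := by ring
  have hsum : (N : ℝ) * ∑ p ∈ pr N, Real.log p / p ≤ N * Real.log N + Real.log 4 * N := by
    rw [Finset.mul_sum]
    refine (Finset.sum_le_sum hlow).trans ?_
    rw [Finset.sum_add_distrib]
    exact add_le_add hfac (rc_pr1_theta N)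
  have hlog4 : Real.log 4 ≤ 2 * Real.log N := by
    have h1 : Real.log 4 = 2 * Real.log 2 := by
      rw [show (4 : ℝ) = 2 ^ 2 by norm_num, Real.log_pow]
      norm_num
    rw [h1]
    have : Real.log 2 ≤ Real.log N := Real.log_le_log (by norm_num) (by exact_mod_cast hN)
    linarith
  have : (N : ℝ) * ∑ p ∈ pr N, Real.log p / p ≤ N * (3 * Real.log N) := by nlinarith
  exact le_of_mul_le_mul_left this hN0

end Pool.Agent.RC

namespace Pool.Agent.RC

alias pr1 := pr1_pr

end Pool.Agent.RC
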