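import Pool.Agent.Lib_helper39.RC.Defs
import Pool.Agent.Lib_helper39.RCA.PR1
/-!
# RC, block PRA
-/

namespace Pool.Agent.RC

open Complex MeasureTheory Filter Topology

theorem rc_pra_rpow {p : ℝ} (hp : 0 < p) {l : ℝ} :
    p ^ (-(1 + 1 / l)) = 1 / p * Real.exp (-(Real.log p / l)) := by
  rw [Real.rpow_def_of_pos hp]
  have h1 : Real.log p * (-(1 + 1 / l)) = -Real.log p + -(Real.log p / l) := by ring
  rw [h1, Real.exp_add, Real.exp_neg, Real.exp_log hp, one_div]

theorem pra_pr : ∃ C : ℝ, 0 < C ∧ ∀ P : ℕ, 2 ≤ P →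
    ∑ p ∈ pr P, (1 / (p : ℝ) - (p : ℝ) ^ (-(1 + 1 / Real.log P))) ≤ C ∧
    ∀ M : ℕ, ∑ p ∈ prr P M, (p : ℝ) ^ (-(1 + 1 / Real.log P)) ≤ C := by
  obtain ⟨C, hC, hpr1⟩ := pr1
  have he : (0 : ℝ) < 1 - Real.exp (-1) := by
    have : Real.exp (-1) < 1 := Real.exp_lt_one_iff.mpr (by norm_num)
    linarith
  refine ⟨C + 2 * C * (1 - Real.exp (-1))⁻¹, by positivity, ?_⟩
  intro P hP
  have hP0 : (0 : ℝ) < P := by positivity
  have hlog : 0 < Real.log P := Real.log_pos (by exact_mod_cast (by omega : 1 < P))
  have hA : 0 ≤ 2 * C * (1 - Real.exp (-1))⁻¹ := by positivity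
  constructor
  · have h1 : ∀ p ∈ pr P, (1 / (p : ℝ) - (p : ℝ) ^ (-(1 + 1 / Real.log P))) ≤
        Real.log p / p / Real.log P := by
      intro p hp
      have hpp := (Finset.mem_filter.mp hp).2
      have hp0 : (0 : ℝ) < p := by exact_mod_cast hpp.pos
      rw [rc_pra_rpow hp0]
      have h2 := Real.add_one_le_exp (-(Real.log p / Real.log P))
      have h3 : 1 / (p : ℝ) - 1 / p * Real.exp (-(Real.log p / Real.log P)) ≤
          1 / p * (Real.log p / Real.log P) := by
        have h4 : 0 < 1 / (p : ℝ) := by positivity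
        nlinarith
      refine h3.trans (le_of_eq ?_)
      ring
    refine (Finset.sum_le_sum h1).trans ?_
    rw [← Finset.sum_div, div_le_iff₀ hlog]
    have := hpr1 P hP
    nlinarith
  · intro M
    have hterm : ∀ p ∈ prr P M, P ^ Nat.log P p ≤ p ∧ p < P ^ (Nat.log P p + 1) ∧
        1 ≤ Nat.log P p ∧ p.Prime := by
      intro p hp
      have hPp : P < p := (Finset.mem_filter.mp hp).2
      have hpp : p.Prime := (Finset.mem_filter.mp (Finset.mem_filter.mp hp).1).2
      refine ⟨Nat.pow_log_le_self P hpp.ne_zero, Nat.lt_pow_succ_log_self (by omega) p, ?_, hpp⟩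
      exact Nat.log_pos (by omega) hPp.le
    have hmaps : ∀ p ∈ prr P M, Nat.log P p ∈ Finset.Ico 1 (M + 1) := by
      intro p hp
      have h1 := hterm p hp
      have h2 : p < M + 1 := Finset.mem_range.mp
        (Finset.mem_filter.mp (Finset.mem_filter.mp hp).1).1
      exact Finset.mem_Ico.mpr ⟨h1.2.2.1, lt_of_le_of_lt (Nat.log_le_self P p) h2⟩
    rw [← Finset.sum_fiberwise_of_maps_to hmaps]
    have hblock : ∀ i ∈ Finset.Ico 1 (M + 1),
        ∑ p ∈ (prr P M).filter (fun p => Nat.log P p = i), (p : ℝ) ^ (-(1 + 1 / Real.log P)) ≤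
          2 * C * Real.exp (-1) ^ i := by
      intro i hi
      have hi1 : 1 ≤ i := (Finset.mem_Ico.mp hi).1
      have hi0 : (0 : ℝ) < i := by exact_mod_cast hi1
      have h1 : ∀ p ∈ (prr P M).filter (fun p => Nat.log P p = i),
          (p : ℝ) ^ (-(1 + 1 / Real.log P)) ≤
            Real.exp (-1) ^ i / (i * Real.log P) * (Real.log p / p) := by
        intro p hp
        obtain ⟨hp1, hp2⟩ := Finset.mem_filter.mp hp
        obtain ⟨h3, h4, h5, h6⟩ := hterm p hp1
        rw [hp2] at h3 h4 h5
        have hp0 : (0 : ℝ) < p := by exact_mod_cast h6.pos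
        have hlogp : i * Real.log P ≤ Real.log p := by
          rw [← Real.log_pow]
          exact Real.log_le_log (by positivity) (by exact_mod_cast h3)
        have h7 : (i : ℝ) ≤ Real.log p / Real.log P := by
          rw [le_div_iff₀ hlog]
          exact hlogp
        rw [rc_pra_rpow hp0]
        have h8 : Real.exp (-(Real.log p / Real.log P)) ≤ Real.exp (-1) ^ i := by
          rw [← Real.exp_nat_mul]
          apply Real.exp_le_exp.mpr
          linarith
        have h9 : (1 : ℝ) ≤ Real.log p / (i * Real.log P) := by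
          rw [le_div_iff₀ (mul_pos hi0 hlog)]
          linarith
        calc 1 / (p : ℝ) * Real.exp (-(Real.log p / Real.log P))
            ≤ 1 / (p : ℝ) * Real.exp (-1) ^ i :=
              mul_le_mul_of_nonneg_left h8 (by positivity)
          _ = 1 * (1 / (p : ℝ) * Real.exp (-1) ^ i) := by ring
          _ ≤ Real.log p / (i * Real.log P) * (1 / (p : ℝ) * Real.exp (-1) ^ i) :=
              mul_le_mul_of_nonneg_right h9 (by positivity)
          _ = _ := by ring
      refine (Finset.sum_le_sum h1).trans ?_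
      rw [← Finset.mul_sum]
      have h2 : ∑ p ∈ (prr P M).filter (fun p => Nat.log P p = i), Real.log p / p ≤
          ∑ p ∈ pr (P ^ (i + 1)), Real.log p / p := by
        apply Finset.sum_le_sum_of_subset_of_nonneg
        · intro p hp
          obtain ⟨hp1, hp2⟩ := Finset.mem_filter.mp hp
          obtain ⟨h3, h4, h5, h6⟩ := hterm p hp1
          rw [hp2] at h4
          exact Finset.mem_filter.mpr ⟨Finset.mem_range.mpr (by omega), h6⟩
        · intro p _ _
          exact div_nonneg (Real.log_natCast_nonneg p) (Nat.cast_nonneg p)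
      have h3 : ∑ p ∈ pr (P ^ (i + 1)), Real.log p / p ≤ C * ((i + 1) * Real.log P) := by
        have h4 : 2 ≤ P ^ (i + 1) := by
          calc 2 ≤ P := hP
            _ = P ^ 1 := (pow_one P).symm
            _ ≤ P ^ (i + 1) := Nat.pow_le_pow_right (by omega) (by omega)
        have h5 := hpr1 (P ^ (i + 1)) h4
        rw [Nat.cast_pow, Real.log_pow] at h5
        push_cast at h5
        exact h5
      have h4 : (0 : ℝ) ≤ Real.exp (-1) ^ i / (i * Real.log P) := by positivity
      refine (mul_le_mul_of_nonneg_left (h2.trans h3) h4).trans ?_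
      rw [div_mul_eq_mul_div, div_le_iff₀ (mul_pos hi0 hlog)]
      have h5 : ((i : ℝ) + 1) ≤ 2 * i := by
        have : (1 : ℝ) ≤ i := by exact_mod_cast hi1
        linarith
      have h6 : 0 ≤ Real.exp (-1) ^ i * C * Real.log P := by positivity
      nlinarith
    refine (Finset.sum_le_sum hblock).trans ?_
    rw [← Finset.mul_sum]
    have hgeo : ∑ i ∈ Finset.Ico 1 (M + 1), Real.exp (-1) ^ i ≤ (1 - Real.exp (-1))⁻¹ := by
      have h1 : ∑ i ∈ Finset.Ico 1 (M + 1), Real.exp (-1) ^ i ≤
          ∑ i ∈ Finset.range (M + 1), Real.exp (-1) ^ i := by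
        apply Finset.sum_le_sum_of_subset_of_nonneg
        · intro i hi
          exact Finset.mem_range.mpr (Finset.mem_Ico.mp hi).2
        · intro i _ _
          positivity
      refine h1.trans ?_
      have h2 : Summable fun i : ℕ => Real.exp (-1) ^ i :=
        summable_geometric_of_lt_one (Real.exp_pos _).le (by linarith)
      have h3 := h2.sum_le_tsum (Finset.range (M + 1)) (fun i _ => by positivity)
      rwa [tsum_geometric_of_lt_one (Real.exp_pos _).le (by linarith)] at h3
    have := mul_le_mul_of_nonneg_left hgeo (by positivity : 0 ≤ 2 * C)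
    linarith

end Pool.Agent.RC

namespace Pool.Agent.RC

alias pra := pra_pr

end Pool.Agent.RC
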