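import Pool.Agent.Lib_helper39.RC.Defs
/-!
# PRB: the logarithm of the zeta function as a sum over primes
-/

namespace Pool.Agent.RC

open Complex MeasureTheory Filter Topology

theorem rc_prb_norm (p : ℕ) (hp : p.Prime) (δ s : ℝ) :
    ‖(p : ℂ) ^ (-(1 + δ + s * I) : ℂ)‖ = (p : ℝ) ^ (-(1 + δ)) := by
  rw [Complex.norm_natCast_cpow_of_pos hp.pos]
  congr 1
  simp

theorem rc_prb_re (p : ℕ) (hp : p.Prime) (δ s : ℝ) :
    ((p : ℂ) ^ (-(1 + δ + s * I) : ℂ)).re = Real.cos (s * Real.log p) * (p : ℝ) ^ (-(1 + δ)) := by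
  have hp0 : (p : ℂ) ≠ 0 := by exact_mod_cast hp.ne_zero
  rw [Complex.cpow_def_of_ne_zero hp0, ← Complex.ofReal_natCast, ← Complex.ofReal_log
    (Nat.cast_nonneg p), Complex.exp_re]
  have e1 : ((Real.log p : ℂ) * (-(1 + δ + s * I) : ℂ)).re = Real.log p * (-(1 + δ)) := by
    rw [Complex.re_ofReal_mul]; simp
  have e2 : ((Real.log p : ℂ) * (-(1 + δ + s * I) : ℂ)).im = -(s * Real.log p) := by
    rw [Complex.im_ofReal_mul]; simp [mul_comm]
  rw [e1, e2, Real.cos_neg, ← Real.rpow_def_of_pos (by exact_mod_cast hp.pos)]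
  ring

theorem rc_prb_le (p : ℕ) (hp : p.Prime) (δ : ℝ) (hδ : 0 < δ) :
    (p : ℝ) ^ (-(1 + δ)) ≤ 1 / p := by
  have hp1 : (1 : ℝ) ≤ p := by exact_mod_cast hp.one_lt.le
  calc (p : ℝ) ^ (-(1 + δ)) ≤ (p : ℝ) ^ (-1 : ℝ) :=
        Real.rpow_le_rpow_of_exponent_le hp1 (by linarith)
    _ = 1 / p := by rw [Real.rpow_neg_one, one_div]

theorem rc_prb_term (p : ℕ) (hp : p.Prime) (δ s : ℝ) (hδ : 0 < δ) :
    |(-Complex.log (1 - (p : ℂ) ^ (-(1 + δ + s * I) : ℂ))).re -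
      Real.cos (s * Real.log p) * (p : ℝ) ^ (-(1 + δ))| ≤ 1 / (p : ℝ) ^ 2 := by
  rw [← rc_prb_re p hp δ s, ← Complex.sub_re]
  refine (Complex.abs_re_le_norm _).trans ?_
  set z := (p : ℂ) ^ (-(1 + δ + s * I) : ℂ) with hz
  have hn : ‖z‖ ≤ 1 / p := by
    rw [hz, rc_prb_norm p hp]; exact rc_prb_le p hp δ hδ
  have hp2 : (2 : ℝ) ≤ p := by exact_mod_cast hp.two_le
  have hhalf : (1 : ℝ) / p ≤ 1 / 2 := by
    apply one_div_le_one_div_of_le <;> linarith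
  have hz2 : ‖z‖ ≤ 1 / 2 := hn.trans hhalf
  have h1 := Complex.norm_log_one_add_sub_self_le (z := -z) (by rw [norm_neg]; linarith)
  rw [norm_neg] at h1
  have e : -Complex.log (1 - z) - z = -(Complex.log (1 + -z) - -z) := by
    rw [← sub_eq_add_neg]; ring
  rw [e, norm_neg]
  refine h1.trans ?_
  have h3 : (1 - ‖z‖)⁻¹ ≤ 2 := by
    rw [inv_le_comm₀ (by linarith) (by norm_num)]
    linarith
  have h0 := norm_nonneg z
  calc ‖z‖ ^ 2 * (1 - ‖z‖)⁻¹ / 2 ≤ ‖z‖ ^ 2 * 2 / 2 := by gcongr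
    _ = ‖z‖ ^ 2 := by ring
    _ ≤ (1 / p) ^ 2 := by gcongr
    _ = 1 / (p : ℝ) ^ 2 := by ring

theorem rc_prb_sum2 : Summable fun p : Nat.Primes => 1 / (p : ℝ) ^ 2 := by
  have h : Summable fun n : ℕ => 1 / (n : ℝ) ^ 2 := Real.summable_one_div_nat_pow.2 (by norm_num)
  exact h.comp_injective Nat.Primes.coe_nat_injective

theorem prb_pr : ∃ C : ℝ, 0 < C ∧ ∀ δ s : ℝ, 0 < δ → δ ≤ 2 →
    |(∑' p : Nat.Primes, Real.cos (s * Real.log p) * (p : ℝ) ^ (-(1 + δ))) -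
      Real.log ‖riemannZeta (1 + δ + s * I)‖| ≤ C := by
  have hpos : 0 ≤ ∑' p : Nat.Primes, 1 / (p : ℝ) ^ 2 := tsum_nonneg fun p => by positivity
  refine ⟨(∑' p : Nat.Primes, 1 / (p : ℝ) ^ 2) + 1, by linarith, fun δ s hδ _ => ?_⟩
  have hs : 1 < (1 + δ + s * I : ℂ).re := by simp [hδ]
  have hsumN : Summable fun p : Nat.Primes => (p : ℝ) ^ (-(1 + δ)) :=
    Nat.Primes.summable_rpow.2 (by linarith)
  have hsumz : Summable fun p : Nat.Primes => (p : ℂ) ^ (-(1 + δ + s * I) : ℂ) := by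
    apply Summable.of_norm
    refine hsumN.congr fun p => ?_
    rw [rc_prb_norm p p.2]
  have hlog : Summable fun p : Nat.Primes =>
      -Complex.log (1 - (p : ℂ) ^ (-(1 + δ + s * I) : ℂ)) := (Summable.clog_one_sub hsumz).neg
  have hcos : Summable fun p : Nat.Primes =>
      Real.cos (s * Real.log p) * (p : ℝ) ^ (-(1 + δ)) := by
    refine Summable.of_norm_bounded hsumN fun p => ?_
    rw [norm_mul, Real.norm_eq_abs, Real.norm_eq_abs,
      abs_of_nonneg (Real.rpow_nonneg (Nat.cast_nonneg _) _)]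
    exact mul_le_of_le_one_left (Real.rpow_nonneg (Nat.cast_nonneg _) _)
      (Real.abs_cos_le_one _)
  have hre : Summable fun p : Nat.Primes =>
      (-Complex.log (1 - (p : ℂ) ^ (-(1 + δ + s * I) : ℂ))).re :=
    (Complex.hasSum_re hlog.hasSum).summable
  have hlz : Real.log ‖riemannZeta (1 + δ + s * I)‖ =
      ∑' p : Nat.Primes, (-Complex.log (1 - (p : ℂ) ^ (-(1 + δ + s * I) : ℂ))).re := by
    rw [← riemannZeta_eulerProduct_exp_log hs, Complex.norm_exp, Real.log_exp,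
      Complex.re_tsum hlog]
  rw [hlz, ← hcos.tsum_sub hre]
  have hd := hcos.sub hre
  have hb : ∀ p : Nat.Primes, ‖Real.cos (s * Real.log p) * (p : ℝ) ^ (-(1 + δ)) -
      (-Complex.log (1 - (p : ℂ) ^ (-(1 + δ + s * I) : ℂ))).re‖ ≤ 1 / (p : ℝ) ^ 2 := by
    intro p
    rw [Real.norm_eq_abs, abs_sub_comm]
    exact rc_prb_term p p.2 δ s hδ
  have := tsum_of_norm_bounded rc_prb_sum2.hasSum hb
  rw [Real.norm_eq_abs] at this
  linarith

end Pool.Agent.RC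

namespace Pool.Agent.RC

alias prb := prb_pr

end Pool.Agent.RC
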