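import Pool.Agent.Lib_helper39.RC.Defs
/-!
RC, block PRC: the size of zeta to the right of `1`.
-/

set_option autoImplicit false

namespace Pool.Agent.RC

open Complex MeasureTheory Filter Topology

/-- `z ζ(1+z)`. -/
noncomputable def rc_PRC_G : ℂ → ℂ := Function.update (fun z => z * riemannZeta (1 + z)) 0 1

theorem rc_PRC_continuous : Continuous rc_PRC_G := by
  rw [continuous_iff_continuousAt]
  intro z
  by_cases hz : z = 0
  · subst hz
    rw [rc_PRC_G, continuousAt_update_same]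
    have h1 : Tendsto (fun z : ℂ => 1 + z) (𝓝[≠] 0) (𝓝[≠] 1) := by
      refine tendsto_nhdsWithin_iff.2 ⟨?_, ?_⟩
      · have : Tendsto (fun z : ℂ => 1 + z) (𝓝 0) (𝓝 (1 + 0)) :=
          (continuous_const.add continuous_id).tendsto 0
        rw [add_zero] at this
        exact this.mono_left nhdsWithin_le_nhds
      · filter_upwards [self_mem_nhdsWithin] with z hz
        simpa using hz
    have h2 := riemannZeta_residue_one.comp h1
    refine h2.congr (fun z => ?_)
    simp [Function.comp]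
  · have h1 : DifferentiableAt ℂ (fun z => z * riemannZeta (1 + z)) z := by
      have h2 : DifferentiableAt ℂ riemannZeta (1 + z) :=
        differentiableAt_riemannZeta (by simpa using hz)
      exact differentiableAt_id.mul (h2.comp z ((differentiableAt_const 1).add differentiableAt_id))
    rw [rc_PRC_G, continuousAt_update_of_ne hz]
    exact h1.continuousAt

theorem rc_PRC_ne {z : ℂ} (hz : 0 ≤ z.re) : rc_PRC_G z ≠ 0 := by
  by_cases h : z = 0
  · subst h
    simp [rc_PRC_G]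
  · rw [rc_PRC_G, Function.update_of_ne h]
    exact mul_ne_zero h (riemannZeta_ne_zero_of_one_le_re (by simpa using hz))

/-- PRC. -/
theorem prc_pr (T : ℝ) : ∃ C : ℝ, 0 < C ∧ ∀ δ s : ℝ, 0 < δ → δ ≤ 2 → |s| ≤ T →
    |Real.log ‖riemannZeta (1 + δ + s * I)‖ + Real.log (|s| + δ)| ≤ C := by
  have hK : IsCompact (Set.Icc (0 : ℝ) 2 ×ℂ Set.Icc (-T) T) := isCompact_Icc.reProdIm isCompact_Icc
  have hcont : ContinuousOn (fun z => Real.log ‖rc_PRC_G z‖)
      (Set.Icc (0 : ℝ) 2 ×ℂ Set.Icc (-T) T) := by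
    intro z hz
    have h0 : ‖rc_PRC_G z‖ ≠ 0 := norm_ne_zero_iff.2 (rc_PRC_ne hz.1.1)
    exact (rc_PRC_continuous.norm.continuousAt.log h0).continuousWithinAt
  obtain ⟨C, hC⟩ := hK.exists_bound_of_continuousOn hcont
  refine ⟨|C| + Real.log 2, by positivity, fun δ s hδ hδ2 hs => ?_⟩
  set z : ℂ := δ + s * I with hz
  have hzre : z.re = δ := by simp [hz]
  have hzim : z.im = s := by simp [hz]
  have hzK : z ∈ (Set.Icc (0 : ℝ) 2 ×ℂ Set.Icc (-T) T) := by
    refine ⟨?_, ?_⟩
    · rw [Set.mem_preimage, hzre]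
      exact ⟨hδ.le, hδ2⟩
    · rw [Set.mem_preimage, hzim]
      exact abs_le.1 hs
  have hz0 : z ≠ 0 := by
    intro h
    rw [h, Complex.zero_re] at hzre
    exact hδ.ne hzre
  have h1 := hC z hzK
  have hnz : 0 < ‖z‖ := norm_pos_iff.2 hz0
  have hζ : 0 < ‖riemannZeta (1 + z)‖ :=
    norm_pos_iff.2 (riemannZeta_ne_zero_of_one_le_re (by simp [hzre, hδ.le]))
  have h2 : Real.log ‖rc_PRC_G z‖ = Real.log ‖z‖ + Real.log ‖riemannZeta (1 + z)‖ := by
    rw [rc_PRC_G, Function.update_of_ne hz0, norm_mul, Real.log_mul hnz.ne' hζ.ne']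
  have h3 : (1 : ℂ) + δ + s * I = 1 + z := by rw [hz]; ring
  have hsum : 0 < |s| + δ := by positivity
  have h4 : ‖z‖ ≤ |s| + δ := by
    have := Complex.norm_le_abs_re_add_abs_im z
    rw [hzre, hzim, abs_of_pos hδ] at this
    linarith
  have h5 : |s| + δ ≤ 2 * ‖z‖ := by
    have e1 := Complex.abs_re_le_norm z
    have e2 := Complex.abs_im_le_norm z
    rw [hzre, abs_of_pos hδ] at e1
    rw [hzim] at e2
    linarith
  have h6 : Real.log ‖z‖ ≤ Real.log (|s| + δ) := Real.log_le_log hnz h4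
  have h7 : Real.log (|s| + δ) ≤ Real.log 2 + Real.log ‖z‖ := by
    rw [← Real.log_mul (by norm_num) hnz.ne']
    exact Real.log_le_log hsum h5
  rw [h3]
  rw [h2, Real.norm_eq_abs] at h1
  have h8 : |Real.log ‖z‖ + Real.log ‖riemannZeta (1 + z)‖| ≤ |C| := h1.trans (le_abs_self C)
  have hl2 : 0 < Real.log 2 := Real.log_pos (by norm_num)
  rw [abs_le] at h8 ⊢
  constructor <;> linarith [h8.1, h8.2]

end Pool.Agent.RC

namespace Pool.Agent.RC

alias prc := prc_pr

end Pool.Agent.RC
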