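import Pool.Agent.Lib_helper39.RC.Defs
import Pool.Agent.Lib_helper39.RCA.IND
import Pool.Agent.Lib_helper39.RCA.LOC
import Pool.Agent.Lib_helper39.RCA.PSUM
set_option autoImplicit false

namespace Pool.Agent.RC

open Complex MeasureTheory Filter Topology

theorem rc_abd_rv_le (j : Fin 4) (c n : ℕ) : ‖((rv j c n : ℤ) : ℂ)‖ ≤ 1 := by
  rw [Complex.norm_intCast]
  unfold rv
  push_cast
  rw [abs_mul]
  have h1 : |((jacobiSym (n : ℤ) c : ℤ) : ℝ)| ≤ 1 := by
    rcases jacobiSym.trichotomy (n : ℤ) c with h | h | h <;> rw [h] <;> simp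
  have h2 : |((psi j n : ℤ) : ℝ)| ≤ 1 := by
    unfold psi
    fin_cases j
    · simp
    · rcases ZMod.isQuadratic_χ₄ (n : ZMod 4) with h | h | h <;> simp [h]
    · rcases ZMod.isQuadratic_χ₈ (n : ZMod 8) with h | h | h <;> simp [h]
    · rcases ZMod.isQuadratic_χ₈' (n : ZMod 8) with h | h | h <;> simp [h]
  calc _ ≤ (1 : ℝ) * 1 := mul_le_mul h2 h1 (abs_nonneg _) zero_le_one
    _ = 1 := one_mul 1

theorem rc_abd_norm_zz (p : ℕ) (hp : 0 < p) (t : ℝ) : ‖zz p t‖ = (p : ℝ) ^ (-(1 / 2 : ℝ)) := by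
  unfold zz
  rw [Complex.norm_natCast_cpow_of_pos hp]
  congr 1
  simp

theorem rc_abd_norm_EP (j : Fin 4) (P c : ℕ) (t : ℝ) :
    ‖EP j P c t‖ ^ 2 = ∏ p ∈ pr P, ‖1 - ((rv j c p : ℤ) : ℂ) * zz p t‖⁻¹ ^ 2 := by
  unfold EP
  rw [norm_prod, ← Finset.prod_pow]
  refine Finset.prod_congr rfl fun p _ => ?_
  rw [norm_inv]
  rfl

theorem rc_abd_two (j : Fin 4) (c : ℕ) (t : ℝ) :
    ‖1 - ((rv j c 2 : ℤ) : ℂ) * zz 2 t‖⁻¹ ^ 2 ≤ 12 := by
  have h1 : ‖((rv j c 2 : ℤ) : ℂ) * zz 2 t‖ ≤ 71 / 100 := by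
    rw [norm_mul, rc_abd_norm_zz 2 (by norm_num)]
    have h2 := rc_abd_rv_le j c 2
    have h3 : (((2 : ℕ) : ℝ)) ^ (-(1 / 2 : ℝ)) ≤ 71 / 100 := by
      rw [Real.rpow_neg (by norm_num), ← Real.sqrt_eq_rpow]
      have h4 : (1.41 : ℝ) ≤ √((2 : ℕ) : ℝ) := Real.le_sqrt_of_sq_le (by norm_num)
      rw [inv_le_comm₀ (by positivity) (by norm_num)]
      refine le_trans ?_ h4
      norm_num
    calc _ ≤ 1 * (71 / 100 : ℝ) := mul_le_mul h2 h3 (by positivity) zero_le_one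
      _ = _ := one_mul _
  have h2 : 29 / 100 ≤ ‖1 - ((rv j c 2 : ℤ) : ℂ) * zz 2 t‖ := by
    have := norm_sub_norm_le (1 : ℂ) (((rv j c 2 : ℤ) : ℂ) * zz 2 t)
    rw [norm_one] at this
    linarith
  have h3 : ‖1 - ((rv j c 2 : ℤ) : ℂ) * zz 2 t‖⁻¹ ≤ 100 / 29 := by
    rw [inv_le_comm₀ (by linarith) (by norm_num)]
    refine le_trans ?_ h2
    norm_num
  calc _ ≤ (100 / 29 : ℝ) ^ 2 := by gcongr
    _ ≤ 12 := by norm_num

theorem rc_abd_two_mem (P : ℕ) (hP : 2 ≤ P) : 2 ∈ pr P := by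
  unfold pr
  rw [Finset.mem_filter, Finset.mem_range]
  exact ⟨by omega, Nat.prime_two⟩

theorem rc_abd_mem (P p : ℕ) (hp : p ∈ (pr P).erase 2) : p.Prime ∧ p ≠ 2 := by
  rw [Finset.mem_erase] at hp
  unfold pr at hp
  rw [Finset.mem_filter] at hp
  exact ⟨hp.2.2, hp.1⟩

theorem rc_abd_sum (j : Fin 4) (P : ℕ) (hP : 2 ≤ P) (t : ℝ) :
    ∑ c ∈ odds (RR P), ‖EP j P c t‖ ^ 2 ≤ 6 * RR P * ∏ p ∈ (pr P).erase 2, mq p t := by
  have hR0 : 0 < RR P := by
    unfold RR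
    refine Nat.mul_pos (by norm_num) (Finset.prod_pos fun p hp => ?_)
    unfold pr at hp
    exact (Finset.mem_filter.1 hp).2.pos
  have hdvd : 8 * ∏ p ∈ (pr P).erase 2, p ∣ RR P := by
    unfold RR
    refine Nat.mul_dvd_mul_left 8 ?_
    exact Finset.prod_dvd_prod_of_subset _ _ _ (Finset.erase_subset _ _)
  have h := ind ((pr P).erase 2) (fun p hp => rc_abd_mem P p hp) (RR P) hR0 hdvd j
    (fun p e => ‖1 - ((e : ℤ) : ℂ) * zz p t‖⁻¹ ^ 2)
  have h1 : ∑ c ∈ odds (RR P), ‖EP j P c t‖ ^ 2 ≤ ∑ c ∈ odds (RR P),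
      12 * ∏ p ∈ (pr P).erase 2, ‖1 - ((rv j c p : ℤ) : ℂ) * zz p t‖⁻¹ ^ 2 := by
    refine Finset.sum_le_sum fun c _ => ?_
    rw [rc_abd_norm_EP, ← Finset.mul_prod_erase (pr P) _ (rc_abd_two_mem P hP)]
    exact mul_le_mul_of_nonneg_right (rc_abd_two j c t)
      (Finset.prod_nonneg fun p _ => by positivity)
  refine le_trans h1 (le_of_eq ?_)
  rw [← Finset.mul_sum, h]
  have h2 : ∀ p ∈ (pr P).erase 2, 1 / (p : ℝ) * (fun p e => ‖1 - ((e : ℤ) : ℂ) * zz p t‖⁻¹ ^ 2) p 0 +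
      (1 - 1 / (p : ℝ)) * (((fun p e => ‖1 - ((e : ℤ) : ℂ) * zz p t‖⁻¹ ^ 2) p 1 +
        (fun p e => ‖1 - ((e : ℤ) : ℂ) * zz p t‖⁻¹ ^ 2) p (-1)) / 2) = mq p t := by
    intro p _
    unfold mq
    simp
  rw [Finset.prod_congr rfl h2]
  ring

theorem abd_pr {a b : ℝ} (hab : a < b) (h0 : 0 < a ∨ b < 0) : ∃ C : ℝ, 0 < C ∧ ∀ P : ℕ, 2 ≤ P →
    ∀ (j : Fin 4), ∀ t ∈ Set.Icc a b,
      ∑ c ∈ odds (RR P), ‖EP j P c t‖ ^ 2 ≤ C * RR P * Real.log P := by
  obtain ⟨C1, hC1, hloc⟩ := loc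
  obtain ⟨C2, hC2, hps⟩ := psum (2 * (|a| + |b|))
  obtain ⟨μ, hμ0, hμ⟩ : ∃ μ : ℝ, 0 < μ ∧ ∀ t ∈ Set.Icc a b, μ ≤ |2 * t| := by
    rcases h0 with h0 | h0
    · refine ⟨a, h0, fun t ht => ?_⟩
      rw [abs_of_nonneg (by linarith [ht.1])]
      linarith [ht.1]
    · refine ⟨-b, by linarith, fun t ht => ?_⟩
      rw [abs_of_nonpos (by linarith [ht.2])]
      linarith [ht.2]
  set Z : ℝ := ∑' n : ℕ, (n : ℝ) ^ (-(3 / 2 : ℝ)) with hZ
  have hZs : Summable fun n : ℕ => (n : ℝ) ^ (-(3 / 2 : ℝ)) :=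
    Real.summable_nat_rpow.2 (by norm_num)
  set E : ℝ := 1 / 2 + C2 + 2 * (C2 - Real.log μ) + C1 * Z with hE
  refine ⟨6 * Real.exp E, by positivity, fun P hP j t ht => ?_⟩
  have hlogP : 0 < Real.log P := Real.log_pos (by exact_mod_cast (by omega : 1 < P))
  have hinv : 0 < 1 / Real.log P := by positivity
  refine le_trans (rc_abd_sum j P hP t) ?_
  have hprod : ∏ p ∈ (pr P).erase 2, mq p t ≤ Real.exp E * Real.log P := by
    set x : ℕ → ℝ := fun p => (1 + 2 * Real.cos (2 * t * Real.log p)) / p +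
      C1 * (p : ℝ) ^ (-(3 / 2 : ℝ)) with hx
    have h1 : ∏ p ∈ (pr P).erase 2, mq p t ≤ ∏ p ∈ (pr P).erase 2, Real.exp (x p) := by
      refine Finset.prod_le_prod (fun p hp => ?_) fun p hp => ?_
      · unfold mq
        have hp1 := (rc_abd_mem P p hp).1.one_lt
        have : (1 : ℝ) / p ≤ 1 := by
          rw [div_le_one (by positivity)]
          exact_mod_cast hp1.le
        have h3 : 0 ≤ 1 - 1 / (p : ℝ) := by linarith
        positivity
      · obtain ⟨hpp, hp2⟩ := rc_abd_mem P p hp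
        have hp3 : 3 ≤ p := by
          have := hpp.two_le
          omega
        have h2 := (hloc p hp3 t t).2.2.1
        have h3 := (abs_le.1 h2).2
        have h4 := Real.add_one_le_exp (x p)
        rw [hx] at h4 ⊢
        simp only at h4 ⊢
        linarith
    refine le_trans h1 ?_
    rw [← Real.exp_sum]
    have hsum : ∑ p ∈ (pr P).erase 2, x p ≤ E + Real.log (Real.log P) := by
      have h2 : ∑ p ∈ (pr P).erase 2, x p = (∑ p ∈ pr P, x p) - x 2 := by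
        rw [← Finset.add_sum_erase (pr P) x (rc_abd_two_mem P hP)]
        ring
      have h3 : - x 2 ≤ 1 / 2 := by
        rw [hx]
        simp only
        have h4 := Real.neg_one_le_cos (2 * t * Real.log ((2 : ℕ) : ℝ))
        have h5 : 0 ≤ C1 * (((2 : ℕ) : ℝ)) ^ (-(3 / 2 : ℝ)) := by positivity
        push_cast at h4 h5 ⊢
        linarith
      have h4 : ∑ p ∈ pr P, x p = (∑ p ∈ pr P, Real.cos (0 * Real.log p) / p) +
          2 * (∑ p ∈ pr P, Real.cos (2 * t * Real.log p) / p) +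
          C1 * ∑ p ∈ pr P, (p : ℝ) ^ (-(3 / 2 : ℝ)) := by
        rw [Finset.mul_sum, Finset.mul_sum, ← Finset.sum_add_distrib, ← Finset.sum_add_distrib]
        refine Finset.sum_congr rfl fun p _ => ?_
        rw [hx]
        simp only [zero_mul, Real.cos_zero]
        ring
      have h5 := (abs_le.1 (hps P hP 0 (by
        rw [abs_zero]
        positivity))).2
      rw [abs_zero, zero_add] at h5
      have h6 : Real.log (1 / Real.log P) = - Real.log (Real.log P) := by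
        rw [one_div, Real.log_inv]
      have habs : |2 * t| ≤ 2 * (|a| + |b|) := by
        rw [abs_mul, abs_two]
        have : |t| ≤ |a| + |b| := by
          rw [abs_le]
          constructor
          · have := neg_abs_le a
            have := ht.1
            have := abs_nonneg b
            linarith
          · have := le_abs_self b
            have := ht.2
            have := abs_nonneg a
            linarith
        linarith
      have h7 := (abs_le.1 (hps P hP (2 * t) habs)).2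
      have h8 : Real.log μ ≤ Real.log (|2 * t| + 1 / Real.log P) := by
        refine Real.log_le_log hμ0 ?_
        have := hμ t ht
        linarith
      have h9 : ∑ p ∈ pr P, (p : ℝ) ^ (-(3 / 2 : ℝ)) ≤ Z :=
        hZs.sum_le_tsum _ fun n _ => by positivity
      have h10 := mul_le_mul_of_nonneg_left h9 hC1.le
      rw [h2, h4, hE]
      linarith
    calc Real.exp (∑ p ∈ (pr P).erase 2, x p) ≤ Real.exp (E + Real.log (Real.log P)) :=
          Real.exp_le_exp.2 hsum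
      _ = Real.exp E * Real.log P := by rw [Real.exp_add, Real.exp_log hlogP]
  have hR : (0 : ℝ) ≤ 6 * RR P := by positivity
  calc 6 * (RR P : ℝ) * ∏ p ∈ (pr P).erase 2, mq p t ≤
        6 * RR P * (Real.exp E * Real.log P) := mul_le_mul_of_nonneg_left hprod hR
    _ = _ := by ring

end Pool.Agent.RC

namespace Pool.Agent.RC

alias abd := abd_pr

end Pool.Agent.RC
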