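import Pool.Agent.Lib_helper39.RC.Defs
/-!
# Blocks KERN: the kernels
-/

namespace Pool.Agent.RC

open Complex MeasureTheory Filter Topology
open scoped ContDiff

theorem rc_kern_exp_le {y : ℝ} (hy : 0 ≤ y) (n : ℕ) :
    y ^ n * Real.exp (-Real.pi * y ^ 2) ≤ n.factorial * Real.exp 1 := by
  have h1 : y ^ n ≤ n.factorial * Real.exp y := by
    have h := Real.pow_div_factorial_le_exp y hy n
    rw [div_le_iff₀ (by exact_mod_cast n.factorial_pos)] at h
    linarith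
  have h2 : y + -Real.pi * y ^ 2 ≤ 1 := by
    have hpi := Real.pi_gt_three
    nlinarith [sq_nonneg (y - 1), sq_nonneg y]
  calc y ^ n * Real.exp (-Real.pi * y ^ 2) ≤
      (n.factorial * Real.exp y) * Real.exp (-Real.pi * y ^ 2) :=
        mul_le_mul_of_nonneg_right h1 (Real.exp_pos _).le
    _ = n.factorial * Real.exp (y + -Real.pi * y ^ 2) := by rw [Real.exp_add]; ring
    _ ≤ _ := mul_le_mul_of_nonneg_left (Real.exp_le_exp.2 h2) (by positivity)

theorem rc_kern_poly_bd (p : Polynomial ℝ) : ∃ C : ℝ, ∀ y : ℝ, 0 ≤ y →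
    |p.eval y * Real.exp (-Real.pi * y ^ 2)| ≤ C := by
  refine ⟨∑ n ∈ Finset.range (p.natDegree + 1), |p.coeff n| * (n.factorial * Real.exp 1),
    fun y hy => ?_⟩
  rw [Polynomial.eval_eq_sum_range, Finset.sum_mul]
  refine (Finset.abs_sum_le_sum_abs _ _).trans (Finset.sum_le_sum fun n _ => ?_)
  rw [mul_assoc, abs_mul]
  refine mul_le_mul_of_nonneg_left ?_ (abs_nonneg _)
  rw [abs_of_nonneg (by positivity)]
  exact rc_kern_exp_le hy n

/-- polynomials times the Gaussian -/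
noncomputable def rc_kern_pg (p : Polynomial ℝ) (y : ℝ) : ℝ :=
  p.eval y * Real.exp (-Real.pi * y ^ 2)

theorem rc_kern_bd (p : Polynomial ℝ) : ∃ C : ℝ, 0 ≤ C ∧ ∀ y : ℝ, 0 ≤ y →
    |rc_kern_pg p y| ≤ C / (1 + y) ^ 6 := by
  obtain ⟨C, hC⟩ := rc_kern_poly_bd (p * (1 + Polynomial.X) ^ 6)
  have hC0 : 0 ≤ C := (abs_nonneg _).trans (hC 0 le_rfl)
  refine ⟨C, hC0, fun y hy => ?_⟩
  have h := hC y hy
  have h1 : (0 : ℝ) < (1 + y) ^ 6 := by positivity
  rw [le_div_iff₀ h1]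
  have h2 : (p * (1 + Polynomial.X) ^ 6).eval y * Real.exp (-Real.pi * y ^ 2) =
      rc_kern_pg p y * (1 + y) ^ 6 := by
    unfold rc_kern_pg
    simp only [Polynomial.eval_mul, Polynomial.eval_pow, Polynomial.eval_add, Polynomial.eval_one,
      Polynomial.eval_X]
    ring
  rw [h2, abs_mul, abs_of_pos h1] at h
  exact h

/-- the polynomial of the derivative -/
noncomputable def rc_kern_D (p : Polynomial ℝ) : Polynomial ℝ :=
  Polynomial.derivative p - Polynomial.C (2 * Real.pi) * Polynomial.X * p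

theorem rc_kern_hasDerivAt (p : Polynomial ℝ) (y : ℝ) :
    HasDerivAt (rc_kern_pg p) (rc_kern_pg (rc_kern_D p) y) y := by
  have h1 := p.hasDerivAt y
  have h2 : HasDerivAt (fun y : ℝ => Real.exp (-Real.pi * y ^ 2))
      (Real.exp (-Real.pi * y ^ 2) * (-Real.pi * (2 * y))) y := by
    have h3 : HasDerivAt (fun y : ℝ => -Real.pi * y ^ 2) (-Real.pi * (2 * y)) y := by
      have h4 := (hasDerivAt_pow 2 y).const_mul (-Real.pi)
      simpa using h4
    exact h3.exp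
  have h3 := h1.mul h2
  refine h3.congr_deriv ?_
  unfold rc_kern_pg rc_kern_D
  simp only [Polynomial.eval_mul, Polynomial.eval_sub, Polynomial.eval_C, Polynomial.eval_X]
  ring

theorem rc_kern_dec (p : Polynomial ℝ) : Dec (rc_kern_pg p) := by
  refine ⟨?_, ?_⟩
  · unfold rc_kern_pg
    have h1 : ContDiff ℝ 1 (fun y : ℝ => p.eval y) := by
      have h := Polynomial.contDiff_aeval (𝕜 := ℝ) p 1
      simpa [Polynomial.coe_aeval_eq_eval] using h
    fun_prop
  · obtain ⟨C1, hC1, h1⟩ := rc_kern_bd p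
    obtain ⟨C2, hC2, h2⟩ := rc_kern_bd (rc_kern_D p)
    refine ⟨C1 + C2, fun y hy => ⟨?_, ?_⟩⟩
    · refine (h1 y hy).trans ?_
      gcongr
      linarith
    · rw [(rc_kern_hasDerivAt p y).deriv]
      refine (h2 y hy).trans ?_
      gcongr
      linarith

theorem rc_kern_zero {g f : ℝ → ℝ} (hg : Dec g) (hf : Dec f)
    (h : ∀ y, f y = g y / 2 + y * deriv g y) : ∫ t in Set.Ioi (0 : ℝ), f (t ^ 2) = 0 := by
  have hgd : Differentiable ℝ g := hg.smooth.differentiable one_ne_zero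
  have hderiv : ∀ t : ℝ, HasDerivAt (fun t : ℝ => t * g (t ^ 2) / 2) (f (t ^ 2)) t := by
    intro t
    have h1 : HasDerivAt (fun t : ℝ => g (t ^ 2)) (deriv g (t ^ 2) * (2 * t)) t := by
      have h2 : HasDerivAt (fun t : ℝ => t ^ 2) (2 * t) t := by
        simpa using hasDerivAt_pow 2 t
      exact (hgd (t ^ 2)).hasDerivAt.comp t h2
    have h3 := ((hasDerivAt_id t).mul h1).div_const 2
    refine h3.congr_deriv ?_
    rw [h (t ^ 2)]
    simp only [id]
    ring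
  obtain ⟨C, hC⟩ := hf.bd
  obtain ⟨C', hC'⟩ := hg.bd
  have hC0 : 0 ≤ C := by
    have h1 := (abs_nonneg _).trans (hC 0 le_rfl).1
    simpa using h1
  have hC0' : 0 ≤ C' := by
    have h1 := (abs_nonneg _).trans (hC' 0 le_rfl).1
    simpa using h1
  have hpow : ∀ t : ℝ, (1 + t ^ 2) ≤ (1 + t ^ 2) ^ 6 := fun t => by
    have h1 : 1 ≤ 1 + t ^ 2 := by nlinarith [sq_nonneg t]
    exact le_self_pow₀ h1 (by norm_num)
  have hcont : Continuous (fun t : ℝ => f (t ^ 2)) := hf.smooth.continuous.comp (by fun_prop)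
  have hint : IntegrableOn (fun t : ℝ => f (t ^ 2)) (Set.Ioi 0) := by
    refine Integrable.integrableOn ?_
    refine (integrable_inv_one_add_sq.const_mul C).mono' hcont.aestronglyMeasurable
      (Eventually.of_forall fun t => ?_)
    rw [Real.norm_eq_abs]
    refine (hC (t ^ 2) (sq_nonneg t)).1.trans ?_
    rw [div_eq_mul_inv]
    exact mul_le_mul_of_nonneg_left (inv_anti₀ (by positivity) (hpow t)) hC0
  have hlim : Tendsto (fun t : ℝ => t * g (t ^ 2) / 2) atTop (𝓝 0) := by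
    have h1 : Tendsto (fun t : ℝ => C' * t⁻¹) atTop (𝓝 0) := by
      simpa using tendsto_inv_atTop_zero.const_mul C'
    refine squeeze_zero_norm' ?_ h1
    filter_upwards [eventually_gt_atTop (0 : ℝ)] with t ht
    rw [Real.norm_eq_abs, abs_div, abs_mul, abs_of_pos ht, abs_of_pos (by norm_num : (0 : ℝ) < 2)]
    have h2 := (hC' (t ^ 2) (sq_nonneg t)).1
    have h3 : C' / (1 + t ^ 2) ^ 6 ≤ C' / t ^ 2 := by
      refine div_le_div_of_nonneg_left hC0' (by positivity) ?_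
      linarith [hpow t]
    have h4 : t * |g (t ^ 2)| ≤ t * (C' / t ^ 2) := mul_le_mul_of_nonneg_left (h2.trans h3) ht.le
    have h5 : t * (C' / t ^ 2) = C' * t⁻¹ := by field_simp
    have h6 : 0 ≤ t * |g (t ^ 2)| := by positivity
    linarith
  have h1 := integral_Ioi_of_hasDerivAt_of_tendsto' (a := (0 : ℝ)) (fun t _ => hderiv t) hint hlim
  rw [h1]
  simp

theorem rc_kern_f0 (κ : ℕ) : f0 κ = rc_kern_pg (Polynomial.C 2 * Polynomial.X ^ κ) := by
  funext y
  unfold f0 rc_kern_pg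
  simp only [Polynomial.eval_mul, Polynomial.eval_C, Polynomial.eval_pow, Polynomial.eval_X]
  ring

theorem rc_kern_f1 (κ : ℕ) : f1 κ = rc_kern_pg ((Polynomial.C (1 / 2 + κ : ℝ) -
    Polynomial.C (2 * Real.pi) * Polynomial.X ^ 2) * (Polynomial.C 2 * Polynomial.X ^ κ)) := by
  funext y
  unfold f1 f0 rc_kern_pg
  simp only [Polynomial.eval_mul, Polynomial.eval_C, Polynomial.eval_pow, Polynomial.eval_X,
    Polynomial.eval_sub]
  ring

theorem rc_kern_f2 (κ : ℕ) : f2 κ = rc_kern_pg (((Polynomial.C (1 / 2 + κ : ℝ) -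
    Polynomial.C (2 * Real.pi) * Polynomial.X ^ 2) ^ 2 -
    Polynomial.C (4 * Real.pi) * Polynomial.X ^ 2) * (Polynomial.C 2 * Polynomial.X ^ κ)) := by
  funext y
  unfold f2 f0 rc_kern_pg
  simp only [Polynomial.eval_mul, Polynomial.eval_C, Polynomial.eval_pow, Polynomial.eval_X,
    Polynomial.eval_sub]
  ring

theorem rc_kern_f0_deriv {κ : ℕ} (hκ : κ ≤ 1) (y : ℝ) :
    y * deriv (f0 κ) y = (κ - 2 * Real.pi * y ^ 2) * f0 κ y := by
  have h := (rc_kern_hasDerivAt (Polynomial.C 2 * Polynomial.X ^ κ) y).deriv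
  rw [← rc_kern_f0 κ] at h
  rw [h]
  unfold f0 rc_kern_pg rc_kern_D
  interval_cases κ
  · simp
    ring
  · simp
    ring

theorem rc_kern_f1_eq {κ : ℕ} (hκ : κ ≤ 1) (y : ℝ) :
    f1 κ y = f0 κ y / 2 + y * deriv (f0 κ) y := by
  rw [rc_kern_f0_deriv hκ]
  unfold f1
  ring

theorem rc_kern_f0_diff (κ : ℕ) : Differentiable ℝ (f0 κ) := by
  rw [rc_kern_f0]
  exact fun y => (rc_kern_hasDerivAt _ y).differentiableAt

theorem rc_kern_f1_diff (κ : ℕ) : Differentiable ℝ (f1 κ) := by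
  rw [rc_kern_f1]
  exact fun y => (rc_kern_hasDerivAt _ y).differentiableAt

theorem rc_kern_f2_eq {κ : ℕ} (hκ : κ ≤ 1) (y : ℝ) :
    f2 κ y = f1 κ y / 2 + y * deriv (f1 κ) y := by
  have h1 : HasDerivAt (f1 κ) (-(4 * Real.pi * y) * f0 κ y +
      (1 / 2 + κ - 2 * Real.pi * y ^ 2) * deriv (f0 κ) y) y := by
    have h2 : HasDerivAt (fun y : ℝ => (1 / 2 + κ - 2 * Real.pi * y ^ 2)) (-(4 * Real.pi * y)) y := by
      have h3 := ((hasDerivAt_pow 2 y).const_mul (2 * Real.pi)).const_sub (1 / 2 + (κ : ℝ))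
      refine h3.congr_deriv ?_
      simp
      ring
    exact h2.mul (rc_kern_f0_diff κ y).hasDerivAt
  rw [h1.deriv, mul_add, ← mul_assoc, mul_comm y (-(4 * Real.pi * y)),
    show y * ((1 / 2 + κ - 2 * Real.pi * y ^ 2) * deriv (f0 κ) y) =
      (1 / 2 + κ - 2 * Real.pi * y ^ 2) * (y * deriv (f0 κ) y) by ring, rc_kern_f0_deriv hκ]
  unfold f2 f1
  ring

theorem dec_f0_pr {κ : ℕ} (hκ : κ ≤ 1) : Dec (f0 κ) := by
  rw [rc_kern_f0]
  exact rc_kern_dec _

theorem ker_f1_pr {κ : ℕ} (hκ : κ ≤ 1) : Ker (f1 κ) := by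
  have h1 : Dec (f1 κ) := by
    rw [rc_kern_f1]
    exact rc_kern_dec _
  exact ⟨h1, rc_kern_zero (dec_f0_pr hκ) h1 (rc_kern_f1_eq hκ)⟩

theorem ker_f2_pr {κ : ℕ} (hκ : κ ≤ 1) : Ker (f2 κ) := by
  have h1 : Dec (f2 κ) := by
    rw [rc_kern_f2]
    exact rc_kern_dec _
  exact ⟨h1, rc_kern_zero (ker_f1_pr hκ).toDec h1 (rc_kern_f2_eq hκ)⟩

end Pool.Agent.RC

namespace Pool.Agent.RC

alias dec_f0 := dec_f0_pr

alias ker_f1 := ker_f1_pr

alias ker_f2 := ker_f2_pr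

end Pool.Agent.RC
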