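import Pool.Agent.Lib_helper39.RC.Defs
/-!
# RC block SB
-/

namespace Pool.Agent.RC

open Complex MeasureTheory Filter Topology

/-- The comparison function. -/
theorem rc_SB_deriv (C x t : ℝ) (hx : 0 < x) :
    HasDerivAt (fun t : ℝ => C / (5 * (1 + t ^ 2 * x) ^ 5)) (-(2 * t * x * C / (1 + t ^ 2 * x) ^ 6)) t := by
  have hpos : 0 < 1 + t ^ 2 * x := by positivity
  have h1 : HasDerivAt (fun t : ℝ => 1 + t ^ 2 * x) (2 * t * x) t := by
    have := ((hasDerivAt_pow 2 t).mul_const x).const_add 1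
    simpa using this
  have h2 : HasDerivAt (fun t : ℝ => 5 * (1 + t ^ 2 * x) ^ 5)
      (5 * (5 * (1 + t ^ 2 * x) ^ 4 * (2 * t * x))) t := by
    have := (h1.pow 5).const_mul 5
    simpa using this
  have h3 := (h2.inv (by positivity)).const_mul C
  refine (h3.congr_deriv ?_).congr_of_eventuallyEq ?_
  · field_simp
  · exact Eventually.of_forall fun t => by simp [div_eq_mul_inv]

theorem rc_SB_step {f : ℝ → ℝ} {C : ℝ} (hs : ContDiff ℝ 1 f)
    (hb : ∀ y : ℝ, 0 ≤ y → |deriv f y| ≤ C / (1 + y) ^ 6) {x : ℝ} (hx : 0 < x) {s t : ℝ}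
    (hs0 : 0 ≤ s) (hst : s ≤ t) :
    |f (t ^ 2 * x) - f (s ^ 2 * x)| ≤
      C / (5 * (1 + s ^ 2 * x) ^ 5) - C / (5 * (1 + t ^ 2 * x) ^ 5) := by
  set G : ℝ → ℝ := fun t => C / (5 * (1 + t ^ 2 * x) ^ 5) with hG
  set F : ℝ → ℝ := fun t => f (t ^ 2 * x) with hF
  have hFd : ∀ r : ℝ, HasDerivAt F (deriv f (r ^ 2 * x) * (2 * r * x)) r := by
    intro r
    have h1 : HasDerivAt (fun t : ℝ => t ^ 2 * x) (2 * r * x) r := by
      have := (hasDerivAt_pow 2 r).mul_const x
      simpa using this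
    have h2 : HasDerivAt f (deriv f (r ^ 2 * x)) (r ^ 2 * x) :=
      ((hs.differentiable (by norm_num)) _).hasDerivAt
    exact h2.comp r h1
  have hGd : ∀ r : ℝ, HasDerivAt G (-(2 * r * x * C / (1 + r ^ 2 * x) ^ 6)) r :=
    fun r => rc_SB_deriv C x r hx
  have hbd : ∀ r : ℝ, 0 ≤ r → |deriv f (r ^ 2 * x) * (2 * r * x)| ≤
      2 * r * x * C / (1 + r ^ 2 * x) ^ 6 := by
    intro r hr
    have h1 := hb (r ^ 2 * x) (by positivity)
    rw [abs_mul, abs_of_nonneg (show (0 : ℝ) ≤ 2 * r * x by positivity)]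
    calc |deriv f (r ^ 2 * x)| * (2 * r * x) ≤ C / (1 + r ^ 2 * x) ^ 6 * (2 * r * x) := by
          gcongr
      _ = 2 * r * x * C / (1 + r ^ 2 * x) ^ 6 := by ring
  have hconv : Convex ℝ (Set.Ici (0 : ℝ)) := convex_Ici 0
  have hmono : MonotoneOn (fun r => F r - G r) (Set.Ici 0) := by
    apply monotoneOn_of_deriv_nonneg hconv
    · exact fun r _ => ((hFd r).sub (hGd r)).continuousAt.continuousWithinAt
    · exact fun r _ => ((hFd r).sub (hGd r)).differentiableAt.differentiableWithinAt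
    · intro r hr
      rw [interior_Ici] at hr
      have h1 := hbd r (le_of_lt hr)
      change 0 ≤ deriv (F - G) r
      rw [((hFd r).sub (hGd r)).deriv]
      have := (abs_le.1 h1).1
      linarith
  have hanti : AntitoneOn (fun r => F r + G r) (Set.Ici 0) := by
    apply antitoneOn_of_deriv_nonpos hconv
    · exact fun r _ => ((hFd r).add (hGd r)).continuousAt.continuousWithinAt
    · exact fun r _ => ((hFd r).add (hGd r)).differentiableAt.differentiableWithinAt
    · intro r hr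
      rw [interior_Ici] at hr
      have h1 := hbd r (le_of_lt hr)
      change deriv (F + G) r ≤ 0
      rw [((hFd r).add (hGd r)).deriv]
      have := (abs_le.1 h1).2
      linarith
  have m1 := hmono (show s ∈ Set.Ici (0 : ℝ) from hs0)
    (show t ∈ Set.Ici (0 : ℝ) from le_trans hs0 hst) hst
  have m2 := hanti (show s ∈ Set.Ici (0 : ℝ) from hs0)
    (show t ∈ Set.Ici (0 : ℝ) from le_trans hs0 hst) hst
  simp only at m1 m2
  rw [abs_le]
  constructor
  · linarith
  · linarith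

theorem rc_SB_int {f : ℝ → ℝ} {C : ℝ} (hs : ContDiff ℝ 1 f)
    (hb : ∀ y : ℝ, 0 ≤ y → |f y| ≤ C / (1 + y) ^ 6) {x : ℝ} (hx : 0 < x) :
    Integrable (fun t : ℝ => f (t ^ 2 * x)) := by
  have h1 : Integrable (fun t : ℝ => |C| * (1 + (√x * t) ^ 2)⁻¹) :=
    (integrable_inv_one_add_sq.comp_mul_left' (Real.sqrt_ne_zero'.2 hx)).const_mul |C|
  refine h1.mono' ?_ ?_
  · have : Continuous fun t : ℝ => f (t ^ 2 * x) := hs.continuous.comp (by fun_prop)
    exact this.aestronglyMeasurable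
  · refine Eventually.of_forall fun t => ?_
    have hsq : (√x * t) ^ 2 = t ^ 2 * x := by
      rw [mul_pow, Real.sq_sqrt hx.le]; ring
    rw [hsq, Real.norm_eq_abs]
    have hy : 0 ≤ t ^ 2 * x := by positivity
    have h2 := hb _ hy
    refine h2.trans ?_
    rw [div_eq_mul_inv]
    have h3 : ((1 + t ^ 2 * x) ^ 6)⁻¹ ≤ (1 + t ^ 2 * x)⁻¹ := by
      apply inv_anti₀ (by positivity)
      exact le_self_pow₀ (by linarith) (by norm_num)
    calc C * ((1 + t ^ 2 * x) ^ 6)⁻¹ ≤ |C| * ((1 + t ^ 2 * x) ^ 6)⁻¹ := by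
          gcongr
          exact le_abs_self C
      _ ≤ |C| * (1 + t ^ 2 * x)⁻¹ := by gcongr

theorem rc_SB_summable {f : ℝ → ℝ} {C : ℝ}
    (hb : ∀ y : ℝ, 0 ≤ y → |f y| ≤ C / (1 + y) ^ 6) {x : ℝ} (hx : 0 < x) :
    (∀ a : ℕ, |f (((a : ℝ) + 1) ^ 2 * x)| ≤ |C| / x * (1 / ((a : ℝ) + 1) ^ 2)) ∧
    Summable (fun a : ℕ => f (((a : ℝ) + 1) ^ 2 * x)) := by
  have h1 : ∀ a : ℕ, |f (((a : ℝ) + 1) ^ 2 * x)| ≤ |C| / x * (1 / ((a : ℝ) + 1) ^ 2) := by
    intro a
    have hy : 0 ≤ ((a : ℝ) + 1) ^ 2 * x := by positivity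
    refine (hb _ hy).trans ?_
    have h3 : ((a : ℝ) + 1) ^ 2 * x ≤ (1 + ((a : ℝ) + 1) ^ 2 * x) ^ 6 :=
      le_trans (by linarith) (le_self_pow₀ (by linarith) (by norm_num : (6 : ℕ) ≠ 0))
    calc C / (1 + ((a : ℝ) + 1) ^ 2 * x) ^ 6 ≤ |C| / (1 + ((a : ℝ) + 1) ^ 2 * x) ^ 6 := by
          gcongr
          exact le_abs_self C
      _ ≤ |C| / (((a : ℝ) + 1) ^ 2 * x) := by
          gcongr
      _ = |C| / x * (1 / ((a : ℝ) + 1) ^ 2) := by
          field_simp
  refine ⟨h1, ?_⟩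
  have h2 : Summable (fun a : ℕ => |C| / x * (1 / ((a : ℝ) + 1) ^ 2)) := by
    apply Summable.mul_left
    have := (summable_nat_add_iff 1).2 (Real.summable_one_div_nat_pow.2 (by norm_num : 1 < 2))
    refine this.congr fun a => ?_
    push_cast
    ring
  exact Summable.of_norm_bounded h2 (fun a => by rw [Real.norm_eq_abs]; exact h1 a)

/-- SB. -/
theorem sb_pr {f : ℝ → ℝ} (hf : Ker f) : ∃ C : ℝ, 0 < C ∧ ∀ x : ℝ, 0 < x →
    |∑' a : ℕ, f (((a : ℝ) + 1) ^ 2 * x)| ≤ C / (1 + x) := by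
  obtain ⟨C, hC⟩ := hf.bd
  have hC0 : 0 ≤ C := by
    have := (hC 0 le_rfl).1
    have h2 := abs_nonneg (f 0)
    norm_num at this
    linarith
  have hb1 : ∀ y : ℝ, 0 ≤ y → |f y| ≤ C / (1 + y) ^ 6 := fun y hy => (hC y hy).1
  have hb2 : ∀ y : ℝ, 0 ≤ y → |deriv f y| ≤ C / (1 + y) ^ 6 := fun y hy => (hC y hy).2
  set Z : ℝ := ∑' a : ℕ, 1 / ((a : ℝ) + 1) ^ 2 with hZ
  have hZs : Summable (fun a : ℕ => 1 / ((a : ℝ) + 1) ^ 2) := by
    have := (summable_nat_add_iff 1).2 (Real.summable_one_div_nat_pow.2 (by norm_num : 1 < 2))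
    refine this.congr fun a => ?_
    push_cast
    ring
  have hZ0 : 0 ≤ Z := tsum_nonneg fun a => by positivity
  -- bound by C / 5
  have hmain : ∀ x : ℝ, 0 < x → |∑' a : ℕ, f (((a : ℝ) + 1) ^ 2 * x)| ≤ C / 5 := by
    intro x hx
    set F : ℝ → ℝ := fun t => f (t ^ 2 * x) with hF
    have hFc : Continuous F := hf.smooth.continuous.comp (by fun_prop)
    have hFi : Integrable F := rc_SB_int hf.smooth hb1 hx
    have hzero : ∫ t in Set.Ioi (0 : ℝ), F t = 0 := by
      have h1 := integral_comp_mul_left_Ioi (fun s : ℝ => f (s ^ 2)) 0 (Real.sqrt_pos.2 hx)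
      rw [mul_zero, hf.zero, smul_zero] at h1
      refine Eq.trans ?_ h1
      refine integral_congr_ae (Eventually.of_forall fun t => ?_)
      simp only [hF]
      rw [mul_pow, Real.sq_sqrt hx.le, mul_comm]
    have htend : Tendsto (fun N : ℕ => ∫ t in (0 : ℝ)..N, F t) atTop (𝓝 0) := by
      have := intervalIntegral_tendsto_integral_Ioi (0 : ℝ) (hFi.integrableOn)
        (tendsto_natCast_atTop_atTop (R := ℝ))
      rwa [hzero] at this
    have hpart : ∀ N : ℕ, |(∑ a ∈ Finset.range N, f (((a : ℝ) + 1) ^ 2 * x)) -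
        ∫ t in (0 : ℝ)..N, F t| ≤ C / 5 := by
      intro N
      have h1 : |(∑ a ∈ Finset.range N, f (((a : ℝ) + 1) ^ 2 * x)) -
        ∫ t in (0 : ℝ)..N, F t| ≤ C / 5 - C / (5 * (1 + (N : ℝ) ^ 2 * x) ^ 5) := by
        induction N with
        | zero => simp
        | succ N ih =>
          rw [Finset.sum_range_succ]
          have hsplit : ∫ t in (0 : ℝ)..((N + 1 : ℕ) : ℝ), F t =
              (∫ t in (0 : ℝ)..N, F t) + ∫ t in (N : ℝ)..((N + 1 : ℕ) : ℝ), F t :=
            (intervalIntegral.integral_add_adjacent_intervals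
              (hFc.intervalIntegrable _ _) (hFc.intervalIntegrable _ _)).symm
          rw [hsplit]
          have hstep : |f (((N : ℝ) + 1) ^ 2 * x) - ∫ t in (N : ℝ)..((N + 1 : ℕ) : ℝ), F t| ≤
              C / (5 * (1 + (N : ℝ) ^ 2 * x) ^ 5) -
                C / (5 * (1 + ((N + 1 : ℕ) : ℝ) ^ 2 * x) ^ 5) := by
            have hc : ∫ t in (N : ℝ)..((N + 1 : ℕ) : ℝ), f (((N : ℝ) + 1) ^ 2 * x) =
                f (((N : ℝ) + 1) ^ 2 * x) := by
              rw [intervalIntegral.integral_const]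
              push_cast
              simp
            have he : f (((N : ℝ) + 1) ^ 2 * x) - ∫ t in (N : ℝ)..((N + 1 : ℕ) : ℝ), F t =
                ∫ t in (N : ℝ)..((N + 1 : ℕ) : ℝ), (f (((N : ℝ) + 1) ^ 2 * x) - F t) := by
              rw [intervalIntegral.integral_sub intervalIntegrable_const
                (hFc.intervalIntegrable _ _), hc]
            rw [he, ← Real.norm_eq_abs]
            have hle : (∀ t ∈ Set.uIoc (N : ℝ) ((N + 1 : ℕ) : ℝ),
                ‖f (((N : ℝ) + 1) ^ 2 * x) - F t‖ ≤ C / (5 * (1 + (N : ℝ) ^ 2 * x) ^ 5) -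
                C / (5 * (1 + ((N + 1 : ℕ) : ℝ) ^ 2 * x) ^ 5)) → _ :=
              intervalIntegral.norm_integral_le_of_norm_le_const
            specialize hle ?_
            rotate_left
            · refine hle.trans (le_of_eq ?_)
              have e1 : |((N + 1 : ℕ) : ℝ) - (N : ℝ)| = 1 := by
                push_cast
                simp
              rw [e1, mul_one]
            · intro t ht
              rw [Set.uIoc_of_le (by push_cast; linarith)] at ht
              have hN0 : (0 : ℝ) ≤ N := Nat.cast_nonneg N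
              have ht0 : (0 : ℝ) ≤ t := by linarith [ht.1]
              have ht1 : t ≤ (N : ℝ) + 1 := by
                have := ht.2
                push_cast at this
                exact this
              have h5 := rc_SB_step hf.smooth hb2 hx ht0 ht1
              rw [Real.norm_eq_abs]
              refine h5.trans ?_
              have h6 : C / (5 * (1 + t ^ 2 * x) ^ 5) ≤ C / (5 * (1 + (N : ℝ) ^ 2 * x) ^ 5) := by
                have : (N : ℝ) ^ 2 ≤ t ^ 2 := by
                  have := ht.1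
                  gcongr
                gcongr
              push_cast
              linarith
          have e : (∑ a ∈ Finset.range N, f (((a : ℝ) + 1) ^ 2 * x)) +
              f (((N : ℝ) + 1) ^ 2 * x) - ((∫ t in (0 : ℝ)..N, F t) +
                ∫ t in (N : ℝ)..((N + 1 : ℕ) : ℝ), F t) =
              ((∑ a ∈ Finset.range N, f (((a : ℝ) + 1) ^ 2 * x)) - ∫ t in (0 : ℝ)..N, F t) +
              (f (((N : ℝ) + 1) ^ 2 * x) - ∫ t in (N : ℝ)..((N + 1 : ℕ) : ℝ), F t) := by ring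
          rw [e]
          refine (abs_add_le _ _).trans ?_
          linarith
      have h2 : 0 ≤ C / (5 * (1 + (N : ℝ) ^ 2 * x) ^ 5) := by positivity
      linarith
    have hsum := (rc_SB_summable hb1 hx).2
    have ht2 : Tendsto (fun N : ℕ => |(∑ a ∈ Finset.range N, f (((a : ℝ) + 1) ^ 2 * x)) -
        ∫ t in (0 : ℝ)..N, F t|) atTop (𝓝 |(∑' a : ℕ, f (((a : ℝ) + 1) ^ 2 * x)) - 0|) :=
      (hsum.hasSum.tendsto_sum_nat.sub htend).abs
    rw [sub_zero] at ht2
    exact le_of_tendsto' ht2 hpart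
  refine ⟨2 * (C / 5) + 2 * (C * Z) + 1, by positivity, fun x hx => ?_⟩
  rw [le_div_iff₀ (by positivity)]
  have h1 := hmain x hx
  have h2 : |∑' a : ℕ, f (((a : ℝ) + 1) ^ 2 * x)| ≤ C / x * Z := by
    have h3 := rc_SB_summable hb1 hx
    have h4 := norm_tsum_le_tsum_norm (h3.2.norm)
    simp only [Real.norm_eq_abs] at h4
    refine h4.trans ?_
    rw [hZ, ← tsum_mul_left]
    refine Summable.tsum_le_tsum ?_ h3.2.abs (hZs.mul_left _)
    intro a
    have := h3.1 a
    rwa [abs_of_nonneg hC0] at this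
  set S := |∑' a : ℕ, f (((a : ℝ) + 1) ^ 2 * x)| with hS
  have hS0 : 0 ≤ S := abs_nonneg _
  have h5 : S * x ≤ C * Z := by
    have := mul_le_mul_of_nonneg_right h2 hx.le
    calc S * x ≤ C / x * Z * x := this
      _ = C * Z := by field_simp
  nlinarith [mul_nonneg hC0 hZ0]

end Pool.Agent.RC

namespace Pool.Agent.RC

alias sb := sb_pr

end Pool.Agent.RC
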