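import Pool.Agent.Lib_helper39.RC.Defs
import Pool.Agent.Lib_helper39.RCA.KERN
import Pool.Agent.Lib_helper39.RCA.SB
/-!
# RC block BLIM
-/

namespace Pool.Agent.RC

open Complex MeasureTheory Filter Topology

/-! ### Telescoping bounds -/

theorem rc_BLIM_gen (g T : ℕ → ℝ) (B : ℝ) (h0 : ∀ a, 0 ≤ g a)
    (h1 : ∀ a, g (a + 1) ≤ T (a + 1) - T a) (hT0 : 0 ≤ T 0) (hB : ∀ N, T N ≤ B) (s : Finset ℕ) :
    ∑ a ∈ s, (if 0 < a then g a else 0) ≤ B := by
  obtain ⟨N, hN⟩ : ∃ N, s ⊆ Finset.range (N + 1) := by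
    obtain ⟨N, hN⟩ := s.exists_nat_subset_range
    exact ⟨N, hN.trans (Finset.range_subset_range.2 (Nat.le_succ N))⟩
  have h2 : ∑ a ∈ s, (if 0 < a then g a else 0) ≤
      ∑ a ∈ Finset.range (N + 1), (if 0 < a then g a else 0) := by
    refine Finset.sum_le_sum_of_subset_of_nonneg hN fun i _ _ => ?_
    split_ifs
    · exact h0 i
    · exact le_rfl
  refine h2.trans ?_
  rw [Finset.sum_range_succ']
  simp only [Nat.zero_lt_succ, if_true, lt_irrefl, if_false, add_zero]
  have h3 : ∑ a ∈ Finset.range N, g (a + 1) ≤ ∑ a ∈ Finset.range N, (T (a + 1) - T a) :=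
    Finset.sum_le_sum fun a _ => h1 a
  rw [Finset.sum_range_sub] at h3
  have := hB N
  linarith

theorem rc_BLIM_sum1 (w : ℝ) (hw : 0 < w) (s : Finset ℕ) :
    ∑ a ∈ s, (if 0 < a then w / (1 + (w * a) ^ 2) else 0) ≤ 2 := by
  refine rc_BLIM_gen (fun a => w / (1 + (w * a) ^ 2)) (fun a => 2 * (w * a / (1 + w * a))) 2
    (fun a => by positivity) ?_ (by simp) ?_ s
  · intro a
    have ha : (0 : ℝ) ≤ a := Nat.cast_nonneg a
    have hwa : 0 ≤ w * a := by positivity
    push_cast
    have e : 2 * (w * (a + 1) / (1 + w * (a + 1))) - 2 * (w * a / (1 + w * a)) =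
        w * 2 / ((1 + w * (a + 1)) * (1 + w * a)) := by
      field_simp
      ring
    rw [e, div_le_div_iff₀ (by positivity) (by positivity)]
    nlinarith [sq_nonneg (w * (a + 1) - 1), mul_pos hw hw, mul_nonneg hw.le hwa, hw, hwa,
      mul_nonneg (mul_nonneg hw.le hwa) hw.le, sq_nonneg (w * a - 1)]
  · intro N
    have hN : 0 ≤ w * (N : ℝ) := by positivity
    have : w * (N : ℝ) / (1 + w * N) ≤ 1 := by
      rw [div_le_one (by positivity)]
      linarith
    linarith

theorem rc_BLIM_sum2 (z : ℝ) (s : Finset ℕ) :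
    ∑ k ∈ s, (if 0 < k then 1 / (k : ℝ) * Real.exp (-|Real.log k + z| / 2) else 0) ≤ 8 := by
  set w : ℝ := Real.exp z with hw
  have hw0 : 0 < w := Real.exp_pos z
  refine rc_BLIM_gen (fun k => 1 / (k : ℝ) * Real.exp (-|Real.log k + z| / 2))
    (fun k => 8 * (√(k * w) / (1 + √(k * w)))) 8 (fun k => by positivity) ?_ (by simp) ?_ s
  · intro a
    set v : ℝ := √(((a + 1 : ℕ) : ℝ) * w) with hv
    set v' : ℝ := √((a : ℝ) * w) with hv'
    have hk : (0 : ℝ) < ((a + 1 : ℕ) : ℝ) := by positivity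
    have hv0 : 0 < v := Real.sqrt_pos.2 (by positivity)
    have hv'0 : 0 ≤ v' := Real.sqrt_nonneg _
    have hv2 : v ^ 2 = ((a + 1 : ℕ) : ℝ) * w := Real.sq_sqrt (by positivity)
    have hv'2 : v' ^ 2 = (a : ℝ) * w := Real.sq_sqrt (by positivity)
    have hd : v ^ 2 - v' ^ 2 = w := by
      rw [hv2, hv'2]; push_cast; ring
    have hle : v' ≤ v := by
      apply Real.sqrt_le_sqrt
      push_cast
      nlinarith
    -- the exponential
    have hlog : Real.log ((a + 1 : ℕ) : ℝ) + z = 2 * Real.log v := by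
      have : Real.log (v ^ 2) = Real.log ((a + 1 : ℕ) : ℝ) + z := by
        rw [hv2, Real.log_mul hk.ne' hw0.ne', hw, Real.log_exp]
      rw [← this, Real.log_pow]
      push_cast
      ring
    have hexp : Real.exp (-|Real.log ((a + 1 : ℕ) : ℝ) + z| / 2) ≤ 4 * v / (1 + v) ^ 2 := by
      rw [hlog, abs_mul, abs_of_pos (by norm_num : (0 : ℝ) < 2)]
      have e1 : -(2 * |Real.log v|) / 2 = -|Real.log v| := by ring
      rw [e1, le_div_iff₀ (by positivity)]
      rcases le_total v 1 with h | h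
      · rw [abs_of_nonpos (Real.log_nonpos hv0.le h), neg_neg, Real.exp_log hv0]
        nlinarith [mul_nonneg hv0.le (sub_nonneg.2 h), mul_pos hv0 hv0]
      · rw [abs_of_nonneg (Real.log_nonneg h), Real.exp_neg, Real.exp_log hv0]
        rw [inv_mul_le_iff₀ hv0]
        nlinarith
    have hk2 : 1 / ((a + 1 : ℕ) : ℝ) = w / v ^ 2 := by
      rw [hv2]
      field_simp
    rw [hk2]
    have hA : 8 * (v / (1 + v)) - 8 * (v' / (1 + v')) = 8 * (v - v') / ((1 + v) * (1 + v')) := by
      field_simp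
      ring
    rw [hA]
    have hvv : v - v' = w / (v + v') := by
      rw [eq_div_iff (by positivity), ← hd]
      ring
    calc w / v ^ 2 * Real.exp (-|Real.log ((a + 1 : ℕ) : ℝ) + z| / 2)
        ≤ w / v ^ 2 * (4 * v / (1 + v) ^ 2) := by gcongr
      _ = 4 * w / (v * (1 + v) ^ 2) := by
          field_simp
      _ ≤ 8 * (v - v') / ((1 + v) * (1 + v')) := by
          rw [hvv]
          have h5 : 8 * (w / (v + v')) / ((1 + v) * (1 + v')) =
              4 * w / ((v + v') / 2 * ((1 + v) * (1 + v'))) := by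
            field_simp
            ring
          rw [h5]
          gcongr
          · linarith
          · rw [pow_two]
            gcongr
  · intro N
    have hN : 0 ≤ √((N : ℝ) * w) := Real.sqrt_nonneg _
    have : √((N : ℝ) * w) / (1 + √((N : ℝ) * w)) ≤ 1 := by
      rw [div_le_one (by positivity)]
      linarith
    linarith

/-! ### Moebius -/

theorem rc_BLIM_moeb (a R : ℕ) (hR : 0 < R) :
    ∑ d ∈ R.divisors, (ArithmeticFunction.moebius d : ℝ) * (if d ∣ a then 1 else 0) =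
      if a.Coprime R then 1 else 0 := by
  have h1 : ∑ d ∈ (Nat.gcd a R).divisors, (ArithmeticFunction.moebius d : ℤ) =
      if a.Coprime R then 1 else 0 := by
    rw [← ArithmeticFunction.coe_mul_zeta_apply, ArithmeticFunction.moebius_mul_coe_zeta,
      ArithmeticFunction.one_apply]
  have h2 : (Nat.gcd a R).divisors = R.divisors.filter (fun d => d ∣ a) := by
    ext d
    simp only [Nat.mem_divisors, Finset.mem_filter, Nat.dvd_gcd_iff]
    constructor
    · rintro ⟨⟨h3, h4⟩, -⟩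
      exact ⟨⟨h4, hR.ne'⟩, h3⟩
    · rintro ⟨⟨h4, -⟩, h3⟩
      exact ⟨⟨h3, h4⟩, (Nat.gcd_pos_of_pos_right _ hR).ne'⟩
  have h3 : ∑ d ∈ R.divisors, (ArithmeticFunction.moebius d : ℝ) * (if d ∣ a then 1 else 0) =
      ((∑ d ∈ (Nat.gcd a R).divisors, (ArithmeticFunction.moebius d : ℤ) : ℤ) : ℝ) := by
    rw [h2, Finset.sum_filter]
    push_cast
    refine Finset.sum_congr rfl fun d _ => ?_
    split_ifs <;> simp
  rw [h3, h1]
  split_ifs <;> simp

theorem rc_BLIM_mult (F : ℕ → ℝ) (hF : Summable F) (d : ℕ) (hd : 0 < d) :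
    Summable (fun a : ℕ => if 0 < a ∧ d ∣ a then F a else 0) ∧
    ∑' a : ℕ, (if 0 < a ∧ d ∣ a then F a else 0) = ∑' b : ℕ, F (d * (b + 1)) := by
  constructor
  · refine Summable.of_norm_bounded hF.norm fun a => ?_
    split_ifs
    · exact le_rfl
    · simp
  · have hinj : Function.Injective (fun b : ℕ => d * (b + 1)) := by
      intro b c hbc
      simp only at hbc
      have := Nat.eq_of_mul_eq_mul_left hd hbc
      omega
    rw [← hinj.tsum_eq]
    · refine tsum_congr fun b => ?_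
      rw [if_pos ⟨Nat.mul_pos hd (Nat.succ_pos b), dvd_mul_right _ _⟩]
    · intro a ha
      rw [Function.mem_support] at ha
      by_cases h : 0 < a ∧ d ∣ a
      · obtain ⟨h1, c, rfl⟩ := h
        have hc : 0 < c := Nat.pos_of_mul_pos_left h1 |> fun h => by
          rcases Nat.eq_zero_or_pos c with h | h
          · subst h; simp at h1
          · exact h
        exact ⟨c - 1, by simp only; rw [Nat.sub_add_cancel hc]⟩
      · exact absurd (if_neg h) ha

theorem rc_BLIM_cop (F : ℕ → ℝ) (hF : Summable F) (R : ℕ) (hR : 0 < R) :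
    ∑' a : ℕ, (if 0 < a ∧ a.Coprime R then F a else 0) =
      ∑ d ∈ R.divisors, (ArithmeticFunction.moebius d : ℝ) * ∑' b : ℕ, F (d * (b + 1)) := by
  have h1 : ∀ a : ℕ, (if 0 < a ∧ a.Coprime R then F a else 0) =
      ∑ d ∈ R.divisors, (ArithmeticFunction.moebius d : ℝ) *
        (if 0 < a ∧ d ∣ a then F a else 0) := by
    intro a
    by_cases ha : 0 < a
    · simp only [ha, true_and]
      have h2 := congrArg (fun t => t * F a) (rc_BLIM_moeb a R hR)
      simp only [Finset.sum_mul] at h2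
      have h3 : (if a.Coprime R then F a else 0) = (if a.Coprime R then 1 else 0) * F a := by
        split_ifs <;> simp
      rw [h3, ← h2]
      refine Finset.sum_congr rfl fun d _ => ?_
      split_ifs <;> simp
    · simp [ha]
  rw [tsum_congr h1, Summable.tsum_finsetSum]
  · refine Finset.sum_congr rfl fun d hd => ?_
    rw [tsum_mul_left, (rc_BLIM_mult F hF d (Nat.pos_of_mem_divisors hd)).2]
  · intro d hd
    exact ((rc_BLIM_mult F hF d (Nat.pos_of_mem_divisors hd)).1).mul_left _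

/-! ### The kernel -/

theorem rc_BLIM_k1 (κ : ℕ) (z : ℝ) (a : ℕ) (ha : 0 < a) :
    1 / (a : ℝ) * k1 κ (z + 2 * Real.log a) =
      Real.exp (z / 2) * f1 κ (Real.exp z * (a : ℝ) ^ 2) := by
  have ha' : (0 : ℝ) < a := by exact_mod_cast ha
  have h1 : Real.exp ((z + 2 * Real.log a) / 2) = Real.exp (z / 2) * a := by
    rw [show (z + 2 * Real.log a) / 2 = z / 2 + Real.log a by ring, Real.exp_add,
      Real.exp_log ha']
  have h2 : Real.exp (z + 2 * Real.log a) = Real.exp z * (a : ℝ) ^ 2 := by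
    rw [Real.exp_add, show 2 * Real.log a = Real.log a + Real.log a by ring, Real.exp_add,
      Real.exp_log ha']
    ring
  rw [k1, h1, h2]
  field_simp

theorem rc_BLIM_k1_cont (κ : ℕ) : Continuous (k1 κ) := by
  unfold k1 f1 f0
  fun_prop

theorem rc_BLIM_k1_bd {κ : ℕ} (hκ : κ ≤ 1) : ∃ C : ℝ, 0 < C ∧
    (∀ z : ℝ, |k1 κ z| ≤ C) ∧
    (∀ (a : ℕ) (z : ℝ), 0 < a → |1 / (a : ℝ) * k1 κ (z + 2 * Real.log a)| ≤
      C * (Real.exp (z / 2) / (1 + (Real.exp (z / 2) * a) ^ 2))) := by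
  obtain ⟨C, hC⟩ := (ker_f1 hκ).bd
  have hC0 : 0 ≤ C := by
    have := (hC 0 le_rfl).1
    have h2 := abs_nonneg (f1 κ 0)
    norm_num at this
    linarith
  have key : ∀ (a : ℕ) (z : ℝ), 0 < a → |1 / (a : ℝ) * k1 κ (z + 2 * Real.log a)| ≤
      (C + 1) * (Real.exp (z / 2) / (1 + (Real.exp (z / 2) * a) ^ 2)) := by
    intro a z ha
    rw [rc_BLIM_k1 κ z a ha, abs_mul, abs_of_pos (Real.exp_pos _)]
    have hsq : (Real.exp (z / 2) * a) ^ 2 = Real.exp z * (a : ℝ) ^ 2 := by
      rw [mul_pow, ← Real.exp_nat_mul]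
      congr 2
      push_cast
      ring
    rw [hsq]
    have hy : 0 ≤ Real.exp z * (a : ℝ) ^ 2 := by positivity
    have h1 := (hC _ hy).1
    have h2 : C / (1 + Real.exp z * (a : ℝ) ^ 2) ^ 6 ≤ (C + 1) / (1 + Real.exp z * (a : ℝ) ^ 2) := by
      gcongr
      · linarith
      · exact le_self_pow₀ (by linarith) (by norm_num)
    calc Real.exp (z / 2) * |f1 κ (Real.exp z * (a : ℝ) ^ 2)|
        ≤ Real.exp (z / 2) * ((C + 1) / (1 + Real.exp z * (a : ℝ) ^ 2)) := by
          gcongr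
          exact h1.trans h2
      _ = _ := by ring
  refine ⟨C + 1, by positivity, fun z => ?_, key⟩
  have h := key 1 z one_pos
  simp only [Nat.cast_one, Real.log_one, mul_zero, add_zero, div_one, one_mul, mul_one] at h
  refine h.trans ?_
  have h3 : Real.exp (z / 2) / (1 + Real.exp (z / 2) ^ 2) ≤ 1 := by
    rw [div_le_one (by positivity)]
    nlinarith [sq_nonneg (Real.exp (z / 2) - 1), Real.exp_pos (z / 2)]
  nlinarith

/-- The real rough kernel. -/
noncomputable def rc_BLIM_hr (κ R : ℕ) (z : ℝ) : ℝ :=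
  ∑' a : ℕ, if 0 < a ∧ a.Coprime R then 1 / (a : ℝ) * k1 κ (z + 2 * Real.log a) else 0

theorem rc_BLIM_hr_bd {κ : ℕ} (hκ : κ ≤ 1) {R : ℕ} (hR : 0 < R) : ∃ C : ℝ, 0 < C ∧
    ∀ z : ℝ, |rc_BLIM_hr κ R z| ≤ C * Real.exp (-|z| / 2) := by
  obtain ⟨C, hC0, hC⟩ := sb (ker_f1 hκ)
  obtain ⟨C1, hC1⟩ := (ker_f1 hκ).bd
  refine ⟨C * (R.divisors.card : ℝ), ?_, fun z => ?_⟩
  · have : 0 < R.divisors.card := Finset.card_pos.2 ⟨1, Nat.one_mem_divisors.2 hR.ne'⟩
    positivity
  have hsum : Summable (fun a : ℕ => f1 κ (Real.exp z * (a : ℝ) ^ 2)) := by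
    have h2 : Summable (fun a : ℕ => |C1| / Real.exp z * (1 / (a : ℝ) ^ 2)) :=
      (Real.summable_one_div_nat_pow.2 (by norm_num : 1 < 2)).mul_left _
    rw [← summable_nat_add_iff 1] at h2 ⊢
    refine Summable.of_norm_bounded h2 fun a => ?_
    rw [Real.norm_eq_abs]
    have ha : (0 : ℝ) < ((a + 1 : ℕ) : ℝ) := by positivity
    have hy : 0 < Real.exp z * ((a + 1 : ℕ) : ℝ) ^ 2 := by positivity
    refine (hC1 _ hy.le).1.trans ?_
    calc C1 / (1 + Real.exp z * ((a + 1 : ℕ) : ℝ) ^ 2) ^ 6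
        ≤ |C1| / (1 + Real.exp z * ((a + 1 : ℕ) : ℝ) ^ 2) ^ 6 := by
          gcongr
          exact le_abs_self _
      _ ≤ |C1| / (Real.exp z * ((a + 1 : ℕ) : ℝ) ^ 2) := by
          gcongr
          exact le_trans (by linarith) (le_self_pow₀ (by linarith) (by norm_num : (6 : ℕ) ≠ 0))
      _ = _ := by field_simp
  have h1 : rc_BLIM_hr κ R z = Real.exp (z / 2) *
      ∑ d ∈ R.divisors, (ArithmeticFunction.moebius d : ℝ) *
        ∑' b : ℕ, f1 κ (((b : ℝ) + 1) ^ 2 * (Real.exp z * (d : ℝ) ^ 2)) := by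
    rw [rc_BLIM_hr]
    have h2 : ∀ a : ℕ, (if 0 < a ∧ a.Coprime R then 1 / (a : ℝ) * k1 κ (z + 2 * Real.log a)
        else 0) = Real.exp (z / 2) *
          (if 0 < a ∧ a.Coprime R then f1 κ (Real.exp z * (a : ℝ) ^ 2) else 0) := by
      intro a
      split_ifs with h
      · exact rc_BLIM_k1 κ z a h.1
      · simp
    rw [tsum_congr h2, tsum_mul_left, rc_BLIM_cop _ hsum R hR]
    congr 1
    refine Finset.sum_congr rfl fun d _ => ?_
    congr 1
    refine tsum_congr fun b => ?_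
    congr 1
    push_cast
    ring
  rw [h1, abs_mul, abs_of_pos (Real.exp_pos _)]
  have h3 : |∑ d ∈ R.divisors, (ArithmeticFunction.moebius d : ℝ) *
        ∑' b : ℕ, f1 κ (((b : ℝ) + 1) ^ 2 * (Real.exp z * (d : ℝ) ^ 2))| ≤
      (R.divisors.card : ℝ) * (C / (1 + Real.exp z)) := by
    refine (Finset.abs_sum_le_sum_abs _ _).trans ?_
    have h4 : ∀ d ∈ R.divisors, |(ArithmeticFunction.moebius d : ℝ) *
        ∑' b : ℕ, f1 κ (((b : ℝ) + 1) ^ 2 * (Real.exp z * (d : ℝ) ^ 2))| ≤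
          C / (1 + Real.exp z) := by
      intro d hd
      have hd1 : (1 : ℝ) ≤ d := by exact_mod_cast Nat.pos_of_mem_divisors hd
      rw [abs_mul]
      have h5 : |(ArithmeticFunction.moebius d : ℝ)| ≤ 1 := by
        exact_mod_cast (ArithmeticFunction.abs_moebius_le_one (n := d))
      have h6 := hC (Real.exp z * (d : ℝ) ^ 2) (by positivity)
      have h7 : C / (1 + Real.exp z * (d : ℝ) ^ 2) ≤ C / (1 + Real.exp z) := by
        gcongr
        exact le_mul_of_one_le_right (Real.exp_pos z).le (one_le_pow₀ hd1)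
      calc |(ArithmeticFunction.moebius d : ℝ)| *
          |∑' b : ℕ, f1 κ (((b : ℝ) + 1) ^ 2 * (Real.exp z * (d : ℝ) ^ 2))|
          ≤ 1 * (C / (1 + Real.exp z)) := by
            gcongr
            exact h6.trans h7
        _ = _ := one_mul _
    refine (Finset.sum_le_sum h4).trans ?_
    rw [Finset.sum_const, nsmul_eq_mul]
  have h8 : Real.exp (z / 2) / (1 + Real.exp z) ≤ Real.exp (-|z| / 2) := by
    rw [div_le_iff₀ (by positivity), mul_add, mul_one, ← Real.exp_add]
    rcases le_total 0 z with h | h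
    · rw [abs_of_nonneg h]
      have : Real.exp (z / 2) = Real.exp (-z / 2 + z) := by congr 1; ring
      rw [← this]
      linarith [Real.exp_pos (-z / 2)]
    · rw [abs_of_nonpos h, neg_neg]
      linarith [Real.exp_pos (z / 2 + z)]
  calc Real.exp (z / 2) * |∑ d ∈ R.divisors, (ArithmeticFunction.moebius d : ℝ) *
        ∑' b : ℕ, f1 κ (((b : ℝ) + 1) ^ 2 * (Real.exp z * (d : ℝ) ^ 2))|
      ≤ Real.exp (z / 2) * ((R.divisors.card : ℝ) * (C / (1 + Real.exp z))) := by gcongr
    _ = C * (R.divisors.card : ℝ) * (Real.exp (z / 2) / (1 + Real.exp z)) := by ring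
    _ ≤ C * (R.divisors.card : ℝ) * Real.exp (-|z| / 2) := by gcongr

/-! ### Interchange of sum and integral -/

theorem rc_BLIM_int {κ : ℕ} (hκ : κ ≤ 1) (h : ℝ → ℂ) (hh : Continuous h) (hi : Integrable h)
    (x : ℝ) : Integrable (fun u : ℝ => (k1 κ (x + u) : ℂ) * h u) := by
  obtain ⟨C, hC0, hC, -⟩ := rc_BLIM_k1_bd hκ
  refine (hi.norm.const_mul C).mono' ?_ (Eventually.of_forall fun u => ?_)
  · have h1 : Continuous fun u : ℝ => (k1 κ (x + u) : ℂ) :=
      continuous_ofReal.comp ((rc_BLIM_k1_cont κ).comp (continuous_const.add continuous_id))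
    exact (h1.mul hh).aestronglyMeasurable
  · rw [norm_mul, Complex.norm_real, Real.norm_eq_abs]
    gcongr
    exact hC _

theorem rc_BLIM_swap {κ : ℕ} (hκ : κ ≤ 1) (R : ℕ) (h : ℝ → ℂ) (hh : Continuous h)
    (hi : Integrable h) (S : Set ℝ) (y : ℝ) :
    HasSum (fun a : ℕ => if 0 < a ∧ a.Coprime R then (1 / (a : ℂ)) *
      ∫ u in S, (k1 κ (y + 2 * Real.log a + u) : ℂ) * h u else 0)
      (∫ u in S, (rc_BLIM_hr κ R (y + u) : ℂ) * h u) := by
  obtain ⟨C, hC0, hC, hC2⟩ := rc_BLIM_k1_bd hκ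
  set F : ℕ → ℝ → ℂ := fun a u => if 0 < a ∧ a.Coprime R then (1 / (a : ℂ)) *
    ((k1 κ (y + 2 * Real.log a + u) : ℂ) * h u) else 0 with hF
  have hFi : ∀ a, Integrable (F a) := by
    intro a
    by_cases ha : 0 < a ∧ a.Coprime R
    · simp only [hF, if_pos ha]
      exact (rc_BLIM_int hκ h hh hi _).const_mul _
    · simp only [hF, if_neg ha]
      exact integrable_zero _ _ _
  have hFb : ∀ a u, ‖F a u‖ ≤ (if 0 < a then Real.exp ((y + u) / 2) /
      (1 + (Real.exp ((y + u) / 2) * a) ^ 2) else 0) * (C * ‖h u‖) := by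
    intro a u
    by_cases ha : 0 < a ∧ a.Coprime R
    · simp only [hF, if_pos ha, if_pos ha.1]
      rw [← mul_assoc, norm_mul]
      have e : ‖(1 / (a : ℂ)) * (k1 κ (y + 2 * Real.log a + u) : ℂ)‖ =
          |1 / (a : ℝ) * k1 κ ((y + u) + 2 * Real.log a)| := by
        rw [← Real.norm_eq_abs, ← Complex.norm_real]
        push_cast
        congr 4
        ring
      rw [e]
      have := hC2 a (y + u) ha.1
      calc |1 / (a : ℝ) * k1 κ ((y + u) + 2 * Real.log a)| * ‖h u‖
          ≤ C * (Real.exp ((y + u) / 2) / (1 + (Real.exp ((y + u) / 2) * a) ^ 2)) * ‖h u‖ := by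
            gcongr
        _ = _ := by ring
    · simp only [hF, if_neg ha, norm_zero]
      split_ifs
      · positivity
      · simp
  have hsum : Summable fun a => ∫ u in S, ‖F a u‖ := by
    refine summable_of_sum_le (c := ∫ u in S, 2 * (C * ‖h u‖)) (fun a => by positivity) ?_
    intro s
    rw [← integral_finsetSum _ (fun a _ => (hFi a).norm.integrableOn)]
    refine integral_mono ?_ ((hi.norm.const_mul C).const_mul 2).integrableOn ?_
    · exact integrable_finsetSum _ (fun a _ => (hFi a).norm.integrableOn)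
    · intro u
      simp only
      refine (Finset.sum_le_sum fun a _ => hFb a u).trans ?_
      rw [← Finset.sum_mul]
      have := rc_BLIM_sum1 (Real.exp ((y + u) / 2)) (Real.exp_pos _) s
      gcongr
  have hmain := hasSum_integral_of_summable_integral_norm
    (fun a => (hFi a).integrableOn (s := S)) hsum
  have e1 : (fun a => ∫ u in S, F a u) = fun a : ℕ => if 0 < a ∧ a.Coprime R then (1 / (a : ℂ)) *
      ∫ u in S, (k1 κ (y + 2 * Real.log a + u) : ℂ) * h u else 0 := by
    funext a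
    by_cases ha : 0 < a ∧ a.Coprime R
    · simp only [hF, if_pos ha]
      exact integral_const_mul _ _
    · simp only [hF, if_neg ha, integral_zero]
  have e2 : ∀ u, ∑' a, F a u = (rc_BLIM_hr κ R (y + u) : ℂ) * h u := by
    intro u
    rw [rc_BLIM_hr, Complex.ofReal_tsum, ← tsum_mul_right]
    refine tsum_congr fun a => ?_
    by_cases ha : 0 < a ∧ a.Coprime R
    · simp only [hF, if_pos ha]
      push_cast
      rw [show y + 2 * Real.log a + u = y + u + 2 * Real.log a by ring]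
      ring
    · simp only [hF, if_neg ha]
      simp
  rw [e1] at hmain
  have e3 : ∫ u in S, ∑' a, F a u = ∫ u in S, (rc_BLIM_hr κ R (y + u) : ℂ) * h u :=
    integral_congr_ae (Eventually.of_forall e2)
  rwa [e3] at hmain

/-- The difference is an integral over the tail. -/
theorem rc_BLIM_diff {κ : ℕ} (hκ : κ ≤ 1) (R : ℕ) (h : ℝ → ℂ) (hh : Continuous h)
    (hi : Integrable h) (U : ℝ) (hU : 0 < U) (y : ℝ) :
    BB R (gU κ U h) y - BB R (gI κ h) y =
      -∫ u in (Set.Ioc (-U) U)ᶜ, (rc_BLIM_hr κ R (y + u) : ℂ) * h u := by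
  have h1 := rc_BLIM_swap hκ R h hh hi (Set.Ioc (-U) U) y
  have h2 := rc_BLIM_swap hκ R h hh hi Set.univ y
  have h3 := rc_BLIM_swap hκ R h hh hi (Set.Ioc (-U) U)ᶜ y
  have e1 : BB R (gU κ U h) y = ∑' a : ℕ, (if 0 < a ∧ a.Coprime R then (1 / (a : ℂ)) *
      ∫ u in Set.Ioc (-U) U, (k1 κ (y + 2 * Real.log a + u) : ℂ) * h u else 0) := by
    rw [BB]
    refine tsum_congr fun a => ?_
    simp only [gU]
    rw [intervalIntegral.integral_of_le (by linarith)]
  have e2 : BB R (gI κ h) y = ∑' a : ℕ, (if 0 < a ∧ a.Coprime R then (1 / (a : ℂ)) *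
      ∫ u in Set.univ, (k1 κ (y + 2 * Real.log a + u) : ℂ) * h u else 0) := by
    rw [BB]
    refine tsum_congr fun a => ?_
    simp only [gI, setIntegral_univ]
  rw [e1, e2, ← h1.summable.tsum_sub h2.summable, ← h3.tsum_eq, ← tsum_neg]
  refine tsum_congr fun a => ?_
  by_cases ha : 0 < a ∧ a.Coprime R
  · simp only [if_pos ha]
    rw [setIntegral_compl measurableSet_Ioc (rc_BLIM_int hκ h hh hi _), setIntegral_univ]
    ring
  · simp only [if_neg ha]
    simp

/-- BLIM (cites SB, KERN). -/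
theorem blim_pr {κ : ℕ} (hκ : κ ≤ 1) {R : ℕ} (hR : 0 < R) (h : ℝ → ℂ) (hh : Continuous h)
    (hi : Integrable h) (ε : ℝ) (hε : 0 < ε) : ∃ U0 : ℝ, 0 < U0 ∧ ∀ U ≥ U0, ∀ x : ℝ,
      ‖BB R (gU κ U h) x - BB R (gI κ h) x‖ ^ 2 ≤ ε ∧
      Summable (vk R (fun y => BB R (gU κ U h) y - BB R (gI κ h) y) x) ∧
      ∑' k : ℕ, vk R (fun y => BB R (gU κ U h) y - BB R (gI κ h) y) x k ≤ ε := by
  obtain ⟨C, hC0, hC⟩ := rc_BLIM_hr_bd hκ hR
  set δ : ℝ := √ε / (4 * C) with hδ
  have hδ0 : 0 < δ := by positivity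
  have hCδ : C ^ 2 * δ ^ 2 * 8 ≤ ε := by
    rw [hδ, div_pow, Real.sq_sqrt hε.le]
    have : C ^ 2 * (ε / (4 * C) ^ 2) * 8 = ε / 2 := by
      field_simp
      ring
    rw [this]
    linarith
  -- choose U0
  obtain ⟨U1, hU1⟩ : ∃ U1 : ℝ, ∀ U ≥ U1, ∫ u in (Set.Ioc (-U) U)ᶜ, ‖h u‖ ≤ δ := by
    have ht : Tendsto (fun U : ℝ => ∫ u in (-U)..U, ‖h u‖) atTop (𝓝 (∫ u, ‖h u‖)) :=
      intervalIntegral_tendsto_integral hi.norm tendsto_neg_atTop_atBot tendsto_id
    have h1 : ∀ᶠ U : ℝ in atTop, (∫ u, ‖h u‖) - δ < ∫ u in (-U)..U, ‖h u‖ :=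
      ht.eventually (lt_mem_nhds (by linarith))
    obtain ⟨U1, hU1⟩ := eventually_atTop.1 (h1.and (eventually_ge_atTop (0 : ℝ)))
    refine ⟨U1, fun U hU => ?_⟩
    have h2 := hU1 U hU
    rw [setIntegral_compl measurableSet_Ioc hi.norm]
    have h3 := h2.1
    rw [intervalIntegral.integral_of_le (by linarith [h2.2])] at h3
    linarith
  refine ⟨max U1 1, by positivity, fun U hU x => ?_⟩
  have hU0 : 0 < U := lt_of_lt_of_le one_pos ((le_max_right _ _).trans hU)
  have hη := hU1 U ((le_max_left _ _).trans hU)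
  set Sc : Set ℝ := (Set.Ioc (-U) U)ᶜ with hSc
  set η : ℝ := ∫ u in Sc, ‖h u‖ with hηd
  have hη0 : 0 ≤ η := integral_nonneg fun u => norm_nonneg _
  set D : ℝ → ℂ := fun y => BB R (gU κ U h) y - BB R (gI κ h) y with hD
  have hexpi : ∀ y : ℝ, Integrable (fun u : ℝ => Real.exp (-|y + u| / 2) * ‖h u‖) := by
    intro y
    refine hi.norm.mono' ?_ (Eventually.of_forall fun u => ?_)
    · have : Continuous fun u : ℝ => Real.exp (-|y + u| / 2) * ‖h u‖ := by fun_prop
      exact this.aestronglyMeasurable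
    · rw [norm_mul, Real.norm_eq_abs, abs_of_pos (Real.exp_pos _), norm_norm]
      have : Real.exp (-|y + u| / 2) ≤ 1 := by
        rw [Real.exp_le_one_iff]
        have := abs_nonneg (y + u)
        linarith
      nlinarith [norm_nonneg (h u)]
  have hDb : ∀ y, ‖D y‖ ≤ C * ∫ u in Sc, Real.exp (-|y + u| / 2) * ‖h u‖ := by
    intro y
    simp only [hD]
    rw [rc_BLIM_diff hκ R h hh hi U hU0 y, norm_neg, ← integral_const_mul]
    refine norm_integral_le_of_norm_le ((hexpi y).const_mul C).integrableOn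
      (Eventually.of_forall fun u => ?_)
    rw [norm_mul, Complex.norm_real, Real.norm_eq_abs, ← mul_assoc]
    gcongr
    exact hC _
  have hEη : ∀ y, ∫ u in Sc, Real.exp (-|y + u| / 2) * ‖h u‖ ≤ η := by
    intro y
    refine integral_mono (hexpi y).integrableOn hi.norm.integrableOn fun u => ?_
    simp only
    have : Real.exp (-|y + u| / 2) ≤ 1 := by
      rw [Real.exp_le_one_iff]
      have := abs_nonneg (y + u)
      linarith
    nlinarith [norm_nonneg (h u)]
  have hE0 : ∀ y, 0 ≤ ∫ u in Sc, Real.exp (-|y + u| / 2) * ‖h u‖ := fun y =>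
    integral_nonneg fun u => by positivity
  have hDb2 : ∀ y, ‖D y‖ ≤ C * η := fun y => (hDb y).trans (by gcongr; exact hEη y)
  have hDsq : ∀ y, ‖D y‖ ^ 2 ≤ C ^ 2 * η * ∫ u in Sc, Real.exp (-|y + u| / 2) * ‖h u‖ := by
    intro y
    calc ‖D y‖ ^ 2 = ‖D y‖ * ‖D y‖ := pow_two _
      _ ≤ (C * η) * (C * ∫ u in Sc, Real.exp (-|y + u| / 2) * ‖h u‖) := by
          gcongr
          · exact hDb2 y
          · exact hDb y
      _ = _ := by ring
  have hfin : ∀ s : Finset ℕ, ∑ k ∈ s, vk R D x k ≤ ε := by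
    intro s
    have h1 : ∀ k ∈ s, vk R D x k ≤ C ^ 2 * η * ∫ u in Sc,
        (if 0 < k then 1 / (k : ℝ) * Real.exp (-|Real.log k + (x + u)| / 2) else 0) * ‖h u‖ := by
      intro k _
      simp only [vk]
      by_cases hk : 1 < k ∧ k.Coprime R
      · rw [if_pos hk]
        have hk0 : 0 < k := by omega
        simp only [if_pos hk0]
        have h2 := hDsq (Real.log k + x)
        calc 1 / (k : ℝ) * ‖D (Real.log k + x)‖ ^ 2
            ≤ 1 / (k : ℝ) * (C ^ 2 * η *
                ∫ u in Sc, Real.exp (-|Real.log k + x + u| / 2) * ‖h u‖) := by gcongr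
          _ = C ^ 2 * η * (1 / (k : ℝ) *
                ∫ u in Sc, Real.exp (-|Real.log k + x + u| / 2) * ‖h u‖) := by ring
          _ = C ^ 2 * η * ∫ u in Sc, 1 / (k : ℝ) * (Real.exp (-|Real.log k + x + u| / 2) *
                ‖h u‖) := by rw [integral_const_mul]
          _ = _ := by
              congr 1
              refine integral_congr_ae (Eventually.of_forall fun u => ?_)
              simp only
              rw [add_assoc, mul_assoc]
      · rw [if_neg hk]
        refine mul_nonneg (by positivity) (integral_nonneg fun u => ?_)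
        simp only [Pi.zero_apply]
        split_ifs
        · positivity
        · simp
    have hki : ∀ k : ℕ, Integrable (fun u : ℝ => (if 0 < k then 1 / (k : ℝ) *
        Real.exp (-|Real.log k + (x + u)| / 2) else 0) * ‖h u‖) := by
      intro k
      by_cases hk : 0 < k
      · simp only [if_pos hk]
        have := (hexpi (Real.log k + x)).const_mul (1 / (k : ℝ))
        refine this.congr (Eventually.of_forall fun u => ?_)
        simp only
        rw [add_assoc, mul_assoc]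
      · simp [hk]
    refine (Finset.sum_le_sum h1).trans ?_
    rw [← Finset.mul_sum, ← integral_finsetSum _ (fun k _ => (hki k).integrableOn)]
    have h3 : ∫ u in Sc, ∑ k ∈ s, (if 0 < k then 1 / (k : ℝ) *
        Real.exp (-|Real.log k + (x + u)| / 2) else 0) * ‖h u‖ ≤ ∫ u in Sc, 8 * ‖h u‖ := by
      refine integral_mono (integrable_finsetSum _ (fun k _ => (hki k).integrableOn))
        (hi.norm.const_mul 8).integrableOn fun u => ?_
      simp only
      rw [← Finset.sum_mul]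
      have := rc_BLIM_sum2 (x + u) s
      gcongr
    rw [integral_const_mul] at h3
    calc C ^ 2 * η * ∫ u in Sc, ∑ k ∈ s, (if 0 < k then 1 / (k : ℝ) *
        Real.exp (-|Real.log k + (x + u)| / 2) else 0) * ‖h u‖
        ≤ C ^ 2 * η * (8 * η) := by gcongr
      _ = C ^ 2 * η ^ 2 * 8 := by ring
      _ ≤ C ^ 2 * δ ^ 2 * 8 := by gcongr
      _ ≤ ε := hCδ
  have hvk0 : ∀ k, 0 ≤ vk R D x k := by
    intro k
    simp only [vk]
    split_ifs
    · positivity
    · exact le_rfl
  have hsm : Summable (vk R D x) := summable_of_sum_le hvk0 hfin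
  refine ⟨?_, hsm, hsm.tsum_le_of_sum_le hfin⟩
  calc ‖D x‖ ^ 2 ≤ (C * η) ^ 2 := by
        gcongr
        exact hDb2 x
    _ ≤ (C * δ) ^ 2 := by gcongr
    _ ≤ C ^ 2 * δ ^ 2 * 8 := by
        rw [mul_pow]
        nlinarith [mul_pos (pow_pos hC0 2) (pow_pos hδ0 2)]
    _ ≤ ε := hCδ

end Pool.Agent.RC

namespace Pool.Agent.RC

alias blim := blim_pr

end Pool.Agent.RC
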