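import Pool.Agent.Lib_helper39.RC.Defs
import Pool.Agent.Lib_helper39.RCA.LOC
import Pool.Agent.Lib_helper39.RCA.PSUM
/-!
# LB: the product of the local means is large
-/

namespace Pool.Agent.RC

open Finset Filter

theorem rc_lb_log {y : ℝ} (hy : -(1 / 2) ≤ y) : y - 2 * y ^ 2 ≤ Real.log (1 + y) := by
  have h1 : 0 < 1 + y := by linarith
  have h2 := Real.one_sub_inv_le_log_of_pos h1
  have h3 : y - 2 * y ^ 2 ≤ 1 - (1 + y)⁻¹ := by
    have h4 : 1 - (1 + y)⁻¹ = y / (1 + y) := by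
      field_simp
      ring
    rw [h4, le_div_iff₀ h1]
    nlinarith [sq_nonneg y]
  exact h3.trans h2

theorem rc_lb_rpow {C : ℝ} (hC : 0 < C) : ∃ B : ℝ, 0 ≤ B ∧ ∀ s : Finset ℕ,
    ∑ p ∈ s, C * (p : ℝ) ^ (-(3 / 2 : ℝ)) ≤ B := by
  have hsum : Summable (fun p : ℕ => C * (p : ℝ) ^ (-(3 / 2 : ℝ))) :=
    (Real.summable_nat_rpow.mpr (by norm_num)).mul_left C
  exact ⟨_, tsum_nonneg fun p => by positivity, fun s => hsum.sum_le_tsum s
    (fun p _ => by positivity)⟩

/-- LB (cites LOC, PSUM). -/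
theorem lb_pr {a b : ℝ} (hab : a < b) (h0 : 0 < a ∨ b < 0) (P0 : ℕ) (hP0 : 2 ≤ P0) (A : ℝ) :
    ∃ P1 : ℕ, ∀ P ≥ P1, ∀ t ∈ Set.Icc a b, A ≤ ∏ p ∈ prr P0 P, mp p t := by
  obtain ⟨C, hC, hloc⟩ := loc
  set T : ℝ := 2 * max |a| |b| with hT
  obtain ⟨C0, hC0, hps⟩ := psum T
  obtain ⟨B1, hB1, hB1s⟩ := rc_lb_rpow (C := C + 2 * (1 + C) ^ 2) (by positivity)
  -- sum over the small primes
  set S0 : ℝ := ∑ p ∈ pr P0, 1 / (p : ℝ) with hS0
  have hS0nn : 0 ≤ S0 := Finset.sum_nonneg fun p _ => by positivity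
  have hTnn : 0 ≤ T := by positivity
  -- log log P tends to infinity
  have hlim : Tendsto (fun P : ℕ => 1 / 4 * Real.log (Real.log (P : ℝ))) atTop atTop :=
    (Real.tendsto_log_atTop.comp (Real.tendsto_log_atTop.comp
      tendsto_natCast_atTop_atTop)).const_mul_atTop (by norm_num)
  set L : ℝ := Real.log (T + 1 / Real.log 2) with hL
  obtain ⟨P1, hP1⟩ := Filter.eventually_atTop.mp (hlim.eventually_ge_atTop
    (Real.log (max A 1) + C0 + |L| + S0 + B1))
  refine ⟨max P1 2, fun P hP t ht => ?_⟩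
  have hPP1 : P1 ≤ P := le_trans (le_max_left _ _) hP
  have hP2 : 2 ≤ P := le_trans (le_max_right _ _) hP
  have hlogP : 0 < Real.log P := Real.log_pos (by exact_mod_cast (by omega : 1 < P))
  have hlog2 : 0 < Real.log 2 := Real.log_pos (by norm_num)
  have hlog2P : Real.log 2 ≤ Real.log P := Real.log_le_log (by norm_num) (by exact_mod_cast hP2)
  have ht2 : |2 * t| ≤ T := by
    rw [abs_mul, abs_two, hT]
    have : |t| ≤ max |a| |b| := abs_le_max_abs_abs ht.1 ht.2
    linarith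
  have ht0 : t ≠ 0 := by
    rintro rfl
    rcases h0 with h | h
    · linarith [ht.1]
    · linarith [ht.2]
  -- the two sums
  have hp0 := hps P hP2 0 (by rw [abs_zero]; exact hTnn)
  have hpt := hps P hP2 (2 * t) ht2
  simp only [zero_mul, Real.cos_zero, abs_zero, zero_add] at hp0
  rw [one_div (Real.log P), Real.log_inv] at hp0
  have hsum0 : Real.log (Real.log P) - C0 ≤ ∑ p ∈ pr P, 1 / (p : ℝ) := by
    have := (abs_le.mp hp0).1
    linarith
  have hsumt : -|L| - C0 ≤ ∑ p ∈ pr P, Real.cos (2 * t * Real.log p) / p := by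
    have h1 := (abs_le.mp hpt).1
    have h2 : Real.log (|2 * t| + 1 / Real.log P) ≤ L := by
      rw [hL]
      apply Real.log_le_log (by positivity)
      apply add_le_add ht2
      exact one_div_le_one_div_of_le hlog2 hlog2P
    have h3 := le_abs_self L
    linarith
  -- splitting
  have hsplit : ∀ g : ℕ → ℝ, (∀ p ∈ pr P0, |g p| ≤ 1 / (p : ℝ)) →
      ∑ p ∈ pr P, g p - S0 ≤ ∑ p ∈ prr P0 P, g p := by
    intro g hg
    have h1 : ∑ p ∈ pr P, g p = ∑ p ∈ prr P0 P, g p +
        ∑ p ∈ (pr P).filter (fun p => ¬ P0 < p), g p :=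
      (Finset.sum_filter_add_sum_filter_not _ _ _).symm
    have h2 : ∑ p ∈ (pr P).filter (fun p => ¬ P0 < p), g p ≤ S0 := by
      calc ∑ p ∈ (pr P).filter (fun p => ¬ P0 < p), g p
          ≤ ∑ p ∈ (pr P).filter (fun p => ¬ P0 < p), 1 / (p : ℝ) := by
            apply Finset.sum_le_sum
            intro p hp
            have hpm : p ∈ pr P0 := by
              simp only [pr, mem_filter, mem_range] at hp ⊢
              exact ⟨by omega, hp.1.2⟩
            exact (le_abs_self _).trans (hg p hpm)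
        _ ≤ S0 := by
            apply Finset.sum_le_sum_of_subset_of_nonneg
            · intro p hp
              simp only [pr, mem_filter, mem_range] at hp ⊢
              exact ⟨by omega, hp.1.2⟩
            · intro p _ _
              positivity
    linarith
  have hs1 := hsplit (fun p => 1 / (p : ℝ)) (fun p _ => by
    rw [abs_of_nonneg (by positivity)])
  have hs2 := hsplit (fun p => Real.cos (2 * t * Real.log p) / p) (fun p _ => by
    rw [abs_div, Nat.abs_cast]
    exact div_le_div_of_nonneg_right (Real.abs_cos_le_one _) (Nat.cast_nonneg p))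
  -- the logarithm of the product
  have hpos : ∀ p ∈ prr P0 P, 0 < mp p t := by
    intro p hp
    simp only [prr, pr, mem_filter, mem_range] at hp
    linarith [(hloc p (by omega) t t).2.2.2]
  have hlog : ∑ p ∈ prr P0 P, ((1 / 4 + 3 / 4 * Real.cos (2 * t * Real.log p)) / p -
      (C + 2 * (1 + C) ^ 2) * (p : ℝ) ^ (-(3 / 2 : ℝ))) ≤
      Real.log (∏ p ∈ prr P0 P, mp p t) := by
    rw [Real.log_prod (fun p hp => (hpos p hp).ne')]
    apply Finset.sum_le_sum
    intro p hp
    simp only [prr, pr, mem_filter, mem_range] at hp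
    have hp3 : 3 ≤ p := by omega
    obtain ⟨h1, _, _, h4⟩ := hloc p hp3 t t
    have hp1 : (1 : ℝ) ≤ p := by exact_mod_cast (by omega : 1 ≤ p)
    have hp0' : (0 : ℝ) < p := by linarith
    set y : ℝ := mp p t - 1 with hy
    have h5 : y - 2 * y ^ 2 ≤ Real.log (mp p t) := by
      have := rc_lb_log (y := y) (by rw [hy]; linarith)
      rwa [show 1 + y = mp p t by rw [hy]; ring] at this
    set q : ℝ := (p : ℝ) ^ (-(3 / 2 : ℝ)) with hq
    have hq0 : 0 < q := Real.rpow_pos_of_pos hp0' _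
    have hq1 : q ≤ 1 / p := by
      rw [hq, one_div, ← Real.rpow_neg_one]
      exact Real.rpow_le_rpow_of_exponent_le hp1 (by norm_num)
    have hqq : 1 / (p : ℝ) ^ 2 ≤ q := by
      rw [hq, one_div, ← Real.rpow_natCast, ← Real.rpow_neg hp0'.le]
      exact Real.rpow_le_rpow_of_exponent_le hp1 (by norm_num)
    have hc := abs_le.mp (Real.abs_cos_le_one (2 * t * Real.log p))
    have h6 : |(1 / 4 + 3 / 4 * Real.cos (2 * t * Real.log p)) / p| ≤ 1 / p := by
      rw [abs_div, Nat.abs_cast]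
      apply div_le_div_of_nonneg_right _ hp0'.le
      rw [abs_le]
      constructor <;> linarith
    have h7 : |y| ≤ (1 + C) / p := by
      calc |y| = |(y - (1 / 4 + 3 / 4 * Real.cos (2 * t * Real.log p)) / p) +
            (1 / 4 + 3 / 4 * Real.cos (2 * t * Real.log p)) / p| := by ring_nf
        _ ≤ |y - (1 / 4 + 3 / 4 * Real.cos (2 * t * Real.log p)) / p| +
            |(1 / 4 + 3 / 4 * Real.cos (2 * t * Real.log p)) / p| := abs_add_le _ _
        _ ≤ C * q + 1 / p := add_le_add h1 h6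
        _ ≤ C * (1 / p) + 1 / p := by
            have := mul_le_mul_of_nonneg_left hq1 hC.le
            linarith
        _ = (1 + C) / p := by ring
    have h8 : y ^ 2 ≤ (1 + C) ^ 2 * q := by
      calc y ^ 2 = |y| ^ 2 := (sq_abs y).symm
        _ ≤ ((1 + C) / p) ^ 2 := pow_le_pow_left₀ (abs_nonneg y) h7 2
        _ = (1 + C) ^ 2 * (1 / (p : ℝ) ^ 2) := by rw [div_pow]; ring
        _ ≤ (1 + C) ^ 2 * q := mul_le_mul_of_nonneg_left hqq (by positivity)
    have h9 := (abs_le.mp h1).1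
    nlinarith
  have hsums : ∑ p ∈ prr P0 P, ((1 / 4 + 3 / 4 * Real.cos (2 * t * Real.log p)) / p -
      (C + 2 * (1 + C) ^ 2) * (p : ℝ) ^ (-(3 / 2 : ℝ))) =
      1 / 4 * ∑ p ∈ prr P0 P, 1 / (p : ℝ) +
      3 / 4 * ∑ p ∈ prr P0 P, Real.cos (2 * t * Real.log p) / p -
      ∑ p ∈ prr P0 P, (C + 2 * (1 + C) ^ 2) * (p : ℝ) ^ (-(3 / 2 : ℝ)) := by
    rw [Finset.mul_sum, Finset.mul_sum, ← Finset.sum_add_distrib, ← Finset.sum_sub_distrib]
    apply Finset.sum_congr rfl
    intro p _
    ring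
  have hB := hB1s (prr P0 P)
  have hbig := hP1 P hPP1
  have hprod : 0 < ∏ p ∈ prr P0 P, mp p t := Finset.prod_pos hpos
  have hfin : Real.log (max A 1) ≤ Real.log (∏ p ∈ prr P0 P, mp p t) := by
    have habs := abs_nonneg L
    linarith
  have hmax := (Real.log_le_log_iff (by positivity) hprod).mp hfin
  exact (le_max_left A 1).trans hmax

end Pool.Agent.RC

namespace Pool.Agent.RC

alias lb := lb_pr

end Pool.Agent.RC
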