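import Pool.Agent.Lib_helper39.RC.Defs
/-!
# RC, block PR2
-/

namespace Pool.Agent.RC

open Complex MeasureTheory Filter Topology

theorem rc_pr2_theta (N : ℕ) : ∑ p ∈ pr N, Real.log p ≤ Real.log 4 * N := by
  have h := Chebyshev.theta_le_log4_mul_x (x := (N : ℝ)) (Nat.cast_nonneg N)
  have h2 : Chebyshev.theta (N : ℝ) = ∑ p ∈ pr N, Real.log p := by
    rw [Chebyshev.theta_eq_sum_Icc]
    apply Finset.sum_congr _ (fun _ _ => rfl)
    ext p
    simp only [pr, Finset.mem_filter, Finset.mem_Icc, Finset.mem_range, Nat.floor_natCast]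
    constructor
    · rintro ⟨⟨_, h1⟩, h2⟩
      exact ⟨by omega, h2⟩
    · rintro ⟨h1, h2⟩
      exact ⟨⟨by omega, by omega⟩, h2⟩
  rw [← h2]
  exact h

theorem pr2_pr : ∃ C : ℝ, 0 < C ∧ ∀ N : ℕ, 2 ≤ N →
    ∑ p ∈ prr N (9 * N), 1 / (p : ℝ) ≤ C / Real.log N := by
  refine ⟨9 * Real.log 4, by positivity, ?_⟩
  intro N hN
  have hN0 : (0 : ℝ) < N := by positivity
  have hlog : 0 < Real.log N := Real.log_pos (by exact_mod_cast (by omega : 1 < N))
  have h1 : ∀ p ∈ prr N (9 * N), 1 / (p : ℝ) ≤ Real.log p / (N * Real.log N) := by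
    intro p hp
    have hNp : N < p := (Finset.mem_filter.mp hp).2
    have hNp' : (N : ℝ) ≤ p := by exact_mod_cast hNp.le
    have hp0 : (0 : ℝ) < p := lt_of_lt_of_le hN0 hNp'
    rw [div_le_div_iff₀ hp0 (mul_pos hN0 hlog)]
    have h2 : Real.log N ≤ Real.log p := Real.log_le_log hN0 hNp'
    have h3 : (N : ℝ) * Real.log N ≤ p * Real.log p :=
      mul_le_mul hNp' h2 hlog.le hp0.le
    linarith
  refine (Finset.sum_le_sum h1).trans ?_
  rw [← Finset.sum_div]
  have h2 : ∑ p ∈ prr N (9 * N), Real.log p ≤ ∑ p ∈ pr (9 * N), Real.log p := by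
    apply Finset.sum_le_sum_of_subset_of_nonneg (Finset.filter_subset _ _)
    intro p _ _
    exact Real.log_natCast_nonneg p
  have h3 := rc_pr2_theta (9 * N)
  push_cast at h3
  rw [div_le_div_iff₀ (mul_pos hN0 hlog) hlog]
  have h4 : ∑ p ∈ prr N (9 * N), Real.log p ≤ Real.log 4 * (9 * N) := h2.trans h3
  calc (∑ p ∈ prr N (9 * N), Real.log p) * Real.log N
      ≤ (Real.log 4 * (9 * N)) * Real.log N := mul_le_mul_of_nonneg_right h4 hlog.le
    _ = 9 * Real.log 4 * (N * Real.log N) := by ring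

end Pool.Agent.RC

namespace Pool.Agent.RC

alias pr2 := pr2_pr

end Pool.Agent.RC
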