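import Pool.Agent.Lib_helper39.RC.Defs
import Pool.Agent.Lib_helper39.RCA.PR2
/-!
# Block MSQ: mean square of a prime sum
-/

namespace Pool.Agent.RC

open Complex MeasureTheory Filter Topology

theorem rc_msq_pi : ∃ C : ℝ, 0 < C ∧ ∀ n : ℕ, 2 ≤ n →
    ((pr n).card : ℝ) ≤ C * n / Real.log n := by
  have hev := Chebyshev.eventually_primeCounting_le (ε := 1) one_pos
  obtain ⟨x₀, hx₀⟩ := Filter.eventually_atTop.1 hev
  set C : ℝ := max (Real.log 4 + 1) (Real.log (max x₀ 2)) with hC
  have hlog4 : 0 < Real.log 4 := Real.log_pos (by norm_num)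
  have hC0 : 0 < C := lt_of_lt_of_le (by linarith) (le_max_left _ _)
  refine ⟨C, hC0, fun n hn => ?_⟩
  have hn2 : (2 : ℝ) ≤ n := by exact_mod_cast hn
  have hlog : 0 < Real.log n := Real.log_pos (by linarith)
  have hcard : (pr n).card = Nat.primeCounting n := by
    unfold pr
    rw [Nat.primeCounting, Nat.primeCounting', Nat.count_eq_card_filter_range]
  rw [hcard]
  rcases le_or_gt x₀ n with h | h
  · have h1 := hx₀ n h
    rw [Nat.floor_natCast] at h1
    refine h1.trans ?_
    apply div_le_div_of_nonneg_right _ hlog.le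
    exact mul_le_mul_of_nonneg_right (le_max_left _ _) (by linarith)
  · have h1 : (Nat.primeCounting n : ℝ) ≤ n := by
      rw [← hcard]
      have h2 : (pr n).card ≤ n := by
        unfold pr
        have : (Finset.range (n + 1)).filter Nat.Prime ⊆ Finset.Icc 1 n := by
          intro p hp
          rw [Finset.mem_filter, Finset.mem_range] at hp
          rw [Finset.mem_Icc]
          exact ⟨hp.2.one_lt.le, by omega⟩
        refine (Finset.card_le_card this).trans ?_
        simp
      exact_mod_cast h2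
    rw [le_div_iff₀ hlog]
    have h3 : Real.log n ≤ C := by
      refine le_trans ?_ (le_max_right _ _)
      apply Real.log_le_log (by linarith)
      exact h.le.trans (le_max_left _ _)
    calc (Nat.primeCounting n : ℝ) * Real.log n ≤ n * C :=
          mul_le_mul h1 h3 hlog.le (by linarith)
      _ = C * n := by ring

theorem rc_msq_tail : ∃ C : ℝ, 0 < C ∧ ∀ N P : ℕ, 2 ≤ N →
    ∑ p ∈ prr N P, 1 / ((p : ℝ) * Real.log p) ≤ C / Real.log N := by
  obtain ⟨C, hC, h⟩ := pr2
  have hl9 : 0 < Real.log 9 := Real.log_pos (by norm_num)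
  have hl2 : 0 < Real.log 2 := Real.log_pos (by norm_num)
  set C2 : ℝ := C * (1 / Real.log 9 + 1 / Real.log 2) with hC2
  have hC20 : 0 < C2 := by positivity
  refine ⟨C2, hC20, ?_⟩
  have key : ∀ k : ℕ, ∀ N P : ℕ, 2 ≤ N → P - N ≤ k →
      ∑ p ∈ prr N P, 1 / ((p : ℝ) * Real.log p) ≤ C2 / Real.log N := by
    intro k
    induction k with
    | zero =>
      intro N P hN hk
      have hN2 : (2 : ℝ) ≤ N := by exact_mod_cast hN
      have hlog : 0 < Real.log N := Real.log_pos (by linarith)
      have : prr N P = ∅ := by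
        unfold prr pr
        rw [Finset.filter_eq_empty_iff]
        intro p hp
        rw [Finset.mem_filter, Finset.mem_range] at hp
        omega
      rw [this, Finset.sum_empty]
      positivity
    | succ k ih =>
      intro N P hN hk
      have hN2 : (2 : ℝ) ≤ N := by exact_mod_cast hN
      have hlog : 0 < Real.log N := Real.log_pos (by linarith)
      have hsub : prr N P ⊆ prr N (9 * N) ∪ prr (9 * N) P := by
        intro p hp
        unfold prr pr at hp ⊢
        rw [Finset.mem_filter, Finset.mem_filter, Finset.mem_range] at hp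
        rw [Finset.mem_union, Finset.mem_filter, Finset.mem_filter, Finset.mem_range,
          Finset.mem_filter, Finset.mem_filter, Finset.mem_range]
        rcases le_or_gt p (9 * N) with h1 | h1
        · exact Or.inl ⟨⟨by omega, hp.1.2⟩, hp.2⟩
        · exact Or.inr ⟨⟨hp.1.1, hp.1.2⟩, h1⟩
      have hnn : ∀ p : ℕ, 0 ≤ 1 / ((p : ℝ) * Real.log p) := fun p => by
        have := Real.log_natCast_nonneg p
        positivity
      have h1 : ∑ p ∈ prr N (9 * N), 1 / ((p : ℝ) * Real.log p) ≤
          C / Real.log N / Real.log N := by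
        calc ∑ p ∈ prr N (9 * N), 1 / ((p : ℝ) * Real.log p)
            ≤ ∑ p ∈ prr N (9 * N), 1 / (p : ℝ) * (1 / Real.log N) := by
              refine Finset.sum_le_sum fun p hp => ?_
              unfold prr at hp
              have hpN : N < p := (Finset.mem_filter.1 hp).2
              have hpN' : (N : ℝ) ≤ p := by exact_mod_cast hpN.le
              have h2 : Real.log N ≤ Real.log p := Real.log_le_log (by linarith) hpN'
              rw [one_div_mul_one_div]
              apply one_div_le_one_div_of_le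
              · have : (0 : ℝ) < p := by linarith
                positivity
              · exact mul_le_mul_of_nonneg_left h2 (by linarith)
          _ = (∑ p ∈ prr N (9 * N), 1 / (p : ℝ)) * (1 / Real.log N) := by
              rw [Finset.sum_mul]
          _ ≤ C / Real.log N * (1 / Real.log N) :=
              mul_le_mul_of_nonneg_right (h N hN) (by positivity)
          _ = _ := by ring
      have h2 := ih (9 * N) P (by omega) (by omega)
      have hlog9 : Real.log ((9 * N : ℕ) : ℝ) = Real.log 9 + Real.log N := by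
        push_cast
        rw [Real.log_mul (by norm_num) (by linarith)]
      rw [hlog9] at h2
      have hLN : Real.log 2 ≤ Real.log N := Real.log_le_log (by norm_num) hN2
      calc ∑ p ∈ prr N P, 1 / ((p : ℝ) * Real.log p)
          ≤ ∑ p ∈ prr N (9 * N) ∪ prr (9 * N) P, 1 / ((p : ℝ) * Real.log p) :=
            Finset.sum_le_sum_of_subset_of_nonneg hsub fun p _ _ => hnn p
        _ ≤ ∑ p ∈ prr N (9 * N), 1 / ((p : ℝ) * Real.log p) +
              ∑ p ∈ prr (9 * N) P, 1 / ((p : ℝ) * Real.log p) :=
            by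
              have h6 := Finset.sum_union_inter (s₁ := prr N (9 * N)) (s₂ := prr (9 * N) P)
                (f := fun p : ℕ => 1 / ((p : ℝ) * Real.log p))
              have h7 : 0 ≤ ∑ p ∈ prr N (9 * N) ∩ prr (9 * N) P, 1 / ((p : ℝ) * Real.log p) :=
                Finset.sum_nonneg fun p _ => hnn p
              linarith
        _ ≤ C / Real.log N / Real.log N + C2 / (Real.log 9 + Real.log N) := add_le_add h1 h2
        _ ≤ C2 / Real.log N := by
            have e : C2 / Real.log N - C2 / (Real.log 9 + Real.log N) =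
                C2 * Real.log 9 / (Real.log N * (Real.log 9 + Real.log N)) := by
              field_simp
              ring
            have h3 : C / Real.log N / Real.log N ≤
                C2 * Real.log 9 / (Real.log N * (Real.log 9 + Real.log N)) := by
              rw [div_div, div_le_div_iff₀ (by positivity) (by positivity)]
              have h4 : C * (Real.log 9 + Real.log N) ≤ C2 * Real.log 9 * Real.log N := by
                rw [hC2]
                have e2 : C * (1 / Real.log 9 + 1 / Real.log 2) * Real.log 9 * Real.log N =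
                    C * (Real.log N + Real.log 9 * (Real.log N / Real.log 2)) := by
                  field_simp
                rw [e2]
                refine mul_le_mul_of_nonneg_left ?_ hC.le
                have h5 : 1 ≤ Real.log N / Real.log 2 := by
                  rw [le_div_iff₀ hl2]
                  linarith
                nlinarith
              calc C * (Real.log N * (Real.log 9 + Real.log N))
                  = (C * (Real.log 9 + Real.log N)) * Real.log N := by ring
                _ ≤ (C2 * Real.log 9 * Real.log N) * Real.log N :=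
                    mul_le_mul_of_nonneg_right h4 hlog.le
                _ = C2 * Real.log 9 * (Real.log N * Real.log N) := by ring
            linarith
  intro N P hN
  exact key (P - N) N P hN le_rfl

theorem rc_msq_gauss {b : ℝ} (hb : 0 < b) (u : ℝ) :
    Integrable (fun s : ℝ => Real.exp (-b * s ^ 2) * Real.cos (s * u)) ∧
    ∫ s : ℝ, Real.exp (-b * s ^ 2) * Real.cos (s * u) =
      √(Real.pi / b) * Real.exp (-u ^ 2 / (4 * b)) := by
  have hi : Integrable (fun s : ℝ => Real.exp (-b * s ^ 2)) := integrable_exp_neg_mul_sq hb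
  have hic : Integrable (fun s : ℝ => Real.exp (-b * s ^ 2) * Real.cos (s * u)) := by
    refine hi.mul_bdd (c := 1) ?_ ?_
    · exact (Real.continuous_cos.comp (continuous_id.mul continuous_const)).aestronglyMeasurable
    · exact ae_of_all _ fun s => by
        rw [Real.norm_eq_abs]
        exact Real.abs_cos_le_one _
  refine ⟨hic, ?_⟩
  have hbC : 0 < (b : ℂ).re := by simpa using hb
  have h := fourierIntegral_gaussian hbC (u : ℂ)
  have hre : ∀ s : ℝ, (cexp (I * u * s) * cexp (-(b : ℂ) * s ^ 2)).re =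
      Real.exp (-b * s ^ 2) * Real.cos (s * u) := by
    intro s
    have e1 : I * (u : ℂ) * s = ((s * u : ℝ) : ℂ) * I := by
      push_cast
      ring
    have e2 : -(b : ℂ) * s ^ 2 = ((-b * s ^ 2 : ℝ) : ℂ) := by
      push_cast
      ring
    rw [e1, e2, ← Complex.ofReal_exp, Complex.re_mul_ofReal, Complex.exp_ofReal_mul_I_re,
      mul_comm]
  have hint : Integrable (fun s : ℝ => cexp (I * u * s) * cexp (-(b : ℂ) * s ^ 2)) := by
    have : Integrable (fun s : ℝ => ((Real.exp (-b * s ^ 2) : ℝ) : ℂ)) := hi.ofReal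
    refine (Integrable.bdd_mul (f := fun s : ℝ => cexp (I * u * s)) (c := 1) this ?_ ?_).congr ?_
    · exact (by fun_prop : Continuous fun s : ℝ => cexp (I * u * s)).aestronglyMeasurable
    · exact ae_of_all _ fun s => by
        rw [Complex.norm_exp]
        simp
    · exact ae_of_all _ fun s => by
        simp only [Complex.ofReal_exp]
        push_cast
        rfl
  have h2 := congrArg Complex.re h
  rw [← RCLike.re_eq_complex_re, ← integral_re hint] at h2
  simp only [RCLike.re_eq_complex_re, hre] at h2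
  rw [h2]
  have e3 : ((Real.pi : ℂ) / b) ^ (1 / 2 : ℂ) = ((√(Real.pi / b) : ℝ) : ℂ) := by
    rw [Real.sqrt_eq_rpow, Complex.ofReal_cpow (by positivity)]
    push_cast
    rfl
  have e4 : cexp (-(u : ℂ) ^ 2 / (4 * b)) = ((Real.exp (-u ^ 2 / (4 * b)) : ℝ) : ℂ) := by
    push_cast
    rfl
  rw [e3, e4, ← Complex.ofReal_mul, Complex.ofReal_re]

theorem rc_msq_kernel {T : ℝ} (hT : 0 < T) (u : ℝ) :
    √(Real.pi / (1 / T ^ 2)) * Real.exp (-u ^ 2 / (4 * (1 / T ^ 2))) ≤
      √(Real.pi / (1 / T ^ 2)) * Real.exp (1 / T ^ 2) * Real.exp (-|u|) := by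
  rw [mul_assoc, ← Real.exp_add]
  refine mul_le_mul_of_nonneg_left ?_ (Real.sqrt_nonneg _)
  rw [Real.exp_le_exp]
  have e : -u ^ 2 / (4 * (1 / T ^ 2)) = -(|u| * T / 2) ^ 2 := by
    rw [div_pow, mul_pow, sq_abs]
    field_simp
    ring
  rw [e]
  have h : 0 ≤ (|u| * T / 2 - 1 / T) ^ 2 := sq_nonneg _
  have e2 : (|u| * T / 2 - 1 / T) ^ 2 = (|u| * T / 2) ^ 2 - |u| + 1 / T ^ 2 := by
    field_simp
    ring
  rw [e2] at h
  linarith

/-- the pair kernel -/
theorem rc_msq_pair {p q : ℕ} (hp : 1 ≤ p) (hq : 1 ≤ q) :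
    1 / ((p : ℝ) * q) * (Real.exp (-|Real.log p - Real.log q|) +
      Real.exp (-|Real.log p + Real.log q|)) ≤
      2 * ((if p ≤ q then 1 / (q : ℝ) ^ 2 else 0) + (if q ≤ p then 1 / (p : ℝ) ^ 2 else 0)) := by
  have hp0 : (0 : ℝ) < p := by exact_mod_cast hp
  have hq0 : (0 : ℝ) < q := by exact_mod_cast hq
  have hlp : 0 ≤ Real.log p := Real.log_natCast_nonneg p
  have hlq : 0 ≤ Real.log q := Real.log_natCast_nonneg q
  have h1 : Real.exp (-|Real.log p + Real.log q|) ≤ Real.exp (-|Real.log p - Real.log q|) := by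
    rw [Real.exp_le_exp, neg_le_neg_iff, abs_of_nonneg (add_nonneg hlp hlq), abs_le]
    constructor <;> linarith
  have h2 : 1 / ((p : ℝ) * q) * Real.exp (-|Real.log p - Real.log q|) ≤
      (if p ≤ q then 1 / (q : ℝ) ^ 2 else 0) + (if q ≤ p then 1 / (p : ℝ) ^ 2 else 0) := by
    rcases le_total p q with h | h
    · have hR : Real.log p ≤ Real.log q := Real.log_le_log hp0 (by exact_mod_cast h)
      have e : Real.exp (-|Real.log p - Real.log q|) = (p : ℝ) / q := by
        rw [abs_of_nonpos (by linarith), neg_neg, Real.exp_sub, Real.exp_log hp0,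
          Real.exp_log hq0]
      rw [e, if_pos h]
      have e2 : 1 / ((p : ℝ) * q) * (p / q) = 1 / (q : ℝ) ^ 2 := by
        field_simp
      rw [e2]
      have : (0 : ℝ) ≤ if q ≤ p then 1 / (p : ℝ) ^ 2 else 0 := by split_ifs <;> positivity
      linarith
    · have hR : Real.log q ≤ Real.log p := Real.log_le_log hq0 (by exact_mod_cast h)
      have e : Real.exp (-|Real.log p - Real.log q|) = (q : ℝ) / p := by
        rw [abs_of_nonneg (by linarith), neg_sub, Real.exp_sub, Real.exp_log hp0,
          Real.exp_log hq0]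
      rw [e, if_pos h]
      have e2 : 1 / ((p : ℝ) * q) * (q / p) = 1 / (p : ℝ) ^ 2 := by
        field_simp
      rw [e2]
      have : (0 : ℝ) ≤ if p ≤ q then 1 / (q : ℝ) ^ 2 else 0 := by split_ifs <;> positivity
      linarith
  have h3 : 0 ≤ 1 / ((p : ℝ) * q) := by positivity
  have h4 := mul_le_mul_of_nonneg_left h1 h3
  linarith

theorem msq_pr (T : ℝ) (hT : 0 < T) : ∃ C : ℝ, 0 < C ∧ ∀ P0 P : ℕ, 2 ≤ P0 →
    ∫ s in (-T)..T, (∑ p ∈ prr P0 P, Real.cos (s * Real.log p) / p) ^ 2 ≤
      C / Real.log P0 := by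
  obtain ⟨C₁, hC₁, hpi⟩ := rc_msq_pi
  obtain ⟨C₂, hC₂, htail⟩ := rc_msq_tail
  set b : ℝ := 1 / T ^ 2 with hb
  have hb0 : 0 < b := by positivity
  set M : ℝ := √(Real.pi / b) * Real.exp (1 / T ^ 2) with hM
  have hM0 : 0 < M := by positivity
  refine ⟨Real.exp 1 * (M * (2 * (C₁ * C₂))), by positivity, fun P0 P hP0 => ?_⟩
  set A := prr P0 P with hA
  have hAmem : ∀ p ∈ A, P0 < p ∧ p.Prime := by
    intro p hp
    rw [hA] at hp
    unfold prr pr at hp
    rw [Finset.mem_filter, Finset.mem_filter] at hp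
    exact ⟨hp.2, hp.1.2⟩
  set F : ℝ → ℝ := fun s => ∑ p ∈ A, Real.cos (s * Real.log p) / p with hF
  have hFc : Continuous F := by
    simp only [hF]
    fun_prop
  -- expansion of the square
  have hsq : ∀ s, Real.exp (-b * s ^ 2) * F s ^ 2 = ∑ p ∈ A, ∑ q ∈ A, 1 / (2 * ((p : ℝ) * q)) *
      (Real.exp (-b * s ^ 2) * Real.cos (s * (Real.log p - Real.log q)) +
        Real.exp (-b * s ^ 2) * Real.cos (s * (Real.log p + Real.log q))) := by
    intro s
    simp only [hF]
    rw [pow_two (∑ p ∈ A, Real.cos (s * Real.log p) / p), Finset.sum_mul_sum, Finset.mul_sum]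
    refine Finset.sum_congr rfl fun p hp => ?_
    rw [Finset.mul_sum]
    refine Finset.sum_congr rfl fun q hq => ?_
    have ea : s * (Real.log p - Real.log q) = s * Real.log p - s * Real.log q := by ring
    have eb : s * (Real.log p + Real.log q) = s * Real.log p + s * Real.log q := by ring
    rw [ea, eb, Real.cos_sub, Real.cos_add]
    have hp0 : (p : ℝ) ≠ 0 := by exact_mod_cast (hAmem p hp).2.ne_zero
    have hq0 : (q : ℝ) ≠ 0 := by exact_mod_cast (hAmem q hq).2.ne_zero
    field_simp
    ring
  have hint1 : ∀ p ∈ A, ∀ q ∈ A, Integrable (fun s : ℝ => 1 / (2 * ((p : ℝ) * q)) *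
      (Real.exp (-b * s ^ 2) * Real.cos (s * (Real.log p - Real.log q)) +
        Real.exp (-b * s ^ 2) * Real.cos (s * (Real.log p + Real.log q)))) := fun p _ q _ =>
    ((rc_msq_gauss hb0 _).1.add (rc_msq_gauss hb0 _).1).const_mul _
  have hfun : (fun s => Real.exp (-b * s ^ 2) * F s ^ 2) = fun s => ∑ p ∈ A, ∑ q ∈ A,
      1 / (2 * ((p : ℝ) * q)) *
      (Real.exp (-b * s ^ 2) * Real.cos (s * (Real.log p - Real.log q)) +
        Real.exp (-b * s ^ 2) * Real.cos (s * (Real.log p + Real.log q))) := funext hsq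
  have hint : Integrable (fun s => Real.exp (-b * s ^ 2) * F s ^ 2) := by
    rw [hfun]
    exact integrable_finsetSum _ fun p hp => integrable_finsetSum _ fun q hq => hint1 p hp q hq
  have hval : ∫ s, Real.exp (-b * s ^ 2) * F s ^ 2 ≤ M * (2 * (C₁ * C₂)) / Real.log P0 := by
    rw [hfun, integral_finsetSum _ fun p hp => integrable_finsetSum _ fun q hq => hint1 p hp q hq]
    have h1 : ∀ p ∈ A, ∫ s : ℝ, ∑ q ∈ A, 1 / (2 * ((p : ℝ) * q)) *
        (Real.exp (-b * s ^ 2) * Real.cos (s * (Real.log p - Real.log q)) +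
          Real.exp (-b * s ^ 2) * Real.cos (s * (Real.log p + Real.log q))) ≤
        ∑ q ∈ A, M * ((if p ≤ q then 1 / (q : ℝ) ^ 2 else 0) +
          (if q ≤ p then 1 / (p : ℝ) ^ 2 else 0)) := by
      intro p hp
      rw [integral_finsetSum _ fun q hq => hint1 p hp q hq]
      refine Finset.sum_le_sum fun q hq => ?_
      rw [integral_const_mul, integral_add (rc_msq_gauss hb0 _).1 (rc_msq_gauss hb0 _).1,
        (rc_msq_gauss hb0 _).2, (rc_msq_gauss hb0 _).2]
      have h2 := rc_msq_kernel hT (Real.log p - Real.log q)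
      have h3 := rc_msq_kernel hT (Real.log p + Real.log q)
      rw [← hb, ← hM] at h2 h3
      have h4 := rc_msq_pair (hAmem p hp).2.one_lt.le (hAmem q hq).2.one_lt.le
      have hp0 : (0 : ℝ) < p := by exact_mod_cast (hAmem p hp).2.pos
      have hq0 : (0 : ℝ) < q := by exact_mod_cast (hAmem q hq).2.pos
      calc 1 / (2 * ((p : ℝ) * q)) *
            (√(Real.pi / b) * Real.exp (-(Real.log p - Real.log q) ^ 2 / (4 * b)) +
              √(Real.pi / b) * Real.exp (-(Real.log p + Real.log q) ^ 2 / (4 * b)))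
          ≤ 1 / (2 * ((p : ℝ) * q)) * (M * Real.exp (-|Real.log p - Real.log q|) +
              M * Real.exp (-|Real.log p + Real.log q|)) := by
            refine mul_le_mul_of_nonneg_left ?_ (by positivity)
            exact add_le_add h2 h3
        _ = M / 2 * (1 / ((p : ℝ) * q) * (Real.exp (-|Real.log p - Real.log q|) +
              Real.exp (-|Real.log p + Real.log q|))) := by
            field_simp
        _ ≤ M / 2 * (2 * ((if p ≤ q then 1 / (q : ℝ) ^ 2 else 0) +
              (if q ≤ p then 1 / (p : ℝ) ^ 2 else 0))) :=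
            mul_le_mul_of_nonneg_left h4 (by positivity)
        _ = _ := by ring
    refine (Finset.sum_le_sum h1).trans ?_
    have h5 : ∑ p ∈ A, ∑ q ∈ A, M * ((if p ≤ q then 1 / (q : ℝ) ^ 2 else 0) +
          (if q ≤ p then 1 / (p : ℝ) ^ 2 else 0)) =
        M * (2 * ∑ q ∈ A, ∑ p ∈ A, (if p ≤ q then 1 / (q : ℝ) ^ 2 else 0)) := by
      have e1 : ∑ p ∈ A, ∑ q ∈ A, (if p ≤ q then 1 / (q : ℝ) ^ 2 else 0) =
          ∑ q ∈ A, ∑ p ∈ A, (if p ≤ q then 1 / (q : ℝ) ^ 2 else 0) := Finset.sum_comm
      simp only [← Finset.mul_sum, Finset.sum_add_distrib]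
      rw [e1]
      ring
    rw [h5]
    have h6 : ∀ q ∈ A, ∑ p ∈ A, (if p ≤ q then 1 / (q : ℝ) ^ 2 else 0) ≤
        C₁ * (1 / ((q : ℝ) * Real.log q)) := by
      intro q hq
      have hq0 : (0 : ℝ) < q := by exact_mod_cast (hAmem q hq).2.pos
      have hq2 : (2 : ℝ) ≤ q := by exact_mod_cast (hAmem q hq).2.two_le
      have hlq : 0 < Real.log q := Real.log_pos (by linarith)
      rw [← Finset.sum_filter, Finset.sum_const, nsmul_eq_mul]
      have h7 : ((A.filter fun p => p ≤ q).card : ℝ) ≤ (pr q).card := by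
        have : (A.filter fun p => p ≤ q) ⊆ pr q := by
          intro p hp
          rw [Finset.mem_filter] at hp
          unfold pr
          rw [Finset.mem_filter, Finset.mem_range]
          exact ⟨by omega, (hAmem p hp.1).2⟩
        exact_mod_cast Finset.card_le_card this
      calc ((A.filter fun p => p ≤ q).card : ℝ) * (1 / (q : ℝ) ^ 2)
          ≤ (C₁ * q / Real.log q) * (1 / (q : ℝ) ^ 2) :=
            mul_le_mul_of_nonneg_right (h7.trans (hpi q (hAmem q hq).2.two_le)) (by positivity)
        _ = C₁ * (1 / ((q : ℝ) * Real.log q)) := by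
            field_simp
    have h8 : ∑ q ∈ A, ∑ p ∈ A, (if p ≤ q then 1 / (q : ℝ) ^ 2 else 0) ≤
        C₁ * (C₂ / Real.log P0) := by
      refine (Finset.sum_le_sum h6).trans ?_
      rw [← Finset.mul_sum]
      exact mul_le_mul_of_nonneg_left (htail P0 P hP0) hC₁.le
    calc M * (2 * ∑ q ∈ A, ∑ p ∈ A, (if p ≤ q then 1 / (q : ℝ) ^ 2 else 0))
        ≤ M * (2 * (C₁ * (C₂ / Real.log P0))) :=
          mul_le_mul_of_nonneg_left (mul_le_mul_of_nonneg_left h8 zero_le_two) hM0.le
      _ = M * (2 * (C₁ * C₂)) / Real.log P0 := by ring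
  -- comparison with the truncated integral
  have hTT : -T ≤ T := by linarith
  rw [intervalIntegral.integral_of_le hTT]
  have hle : ∫ s in Set.Ioc (-T) T, F s ^ 2 ≤
      ∫ s in Set.Ioc (-T) T, Real.exp 1 * (Real.exp (-b * s ^ 2) * F s ^ 2) := by
    refine setIntegral_mono_on ?_ (hint.const_mul _).integrableOn measurableSet_Ioc ?_
    · exact ((hFc.pow 2).continuousOn.integrableOn_compact isCompact_Icc).mono_set
        Set.Ioc_subset_Icc_self
    · intro s hs
      rw [← mul_assoc, ← Real.exp_add]
      have h1 : 1 ≤ Real.exp (1 + -b * s ^ 2) := by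
        apply Real.one_le_exp
        have h2 : s ^ 2 ≤ T ^ 2 := sq_le_sq' hs.1.le hs.2
        have h3 : b * s ^ 2 ≤ 1 := by
          rw [hb, one_div, inv_mul_le_iff₀ (by positivity)]
          linarith
        linarith
      have h4 : 0 ≤ F s ^ 2 := sq_nonneg _
      nlinarith
  refine hle.trans ?_
  have hle2 : ∫ s in Set.Ioc (-T) T, Real.exp 1 * (Real.exp (-b * s ^ 2) * F s ^ 2) ≤
      ∫ s, Real.exp 1 * (Real.exp (-b * s ^ 2) * F s ^ 2) :=
    setIntegral_le_integral (hint.const_mul _) (ae_of_all _ fun s => by positivity)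
  refine hle2.trans ?_
  rw [integral_const_mul]
  calc Real.exp 1 * ∫ s, Real.exp (-b * s ^ 2) * F s ^ 2
      ≤ Real.exp 1 * (M * (2 * (C₁ * C₂)) / Real.log P0) :=
        mul_le_mul_of_nonneg_left hval (Real.exp_pos _).le
    _ = _ := by ring

end Pool.Agent.RC

namespace Pool.Agent.RC

alias msq := msq_pr

end Pool.Agent.RC
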