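import Pool.Agent.Lib_helper39.RC.Defs
import Pool.Agent.Lib_helper39.RCA.LOC
import Pool.Agent.Lib_helper39.RCA.MSQ
import Pool.Agent.Lib_helper39.RCA.PSUM
/-!
# RC block VRN: the variance of the rough Euler product
-/

namespace Pool.Agent.RC

open Complex MeasureTheory Filter Topology

/-- `∑_{P0 < p ≤ P} cos(r log p)/p`. -/
noncomputable def rc_vrn_G (P0 P : ℕ) (r : ℝ) : ℝ :=
  ∑ p ∈ prr P0 P, Real.cos (r * Real.log p) / p

theorem rc_vrn_sing (T : ℝ) (hT : 0 < T) :
    IntervalIntegrable (fun r : ℝ => |r| ^ (-(1 / 2) : ℝ)) volume (-T) T := by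
  have h1 : IntervalIntegrable (fun r : ℝ => r ^ (-(1 / 2) : ℝ)) volume 0 T :=
    intervalIntegral.intervalIntegrable_rpow' (by norm_num)
  have h2 : IntervalIntegrable (fun r : ℝ => |r| ^ (-(1 / 2) : ℝ)) volume 0 T := by
    refine h1.congr ?_
    rw [Set.uIoc_of_le hT.le]
    intro x hx
    simp only
    rw [abs_of_pos hx.1]
  have h3 := h2.comp_sub_left 0
  simp only [zero_sub, sub_zero, abs_neg] at h3
  exact h3.symm.trans h2

theorem rc_vrn_sum (P0 P : ℕ) (h0 : 2 ≤ P0) (hP : P0 ≤ P) :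
    ∑ p ∈ prr P0 P, (p : ℝ) ^ (-(3 / 2 : ℝ)) ≤ 2 / √(P0 : ℝ) := by
  have h1 : prr P0 P ⊆ Finset.Ioc P0 P := by
    intro p hp
    unfold prr pr at hp
    rw [Finset.mem_filter, Finset.mem_filter, Finset.mem_range] at hp
    rw [Finset.mem_Ioc]
    omega
  have h2 : ∀ P, P0 ≤ P → ∑ n ∈ Finset.Ioc P0 P, (n : ℝ) ^ (-(3 / 2 : ℝ)) ≤
      2 / √(P0 : ℝ) - 2 / √(P : ℝ) := by
    intro P hP
    induction P, hP using Nat.le_induction with
    | base => simp
    | succ n hn ih =>
      rw [← Nat.succ_eq_add_one, Finset.sum_Ioc_succ_top hn]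
      have hn0 : (0 : ℝ) < n := by
        have : 0 < n := by omega
        exact_mod_cast this
      have key : ((n + 1 : ℕ) : ℝ) ^ (-(3 / 2 : ℝ)) ≤ 2 / √(n : ℝ) - 2 / √((n + 1 : ℕ) : ℝ) := by
        set x := √(n : ℝ) with hx
        set y := √((n + 1 : ℕ) : ℝ) with hy
        have hx0 : 0 < x := Real.sqrt_pos.mpr hn0
        have hy0 : 0 < y := Real.sqrt_pos.mpr (by positivity)
        have hx2 : x ^ 2 = n := Real.sq_sqrt hn0.le
        have hy2 : y ^ 2 = n + 1 := by
          rw [hy, Real.sq_sqrt (by positivity)]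
          push_cast
          ring
        have hxy : x ≤ y := Real.sqrt_le_sqrt (by push_cast; linarith)
        have e1 : ((n + 1 : ℕ) : ℝ) ^ (-(3 / 2 : ℝ)) = 1 / y ^ 3 := by
          have e0 : ((n + 1 : ℕ) : ℝ) = y ^ (2 : ℝ) := by
            rw [hy, Real.rpow_two, Real.sq_sqrt (by positivity)]
          rw [e0, ← Real.rpow_mul hy0.le]
          norm_num
        have e2 : 2 / x - 2 / y = 2 / (x * y * (x + y)) := by
          have : (y - x) * (y + x) = 1 := by nlinarith
          field_simp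
          nlinarith
        rw [e1, e2, div_le_div_iff₀ (by positivity) (by positivity)]
        have h5 : x * y * (x + y) ≤ y * y * (y + y) := by gcongr
        nlinarith
      have := add_le_add ih key
      simp only [Nat.succ_eq_add_one]
      linarith
  calc _ ≤ ∑ n ∈ Finset.Ioc P0 P, (n : ℝ) ^ (-(3 / 2 : ℝ)) :=
        Finset.sum_le_sum_of_subset_of_nonneg h1 fun n _ _ => by positivity
    _ ≤ 2 / √(P0 : ℝ) - 2 / √(P : ℝ) := h2 P hP
    _ ≤ _ := by
        have : 0 ≤ 2 / √(P : ℝ) := by positivity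
        linarith

theorem rc_vrn_split (P0 P : ℕ) (hP : P0 ≤ P) (F : ℕ → ℝ) :
    ∑ p ∈ pr P, F p = ∑ p ∈ pr P0, F p + ∑ p ∈ prr P0 P, F p := by
  unfold prr
  rw [← Finset.sum_filter_add_sum_filter_not (pr P) (fun p => P0 < p), add_comm]
  congr 1
  apply Finset.sum_congr _ fun _ _ => rfl
  unfold pr
  ext p
  simp only [Finset.mem_filter, Finset.mem_range]
  constructor
  · rintro ⟨⟨_, h2⟩, h3⟩
    exact ⟨by omega, h2⟩
  · rintro ⟨h1, h2⟩
    exact ⟨⟨by omega, h2⟩, by omega⟩

theorem rc_vrn_mp2_nonneg (p : ℕ) (hp : 1 ≤ p) (t s : ℝ) : 0 ≤ mp2 p t s := by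
  have h1 : (0 : ℝ) ≤ 1 - 1 / p := by
    rw [sub_nonneg, div_le_one (by positivity)]
    exact_mod_cast hp
  unfold mp2
  positivity

theorem rc_vrn_prod : ∃ C : ℝ, 0 < C ∧ ∀ P0 P : ℕ, 2 ≤ P0 → P0 ≤ P → ∀ t s : ℝ,
    ∏ p ∈ prr P0 P, mp2 p t s / (mp p t * mp p s) ≤
      Real.exp ((rc_vrn_G P0 P (t - s) + rc_vrn_G P0 P (t + s)) / 2 + C / √(P0 : ℝ)) := by
  obtain ⟨C, hC, H⟩ := loc
  refine ⟨C * 2, by positivity, fun P0 P h0 hP t s => ?_⟩
  have hp3 : ∀ p ∈ prr P0 P, 3 ≤ p := by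
    intro p hp
    unfold prr at hp
    rw [Finset.mem_filter] at hp
    omega
  have h1 : ∀ p ∈ prr P0 P, mp2 p t s / (mp p t * mp p s) ≤
      Real.exp (Real.cos (t * Real.log p) * Real.cos (s * Real.log p) / p +
        C * (p : ℝ) ^ (-(3 / 2 : ℝ))) := by
    intro p hp
    obtain ⟨_, h2, _, _⟩ := H p (hp3 p hp) t s
    have h3 := (abs_le.mp h2).2
    calc _ ≤ (Real.cos (t * Real.log p) * Real.cos (s * Real.log p) / p +
        C * (p : ℝ) ^ (-(3 / 2 : ℝ))) + 1 := by linarith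
      _ ≤ _ := Real.add_one_le_exp _
  calc _ ≤ ∏ p ∈ prr P0 P, Real.exp (Real.cos (t * Real.log p) * Real.cos (s * Real.log p) / p +
        C * (p : ℝ) ^ (-(3 / 2 : ℝ))) := by
        apply Finset.prod_le_prod _ h1
        intro p hp
        have h3 := hp3 p hp
        have h4 := (H p h3 t s).2.2.2
        have h5 := (H p h3 s s).2.2.2
        have h6 := rc_vrn_mp2_nonneg p (by omega) t s
        have : 0 < mp p t := by linarith
        have : 0 < mp p s := by linarith
        positivity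
    _ = Real.exp (∑ p ∈ prr P0 P, (Real.cos (t * Real.log p) * Real.cos (s * Real.log p) / p +
        C * (p : ℝ) ^ (-(3 / 2 : ℝ)))) := (Real.exp_sum _ _).symm
    _ ≤ _ := by
        apply Real.exp_le_exp.mpr
        rw [Finset.sum_add_distrib, ← Finset.mul_sum]
        have e1 : ∑ p ∈ prr P0 P, Real.cos (t * Real.log p) * Real.cos (s * Real.log p) / p =
            (rc_vrn_G P0 P (t - s) + rc_vrn_G P0 P (t + s)) / 2 := by
          unfold rc_vrn_G
          rw [← Finset.sum_add_distrib, Finset.sum_div]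
          refine Finset.sum_congr rfl fun p _ => ?_
          rw [sub_mul, add_mul, Real.cos_sub, Real.cos_add]
          ring
        rw [e1]
        have := mul_le_mul_of_nonneg_left (rc_vrn_sum P0 P h0 hP) hC.le
        calc _ ≤ (rc_vrn_G P0 P (t - s) + rc_vrn_G P0 P (t + s)) / 2 + C * (2 / √(P0 : ℝ)) := by
              linarith
          _ = _ := by ring

theorem rc_vrn_Gb (T : ℝ) : ∃ C : ℝ, 0 < C ∧ ∀ P0 P : ℕ, 2 ≤ P0 → P0 ≤ P → ∀ r : ℝ, |r| ≤ T →
    -C ≤ rc_vrn_G P0 P r ∧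
    (r ≠ 0 → rc_vrn_G P0 P r ≤ C + Real.log ((|r| + 1 / Real.log P0) / |r|)) := by
  obtain ⟨C, hC, H⟩ := psum T
  refine ⟨2 * C, by positivity, fun P0 P h0 hP r hr => ?_⟩
  have h1 := abs_le.mp (H P (h0.trans hP) r hr)
  have h2 := abs_le.mp (H P0 h0 r hr)
  have h3 := rc_vrn_split P0 P hP fun p => Real.cos (r * Real.log p) / p
  have hl0 : 0 < Real.log P0 := Real.log_pos (by exact_mod_cast (by omega : 1 < P0))
  have hl : 0 < Real.log P := Real.log_pos (by exact_mod_cast (by omega : 1 < P))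
  have hle : Real.log P0 ≤ Real.log P := Real.log_le_log (by positivity) (by exact_mod_cast hP)
  have h4 : Real.log (|r| + 1 / Real.log P) ≤ Real.log (|r| + 1 / Real.log P0) := by
    apply Real.log_le_log (by positivity)
    have := one_div_le_one_div_of_le hl0 hle
    linarith
  unfold rc_vrn_G
  constructor
  · linarith
  · intro hr0
    have hr1 : 0 < |r| := abs_pos.mpr hr0
    rw [Real.log_div (by positivity) (by positivity)]
    have h5 : Real.log |r| ≤ Real.log (|r| + 1 / Real.log P) := by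
      apply Real.log_le_log hr1
      have : 0 < 1 / Real.log P := by positivity
      linarith
    linarith

theorem rc_vrn_pt {a b : ℝ} (h0 : 0 < a ∨ b < 0) : ∃ C : ℝ, 0 < C ∧
    ∀ P0 P : ℕ, 2 ≤ P0 → P0 ≤ P → ∀ t ∈ Set.Icc a b, ∀ s ∈ Set.Icc a b, t ≠ s →
    ∀ η : ℝ, η = (√(Real.log P0))⁻¹ →
      ∏ p ∈ prr P0 P, mp2 p t s / (mp p t * mp p s) - 1 ≤
      C * (η + (rc_vrn_G P0 P (t - s) ^ 2 + rc_vrn_G P0 P (t + s) ^ 2) / η +
        η * |t - s| ^ (-(1 / 2) : ℝ)) := by
  obtain ⟨C1, hC1, H1⟩ := rc_vrn_prod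
  obtain ⟨C2, hC2, H2⟩ := rc_vrn_Gb (2 * (|a| + |b|))
  obtain ⟨d, hd, hd2⟩ : ∃ d : ℝ, 0 < d ∧ ∀ t ∈ Set.Icc a b, ∀ s ∈ Set.Icc a b, d ≤ |t + s| := by
    rcases h0 with h | h
    · refine ⟨a, h, fun t ht s hs => ?_⟩
      have := le_abs_self (t + s)
      linarith [ht.1, hs.1]
    · refine ⟨-b, by linarith, fun t ht s hs => ?_⟩
      have := neg_le_abs (t + s)
      linarith [ht.2, hs.2]
  have habs : ∀ t ∈ Set.Icc a b, |t| ≤ |a| + |b| := by
    intro t ht
    rw [abs_le]
    constructor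
    · linarith [ht.1, neg_abs_le a, abs_nonneg b]
    · linarith [ht.2, le_abs_self b, abs_nonneg a]
  set C5 : ℝ := C2 + 2 / d with hC5
  set C6 : ℝ := (C2 + 1 + C5) / 2 + C1 with hC6
  set C7 : ℝ := C2 / 2 + C5 / 2 + C1 with hC7
  refine ⟨Real.exp C6 * (1 + C1) + 2 * Real.exp C7, by positivity,
    fun P0 P hP0 hP t ht s hs hts η hη => ?_⟩
  have hl2 : 0 < Real.log 2 := Real.log_pos (by norm_num)
  have hlP : Real.log 2 ≤ Real.log P0 := Real.log_le_log (by norm_num) (by exact_mod_cast hP0)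
  have hl0 : 0 < Real.log P0 := hl2.trans_le hlP
  have hη0 : 0 < η := by
    rw [hη]
    positivity
  have hη2 : 1 / Real.log P0 = η ^ 2 := by
    rw [hη, inv_pow, Real.sq_sqrt hl0.le, one_div]
  have hηle : η ^ 2 ≤ 2 := by
    rw [← hη2, div_le_iff₀ hl0]
    have := Real.log_two_gt_d9
    linarith
  have hP0pos : (0 : ℝ) < P0 := by
    have : 0 < P0 := by omega
    exact_mod_cast this
  have hPη : 1 / √(P0 : ℝ) ≤ η := by
    rw [hη, ← one_div]
    apply one_div_le_one_div_of_le (Real.sqrt_pos.mpr hl0)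
    apply Real.sqrt_le_sqrt
    exact (Real.log_le_sub_one_of_pos hP0pos).trans (by linarith)
  have hP1 : 1 / √(P0 : ℝ) ≤ 1 := by
    rw [div_le_one (Real.sqrt_pos.mpr hP0pos), Real.one_le_sqrt]
    exact_mod_cast (by omega : 1 ≤ P0)
  have hC1P : C1 / √(P0 : ℝ) = C1 * (1 / √(P0 : ℝ)) := by ring
  set G1 := rc_vrn_G P0 P (t - s) with hG1
  set G2 := rc_vrn_G P0 P (t + s) with hG2
  have hr1 : |t - s| ≤ 2 * (|a| + |b|) := by
    have := abs_sub t s
    have := habs t ht
    have := habs s hs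
    have h5 : |t - s| ≤ |t| + |s| := abs_sub t s
    linarith
  have hr2 : |t + s| ≤ 2 * (|a| + |b|) := by
    have := habs t ht
    have := habs s hs
    have h5 : |t + s| ≤ |t| + |s| := abs_add_le t s
    linarith
  obtain ⟨hG1l, hG1u⟩ := H2 P0 P hP0 hP (t - s) hr1
  obtain ⟨hG2l, hG2u⟩ := H2 P0 P hP0 hP (t + s) hr2
  have hts0 : 0 < |t - s| := abs_pos.mpr (sub_ne_zero.mpr hts)
  have hts2 : 0 < |t + s| := hd.trans_le (hd2 t ht s hs)
  have hlogle : ∀ x : ℝ, 0 < x → Real.log ((x + 1 / Real.log P0) / x) ≤ η ^ 2 / x := by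
    intro x hx
    rw [hη2]
    refine (Real.log_le_sub_one_of_pos (by positivity)).trans (le_of_eq ?_)
    field_simp
    ring
  have hG2u' : G2 ≤ C5 := by
    have h5 := hG2u (abs_pos.mp hts2)
    have h6 := hlogle _ hts2
    have h7 : η ^ 2 / |t + s| ≤ 2 / d := by
      apply div_le_div₀ (by norm_num) hηle hd (hd2 t ht s hs)
    linarith
  have hprod := H1 P0 P hP0 hP t s
  rw [← hG1, ← hG2] at hprod
  set E : ℝ := (G1 + G2) / 2 + C1 / √(P0 : ℝ) with hE
  set z : ℝ := |t - s| ^ (-(1 / 2) : ℝ) with hz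
  have hz0 : 0 < z := Real.rpow_pos_of_pos hts0 _
  have hz2 : z ^ 2 = 1 / |t - s| := by
    rw [hz, ← Real.rpow_natCast, ← Real.rpow_mul hts0.le]
    norm_num
    rw [Real.rpow_neg_one]
  have hX : 0 ≤ η + (G1 ^ 2 + G2 ^ 2) / η := by positivity
  have hY : 0 ≤ η * z := by positivity
  have hCP : C1 / √(P0 : ℝ) ≤ C1 := by
    rw [hC1P]
    exact mul_le_of_le_one_right hC1.le hP1
  rcases le_or_gt (η ^ 2) |t - s| with hcase | hcase
  · -- Case A
    have hG1u' : G1 ≤ C2 + 1 := by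
      have h5 := hG1u (sub_ne_zero.mpr hts)
      have h6 := hlogle _ hts0
      have h7 : η ^ 2 / |t - s| ≤ 1 := (div_le_one hts0).mpr hcase
      linarith
    have hEle : E ≤ C6 := by
      rw [hE, hC6]
      linarith
    have h8 : Real.exp E - 1 ≤ |E| * Real.exp C6 := by
      have h9 : Real.exp E - 1 ≤ E * Real.exp E := by
        have h10 := Real.add_one_le_exp (-E)
        have h11 := mul_le_mul_of_nonneg_right h10 (Real.exp_pos E).le
        rw [← Real.exp_add, neg_add_cancel, Real.exp_zero] at h11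
        linarith
      calc Real.exp E - 1 ≤ E * Real.exp E := h9
        _ ≤ |E| * Real.exp E := mul_le_mul_of_nonneg_right (le_abs_self _) (Real.exp_pos _).le
        _ ≤ |E| * Real.exp C6 :=
          mul_le_mul_of_nonneg_left (Real.exp_le_exp.mpr hEle) (abs_nonneg _)
    have habsG : ∀ x : ℝ, |x| ≤ (η + x ^ 2 / η) / 2 := by
      intro x
      have h12 : 0 ≤ (η - |x|) ^ 2 / η := by positivity
      have h13 : (η - |x|) ^ 2 / η = η - 2 * |x| + x ^ 2 / η := by
        rw [sub_sq, sq_abs]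
        field_simp
      rw [h13] at h12
      linarith
    have h14 : |E| ≤ (1 + C1) * (η + (G1 ^ 2 + G2 ^ 2) / η) := by
      have h15 : |E| ≤ (|G1| + |G2|) / 2 + C1 / √(P0 : ℝ) := by
        rw [hE]
        have h16 : |(G1 + G2) / 2 + C1 / √(P0 : ℝ)| ≤ |(G1 + G2) / 2| + |C1 / √(P0 : ℝ)| :=
          abs_add_le _ _
        have h17 : |(G1 + G2) / 2| ≤ (|G1| + |G2|) / 2 := by
          rw [abs_div, abs_of_pos (by norm_num : (0 : ℝ) < 2)]
          apply div_le_div_of_nonneg_right (abs_add_le _ _) (by norm_num)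
        have h18 : |C1 / √(P0 : ℝ)| = C1 / √(P0 : ℝ) := abs_of_nonneg (by positivity)
        linarith
      have h19 := habsG G1
      have h20 := habsG G2
      have h21 : C1 / √(P0 : ℝ) ≤ C1 * η := by
        rw [hC1P]
        exact mul_le_mul_of_nonneg_left hPη hC1.le
      have h22 : (G1 ^ 2 + G2 ^ 2) / η = G1 ^ 2 / η + G2 ^ 2 / η := add_div _ _ _
      have h23 : 0 ≤ G1 ^ 2 / η := by positivity
      have h24 : 0 ≤ G2 ^ 2 / η := by positivity
      have h25 : 0 ≤ C1 * ((G1 ^ 2 + G2 ^ 2) / η) := by positivity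
      rw [h22] at h25 ⊢
      nlinarith
    calc _ ≤ Real.exp E - 1 := by linarith
      _ ≤ |E| * Real.exp C6 := h8
      _ ≤ (1 + C1) * (η + (G1 ^ 2 + G2 ^ 2) / η) * Real.exp C6 :=
        mul_le_mul_of_nonneg_right h14 (Real.exp_pos _).le
      _ ≤ _ := by
        have h26 : 0 ≤ 2 * Real.exp C7 * (η + (G1 ^ 2 + G2 ^ 2) / η + η * z) := by positivity
        have h27 : 0 ≤ Real.exp C6 * (1 + C1) * (η * z) := by positivity
        linarith
  · -- Case B
    have h5 := hG1u (sub_ne_zero.mpr hts)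
    have h6 : Real.log ((|t - s| + 1 / Real.log P0) / |t - s|) ≤
        Real.log (2 * η ^ 2 / |t - s|) := by
      apply Real.log_le_log (by positivity)
      rw [hη2]
      apply div_le_div_of_nonneg_right _ hts0.le
      linarith
    have hEle : E ≤ C7 + Real.log (2 * η ^ 2 / |t - s|) / 2 := by
      rw [hE, hC7]
      linarith
    have h7 : Real.exp (Real.log (2 * η ^ 2 / |t - s|) / 2) ≤ 2 * (η * z) := by
      have h8 : Real.exp (Real.log (2 * η ^ 2 / |t - s|) / 2) ^ 2 ≤ (2 * (η * z)) ^ 2 := by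
        rw [← Real.exp_nat_mul]
        have e1 : ((2 : ℕ) : ℝ) * (Real.log (2 * η ^ 2 / |t - s|) / 2) =
            Real.log (2 * η ^ 2 / |t - s|) := by
          push_cast
          ring
        rw [e1, Real.exp_log (by positivity)]
        have e2 : (2 * (η * z)) ^ 2 = 4 * η ^ 2 * z ^ 2 := by ring
        rw [e2, hz2, mul_one_div]
        apply div_le_div_of_nonneg_right _ hts0.le
        nlinarith [sq_nonneg η]
      exact le_of_sq_le_sq h8 (by positivity)
    calc _ ≤ Real.exp E := by linarith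
      _ ≤ Real.exp (C7 + Real.log (2 * η ^ 2 / |t - s|) / 2) := Real.exp_le_exp.mpr hEle
      _ = Real.exp C7 * Real.exp (Real.log (2 * η ^ 2 / |t - s|) / 2) := Real.exp_add _ _
      _ ≤ Real.exp C7 * (2 * (η * z)) := mul_le_mul_of_nonneg_left h7 (Real.exp_pos _).le
      _ ≤ _ := by
        have h26 : 0 ≤ 2 * Real.exp C7 * (η + (G1 ^ 2 + G2 ^ 2) / η) := by positivity
        have h27 : 0 ≤ Real.exp C6 * (1 + C1) * (η + (G1 ^ 2 + G2 ^ 2) / η + η * z) := by
          positivity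
        linarith

theorem rc_vrn_le {f g : ℝ → ℝ} (hg : Integrable g) (h0 : ∀ᵐ x, 0 ≤ g x)
    (h : ∀ᵐ x, f x ≤ g x) : ∫ x, f x ≤ ∫ x, g x := by
  by_cases hf : Integrable f
  · exact integral_mono_ae hf hg h
  · rw [integral_undef hf]
    exact integral_nonneg_of_ae h0

theorem rc_vrn_cont (P0 P : ℕ) : Continuous (rc_vrn_G P0 P) := by
  unfold rc_vrn_G
  fun_prop

theorem vrn_pr {a b : ℝ} (hab : a < b) (h0 : 0 < a ∨ b < 0) (w : ℝ → ℝ) (hw : Continuous w)
    (hw0 : ∀ t, 0 ≤ w t) (hs : ∀ t, t ∉ Set.Icc a b → w t = 0) (ε : ℝ) (hε : 0 < ε) :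
    ∃ P0 : ℕ, 2 ≤ P0 ∧ ∀ P ≥ P0, ∫ t : ℝ, ∫ s : ℝ,
      w t * w s * (∏ p ∈ prr P0 P, mp2 p t s / (mp p t * mp p s) - 1) ≤ ε := by
  obtain ⟨C1, hC1, H1⟩ := rc_vrn_pt h0
  set T : ℝ := 2 * (|a| + |b|) with hT
  have hTpos : 0 < T := by
    rcases h0 with h | h
    · have := abs_pos.mpr h.ne'
      have := abs_nonneg b
      positivity
    · have := abs_pos.mpr h.ne
      have := abs_nonneg a
      positivity
  obtain ⟨C2, hC2, H2⟩ := msq T hTpos
  obtain ⟨B, hB⟩ := (HasCompactSupport.intro isCompact_Icc hs).exists_bound_of_continuous hw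
  have hB0 : 0 ≤ B := (norm_nonneg _).trans (hB 0)
  have hwB : ∀ t, w t ≤ B := fun t => (le_abs_self _).trans (hB t)
  set J : ℝ := ∫ r in (-T)..T, |r| ^ (-(1 / 2) : ℝ) with hJ
  have hJ0 : 0 ≤ J := by
    rw [hJ]
    apply intervalIntegral.integral_nonneg (by linarith)
    intro r _
    positivity
  set M : ℝ := B ^ 2 * C1 * ((b - a) + 2 * C2 + J) with hM
  have hba : 0 < b - a := by linarith
  have hM0 : 0 ≤ M := by positivity
  -- choose `P0`
  have hlim : Tendsto (fun n : ℕ => (b - a) * (M * (√(Real.log n))⁻¹)) atTop (𝓝 0) := by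
    have h1 : Tendsto (fun n : ℕ => (√(Real.log n))⁻¹) atTop (𝓝 0) :=
      tendsto_inv_atTop_zero.comp (Real.tendsto_sqrt_atTop.comp
        (Real.tendsto_log_atTop.comp tendsto_natCast_atTop_atTop))
    have h2 := (h1.const_mul M).const_mul (b - a)
    simpa using h2
  obtain ⟨P0, hP0a, hP0⟩ := ((hlim.eventually (gt_mem_nhds hε)).and
    (eventually_ge_atTop 2)).exists
  refine ⟨P0, hP0, fun P hP => ?_⟩
  set η : ℝ := (√(Real.log P0))⁻¹ with hη
  have hl0 : 0 < Real.log P0 := Real.log_pos (by exact_mod_cast (by omega : 1 < P0))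
  have hη0 : 0 < η := by
    rw [hη]
    positivity
  have hη2 : 1 / Real.log P0 = η ^ 2 := by
    rw [hη, inv_pow, Real.sq_sqrt hl0.le, one_div]
  have hG := rc_vrn_cont P0 P
  have hmsq : ∫ r in (-T)..T, (rc_vrn_G P0 P r) ^ 2 ≤ C2 * η ^ 2 := by
    have h1 := H2 P0 P hP0
    rw [← hη2, mul_one_div]
    exact h1
  have hab2 : ∀ t ∈ Set.Icc a b, -T ≤ t - b ∧ t - a ≤ T ∧ -T ≤ t + a ∧ t + b ≤ T := by
    intro t ht
    have h1 := neg_abs_le a
    have h2 := le_abs_self a
    have h3 := neg_abs_le b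
    have h4 := le_abs_self b
    have h5 := abs_nonneg a
    have h6 := abs_nonneg b
    rw [hT]
    refine ⟨?_, ?_, ?_, ?_⟩ <;> linarith [ht.1, ht.2]
  set Q : ℝ → ℝ → ℝ := fun t s => B ^ 2 * C1 * (η + (rc_vrn_G P0 P (t - s) ^ 2 +
    rc_vrn_G P0 P (t + s) ^ 2) / η + η * |t - s| ^ (-(1 / 2) : ℝ)) with hQ
  have hQ0 : ∀ t s, 0 ≤ Q t s := by
    intro t s
    simp only [hQ]
    positivity
  -- the inner integral
  have hin : ∀ t ∈ Set.Icc a b, ∫ s : ℝ,
      w t * w s * (∏ p ∈ prr P0 P, mp2 p t s / (mp p t * mp p s) - 1) ≤ M * η := by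
    intro t ht
    obtain ⟨ht1, ht2, ht3, ht4⟩ := hab2 t ht
    have hi1 : IntervalIntegrable (fun s : ℝ => |t - s| ^ (-(1 / 2) : ℝ)) volume a b := by
      have h1 := (rc_vrn_sing T hTpos).comp_sub_left t
      refine h1.symm.mono_set ?_
      rw [Set.uIcc_of_le hab.le, Set.uIcc_of_le (by linarith)]
      apply Set.Icc_subset_Icc <;> linarith
    have hi2 : IntervalIntegrable (fun s : ℝ => rc_vrn_G P0 P (t - s) ^ 2) volume a b :=
      (by fun_prop : Continuous fun s : ℝ => rc_vrn_G P0 P (t - s) ^ 2).intervalIntegrable _ _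
    have hi3 : IntervalIntegrable (fun s : ℝ => rc_vrn_G P0 P (t + s) ^ 2) volume a b :=
      (by fun_prop : Continuous fun s : ℝ => rc_vrn_G P0 P (t + s) ^ 2).intervalIntegrable _ _
    have hi4 : IntervalIntegrable (fun s : ℝ => η + (rc_vrn_G P0 P (t - s) ^ 2 +
        rc_vrn_G P0 P (t + s) ^ 2) / η) volume a b :=
      intervalIntegrable_const.add ((hi2.add hi3).div_const η)
    have hi5 : IntervalIntegrable (fun s : ℝ => η * |t - s| ^ (-(1 / 2) : ℝ)) volume a b :=
      hi1.const_mul η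
    have hi : IntervalIntegrable (Q t) volume a b := (hi4.add hi5).const_mul (B ^ 2 * C1)
    have hiI : IntegrableOn (Q t) (Set.Ioc a b) :=
      (intervalIntegrable_iff_integrableOn_Ioc_of_le hab.le).mp hi
    have hle : ∫ s : ℝ, w t * w s * (∏ p ∈ prr P0 P, mp2 p t s / (mp p t * mp p s) - 1) ≤
        ∫ s : ℝ, (Set.Ioc a b).indicator (Q t) s := by
      apply rc_vrn_le
      · exact (integrable_indicator_iff measurableSet_Ioc).mpr hiI
      · exact Filter.Eventually.of_forall fun s => Set.indicator_nonneg (fun s _ => hQ0 t s) s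
      · have hne : ∀ᵐ s : ℝ, s ≠ t ∧ s ≠ a := by
          have h1 : ∀ᵐ s : ℝ, s ≠ t := Measure.ae_ne volume t
          have h2 : ∀ᵐ s : ℝ, s ≠ a := Measure.ae_ne volume a
          exact h1.and h2
        filter_upwards [hne] with s hsne
        by_cases hsI : s ∈ Set.Ioc a b
        · rw [Set.indicator_of_mem hsI]
          have h1 := H1 P0 P hP0 hP t ht s ⟨hsI.1.le, hsI.2⟩ (Ne.symm hsne.1) η hη
          set X := η + (rc_vrn_G P0 P (t - s) ^ 2 + rc_vrn_G P0 P (t + s) ^ 2) / η +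
            η * |t - s| ^ (-(1 / 2) : ℝ) with hX
          have hX0 : 0 ≤ X := by positivity
          have hww : 0 ≤ w t * w s := mul_nonneg (hw0 t) (hw0 s)
          calc _ ≤ w t * w s * (C1 * X) := mul_le_mul_of_nonneg_left h1 hww
            _ ≤ B * B * (C1 * X) := by
              apply mul_le_mul_of_nonneg_right _ (by positivity)
              exact mul_le_mul (hwB t) (hwB s) (hw0 s) hB0
            _ = Q t s := by
              simp only [hQ]
              ring
        · rw [Set.indicator_of_notMem hsI]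
          have : w s = 0 := by
            apply hs
            intro hsc
            exact hsI ⟨lt_of_le_of_ne hsc.1 (Ne.symm hsne.2), hsc.2⟩
          rw [this]
          simp
    refine hle.trans ?_
    rw [integral_indicator measurableSet_Ioc, ← intervalIntegral.integral_of_le hab.le]
    have e1 : ∫ s in a..b, Q t s = B ^ 2 * C1 * (η * (b - a) +
        ((∫ s in a..b, rc_vrn_G P0 P (t - s) ^ 2) + ∫ s in a..b, rc_vrn_G P0 P (t + s) ^ 2) / η +
          η * ∫ s in a..b, |t - s| ^ (-(1 / 2) : ℝ)) := by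
      simp only [hQ]
      rw [intervalIntegral.integral_const_mul, intervalIntegral.integral_add hi4 hi5,
        intervalIntegral.integral_add intervalIntegrable_const ((hi2.add hi3).div_const η),
        intervalIntegral.integral_const_mul, intervalIntegral.integral_div,
        intervalIntegral.integral_add hi2 hi3, intervalIntegral.integral_const, smul_eq_mul]
      ring
    rw [e1]
    have e2 : ∫ s in a..b, rc_vrn_G P0 P (t - s) ^ 2 ≤ C2 * η ^ 2 := by
      rw [intervalIntegral.integral_comp_sub_left (fun r => rc_vrn_G P0 P r ^ 2) t]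
      refine (intervalIntegral.integral_mono_interval ht1 (by linarith) ht2 ?_ ?_).trans hmsq
      · exact Filter.Eventually.of_forall fun r => sq_nonneg _
      · exact (by fun_prop : Continuous fun r : ℝ => rc_vrn_G P0 P r ^ 2).intervalIntegrable _ _
    have e3 : ∫ s in a..b, rc_vrn_G P0 P (t + s) ^ 2 ≤ C2 * η ^ 2 := by
      rw [intervalIntegral.integral_comp_add_left (fun r => rc_vrn_G P0 P r ^ 2) t]
      refine (intervalIntegral.integral_mono_interval ht3 (by linarith) ht4 ?_ ?_).trans hmsq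
      · exact Filter.Eventually.of_forall fun r => sq_nonneg _
      · exact (by fun_prop : Continuous fun r : ℝ => rc_vrn_G P0 P r ^ 2).intervalIntegrable _ _
    have e4 : ∫ s in a..b, |t - s| ^ (-(1 / 2) : ℝ) ≤ J := by
      rw [intervalIntegral.integral_comp_sub_left (fun r => |r| ^ (-(1 / 2) : ℝ)) t]
      refine intervalIntegral.integral_mono_interval ht1 (by linarith) ht2 ?_
        (rc_vrn_sing T hTpos)
      exact Filter.Eventually.of_forall fun r => by positivity
    calc _ ≤ B ^ 2 * C1 * (η * (b - a) + (C2 * η ^ 2 + C2 * η ^ 2) / η + η * J) := by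
          gcongr
      _ = M * η := by
          rw [hM]
          field_simp
          ring
  -- the outer integral
  have hout : ∫ t : ℝ, ∫ s : ℝ,
      w t * w s * (∏ p ∈ prr P0 P, mp2 p t s / (mp p t * mp p s) - 1) ≤
        ∫ t : ℝ, (Set.Icc a b).indicator (fun _ => M * η) t := by
    apply rc_vrn_le
    · rw [integrable_indicator_iff measurableSet_Icc]
      exact integrableOn_const (by simp)
    · exact Filter.Eventually.of_forall fun t =>
        Set.indicator_nonneg (fun _ _ => by positivity) t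
    · refine Filter.Eventually.of_forall fun t => ?_
      by_cases ht : t ∈ Set.Icc a b
      · rw [Set.indicator_of_mem ht]
        exact hin t ht
      · rw [Set.indicator_of_notMem ht]
        simp [hs t ht]
  refine hout.trans ?_
  rw [integral_indicator measurableSet_Icc, integral_Icc_eq_integral_Ioc,
    ← intervalIntegral.integral_of_le hab.le, intervalIntegral.integral_const, smul_eq_mul]
  exact hP0a.le

end Pool.Agent.RC

namespace Pool.Agent.RC

alias vrn := vrn_pr

end Pool.Agent.RC
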