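import Pool.Agent.Lib_helper39.RC.Defs
import Pool.Agent.Lib_helper39.RCA.IND
import Pool.Agent.Lib_helper39.RCA.LB
import Pool.Agent.Lib_helper39.RCA.LOC
import Pool.Agent.Lib_helper39.RCA.VRN
set_option autoImplicit false

namespace Pool.Agent.RC

open Complex MeasureTheory Filter Topology

theorem rc_chaos_rv_le (j : Fin 4) (c n : ℕ) : ‖((rv j c n : ℤ) : ℂ)‖ ≤ 1 := by
  rw [Complex.norm_intCast]
  unfold rv
  push_cast
  rw [abs_mul]
  have h1 : |((jacobiSym (n : ℤ) c : ℤ) : ℝ)| ≤ 1 := by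
    rcases jacobiSym.trichotomy (n : ℤ) c with h | h | h <;> rw [h] <;> simp
  have h2 : |((psi j n : ℤ) : ℝ)| ≤ 1 := by
    unfold psi
    fin_cases j
    · simp
    · rcases ZMod.isQuadratic_χ₄ (n : ZMod 4) with h | h | h <;> simp [h]
    · rcases ZMod.isQuadratic_χ₈ (n : ZMod 8) with h | h | h <;> simp [h]
    · rcases ZMod.isQuadratic_χ₈' (n : ZMod 8) with h | h | h <;> simp [h]
  calc _ ≤ (1 : ℝ) * 1 := mul_le_mul h2 h1 (abs_nonneg _) zero_le_one
    _ = 1 := one_mul 1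

theorem rc_chaos_norm_zz (p : ℕ) (hp : 0 < p) (t : ℝ) : ‖zz p t‖ = (p : ℝ) ^ (-(1 / 2 : ℝ)) := by
  unfold zz
  rw [Complex.norm_natCast_cpow_of_pos hp]
  congr 1
  simp

theorem rc_chaos_zz_lt (p : ℕ) (hp : 2 ≤ p) (t : ℝ) : ‖zz p t‖ < 1 := by
  rw [rc_chaos_norm_zz p (by omega)]
  exact Real.rpow_lt_one_of_one_lt_of_neg (by exact_mod_cast (by omega : 1 < p)) (by norm_num)

theorem rc_chaos_cont_zz (p : ℕ) (hp : 2 ≤ p) : Continuous fun t : ℝ => zz p t := by
  unfold zz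
  refine Continuous.const_cpow ?_ (Or.inl ?_)
  · exact (continuous_const.add (continuous_ofReal.mul continuous_const)).neg
  · exact_mod_cast (by omega : p ≠ 0)

theorem rc_chaos_ne (p : ℕ) (hp : 2 ≤ p) (e : ℂ) (he : ‖e‖ ≤ 1) (t : ℝ) : 1 - e * zz p t ≠ 0 := by
  intro h
  have h1 : e * zz p t = 1 := (sub_eq_zero.1 h).symm
  have h2 : ‖e * zz p t‖ = 1 := by rw [h1, norm_one]
  rw [norm_mul] at h2
  have h3 := rc_chaos_zz_lt p hp t
  have h4 := norm_nonneg (zz p t)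
  have : ‖e‖ * ‖zz p t‖ ≤ 1 * ‖zz p t‖ := mul_le_mul_of_nonneg_right he h4
  linarith

theorem rc_chaos_cont_fac (p : ℕ) (hp : 2 ≤ p) (e : ℂ) (he : ‖e‖ ≤ 1) :
    Continuous fun t : ℝ => (1 - e * zz p t)⁻¹ :=
  (continuous_const.sub (continuous_const.mul (rc_chaos_cont_zz p hp))).inv₀
    fun t => rc_chaos_ne p hp e he t

theorem rc_chaos_cont_fac' (p : ℕ) (hp : 2 ≤ p) (e : ℂ) (he : ‖e‖ ≤ 1) :
    Continuous fun t : ℝ => ‖1 - e * zz p t‖⁻¹ := by
  have := (rc_chaos_cont_fac p hp e he).norm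
  simpa only [norm_inv] using this

theorem rc_chaos_cont_mp (p : ℕ) (hp : 2 ≤ p) : Continuous fun t : ℝ => mp p t := by
  unfold mp
  have h1 := rc_chaos_cont_fac' p hp 1 (by simp)
  have h2 := rc_chaos_cont_fac' p hp (-1) (by simp)
  simp only [one_mul, neg_mul, sub_neg_eq_add] at h1 h2
  exact continuous_const.add (continuous_const.mul ((h1.add h2).div_const 2))

theorem rc_chaos_cont_EP (j : Fin 4) (P c : ℕ) : Continuous fun t : ℝ => EP j P c t := by
  unfold EP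
  refine continuous_finsetProd _ fun p hp => ?_
  have hp2 : 2 ≤ p := by
    unfold pr at hp
    exact (Finset.mem_filter.1 hp).2.two_le
  exact rc_chaos_cont_fac p hp2 _ (rc_chaos_rv_le j c p)

/-- `B_c` -/
noncomputable def rcB (j : Fin 4) (P0 P c : ℕ) (t : ℝ) : ℝ :=
  ∏ p ∈ prr P0 P, ‖1 - ((rv j c p : ℤ) : ℂ) * zz p t‖⁻¹

/-- `M` -/
noncomputable def rcM (P0 P : ℕ) (t : ℝ) : ℝ := ∏ p ∈ prr P0 P, mp p t

theorem rc_chaos_mem {P0 P p : ℕ} (hP0 : 2 ≤ P0) (hp : p ∈ prr P0 P) : p.Prime ∧ 3 ≤ p := by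
  unfold prr pr at hp
  rw [Finset.mem_filter, Finset.mem_filter] at hp
  exact ⟨hp.1.2, by omega⟩

theorem rc_chaos_cont_B (j : Fin 4) (P0 P c : ℕ) (hP0 : 2 ≤ P0) :
    Continuous fun t : ℝ => rcB j P0 P c t := by
  unfold rcB
  refine continuous_finsetProd _ fun p hp => ?_
  have := (rc_chaos_mem hP0 hp).2
  exact rc_chaos_cont_fac' p (by omega) _ (rc_chaos_rv_le j c p)

theorem rc_chaos_cont_M (P0 P : ℕ) (hP0 : 2 ≤ P0) : Continuous fun t : ℝ => rcM P0 P t := by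
  unfold rcM
  refine continuous_finsetProd _ fun p hp => ?_
  have := (rc_chaos_mem hP0 hp).2
  exact rc_chaos_cont_mp p (by omega)

theorem rc_chaos_mp_pos (p : ℕ) (hp : 3 ≤ p) (t : ℝ) : 0 < mp p t := by
  obtain ⟨C, -, h⟩ := loc
  have := (h p hp t t).2.2.2
  linarith

theorem rc_chaos_M_pos (P0 P : ℕ) (hP0 : 2 ≤ P0) (t : ℝ) : 0 < rcM P0 P t :=
  Finset.prod_pos fun p hp => rc_chaos_mp_pos p (rc_chaos_mem hP0 hp).2 t

theorem rc_chaos_B_nonneg (j : Fin 4) (P0 P c : ℕ) (t : ℝ) : 0 ≤ rcB j P0 P c t :=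
  Finset.prod_nonneg fun p _ => by positivity

theorem rc_chaos_EP_ge (j : Fin 4) (P0 P c : ℕ) (t : ℝ) :
    (1 / 2 : ℝ) ^ (P0 + 1) * rcB j P0 P c t ≤ ‖EP j P c t‖ := by
  have h1 : ‖EP j P c t‖ = ∏ p ∈ pr P, ‖1 - ((rv j c p : ℤ) : ℂ) * zz p t‖⁻¹ := by
    unfold EP
    rw [norm_prod]
    refine Finset.prod_congr rfl fun p _ => ?_
    rw [norm_inv]
    rfl
  rw [h1, ← Finset.prod_filter_mul_prod_filter_not (pr P) (fun p => P0 < p), mul_comm]
  unfold rcB prr
  refine mul_le_mul_of_nonneg_left ?_ (Finset.prod_nonneg fun p _ => by positivity)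
  have h2 : ∏ p ∈ (pr P).filter (fun p => ¬ P0 < p), (1 / 2 : ℝ) ≤
      ∏ p ∈ (pr P).filter (fun p => ¬ P0 < p), ‖1 - ((rv j c p : ℤ) : ℂ) * zz p t‖⁻¹ := by
    refine Finset.prod_le_prod (fun _ _ => by norm_num) fun p hp => ?_
    have hp2 : 2 ≤ p := by
      unfold pr at hp
      rw [Finset.mem_filter, Finset.mem_filter] at hp
      exact hp.1.2.two_le
    have h3 : ‖1 - ((rv j c p : ℤ) : ℂ) * zz p t‖ ≤ 2 := by
      refine le_trans (norm_sub_le _ _) ?_
      rw [norm_one, norm_mul]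
      have h4 := rc_chaos_rv_le j c p
      have h5 := (rc_chaos_zz_lt p hp2 t).le
      have : ‖((rv j c p : ℤ) : ℂ)‖ * ‖zz p t‖ ≤ 1 * 1 :=
        mul_le_mul h4 h5 (norm_nonneg _) zero_le_one
      linarith
    have h6 : 0 < ‖1 - ((rv j c p : ℤ) : ℂ) * zz p t‖ :=
      norm_pos_iff.2 (rc_chaos_ne p hp2 _ (rc_chaos_rv_le j c p) t)
    rw [one_div]
    exact inv_anti₀ h6 h3
  refine le_trans ?_ h2
  rw [Finset.prod_const]
  refine pow_le_pow_of_le_one (by norm_num) (by norm_num) ?_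
  calc ((pr P).filter (fun p => ¬ P0 < p)).card ≤ (Finset.range (P0 + 1)).card := by
        refine Finset.card_le_card fun p hp => ?_
        rw [Finset.mem_filter] at hp
        rw [Finset.mem_range]
        omega
    _ = P0 + 1 := Finset.card_range _

/-- the second moment -/
theorem rc_chaos_moment (j : Fin 4) (P0 P : ℕ) (hP0 : 2 ≤ P0) (t s : ℝ) :
    ∑ c ∈ odds (RR P), (rcB j P0 P c t / rcM P0 P t - 1) * (rcB j P0 P c s / rcM P0 P s - 1) =
      (RR P : ℝ) / 2 * (∏ p ∈ prr P0 P, mp2 p t s / (mp p t * mp p s) - 1) := by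
  have hR0 : 0 < RR P := by
    unfold RR
    refine Nat.mul_pos (by norm_num) (Finset.prod_pos fun p hp => ?_)
    unfold pr at hp
    exact (Finset.mem_filter.1 hp).2.pos
  have hdvd : 8 * ∏ p ∈ prr P0 P, p ∣ RR P := by
    unfold RR
    refine Nat.mul_dvd_mul_left 8 ?_
    exact Finset.prod_dvd_prod_of_subset _ _ _ (Finset.filter_subset _ _)
  have hS : ∀ p ∈ prr P0 P, p.Prime ∧ p ≠ 2 := fun p hp =>
    ⟨(rc_chaos_mem hP0 hp).1, by have := (rc_chaos_mem hP0 hp).2; omega⟩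
  have m1 : ∀ t : ℝ, ∑ c ∈ odds (RR P), rcB j P0 P c t = (RR P : ℝ) / 2 * rcM P0 P t := by
    intro t
    have h := ind (prr P0 P) hS (RR P) hR0 hdvd j
      (fun p e => ‖1 - ((e : ℤ) : ℂ) * zz p t‖⁻¹)
    unfold rcB rcM
    rw [h]
    congr 1
    refine Finset.prod_congr rfl fun p _ => ?_
    unfold mp
    simp
  have m2 : ∑ c ∈ odds (RR P), rcB j P0 P c t * rcB j P0 P c s =
      (RR P : ℝ) / 2 * ∏ p ∈ prr P0 P, mp2 p t s := by
    have h := ind (prr P0 P) hS (RR P) hR0 hdvd j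
      (fun p e => ‖1 - ((e : ℤ) : ℂ) * zz p t‖⁻¹ * ‖1 - ((e : ℤ) : ℂ) * zz p s‖⁻¹)
    unfold rcB
    simp_rw [← Finset.prod_mul_distrib]
    rw [h]
    congr 1
    refine Finset.prod_congr rfl fun p _ => ?_
    unfold mp2
    simp
  have m0 : ∑ c ∈ odds (RR P), (1 : ℝ) = (RR P : ℝ) / 2 := by
    have h := ind ∅ (by simp) (RR P) hR0 (by
      rw [Finset.prod_empty, mul_one]
      exact Dvd.intro _ rfl) j (fun _ _ => 1)
    simpa using h
  have hMt := (rc_chaos_M_pos P0 P hP0 t).ne'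
  have hMs := (rc_chaos_M_pos P0 P hP0 s).ne'
  have h1 : ∀ c, (rcB j P0 P c t / rcM P0 P t - 1) * (rcB j P0 P c s / rcM P0 P s - 1) =
      (1 / (rcM P0 P t * rcM P0 P s)) * (rcB j P0 P c t * rcB j P0 P c s) -
        (1 / rcM P0 P t) * rcB j P0 P c t - (1 / rcM P0 P s) * rcB j P0 P c s + 1 := by
    intro c
    field_simp
    ring
  rw [Finset.sum_congr rfl fun c _ => h1 c, Finset.sum_add_distrib, Finset.sum_sub_distrib,
    Finset.sum_sub_distrib, ← Finset.mul_sum, ← Finset.mul_sum, ← Finset.mul_sum, m0, m1, m1, m2,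
    Finset.prod_div_distrib, Finset.prod_mul_distrib]
  change _ = (RR P : ℝ) / 2 * ((∏ p ∈ prr P0 P, mp2 p t s) / (rcM P0 P t * rcM P0 P s) - 1)
  field_simp
  ring

theorem chaos_pr {a b : ℝ} (hab : a < b) (h0 : 0 < a ∨ b < 0) (w : ℝ → ℝ) (hw : Continuous w)
    (hw0 : ∀ t, 0 ≤ w t) (hs : ∀ t, t ∉ Set.Icc a b → w t = 0) (hpos : 0 < ∫ t : ℝ, w t)
    (A ε : ℝ) (hε : 0 < ε) : ∃ P1 : ℕ, ∀ P ≥ P1, ∀ j : Fin 4,
      (((odds (RR P)).filter fun c => ∫ t : ℝ, w t * ‖EP j P c t‖ ≤ A).card : ℝ) ≤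
        ε * RR P := by
  set W := ∫ t : ℝ, w t with hW
  obtain ⟨P0, hP0, hvrn⟩ := vrn hab h0 w hw hw0 hs (ε * W ^ 2 / 2) (by positivity)
  set c0 : ℝ := (1 / 2 : ℝ) ^ (P0 + 1) with hc0
  have hc0pos : 0 < c0 := by positivity
  set A' : ℝ := 2 * (|A| + 1) / (c0 * W) with hA'
  have hA'pos : 0 < A' := by positivity
  obtain ⟨P1, hlb⟩ := lb hab h0 P0 hP0 A'
  refine ⟨max P0 P1, fun P hP j => ?_⟩
  have hPP0 : P0 ≤ P := le_trans (le_max_left _ _) hP
  have hM := hlb P (le_trans (le_max_right _ _) hP)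
  have hv := hvrn P hPP0
  have hwc : HasCompactSupport w := HasCompactSupport.intro isCompact_Icc hs
  have hint : ∀ f : ℝ → ℝ, Continuous f → Integrable fun t => w t * f t := fun f hf =>
    (hw.mul hf).integrable_of_hasCompactSupport hwc.mul_right
  have hcf : ∀ c, Continuous fun t => rcB j P0 P c t / rcM P0 P t - 1 := fun c =>
    ((rc_chaos_cont_B j P0 P c hP0).div (rc_chaos_cont_M P0 P hP0)
      fun t => (rc_chaos_M_pos P0 P hP0 t).ne').sub continuous_const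
  set f : ℕ → ℝ → ℝ := fun c t => w t * (rcB j P0 P c t / rcM P0 P t - 1) with hf
  have hfi : ∀ c, Integrable (f c) := fun c => hint _ (hcf c)
  -- total variance
  have hvar : ∑ c ∈ odds (RR P), (∫ t, f c t) ^ 2 ≤ (RR P : ℝ) / 2 * (ε * W ^ 2 / 2) := by
    have h1 : ∑ c ∈ odds (RR P), (∫ t, f c t) ^ 2 =
        ∫ t, ∫ s, ∑ c ∈ odds (RR P), f c t * f c s := by
      have h2 : ∀ t, ∫ s, ∑ c ∈ odds (RR P), f c t * f c s =
          ∑ c ∈ odds (RR P), f c t * ∫ s, f c s := by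
        intro t
        rw [integral_finsetSum _ fun c _ => (hfi c).const_mul _]
        exact Finset.sum_congr rfl fun c _ => integral_const_mul _ _
      simp_rw [h2]
      rw [integral_finsetSum _ fun c _ => (hfi c).mul_const _]
      refine Finset.sum_congr rfl fun c _ => ?_
      rw [integral_mul_const, pow_two]
    have h3 : ∀ t s, ∑ c ∈ odds (RR P), f c t * f c s =
        (RR P : ℝ) / 2 * (w t * w s * (∏ p ∈ prr P0 P, mp2 p t s / (mp p t * mp p s) - 1)) := by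
      intro t s
      have h4 := rc_chaos_moment j P0 P hP0 t s
      calc ∑ c ∈ odds (RR P), f c t * f c s = (w t * w s) * ∑ c ∈ odds (RR P),
            (rcB j P0 P c t / rcM P0 P t - 1) * (rcB j P0 P c s / rcM P0 P s - 1) := by
            rw [Finset.mul_sum]
            refine Finset.sum_congr rfl fun c _ => ?_
            rw [hf]
            simp only
            ring
        _ = _ := by rw [h4]; ring
    rw [h1]
    simp_rw [h3, integral_const_mul]
    exact mul_le_mul_of_nonneg_left hv (by positivity)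
  -- the bad classes
  have hbad : ∀ c ∈ (odds (RR P)).filter (fun c => ∫ t : ℝ, w t * ‖EP j P c t‖ ≤ A),
      W ^ 2 / 4 ≤ (∫ t, f c t) ^ 2 := by
    intro c hc
    have hcA := (Finset.mem_filter.1 hc).2
    have hBi : Integrable fun t => w t * (rcB j P0 P c t / rcM P0 P t) :=
      hint _ ((rc_chaos_cont_B j P0 P c hP0).div (rc_chaos_cont_M P0 P hP0)
        fun t => (rc_chaos_M_pos P0 P hP0 t).ne')
    have hwi : Integrable w := by
      have := hint (fun _ => 1) continuous_const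
      simpa using this
    have h1 : ∫ t, f c t = (∫ t, w t * (rcB j P0 P c t / rcM P0 P t)) - W := by
      rw [hW, ← integral_sub hBi hwi]
      refine integral_congr_ae (Eventually.of_forall fun t => ?_)
      rw [hf]
      simp only
      ring
    have hEi : Integrable fun t => w t * ‖EP j P c t‖ := hint _ (rc_chaos_cont_EP j P c).norm
    have h2 : ∫ t, w t * (rcB j P0 P c t / rcM P0 P t) ≤
        ∫ t, (1 / (A' * c0)) * (w t * ‖EP j P c t‖) := by
      refine integral_mono hBi (hEi.const_mul _) fun t => ?_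
      simp only
      by_cases ht : t ∈ Set.Icc a b
      · have h3 := hM t ht
        have h4 := rc_chaos_EP_ge j P0 P c t
        have h5 := rc_chaos_B_nonneg j P0 P c t
        have h6 : rcB j P0 P c t / rcM P0 P t ≤ rcB j P0 P c t / A' :=
          div_le_div_of_nonneg_left h5 hA'pos h3
        have h7 : rcB j P0 P c t ≤ ‖EP j P c t‖ / c0 := by
          rw [le_div_iff₀ hc0pos, mul_comm]
          exact h4
        have h8 : rcB j P0 P c t / A' ≤ (‖EP j P c t‖ / c0) / A' :=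
          div_le_div_of_nonneg_right h7 hA'pos.le
        calc w t * (rcB j P0 P c t / rcM P0 P t) ≤ w t * ((‖EP j P c t‖ / c0) / A') :=
              mul_le_mul_of_nonneg_left (h6.trans h8) (hw0 t)
          _ = _ := by field_simp
      · rw [hs t ht]
        simp
    have h3 : ∫ t, (1 / (A' * c0)) * (w t * ‖EP j P c t‖) ≤ W / 2 := by
      rw [integral_const_mul]
      have h4 : (1 / (A' * c0)) * ∫ t, w t * ‖EP j P c t‖ ≤ (1 / (A' * c0)) * (|A| + 1) :=
        mul_le_mul_of_nonneg_left (by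
          have := le_abs_self A
          linarith) (by positivity)
      refine le_trans h4 (le_of_eq ?_)
      rw [hA']
      field_simp
    have h5 : ∫ t, f c t ≤ - (W / 2) := by
      rw [h1]
      linarith
    nlinarith [hpos]
  have hcount : (((odds (RR P)).filter
      fun c => ∫ t : ℝ, w t * ‖EP j P c t‖ ≤ A).card : ℝ) * (W ^ 2 / 4) ≤
      (RR P : ℝ) / 2 * (ε * W ^ 2 / 2) := by
    refine le_trans ?_ hvar
    calc _ = ∑ c ∈ (odds (RR P)).filter (fun c => ∫ t : ℝ, w t * ‖EP j P c t‖ ≤ A),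
          (W ^ 2 / 4) := by rw [Finset.sum_const, nsmul_eq_mul]
      _ ≤ ∑ c ∈ (odds (RR P)).filter (fun c => ∫ t : ℝ, w t * ‖EP j P c t‖ ≤ A),
          (∫ t, f c t) ^ 2 := Finset.sum_le_sum hbad
      _ ≤ _ := Finset.sum_le_sum_of_subset_of_nonneg (Finset.filter_subset _ _)
          fun c _ _ => sq_nonneg _
  have hW2 : 0 < W ^ 2 / 4 := by positivity
  have : (((odds (RR P)).filter fun c => ∫ t : ℝ, w t * ‖EP j P c t‖ ≤ A).card : ℝ) * (W ^ 2 / 4) ≤
      (ε * RR P) * (W ^ 2 / 4) := by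
    refine le_trans hcount (le_of_eq ?_)
    ring
  exact le_of_mul_le_mul_right this hW2

end Pool.Agent.RC

namespace Pool.Agent.RC

alias chaos := chaos_pr

end Pool.Agent.RC
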