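import Pool.Agent.Lib_helper39.RC.Defs
namespace Pool.Agent.RC

/-- Primitivity in elementary form. -/
def rc_cls_prim (q : ℕ) (χ : DirichletCharacter ℂ q) : Prop :=
  ∀ d : ℕ, d ∣ q → d < q → ∃ n : ℕ, n.Coprime q ∧ (n : ZMod d) = 1 ∧ χ (n : ZMod q) ≠ 1

theorem rc_cls_prim_of (q : ℕ) [NeZero q] (χ : DirichletCharacter ℂ q) (hp : χ.IsPrimitive) :
    rc_cls_prim q χ := by
  intro d hd hdq
  by_contra hcon
  push Not at hcon
  have hft : χ.FactorsThrough d := by
    rw [DirichletCharacter.factorsThrough_iff_ker_unitsMap hd]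
    intro u hu
    rw [MonoidHom.mem_ker] at hu ⊢
    have h1 : ((u : ZMod q).val).Coprime q := ZMod.val_coe_unit_coprime u
    have h2 : (((u : ZMod q).val : ℕ) : ZMod d) = 1 := by
      have h3 : ((ZMod.unitsMap hd u : (ZMod d)ˣ) : ZMod d) = 1 := by rw [hu]; rfl
      rw [ZMod.unitsMap_val] at h3
      rw [← h3]
      rw [ZMod.natCast_val]
    have h3 := hcon _ h1 h2
    rw [ZMod.natCast_val, ZMod.cast_id] at h3
    ext
    rw [MulChar.coe_toUnitHom, h3]
    rfl
  have h4 := DirichletCharacter.conductor_dvd_of_mem_conductorSet χ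
    ((DirichletCharacter.mem_conductorSet_iff χ).2 hft)
  rw [(DirichletCharacter.isPrimitive_def χ).1 hp] at h4
  have h5 := Nat.le_of_dvd (Nat.pos_of_ne_zero (by rintro rfl; simp at hd; exact (NeZero.ne q) hd)) h4
  omega

theorem rc_cls_ne {q : ℕ} (χ : DirichletCharacter ℂ q) {n : ℕ} (hn : n.Coprime q) :
    χ (n : ZMod q) ≠ 0 := by
  have h : IsUnit (n : ZMod q) := (ZMod.isUnit_iff_coprime n q).2 hn
  intro h0
  have := (MulChar.ne_one_iff (χ := χ))
  have h1 : IsUnit (χ (n : ZMod q)) := h.map χ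
  rw [h0] at h1
  exact not_isUnit_zero h1

/-- No square of an odd prime divides a conductor. -/
theorem rc_cls_sq (q : ℕ) [NeZero q] (χ : DirichletCharacter ℂ q) (hp : rc_cls_prim q χ)
    (h2 : MulChar.IsQuadratic χ) (p : ℕ) (hpp : p.Prime) (hp2 : p ≠ 2) (hdvd : p * p ∣ q) : False := by
  obtain ⟨t, ht⟩ := hdvd
  have hq0 := NeZero.ne q
  have ht0 : t ≠ 0 := by rintro rfl; simp at ht; exact hq0 ht
  have hd : p * t ∣ q := ⟨p, by rw [ht]; ring⟩
  have hlt : p * t < q := by
    rw [ht]
    have := hpp.one_lt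
    have h3 : 0 < p * t := Nat.mul_pos hpp.pos (Nat.pos_of_ne_zero ht0)
    nlinarith
  obtain ⟨n, hn1, hn2, hn3⟩ := hp (p * t) hd hlt
  have hn0 := rc_cls_ne χ hn1
  have hval : χ (n : ZMod q) = -1 := by
    rcases h2 (n : ZMod q) with h | h | h
    · exact absurd h hn0
    · exact absurd h hn3
    · exact h
  -- `n = 1 + p t k`
  have hk : ((p * t : ℕ) : ℤ) ∣ (n : ℤ) - 1 := by
    rw [← ZMod.intCast_zmod_eq_zero_iff_dvd]
    push_cast
    have := hn2
    push_cast at this
    rw [this]; ring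
  obtain ⟨k, hk⟩ := hk
  have hpow : ((n : ZMod q)) ^ p = 1 := by
    have hcast : (n : ZMod q) = 1 + ((p * t * k : ℤ) : ZMod q) := by
      have : (n : ℤ) = 1 + p * t * k := by push_cast at hk; linarith
      have h4 : ((n : ℤ) : ZMod q) = ((1 + p * t * k : ℤ) : ZMod q) := by rw [this]
      push_cast at h4 ⊢
      exact h4
    have hqz : ((q : ℕ) : ZMod q) = 0 := ZMod.natCast_self q
    have hqz' : (p : ZMod q) * p * t = 0 := by
      have : ((p * p * t : ℕ) : ZMod q) = 0 := by rw [← ht]; exact hqz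
      push_cast at this
      exact this
    set e : ZMod q := ((p * t * k : ℤ) : ZMod q) with he
    have hee : e * e = 0 := by
      rw [he]; push_cast
      calc (p : ZMod q) * t * k * (p * t * k) = (p * p * t) * (t * k * k) := by ring
        _ = 0 := by rw [hqz', zero_mul]
    have hpe : (p : ZMod q) * e = 0 := by
      rw [he]; push_cast
      calc (p : ZMod q) * (p * t * k) = (p * p * t) * k := by ring
        _ = 0 := by rw [hqz', zero_mul]
    have hind : ∀ m : ℕ, (1 + e) ^ m = 1 + m * e := by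
      intro m
      induction m with
      | zero => simp
      | succ m ih =>
        rw [pow_succ, ih]
        push_cast
        calc (1 + (m : ZMod q) * e) * (1 + e) = 1 + (m + 1) * e + m * (e * e) := by ring
          _ = 1 + (m + 1) * e := by rw [hee]; ring
    rw [hcast, hind p, hpe, add_zero]
  have h5 : χ (n : ZMod q) ^ p = 1 := by
    rw [← map_pow, hpow, map_one]
  rw [hval, Odd.neg_one_pow (hpp.odd_of_ne_two hp2)] at h5
  norm_num at h5

/-- `16` does not divide a conductor. -/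
theorem rc_cls_16 (q : ℕ) [NeZero q] (χ : DirichletCharacter ℂ q) (hp : rc_cls_prim q χ)
    (h2 : MulChar.IsQuadratic χ) (hdvd : 16 ∣ q) : False := by
  obtain ⟨t, ht⟩ := hdvd
  have hq0 := NeZero.ne q
  have ht0 : t ≠ 0 := by rintro rfl; simp at ht; exact hq0 ht
  obtain ⟨n, hn1, hn2, hn3⟩ := hp (8 * t) ⟨2, by rw [ht]; ring⟩ (by omega)
  have hn0 := rc_cls_ne χ hn1
  have hk : ((8 * t : ℕ) : ℤ) ∣ (n : ℤ) - 1 := by
    rw [← ZMod.intCast_zmod_eq_zero_iff_dvd]
    push_cast
    have := hn2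
    push_cast at this
    rw [this]; ring
  obtain ⟨k, hk⟩ := hk
  have hqz' : (16 : ZMod q) * t = 0 := by
    have : ((16 * t : ℕ) : ZMod q) = 0 := by rw [← ht]; exact ZMod.natCast_self q
    push_cast at this
    exact this
  have hsq : (n : ZMod q) = (1 + 4 * t * k) * (1 + 4 * t * k) := by
    have : (n : ℤ) = 1 + 8 * t * k := by push_cast at hk; linarith
    have h4 : ((n : ℤ) : ZMod q) = ((1 + 8 * t * k : ℤ) : ZMod q) := by rw [this]
    push_cast at h4
    rw [h4]
    calc (1 : ZMod q) + 8 * t * k = (1 + 8 * t * k) + (16 * t) * (t * k * k) := by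
          rw [hqz']; ring
      _ = _ := by ring
  rw [hsq, map_mul] at hn0 hn3
  rcases h2 (1 + 4 * t * k) with h | h | h <;> rw [h] at hn0 hn3 <;> simp at hn0 hn3

/-- Splitting off an odd prime. -/
theorem rc_cls_step (p s : ℕ) [NeZero s] (hpp : p.Prime) (hp2 : p ≠ 2) (hps : p.Coprime s)
    (χ : DirichletCharacter ℂ (p * s)) (h2 : MulChar.IsQuadratic χ)
    (hn : ∃ n : ℕ, n.Coprime (p * s) ∧ (n : ZMod s) = 1 ∧ χ (n : ZMod (p * s)) ≠ 1) :
    ∃ χ₀ : DirichletCharacter ℂ s, MulChar.IsQuadratic χ₀ ∧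
      ∀ n : ℕ, χ (n : ZMod (p * s)) = (jacobiSym n p : ℂ) * χ₀ (n : ZMod s) := by
  have : Fact p.Prime := ⟨hpp⟩
  let e := ZMod.chineseRemainder hps
  let χ₀ : DirichletCharacter ℂ s :=
    { toFun := fun y => χ (e.symm (1, y))
      map_one' := by
        change χ (e.symm (1 : ZMod p × ZMod s)) = 1
        rw [map_one, map_one]
      map_mul' := by
        intro x y
        change χ (e.symm (1, x * y)) = χ (e.symm (1, x)) * χ (e.symm (1, y))
        rw [← map_mul, ← map_mul]
        simp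
      map_nonunit' := by
        intro y hy
        apply MulChar.map_nonunit
        intro hu
        apply hy
        have h1 : IsUnit (e (e.symm (1, y))) := hu.map e
        rw [RingEquiv.apply_symm_apply, Prod.isUnit_iff] at h1
        exact h1.2 }
  let lam : DirichletCharacter ℂ p :=
    { toFun := fun x => χ (e.symm (x, 1))
      map_one' := by
        change χ (e.symm (1 : ZMod p × ZMod s)) = 1
        rw [map_one, map_one]
      map_mul' := by
        intro x y
        change χ (e.symm (x * y, 1)) = χ (e.symm (x, 1)) * χ (e.symm (y, 1))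
        rw [← map_mul, ← map_mul]
        simp
      map_nonunit' := by
        intro y hy
        apply MulChar.map_nonunit
        intro hu
        apply hy
        have h1 : IsUnit (e (e.symm (y, 1))) := hu.map e
        rw [RingEquiv.apply_symm_apply, Prod.isUnit_iff] at h1
        exact h1.1 }
  have hχ₀ : ∀ y, χ₀ y = χ (e.symm (1, y)) := fun y => rfl
  have hlam : ∀ x, lam x = χ (e.symm (x, 1)) := fun y => rfl
  have hsplit : ∀ n : ℕ, χ (n : ZMod (p * s)) = lam n * χ₀ n := by
    intro n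
    rw [hχ₀, hlam, ← map_mul, ← map_mul]
    congr 1
    apply e.injective
    rw [RingEquiv.apply_symm_apply, map_natCast]
    ext <;> simp
  have hquad0 : MulChar.IsQuadratic χ₀ := fun y => h2 _
  have hquadl : MulChar.IsQuadratic lam := fun y => h2 _
  refine ⟨χ₀, hquad0, ?_⟩
  -- `lam` is nontrivial
  obtain ⟨n, hn1, hn2, hn3⟩ := hn
  have hlam1 : lam (n : ZMod p) = -1 := by
    have h3 := hsplit n
    rw [hn2, map_one, mul_one] at h3
    rw [← h3]
    rcases h2 (n : ZMod (p * s)) with h | h | h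
    · exact absurd h (rc_cls_ne χ hn1)
    · exact absurd h hn3
    · exact h
  have hl0 : ∀ a : ZMod p, a ≠ 0 → lam a ≠ 0 := by
    intro a ha h0
    have h1 : IsUnit (lam a) := (isUnit_iff_ne_zero.2 ha).map lam
    rw [h0] at h1
    exact not_isUnit_zero h1
  have hnz : (n : ZMod p) ≠ 0 := by
    intro h0
    have : lam (n : ZMod p) = 0 := by rw [h0]; exact MulChar.map_zero lam
    rw [this] at hlam1
    norm_num at hlam1
  have hsqv : ∀ a : ZMod p, a ≠ 0 → IsSquare a → lam a = 1 := by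
    rintro a ha ⟨b, rfl⟩
    have hb := hl0 _ ha
    rw [map_mul] at hb ⊢
    rcases hquadl b with h | h | h <;> rw [h] at hb ⊢ <;> simp at hb ⊢
  have hnsq : ¬ IsSquare (n : ZMod p) := by
    intro h
    have := hsqv _ hnz h
    rw [hlam1] at this
    norm_num at this
  intro m
  rw [hsplit m]
  congr 1
  rw [← jacobiSym.legendreSym.to_jacobiSym]
  by_cases hm : (m : ZMod p) = 0
  · have : legendreSym p (m : ℤ) = 0 := by
      rw [legendreSym.eq_zero_iff]
      push_cast
      exact hm
    rw [this, hm, MulChar.map_zero lam]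
    simp
  · by_cases hs : IsSquare (m : ZMod p)
    · have : legendreSym p (m : ℤ) = 1 := by
        rw [legendreSym.eq_one_iff]
        · push_cast; exact hs
        · push_cast; exact hm
      rw [this, hsqv _ hm hs]
      simp
    · have : legendreSym p (m : ℤ) = -1 := by
        rw [legendreSym.eq_neg_one_iff]
        push_cast; exact hs
      rw [this]
      -- product of two nonsquares is a square
      have hprod : IsSquare ((n : ZMod p) * (m : ZMod p)) := by
        by_contra hcon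
        have h1 : legendreSym p ((n : ℤ) * (m : ℤ)) = -1 := by
          rw [legendreSym.eq_neg_one_iff]
          push_cast; exact hcon
        rw [legendreSym.mul, this] at h1
        have h3 : legendreSym p (n : ℤ) = -1 := by
          rw [legendreSym.eq_neg_one_iff]
          push_cast; exact hnsq
        rw [h3] at h1
        norm_num at h1
      have h4 := hsqv _ (mul_ne_zero hnz hm) hprod
      rw [map_mul, hlam1] at h4
      push_cast
      linear_combination -h4


theorem rc_cls_finite4 (χ : DirichletCharacter ℂ 4) (h2 : MulChar.IsQuadratic χ)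
    (hp : rc_cls_prim 4 χ) : ∀ n : ℕ, χ (n : ZMod 4) = (rv 1 1 n : ℂ) := by
  have h3 : χ (3 : ZMod 4) = -1 := by
    obtain ⟨n, hn1, hn2, hn3⟩ := hp 1 (by norm_num) (by norm_num)
    have hn0 := rc_cls_ne χ hn1
    have hc : (n : ZMod 4) = 0 ∨ (n : ZMod 4) = 1 ∨ (n : ZMod 4) = 2 ∨ (n : ZMod 4) = 3 := by
      generalize (n : ZMod 4) = x
      revert x; decide
    have hz : χ (0 : ZMod 4) = 0 := MulChar.map_nonunit χ (by decide)
    have hz2 : χ (2 : ZMod 4) = 0 := MulChar.map_nonunit χ (by decide)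
    rcases hc with h | h | h | h
    · rw [h] at hn0; exact absurd hz hn0
    · rw [h, map_one] at hn3; exact absurd rfl hn3
    · rw [h] at hn0; exact absurd hz2 hn0
    · rw [h] at hn0 hn3
      rcases h2 3 with h | h | h
      · exact absurd h hn0
      · exact absurd h hn3
      · exact h
  intro n
  have hz : χ (0 : ZMod 4) = 0 := MulChar.map_nonunit χ (by decide)
  have hz2 : χ (2 : ZMod 4) = 0 := MulChar.map_nonunit χ (by decide)
  have h1 : χ (1 : ZMod 4) = 1 := map_one χ
  unfold rv psi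
  simp only [Matrix.cons_val_one, Matrix.cons_val_zero, jacobiSym.one_right, mul_one]
  have key : ∀ x : ZMod 4, χ x = ((ZMod.χ₄ x : ℤ) : ℂ) := by
    intro x
    fin_cases x
    · change χ 0 = ((ZMod.χ₄ 0 : ℤ) : ℂ)
      rw [hz]; simp
    · change χ 1 = ((ZMod.χ₄ 1 : ℤ) : ℂ)
      rw [h1]; simp
    · change χ 2 = ((ZMod.χ₄ 2 : ℤ) : ℂ)
      rw [hz2, show ZMod.χ₄ 2 = 0 by decide]; simp
    · change χ 3 = ((ZMod.χ₄ 3 : ℤ) : ℂ)
      rw [h3, show ZMod.χ₄ 3 = -1 by decide]; simp
  exact key _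

theorem rc_cls_finite8 (χ : DirichletCharacter ℂ 8) (h2 : MulChar.IsQuadratic χ)
    (hp : rc_cls_prim 8 χ) : ∃ j : Fin 4, cc j = 8 ∧ ∀ n : ℕ, χ (n : ZMod 8) = (rv j 1 n : ℂ) := by
  have hz0 : χ (0 : ZMod 8) = 0 := MulChar.map_nonunit χ (by decide)
  have hz2 : χ (2 : ZMod 8) = 0 := MulChar.map_nonunit χ (by decide)
  have hz4 : χ (4 : ZMod 8) = 0 := MulChar.map_nonunit χ (by decide)
  have hz6 : χ (6 : ZMod 8) = 0 := MulChar.map_nonunit χ (by decide)
  have h1 : χ (1 : ZMod 8) = 1 := map_one χ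
  have h5 : χ (5 : ZMod 8) = -1 := by
    obtain ⟨n, hn1, hn2, hn3⟩ := hp 4 (by norm_num) (by norm_num)
    have hn0 := rc_cls_ne χ hn1
    have hc : (n : ZMod 8) = 1 ∨ (n : ZMod 8) = 5 := by
      have hm : n % 4 = 1 := by
        have := (ZMod.natCast_eq_natCast_iff' n 1 4).1 (by push_cast; exact hn2)
        omega
      have hm8 : n % 8 = 1 ∨ n % 8 = 5 := by omega
      rcases hm8 with h | h
      · left
        have := (ZMod.natCast_eq_natCast_iff' n 1 8).2 (by omega)
        push_cast at this; exact this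
      · right
        have := (ZMod.natCast_eq_natCast_iff' n 5 8).2 (by omega)
        push_cast at this; exact this
    rcases hc with h | h
    · rw [h, map_one] at hn3; exact absurd rfl hn3
    · rw [h] at hn0 hn3
      rcases h2 5 with h | h | h
      · exact absurd h hn0
      · exact absurd h hn3
      · exact h
  have h3n : χ (3 : ZMod 8) ≠ 0 := by
    have := rc_cls_ne χ (n := 3) (by norm_num)
    push_cast at this; exact this
  have h7 : χ (7 : ZMod 8) = - χ 3 := by
    have : (7 : ZMod 8) = 5 * 3 := by decide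
    rw [this, map_mul, h5]; ring
  rcases h2 3 with h | h | h
  · exact absurd h h3n
  · refine ⟨3, rfl, ?_⟩
    have key : ∀ x : ZMod 8, χ x = ((ZMod.χ₈' x : ℤ) : ℂ) := by
      intro x
      fin_cases x
      · change χ 0 = ((ZMod.χ₈' 0 : ℤ) : ℂ)
        rw [hz0]; simp
      · change χ 1 = ((ZMod.χ₈' 1 : ℤ) : ℂ)
        rw [h1]; simp
      · change χ 2 = ((ZMod.χ₈' 2 : ℤ) : ℂ)
        rw [hz2, show ZMod.χ₈' 2 = 0 by decide]; simp
      · change χ 3 = ((ZMod.χ₈' 3 : ℤ) : ℂ)
        rw [h, show ZMod.χ₈' 3 = 1 by decide]; simp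
      · change χ 4 = ((ZMod.χ₈' 4 : ℤ) : ℂ)
        rw [hz4, show ZMod.χ₈' 4 = 0 by decide]; simp
      · change χ 5 = ((ZMod.χ₈' 5 : ℤ) : ℂ)
        rw [h5, show ZMod.χ₈' 5 = -1 by decide]; simp
      · change χ 6 = ((ZMod.χ₈' 6 : ℤ) : ℂ)
        rw [hz6, show ZMod.χ₈' 6 = 0 by decide]; simp
      · change χ 7 = ((ZMod.χ₈' 7 : ℤ) : ℂ)
        rw [h7, h, show ZMod.χ₈' 7 = -1 by decide]; simp
    intro n
    rw [key]
    unfold rv psi
    simp
  · refine ⟨2, rfl, ?_⟩
    have key : ∀ x : ZMod 8, χ x = ((ZMod.χ₈ x : ℤ) : ℂ) := by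
      intro x
      fin_cases x
      · change χ 0 = ((ZMod.χ₈ 0 : ℤ) : ℂ)
        rw [hz0]; simp
      · change χ 1 = ((ZMod.χ₈ 1 : ℤ) : ℂ)
        rw [h1]; simp
      · change χ 2 = ((ZMod.χ₈ 2 : ℤ) : ℂ)
        rw [hz2, show ZMod.χ₈ 2 = 0 by decide]; simp
      · change χ 3 = ((ZMod.χ₈ 3 : ℤ) : ℂ)
        rw [h, show ZMod.χ₈ 3 = -1 by decide]; simp
      · change χ 4 = ((ZMod.χ₈ 4 : ℤ) : ℂ)
        rw [hz4, show ZMod.χ₈ 4 = 0 by decide]; simp
      · change χ 5 = ((ZMod.χ₈ 5 : ℤ) : ℂ)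
        rw [h5, show ZMod.χ₈ 5 = -1 by decide]; simp
      · change χ 6 = ((ZMod.χ₈ 6 : ℤ) : ℂ)
        rw [hz6, show ZMod.χ₈ 6 = 0 by decide]; simp
      · change χ 7 = ((ZMod.χ₈ 7 : ℤ) : ℂ)
        rw [h7, h, show ZMod.χ₈ 7 = 1 by decide]; simp
    intro n
    rw [key]
    unfold rv psi
    simp

theorem rc_cls_main (q : ℕ) : ∀ (_ : q ≠ 0) (χ : DirichletCharacter ℂ q), rc_cls_prim q χ →
    MulChar.IsQuadratic χ →
    ∃ (j : Fin 4) (m : ℕ), Odd m ∧ q = cc j * m ∧ ∀ n : ℕ, χ (n : ZMod q) = (rv j m n : ℂ) := by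
  induction q using Nat.strong_induction_on with
  | _ q ih =>
  intro hq0 χ hp h2
  have : NeZero q := ⟨hq0⟩
  by_cases hodd : ∃ p : ℕ, p.Prime ∧ p ≠ 2 ∧ p ∣ q
  · obtain ⟨p, hpp, hp2, s, rfl⟩ := hodd
    have hs0 : s ≠ 0 := by rintro rfl; simp at hq0
    have : NeZero s := ⟨hs0⟩
    have hps : p.Coprime s := by
      rw [Nat.Prime.coprime_iff_not_dvd hpp]
      intro hdv
      exact rc_cls_sq (p * s) χ hp h2 p hpp hp2 (Nat.mul_dvd_mul_left p hdv)
    have hlt : s < p * s := by
      have := hpp.one_lt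
      have := Nat.pos_of_ne_zero hs0
      nlinarith
    obtain ⟨χ₀, hq, hval⟩ := rc_cls_step p s hpp hp2 hps χ h2 (hp s (Dvd.intro_left p rfl) hlt)
    have hp0 : rc_cls_prim s χ₀ := by
      intro d hd hds
      obtain ⟨n, hn1, hn2, hn3⟩ := hp (p * d) (Nat.mul_dvd_mul_left p hd)
        (Nat.mul_lt_mul_of_pos_left hds hpp.pos)
      refine ⟨n, Nat.Coprime.coprime_dvd_right (Dvd.intro_left p rfl) hn1, ?_, ?_⟩
      · have h1 := (ZMod.natCast_eq_natCast_iff n 1 (p * d)).1 (by push_cast; exact hn2)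
        have h2' : n ≡ 1 [MOD d] := h1.of_mul_left p
        have := (ZMod.natCast_eq_natCast_iff n 1 d).2 h2'
        push_cast at this; exact this
      · intro hcon
        apply hn3
        rw [hval n, hcon, mul_one]
        have h1 := (ZMod.natCast_eq_natCast_iff n 1 (p * d)).1 (by push_cast; exact hn2)
        have h2' : n ≡ 1 [MOD p] := h1.of_mul_right d
        have h3 : jacobiSym (n : ℤ) p = 1 := by
          rw [jacobiSym.mod_left]
          have : (n : ℤ) % p = 1 % p := by
            have := h2'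
            unfold Nat.ModEq at this
            exact_mod_cast this
          rw [this, ← jacobiSym.mod_left, jacobiSym.one_left]
        rw [h3]; simp
    obtain ⟨j, m, hm, hs, hv⟩ := ih s hlt hs0 χ₀ hp0 hq
    refine ⟨j, p * m, (hpp.odd_of_ne_two hp2).mul hm, by rw [hs]; ring, ?_⟩
    intro n
    rw [hval n, hv n]
    unfold rv
    have hm0 : m ≠ 0 := by rintro rfl; simp at hm
    have : NeZero p := ⟨hpp.ne_zero⟩
    have : NeZero m := ⟨hm0⟩
    rw [jacobiSym.mul_right]
    push_cast
    ring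
  · push Not at hodd
    -- `q` is a power of two
    obtain ⟨a, ha⟩ : ∃ a, q = 2 ^ a := by
      refine ⟨q.primeFactorsList.length, ?_⟩
      apply Nat.eq_prime_pow_of_unique_prime_dvd hq0
      intro p hp hd
      by_contra hne
      exact hodd p hp hne hd
    have ha4 : a < 4 := by
      by_contra hcon
      apply rc_cls_16 q χ hp h2
      rw [ha]
      exact pow_dvd_pow 2 (show 4 ≤ a by omega)
    interval_cases a
    · subst ha
      refine ⟨0, 1, odd_one, rfl, ?_⟩
      intro n
      have hn : (n : ZMod (2 ^ 0)) = 1 := by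
        change (n : ZMod 1) = 1
        exact Subsingleton.elim _ _
      rw [hn, map_one]
      unfold rv psi
      simp
    · exfalso
      subst ha
      obtain ⟨n, hn1, hn2, hn3⟩ := hp 1 (by norm_num) (by norm_num)
      apply hn3
      have hodd : n % 2 = 1 := by
        have : n.Coprime 2 := hn1
        rw [Nat.coprime_two_right] at this
        exact Nat.odd_iff.1 this
      have : (n : ZMod (2 ^ 1)) = 1 := by
        have := (ZMod.natCast_eq_natCast_iff' n 1 (2 ^ 1)).2 (by omega)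
        push_cast at this; exact this
      rw [this, map_one]
    · subst ha
      exact ⟨1, 1, odd_one, rfl, rc_cls_finite4 χ h2 hp⟩
    · subst ha
      obtain ⟨j, hj, hv⟩ := rc_cls_finite8 χ h2 hp
      exact ⟨j, 1, odd_one, by rw [hj]; norm_num, hv⟩

/-- CLS: classification of the real primitive characters. -/
theorem classify_pr (q : ℕ) [NeZero q] (χ : DirichletCharacter ℂ q) (hp : χ.IsPrimitive)
    (h2 : MulChar.IsQuadratic χ) :
    ∃ (j : Fin 4) (m : ℕ), Odd m ∧ q = cc j * m ∧ ∀ n : ℕ, χ (n : ZMod q) = (rv j m n : ℂ) :=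
  rc_cls_main q (NeZero.ne q) χ (rc_cls_prim_of q χ hp) h2

end Pool.Agent.RC

namespace Pool.Agent.RC

alias classify := classify_pr

end Pool.Agent.RC
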