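import Pool.Agent.Lib_helper39.RC.Defs
/-!
# RC, block DEN
-/

namespace Pool.Agent.RC

open Complex MeasureTheory Filter Topology

/-- The Jacobi character modulo `m`. -/
noncomputable def rc_den_chi (m : ℕ) [NeZero m] : DirichletCharacter ℂ m where
  toFun a := ((jacobiSym (a.val : ℤ) m : ℤ) : ℂ)
  map_one' := by
    rcases Nat.lt_or_ge 1 m with h | h
    · have : Fact (1 < m) := ⟨h⟩
      rw [ZMod.val_one]
      simp
    · have h1 : m = 1 := le_antisymm h (Nat.one_le_iff_ne_zero.mpr (NeZero.ne m))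
      subst h1
      simp
  map_mul' a b := by
    have h1 : jacobiSym ((a * b).val : ℤ) m = jacobiSym ((a.val : ℤ) * (b.val : ℤ)) m := by
      rw [ZMod.val_mul]
      rw [jacobiSym.mod_left ((a.val : ℤ) * (b.val : ℤ)) m]
      push_cast
      rfl
    rw [h1, jacobiSym.mul_left]
    push_cast
    rfl
  map_nonunit' a ha := by
    have h1 : jacobiSym (a.val : ℤ) m = 0 := by
      rw [jacobiSym.eq_zero_iff_not_coprime]
      intro h2
      apply ha
      have h3 : a.val.Coprime m := by
        rw [Int.gcd_natCast_natCast] at h2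
        exact h2
      rw [← ZMod.natCast_zmod_val a]
      exact (ZMod.isUnit_iff_coprime _ _).mpr h3
    rw [h1]
    simp

theorem rc_den_chi_nat (m : ℕ) [NeZero m] (n : ℕ) :
    rc_den_chi m (n : ZMod m) = ((jacobiSym (n : ℤ) m : ℤ) : ℂ) := by
  change ((jacobiSym (((n : ZMod m)).val : ℤ) m : ℤ) : ℂ) = _
  rw [ZMod.val_natCast, jacobiSym.mod_left (n : ℤ) m]
  push_cast
  rfl

theorem rc_den_quad (m : ℕ) [NeZero m] : MulChar.IsQuadratic (rc_den_chi m) := by
  intro a
  rw [← ZMod.natCast_zmod_val a, rc_den_chi_nat]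
  rcases jacobiSym.trichotomy (a.val : ℤ) m with h | h | h
  · left; rw [h]; simp
  · right; left; rw [h]; simp
  · right; right; rw [h]; simp

theorem rc_den_prim (m : ℕ) [NeZero m] (hm : Odd m) (hs : Squarefree m) :
    (rc_den_chi m).IsPrimitive := by
  rw [DirichletCharacter.isPrimitive_def]
  by_contra hne
  set d := (rc_den_chi m).conductor with hd
  have hdm : d ∣ m := DirichletCharacter.conductor_dvd_level _
  obtain ⟨t, ht⟩ := hdm
  have ht1 : t ≠ 1 := by
    rintro rfl
    apply hne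
    rw [mul_one] at ht
    exact ht.symm
  obtain ⟨p, hp, hpt⟩ := Nat.exists_prime_and_dvd ht1
  obtain ⟨r, hr⟩ := hpt
  have hmp : m = p * (d * r) := by rw [ht, hr]; ring
  have hcop : p.Coprime (d * r) := by
    rw [hmp] at hs
    exact (Nat.squarefree_mul_iff.mp hs).1
  have hm0 : m ≠ 0 := NeZero.ne m
  have hdr0 : d * r ≠ 0 := by
    intro h
    rw [h] at hmp
    simp at hmp
    exact hm0 hmp
  have : Fact p.Prime := ⟨hp⟩
  have : NeZero (d * r) := ⟨hdr0⟩
  have hp2 : p ≠ 2 := by
    rintro rfl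
    rw [hmp] at hm
    exact absurd hm (by rw [Nat.not_odd_iff_even]; exact even_two_mul _)
  obtain ⟨x, hx⟩ : ∃ x : ZMod p, ¬ IsSquare x := by
    apply FiniteField.exists_nonsquare
    rw [ZMod.ringChar_zmod_n]
    exact hp2
  obtain ⟨a, ha1, ha2⟩ := Nat.chineseRemainder hcop x.val 1
  have hJ1 : jacobiSym (a : ℤ) p = -1 := by
    rw [← jacobiSym.legendreSym.to_jacobiSym]
    rw [legendreSym.eq_neg_one_iff]
    have : (((a : ℕ) : ℤ) : ZMod p) = x := by
      rw [Int.cast_natCast, (ZMod.natCast_eq_natCast_iff a x.val p).mpr ha1, ZMod.natCast_zmod_val]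
    rw [this]
    exact hx
  have hJ2 : jacobiSym (a : ℤ) (d * r) = 1 := by
    rw [jacobiSym.mod_left]
    have : ((a : ℤ) % ((d * r : ℕ) : ℤ)) = (1 : ℤ) % ((d * r : ℕ) : ℤ) := by
      have := (Int.natCast_modEq_iff.mpr ha2)
      exact_mod_cast this
    rw [this, ← jacobiSym.mod_left]
    exact jacobiSym.one_left _
  have hJ : jacobiSym (a : ℤ) m = -1 := by
    rw [hmp, jacobiSym.mul_right' (a : ℤ) hp.ne_zero hdr0, hJ1, hJ2]
    norm_num
  have hcopa : a.Coprime m := by
    by_contra hc
    have : jacobiSym (a : ℤ) m = 0 := by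
      rw [jacobiSym.eq_zero_iff_not_coprime]
      rw [Int.gcd_natCast_natCast]
      exact hc
    rw [this] at hJ
    norm_num at hJ
  have hfac := DirichletCharacter.factorsThrough_conductor (rc_den_chi m)
  rw [← hd] at hfac
  rw [DirichletCharacter.factorsThrough_iff_ker_unitsMap ⟨t, ht⟩] at hfac
  have hu : ZMod.unitOfCoprime a hcopa ∈ (ZMod.unitsMap (⟨t, ht⟩ : d ∣ m)).ker := by
    rw [MonoidHom.mem_ker]
    ext
    rw [ZMod.unitsMap_val, ZMod.coe_unitOfCoprime, ZMod.cast_natCast ⟨t, ht⟩]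
    rw [Units.val_one]
    have h1 : a ≡ 1 [MOD d] := ha2.of_mul_right r
    have h2 := (ZMod.natCast_eq_natCast_iff a 1 d).mpr h1
    rw [h2]
    simp
  have h3 := hfac hu
  rw [MonoidHom.mem_ker] at h3
  have h4 : rc_den_chi m (a : ZMod m) = 1 := by
    have h5 := congrArg (fun u : ℂˣ => (u : ℂ)) h3
    simp only [MulChar.coe_toUnitHom, ZMod.coe_unitOfCoprime, Units.val_one] at h5
    exact h5
  rw [rc_den_chi_nat, hJ] at h4
  norm_num at h4

theorem rc_den_one (m : ℕ) [NeZero m] (hm : Odd m) (hs : Squarefree m) :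
    1 ≤ Nat.card {χ : DirichletCharacter ℂ m // χ.IsPrimitive ∧ MulChar.IsQuadratic χ} := by
  have : Nonempty {χ : DirichletCharacter ℂ m // χ.IsPrimitive ∧ MulChar.IsQuadratic χ} :=
    ⟨⟨rc_den_chi m, rc_den_prim m hm hs, rc_den_quad m⟩⟩
  exact Nat.card_pos

/-- Squarefree numbers up to `X`. -/
theorem rc_den_sqf (X : ℕ) :
    X ≤ 4 * ((Finset.Icc 1 X).filter Squarefree).card := by
  have h1 : ((Finset.Icc 1 X).filter fun n => ¬ Squarefree n) ⊆
      (Finset.Icc 2 X).biUnion fun d => (Finset.Ioc 0 X).filter fun n => d * d ∣ n := by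
    intro n hn
    rw [Finset.mem_filter, Finset.mem_Icc] at hn
    obtain ⟨⟨hn1, hn2⟩, hn3⟩ := hn
    rw [Nat.squarefree_iff_prime_squarefree] at hn3
    push Not at hn3
    obtain ⟨p, hp, hpn⟩ := hn3
    rw [Finset.mem_biUnion]
    refine ⟨p, ?_, ?_⟩
    · rw [Finset.mem_Icc]
      refine ⟨hp.two_le, ?_⟩
      have h2 := Nat.le_of_dvd (by omega) hpn
      have h3 := hp.one_lt
      nlinarith
    · rw [Finset.mem_filter, Finset.mem_Ioc]
      exact ⟨⟨by omega, hn2⟩, hpn⟩
  have h2 : (((Finset.Icc 1 X).filter fun n => ¬ Squarefree n).card : ℝ) ≤ 3 / 4 * X := by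
    have h3 := (Finset.card_le_card h1).trans Finset.card_biUnion_le
    have h4 : (((Finset.Icc 1 X).filter fun n => ¬ Squarefree n).card : ℝ) ≤
        ∑ d ∈ Finset.Icc 2 X, ((((Finset.Ioc 0 X).filter fun n => d * d ∣ n).card : ℕ) : ℝ) := by
      exact_mod_cast h3
    refine h4.trans ?_
    have h5 : ∀ d ∈ Finset.Icc 2 X,
        ((((Finset.Ioc 0 X).filter fun n => d * d ∣ n).card : ℕ) : ℝ) ≤ X * (1 / (d : ℝ) ^ 2) := by
      intro d hd
      rw [Nat.Ioc_filter_dvd_card_eq_div]
      have h6 := Nat.cast_div_le (α := ℝ) (m := X) (n := d * d)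
      refine h6.trans (le_of_eq ?_)
      push_cast
      rw [pow_two]
      ring
    refine (Finset.sum_le_sum h5).trans ?_
    rw [← Finset.mul_sum]
    have h7 : ∀ Y : ℕ, ∑ d ∈ Finset.Icc 2 Y, 1 / (d : ℝ) ^ 2 ≤
        (3 / 4 : ℝ) - (if Y < 2 then (3 / 4 : ℝ) else 1 / (Y : ℝ)) := by
      intro Y
      induction Y with
      | zero => simp
      | succ n ih =>
        rcases Nat.lt_or_ge n 1 with hn | hn
        · have : n = 0 := by omega
          subst this
          simp
        · rw [Finset.sum_Icc_succ_top (by omega)]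
          rcases Nat.lt_or_ge n 2 with hn2 | hn2
          · have : n = 1 := by omega
            subst this
            norm_num
          · rw [if_neg (by omega)] at ih ⊢
            have hn0 : (0 : ℝ) < n := by positivity
            have h8 : 1 / ((n + 1 : ℕ) : ℝ) ^ 2 ≤ 1 / (n : ℝ) - 1 / ((n + 1 : ℕ) : ℝ) := by
              push_cast
              rw [div_sub_div _ _ (by positivity) (by positivity), div_le_div_iff₀ (by positivity) (by positivity)]
              nlinarith
            linarith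
    have h8 := h7 X
    have h9 : ∑ d ∈ Finset.Icc 2 X, 1 / (d : ℝ) ^ 2 ≤ 3 / 4 := by
      refine h8.trans ?_
      split_ifs
      · norm_num
      · have : (0 : ℝ) ≤ 1 / X := by positivity
        linarith
    have h10 : (0 : ℝ) ≤ X := Nat.cast_nonneg X
    nlinarith
  have h3 := Finset.card_filter_add_card_filter_not (s := Finset.Icc 1 X) Squarefree
  rw [Nat.card_Icc] at h3
  have h4 : (((Finset.Icc 1 X).filter Squarefree).card : ℝ) +
      ((Finset.Icc 1 X).filter fun n => ¬ Squarefree n).card = X := by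
    have : X + 1 - 1 = X := by omega
    rw [this] at h3
    exact_mod_cast h3
  have h5 : (X : ℝ) ≤ 4 * ((Finset.Icc 1 X).filter Squarefree).card := by linarith
  exact_mod_cast h5

theorem rc_den_osqf (X : ℕ) :
    X ≤ 8 * ((Finset.Icc 1 X).filter fun n => Odd n ∧ Squarefree n).card := by
  have h1 := rc_den_sqf X
  have h2 : ((Finset.Icc 1 X).filter Squarefree) ⊆
      ((Finset.Icc 1 X).filter fun n => Odd n ∧ Squarefree n) ∪
      ((Finset.Icc 1 X).filter fun n => Odd n ∧ Squarefree n).image (fun n => 2 * n) := by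
    intro n hn
    rw [Finset.mem_filter, Finset.mem_Icc] at hn
    obtain ⟨⟨hn1, hn2⟩, hn3⟩ := hn
    rw [Finset.mem_union]
    rcases Nat.even_or_odd n with he | ho
    · right
      obtain ⟨k, hk⟩ := he
      rw [Finset.mem_image]
      have hk2 : n = 2 * k := by omega
      rw [hk2] at hn3
      have h3 := Nat.squarefree_mul_iff.mp hn3
      refine ⟨k, ?_, by omega⟩
      rw [Finset.mem_filter, Finset.mem_Icc]
      exact ⟨by omega, Nat.coprime_two_left.mp h3.1, h3.2.2⟩
    · left
      rw [Finset.mem_filter, Finset.mem_Icc]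
      exact ⟨⟨hn1, hn2⟩, ho, hn3⟩
  have h3 := (Finset.card_le_card h2).trans (Finset.card_union_le _ _)
  have h4 := Finset.card_image_le (s := ((Finset.Icc 1 X).filter fun n => Odd n ∧ Squarefree n))
    (f := fun n => 2 * n)
  omega

theorem den_pr : ∃ c : ℝ, 0 < c ∧ ∀ X : ℕ, 1 ≤ X → c * X ≤
    ∑ q ∈ Finset.range X, (Nat.card {χ : DirichletCharacter ℂ (q + 1) //
      χ.IsPrimitive ∧ MulChar.IsQuadratic χ} : ℝ) := by
  refine ⟨1 / 8, by norm_num, ?_⟩
  intro X _
  have h1 := rc_den_osqf X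
  have h2 : (((Finset.Icc 1 X).filter fun n => Odd n ∧ Squarefree n).card : ℝ) ≤
      ∑ q ∈ Finset.range X, (Nat.card {χ : DirichletCharacter ℂ (q + 1) //
        χ.IsPrimitive ∧ MulChar.IsQuadratic χ} : ℝ) := by
    have h3 : ((Finset.Icc 1 X).filter fun n => Odd n ∧ Squarefree n).card =
        ((Finset.range X).filter fun n => Odd (n + 1) ∧ Squarefree (n + 1)).card := by
      symm
      apply Finset.card_bij (fun n _ => n + 1)
      · intro a ha
        rw [Finset.mem_filter, Finset.mem_range] at ha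
        rw [Finset.mem_filter, Finset.mem_Icc]
        exact ⟨by omega, ha.2⟩
      · intro a _ b _ hab
        omega
      · intro b hb
        rw [Finset.mem_filter, Finset.mem_Icc] at hb
        refine ⟨b - 1, ?_, by omega⟩
        rw [Finset.mem_filter, Finset.mem_range]
        have : b - 1 + 1 = b := by omega
        rw [this]
        exact ⟨by omega, hb.2⟩
    rw [h3, Finset.card_filter]
    push_cast
    apply Finset.sum_le_sum
    intro q _
    split_ifs with h
    · exact_mod_cast rc_den_one (q + 1) h.1 h.2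
    · positivity
  have h3 : (X : ℝ) ≤ 8 * ((Finset.Icc 1 X).filter fun n => Odd n ∧ Squarefree n).card := by
    exact_mod_cast h1
  linarith

end Pool.Agent.RC

namespace Pool.Agent.RC

alias den := den_pr

end Pool.Agent.RC
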