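import Pool.Agent.Lib_helper39.RCA.KERN
/-!
# Block DER: termwise differentiation of the densities
-/

namespace Pool.Agent.RC

open Complex MeasureTheory Filter Topology
open scoped ContDiff

theorem rc_der_psi_abs (j : Fin 4) (n : ℕ) : |(psi j n : ℝ)| ≤ 1 := by
  have h4 : ∀ a : ZMod 4, |((ZMod.χ₄ a : ℤ) : ℝ)| ≤ 1 := by
    intro a
    have h : ∀ a : ZMod 4, |(ZMod.χ₄ a : ℤ)| ≤ 1 := by decide
    exact_mod_cast h a
  have h8 : ∀ a : ZMod 8, |((ZMod.χ₈ a : ℤ) : ℝ)| ≤ 1 := by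
    intro a
    have h : ∀ a : ZMod 8, |(ZMod.χ₈ a : ℤ)| ≤ 1 := by decide
    exact_mod_cast h a
  have h8' : ∀ a : ZMod 8, |((ZMod.χ₈' a : ℤ) : ℝ)| ≤ 1 := by
    intro a
    have h : ∀ a : ZMod 8, |(ZMod.χ₈' a : ℤ)| ≤ 1 := by decide
    exact_mod_cast h a
  unfold psi
  fin_cases j
  · simp
  · exact h4 _
  · exact h8 _
  · exact h8' _

theorem rc_der_rv_abs (j : Fin 4) (m n : ℕ) : |(rv j m n : ℝ)| ≤ 1 := by
  unfold rv
  rw [Int.cast_mul, abs_mul]
  have h1 : |((jacobiSym n m : ℤ) : ℝ)| ≤ 1 := by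
    rcases jacobiSym.trichotomy (n : ℤ) m with h | h | h <;> rw [h] <;> simp
  exact mul_le_one₀ (rc_der_psi_abs j n) (abs_nonneg _) h1

/-- the terms of `DD` -/
noncomputable def rc_der_g (f : ℝ → ℝ) (P : ℕ) (j : Fin 4) (m n : ℕ) (v : ℝ) : ℝ :=
  Real.exp (v / 2) * ((rv j m n : ℝ) * (if n.Coprime P then f (n * Real.exp v) else 0))

theorem rc_der_DD (f : ℝ → ℝ) (P : ℕ) (j : Fin 4) (m : ℕ) :
    DD f P j m = fun v => ∑' n : ℕ, rc_der_g f P j m n v := by
  funext v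
  unfold DD rc_der_g
  rw [tsum_mul_left]

theorem rc_der_summable {a : ℝ} (ha : 0 < a) (C : ℝ) :
    Summable fun n : ℕ => C / (1 + n * a) ^ 6 := by
  have h1 : Summable fun n : ℕ => ((n : ℝ) + 1) ^ (-2 : ℤ) := by
    have h2 := (summable_nat_add_iff 1).2 (Real.summable_one_div_nat_pow.2 (by norm_num : 1 < 2))
    refine h2.congr fun n => ?_
    push_cast
    rw [zpow_neg, one_div]
    norm_cast
  set b : ℝ := min 1 a with hb
  have hb0 : 0 < b := lt_min one_pos ha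
  have h3 : Summable fun n : ℕ => |C| * b ^ (-2 : ℤ) * ((n : ℝ) + 1) ^ (-2 : ℤ) := h1.mul_left _
  refine Summable.of_norm_bounded h3 fun n => ?_
  have hn : (0 : ℝ) ≤ n := Nat.cast_nonneg n
  have h4 : b * (n + 1) ≤ 1 + n * a := by
    have h5 : b ≤ 1 := min_le_left _ _
    have h6 : b ≤ a := min_le_right _ _
    nlinarith
  have h5 : (b * (n + 1)) ^ 2 ≤ (1 + n * a) ^ 6 := by
    have h6 : (b * ((n : ℝ) + 1)) ^ 2 ≤ (1 + n * a) ^ 2 := by
      exact pow_le_pow_left₀ (by positivity) h4 2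
    have h7 : (1 + n * a) ^ 2 ≤ (1 + n * a) ^ 6 := by
      refine pow_le_pow_right₀ ?_ (by norm_num)
      nlinarith [mul_nonneg hn ha.le]
    exact h6.trans h7
  rw [Real.norm_eq_abs, abs_div, abs_of_nonneg (by positivity : (0 : ℝ) ≤ (1 + n * a) ^ 6)]
  have h6 : |C| * b ^ (-2 : ℤ) * ((n : ℝ) + 1) ^ (-2 : ℤ) = |C| / (b * (n + 1)) ^ 2 := by
    rw [zpow_neg, zpow_neg, mul_pow]
    norm_cast
    field_simp
  rw [h6]
  exact div_le_div_of_nonneg_left (abs_nonneg _) (by positivity) h5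

theorem rc_der_g_le {f : ℝ → ℝ} {C : ℝ} (hC : ∀ y : ℝ, 0 ≤ y → |f y| ≤ C / (1 + y) ^ 6)
    (P : ℕ) (j : Fin 4) (m : ℕ) {u v : ℝ} (hv : v ∈ Set.Ioo (u - 1) (u + 1)) (n : ℕ) :
    ‖rc_der_g f P j m n v‖ ≤ (Real.exp ((u + 1) / 2) * C) / (1 + n * Real.exp (u - 1)) ^ 6 := by
  have hC0 : 0 ≤ C := by
    have h1 := (abs_nonneg _).trans (hC 0 le_rfl)
    simpa using h1
  have hn : (0 : ℝ) ≤ n := Nat.cast_nonneg n
  unfold rc_der_g
  rw [Real.norm_eq_abs, abs_mul, abs_mul, abs_of_pos (Real.exp_pos _), mul_div_assoc]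
  have h1 : Real.exp (v / 2) ≤ Real.exp ((u + 1) / 2) := Real.exp_le_exp.2 (by linarith [hv.2])
  have h2 : |(if n.Coprime P then f (n * Real.exp v) else 0)| ≤
      C / (1 + n * Real.exp (u - 1)) ^ 6 := by
    split_ifs with h
    · refine (hC _ (by positivity)).trans ?_
      refine div_le_div_of_nonneg_left hC0 (by positivity) ?_
      refine pow_le_pow_left₀ (by positivity) ?_ 6
      have h3 : Real.exp (u - 1) ≤ Real.exp v := Real.exp_le_exp.2 (by linarith [hv.1])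
      nlinarith
    · rw [abs_zero]
      positivity
  have h3 : |(rv j m n : ℝ)| * |(if n.Coprime P then f (n * Real.exp v) else 0)| ≤
      C / (1 + n * Real.exp (u - 1)) ^ 6 := by
    calc _ ≤ 1 * (C / (1 + n * Real.exp (u - 1)) ^ 6) :=
        mul_le_mul (rc_der_rv_abs j m n) h2 (abs_nonneg _) zero_le_one
      _ = _ := one_mul _
  exact mul_le_mul h1 h3 (by positivity) (Real.exp_pos _).le

theorem rc_der_aux {g f : ℝ → ℝ} (hg : Dec g) (hf : Dec f)
    (h : ∀ y, f y = g y / 2 + y * deriv g y) (P : ℕ) (j : Fin 4) (m : ℕ) (u : ℝ) :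
    HasDerivAt (DD g P j m) (DD f P j m u) u := by
  obtain ⟨Cg, hCg⟩ := hg.bd
  obtain ⟨Cf, hCf⟩ := hf.bd
  rw [rc_der_DD, rc_der_DD]
  have hgd : Differentiable ℝ g := hg.smooth.differentiable one_ne_zero
  have hu : u ∈ Set.Ioo (u - 1) (u + 1) := ⟨by linarith, by linarith⟩
  refine hasDerivAt_tsum_of_isPreconnected
    (u := fun n : ℕ => (Real.exp ((u + 1) / 2) * Cf) / (1 + n * Real.exp (u - 1)) ^ 6)
    (rc_der_summable (Real.exp_pos _) _) isOpen_Ioo isPreconnected_Ioo ?_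
    (fun n v hv => rc_der_g_le (fun y hy => (hCf y hy).1) P j m hv n) hu ?_ hu
  · intro n v _
    unfold rc_der_g
    have h1 : HasDerivAt (fun v : ℝ => Real.exp (v / 2)) (Real.exp (v / 2) * (1 / 2)) v :=
      ((hasDerivAt_id v).div_const 2).exp
    split_ifs with hn
    · have h2 : HasDerivAt (fun v : ℝ => g (n * Real.exp v))
          (deriv g (n * Real.exp v) * (n * Real.exp v)) v :=
        (hgd _).hasDerivAt.comp v ((Real.hasDerivAt_exp v).const_mul (n : ℝ))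
      refine (h1.mul (h2.const_mul (rv j m n : ℝ))).congr_deriv ?_
      rw [h (n * Real.exp v)]
      ring
    · refine (h1.mul (hasDerivAt_const v ((rv j m n : ℝ) * 0))).congr_deriv ?_
      ring
  · exact Summable.of_norm_bounded (rc_der_summable (Real.exp_pos (u - 1)) _)
      (fun n => rc_der_g_le (fun y hy => (hCg y hy).1) P j m hu n)

theorem rc_der_cont {f : ℝ → ℝ} (hf : Dec f) (P : ℕ) (j : Fin 4) (m : ℕ) (u : ℝ) :
    ContinuousAt (DD f P j m) u := by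
  obtain ⟨Cf, hCf⟩ := hf.bd
  rw [rc_der_DD]
  have hu : u ∈ Set.Ioo (u - 1) (u + 1) := ⟨by linarith, by linarith⟩
  have h1 : ContinuousOn (fun v => ∑' n : ℕ, rc_der_g f P j m n v) (Set.Ioo (u - 1) (u + 1)) := by
    refine continuousOn_tsum (fun n => ?_) (rc_der_summable (Real.exp_pos (u - 1))
      (Real.exp ((u + 1) / 2) * Cf)) (fun n v hv => rc_der_g_le (fun y hy => (hCf y hy).1) P j m hv n)
    unfold rc_der_g
    have hfc : Continuous f := hf.smooth.continuous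
    split_ifs with hn
    · exact Continuous.continuousOn (by fun_prop)
    · exact Continuous.continuousOn (by fun_prop)
  exact h1.continuousAt (isOpen_Ioo.mem_nhds hu)

theorem der_pr {κ : ℕ} (hκ : κ ≤ 1) (P : ℕ) (j : Fin 4) (m : ℕ) (u : ℝ) :
    HasDerivAt (DD (f0 κ) P j m) (DD (f1 κ) P j m u) u ∧
    HasDerivAt (DD (f1 κ) P j m) (DD (f2 κ) P j m u) u ∧
    ContinuousAt (DD (f2 κ) P j m) u :=
  ⟨rc_der_aux (dec_f0_pr hκ) (ker_f1_pr hκ).toDec (rc_kern_f1_eq hκ) P j m u,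
    rc_der_aux (ker_f1_pr hκ).toDec (ker_f2_pr hκ).toDec (rc_kern_f2_eq hκ) P j m u,
    rc_der_cont (ker_f2_pr hκ).toDec P j m u⟩

end Pool.Agent.RC

namespace Pool.Agent.RC

alias der := der_pr

end Pool.Agent.RC
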