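import Pool.Agent.Lib_helper39.RCA.DLIM
import Pool.Agent.Lib_helper39.RCA.SB
namespace Pool.Agent.RC

open Complex MeasureTheory Filter Topology

theorem rc_diag_tele {x : ℝ} (hx : 0 < x) :
    Summable (fun n : ℕ => 1 / (1 + ((n : ℝ) + 1) * x) ^ 2) ∧
      ∑' n : ℕ, 1 / (1 + ((n : ℝ) + 1) * x) ^ 2 ≤ 1 / x := by
  have h1 : ∀ N : ℕ, ∑ n ∈ Finset.range N, 1 / (1 + ((n : ℝ) + 1) * x) ^ 2 ≤
      1 / x * (1 - 1 / (1 + N * x)) := by
    intro N
    induction N with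
    | zero => simp
    | succ N ih =>
      rw [Finset.sum_range_succ]
      have h2 : 1 / (1 + ((N : ℝ) + 1) * x) ^ 2 ≤
          1 / x * (1 / (1 + N * x) - 1 / (1 + (N + 1) * x)) := by
        have e1 : 0 < 1 + (N : ℝ) * x := by positivity
        have e2 : 0 < 1 + ((N : ℝ) + 1) * x := by positivity
        rw [div_sub_div _ _ e1.ne' e2.ne', div_mul_div_comm, div_le_div_iff₀ (by positivity)
          (by positivity)]
        have e3 : 0 ≤ x * (1 + ((N : ℝ) + 1) * x) * x := by positivity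
        nlinarith
      push_cast
      calc _ ≤ 1 / x * (1 - 1 / (1 + N * x)) + 1 / x * (1 / (1 + N * x) - 1 / (1 + (N + 1) * x)) :=
            add_le_add ih h2
        _ = _ := by ring
  have h2 : ∀ N : ℕ, ∑ n ∈ Finset.range N, 1 / (1 + ((n : ℝ) + 1) * x) ^ 2 ≤ 1 / x := by
    intro N
    refine (h1 N).trans ?_
    have : 0 ≤ 1 / (1 + (N : ℝ) * x) := by positivity
    have h3 : 0 < 1 / x := by positivity
    nlinarith
  exact ⟨summable_of_sum_range_le (fun n => by positivity) h2,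
    Real.tsum_le_of_sum_range_le (fun n => by positivity) h2⟩

theorem rc_diag_QV (b : ℕ → ℂ) (hb : Summable fun n => ‖b n‖) (m : ℕ) :
    ((QV b m : ℝ) : ℂ) = ∑' p : ℕ × ℕ,
      (open Classical in if 0 < p.1 ∧ 0 < p.2 ∧ IsSquare (p.1 * p.2) ∧ p.1.Coprime m ∧
        p.2.Coprime m then b p.1 * (starRingEnd ℂ) (b p.2) else 0) := by
  classical
  have h1 : ∀ k, ((‖∑' n, rc_dlim_g b m k n‖ : ℝ) : ℂ) ^ 2 =
      ∑' p : ℕ × ℕ, rc_dlim_g b m k p.1 * (starRingEnd ℂ) (rc_dlim_g b m k p.2) := by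
    intro k
    have hs := rc_dlim_summ_g b hb m k
    rw [← Complex.mul_conj']
    have e1 : (starRingEnd ℂ) (∑' n, rc_dlim_g b m k n) =
        ∑' n, (starRingEnd ℂ) (rc_dlim_g b m k n) := Complex.conj_tsum _
    rw [e1]
    exact tsum_mul_tsum_of_summable_norm hs (by simpa using hs)
  have hval : ∀ p : ℕ × ℕ, ∀ k, k ≠ rc_dlim_core p.1 →
      rc_dlim_g b m k p.1 * (starRingEnd ℂ) (rc_dlim_g b m k p.2) = 0 := by
    intro p k hk
    simp [rc_dlim_g, Ne.symm hk]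
  have hle : ∀ k n, ‖rc_dlim_g b m k n‖ ≤ ‖b n‖ := by
    intro k n
    simp only [rc_dlim_g]
    split_ifs
    · exact le_rfl
    · simp
  have hbb : Summable (fun p : ℕ × ℕ => ‖b p.1‖ * ‖b p.2‖) :=
    hb.mul_of_nonneg hb (fun _ => norm_nonneg _) (fun _ => norm_nonneg _)
  have hS1 : Summable (fun q : (ℕ × ℕ) × ℕ =>
      ‖rc_dlim_g b m q.2 q.1.1 * (starRingEnd ℂ) (rc_dlim_g b m q.2 q.1.2)‖) := by
    rw [summable_prod_of_nonneg (fun p => norm_nonneg _)]
    constructor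
    · intro p
      apply summable_of_ne_finset_zero (s := {rc_dlim_core p.1})
      intro k hk
      simp only [Finset.mem_singleton] at hk
      simp only
      rw [hval p k hk, norm_zero]
    · refine Summable.of_nonneg_of_le (fun p => tsum_nonneg fun k => norm_nonneg _) (fun p => ?_)
        hbb
      rw [tsum_eq_single (rc_dlim_core p.1) (by
        intro k hk
        simp only
        rw [hval p k hk, norm_zero])]
      rw [norm_mul, RCLike.norm_conj]
      exact mul_le_mul (hle _ _) (hle _ _) (norm_nonneg _) (norm_nonneg _)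
  have hS2 : Summable (fun q : (ℕ × ℕ) × ℕ =>
      rc_dlim_g b m q.2 q.1.1 * (starRingEnd ℂ) (rc_dlim_g b m q.2 q.1.2)) := hS1.of_norm
  have hS3 : Summable (fun q : ℕ × (ℕ × ℕ) =>
      rc_dlim_g b m q.1 q.2.1 * (starRingEnd ℂ) (rc_dlim_g b m q.1 q.2.2)) := hS2.prod_symm
  rw [rc_dlim_QV]
  push_cast
  simp only [h1]
  rw [← hS3.tsum_prod]
  have h3 : ∑' q : ℕ × (ℕ × ℕ),
      rc_dlim_g b m q.1 q.2.1 * (starRingEnd ℂ) (rc_dlim_g b m q.1 q.2.2) =
      ∑' q : (ℕ × ℕ) × ℕ, rc_dlim_g b m q.2 q.1.1 * (starRingEnd ℂ) (rc_dlim_g b m q.2 q.1.2) :=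
    ((Equiv.prodComm ℕ (ℕ × ℕ)).tsum_eq (fun q : (ℕ × ℕ) × ℕ =>
      rc_dlim_g b m q.2 q.1.1 * (starRingEnd ℂ) (rc_dlim_g b m q.2 q.1.2)))
  rw [h3, hS2.tsum_prod]
  apply tsum_congr
  rintro ⟨n, n'⟩
  rw [tsum_eq_single (rc_dlim_core n) (fun k hk => hval (n, n') k hk)]
  simp only [rc_dlim_g]
  by_cases h0 : 0 < n ∧ n.Coprime m ∧ 0 < n' ∧ n'.Coprime m
  · obtain ⟨h0, h2, h3, h4⟩ := h0
    have e2 : (n.Coprime m) = True := eq_true h2
    have e4 : (n'.Coprime m) = True := eq_true h4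
    simp only [h0, e2, h3, e4, true_and, and_true, rc_dlim_sq_iff h0 h3, if_true]
    by_cases h5 : rc_dlim_core n' = rc_dlim_core n
    · simp [h5]
    · have h6 : ¬ rc_dlim_core n = rc_dlim_core n' := fun h => h5 h.symm
      simp [h5, h6]
  · have h5 : ¬ (0 < n ∧ 0 < n' ∧ IsSquare (n * n') ∧ n.Coprime m ∧ n'.Coprime m) := by tauto
    rw [if_neg h5]
    by_cases h6 : 0 < n ∧ n.Coprime m
    · have h7 : ¬ (0 < n' ∧ rc_dlim_core n' = rc_dlim_core n ∧ n'.Coprime m) := by tauto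
      rw [if_neg h7]; simp
    · have h7 : ¬ (0 < n ∧ True ∧ n.Coprime m) := by tauto
      rw [if_neg h7]; simp

theorem rc_diag_moebius {M a : ℕ} (hM : 0 < M) :
    (if a.Coprime M then (1 : ℝ) else 0) =
      ∑ d ∈ M.divisors, (if d ∣ a then (ArithmeticFunction.moebius d : ℝ) else 0) := by
  have h1 : ∑ d ∈ (a.gcd M).divisors, ArithmeticFunction.moebius d =
      if a.gcd M = 1 then (1 : ℤ) else 0 := by
    have h2 := ArithmeticFunction.coe_zeta_mul_moebius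
    have h3 := congrArg (fun F => F (a.gcd M)) h2
    simp only [ArithmeticFunction.coe_zeta_mul_apply, ArithmeticFunction.one_apply] at h3
    exact h3
  have h4 : (a.gcd M).divisors = M.divisors.filter (fun d => d ∣ a) := by
    ext d
    simp only [Nat.mem_divisors, Finset.mem_filter, Nat.dvd_gcd_iff]
    constructor
    · rintro ⟨⟨h1, h2⟩, h3⟩; exact ⟨⟨h2, hM.ne'⟩, h1⟩
    · rintro ⟨⟨h1, h2⟩, h3⟩
      exact ⟨⟨h3, h1⟩, (Nat.gcd_pos_of_pos_right _ hM).ne'⟩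
  rw [h4, Finset.sum_filter] at h1
  have h5 : ∑ d ∈ M.divisors, (if d ∣ a then (ArithmeticFunction.moebius d : ℝ) else 0) =
      if a.gcd M = 1 then (1 : ℝ) else 0 := by exact_mod_cast h1
  rw [h5]

theorem rc_diag_bd {f : ℝ → ℝ} (hf : Ker f) : ∃ C : ℝ, 0 ≤ C ∧ ∀ y : ℝ, 0 ≤ y →
    |f y| ≤ C * (1 / (1 + y) ^ 2) := by
  obtain ⟨C, hC⟩ := hf.bd
  have hC0 : 0 ≤ C := by
    have := (abs_nonneg _).trans (hC 0 le_rfl).1
    simpa using this
  refine ⟨C, hC0, fun y hy => (hC y hy).1.trans ?_⟩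
  rw [div_eq_mul_one_div]
  apply mul_le_mul_of_nonneg_left _ hC0
  apply one_div_le_one_div_of_le (by positivity)
  exact pow_le_pow_right₀ (by linarith) (by norm_num)

theorem rc_diag_S {f : ℝ → ℝ} (hf : Ker f) {k d : ℕ} (hk : 0 < k) (hd : 0 < d) {δ : ℝ}
    (hδ : 0 < δ) :
    Summable (fun a : ℕ => if 0 < a ∧ d ∣ a then f ((k * a ^ 2 : ℕ) * δ) else 0) ∧
    ∑' a : ℕ, (if 0 < a ∧ d ∣ a then f ((k * a ^ 2 : ℕ) * δ) else 0) =
      ∑' a : ℕ, f (((a : ℝ) + 1) ^ 2 * (k * d ^ 2 * δ)) := by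
  obtain ⟨C, hC0, hC⟩ := rc_diag_bd hf
  constructor
  · rw [← summable_nat_add_iff 1]
    refine Summable.of_norm_bounded (g := fun n : ℕ => C * (1 / (1 + ((n : ℝ) + 1) * δ) ^ 2))
      ((rc_diag_tele hδ).1.mul_left C) (fun n => ?_)
    split_ifs with h
    · rw [Real.norm_eq_abs]
      refine (hC _ (by positivity)).trans ?_
      apply mul_le_mul_of_nonneg_left _ hC0
      apply one_div_le_one_div_of_le (by positivity)
      apply pow_le_pow_left₀ (by positivity)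
      have h1 : (n : ℝ) + 1 ≤ ((k * (n + 1) ^ 2 : ℕ) : ℝ) := by
        have : n + 1 ≤ k * (n + 1) ^ 2 := by nlinarith
        exact_mod_cast this
      have := mul_le_mul_of_nonneg_right h1 hδ.le
      linarith
    · rw [norm_zero]; positivity
  · have hinj : Function.Injective (fun a : ℕ => d * (a + 1)) := by
      intro a a' h
      simp only at h
      have := Nat.eq_of_mul_eq_mul_left hd h
      omega
    rw [← hinj.tsum_eq]
    · apply tsum_congr
      intro a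
      rw [if_pos ⟨by positivity, Dvd.intro _ rfl⟩]
      congr 1
      push_cast; ring
    · intro a ha
      simp only [Function.mem_support, ne_eq, ite_eq_right_iff, not_forall] at ha
      obtain ⟨⟨h0, c, hc⟩, -⟩ := ha
      have hc0 : 0 < c := by
        rcases Nat.eq_zero_or_pos c with h | h
        · rw [hc, h] at h0; simp at h0
        · exact h
      exact ⟨c - 1, by simp only; rw [hc]; congr 1; omega⟩

theorem rc_diag_A {f : ℝ → ℝ} (hf : Ker f) {k M : ℕ} (hk : 0 < k) (hM : 0 < M) {δ : ℝ}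
    (hδ : 0 < δ) :
    ∑' a : ℕ, (if 0 < a ∧ a.Coprime M then f ((k * a ^ 2 : ℕ) * δ) else 0) =
      ∑ d ∈ M.divisors, (ArithmeticFunction.moebius d : ℝ) *
        ∑' a : ℕ, f (((a : ℝ) + 1) ^ 2 * (k * d ^ 2 * δ)) := by
  have h1 : ∀ a : ℕ, (if 0 < a ∧ a.Coprime M then f ((k * a ^ 2 : ℕ) * δ) else 0) =
      ∑ d ∈ M.divisors, (ArithmeticFunction.moebius d : ℝ) *
        (if 0 < a ∧ d ∣ a then f ((k * a ^ 2 : ℕ) * δ) else 0) := by
    intro a
    rcases Nat.eq_zero_or_pos a with h | h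
    · subst h; simp
    · have e1 : (if 0 < a ∧ a.Coprime M then f ((k * a ^ 2 : ℕ) * δ) else 0) =
        (if a.Coprime M then (1 : ℝ) else 0) * f ((k * a ^ 2 : ℕ) * δ) := by
        by_cases hc : a.Coprime M
        · rw [if_pos ⟨h, hc⟩, if_pos hc, one_mul]
        · rw [if_neg (fun h' => hc h'.2), if_neg hc, zero_mul]
      rw [e1, rc_diag_moebius hM, Finset.sum_mul]
      apply Finset.sum_congr rfl
      intro d _
      by_cases hd : d ∣ a
      · simp [hd, h]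
      · simp [hd]
  rw [tsum_congr h1, Summable.tsum_finsetSum]
  · apply Finset.sum_congr rfl
    intro d hd
    rw [tsum_mul_left, (rc_diag_S hf hk (Nat.pos_of_mem_divisors hd) hδ).2]
  · intro d hd
    exact (rc_diag_S hf hk (Nat.pos_of_mem_divisors hd) hδ).1.mul_left _

theorem diag_pr {f : ℝ → ℝ} (hf : Ker f) : ∃ C : ℝ, 0 < C ∧ ∀ (M : ℕ) (δ : ℝ), 0 < M → 0 < δ →
    |∑' p : ℕ × ℕ, (if 0 < p.1 ∧ 0 < p.2 ∧ IsSquare (p.1 * p.2) ∧ (p.1 * p.2).Coprime M then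
      f (p.1 * δ) * f (p.2 * δ) else 0)| ≤ C * (∑ d ∈ M.divisors, 1 / (d : ℝ)) ^ 2 / δ := by
  obtain ⟨C, hC0, hC⟩ := sb hf
  obtain ⟨C1, hC10, hC1⟩ := rc_diag_bd hf
  refine ⟨C ^ 2, by positivity, fun M δ hM hδ => ?_⟩
  set b : ℕ → ℂ := fun n => ((f (n * δ) : ℝ) : ℂ) with hb
  have hbs : Summable fun n => ‖b n‖ := by
    rw [← summable_nat_add_iff 1]
    refine Summable.of_nonneg_of_le (fun n => norm_nonneg _) (fun n => ?_)
      ((rc_diag_tele hδ).1.mul_left C1)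
    simp only [hb, Complex.norm_real, Real.norm_eq_abs]
    have := hC1 (((n + 1 : ℕ) : ℝ) * δ) (by positivity)
    push_cast at this ⊢
    exact this
  have hD : ∑' p : ℕ × ℕ, (if 0 < p.1 ∧ 0 < p.2 ∧ IsSquare (p.1 * p.2) ∧
      (p.1 * p.2).Coprime M then f (p.1 * δ) * f (p.2 * δ) else 0) = QV b M := by
    have h1 := rc_diag_QV b hbs M
    apply Complex.ofReal_injective
    rw [h1, Complex.ofReal_tsum]
    apply tsum_congr
    rintro ⟨n, n'⟩
    simp only [Nat.coprime_mul_iff_left, hb, Complex.conj_ofReal]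
    split_ifs <;> simp
  have hQ0 : 0 ≤ QV b M := by
    unfold QV
    apply tsum_nonneg
    intro k
    split_ifs <;> positivity
  rw [hD, abs_of_nonneg hQ0]
  set σ := ∑ d ∈ M.divisors, 1 / (d : ℝ) with hσ
  have hσ0 : 0 ≤ σ := Finset.sum_nonneg fun d _ => by positivity
  -- the bound for each k
  have hk : ∀ k : ℕ, (if Squarefree (k + 1) ∧ (k + 1).Coprime M then ‖sq b M (k + 1)‖ ^ 2 else 0) ≤
      ∑ d ∈ M.divisors, σ * (d * C ^ 2) *
        (1 / (1 + ((k : ℝ) + 1) * ((d : ℝ) ^ 2 * δ)) ^ 2) := by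
    intro k
    split_ifs with h
    · have h1 : sq b M (k + 1) = ((∑' a : ℕ, (if 0 < a ∧ a.Coprime M then
          f (((k + 1) * a ^ 2 : ℕ) * δ) else 0) : ℝ) : ℂ) := by
        unfold sq
        rw [Complex.ofReal_tsum]
        apply tsum_congr
        intro a
        simp only [hb]
        split_ifs <;> simp
      rw [h1, Complex.norm_real, Real.norm_eq_abs, sq_abs, rc_diag_A hf (Nat.succ_pos k) hM hδ]
      have h2 : |∑ d ∈ M.divisors, (ArithmeticFunction.moebius d : ℝ) *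
          ∑' a : ℕ, f (((a : ℝ) + 1) ^ 2 * ((k + 1 : ℕ) * (d : ℝ) ^ 2 * δ))| ≤
          ∑ d ∈ M.divisors, C / (1 + ((k : ℝ) + 1) * ((d : ℝ) ^ 2 * δ)) := by
        refine (Finset.abs_sum_le_sum_abs _ _).trans (Finset.sum_le_sum fun d hd => ?_)
        have hd0 : 0 < d := Nat.pos_of_mem_divisors hd
        rw [abs_mul]
        have h3 : |(ArithmeticFunction.moebius d : ℝ)| ≤ 1 := by
          exact_mod_cast ArithmeticFunction.abs_moebius_le_one
        have h4 := hC ((k + 1 : ℕ) * (d : ℝ) ^ 2 * δ) (by positivity)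
        calc _ ≤ 1 * (C / (1 + (k + 1 : ℕ) * (d : ℝ) ^ 2 * δ)) :=
              mul_le_mul h3 h4 (abs_nonneg _) zero_le_one
          _ = _ := by push_cast; ring
      have h5 : (∑ d ∈ M.divisors, (ArithmeticFunction.moebius d : ℝ) *
          ∑' a : ℕ, f (((a : ℝ) + 1) ^ 2 * ((k + 1 : ℕ) * (d : ℝ) ^ 2 * δ))) ^ 2 ≤
          (∑ d ∈ M.divisors, C / (1 + ((k : ℝ) + 1) * ((d : ℝ) ^ 2 * δ))) ^ 2 := by
        rw [← sq_abs]
        exact pow_le_pow_left₀ (abs_nonneg _) h2 2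
      refine h5.trans ?_
      have h6 : ∀ d ∈ M.divisors, C / (1 + ((k : ℝ) + 1) * ((d : ℝ) ^ 2 * δ)) =
          (1 / √(d : ℝ)) * (√(d : ℝ) * (C / (1 + ((k : ℝ) + 1) * ((d : ℝ) ^ 2 * δ)))) := by
        intro d hd
        have hd0 : (0 : ℝ) < d := by exact_mod_cast Nat.pos_of_mem_divisors hd
        have : √(d : ℝ) ≠ 0 := (Real.sqrt_pos.mpr hd0).ne'
        field_simp
      rw [Finset.sum_congr rfl h6]
      refine (Finset.sum_mul_sq_le_sq_mul_sq _ _ _).trans ?_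
      have h7 : ∑ d ∈ M.divisors, (1 / √(d : ℝ)) ^ 2 = σ := by
        apply Finset.sum_congr rfl
        intro d hd
        rw [div_pow, Real.sq_sqrt (by positivity), one_pow]
      rw [h7, Finset.mul_sum]
      apply le_of_eq
      apply Finset.sum_congr rfl
      intro d hd
      rw [mul_pow, Real.sq_sqrt (by positivity), div_pow]
      ring
    · exact Finset.sum_nonneg fun d _ => by positivity
  have hsd : ∀ d ∈ M.divisors, Summable (fun k : ℕ => σ * (d * C ^ 2) *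
        (1 / (1 + ((k : ℝ) + 1) * ((d : ℝ) ^ 2 * δ)) ^ 2)) ∧
      ∑' k : ℕ, σ * (d * C ^ 2) * (1 / (1 + ((k : ℝ) + 1) * ((d : ℝ) ^ 2 * δ)) ^ 2) ≤
        C ^ 2 / δ * σ * (1 / d) := by
    intro d hd
    have hd0 : (0 : ℝ) < d := by exact_mod_cast Nat.pos_of_mem_divisors hd
    have h1 := rc_diag_tele (show 0 < (d : ℝ) ^ 2 * δ by positivity)
    refine ⟨h1.1.mul_left _, ?_⟩
    rw [tsum_mul_left]
    calc _ ≤ σ * (d * C ^ 2) * (1 / ((d : ℝ) ^ 2 * δ)) :=
          mul_le_mul_of_nonneg_left h1.2 (by positivity)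
      _ = _ := by field_simp
  have hs1 : Summable (fun k : ℕ => ∑ d ∈ M.divisors, σ * (d * C ^ 2) *
        (1 / (1 + ((k : ℝ) + 1) * ((d : ℝ) ^ 2 * δ)) ^ 2)) :=
    summable_sum fun d hd => (hsd d hd).1
  have hs2 : Summable (fun k : ℕ => (if Squarefree (k + 1) ∧ (k + 1).Coprime M then
      ‖sq b M (k + 1)‖ ^ 2 else 0)) :=
    Summable.of_nonneg_of_le (fun k => by split_ifs <;> positivity) hk hs1
  have hs3 : Summable (fun k : ℕ => (if Squarefree k ∧ k.Coprime M then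
      ‖sq b M k‖ ^ 2 else 0)) := (summable_nat_add_iff 1).mp hs2
  unfold QV
  rw [hs3.tsum_eq_zero_add]
  have h0 : (if Squarefree 0 ∧ (0 : ℕ).Coprime M then ‖sq b M 0‖ ^ 2 else 0) = 0 := by
    rw [if_neg]; simp
  rw [h0, zero_add]
  calc _ ≤ ∑' k : ℕ, ∑ d ∈ M.divisors, σ * (d * C ^ 2) *
        (1 / (1 + ((k : ℝ) + 1) * ((d : ℝ) ^ 2 * δ)) ^ 2) := hs2.tsum_le_tsum hk hs1
    _ = ∑ d ∈ M.divisors, ∑' k : ℕ, σ * (d * C ^ 2) *
        (1 / (1 + ((k : ℝ) + 1) * ((d : ℝ) ^ 2 * δ)) ^ 2) :=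
        Summable.tsum_finsetSum fun d hd => (hsd d hd).1
    _ ≤ ∑ d ∈ M.divisors, C ^ 2 / δ * σ * (1 / d) := Finset.sum_le_sum fun d hd => (hsd d hd).2
    _ = _ := by rw [← Finset.mul_sum]; ring

end Pool.Agent.RC

namespace Pool.Agent.RC

alias diag := diag_pr

end Pool.Agent.RC
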