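import Pool.Agent.Lib_helper39.RCA.OFF
namespace Pool.Agent.RC

open Complex MeasureTheory Filter Topology

lemma rc_limc_u {N R : ℕ} (hN : ¬ IsSquare N) (hodd : Odd N) (hNR : N.Coprime R) :
    ∃ u : ℕ, u ≡ 1 [MOD R] ∧ jacobiSym (u : ℤ) N = -1 := by
  obtain ⟨p, v, M, hp, hv, hpM, rfl⟩ := rc_off_val hN
  have hM0 : M ≠ 0 := by rintro rfl; exact hpM (dvd_zero _)
  have hp2 : p ≠ 2 := by
    rintro rfl
    have h1 := (Nat.odd_mul.1 hodd).1
    rw [Nat.odd_pow_iff hv.pos.ne'] at h1
    exact absurd h1 (by decide)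
  haveI : Fact p.Prime := ⟨hp⟩
  obtain ⟨a, ha⟩ := rc_off_nonres p hp2
  have hpR : Nat.Coprime p R := by
    apply Nat.Coprime.coprime_dvd_left _ hNR
    exact (dvd_pow_self p hv.pos.ne').mul_right M
  have hco : Nat.Coprime (R * M) p :=
    Nat.Coprime.mul_left hpR.symm ((Nat.Prime.coprime_iff_not_dvd hp).2 hpM).symm
  obtain ⟨u, h1, h2⟩ := Nat.chineseRemainder hco 1 a
  refine ⟨u, h1.of_mul_right M, ?_⟩
  rw [jacobiSym.mul_right' _ (pow_ne_zero _ hp.pos.ne') hM0, jacobiSym.pow_right]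
  have e1 : jacobiSym (u : ℤ) p = jacobiSym a p := by
    apply jacobiSym.mod_left'
    exact_mod_cast h2
  have e2 : jacobiSym (u : ℤ) M = jacobiSym 1 M := by
    apply jacobiSym.mod_left'
    have := h1.of_mul_left R
    exact_mod_cast this
  rw [e1, e2, ha, jacobiSym.one_left, hv.neg_one_pow]
  norm_num

lemma rc_limc_block (f : ℕ → ℝ) (P : ℕ) (hper : ∀ n, f (n + P) = f n)
    (h0 : ∑ n ∈ Finset.range P, f n = 0) (a : ℕ) : ∑ i ∈ Finset.range P, f (a + i) = 0 := by
  induction a with
  | zero => simpa using h0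
  | succ a ih =>
    have h1 := Finset.sum_range_succ (fun i => f (a + i)) P
    have h2 := Finset.sum_range_succ' (fun i => f (a + i)) P
    rw [h1, ih, hper] at h2
    simp only [add_zero, zero_add] at h2
    have h3 : ∑ i ∈ Finset.range P, f (a + (i + 1)) = 0 := by linarith
    rw [← h3]
    apply Finset.sum_congr rfl
    intro i _
    congr 1
    ring

lemma rc_limc_bound (f : ℕ → ℝ) (P : ℕ) (hP : 0 < P) (hper : ∀ n, f (n + P) = f n)
    (h0 : ∑ n ∈ Finset.range P, f n = 0) (h1 : ∀ n, |f n| ≤ 1) (n : ℕ) :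
    ∀ a : ℕ, |∑ i ∈ Finset.range n, f (a + i)| ≤ P := by
  induction n using Nat.strong_induction_on with
  | _ n ih =>
    intro a
    by_cases hn : n ≤ P
    · refine (Finset.abs_sum_le_sum_abs _ _).trans ?_
      refine (Finset.sum_le_sum fun i _ => h1 (a + i)).trans ?_
      simp only [Finset.sum_const, Finset.card_range, nsmul_eq_mul, mul_one]
      exact_mod_cast hn
    · push Not at hn
      obtain ⟨k, rfl⟩ := Nat.exists_eq_add_of_le hn.le
      rw [Finset.sum_range_add, rc_limc_block f P hper h0, zero_add]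
      have := ih k (by omega) (a + P)
      simpa [add_assoc] using this

lemma rc_limc_eps (R N c K : ℕ) (hR : 8 ∣ R) (hc : Odd c) (hN : Odd N) :
    ∃ ε : ℤ, (ε = 1 ∨ ε = -1) ∧ ∀ m ∈ cls R c K, jacobiSym (N : ℤ) m = ε * jacobiSym m N := by
  have hm4 : ∀ m ∈ cls R c K, m % 4 = c % 4 := by
    intro m hm
    have h1 : m % R = c % R := (Finset.mem_filter.1 hm).2
    have h2 : (4 : ℕ) ∣ R := dvd_trans (by norm_num) hR
    have h3 : m ≡ c [MOD 4] := Nat.ModEq.of_dvd h2 h1
    exact h3
  have hc2 := Nat.odd_iff.1 hc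
  have hN2 := Nat.odd_iff.1 hN
  rcases (by omega : N % 4 = 1 ∨ N % 4 = 3) with h | h
  · refine ⟨1, Or.inl rfl, fun m hm => ?_⟩
    have h4 := hm4 m hm
    rw [one_mul, jacobiSym.quadratic_reciprocity_one_mod_four h (by rw [Nat.odd_iff]; omega)]
  · rcases (by omega : c % 4 = 1 ∨ c % 4 = 3) with h' | h'
    · refine ⟨1, Or.inl rfl, fun m hm => ?_⟩
      have h4 := hm4 m hm
      rw [one_mul, jacobiSym.quadratic_reciprocity_one_mod_four' hN (by omega)]
    · refine ⟨-1, Or.inr rfl, fun m hm => ?_⟩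
      have h4 := hm4 m hm
      rw [neg_one_mul, jacobiSym.quadratic_reciprocity_three_mod_four h (by omega)]

theorem limc_pr (R N c K : ℕ) (hR : 8 ∣ R) (hR0 : 0 < R) (hc : Odd c) (hN : N.Coprime R)
    (hsq : ¬ IsSquare N) : |∑ m ∈ cls R c K, (jacobiSym (N : ℤ) m : ℝ)| ≤ R * N := by
  have hN0 : 0 < N := by
    rcases Nat.eq_zero_or_pos N with rfl | h
    · exact absurd ⟨0, rfl⟩ hsq
    · exact h
  have hodd : Odd N := by
    have : Nat.Coprime N 2 := Nat.Coprime.coprime_dvd_right (dvd_trans (by norm_num) hR) hN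
    exact Nat.coprime_two_right.1 this
  obtain ⟨ε, hε, he⟩ := rc_limc_eps R N c K hR hc hodd
  have h1 : ∑ m ∈ cls R c K, (jacobiSym (N : ℤ) m : ℝ) =
      ε * ∑ m ∈ cls R c K, (jacobiSym (m : ℤ) N : ℝ) := by
    rw [Finset.mul_sum]
    apply Finset.sum_congr rfl
    intro m hm
    rw [he m hm]; push_cast; ring
  have hε1 : |(ε : ℝ)| = 1 := by rcases hε with rfl | rfl <;> simp
  rw [h1, abs_mul, hε1, one_mul]
  set f : ℕ → ℝ := fun m => if m % R = c % R then (jacobiSym (m : ℤ) N : ℝ) else 0 with hf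
  have h2 : ∑ m ∈ cls R c K, (jacobiSym (m : ℤ) N : ℝ) = ∑ i ∈ Finset.range K, f (K + i) := by
    unfold cls
    rw [Finset.sum_filter, Finset.sum_Ico_eq_sum_range]
    have : 2 * K - K = K := by omega
    rw [this]
  have hper : ∀ n, f (n + R * N) = f n := by
    intro n
    simp only [hf, Nat.add_mul_mod_self_left]
    have : jacobiSym ((n + R * N : ℕ) : ℤ) N = jacobiSym (n : ℤ) N := by
      apply jacobiSym.mod_left'
      push_cast
      exact Int.add_mul_emod_self_right _ _ _
    rw [this]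
  have hle : ∀ n, |f n| ≤ 1 := by
    intro n
    simp only [hf]
    split_ifs
    · rcases jacobiSym.trichotomy (n : ℤ) N with h | h | h <;> rw [h] <;> simp
    · simp
  obtain ⟨u, hu1, hu2⟩ := rc_limc_u hsq hodd hN
  have hP : 0 < R * N := Nat.mul_pos hR0 hN0
  haveI : NeZero (R * N) := ⟨hP.ne'⟩
  have hmul : ∀ n, f (u * n) = - f n := by
    intro n
    have e1 : (u * n) % R = n % R := by
      have : u * n ≡ 1 * n [MOD R] := Nat.ModEq.mul_right n hu1
      rwa [one_mul] at this
    simp only [hf, e1]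
    push_cast
    rw [jacobiSym.mul_left, hu2]
    split_ifs
    · push_cast; ring
    · simp
  have hmod : ∀ n, f (n % (R * N)) = f n := by
    intro n
    have : Function.Periodic f (R * N) := hper
    exact this.map_mod_nat n
  have huc : Nat.Coprime u (R * N) := by
    apply Nat.Coprime.mul_right
    · have := Nat.ModEq.gcd_eq hu1
      rw [Nat.gcd_one_left] at this
      exact this
    · haveI : NeZero N := ⟨hN0.ne'⟩
      have h : jacobiSym (u : ℤ) N ≠ 0 := by rw [hu2]; norm_num
      rw [Ne, jacobiSym.eq_zero_iff_not_coprime, not_not] at h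
      exact h
  have h0 : ∑ n ∈ Finset.range (R * N), f n = 0 := by
    have e1 : ∑ n ∈ Finset.range (R * N), f n = ∑ x : ZMod (R * N), f x.val := by
      symm
      apply Finset.sum_bij (fun (x : ZMod (R * N)) _ => x.val)
      · intro x _; exact Finset.mem_range.2 (ZMod.val_lt x)
      · intro x _ y _ h; exact ZMod.val_injective _ h
      · intro n hn
        exact ⟨(n : ZMod (R * N)), Finset.mem_univ _, ZMod.val_cast_of_lt (Finset.mem_range.1 hn)⟩
      · intro x _; rfl
    have e2 : ∑ x : ZMod (R * N), f x.val = ∑ x : ZMod (R * N), - f x.val := by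
      rw [← Equiv.sum_comp (Units.mulLeft (ZMod.unitOfCoprime u huc)) (fun x => f x.val)]
      apply Finset.sum_congr rfl
      intro x _
      rw [Units.mulLeft_apply, ZMod.coe_unitOfCoprime, ZMod.val_mul, hmod, ZMod.val_natCast]
      have : u % (R * N) * x.val ≡ u * x.val [MOD (R * N)] :=
        Nat.ModEq.mul_right _ (Nat.mod_modEq _ _)
      have h3 : f (u % (R * N) * x.val) = f (u * x.val) := by
        rw [← hmod, this, hmod]
      rw [h3, hmul]
    rw [Finset.sum_neg_distrib] at e2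
    rw [e1]; linarith
  rw [h2]
  have := rc_limc_bound f (R * N) hP hper h0 hle K K
  exact_mod_cast this

end Pool.Agent.RC

namespace Pool.Agent.RC

alias limc := limc_pr

end Pool.Agent.RC
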