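import Pool.Agent.Lib_helper39.RC.Defs
import Pool.Agent.Lib_helper39.RCA.LIMC
namespace Pool.Agent.RC

open Complex MeasureTheory Filter Topology

/-! ### squarefree kernels -/

theorem rc_dlim_sqf {a b c : ℕ} (ha : Squarefree a) (hb : Squarefree b) (h : a * b = c * c) :
    a = b := by
  have ha0 : a ≠ 0 := ha.ne_zero
  have h1 : a ∣ c := by
    have : a ∣ c ^ 2 := ⟨b, by rw [pow_two, h]⟩
    exact (ha.dvd_pow_iff_dvd two_ne_zero).mp this
  obtain ⟨d, rfl⟩ := h1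
  have h2 : b = d * d * a := by
    have : a * b = a * (d * d * a) := by rw [h]; ring
    exact Nat.eq_of_mul_eq_mul_left (Nat.pos_of_ne_zero ha0) this
  have h3 : IsUnit d := by
    apply hb d
    rw [h2]; exact Dvd.intro _ rfl
  have h4 : d = 1 := Nat.isUnit_iff.mp h3
  rw [h2, h4]; simp

/-- The squarefree kernel. -/
noncomputable def rc_dlim_core (n : ℕ) : ℕ := (Nat.sq_mul_squarefree n).choose

theorem rc_dlim_core_sqf (n : ℕ) : Squarefree (rc_dlim_core n) :=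
  (Nat.sq_mul_squarefree n).choose_spec.choose_spec.2

theorem rc_dlim_core_eq (n : ℕ) : ∃ b : ℕ, b ^ 2 * rc_dlim_core n = n :=
  ⟨_, (Nat.sq_mul_squarefree n).choose_spec.choose_spec.1⟩

theorem rc_dlim_core_mul {k a : ℕ} (hk : Squarefree k) (ha : 0 < a) :
    rc_dlim_core (k * a ^ 2) = k := by
  obtain ⟨b, hb⟩ := rc_dlim_core_eq (k * a ^ 2)
  set c := rc_dlim_core (k * a ^ 2)
  have hc : Squarefree c := rc_dlim_core_sqf _
  have hb0 : 0 < b := by
    rcases Nat.eq_zero_or_pos b with h | h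
    · rw [h] at hb
      have := hk.ne_zero
      have : k * a ^ 2 ≠ 0 := by positivity
      simp at hb; omega
    · exact h
  -- c * k is a square: (b^2 c) * (k a^2) = (k a^2)^2
  have h1 : (b ^ 2 * a ^ 2) * (c * k) = (k * a ^ 2) ^ 2 := by
    rw [pow_two (k * a ^ 2)]; nth_rw 2 [← hb]; ring
  have h2 : IsSquare (c * k) := by
    have h3 : (b * a) ^ 2 ∣ (k * a ^ 2) ^ 2 := ⟨c * k, by rw [← h1]; ring⟩
    have h4 : b * a ∣ k * a ^ 2 := (Nat.pow_dvd_pow_iff two_ne_zero).mp h3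
    obtain ⟨d, hd⟩ := h4
    refine ⟨d, ?_⟩
    have : (b ^ 2 * a ^ 2) * (c * k) = (b ^ 2 * a ^ 2) * (d * d) := by rw [h1, hd]; ring
    exact Nat.eq_of_mul_eq_mul_left (by positivity) this
  obtain ⟨d, hd⟩ := h2
  exact rc_dlim_sqf hc hk hd

theorem rc_dlim_sq_iff {n n' : ℕ} (hn : 0 < n) (hn' : 0 < n') :
    IsSquare (n * n') ↔ rc_dlim_core n = rc_dlim_core n' := by
  obtain ⟨b, hb⟩ := rc_dlim_core_eq n
  obtain ⟨b', hb'⟩ := rc_dlim_core_eq n'
  constructor
  · rintro ⟨c, hc⟩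
    have hb0 : 0 < b := by
      rcases Nat.eq_zero_or_pos b with h | h
      · rw [h] at hb; simp at hb; omega
      · exact h
    have hb0' : 0 < b' := by
      rcases Nat.eq_zero_or_pos b' with h | h
      · rw [h] at hb'; simp at hb'; omega
      · exact h
    set k := rc_dlim_core n
    set k' := rc_dlim_core n'
    have h1 : (b * b') ^ 2 * (k * k') = c ^ 2 := by rw [pow_two c, ← hc, ← hb, ← hb']; ring
    have h2 : b * b' ∣ c := (Nat.pow_dvd_pow_iff two_ne_zero).mp ⟨k * k', h1.symm⟩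
    obtain ⟨d, rfl⟩ := h2
    have h3 : k * k' = d * d := by
      have : (b * b') ^ 2 * (k * k') = (b * b') ^ 2 * (d * d) := by rw [h1]; ring
      exact Nat.eq_of_mul_eq_mul_left (by positivity) this
    exact rc_dlim_sqf (rc_dlim_core_sqf n) (rc_dlim_core_sqf n') h3
  · intro h
    refine ⟨b * b' * rc_dlim_core n, ?_⟩
    nth_rw 1 [← hb]; nth_rw 1 [← hb']; rw [← h]; ring

/-! ### the form of `QV` -/

/-- The class of `k`. -/
noncomputable def rc_dlim_g (b : ℕ → ℂ) (m k n : ℕ) : ℂ :=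
  if 0 < n ∧ rc_dlim_core n = k ∧ n.Coprime m then b n else 0

theorem rc_dlim_sq (b : ℕ → ℂ) (m k : ℕ) (hk : Squarefree k) (hkm : k.Coprime m) :
    sq b m k = ∑' n, rc_dlim_g b m k n := by
  have hk0 : k ≠ 0 := hk.ne_zero
  have hinj : Function.Injective (fun a : ℕ => k * a ^ 2) := by
    intro a a' h
    simp only at h
    have := Nat.eq_of_mul_eq_mul_left (Nat.pos_of_ne_zero hk0) h
    exact Nat.pow_left_injective two_ne_zero this
  have hsupp : Function.support (rc_dlim_g b m k) ⊆ Set.range (fun a : ℕ => k * a ^ 2) := by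
    intro n hn
    simp only [rc_dlim_g, Function.mem_support, ne_eq, ite_eq_right_iff, not_forall] at hn
    obtain ⟨⟨h0, h1, h2⟩, h3⟩ := hn
    obtain ⟨a, ha⟩ := rc_dlim_core_eq n
    exact ⟨a, by simp only; rw [← h1]; rw [mul_comm]; exact ha⟩
  rw [← hinj.tsum_eq hsupp]
  unfold sq
  apply tsum_congr
  intro a
  simp only [rc_dlim_g]
  rcases Nat.eq_zero_or_pos a with h | h
  · subst h; simp
  · have h1 : 0 < k * a ^ 2 := by positivity
    have h2 : (k * a ^ 2).Coprime m ↔ a.Coprime m := by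
      rw [Nat.coprime_mul_iff_left, Nat.coprime_pow_left_iff two_pos]
      exact ⟨fun h => h.2, fun h => ⟨hkm, h⟩⟩
    simp only [h, h1, true_and, rc_dlim_core_mul hk h, h2]

theorem rc_dlim_g_zero (b : ℕ → ℂ) (m k : ℕ) (h : ¬ (Squarefree k ∧ k.Coprime m)) (n : ℕ) :
    rc_dlim_g b m k n = 0 := by
  simp only [rc_dlim_g, ite_eq_right_iff]
  rintro ⟨h0, h1, h2⟩
  exfalso
  apply h
  constructor
  · rw [← h1]; exact rc_dlim_core_sqf n
  · obtain ⟨a, ha⟩ := rc_dlim_core_eq n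
    have : rc_dlim_core n ∣ n := ⟨a ^ 2, by rw [mul_comm]; exact ha.symm⟩
    rw [h1] at this
    exact Nat.Coprime.coprime_dvd_left this h2

theorem rc_dlim_QV (b : ℕ → ℂ) (m : ℕ) :
    QV b m = ∑' k : ℕ, ‖∑' n, rc_dlim_g b m k n‖ ^ 2 := by
  unfold QV
  apply tsum_congr
  intro k
  split_ifs with h
  · rw [rc_dlim_sq b m k h.1 h.2]
  · have : ∀ n, rc_dlim_g b m k n = 0 := rc_dlim_g_zero b m k h
    simp [this]

/-! ### finite sums -/

theorem rc_dlim_core_le {n : ℕ} (hn : 0 < n) : rc_dlim_core n ≤ n := by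
  obtain ⟨a, ha⟩ := rc_dlim_core_eq n
  have : rc_dlim_core n ∣ n := ⟨a ^ 2, by rw [mul_comm]; exact ha.symm⟩
  exact Nat.le_of_dvd hn this

open Classical in
theorem rc_dlim_QV_fin (b : ℕ → ℂ) (m N : ℕ) (hb : ∀ n, N ≤ n → b n = 0) :
    ((QV b m : ℝ) : ℂ) = ∑ n ∈ Finset.range N, ∑ n' ∈ Finset.range N,
      (if 0 < n ∧ 0 < n' ∧ IsSquare (n * n') ∧ n.Coprime m ∧ n'.Coprime m then
        b n * (starRingEnd ℂ) (b n') else 0) := by
  have hg : ∀ k n, n ∉ Finset.range N → rc_dlim_g b m k n = 0 := by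
    intro k n hn
    simp only [Finset.mem_range, not_lt] at hn
    simp only [rc_dlim_g, hb n hn, ite_self]
  have hg2 : ∀ k, k ∉ Finset.range N → ∀ n, rc_dlim_g b m k n = 0 := by
    intro k hk n
    by_cases hn : n ∈ Finset.range N
    · simp only [Finset.mem_range, not_lt] at hk hn
      simp only [rc_dlim_g, ite_eq_right_iff]
      rintro ⟨h0, h1, -⟩
      have := rc_dlim_core_le h0
      omega
    · exact hg k n hn
  rw [rc_dlim_QV, tsum_eq_sum (s := Finset.range N) (by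
    intro k hk
    have := hg2 k hk
    simp [this])]
  push_cast
  have h1 : ∀ k, ((‖∑' n, rc_dlim_g b m k n‖ : ℝ) : ℂ) ^ 2 =
      ∑ n ∈ Finset.range N, ∑ n' ∈ Finset.range N,
        rc_dlim_g b m k n * (starRingEnd ℂ) (rc_dlim_g b m k n') := by
    intro k
    rw [tsum_eq_sum (s := Finset.range N) (fun n hn => hg k n hn)]
    rw [← Complex.mul_conj', map_sum, Finset.sum_mul_sum]
  simp only [h1]
  rw [Finset.sum_comm]
  apply Finset.sum_congr rfl
  intro n hn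
  rw [Finset.sum_comm]
  apply Finset.sum_congr rfl
  intro n' hn'
  simp only [rc_dlim_g]
  by_cases h0 : 0 < n ∧ n.Coprime m ∧ 0 < n' ∧ n'.Coprime m
  · obtain ⟨h0, h2, h3, h4⟩ := h0
    have e2 : (n.Coprime m) = True := eq_true h2
    have e4 : (n'.Coprime m) = True := eq_true h4
    simp only [h0, e2, h3, e4, true_and, and_true, rc_dlim_sq_iff h0 h3]
    rw [Finset.sum_eq_single (rc_dlim_core n)]
    · simp only [if_true]
      by_cases h5 : rc_dlim_core n' = rc_dlim_core n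
      · simp [h5]
      · have h6 : ¬ rc_dlim_core n = rc_dlim_core n' := fun h => h5 h.symm
        simp [h5, h6]
    · intro k _ hk
      simp [Ne.symm hk]
    · intro h
      exfalso
      apply h
      have := rc_dlim_core_le h0
      simp only [Finset.mem_range] at hn ⊢
      omega
  · have h5 : ¬ (0 < n ∧ 0 < n' ∧ IsSquare (n * n') ∧ n.Coprime m ∧ n'.Coprime m) := by tauto
    rw [if_neg h5]
    apply Finset.sum_eq_zero
    intro k _
    by_cases h6 : 0 < n ∧ n.Coprime m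
    · have h7 : ¬ (0 < n' ∧ rc_dlim_core n' = k ∧ n'.Coprime m) := by tauto
      rw [if_neg h7]; simp
    · have h7 : ¬ (0 < n ∧ rc_dlim_core n = k ∧ n.Coprime m) := by tauto
      rw [if_neg h7]; simp

/-! ### the characters -/

theorem rc_dlim_psi_mul (j : Fin 4) (a b : ℕ) : psi j (a * b) = psi j a * psi j b := by
  fin_cases j <;> simp [psi, map_mul]

theorem rc_dlim_psi_sq (j : Fin 4) (a : ℕ) (ha : Odd a) : psi j (a * a) = 1 := by
  have h8 : ((a : ℕ) : ZMod 8) * (a : ZMod 8) = 1 := by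
    have h1 : (a * a) % 8 = 1 := by
      have : a % 8 = 1 ∨ a % 8 = 3 ∨ a % 8 = 5 ∨ a % 8 = 7 := by
        obtain ⟨k, rfl⟩ := ha; omega
      rcases this with h | h | h | h <;> simp [Nat.mul_mod, h]
    have h2 : ((a * a : ℕ) : ZMod 8) = ((1 : ℕ) : ZMod 8) := by
      rw [ZMod.natCast_eq_natCast_iff]; exact h1
    push_cast at h2
    exact h2
  have h4 : ((a : ℕ) : ZMod 4) * (a : ZMod 4) = 1 := by
    have h1 : (a * a) % 4 = 1 := by
      have : a % 4 = 1 ∨ a % 4 = 3 := by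
        obtain ⟨k, rfl⟩ := ha; omega
      rcases this with h | h <;> simp [Nat.mul_mod, h]
    have h2 : ((a * a : ℕ) : ZMod 4) = ((1 : ℕ) : ZMod 4) := by
      rw [ZMod.natCast_eq_natCast_iff]; exact h1
    push_cast at h2
    exact h2
  fin_cases j <;> simp [psi, h8, h4, -map_mul]

theorem rc_dlim_rv_mul (j : Fin 4) (m a b : ℕ) :
    rv j m a * rv j m b = psi j (a * b) * jacobiSym ((a * b : ℕ) : ℤ) m := by
  unfold rv
  rw [rc_dlim_psi_mul, Nat.cast_mul, jacobiSym.mul_left]; ring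

theorem rc_dlim_rv_sq (j : Fin 4) {m a b : ℕ} (hm : 0 < m) (ha : Odd a) (hb : Odd b)
    (h : IsSquare (a * b)) :
    rv j m a * rv j m b = if a.Coprime m ∧ b.Coprime m then 1 else 0 := by
  rw [rc_dlim_rv_mul]
  obtain ⟨c, hc⟩ := h
  have hcodd : Odd c := by
    have : Odd (c * c) := by rw [← hc]; exact ha.mul hb
    exact (Nat.odd_mul.mp this).1
  rw [hc, rc_dlim_psi_sq j c hcodd, one_mul]
  have h1 : (a.Coprime m ∧ b.Coprime m) ↔ c.Coprime m := by
    rw [← Nat.coprime_mul_iff_left, hc, Nat.coprime_mul_iff_left]; tauto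
  rw [Nat.cast_mul, jacobiSym.mul_left]
  have : NeZero m := ⟨hm.ne'⟩
  split_ifs with h2
  · rw [h1] at h2
    have := jacobiSym.sq_one (a := (c : ℤ)) (b := m) (by exact_mod_cast h2)
    rw [← pow_two]; exact this
  · rw [h1] at h2
    have : jacobiSym (c : ℤ) m = 0 := by
      rw [jacobiSym.eq_zero_iff_not_coprime]
      exact_mod_cast h2
    rw [this]; simp

theorem rc_dlim_psi_abs (j : Fin 4) (n : ℕ) : |psi j n| ≤ 1 := by
  have h8 : ∀ x : ZMod 8, |ZMod.χ₈ x| ≤ 1 := by decide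
  have h8' : ∀ x : ZMod 8, |ZMod.χ₈' x| ≤ 1 := by decide
  have h4 : ∀ x : ZMod 4, |ZMod.χ₄ x| ≤ 1 := by decide
  fin_cases j
  · simp [psi]
  · simpa [psi] using h4 n
  · simpa [psi] using h8 n
  · simpa [psi] using h8' n

theorem rc_dlim_rv_abs (j : Fin 4) (m n : ℕ) : |(rv j m n : ℝ)| ≤ 1 := by
  have h1 : |rv j m n| ≤ 1 := by
    unfold rv
    rw [abs_mul]
    have h2 : |jacobiSym (n : ℤ) m| ≤ 1 := by
      rcases jacobiSym.trichotomy (n : ℤ) m with h | h | h <;> simp [h]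
    have := rc_dlim_psi_abs j n
    calc |psi j n| * |jacobiSym (n : ℤ) m| ≤ 1 * 1 :=
          mul_le_mul this h2 (abs_nonneg _) zero_le_one
      _ = 1 := by norm_num
  exact_mod_cast h1

theorem rc_dlim_cls_odd {R c K m : ℕ} (hR : 8 ∣ R) (hc : Odd c) (hm : m ∈ cls R c K) : Odd m := by
  unfold cls at hm
  rw [Finset.mem_filter] at hm
  have h2 : m % R = c % R := hm.2
  have h3 : m % 8 = c % 8 := by
    have := congrArg (· % 8) h2
    simpa [Nat.mod_mod_of_dvd _ hR] using this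
  obtain ⟨k, rfl⟩ := hc
  rw [Nat.odd_iff]
  omega

open Classical in
theorem rc_dlim_W (R : ℕ) (hR : 8 ∣ R) (hR0 : 0 < R) (j : Fin 4) (c : ℕ) (hc : Odd c) (K : ℕ)
    (n n' : ℕ) (hn : n.Coprime R) (hn' : n'.Coprime R) :
    |∑ m ∈ cls R c K, ((rv j m n : ℝ) * rv j m n' -
      (if 0 < n ∧ 0 < n' ∧ IsSquare (n * n') ∧ n.Coprime m ∧ n'.Coprime m then 1 else 0))| ≤
      R * (n * n') := by
  have hodd : ∀ a : ℕ, a.Coprime R → Odd a := by
    intro a ha
    have h1 : a.Coprime 8 := Nat.Coprime.coprime_dvd_right hR ha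
    have h2 : a.Coprime 2 := Nat.Coprime.coprime_dvd_right (by norm_num) h1
    exact Nat.Coprime.odd_of_right h2
  have ho := hodd n hn
  have ho' := hodd n' hn'
  have h0 : 0 < n := ho.pos
  have h0' : 0 < n' := ho'.pos
  by_cases hsq : IsSquare (n * n')
  · have : ∑ m ∈ cls R c K, ((rv j m n : ℝ) * rv j m n' -
      (if 0 < n ∧ 0 < n' ∧ IsSquare (n * n') ∧ n.Coprime m ∧ n'.Coprime m then 1 else 0)) = 0 := by
      apply Finset.sum_eq_zero
      intro m hm
      have hm0 : 0 < m := (rc_dlim_cls_odd hR hc hm).pos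
      have h1 := rc_dlim_rv_sq j hm0 ho ho' hsq
      have h2 : (rv j m n : ℝ) * rv j m n' = ((rv j m n * rv j m n' : ℤ) : ℝ) := by push_cast; ring
      rw [h2, h1]
      simp only [h0, h0', hsq, true_and]
      split_ifs <;> simp
    rw [this, abs_zero]
    positivity
  · have h1 : ∑ m ∈ cls R c K, ((rv j m n : ℝ) * rv j m n' -
      (if 0 < n ∧ 0 < n' ∧ IsSquare (n * n') ∧ n.Coprime m ∧ n'.Coprime m then 1 else 0)) =
        (psi j (n * n') : ℝ) * ∑ m ∈ cls R c K, (jacobiSym ((n * n' : ℕ) : ℤ) m : ℝ) := by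
      rw [Finset.mul_sum]
      apply Finset.sum_congr rfl
      intro m hm
      have h2 : (rv j m n : ℝ) * rv j m n' = ((rv j m n * rv j m n' : ℤ) : ℝ) := by push_cast; ring
      rw [h2, rc_dlim_rv_mul]
      simp only [hsq, false_and, and_false, if_false]
      push_cast; ring
    rw [h1, abs_mul]
    have h2 := limc R (n * n') c K hR hR0 hc (Nat.Coprime.mul_left hn hn') hsq
    have h3 : |(psi j (n * n') : ℝ)| ≤ 1 := by exact_mod_cast rc_dlim_psi_abs j (n * n')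
    calc |(psi j (n * n') : ℝ)| * |∑ m ∈ cls R c K, (jacobiSym ((n * n' : ℕ) : ℤ) m : ℝ)| ≤
          1 * (R * (n * n' : ℕ)) := mul_le_mul h3 h2 (abs_nonneg _) zero_le_one
      _ = _ := by push_cast; ring

theorem rc_dlim_fin (R : ℕ) (hR : 8 ∣ R) (hR0 : 0 < R) (j : Fin 4) (c : ℕ) (hc : Odd c)
    (b : ℕ → ℂ) (N : ℕ) (hbN : ∀ n, N ≤ n → b n = 0) (hbR : ∀ n, ¬ n.Coprime R → b n = 0)
    (K : ℕ) :
    ∑ m ∈ cls R c K, ‖∑ n ∈ Finset.range N, (rv j m n : ℂ) * b n‖ ^ 2 ≤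
      ∑ m ∈ cls R c K, QV b m + R * (N : ℝ) ^ 2 * (∑ n ∈ Finset.range N, ‖b n‖) ^ 2 := by
  classical
  have h1 : ∀ m, ((‖∑ n ∈ Finset.range N, (rv j m n : ℂ) * b n‖ : ℝ) : ℂ) ^ 2 =
      ∑ n ∈ Finset.range N, ∑ n' ∈ Finset.range N,
        (b n * (starRingEnd ℂ) (b n')) * ((rv j m n : ℂ) * rv j m n') := by
    intro m
    rw [← Complex.mul_conj', map_sum, Finset.sum_mul_sum]
    apply Finset.sum_congr rfl
    intro n _
    apply Finset.sum_congr rfl
    intro n' _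
    rw [map_mul, map_intCast]; ring
  have h2 : ((∑ m ∈ cls R c K, ‖∑ n ∈ Finset.range N, (rv j m n : ℂ) * b n‖ ^ 2 -
      ∑ m ∈ cls R c K, QV b m : ℝ) : ℂ) = ∑ n ∈ Finset.range N, ∑ n' ∈ Finset.range N,
        (b n * (starRingEnd ℂ) (b n')) * ((∑ m ∈ cls R c K, ((rv j m n : ℝ) * rv j m n' -
      (if 0 < n ∧ 0 < n' ∧ IsSquare (n * n') ∧ n.Coprime m ∧ n'.Coprime m then 1 else 0)) : ℝ) :
        ℂ) := by
    push_cast
    simp only [rc_dlim_QV_fin b _ N hbN, h1]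
    rw [← Finset.sum_sub_distrib]
    simp only [← Finset.sum_sub_distrib]
    rw [Finset.sum_comm]
    apply Finset.sum_congr rfl
    intro n _
    rw [Finset.sum_comm]
    apply Finset.sum_congr rfl
    intro n' _
    rw [Finset.mul_sum]
    apply Finset.sum_congr rfl
    intro m _
    split_ifs <;> push_cast <;> ring
  have h3 : |∑ m ∈ cls R c K, ‖∑ n ∈ Finset.range N, (rv j m n : ℂ) * b n‖ ^ 2 -
      ∑ m ∈ cls R c K, QV b m| ≤ R * (N : ℝ) ^ 2 * (∑ n ∈ Finset.range N, ‖b n‖) ^ 2 := by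
    rw [← Real.norm_eq_abs, ← Complex.norm_real, h2]
    calc _ ≤ ∑ n ∈ Finset.range N, ∑ n' ∈ Finset.range N, ‖b n‖ * ‖b n'‖ * (R * (N : ℝ) ^ 2) := by
          refine (norm_sum_le _ _).trans (Finset.sum_le_sum fun n hn => ?_)
          refine (norm_sum_le _ _).trans (Finset.sum_le_sum fun n' hn' => ?_)
          rw [norm_mul, norm_mul, RCLike.norm_conj, Complex.norm_real, Real.norm_eq_abs]
          by_cases hc1 : n.Coprime R
          · by_cases hc2 : n'.Coprime R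
            · apply mul_le_mul_of_nonneg_left _ (by positivity)
              refine (rc_dlim_W R hR hR0 j c hc K n n' hc1 hc2).trans ?_
              apply mul_le_mul_of_nonneg_left _ (by positivity)
              rw [pow_two]
              have e1 : (n : ℝ) ≤ N := by exact_mod_cast (Finset.mem_range.mp hn).le
              have e2 : (n' : ℝ) ≤ N := by exact_mod_cast (Finset.mem_range.mp hn').le
              exact mul_le_mul e1 e2 (by positivity) (by positivity)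
            · rw [hbR n' hc2]; simp
          · rw [hbR n hc1]; simp
      _ = R * (N : ℝ) ^ 2 * (∑ n ∈ Finset.range N, ‖b n‖) ^ 2 := by
          rw [pow_two (∑ n ∈ Finset.range N, ‖b n‖), Finset.sum_mul_sum, Finset.mul_sum]
          apply Finset.sum_congr rfl
          intro n _
          rw [Finset.mul_sum]
          apply Finset.sum_congr rfl
          intro n' _
          ring
  have := abs_le.mp h3
  linarith [this.2]

/-! ### comparison -/

theorem rc_dlim_summ_g (b : ℕ → ℂ) (hb : Summable fun n => ‖b n‖) (m k : ℕ) :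
    Summable fun n => ‖rc_dlim_g b m k n‖ := by
  refine Summable.of_nonneg_of_le (fun n => norm_nonneg _) (fun n => ?_) hb
  simp only [rc_dlim_g]
  split_ifs
  · exact le_rfl
  · simp

theorem rc_dlim_double (b : ℕ → ℂ) (hb : Summable fun n => ‖b n‖) (m : ℕ) :
    Summable (fun k => ∑' n, ‖rc_dlim_g b m k n‖) ∧
      ∑' k, ∑' n, ‖rc_dlim_g b m k n‖ ≤ ∑' n, ‖b n‖ := by
  have h0 : ∀ n, Summable fun k => ‖rc_dlim_g b m k n‖ := by
    intro n
    apply summable_of_ne_finset_zero (s := {rc_dlim_core n})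
    intro k hk
    simp only [Finset.mem_singleton] at hk
    simp [rc_dlim_g, Ne.symm hk]
  have h0' : ∀ n, ∑' k, ‖rc_dlim_g b m k n‖ ≤ ‖b n‖ := by
    intro n
    rw [tsum_eq_single (rc_dlim_core n)]
    · simp only [rc_dlim_g]
      split_ifs
      · exact le_rfl
      · simp
    · intro k hk
      simp [rc_dlim_g, Ne.symm hk]
  have h1 : Summable (fun p : ℕ × ℕ => ‖rc_dlim_g b m p.2 p.1‖) := by
    rw [summable_prod_of_nonneg (fun p => norm_nonneg _)]
    refine ⟨h0, ?_⟩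
    exact Summable.of_nonneg_of_le (fun n => tsum_nonneg fun k => norm_nonneg _) h0' hb
  have h2 : Summable (fun p : ℕ × ℕ => ‖rc_dlim_g b m p.1 p.2‖) := h1.prod_symm
  constructor
  · exact h2.prod
  · rw [← h2.tsum_prod]
    have h3 : ∑' p : ℕ × ℕ, ‖rc_dlim_g b m p.1 p.2‖ = ∑' p : ℕ × ℕ, ‖rc_dlim_g b m p.2 p.1‖ :=
      ((Equiv.prodComm ℕ ℕ).tsum_eq (fun p : ℕ × ℕ => ‖rc_dlim_g b m p.2 p.1‖))
    rw [h3, h1.tsum_prod]
    exact (h1.prod).tsum_le_tsum h0' hb

theorem rc_dlim_QV_summ (b : ℕ → ℂ) (hb : Summable fun n => ‖b n‖) (m : ℕ) :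
    Summable (fun k => ‖∑' n, rc_dlim_g b m k n‖ ^ 2) ∧ QV b m ≤ (∑' n, ‖b n‖) ^ 2 := by
  obtain ⟨h1, h2⟩ := rc_dlim_double b hb m
  have h3 : ∀ k, ‖∑' n, rc_dlim_g b m k n‖ ≤ ∑' n, ‖rc_dlim_g b m k n‖ := fun k =>
    norm_tsum_le_tsum_norm (rc_dlim_summ_g b hb m k)
  have h4 : Summable (fun k => ‖∑' n, rc_dlim_g b m k n‖) :=
    Summable.of_nonneg_of_le (fun k => norm_nonneg _) h3 h1
  have h5 : ∑' k, ‖∑' n, rc_dlim_g b m k n‖ ≤ ∑' n, ‖b n‖ :=
    (h4.tsum_le_tsum h3 h1).trans h2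
  have h6 : ∀ k, ‖∑' n, rc_dlim_g b m k n‖ ^ 2 ≤ (∑' n, ‖b n‖) * ‖∑' n, rc_dlim_g b m k n‖ := by
    intro k
    rw [pow_two]
    apply mul_le_mul_of_nonneg_right _ (norm_nonneg _)
    exact (h4.le_tsum k (fun _ _ => norm_nonneg _)).trans h5
  have h7 : Summable (fun k => (∑' n, ‖b n‖) * ‖∑' n, rc_dlim_g b m k n‖) := h4.mul_left _
  refine ⟨Summable.of_nonneg_of_le (fun k => by positivity) h6 h7, ?_⟩
  rw [rc_dlim_QV]
  calc _ ≤ ∑' k, (∑' n, ‖b n‖) * ‖∑' n, rc_dlim_g b m k n‖ :=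
        (Summable.of_nonneg_of_le (fun k => by positivity) h6 h7).tsum_le_tsum h6 h7
    _ = (∑' n, ‖b n‖) * ∑' k, ‖∑' n, rc_dlim_g b m k n‖ := tsum_mul_left
    _ ≤ (∑' n, ‖b n‖) ^ 2 := by
        rw [pow_two]
        exact mul_le_mul_of_nonneg_left h5 (tsum_nonneg fun _ => norm_nonneg _)

theorem rc_dlim_QV_add (b d : ℕ → ℂ) (hb : Summable fun n => ‖b n‖)
    (hd : Summable fun n => ‖d n‖) (m : ℕ) :
    QV b m ≤ 2 * QV d m + 2 * (∑' n, ‖b n - d n‖) ^ 2 := by
  have hbd : Summable fun n => ‖b n - d n‖ :=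
    Summable.of_nonneg_of_le (fun n => norm_nonneg _) (fun n => norm_sub_le _ _) (hb.add hd)
  obtain ⟨h1, -⟩ := rc_dlim_QV_summ b hb m
  obtain ⟨h2, -⟩ := rc_dlim_QV_summ d hd m
  obtain ⟨h3, h4⟩ := rc_dlim_QV_summ (fun n => b n - d n) hbd m
  have h5 : ∀ k, ‖∑' n, rc_dlim_g b m k n‖ ^ 2 ≤ 2 * ‖∑' n, rc_dlim_g d m k n‖ ^ 2 +
      2 * ‖∑' n, rc_dlim_g (fun n => b n - d n) m k n‖ ^ 2 := by
    intro k
    have e1 : ∑' n, rc_dlim_g b m k n = ∑' n, rc_dlim_g d m k n +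
        ∑' n, rc_dlim_g (fun n => b n - d n) m k n := by
      rw [← Summable.tsum_add (rc_dlim_summ_g d hd m k).of_norm
        (rc_dlim_summ_g _ hbd m k).of_norm]
      apply tsum_congr
      intro n
      simp only [rc_dlim_g]
      split_ifs <;> ring
    rw [e1]
    have e2 := norm_add_le (∑' n, rc_dlim_g d m k n)
      (∑' n, rc_dlim_g (fun n => b n - d n) m k n)
    have e3 := norm_nonneg (∑' n, rc_dlim_g d m k n + ∑' n, rc_dlim_g (fun n => b n - d n) m k n)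
    nlinarith [sq_nonneg (‖∑' n, rc_dlim_g d m k n‖ -
      ‖∑' n, rc_dlim_g (fun n => b n - d n) m k n‖)]
  calc QV b m = ∑' k, ‖∑' n, rc_dlim_g b m k n‖ ^ 2 := rc_dlim_QV b m
    _ ≤ ∑' k, (2 * ‖∑' n, rc_dlim_g d m k n‖ ^ 2 +
      2 * ‖∑' n, rc_dlim_g (fun n => b n - d n) m k n‖ ^ 2) :=
        h1.tsum_le_tsum h5 ((h2.mul_left 2).add (h3.mul_left 2))
    _ = 2 * QV d m + 2 * QV (fun n => b n - d n) m := by
        rw [Summable.tsum_add (h2.mul_left 2) (h3.mul_left 2), tsum_mul_left, tsum_mul_left,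
          rc_dlim_QV, rc_dlim_QV]
    _ ≤ _ := by linarith

/-! ### the theorem -/

theorem dlim_pr (R : ℕ) (hR : 8 ∣ R) (hR0 : 0 < R) (j : Fin 4) (c : ℕ) (hc : Odd c) (b : ℕ → ℂ)
    (hb : Summable fun n => ‖b n‖) (hbR : ∀ n, ¬ n.Coprime R → b n = 0) (ε : ℝ) (hε : 0 < ε) :
    ∃ K0 : ℕ, ∀ K ≥ K0, ∑ m ∈ cls R c K, ‖∑' n : ℕ, (rv j m n : ℂ) * b n‖ ^ 2 ≤
      4 * ∑ m ∈ cls R c K, QV b m + ε * K := by
  classical
  -- choose N
  have hτ : Tendsto (fun N => ∑' n, ‖b (n + N)‖) atTop (𝓝 0) :=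
    tendsto_sum_nat_add (fun n => ‖b n‖)
  obtain ⟨N, hN⟩ := ((hτ.eventually (gt_mem_nhds (show (0 : ℝ) < √(ε / 12) by
    positivity))).exists)
  set τ := ∑' n, ‖b (n + N)‖ with hτdef
  have hτ0 : 0 ≤ τ := tsum_nonneg fun _ => norm_nonneg _
  have hτ2 : τ ^ 2 ≤ ε / 12 := by
    have := Real.sq_sqrt (show (0 : ℝ) ≤ ε / 12 by positivity)
    rw [← this]
    exact pow_le_pow_left₀ hτ0 hN.le 2
  set d : ℕ → ℂ := fun n => if n < N then b n else 0 with hd
  have hdb : ∀ n, ‖d n‖ ≤ ‖b n‖ := by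
    intro n
    simp only [hd]; split_ifs <;> simp
  have hds : Summable fun n => ‖d n‖ := Summable.of_nonneg_of_le (fun n => norm_nonneg _) hdb hb
  have hdN : ∀ n, N ≤ n → d n = 0 := by
    intro n hn; simp only [hd]; rw [if_neg (by omega)]
  have hdR : ∀ n, ¬ n.Coprime R → d n = 0 := by
    intro n hn; simp only [hd]; rw [hbR n hn]; simp
  have hdiff : ∑' n, ‖d n - b n‖ = τ := by
    have hs : Summable fun n => ‖d n - b n‖ :=
      Summable.of_nonneg_of_le (fun n => norm_nonneg _) (fun n => norm_sub_le _ _) (hds.add hb)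
    rw [← hs.sum_add_tsum_nat_add N]
    have e1 : ∑ i ∈ Finset.range N, ‖d i - b i‖ = 0 := by
      apply Finset.sum_eq_zero
      intro i hi
      simp only [hd, if_pos (Finset.mem_range.mp hi)]; simp
    rw [e1, zero_add]
    apply tsum_congr
    intro n
    rw [hdN (n + N) (by omega)]; simp
  have hsum : ∀ m, Summable fun n => ‖(rv j m n : ℂ) * b n‖ := by
    intro m
    refine Summable.of_nonneg_of_le (fun n => norm_nonneg _) (fun n => ?_) hb
    rw [norm_mul]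
    have h1 : ‖(rv j m n : ℂ)‖ ≤ 1 := by
      have := rc_dlim_rv_abs j m n
      rw [Complex.norm_intCast]; exact this
    calc _ ≤ 1 * ‖b n‖ := mul_le_mul_of_nonneg_right h1 (norm_nonneg _)
      _ = _ := one_mul _
  have hA : ∀ m, ‖∑' n : ℕ, (rv j m n : ℂ) * b n‖ ^ 2 ≤
      2 * ‖∑ n ∈ Finset.range N, (rv j m n : ℂ) * d n‖ ^ 2 + 2 * τ ^ 2 := by
    intro m
    rw [← (hsum m).of_norm.sum_add_tsum_nat_add N]
    have e1 : ∑ n ∈ Finset.range N, (rv j m n : ℂ) * b n =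
        ∑ n ∈ Finset.range N, (rv j m n : ℂ) * d n := by
      apply Finset.sum_congr rfl
      intro n hn
      simp only [hd, if_pos (Finset.mem_range.mp hn)]
    rw [e1]
    have e2 : ‖∑' n : ℕ, (rv j m (n + N) : ℂ) * b (n + N)‖ ≤ τ := by
      have hs1 : Summable fun n => ‖(rv j m (n + N) : ℂ) * b (n + N)‖ :=
        (summable_nat_add_iff (f := fun n => ‖(rv j m n : ℂ) * b n‖) N).mpr (hsum m)
      have hs2 : Summable fun n => ‖b (n + N)‖ :=
        (summable_nat_add_iff (f := fun n => ‖b n‖) N).mpr hb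
      refine (norm_tsum_le_tsum_norm hs1).trans ?_
      apply hs1.tsum_le_tsum _ hs2
      intro n
      rw [norm_mul]
      have h1 : ‖(rv j m (n + N) : ℂ)‖ ≤ 1 := by
        have := rc_dlim_rv_abs j m (n + N)
        rw [Complex.norm_intCast]; exact this
      calc _ ≤ 1 * ‖b (n + N)‖ := mul_le_mul_of_nonneg_right h1 (norm_nonneg _)
        _ = _ := one_mul _
    set X := ∑ n ∈ Finset.range N, (rv j m n : ℂ) * d n
    set Y := ∑' n : ℕ, (rv j m (n + N) : ℂ) * b (n + N)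
    have e3 := norm_add_le X Y
    have e4 : ‖X + Y‖ ^ 2 ≤ (‖X‖ + ‖Y‖) ^ 2 := pow_le_pow_left₀ (norm_nonneg _) e3 2
    have e5 : ‖Y‖ ^ 2 ≤ τ ^ 2 := pow_le_pow_left₀ (norm_nonneg _) e2 2
    nlinarith [sq_nonneg (‖X‖ - ‖Y‖)]
  set B := R * (N : ℝ) ^ 2 * (∑ n ∈ Finset.range N, ‖d n‖) ^ 2 with hB
  have hB0 : 0 ≤ B := by positivity
  obtain ⟨K0, hK0⟩ := exists_nat_gt (4 * B / ε)
  refine ⟨K0, fun K hK => ?_⟩
  have hKB : 2 * B ≤ ε / 2 * K := by
    have : 4 * B / ε ≤ K := hK0.le.trans (by exact_mod_cast hK)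
    rw [div_le_iff₀ hε] at this
    linarith
  have hcard : ((cls R c K).card : ℝ) ≤ K := by
    have : (cls R c K).card ≤ (Finset.Ico K (2 * K)).card := Finset.card_filter_le _ _
    rw [Nat.card_Ico] at this
    exact_mod_cast this.trans (by omega)
  have h1 := rc_dlim_fin R hR hR0 j c hc d N hdN hdR K
  calc ∑ m ∈ cls R c K, ‖∑' n : ℕ, (rv j m n : ℂ) * b n‖ ^ 2
      ≤ ∑ m ∈ cls R c K, (2 * ‖∑ n ∈ Finset.range N, (rv j m n : ℂ) * d n‖ ^ 2 + 2 * τ ^ 2) :=
        Finset.sum_le_sum fun m _ => hA m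
    _ = 2 * ∑ m ∈ cls R c K, ‖∑ n ∈ Finset.range N, (rv j m n : ℂ) * d n‖ ^ 2 +
        (cls R c K).card * (2 * τ ^ 2) := by
        rw [Finset.sum_add_distrib, ← Finset.mul_sum, Finset.sum_const, nsmul_eq_mul]
    _ ≤ 2 * (∑ m ∈ cls R c K, QV d m + B) + (cls R c K).card * (2 * τ ^ 2) := by
        linarith
    _ ≤ 2 * (∑ m ∈ cls R c K, (2 * QV b m + 2 * τ ^ 2) + B) +
        (cls R c K).card * (2 * τ ^ 2) := by
        have : ∑ m ∈ cls R c K, QV d m ≤ ∑ m ∈ cls R c K, (2 * QV b m + 2 * τ ^ 2) := by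
          apply Finset.sum_le_sum
          intro m _
          have := rc_dlim_QV_add d b hds hb m
          rw [hdiff] at this
          exact this
        linarith
    _ = 4 * ∑ m ∈ cls R c K, QV b m + (cls R c K).card * (6 * τ ^ 2) + 2 * B := by
        rw [Finset.sum_add_distrib, ← Finset.mul_sum, Finset.sum_const, nsmul_eq_mul]; ring
    _ ≤ 4 * ∑ m ∈ cls R c K, QV b m + K * (ε / 2) + ε / 2 * K := by
        have : ((cls R c K).card : ℝ) * (6 * τ ^ 2) ≤ K * (ε / 2) := by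
          apply mul_le_mul hcard _ (by positivity) (by positivity)
          linarith
        linarith
    _ = _ := by ring

end Pool.Agent.RC

namespace Pool.Agent.RC

alias dlim := dlim_pr

end Pool.Agent.RC
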