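import Pool.Agent.Lib_helper39.RCA.REP1
import Pool.Agent.Lib_helper39.RCA.DER
/-!
# RC block FE
-/

namespace Pool.Agent.RC

open Complex MeasureTheory Filter Topology

open scoped FourierTransform

/-- uniqueness of the Fourier transform for continuous integrable functions -/
lemma rc_fe_uniq {h : ℝ → ℂ} (hi : Integrable h) (hc : Continuous h)
    (h0 : ∀ t : ℝ, ∫ u : ℝ, h u * cexp (t * u * I) = 0) (v : ℝ) : h v = 0 := by
  have hF : 𝓕 h = 0 := by
    funext w
    rw [Real.fourier_eq']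
    have h1 := h0 (-2 * Real.pi * w)
    rw [Pi.zero_apply, ← h1]
    refine integral_congr_ae (Filter.Eventually.of_forall fun u => ?_)
    simp only [smul_eq_mul]
    rw [mul_comm]
    congr 2
    simp only [RCLike.inner_apply, conj_trivial]
    push_cast
    ring
  have h2 := hi.fourierInv_fourier_eq (by rw [hF]; exact integrable_zero _ _ _)
    (hc.continuousAt (x := v))
  rw [hF] at h2
  rw [← h2]
  simp [Real.fourierInv_eq]

lemma rc_fe_rep {κ : ℕ} {j : Fin 4} {m : ℕ} (hm : 2 ≤ m) [NeZero (cc j * m)]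
    (χ : DirichletCharacter ℂ (cc j * m)) (h : IsRC κ j m χ) (t : ℝ) :
    DirichletCharacter.completedLFunction χ (1 / 2 + t * I) =
        ∫ u : ℝ, (DD (f0 κ) 1 j m u : ℂ) * cexp (t * u * I) := by
  have hχ := rc_rep1_ne_one hm χ h
  have hdens : ∀ u : ℝ, GRH.dens κ 1 χ u = ((DD (f0 κ) 1 j m u : ℝ) : ℂ) := by
    intro u
    rw [rc_rep1_DD χ h, GRH.dens, GRH.T]
    rw [show (2 : ℂ) * (Real.exp (u / 2) : ℂ) * ∑' n : ℕ, χ ((n : ℕ) : ZMod (cc j * m)) *
      (if n.Coprime 1 then (GRH.G κ (n * Real.exp u) : ℂ) else 0) = (Real.exp (u / 2) : ℂ) *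
      (2 * ∑' n : ℕ, χ ((n : ℕ) : ZMod (cc j * m)) *
      (if n.Coprime 1 then (GRH.G κ (n * Real.exp u) : ℂ) else 0)) by ring, ← tsum_mul_left]
    congr 1
    refine tsum_congr fun n => ?_
    rw [if_pos (Nat.coprime_one_right n), f0, GRH.G]
    push_cast
    ring
  rw [(GRH.rep χ hχ κ h.2.2).2 t]
  refine integral_congr_ae (Filter.Eventually.of_forall fun u => ?_)
  simp only [hdens]

theorem fe_pr {κ : ℕ} {j : Fin 4} {m : ℕ} (hm : 2 ≤ m) [NeZero (cc j * m)]
    (χ : DirichletCharacter ℂ (cc j * m)) (h : IsRC κ j m χ) (u : ℝ) :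
    |DD (f1 κ) 1 j m (-Real.log ((cc j * m : ℕ) : ℝ) - u)| = |DD (f1 κ) 1 j m u| := by
  have hκ : κ ≤ 1 := by
    rcases h.2.2 with ⟨h, -⟩ | ⟨h, -⟩ <;> omega
  obtain ⟨hD0, -, -⟩ := rep1_pr hm χ h
  have hder : ∀ u : ℝ, HasDerivAt (DD (f0 κ) 1 j m) (DD (f1 κ) 1 j m u) u :=
    fun u => (der hκ 1 j m u).1
  have hcont : Continuous (DD (f0 κ) 1 j m) :=
    continuous_iff_continuousAt.mpr fun u => (hder u).continuousAt
  have hq2 : 2 ≤ cc j * m := by
    have hc : 1 ≤ cc j := by fin_cases j <;> simp [cc]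
    nlinarith
  have hq0 : ((cc j * m : ℕ) : ℂ) ≠ 0 := by
    have : cc j * m ≠ 0 := by omega
    exact_mod_cast this
  obtain ⟨W, hW, hfe⟩ := GRH.fe_phase hq2 χ h.1
  set L : ℝ := Real.log ((cc j * m : ℕ) : ℝ) with hL
  set f : ℝ → ℂ := fun v => ((DD (f0 κ) 1 j m (v - L / 2) : ℝ) : ℂ) with hf
  have hfc : Continuous f := by
    rw [hf]
    exact Complex.continuous_ofReal.comp (hcont.comp (by fun_prop))
  have hfi : Integrable f := (hD0.comp_sub_right (L / 2)).ofReal
  have hA : ∀ t : ℝ, ∫ v : ℝ, f v * cexp (t * v * I) =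
      ((cc j * m : ℕ) : ℂ) ^ ((t : ℂ) * I / 2) *
        DirichletCharacter.completedLFunction χ (1 / 2 + t * I) := by
    intro t
    rw [rc_fe_rep hm χ h t, ← integral_const_mul]
    have h1 := integral_sub_right_eq_self (μ := volume)
      (fun v : ℝ => ((cc j * m : ℕ) : ℂ) ^ ((t : ℂ) * I / 2) *
        (((DD (f0 κ) 1 j m v : ℝ) : ℂ) * cexp (t * v * I))) (L / 2)
    rw [← h1]
    refine integral_congr_ae (Filter.Eventually.of_forall fun v => ?_)
    simp only [hf]
    have h2 : ((cc j * m : ℕ) : ℂ) ^ ((t : ℂ) * I / 2) = cexp (t * ((L / 2 : ℝ) : ℂ) * I) := by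
      rw [Complex.cpow_def_of_ne_zero hq0, ← Complex.natCast_log, ← hL]
      congr 1
      push_cast
      ring
    rw [h2]
    have h3 : cexp (t * (v : ℂ) * I) =
        cexp (t * ((L / 2 : ℝ) : ℂ) * I) * cexp (t * ((v - L / 2 : ℝ) : ℂ) * I) := by
      rw [← Complex.exp_add]
      congr 1
      push_cast
      ring
    rw [h3]
    ring
  have hB : ∀ t : ℝ, starRingEnd ℂ (∫ v : ℝ, f v * cexp (t * v * I)) =
      ∫ v : ℝ, f (-v) * cexp (t * v * I) := by
    intro t
    rw [← integral_conj]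
    have h1 := integral_neg_eq_self (μ := (volume : Measure ℝ))
      (fun v : ℝ => f (-v) * cexp (t * v * I))
    rw [← h1]
    refine integral_congr_ae (Filter.Eventually.of_forall fun v => ?_)
    simp only [neg_neg]
    rw [map_mul, ← Complex.exp_conj]
    congr 1
    · simp only [hf, Complex.conj_ofReal]
    · congr 1
      simp
  have hfni : Integrable fun v : ℝ => f (-v) := hfi.comp_neg
  have hmul : ∀ (t : ℝ) (g : ℝ → ℂ), Integrable g →
      Integrable fun u : ℝ => g u * cexp (t * u * I) := by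
    intro t g hg
    have h1 : Integrable fun u : ℝ => cexp (t * u * I) * g u := by
      refine hg.bdd_mul (c := 1) (by fun_prop) ?_
      refine Filter.Eventually.of_forall fun u => ?_
      rw [show (t : ℂ) * u * I = ((t * u : ℝ) : ℂ) * I by push_cast; ring]
      exact (Complex.norm_exp_ofReal_mul_I _).le
    refine h1.congr (Filter.Eventually.of_forall fun u => ?_)
    simp only
    ring
  have hzero : ∀ v : ℝ, f v - W * f (-v) = 0 := by
    refine rc_fe_uniq (h := fun v => f v - W * f (-v)) (hfi.sub (hfni.const_mul W)) ?_ ?_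
    · exact hfc.sub (continuous_const.mul (hfc.comp continuous_neg))
    · intro t
      have h1 : ∫ v : ℝ, (f v - W * f (-v)) * cexp (t * v * I) =
          (∫ v : ℝ, f v * cexp (t * v * I)) - W * ∫ v : ℝ, f (-v) * cexp (t * v * I) := by
        rw [← integral_const_mul, ← integral_sub (hmul t f hfi) ((hmul t _ hfni).const_mul W)]
        refine integral_congr_ae (Filter.Eventually.of_forall fun v => ?_)
        simp only
        ring
      rw [h1, ← hB, hA, ← hfe t, sub_self]
  have hd1 : ∀ v : ℝ, HasDerivAt f ((DD (f1 κ) 1 j m (v - L / 2) : ℝ) : ℂ) v := by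
    intro v
    exact ((hder (v - L / 2)).comp_sub_const v (L / 2)).ofReal_comp
  have hd2 : ∀ v : ℝ, HasDerivAt (fun v => W * f (-v))
      (W * -((DD (f1 κ) 1 j m (-v - L / 2) : ℝ) : ℂ)) v := by
    intro v
    have h1 := (hd1 (-v)).scomp v (hasDerivAt_neg v)
    have h2 : HasDerivAt (fun v => f (-v)) (-((DD (f1 κ) 1 j m (-v - L / 2) : ℝ) : ℂ)) v := by
      simpa [Function.comp_def] using h1
    exact h2.const_mul W
  have heq : f = fun v => W * f (-v) := by
    funext v
    have := hzero v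
    exact sub_eq_zero.mp this
  have hfin : ∀ v : ℝ, |DD (f1 κ) 1 j m (v - L / 2)| = |DD (f1 κ) 1 j m (-v - L / 2)| := by
    intro v
    have h1 := hd1 v
    rw [heq] at h1
    have h2 := h1.unique (hd2 v)
    have h3 := congrArg norm h2
    rw [norm_mul, hW, one_mul, norm_neg, Complex.norm_real, Complex.norm_real] at h3
    exact h3
  have h1 := hfin (u + L / 2)
  rw [show u + L / 2 - L / 2 = u by ring, show -(u + L / 2) - L / 2 = -L - u by ring] at h1
  exact h1.symm

end Pool.Agent.RC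

namespace Pool.Agent.RC

alias fe := fe_pr

end Pool.Agent.RC
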