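import Pool.Agent.Lib_helper39.RC.Defs
/-!
# Block HATC: decay of the Fourier transform
-/

namespace Pool.Agent.RC

open Complex MeasureTheory Filter Topology
open scoped ContDiff

theorem rc_hatc_norm (θ : ℝ → ℂ) (t u : ℝ) : ‖θ t * cexp (t * u * I)‖ = ‖θ t‖ := by
  rw [norm_mul, show (t : ℂ) * u * I = ((t * u : ℝ) : ℂ) * I by push_cast; ring,
    Complex.norm_exp_ofReal_mul_I, mul_one]

theorem rc_hatc_int {θ : ℝ → ℂ} (hθ : Integrable θ) (u : ℝ) :
    Integrable (fun t : ℝ => θ t * cexp (t * u * I)) := by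
  refine hθ.norm.mono' ?_ (Eventually.of_forall fun t => (rc_hatc_norm θ t u).le)
  exact hθ.aestronglyMeasurable.mul
    (by fun_prop : Continuous fun t : ℝ => cexp (t * u * I)).aestronglyMeasurable

theorem rc_hatc_le (θ : ℝ → ℂ) (u : ℝ) : ‖hatc θ u‖ ≤ ∫ t, ‖θ t‖ := by
  unfold hatc
  refine (norm_integral_le_integral_norm _).trans (le_of_eq ?_)
  exact integral_congr_ae (Eventually.of_forall fun t => rc_hatc_norm θ t u)

theorem rc_hatc_cont {θ : ℝ → ℂ} (hθ : Integrable θ) : Continuous (hatc θ) := by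
  unfold hatc
  refine continuous_of_dominated (bound := fun t => ‖θ t‖) (fun u => ?_) (fun u => ?_) hθ.norm ?_
  · exact (rc_hatc_int hθ u).aestronglyMeasurable
  · exact Eventually.of_forall fun t => (rc_hatc_norm θ t u).le
  · exact Eventually.of_forall fun t => by fun_prop

theorem rc_hatc_deriv {θ θ' : ℝ → ℂ} (h : ∀ t, HasDerivAt θ (θ' t) t) (h1 : Integrable θ)
    (h2 : Integrable θ') (u : ℝ) : hatc θ' u = -(u * I) * hatc θ u := by
  have hv : ∀ t : ℝ, HasDerivAt (fun t : ℝ => cexp (t * u * I)) (u * I * cexp (t * u * I)) t := by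
    intro t
    have h3 : HasDerivAt (fun t : ℝ => (t : ℂ) * u * I) (1 * u * I) t :=
      ((Complex.ofRealCLM.hasDerivAt (x := t)).mul_const (u : ℂ)).mul_const I
    refine h3.cexp.congr_deriv ?_
    ring
  have h3 := integral_mul_deriv_eq_deriv_mul_of_integrable (u := θ) (v := fun t : ℝ => cexp (t * u * I))
    (u' := θ') (v' := fun t : ℝ => u * I * cexp (t * u * I)) (fun t _ => h t) (fun t _ => hv t) ?_
    (rc_hatc_int h2 u) (rc_hatc_int h1 u)
  · unfold hatc
    have h4 : ∫ t : ℝ, θ t * (u * I * cexp (t * u * I)) = u * I * ∫ t : ℝ, θ t * cexp (t * u * I) := by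
      rw [← integral_const_mul]
      exact integral_congr_ae (Eventually.of_forall fun t => by simp only; ring)
    rw [h4] at h3
    linear_combination h3
  · have h4 := (rc_hatc_int h1 u).const_mul (u * I)
    refine h4.congr (Eventually.of_forall fun t => ?_)
    simp only [Pi.mul_apply]
    ring

theorem hat_decay_pr (θ : ℝ → ℂ) (hθ : ContDiff ℝ 2 θ) (hc : HasCompactSupport θ) :
    Continuous (hatc θ) ∧ Integrable (hatc θ) ∧
      ∃ C : ℝ, ∀ u : ℝ, ‖hatc θ u‖ ≤ C / (1 + u ^ 2) := by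
  have hd1 : ContDiff ℝ 1 (deriv θ) := by
    have h := hθ
    rw [show (2 : WithTop ℕ∞) = 1 + 1 by norm_num, contDiff_succ_iff_deriv] at h
    exact h.2.2
  have hd2 : Continuous (deriv (deriv θ)) := hd1.continuous_deriv le_rfl
  have i0 : Integrable θ := hθ.continuous.integrable_of_hasCompactSupport hc
  have i1 : Integrable (deriv θ) :=
    (hd1.continuous).integrable_of_hasCompactSupport hc.deriv
  have i2 : Integrable (deriv (deriv θ)) := hd2.integrable_of_hasCompactSupport hc.deriv.deriv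
  have e1 : ∀ t, HasDerivAt θ (deriv θ t) t := fun t =>
    (hθ.differentiable (by norm_num) t).hasDerivAt
  have e2 : ∀ t, HasDerivAt (deriv θ) (deriv (deriv θ) t) t := fun t =>
    (hd1.differentiable one_ne_zero t).hasDerivAt
  have hb : ∀ u : ℝ, ‖hatc θ u‖ ≤
      ((∫ t, ‖θ t‖) + ∫ t, ‖deriv (deriv θ) t‖) / (1 + u ^ 2) := by
    intro u
    rw [le_div_iff₀ (by positivity)]
    have h1 := rc_hatc_le θ u
    have h2 := rc_hatc_le (deriv (deriv θ)) u
    rw [rc_hatc_deriv e2 i1 i2, rc_hatc_deriv e1 i0 i1, ← mul_assoc, norm_mul] at h2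
    have h3 : ‖-((u : ℂ) * I) * -(u * I)‖ = u ^ 2 := by
      rw [show -((u : ℂ) * I) * -(u * I) = -((u ^ 2 : ℝ) : ℂ) by
        push_cast
        linear_combination (u : ℂ) ^ 2 * I_sq]
      rw [norm_neg, Complex.norm_real, Real.norm_eq_abs, abs_of_nonneg (sq_nonneg u)]
    rw [h3] at h2
    linarith
  have hcont := rc_hatc_cont i0
  refine ⟨hcont, ?_, _, hb⟩
  refine (integrable_inv_one_add_sq.const_mul
    ((∫ t, ‖θ t‖) + ∫ t, ‖deriv (deriv θ) t‖)).mono' hcont.aestronglyMeasurable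
    (Eventually.of_forall fun u => ?_)
  rw [← div_eq_mul_inv]
  exact hb u

end Pool.Agent.RC

namespace Pool.Agent.RC

alias hat_decay := hat_decay_pr

end Pool.Agent.RC
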