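import Pool.Agent.Lib_helper39.RC.Defs
import Pool.Agent.Lib_helper39.RCA.DER
import Pool.Agent.Lib_helper39.RCA.KERN
/-!
# RC block REP1
-/

namespace Pool.Agent.RC

open Complex MeasureTheory Filter Topology

/-- full period sum -/
lemma rc_rep1_period {q : ℕ} [NeZero q] (χ : DirichletCharacter ℂ q) (hχ : χ ≠ 1) (N : ℕ) :
    ∑ i ∈ Finset.range q, χ ((N + i : ℕ) : ZMod q) = 0 := by
  have h0 : ∑ a : ZMod q, χ a = 0 := by
    have h := MulChar.sum_eq_zero_of_ne_one hχ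
    simpa using h
  rw [← h0]
  refine Finset.sum_bij (fun i _ => ((N + i : ℕ) : ZMod q)) (fun i _ => Finset.mem_univ _)
    ?_ ?_ (fun i _ => rfl)
  · intro i hi k hk hik
    rw [Finset.mem_range] at hi hk
    push_cast at hik
    have h1 : ((i : ℕ) : ZMod q) = ((k : ℕ) : ZMod q) := by
      exact add_left_cancel hik
    rw [ZMod.natCast_eq_natCast_iff'] at h1
    rwa [Nat.mod_eq_of_lt hi, Nat.mod_eq_of_lt hk] at h1
  · intro a _
    refine ⟨(a - (N : ZMod q)).val, Finset.mem_range.mpr (ZMod.val_lt _), ?_⟩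
    push_cast
    rw [ZMod.natCast_val, ZMod.cast_id']
    simp

lemma rc_rep1_partial {q : ℕ} [NeZero q] (χ : DirichletCharacter ℂ q) (hχ : χ ≠ 1) (N : ℕ) :
    ‖∑ n ∈ Finset.range N, χ ((n : ℕ) : ZMod q)‖ ≤ q := by
  have hq : 0 < q := Nat.pos_of_ne_zero (NeZero.ne q)
  induction N using Nat.strong_induction_on with
  | _ N ih =>
    rcases lt_or_ge N q with h | h
    · calc ‖∑ n ∈ Finset.range N, χ ((n : ℕ) : ZMod q)‖ ≤ ∑ n ∈ Finset.range N, (1 : ℝ) :=
            (norm_sum_le _ _).trans (Finset.sum_le_sum fun n _ => DirichletCharacter.norm_le_one _ _)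
        _ ≤ q := by
            simp only [Finset.sum_const, Finset.card_range, nsmul_eq_mul, mul_one]
            exact_mod_cast h.le
    · have h1 := ih (N - q) (by omega)
      have h2 : N = (N - q) + q := by omega
      rw [h2, Finset.sum_range_add, rc_rep1_period χ hχ (N - q), add_zero]
      exact h1

lemma rc_rep1_abel (a : ℕ → ℂ) (F : ℕ → ℝ) (Q : ℝ)
    (hS : ∀ N, ‖∑ n ∈ Finset.range N, a n‖ ≤ Q) (N : ℕ) :
    ‖∑ n ∈ Finset.range N, a n * (F n : ℂ)‖ ≤
      Q * |F N| + Q * ∑ n ∈ Finset.range N, |F (n + 1) - F n| := by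
  have key : ∀ N : ℕ, ∑ n ∈ Finset.range N, a n * (F n : ℂ) =
      (∑ n ∈ Finset.range N, a n) * (F N : ℂ) -
        ∑ n ∈ Finset.range N, (∑ k ∈ Finset.range (n + 1), a k) * ((F (n + 1) : ℂ) - F n) := by
    intro N
    induction N with
    | zero => simp
    | succ N ih =>
      rw [Finset.sum_range_succ, ih, Finset.sum_range_succ (fun n =>
        (∑ k ∈ Finset.range (n + 1), a k) * ((F (n + 1) : ℂ) - F n)), Finset.sum_range_succ a N]
      ring
  rw [key]
  refine (norm_sub_le _ _).trans (add_le_add ?_ ?_)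
  · rw [norm_mul, Complex.norm_real]
    exact mul_le_mul_of_nonneg_right (hS N) (norm_nonneg _)
  · refine (norm_sum_le _ _).trans ?_
    rw [Finset.mul_sum]
    refine Finset.sum_le_sum fun n _ => ?_
    rw [norm_mul, ← Complex.ofReal_sub, Complex.norm_real]
    exact mul_le_mul_of_nonneg_right (hS (n + 1)) (norm_nonneg _)

lemma rc_rep1_tel {δ : ℝ} (hδ : 0 < δ) (N : ℕ) :
    ∑ n ∈ Finset.range N, δ / (1 + n * δ) ^ 2 ≤ 1 + δ := by
  have key : ∀ N : ℕ, ∑ n ∈ Finset.range (N + 1), δ / (1 + n * δ) ^ 2 ≤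
      δ + 1 - 1 / (1 + N * δ) := by
    intro N
    induction N with
    | zero => simp
    | succ N ih =>
      rw [Finset.sum_range_succ]
      have h1 : (0 : ℝ) < 1 + N * δ := by positivity
      have h2 : (0 : ℝ) < 1 + ((N + 1 : ℕ) : ℝ) * δ := by positivity
      have h3 : δ / (1 + ((N + 1 : ℕ) : ℝ) * δ) ^ 2 ≤
          1 / (1 + N * δ) - 1 / (1 + ((N + 1 : ℕ) : ℝ) * δ) := by
        rw [div_sub_div _ _ h1.ne' h2.ne', div_le_div_iff₀ (by positivity) (by positivity)]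
        push_cast at h2 ⊢
        have h4 : (1 + (N : ℝ) * δ) * (1 + (N + 1) * δ) ≤ (1 + ((N : ℝ) + 1) * δ) ^ 2 := by
          nlinarith [h1, h2, hδ]
        have h5 : (1 * (1 + ((N : ℝ) + 1) * δ) - (1 + N * δ) * 1) = δ := by ring
        rw [h5]
        exact mul_le_mul_of_nonneg_left h4 hδ.le
      linarith
  rcases Nat.eq_zero_or_pos N with rfl | h
  · simp; linarith
  · obtain ⟨M, rfl⟩ : ∃ M, N = M + 1 := ⟨N - 1, by omega⟩
    refine (key M).trans ?_
    have : (0 : ℝ) ≤ 1 / (1 + M * δ) := by positivity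
    linarith

/-- increments of a function with decaying derivative -/
lemma rc_rep1_incr {f : ℝ → ℝ} {C : ℝ} (hf : ContDiff ℝ 1 f)
    (hC : ∀ y : ℝ, 0 ≤ y → |f y| ≤ C / (1 + y) ^ 6 ∧ |deriv f y| ≤ C / (1 + y) ^ 6)
    {δ : ℝ} (hδ : 0 < δ) (n : ℕ) :
    |f (((n + 1 : ℕ) : ℝ) * δ) - f (n * δ)| ≤ C * (δ / (1 + n * δ) ^ 2) := by
  have hC0 : 0 ≤ C := by
    have := (hC 0 le_rfl).1
    have h2 := (abs_nonneg _).trans this
    simpa using h2
  have hn : (0 : ℝ) ≤ n * δ := by positivity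
  have h1 := Convex.norm_image_sub_le_of_norm_deriv_le (f := f) (s := Set.Icc (n * δ) ((n + 1) * δ))
    (C := C / (1 + n * δ) ^ 6) (x := n * δ) (y := (n + 1) * δ)
    (fun x _ => (hf.differentiable one_ne_zero).differentiableAt) ?_ (convex_Icc _ _)
    ⟨le_rfl, by nlinarith⟩ ⟨by nlinarith, le_rfl⟩
  · rw [Real.norm_eq_abs, Real.norm_eq_abs] at h1
    push_cast
    refine h1.trans ?_
    have h2 : |((n : ℝ) + 1) * δ - n * δ| = δ := by
      rw [show ((n : ℝ) + 1) * δ - n * δ = δ by ring, abs_of_pos hδ]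
    rw [h2]
    have h3 : (1 : ℝ) ≤ 1 + n * δ := by linarith
    have h4 : C / (1 + (n : ℝ) * δ) ^ 6 ≤ C / (1 + n * δ) ^ 2 := by
      apply div_le_div_of_nonneg_left hC0 (by positivity)
      exact pow_le_pow_right₀ h3 (by norm_num)
    calc C / (1 + (n : ℝ) * δ) ^ 6 * δ ≤ C / (1 + n * δ) ^ 2 * δ :=
          mul_le_mul_of_nonneg_right h4 hδ.le
      _ = C * (δ / (1 + n * δ) ^ 2) := by ring
  · intro x hx
    rw [Real.norm_eq_abs]
    have hx0 : 0 ≤ x := hn.trans hx.1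
    refine (hC x hx0).2.trans ?_
    apply div_le_div_of_nonneg_left hC0 (by positivity)
    apply pow_le_pow_left₀ (by positivity)
    linarith [hx.1]

/-- the sum over `n`, bounded by `C/(1+δ)^2` up to a constant -/
lemma rc_rep1_bound {q : ℕ} [NeZero q] (χ : DirichletCharacter ℂ q) (hχ : χ ≠ 1)
    {f : ℝ → ℝ} (hf : Dec f) : ∃ C : ℝ, 0 ≤ C ∧ ∀ δ : ℝ, 0 < δ →
      (Summable fun n : ℕ => χ ((n : ℕ) : ZMod q) * (f (n * δ) : ℂ)) ∧
      ‖∑' n : ℕ, χ ((n : ℕ) : ZMod q) * (f (n * δ) : ℂ)‖ ≤ C ∧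
      (1 ≤ δ → ‖∑' n : ℕ, χ ((n : ℕ) : ZMod q) * (f (n * δ) : ℂ)‖ ≤ C / δ ^ 2) := by
  obtain ⟨C, hC⟩ := hf.bd
  have hC0 : 0 ≤ C := by
    have := (hC 0 le_rfl).1
    have h2 := (abs_nonneg _).trans this
    simpa using h2
  have hz : χ ((0 : ℕ) : ZMod q) = 0 := by
    have := GRH.RepAux.char_zero χ hχ
    simpa using this
  have hsm : Summable fun n : ℕ => (1 : ℝ) / (n : ℝ) ^ 2 :=
    Real.summable_one_div_nat_pow.mpr (by norm_num)
  set Z : ℝ := ∑' n : ℕ, (1 : ℝ) / (n : ℝ) ^ 2 with hZ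
  have hZ0 : 0 ≤ Z := tsum_nonneg fun n => by positivity
  have hterm : ∀ δ : ℝ, 0 < δ → ∀ n : ℕ, ‖χ ((n : ℕ) : ZMod q) * (f (n * δ) : ℂ)‖ ≤
      C / δ ^ 2 * (1 / (n : ℝ) ^ 2) := by
    intro δ hδ n
    rcases Nat.eq_zero_or_pos n with rfl | hn
    · rw [hz]; simp
    · rw [norm_mul, Complex.norm_real, Real.norm_eq_abs]
      have hn' : (0 : ℝ) < n := by exact_mod_cast hn
      have h1 : |f (n * δ)| ≤ C / (1 + n * δ) ^ 6 := (hC _ (by positivity)).1
      have h2 : C / (1 + n * δ) ^ 6 ≤ C / (n * δ) ^ 2 := by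
        apply div_le_div_of_nonneg_left hC0 (by positivity)
        have h3 : (1 : ℝ) ≤ 1 + n * δ := by nlinarith [mul_pos hn' hδ]
        calc ((n : ℝ) * δ) ^ 2 ≤ (1 + n * δ) ^ 2 := by
              apply pow_le_pow_left₀ (by positivity); linarith
          _ ≤ (1 + n * δ) ^ 6 := pow_le_pow_right₀ h3 (by norm_num)
      have h4 : ‖χ ((n : ℕ) : ZMod q)‖ ≤ 1 := DirichletCharacter.norm_le_one _ _
      calc ‖χ ((n : ℕ) : ZMod q)‖ * |f (n * δ)| ≤ 1 * (C / (n * δ) ^ 2) :=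
            mul_le_mul h4 (h1.trans h2) (abs_nonneg _) zero_le_one
        _ = C / δ ^ 2 * (1 / (n : ℝ) ^ 2) := by
            rw [one_mul, mul_pow]; field_simp
  have hsum : ∀ δ : ℝ, 0 < δ → Summable fun n : ℕ => χ ((n : ℕ) : ZMod q) * (f (n * δ) : ℂ) :=
    fun δ hδ => Summable.of_norm_bounded (hsm.mul_left _) (hterm δ hδ)
  have hbig : ∀ δ : ℝ, 0 < δ →
      ‖∑' n : ℕ, χ ((n : ℕ) : ZMod q) * (f (n * δ) : ℂ)‖ ≤ C * Z / δ ^ 2 := by
    intro δ hδ
    have h1 := tsum_of_norm_bounded (hsm.mul_left (C / δ ^ 2)).hasSum (hterm δ hδ)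
    rw [tsum_mul_left] at h1
    calc _ ≤ _ := h1
      _ = C * Z / δ ^ 2 := by rw [← hZ]; ring
  have hsmall : ∀ δ : ℝ, 0 < δ → δ ≤ 1 →
      ‖∑' n : ℕ, χ ((n : ℕ) : ZMod q) * (f (n * δ) : ℂ)‖ ≤ 3 * (q * C) := by
    intro δ hδ hδ1
    have ht := (hsum δ hδ).hasSum.tendsto_sum_nat
    refine le_of_tendsto ht.norm (Filter.Eventually.of_forall fun N => ?_)
    refine (rc_rep1_abel (fun n => χ ((n : ℕ) : ZMod q)) (fun n => f (n * δ)) q
      (rc_rep1_partial χ hχ) N).trans ?_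
    have h1 : |f (N * δ)| ≤ C := by
      refine (hC _ (by positivity)).1.trans ?_
      apply div_le_self hC0
      apply one_le_pow₀
      have : (0 : ℝ) ≤ N * δ := by positivity
      linarith
    have h2 : ∑ n ∈ Finset.range N, |f (((n + 1 : ℕ) : ℝ) * δ) - f (n * δ)| ≤ C * (1 + δ) := by
      calc _ ≤ ∑ n ∈ Finset.range N, C * (δ / (1 + n * δ) ^ 2) :=
            Finset.sum_le_sum fun n _ => rc_rep1_incr hf.smooth hC hδ n
        _ = C * ∑ n ∈ Finset.range N, (δ / (1 + n * δ) ^ 2) := by rw [Finset.mul_sum]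
        _ ≤ C * (1 + δ) := mul_le_mul_of_nonneg_left (rc_rep1_tel hδ N) hC0
    have hq0 : (0 : ℝ) ≤ q := by positivity
    have h3 : C * (1 + δ) ≤ 2 * C := by nlinarith
    calc (q : ℝ) * |f (N * δ)| + q * ∑ n ∈ Finset.range N, |f (((n + 1 : ℕ) : ℝ) * δ) - f (n * δ)|
        ≤ q * C + q * (2 * C) := add_le_add (mul_le_mul_of_nonneg_left h1 hq0)
          (mul_le_mul_of_nonneg_left (h2.trans h3) hq0)
      _ = 3 * (q * C) := by ring
  refine ⟨max (3 * (q * C)) (C * Z), le_max_of_le_left (by positivity), fun δ hδ =>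
    ⟨hsum δ hδ, ?_, fun h1 => ?_⟩⟩
  · rcases le_or_gt δ 1 with h | h
    · exact (hsmall δ hδ h).trans (le_max_left _ _)
    · refine (hbig δ hδ).trans (le_trans ?_ (le_max_right _ _))
      exact div_le_self (by positivity) (one_le_pow₀ h.le)
  · refine (hbig δ hδ).trans ?_
    exact div_le_div_of_nonneg_right (le_max_right _ _) (by positivity)

lemma rc_rep1_ne_one {κ : ℕ} {j : Fin 4} {m : ℕ} (hm : 2 ≤ m) [NeZero (cc j * m)]
    (χ : DirichletCharacter ℂ (cc j * m)) (h : IsRC κ j m χ) : χ ≠ 1 := by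
  intro h1
  have h2 : χ.conductor = cc j * m := h.1
  have hc : 1 ≤ cc j := by fin_cases j <;> simp [cc]
  rw [h1, DirichletCharacter.conductor_one] at h2
  nlinarith

/-- `DD` through the character -/
lemma rc_rep1_DD {κ : ℕ} {j : Fin 4} {m : ℕ}
    (χ : DirichletCharacter ℂ (cc j * m)) (h : IsRC κ j m χ) (f : ℝ → ℝ) (u : ℝ) :
    ((DD f 1 j m u : ℝ) : ℂ) = (Real.exp (u / 2) : ℂ) *
      ∑' n : ℕ, χ ((n : ℕ) : ZMod (cc j * m)) * (f (n * Real.exp u) : ℂ) := by
  rw [DD, Complex.ofReal_mul, Complex.ofReal_tsum]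
  congr 1
  refine tsum_congr fun n => ?_
  rw [if_pos (Nat.coprime_one_right n), h.2.1 n]
  push_cast
  rfl

theorem rep1_pr {κ : ℕ} {j : Fin 4} {m : ℕ} (hm : 2 ≤ m) [NeZero (cc j * m)]
    (χ : DirichletCharacter ℂ (cc j * m)) (h : IsRC κ j m χ) :
    Integrable (DD (f0 κ) 1 j m) ∧ Integrable (DD (f1 κ) 1 j m) ∧ ∀ t : ℝ,
      (t : ℂ) * DirichletCharacter.completedLFunction χ (1 / 2 + t * I) =
        I * ∫ u : ℝ, (DD (f1 κ) 1 j m u : ℂ) * cexp (t * u * I) := by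
  have hχ := rc_rep1_ne_one hm χ h
  have hκ : κ ≤ 1 := by
    rcases h.2.2 with ⟨h, -⟩ | ⟨h, -⟩ <;> omega
  have hdens : ∀ u : ℝ, GRH.dens κ 1 χ u = ((DD (f0 κ) 1 j m u : ℝ) : ℂ) := by
    intro u
    rw [rc_rep1_DD χ h, GRH.dens, GRH.T]
    rw [show (2 : ℂ) * (Real.exp (u / 2) : ℂ) * ∑' n : ℕ, χ ((n : ℕ) : ZMod (cc j * m)) *
      (if n.Coprime 1 then (GRH.G κ (n * Real.exp u) : ℂ) else 0) = (Real.exp (u / 2) : ℂ) *
      (2 * ∑' n : ℕ, χ ((n : ℕ) : ZMod (cc j * m)) *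
      (if n.Coprime 1 then (GRH.G κ (n * Real.exp u) : ℂ) else 0)) by ring, ← tsum_mul_left]
    congr 1
    refine tsum_congr fun n => ?_
    rw [if_pos (Nat.coprime_one_right n), f0, GRH.G]
    push_cast
    ring
  obtain ⟨hI, hrep⟩ := GRH.rep χ hχ κ h.2.2
  have hD0 : Integrable (DD (f0 κ) 1 j m) := by
    have h1 := hI.re
    refine h1.congr (Filter.Eventually.of_forall fun u => ?_)
    simp only [hdens]
    simp
  have hder : ∀ u : ℝ, HasDerivAt (DD (f0 κ) 1 j m) (DD (f1 κ) 1 j m u) u :=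
    fun u => (der hκ 1 j m u).1
  have hcont : Continuous (DD (f1 κ) 1 j m) :=
    continuous_iff_continuousAt.mpr fun u => (der hκ 1 j m u).2.1.continuousAt
  obtain ⟨C, hC0, hC⟩ := rc_rep1_bound χ hχ (ker_f1 hκ).toDec
  have hnorm : ∀ u : ℝ, |DD (f1 κ) 1 j m u| = Real.exp (u / 2) *
      ‖∑' n : ℕ, χ ((n : ℕ) : ZMod (cc j * m)) * (f1 κ (n * Real.exp u) : ℂ)‖ := by
    intro u
    have h1 := congrArg norm (rc_rep1_DD χ h (f1 κ) u)
    rw [Complex.norm_real, Real.norm_eq_abs, norm_mul, Complex.norm_real, Real.norm_eq_abs,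
      abs_of_pos (Real.exp_pos _)] at h1
    exact h1
  have hD1 : Integrable (DD (f1 κ) 1 j m) := by
    rw [← integrableOn_univ, ← Set.Iic_union_Ioi (a := (0 : ℝ)), integrableOn_union]
    constructor
    · have h1 : IntegrableOn (fun u : ℝ => C * Real.exp (1 / 2 * u)) (Set.Iic 0) :=
        (integrableOn_exp_mul_Iic (by norm_num) 0).const_mul C
      refine Integrable.mono' h1 hcont.aestronglyMeasurable.restrict ?_
      refine (ae_restrict_mem measurableSet_Iic).mono fun u hu => ?_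
      rw [Real.norm_eq_abs, hnorm]
      have h2 := (hC (Real.exp u) (Real.exp_pos u)).2.1
      calc Real.exp (u / 2) * _ ≤ Real.exp (u / 2) * C :=
            mul_le_mul_of_nonneg_left h2 (Real.exp_pos _).le
        _ = C * Real.exp (1 / 2 * u) := by rw [mul_comm]; congr 2; ring
    · have h1 : IntegrableOn (fun u : ℝ => C * Real.exp (-(3 / 2) * u)) (Set.Ioi 0) :=
        (integrableOn_exp_mul_Ioi (by norm_num) 0).const_mul C
      refine Integrable.mono' h1 hcont.aestronglyMeasurable.restrict ?_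
      refine (ae_restrict_mem measurableSet_Ioi).mono fun u hu => ?_
      rw [Real.norm_eq_abs, hnorm]
      have hu' : (0 : ℝ) < u := hu
      have h2 := (hC (Real.exp u) (Real.exp_pos u)).2.2 (Real.one_le_exp hu'.le)
      calc Real.exp (u / 2) * _ ≤ Real.exp (u / 2) * (C / Real.exp u ^ 2) :=
            mul_le_mul_of_nonneg_left h2 (Real.exp_pos _).le
        _ = C * Real.exp (-(3 / 2) * u) := by
            rw [← Real.exp_nat_mul, mul_div_assoc', mul_comm (Real.exp (u / 2)) C, mul_div_assoc,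
              ← Real.exp_sub]
            congr 2
            push_cast
            ring
  refine ⟨hD0, hD1, fun t => ?_⟩
  have hexpc : Continuous fun u : ℝ => cexp (t * u * I) := by fun_prop
  have hexpn : ∀ u : ℝ, ‖cexp (t * u * I)‖ = 1 := by
    intro u
    rw [show (t : ℂ) * u * I = ((t * u : ℝ) : ℂ) * I by push_cast; ring]
    exact Complex.norm_exp_ofReal_mul_I _
  have hmul : ∀ g : ℝ → ℂ, Integrable g → Integrable fun u : ℝ => cexp (t * u * I) * g u := by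
    intro g hg
    refine hg.bdd_mul (c := 1) hexpc.aestronglyMeasurable ?_
    exact Filter.Eventually.of_forall fun u => (hexpn u).le
  have hparts := integral_mul_deriv_eq_deriv_mul_of_integrable (A := ℂ)
    (u := fun u : ℝ => cexp (t * u * I)) (v := fun u : ℝ => ((DD (f0 κ) 1 j m u : ℝ) : ℂ))
    (u' := fun u : ℝ => (t * I) * cexp (t * u * I))
    (v' := fun u : ℝ => ((DD (f1 κ) 1 j m u : ℝ) : ℂ))
    (fun u _ => by
      have h1 : HasDerivAt (fun u : ℝ => (t : ℂ) * u * I) (t * I) u := by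
        have h2 := ((Complex.ofRealCLM.hasDerivAt (x := u)).const_mul (t : ℂ)).mul_const I
        simpa using h2
      have h3 := h1.cexp
      rw [mul_comm]
      exact h3)
    (fun u _ => (hder u).ofReal_comp)
    (hmul _ hD1.ofReal)
    (by
      have h1 := (hmul _ hD0.ofReal).const_mul ((t : ℂ) * I)
      refine h1.congr (Filter.Eventually.of_forall fun u => ?_)
      simp only [Pi.mul_apply]
      exact (mul_assoc _ _ _).symm)
    (hmul _ hD0.ofReal)
  have h1 : ∫ u : ℝ, (DD (f1 κ) 1 j m u : ℂ) * cexp (t * u * I) =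
      ∫ u : ℝ, cexp (t * u * I) * ((DD (f1 κ) 1 j m u : ℝ) : ℂ) := by
    refine integral_congr_ae (Filter.Eventually.of_forall fun u => ?_)
    simp only
    ring
  rw [h1, hparts, hrep t]
  have h2 : ∫ u : ℝ, (t * I) * cexp (t * u * I) * ((DD (f0 κ) 1 j m u : ℝ) : ℂ) =
      (t * I) * ∫ u : ℝ, GRH.dens κ 1 χ u * cexp (t * u * I) := by
    rw [← integral_const_mul]
    refine integral_congr_ae (Filter.Eventually.of_forall fun u => ?_)
    simp only [hdens]
    ring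
  rw [h2]
  linear_combination ((t : ℂ) * ∫ u : ℝ, GRH.dens κ 1 χ u * cexp (t * u * I)) * Complex.I_mul_I

end Pool.Agent.RC

namespace Pool.Agent.RC

alias rep1 := rep1_pr

end Pool.Agent.RC
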