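import Pool.Agent.Lib_helper39.RC.Defs
/-!
# MEAN: mean square of the sum of reciprocals of divisors
-/

namespace Pool.Agent.RC

open Finset

theorem rc_mean_count (K d : ℕ) (hd : 0 < d) :
    (((range (3 * K)).filter (fun m => d ∣ 2 * m ∧ m ≠ 0)).card : ℝ) ≤ 6 * K / d := by
  have h1 : ((range (3 * K)).filter (fun m => d ∣ 2 * m ∧ m ≠ 0)).card ≤
      (Ioc 0 (6 * K / d)).card := by
    apply Finset.card_le_card_of_injOn (fun m => 2 * m / d)
    · intro m hm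
      simp only [coe_filter, mem_range, Set.mem_setOf_eq] at hm
      obtain ⟨h1, ⟨e, he⟩, h3⟩ := hm
      simp only [coe_Ioc, Set.mem_Ioc]
      rw [he, Nat.mul_div_cancel_left _ hd]
      refine ⟨?_, ?_⟩
      · rcases Nat.eq_zero_or_pos e with h | h
        · subst h; omega
        · exact h
      · rw [Nat.le_div_iff_mul_le hd, mul_comm, ← he]
        omega
    · intro m hm m' hm' hmm
      simp only [coe_filter, mem_range, Set.mem_setOf_eq] at hm hm'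
      have h1 : 2 * m / d * d = 2 * m := Nat.div_mul_cancel hm.2.1
      have h2 : 2 * m' / d * d = 2 * m' := Nat.div_mul_cancel hm'.2.1
      have h3 : 2 * m / d = 2 * m' / d := hmm
      rw [h3, h2] at h1
      omega
  rw [Nat.card_Ioc, Nat.sub_zero] at h1
  calc (((range (3 * K)).filter (fun m => d ∣ 2 * m ∧ m ≠ 0)).card : ℝ)
      ≤ ((6 * K / d : ℕ) : ℝ) := by exact_mod_cast h1
    _ ≤ ((6 * K : ℕ) : ℝ) / d := Nat.cast_div_le
    _ = 6 * K / d := by push_cast; ring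

theorem rc_mean_swap (K : ℕ) (g : ℕ → ℝ) (hg : ∀ d, 0 ≤ g d) :
    ∑ m ∈ range (3 * K), ∑ d ∈ (2 * m).divisors, g d ≤
      ∑ d ∈ Icc 1 (6 * K), g d * (6 * K / d) := by
  have h1 : ∀ m ∈ range (3 * K), ∑ d ∈ (2 * m).divisors, g d =
      ∑ d ∈ Icc 1 (6 * K), if d ∣ 2 * m ∧ m ≠ 0 then g d else 0 := by
    intro m hm
    rw [mem_range] at hm
    rw [← Finset.sum_filter]
    apply Finset.sum_congr _ (fun _ _ => rfl)
    ext d
    simp only [Nat.mem_divisors, mem_filter, mem_Icc]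
    constructor
    · rintro ⟨h1, h2⟩
      have h3 : m ≠ 0 := by rintro rfl; simp at h2
      refine ⟨⟨Nat.pos_of_dvd_of_pos h1 (by omega), ?_⟩, h1, h3⟩
      have := Nat.le_of_dvd (by omega) h1
      omega
    · rintro ⟨⟨_, _⟩, h1, h2⟩
      exact ⟨h1, by omega⟩
  rw [Finset.sum_congr rfl h1, Finset.sum_comm]
  apply Finset.sum_le_sum
  intro d hd
  rw [mem_Icc] at hd
  rw [← Finset.sum_filter, Finset.sum_const, nsmul_eq_mul, mul_comm]
  exact mul_le_mul_of_nonneg_left (rc_mean_count K d (by omega)) (hg d)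

theorem mean_pr : ∃ C : ℝ, 0 < C ∧ ∀ K : ℕ,
    ∑ m ∈ Finset.range (3 * K), (∑ d ∈ (2 * m).divisors, 1 / (d : ℝ)) ^ 2 ≤ C * K := by
  have hsum : Summable (fun d : ℕ => 1 / (d : ℝ) ^ (3 / 2 : ℝ)) :=
    Real.summable_one_div_nat_rpow.mpr (by norm_num)
  set S : ℝ := ∑' d : ℕ, 1 / (d : ℝ) ^ (3 / 2 : ℝ) with hS
  have hnn : ∀ d : ℕ, 0 ≤ 1 / (d : ℝ) ^ (3 / 2 : ℝ) := fun d => by positivity
  have hS0 : 0 ≤ S := tsum_nonneg hnn
  refine ⟨6 * S * S + 1, by positivity, fun K => ?_⟩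
  have h1 : ∀ m ∈ range (3 * K), (∑ d ∈ (2 * m).divisors, 1 / (d : ℝ)) ^ 2 ≤
      S * ∑ d ∈ (2 * m).divisors, 1 / (d : ℝ) ^ (1 / 2 : ℝ) := by
    intro m _
    have h2 : ∑ d ∈ (2 * m).divisors, 1 / (d : ℝ) = ∑ d ∈ (2 * m).divisors,
        (1 / (d : ℝ) ^ (3 / 4 : ℝ)) * (1 / (d : ℝ) ^ (1 / 4 : ℝ)) := by
      apply Finset.sum_congr rfl
      intro d hd
      have hd0 : (0 : ℝ) < d := by exact_mod_cast Nat.pos_of_mem_divisors hd
      rw [div_mul_div_comm, one_mul, ← Real.rpow_add hd0]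
      norm_num
    rw [h2]
    refine (Finset.sum_mul_sq_le_sq_mul_sq _ _ _).trans ?_
    have h3 : ∑ d ∈ (2 * m).divisors, (1 / (d : ℝ) ^ (3 / 4 : ℝ)) ^ 2 ≤ S := by
      have h4 : ∑ d ∈ (2 * m).divisors, (1 / (d : ℝ) ^ (3 / 4 : ℝ)) ^ 2 =
          ∑ d ∈ (2 * m).divisors, 1 / (d : ℝ) ^ (3 / 2 : ℝ) := by
        apply Finset.sum_congr rfl
        intro d hd
        have hd0 : (0 : ℝ) < d := by exact_mod_cast Nat.pos_of_mem_divisors hd
        rw [div_pow, one_pow, ← Real.rpow_natCast, ← Real.rpow_mul hd0.le]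
        norm_num
      rw [h4]
      exact hsum.sum_le_tsum _ (fun d _ => hnn d)
    have h5 : ∑ d ∈ (2 * m).divisors, (1 / (d : ℝ) ^ (1 / 4 : ℝ)) ^ 2 =
        ∑ d ∈ (2 * m).divisors, 1 / (d : ℝ) ^ (1 / 2 : ℝ) := by
      apply Finset.sum_congr rfl
      intro d hd
      have hd0 : (0 : ℝ) < d := by exact_mod_cast Nat.pos_of_mem_divisors hd
      rw [div_pow, one_pow, ← Real.rpow_natCast, ← Real.rpow_mul hd0.le]
      norm_num
    rw [h5]
    exact mul_le_mul_of_nonneg_right h3 (Finset.sum_nonneg fun d _ => by positivity)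
  refine (Finset.sum_le_sum h1).trans ?_
  rw [← Finset.mul_sum]
  have h6 := rc_mean_swap K (fun d => 1 / (d : ℝ) ^ (1 / 2 : ℝ)) (fun d => by positivity)
  have h7 : ∑ d ∈ Icc 1 (6 * K), 1 / (d : ℝ) ^ (1 / 2 : ℝ) * (6 * K / d) ≤ 6 * K * S := by
    have h8 : ∑ d ∈ Icc 1 (6 * K), 1 / (d : ℝ) ^ (1 / 2 : ℝ) * (6 * K / d) =
        6 * K * ∑ d ∈ Icc 1 (6 * K), 1 / (d : ℝ) ^ (3 / 2 : ℝ) := by
      rw [Finset.mul_sum]
      apply Finset.sum_congr rfl
      intro d hd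
      rw [mem_Icc] at hd
      have hd0 : (0 : ℝ) < d := by exact_mod_cast (by omega : 0 < d)
      have h9 : (d : ℝ) ^ (3 / 2 : ℝ) = (d : ℝ) ^ (1 / 2 : ℝ) * d := by
        rw [show (3 / 2 : ℝ) = 1 / 2 + 1 by norm_num, Real.rpow_add hd0, Real.rpow_one]
      rw [h9]
      have h10 : (d : ℝ) ^ (1 / 2 : ℝ) ≠ 0 := (Real.rpow_pos_of_pos hd0 _).ne'
      field_simp
    rw [h8]
    exact mul_le_mul_of_nonneg_left (hsum.sum_le_tsum _ (fun d _ => hnn d)) (by positivity)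
  have hK : (0 : ℝ) ≤ K := Nat.cast_nonneg K
  calc S * ∑ m ∈ range (3 * K), ∑ d ∈ (2 * m).divisors, 1 / (d : ℝ) ^ (1 / 2 : ℝ)
      ≤ S * (6 * K * S) := mul_le_mul_of_nonneg_left (h6.trans h7) hS0
    _ ≤ (6 * S * S + 1) * K := by nlinarith

end Pool.Agent.RC

namespace Pool.Agent.RC

alias mean := mean_pr

end Pool.Agent.RC
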