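import Pool.Agent.Lib_helper39.RC.Defs
import Pool.Agent.Lib_helper39.RCA.DIAG
import Pool.Agent.Lib_helper39.RCA.MEAN
import Pool.Agent.Lib_helper39.RCA.OFF
/-!
# RC block SM: the mean square over the family
-/

namespace Pool.Agent.RC

open Complex MeasureTheory Filter Topology

theorem rc_sm_sum (δ : ℝ) (hδ : 0 < δ) (N : ℕ) :
    ∑ n ∈ Finset.range (N + 1), (if n = 0 then (0 : ℝ) else 1 / (1 + n * δ) ^ 2) ≤
      1 / δ * (1 - 1 / (1 + N * δ)) := by
  induction N with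
  | zero => simp
  | succ N ih =>
    rw [Finset.sum_range_succ]
    have h1 : (0 : ℝ) < 1 + N * δ := by positivity
    have h2 : (0 : ℝ) < 1 + (N + 1 : ℕ) * δ := by positivity
    have h3 : (if (N + 1) = 0 then (0 : ℝ) else 1 / (1 + (N + 1 : ℕ) * δ) ^ 2) ≤
        1 / δ * (1 / (1 + N * δ) - 1 / (1 + (N + 1 : ℕ) * δ)) := by
      rw [if_neg (Nat.succ_ne_zero N)]
      have e : 1 / δ * (1 / (1 + N * δ) - 1 / (1 + (N + 1 : ℕ) * δ)) =
          1 / ((1 + N * δ) * (1 + (N + 1 : ℕ) * δ)) := by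
        field_simp
        push_cast
        ring
      rw [e]
      apply one_div_le_one_div_of_le (by positivity)
      rw [pow_two]
      apply mul_le_mul_of_nonneg_right _ h2.le
      push_cast
      nlinarith
    calc _ ≤ 1 / δ * (1 - 1 / (1 + N * δ)) +
          1 / δ * (1 / (1 + N * δ) - 1 / (1 + (N + 1 : ℕ) * δ)) := add_le_add ih h3
      _ = _ := by ring

theorem rc_sm_sum2 (δ : ℝ) (hδ : 0 < δ) :
    Summable (fun n : ℕ => if n = 0 then (0 : ℝ) else 1 / (1 + n * δ) ^ 2) ∧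
    ∑' n : ℕ, (if n = 0 then (0 : ℝ) else 1 / (1 + n * δ) ^ 2) ≤ 1 / δ := by
  have h0 : ∀ n : ℕ, 0 ≤ (if n = 0 then (0 : ℝ) else 1 / (1 + n * δ) ^ 2) := by
    intro n
    split_ifs
    · exact le_rfl
    · positivity
  have h : ∀ N : ℕ, ∑ n ∈ Finset.range N,
      (if n = 0 then (0 : ℝ) else 1 / (1 + n * δ) ^ 2) ≤ 1 / δ := by
    intro N
    cases N with
    | zero => simpa using hδ.le
    | succ N =>
      refine (rc_sm_sum δ hδ N).trans ?_
      have : (0 : ℝ) ≤ 1 / (1 + N * δ) := by positivity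
      calc 1 / δ * (1 - 1 / (1 + N * δ)) ≤ 1 / δ * 1 := by
            apply mul_le_mul_of_nonneg_left _ (by positivity)
            linarith
        _ = 1 / δ := mul_one _
  exact ⟨summable_of_sum_range_le h0 h, Real.tsum_le_of_sum_range_le h0 h⟩

/-- The sequence `f(nδ)` without the term `n = 0`. -/
noncomputable def rc_sm_F (f : ℝ → ℝ) (δ : ℝ) (n : ℕ) : ℝ := if n = 0 then 0 else f (n * δ)

theorem rc_sm_bd {f : ℝ → ℝ} (hf : Dec f) : ∃ C : ℝ, 0 < C ∧ ∀ δ : ℝ, 0 < δ →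
    Summable (fun n : ℕ => (n : ℝ) ^ (3 / 2 : ℝ) * |rc_sm_F f δ n|) ∧
    Summable (fun n : ℕ => |rc_sm_F f δ n|) ∧
    (∑' n : ℕ, (n : ℝ) ^ (3 / 2 : ℝ) * |rc_sm_F f δ n|) ^ 2 ≤ C / δ ^ 5 := by
  obtain ⟨C0, hC0⟩ := hf.bd
  set C : ℝ := |C0| + 1 with hC
  have hCpos : 0 < C := by positivity
  have hfb : ∀ y : ℝ, 0 ≤ y → |f y| ≤ C / (1 + y) ^ 6 := by
    intro y hy
    refine ((hC0 y hy).1).trans ?_
    apply div_le_div_of_nonneg_right _ (by positivity)
    linarith [le_abs_self C0]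
  refine ⟨C ^ 2, by positivity, fun δ hδ => ?_⟩
  obtain ⟨hs, hle⟩ := rc_sm_sum2 δ hδ
  have key : ∀ n : ℕ, (n : ℝ) ^ (3 / 2 : ℝ) * |rc_sm_F f δ n| ≤
      C * δ ^ (-(3 / 2) : ℝ) * (if n = 0 then (0 : ℝ) else 1 / (1 + n * δ) ^ 2) := by
    intro n
    unfold rc_sm_F
    split_ifs with hn
    · simp
    · have hn' : (0 : ℝ) < n := by exact_mod_cast Nat.pos_of_ne_zero hn
      have hy : 0 < (n : ℝ) * δ := by positivity
      have h1 : (n : ℝ) ^ (3 / 2 : ℝ) = δ ^ (-(3 / 2) : ℝ) * ((n : ℝ) * δ) ^ (3 / 2 : ℝ) := by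
        rw [Real.mul_rpow hn'.le hδ.le, Real.rpow_neg hδ.le]
        have : δ ^ (3 / 2 : ℝ) ≠ 0 := (Real.rpow_pos_of_pos hδ _).ne'
        field_simp
      have h2 : ((n : ℝ) * δ) ^ (3 / 2 : ℝ) ≤ (1 + (n : ℝ) * δ) ^ 4 := by
        calc ((n : ℝ) * δ) ^ (3 / 2 : ℝ) ≤ (1 + (n : ℝ) * δ) ^ (3 / 2 : ℝ) :=
              Real.rpow_le_rpow hy.le (by linarith) (by norm_num)
          _ ≤ (1 + (n : ℝ) * δ) ^ (4 : ℝ) :=
              Real.rpow_le_rpow_of_exponent_le (by linarith) (by norm_num)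
          _ = (1 + (n : ℝ) * δ) ^ 4 := by
              rw [← Real.rpow_natCast]
              norm_num
      rw [h1]
      have h3 := hfb _ hy.le
      have h4 : 0 < δ ^ (-(3 / 2) : ℝ) := Real.rpow_pos_of_pos hδ _
      calc δ ^ (-(3 / 2) : ℝ) * ((n : ℝ) * δ) ^ (3 / 2 : ℝ) * |f (n * δ)| ≤
            δ ^ (-(3 / 2) : ℝ) * (1 + (n : ℝ) * δ) ^ 4 * (C / (1 + n * δ) ^ 6) := by
            gcongr
        _ = C * δ ^ (-(3 / 2) : ℝ) * (1 / (1 + n * δ) ^ 2) := by
            have : (1 + (n : ℝ) * δ) ≠ 0 := by positivity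
            field_simp
  have hS1 : Summable (fun n : ℕ => (n : ℝ) ^ (3 / 2 : ℝ) * |rc_sm_F f δ n|) :=
    Summable.of_nonneg_of_le (fun n => by positivity) key (hs.mul_left _)
  refine ⟨hS1, ?_, ?_⟩
  · refine Summable.of_nonneg_of_le (fun n => abs_nonneg _) (fun n => ?_) hS1
    by_cases hn : n = 0
    · simp [hn, rc_sm_F]
    · have : (1 : ℝ) ≤ (n : ℝ) ^ (3 / 2 : ℝ) := by
        apply Real.one_le_rpow _ (by norm_num)
        exact_mod_cast Nat.pos_of_ne_zero hn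
      exact le_mul_of_one_le_left (abs_nonneg _) this
  · have h5 : ∑' n : ℕ, (n : ℝ) ^ (3 / 2 : ℝ) * |rc_sm_F f δ n| ≤
        C * δ ^ (-(3 / 2) : ℝ) * (1 / δ) := by
      calc _ ≤ ∑' n : ℕ, C * δ ^ (-(3 / 2) : ℝ) *
            (if n = 0 then (0 : ℝ) else 1 / (1 + n * δ) ^ 2) :=
            hS1.tsum_le_tsum key (hs.mul_left _)
        _ = C * δ ^ (-(3 / 2) : ℝ) *
            ∑' n : ℕ, (if n = 0 then (0 : ℝ) else 1 / (1 + n * δ) ^ 2) := tsum_mul_left
        _ ≤ _ := by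
            apply mul_le_mul_of_nonneg_left hle
            have : 0 < δ ^ (-(3 / 2) : ℝ) := Real.rpow_pos_of_pos hδ _
            positivity
    have h6 : 0 ≤ ∑' n : ℕ, (n : ℝ) ^ (3 / 2 : ℝ) * |rc_sm_F f δ n| :=
      tsum_nonneg fun n => by positivity
    calc _ ≤ (C * δ ^ (-(3 / 2) : ℝ) * (1 / δ)) ^ 2 := pow_le_pow_left₀ h6 h5 2
      _ = C ^ 2 * (δ ^ (-(3 / 2) : ℝ)) ^ 2 * (1 / δ) ^ 2 := by ring
      _ = C ^ 2 / δ ^ 5 := by
          have : (δ ^ (-(3 / 2) : ℝ)) ^ 2 = 1 / δ ^ 3 := by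
            rw [← Real.rpow_natCast, ← Real.rpow_mul hδ.le]
            norm_num
          rw [this]
          field_simp

theorem rc_sm_psi_mul (j : Fin 4) (a b : ℕ) : psi j (a * b) = psi j a * psi j b := by
  fin_cases j
  · rfl
  · show ZMod.χ₄ _ = ZMod.χ₄ _ * ZMod.χ₄ _
    rw [Nat.cast_mul, map_mul]
  · show ZMod.χ₈ _ = ZMod.χ₈ _ * ZMod.χ₈ _
    rw [Nat.cast_mul, map_mul]
  · show ZMod.χ₈' _ = ZMod.χ₈' _ * ZMod.χ₈' _
    rw [Nat.cast_mul, map_mul]

theorem rc_sm_psi_mod (j : Fin 4) (n : ℕ) : psi j n = psi j (n % 8) := by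
  have h8 : ((n % 8 : ℕ) : ZMod 8) = (n : ZMod 8) := ZMod.natCast_mod n 8
  have h4 : ((n % 8 : ℕ) : ZMod 4) = (n : ZMod 4) := by
    rw [ZMod.natCast_eq_natCast_iff]
    exact Nat.mod_mod_of_dvd n (by norm_num : 4 ∣ 8)
  fin_cases j
  · simp [psi]
  · simp only [psi]
    simp only [h4]
    rfl
  · simp only [psi]
    simp only [h8]
    rfl
  · simp only [psi]
    simp only [h8]
    rfl

theorem rc_sm_psi_sq (j : Fin 4) (n : ℕ) :
    psi j n * psi j n = if j = 0 ∨ Odd n then 1 else 0 := by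
  have ho : Odd n ↔ Odd (n % 8) := by
    rw [Nat.odd_iff, Nat.odd_iff, Nat.mod_mod_of_dvd n (by norm_num : 2 ∣ 8)]
  rw [rc_sm_psi_mod j n]
  simp only [ho]
  have h : n % 8 < 8 := Nat.mod_lt _ (by norm_num)
  generalize n % 8 = k at h
  revert j
  interval_cases k <;> decide

theorem rc_sm_psi_abs (j : Fin 4) (n : ℕ) : |psi j n| ≤ 1 := by
  have h := rc_sm_psi_sq j n
  rw [abs_le_one_iff_mul_self_le_one, h]
  split_ifs <;> norm_num

theorem rc_sm_J_abs (a : ℤ) (m : ℕ) : |jacobiSym a m| ≤ 1 := by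
  rcases jacobiSym.trichotomy a m with h | h | h <;> simp [h]

theorem rc_sm_rv_abs (j : Fin 4) (m n : ℕ) : |(rv j m n : ℝ)| ≤ 1 := by
  have h : |rv j m n| ≤ 1 := by
    unfold rv
    rw [abs_mul]
    exact mul_le_one₀ (rc_sm_psi_abs j n) (abs_nonneg _) (rc_sm_J_abs _ _)
  exact_mod_cast h

theorem rc_sm_rv_mul (j : Fin 4) (m a b : ℕ) : rv j m a * rv j m b =
    psi j (a * b) * jacobiSym ((a * b : ℕ) : ℤ) m := by
  unfold rv
  rw [rc_sm_psi_mul]
  push_cast
  rw [jacobiSym.mul_left]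
  ring

theorem rc_sm_rv_sq (j : Fin 4) (m a b : ℕ) (hm : 0 < m) (h : IsSquare (a * b)) :
    rv j m a * rv j m b = if (a * b).Coprime (if j = 0 then m else 2 * m) then 1 else 0 := by
  obtain ⟨c, hc⟩ := h
  rw [rc_sm_rv_mul, hc, rc_sm_psi_mul, rc_sm_psi_sq]
  have h1 : (c * c).Coprime (if j = 0 then m else 2 * m) ↔
      (j = 0 ∨ Odd c) ∧ c.Coprime m := by
    rw [Nat.coprime_mul_iff_left, and_self]
    split_ifs with h0
    · simp [h0]
    · rw [Nat.coprime_mul_iff_right, Nat.coprime_two_right]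
      simp [h0]
  have h2 : jacobiSym ((c * c : ℕ) : ℤ) m = if c.Coprime m then 1 else 0 := by
    push_cast
    rw [jacobiSym.mul_left]
    split_ifs with h3
    · have := jacobiSym.sq_one (a := (c : ℤ)) (b := m) (by
        rw [Int.gcd_natCast_natCast]
        exact h3)
      rw [pow_two] at this
      exact this
    · have : jacobiSym (c : ℤ) m = 0 := by
        rw [jacobiSym.eq_zero_iff]
        refine ⟨hm.ne', ?_⟩
        rw [Int.gcd_natCast_natCast]
        exact h3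
      rw [this, mul_zero]
  rw [h2]
  simp only [h1]
  by_cases h3 : j = 0 ∨ Odd c <;> by_cases h4 : c.Coprime m <;> simp [h3, h4]

theorem rc_sm_avg (h : ℕ → ℝ) (h0 : ∀ m, 0 ≤ h m) (K : ℕ) :
    (K : ℝ) * ∑ m ∈ blk K, h m ≤ ∑ i ∈ Finset.range K, ∑ l ∈ Finset.range (2 * K),
      (if Odd (i + l) then h (i + l) else 0) := by
  have h1 : ∀ i ∈ Finset.range K, ∑ m ∈ blk K, h m ≤ ∑ l ∈ Finset.range (2 * K),
      (if Odd (i + l) then h (i + l) else 0) := by
    intro i hi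
    rw [Finset.mem_range] at hi
    have e : ∑ l ∈ Finset.range (2 * K), (if Odd (i + l) then h (i + l) else 0) =
        ∑ m ∈ Finset.Ico i (i + 2 * K), (if Odd m then h m else 0) := by
      rw [Finset.sum_Ico_eq_sum_range]
      simp
    rw [e]
    unfold blk
    rw [Finset.sum_filter]
    apply Finset.sum_le_sum_of_subset_of_nonneg
    · apply Finset.Ico_subset_Ico hi.le
      omega
    · intro m _ _
      split_ifs
      · exact h0 m
      · exact le_rfl
  calc (K : ℝ) * ∑ m ∈ blk K, h m = ∑ i ∈ Finset.range K, ∑ m ∈ blk K, h m := by simp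
    _ ≤ _ := Finset.sum_le_sum h1

theorem rc_sm_avg2 (h : ℕ → ℝ) (h0 : ∀ m, 0 ≤ h m) (K : ℕ) :
    ∑ i ∈ Finset.range K, ∑ l ∈ Finset.range (2 * K), h (i + l) ≤
      K * ∑ m ∈ Finset.range (3 * K), h m := by
  have h1 : ∀ i ∈ Finset.range K, ∑ l ∈ Finset.range (2 * K), h (i + l) ≤
      ∑ m ∈ Finset.range (3 * K), h m := by
    intro i hi
    rw [Finset.mem_range] at hi
    have e : ∑ l ∈ Finset.range (2 * K), h (i + l) =
        ∑ m ∈ Finset.Ico i (i + 2 * K), h m := by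
      rw [Finset.sum_Ico_eq_sum_range]
      simp
    rw [e, Finset.range_eq_Ico]
    apply Finset.sum_le_sum_of_subset_of_nonneg
    · apply Finset.Ico_subset_Ico (Nat.zero_le _)
      omega
    · intro m _ _
      exact h0 m
  calc _ ≤ ∑ i ∈ Finset.range K, ∑ m ∈ Finset.range (3 * K), h m := Finset.sum_le_sum h1
    _ = _ := by simp

theorem sm_pr {f : ℝ → ℝ} (hf : Ker f) : ∃ C : ℝ, 0 < C ∧ ∀ (j : Fin 4) (K : ℕ) (δ : ℝ), 2 ≤ K →
    0 < δ → 1 ≤ 100 * δ ^ 2 * K →
    ∑ m ∈ blk K, (∑' n : ℕ, (rv j m n : ℝ) * f (n * δ)) ^ 2 ≤ C * K / δ := by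
  obtain ⟨C1, hC1, H1⟩ := off
  obtain ⟨C2, hC2, H2⟩ := diag hf
  obtain ⟨C3, hC3, H3⟩ := mean
  obtain ⟨C4, hC4, H4⟩ := rc_sm_bd hf.toDec
  refine ⟨C2 * C3 + C1 * C4 * 10000, by positivity, fun j K δ hK hδ hKδ => ?_⟩
  obtain ⟨hS1, hS2, hS3⟩ := H4 δ hδ
  have hKpos : (0 : ℝ) < K := by
    have : 0 < K := by omega
    exact_mod_cast this
  set F : ℕ → ℝ := rc_sm_F f δ with hF
  set S : ℝ := ∑' n : ℕ, (n : ℝ) ^ (3 / 2 : ℝ) * |F n| with hS
  set h : ℕ → ℝ := fun m => (∑' n : ℕ, (rv j m n : ℝ) * F n) ^ 2 with hh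
  have hrvs : ∀ m : ℕ, Summable (fun n : ℕ => ‖(rv j m n : ℝ) * F n‖) := by
    intro m
    refine Summable.of_nonneg_of_le (fun n => norm_nonneg _) (fun n => ?_) hS2
    rw [Real.norm_eq_abs, abs_mul]
    exact mul_le_of_le_one_left (abs_nonneg _) (rc_sm_rv_abs j m n)
  -- step 1
  have st1 : ∑ m ∈ blk K, (∑' n : ℕ, (rv j m n : ℝ) * f (n * δ)) ^ 2 = ∑ m ∈ blk K, h m := by
    refine Finset.sum_congr rfl fun m hm => ?_
    have hm2 : 2 ≤ m := by
      unfold blk at hm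
      rw [Finset.mem_filter, Finset.mem_Ico] at hm
      omega
    simp only [hh]
    congr 1
    refine tsum_congr fun n => ?_
    by_cases hn : n = 0
    · subst hn
      have : rv j m 0 = 0 := by
        unfold rv
        rw [Nat.cast_zero, jacobiSym.zero_left (by omega), mul_zero]
      simp [this]
    · simp [hF, rc_sm_F, hn]
  -- step 2
  have st2 := rc_sm_avg h (fun m => by positivity) K
  -- the product expansion
  set G : ℕ → ℕ × ℕ → ℝ := fun m p => (rv j m p.1 : ℝ) * F p.1 * ((rv j m p.2 : ℝ) * F p.2) with hG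
  have hGs : ∀ m, Summable (G m) := fun m =>
    summable_mul_of_summable_norm (hrvs m) (hrvs m)
  have hGn : ∀ m, Summable fun p => ‖G m p‖ := by
    intro m
    have := (hrvs m).mul_of_nonneg (hrvs m) (fun n => norm_nonneg _) (fun n => norm_nonneg _)
    refine this.congr fun p => ?_
    simp only [hG, norm_mul]
  have st3 : ∀ m, h m = ∑' p : ℕ × ℕ, G m p := by
    intro m
    simp only [hh, hG]
    rw [pow_two, tsum_mul_tsum_of_summable_norm (hrvs m) (hrvs m)]
  have hA : ∀ m, Summable fun p : ℕ × ℕ => if IsSquare (p.1 * p.2) then G m p else 0 := by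
    intro m
    refine Summable.of_norm_bounded (hGn m) fun p => ?_
    split_ifs
    · exact le_rfl
    · simp
  have hB : ∀ m, Summable fun p : ℕ × ℕ => if IsSquare (p.1 * p.2) then 0 else G m p := by
    intro m
    refine Summable.of_norm_bounded (hGn m) fun p => ?_
    split_ifs
    · simp
    · exact le_rfl
  have st4 : ∀ m, h m = (∑' p : ℕ × ℕ, if IsSquare (p.1 * p.2) then G m p else 0) +
      ∑' p : ℕ × ℕ, if IsSquare (p.1 * p.2) then 0 else G m p := by
    intro m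
    rw [st3, ← (hA m).tsum_add (hB m)]
    refine tsum_congr fun p => ?_
    split_ifs <;> simp
  -- the diagonal
  have stA : ∀ m, 0 < m → (∑' p : ℕ × ℕ, if IsSquare (p.1 * p.2) then G m p else 0) ≤
      C2 * (∑ d ∈ (2 * m).divisors, 1 / (d : ℝ)) ^ 2 / δ := by
    intro m hm
    have e : (∑' p : ℕ × ℕ, if IsSquare (p.1 * p.2) then G m p else 0) =
        ∑' p : ℕ × ℕ, (if 0 < p.1 ∧ 0 < p.2 ∧ IsSquare (p.1 * p.2) ∧
          (p.1 * p.2).Coprime (if j = 0 then m else 2 * m) then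
            f (p.1 * δ) * f (p.2 * δ) else 0) := by
      refine tsum_congr fun p => ?_
      by_cases hp1 : p.1 = 0
      · simp [hG, hF, rc_sm_F, hp1]
      by_cases hp2 : p.2 = 0
      · simp [hG, hF, rc_sm_F, hp2]
      have hp1' : 0 < p.1 := Nat.pos_of_ne_zero hp1
      have hp2' : 0 < p.2 := Nat.pos_of_ne_zero hp2
      simp only [hp1', hp2', true_and]
      by_cases hs : IsSquare (p.1 * p.2)
      · simp only [hs, true_and, if_true]
        have := rc_sm_rv_sq j m p.1 p.2 hm hs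
        have e2 : G m p = ((rv j m p.1 * rv j m p.2 : ℤ) : ℝ) * (f (p.1 * δ) * f (p.2 * δ)) := by
          simp only [hG, hF, rc_sm_F, hp1, hp2, if_false]
          push_cast
          ring
        rw [e2, this]
        push_cast
        rw [ite_mul, one_mul, zero_mul]
      · simp [hs]
    rw [e]
    have hM : 0 < (if j = 0 then m else 2 * m) := by split_ifs <;> omega
    refine (le_abs_self _).trans ((H2 _ δ hM hδ).trans ?_)
    apply div_le_div_of_nonneg_right _ hδ.le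
    apply mul_le_mul_of_nonneg_left _ hC2.le
    apply pow_le_pow_left₀ (Finset.sum_nonneg fun d _ => by positivity)
    apply Finset.sum_le_sum_of_subset_of_nonneg
    · apply Nat.divisors_subset_of_dvd (by omega)
      split_ifs
      · exact dvd_mul_left _ _
      · exact dvd_rfl
    · intro d _ _
      positivity
  -- sum of the diagonal
  have stA2 : ∑ i ∈ Finset.range K, ∑ l ∈ Finset.range (2 * K), (if Odd (i + l) then
      (∑' p : ℕ × ℕ, if IsSquare (p.1 * p.2) then G (i + l) p else 0) else 0) ≤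
        K * (C2 * (C3 * K) / δ) := by
    calc _ ≤ ∑ i ∈ Finset.range K, ∑ l ∈ Finset.range (2 * K),
          C2 * (∑ d ∈ (2 * (i + l)).divisors, 1 / (d : ℝ)) ^ 2 / δ := by
          refine Finset.sum_le_sum fun i _ => Finset.sum_le_sum fun l _ => ?_
          split_ifs with ho
          · exact stA (i + l) ho.pos
          · positivity
      _ ≤ K * ∑ m ∈ Finset.range (3 * K),
          C2 * (∑ d ∈ (2 * m).divisors, 1 / (d : ℝ)) ^ 2 / δ :=
          rc_sm_avg2 (fun m => C2 * (∑ d ∈ (2 * m).divisors, 1 / (d : ℝ)) ^ 2 / δ)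
            (fun m => by positivity) K
      _ ≤ _ := by
          apply mul_le_mul_of_nonneg_left _ hKpos.le
          rw [← Finset.sum_div, ← Finset.mul_sum]
          apply div_le_div_of_nonneg_right _ hδ.le
          exact mul_le_mul_of_nonneg_left (H3 K) hC2.le
  -- the off-diagonal
  set W : ℕ × ℕ → ℝ := fun p => ∑ i ∈ Finset.range K, ∑ l ∈ Finset.range (2 * K),
    (if Odd (i + l) then ((jacobiSym ((p.1 * p.2 : ℕ) : ℤ) (i + l) : ℤ) : ℝ) else 0) with hW
  have stB1 : ∑ i ∈ Finset.range K, ∑ l ∈ Finset.range (2 * K), (if Odd (i + l) then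
      (∑' p : ℕ × ℕ, if IsSquare (p.1 * p.2) then 0 else G (i + l) p) else 0) =
        ∑' p : ℕ × ℕ, (if IsSquare (p.1 * p.2) then 0 else
          F p.1 * F p.2 * (psi j (p.1 * p.2) : ℝ) * W p) := by
    have e1 : ∀ i l : ℕ, (if Odd (i + l) then
        (∑' p : ℕ × ℕ, if IsSquare (p.1 * p.2) then 0 else G (i + l) p) else 0) =
          ∑' p : ℕ × ℕ, (if Odd (i + l) then
            (if IsSquare (p.1 * p.2) then 0 else G (i + l) p) else 0) := by
      intro i l
      split_ifs <;> simp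
    have e2 : ∀ i l : ℕ, Summable fun p : ℕ × ℕ => (if Odd (i + l) then
            (if IsSquare (p.1 * p.2) then 0 else G (i + l) p) else 0) := by
      intro i l
      split_ifs
      · exact hB _
      · exact summable_zero
    simp only [e1]
    have e3 : ∀ i, ∑ l ∈ Finset.range (2 * K), ∑' p : ℕ × ℕ, (if Odd (i + l) then
            (if IsSquare (p.1 * p.2) then 0 else G (i + l) p) else 0) =
        ∑' p : ℕ × ℕ, ∑ l ∈ Finset.range (2 * K), (if Odd (i + l) then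
            (if IsSquare (p.1 * p.2) then 0 else G (i + l) p) else 0) := fun i =>
      (Summable.tsum_finsetSum fun l _ => e2 i l).symm
    simp only [e3]
    rw [← Summable.tsum_finsetSum fun i _ => summable_sum fun l _ => e2 i l]
    refine tsum_congr fun p => ?_
    by_cases hs : IsSquare (p.1 * p.2)
    · simp [hs]
    · simp only [hs, if_false]
      simp only [hW, Finset.mul_sum]
      refine Finset.sum_congr rfl fun i _ => Finset.sum_congr rfl fun l _ => ?_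
      split_ifs with ho
      · have e4 : G (i + l) p = F p.1 * F p.2 * ((rv j (i + l) p.1 * rv j (i + l) p.2 : ℤ) : ℝ) := by
          simp only [hG]
          push_cast
          ring
        rw [e4, rc_sm_rv_mul]
        push_cast
        ring
      · simp
  have hSS : Summable fun p : ℕ × ℕ => ((p.1 : ℝ) ^ (3 / 2 : ℝ) * |F p.1|) *
      ((p.2 : ℝ) ^ (3 / 2 : ℝ) * |F p.2|) :=
    hS1.mul_of_nonneg hS1 (fun n => by positivity) (fun n => by positivity)
  have stB2 : ∀ p : ℕ × ℕ, ‖(if IsSquare (p.1 * p.2) then 0 else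
      F p.1 * F p.2 * (psi j (p.1 * p.2) : ℝ) * W p)‖ ≤
        C1 * (((p.1 : ℝ) ^ (3 / 2 : ℝ) * |F p.1|) * ((p.2 : ℝ) ^ (3 / 2 : ℝ) * |F p.2|)) := by
    intro p
    split_ifs with hs
    · rw [norm_zero]
      positivity
    · have h1 := H1 (p.1 * p.2) K hs
      have h2 : |(psi j (p.1 * p.2) : ℝ)| ≤ 1 := by
        exact_mod_cast rc_sm_psi_abs j (p.1 * p.2)
      have h3 : (((p.1 * p.2 : ℕ) : ℕ) : ℝ) ^ (3 / 2 : ℝ) =
          (p.1 : ℝ) ^ (3 / 2 : ℝ) * (p.2 : ℝ) ^ (3 / 2 : ℝ) := by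
        push_cast
        rw [Real.mul_rpow (by positivity) (by positivity)]
      rw [h3] at h1
      rw [Real.norm_eq_abs, abs_mul, abs_mul, abs_mul]
      calc |F p.1| * |F p.2| * |(psi j (p.1 * p.2) : ℝ)| * |W p| ≤
            |F p.1| * |F p.2| * 1 * (C1 * ((p.1 : ℝ) ^ (3 / 2 : ℝ) * (p.2 : ℝ) ^ (3 / 2 : ℝ))) := by
            gcongr
        _ = _ := by ring
  have stB3 : ∑' p : ℕ × ℕ, (if IsSquare (p.1 * p.2) then 0 else
      F p.1 * F p.2 * (psi j (p.1 * p.2) : ℝ) * W p) ≤ C1 * S ^ 2 := by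
    have hsum : Summable fun p : ℕ × ℕ => ‖(if IsSquare (p.1 * p.2) then 0 else
        F p.1 * F p.2 * (psi j (p.1 * p.2) : ℝ) * W p)‖ :=
      Summable.of_nonneg_of_le (fun p => norm_nonneg _) stB2 (hSS.mul_left _)
    calc _ ≤ ∑' p : ℕ × ℕ, ‖(if IsSquare (p.1 * p.2) then 0 else
            F p.1 * F p.2 * (psi j (p.1 * p.2) : ℝ) * W p)‖ :=
          hsum.of_norm.tsum_le_tsum (fun p => le_abs_self _) hsum
      _ ≤ ∑' p : ℕ × ℕ, C1 * (((p.1 : ℝ) ^ (3 / 2 : ℝ) * |F p.1|) *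
            ((p.2 : ℝ) ^ (3 / 2 : ℝ) * |F p.2|)) :=
          hsum.tsum_le_tsum stB2 (hSS.mul_left _)
      _ = C1 * S ^ 2 := by
          have hn : Summable fun n : ℕ => ‖(n : ℝ) ^ (3 / 2 : ℝ) * |F n|‖ :=
            hS1.congr fun n => (Real.norm_of_nonneg (by positivity)).symm
          rw [tsum_mul_left, pow_two, hS, tsum_mul_tsum_of_summable_norm hn hn]
  -- conclusion
  have fin1 : (K : ℝ) * ∑ m ∈ blk K, h m ≤ K * (C2 * (C3 * K) / δ) + C1 * S ^ 2 := by
    refine st2.trans ?_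
    have e5 : ∑ i ∈ Finset.range K, ∑ l ∈ Finset.range (2 * K),
        (if Odd (i + l) then h (i + l) else 0) =
        ∑ i ∈ Finset.range K, ∑ l ∈ Finset.range (2 * K), (if Odd (i + l) then
          (∑' p : ℕ × ℕ, if IsSquare (p.1 * p.2) then G (i + l) p else 0) else 0) +
        ∑ i ∈ Finset.range K, ∑ l ∈ Finset.range (2 * K), (if Odd (i + l) then
          (∑' p : ℕ × ℕ, if IsSquare (p.1 * p.2) then 0 else G (i + l) p) else 0) := by
      rw [← Finset.sum_add_distrib]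
      refine Finset.sum_congr rfl fun i _ => ?_
      rw [← Finset.sum_add_distrib]
      refine Finset.sum_congr rfl fun l _ => ?_
      rw [st4]
      split_ifs <;> simp
    rw [e5]
    refine add_le_add stA2 ?_
    rw [stB1]
    exact stB3
  have fin2 : S ^ 2 ≤ C4 * 10000 * K ^ 2 / δ := by
    refine hS3.trans ?_
    rw [div_le_div_iff₀ (by positivity) hδ]
    have h1 : (1 : ℝ) ≤ (100 * δ ^ 2 * K) ^ 2 := one_le_pow₀ hKδ
    calc C4 * δ = C4 * δ * 1 := by ring
      _ ≤ C4 * δ * (100 * δ ^ 2 * K) ^ 2 := mul_le_mul_of_nonneg_left h1 (by positivity)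
      _ = _ := by ring
  rw [st1]
  have fin3 : (K : ℝ) * ∑ m ∈ blk K, h m ≤ K * ((C2 * C3 + C1 * C4 * 10000) * K / δ) := by
    refine fin1.trans ?_
    calc (K : ℝ) * (C2 * (C3 * K) / δ) + C1 * S ^ 2 ≤
          K * (C2 * (C3 * K) / δ) + C1 * (C4 * 10000 * K ^ 2 / δ) := by gcongr
      _ = _ := by
          field_simp
  exact le_of_mul_le_mul_left fin3 hKpos

end Pool.Agent.RC

namespace Pool.Agent.RC

alias sm := sm_pr

end Pool.Agent.RC
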