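import Pool.Agent.Lib_helper39.RC.Defs
import Pool.Agent.Lib_helper39.RCA.DER
import Pool.Agent.Lib_helper39.RCA.FE
import Pool.Agent.Lib_helper39.RCA.KERN
import Pool.Agent.Lib_helper39.RCA.SM
/-!
# Block SU
-/

namespace Pool.Agent.RC

open Complex MeasureTheory Filter Topology
open scoped ContDiff

/-- Pointwise Sobolev inequality on an interval of length `1`. -/
theorem rc_su_sob (g g' : ℝ → ℝ) (hg : ∀ x, HasDerivAt g (g' x) x) (hg' : Continuous g')
    (a v : ℝ) (hv : v ∈ Set.Icc a (a + 1)) :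
    (g v) ^ 2 ≤ ∫ x in a..(a + 1), (2 * (g x) ^ 2 + (g' x) ^ 2) := by
  have hgc : Continuous g := continuous_iff_continuousAt.2 fun x => (hg x).continuousAt
  have hI : ∀ p q : ℝ, IntervalIntegrable (fun x => 2 * (g x) ^ 2 + (g' x) ^ 2) volume p q :=
    fun p q => (by fun_prop : Continuous fun x => 2 * (g x) ^ 2 + (g' x) ^ 2).intervalIntegrable p q
  have hI2 : ∀ p q : ℝ, IntervalIntegrable (fun x => (g x) ^ 2 + (g' x) ^ 2) volume p q :=
    fun p q => (by fun_prop : Continuous fun x => (g x) ^ 2 + (g' x) ^ 2).intervalIntegrable p q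
  have hI3 : ∀ p q : ℝ, IntervalIntegrable (fun x => (g x) ^ 2) volume p q :=
    fun p q => (by fun_prop : Continuous fun x => (g x) ^ 2).intervalIntegrable p q
  have hI4 : ∀ p q : ℝ, IntervalIntegrable (fun x => 2 * g x * g' x) volume p q :=
    fun p q => (by fun_prop : Continuous fun x => 2 * g x * g' x).intervalIntegrable p q
  -- for each `y` in the interval
  have key : ∀ y ∈ Set.Icc a (a + 1),
      (g v) ^ 2 ≤ (g y) ^ 2 + ∫ x in a..(a + 1), ((g x) ^ 2 + (g' x) ^ 2) := by
    intro y hy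
    have h1 : ∫ x in y..v, 2 * g x * g' x = (g v) ^ 2 - (g y) ^ 2 := by
      apply intervalIntegral.integral_eq_sub_of_hasDerivAt (f := fun x => (g x) ^ 2)
      · intro x _
        have := (hg x).fun_pow 2
        simpa using this
      · exact hI4 y v
    have h2 : |∫ x in y..v, 2 * g x * g' x| ≤ |∫ x in y..v, ((g x) ^ 2 + (g' x) ^ 2)| := by
      rw [← Real.norm_eq_abs (∫ x in y..v, 2 * g x * g' x)]
      apply intervalIntegral.norm_integral_le_abs_of_norm_le
      · refine Filter.Eventually.of_forall fun x => ?_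
        rw [Real.norm_eq_abs, abs_le]
        constructor <;> nlinarith [sq_nonneg (g x + g' x), sq_nonneg (g x - g' x)]
      · exact hI2 y v
    have h3 : |∫ x in y..v, ((g x) ^ 2 + (g' x) ^ 2)| ≤
        ∫ x in a..(a + 1), ((g x) ^ 2 + (g' x) ^ 2) := by
      have hnn : ∀ p q : ℝ, p ≤ q → p ∈ Set.Icc a (a + 1) → q ∈ Set.Icc a (a + 1) →
          |∫ x in p..q, ((g x) ^ 2 + (g' x) ^ 2)| ≤
          ∫ x in a..(a + 1), ((g x) ^ 2 + (g' x) ^ 2) := by
        intro p q hpq hp hq
        rw [abs_of_nonneg (intervalIntegral.integral_nonneg hpq fun x _ => by positivity)]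
        apply intervalIntegral.integral_mono_interval hp.1 hpq hq.2
        · exact Filter.Eventually.of_forall fun x => by positivity
        · exact hI2 _ _
      rcases le_total y v with h | h
      · exact hnn y v h hy hv
      · rw [intervalIntegral.integral_symm, abs_neg]
        exact hnn v y h hv hy
    have := le_abs_self (∫ x in y..v, 2 * g x * g' x)
    linarith
  have h5 : ∫ y in a..(a + 1), (g v) ^ 2 ≤
      ∫ y in a..(a + 1), ((g y) ^ 2 + ∫ x in a..(a + 1), ((g x) ^ 2 + (g' x) ^ 2)) := by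
    apply intervalIntegral.integral_mono_on (by linarith)
    · exact intervalIntegrable_const
    · exact (hI3 _ _).add intervalIntegrable_const
    · exact key
  rw [intervalIntegral.integral_add (hI3 _ _) intervalIntegrable_const,
    intervalIntegral.integral_const, intervalIntegral.integral_const] at h5
  simp only [add_sub_cancel_left, one_smul] at h5
  rw [← intervalIntegral.integral_add (hI3 _ _) (hI2 _ _)] at h5
  refine le_trans h5 (le_of_eq ?_)
  apply intervalIntegral.integral_congr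
  intro x _
  simp only
  ring

theorem rc_su_DD_sq (f : ℝ → ℝ) (j : Fin 4) (m : ℕ) (u : ℝ) :
    (DD f 1 j m u) ^ 2 = Real.exp u * (∑' n : ℕ, (rv j m n : ℝ) * f (n * Real.exp u)) ^ 2 := by
  unfold DD
  simp only [Nat.coprime_one_right_eq_true, if_true]
  rw [mul_pow, ← Real.exp_nat_mul]
  congr 2
  push_cast
  ring

theorem rc_su_mem {κ : ℕ} {j : Fin 4} {K m : ℕ} (hm : m ∈ gblk κ j K) :
    m ∈ Finset.Ico K (2 * K) ∧ Good κ j m := by
  classical
  unfold gblk at hm
  exact Finset.mem_filter.1 hm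

theorem rc_su_gblk_sub (κ : ℕ) (j : Fin 4) (K : ℕ) : gblk κ j K ⊆ blk K := by
  intro m hm
  have hm' := rc_su_mem hm
  exact Finset.mem_filter.2 ⟨hm'.1, hm'.2.1⟩

theorem rc_su_range {f : ℝ → ℝ} (hf : Ker f) : ∃ C : ℝ, 0 < C ∧ ∀ (κ : ℕ) (j : Fin 4) (K : ℕ)
    (u : ℝ), 2 ≤ K → 1 ≤ 100 * (Real.exp u) ^ 2 * K →
    ∑ m ∈ gblk κ j K, (DD f 1 j m u) ^ 2 ≤ C * K := by
  obtain ⟨C, hC, h⟩ := sm hf
  refine ⟨C, hC, ?_⟩
  intro κ j K u hK hu
  have h1 := h j K (Real.exp u) hK (Real.exp_pos u) hu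
  calc ∑ m ∈ gblk κ j K, (DD f 1 j m u) ^ 2 ≤ ∑ m ∈ blk K, (DD f 1 j m u) ^ 2 :=
        Finset.sum_le_sum_of_subset_of_nonneg (rc_su_gblk_sub κ j K) fun _ _ _ => sq_nonneg _
    _ = Real.exp u * ∑ m ∈ blk K, (∑' n : ℕ, (rv j m n : ℝ) * f (n * Real.exp u)) ^ 2 := by
        rw [Finset.mul_sum]
        exact Finset.sum_congr rfl fun m _ => rc_su_DD_sq f j m u
    _ ≤ Real.exp u * (C * K / Real.exp u) :=
        mul_le_mul_of_nonneg_left h1 (Real.exp_pos u).le
    _ = C * K := by
        field_simp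

theorem rc_su_cc_pos (j : Fin 4) : 0 < cc j := by
  fin_cases j <;> simp [cc]

theorem rc_su_cc_le (j : Fin 4) : cc j ≤ 8 := by
  fin_cases j <;> simp [cc]

/-- SU (cites SM, KERN, DER, FE). -/
theorem su_pr {κ : ℕ} (hκ : κ ≤ 1) : ∃ C : ℝ, 0 < C ∧ ∀ (j : Fin 4) (K : ℕ) (u : ℝ), 2 ≤ K →
    ∑ m ∈ gblk κ j K, (DD (f1 κ) 1 j m u) ^ 2 ≤ C * K := by
  obtain ⟨C1, hC1, h1⟩ := rc_su_range (ker_f1 hκ)
  obtain ⟨C2, hC2, h2⟩ := rc_su_range (ker_f2 hκ)
  refine ⟨2 * C1 + C2, by positivity, ?_⟩
  intro j K u hK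
  have hK0 : (0 : ℝ) < K := by exact_mod_cast (by omega : 0 < K)
  by_cases hu : 1 ≤ 100 * (Real.exp u) ^ 2 * K
  · refine le_trans (h1 κ j K u hK hu) ?_
    apply mul_le_mul_of_nonneg_right _ hK0.le
    linarith
  · push Not at hu
    have hcc0 : (0 : ℝ) < cc j := by exact_mod_cast rc_su_cc_pos j
    have hcc8 : (cc j : ℝ) ≤ 8 := by exact_mod_cast rc_su_cc_le j
    set u0 : ℝ := -u - Real.log (2 * (cc j * K)) with hu0
    have hrange : ∀ x : ℝ, u0 ≤ x → 1 ≤ 100 * (Real.exp x) ^ 2 * K := by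
      intro x hx
      have e1 : Real.exp u0 ≤ Real.exp x := Real.exp_le_exp.2 hx
      have e2 : Real.exp u0 = (Real.exp u)⁻¹ * (2 * ((cc j : ℝ) * K))⁻¹ := by
        rw [hu0, sub_eq_add_neg, Real.exp_add, Real.exp_neg, Real.exp_neg,
          Real.exp_log (by positivity)]
      have e3 : (Real.exp u0) ^ 2 ≤ (Real.exp x) ^ 2 :=
        pow_le_pow_left₀ (Real.exp_pos _).le e1 2
      have e4 : 1 ≤ 100 * (Real.exp u0) ^ 2 * K := by
        rw [e2, mul_pow, inv_pow, inv_pow]
        have hpos : 0 < (Real.exp u) ^ 2 * (2 * (cc j * K)) ^ 2 := by positivity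
        rw [show 100 * (((Real.exp u) ^ 2)⁻¹ * (((2 : ℝ) * (cc j * K)) ^ 2)⁻¹) * K =
          (100 * K) / ((Real.exp u) ^ 2 * (2 * (cc j * K)) ^ 2) by field_simp]
        rw [le_div_iff₀ hpos, one_mul]
        have f1 : (cc j : ℝ) ^ 2 ≤ 64 := by nlinarith
        have f2 : 0 < (Real.exp u) ^ 2 := by positivity
        have f3 : (Real.exp u) ^ 2 * (2 * (cc j * K)) ^ 2 = (100 * (Real.exp u) ^ 2 * K) * (K * (cc j : ℝ) ^ 2 / 25) := by
          ring
        rw [f3]
        calc (100 * (Real.exp u) ^ 2 * K) * ((K : ℝ) * (cc j : ℝ) ^ 2 / 25)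
            ≤ 1 * ((K : ℝ) * (cc j : ℝ) ^ 2 / 25) := by
              apply mul_le_mul_of_nonneg_right hu.le
              positivity
          _ ≤ 100 * (K : ℝ) := by nlinarith
      calc 1 ≤ 100 * (Real.exp u0) ^ 2 * K := e4
        _ ≤ 100 * (Real.exp x) ^ 2 * K := by
          apply mul_le_mul_of_nonneg_right _ hK0.le
          linarith
    have hder := fun (m : ℕ) (x : ℝ) => (der hκ 1 j m x).2.1
    have hc2 : ∀ m : ℕ, Continuous (DD (f2 κ) 1 j m) := fun m =>
      continuous_iff_continuousAt.2 fun x => (der hκ 1 j m x).2.2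
    have hc1 : ∀ m : ℕ, Continuous (DD (f1 κ) 1 j m) := fun m =>
      continuous_iff_continuousAt.2 fun x => (hder m x).continuousAt
    have hpt : ∀ m ∈ gblk κ j K, (DD (f1 κ) 1 j m u) ^ 2 ≤
        ∫ x in u0..(u0 + 1), (2 * (DD (f1 κ) 1 j m x) ^ 2 + (DD (f2 κ) 1 j m x) ^ 2) := by
      intro m hm
      obtain ⟨hmI, hodd, hm2, χ, hχ⟩ := rc_su_mem hm
      obtain ⟨hmK, hmK2⟩ := Finset.mem_Ico.1 hmI
      have : NeZero (cc j * m) := ⟨by
        have := rc_su_cc_pos j
        have : 0 < cc j * m := Nat.mul_pos this (by omega)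
        omega⟩
      have hfe := fe hm2 χ hχ u
      have hsq : (DD (f1 κ) 1 j m u) ^ 2 =
          (DD (f1 κ) 1 j m (-Real.log ((cc j * m : ℕ) : ℝ) - u)) ^ 2 := by
        rw [← sq_abs, ← hfe, sq_abs]
      rw [hsq]
      apply rc_su_sob _ _ (hder m) (hc2 m)
      have hmK' : (K : ℝ) ≤ m := by exact_mod_cast hmK
      have hmK2' : (m : ℝ) ≤ 2 * K := by exact_mod_cast hmK2.le
      have hm0 : (0 : ℝ) < m := lt_of_lt_of_le hK0 hmK'
      rw [hu0]
      push_cast
      constructor
      · have : Real.log (cc j * m) ≤ Real.log (2 * (cc j * K)) := by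
          apply Real.log_le_log (by positivity)
          nlinarith
        linarith
      · have : Real.log (2 * (cc j * K)) ≤ Real.log (cc j * m) + 1 := by
          rw [Real.log_mul (by norm_num) (by positivity)]
          have l1 : Real.log (cc j * K) ≤ Real.log (cc j * m) := by
            apply Real.log_le_log (by positivity)
            nlinarith
          have l2 : Real.log 2 ≤ 1 := by
            have := Real.log_two_lt_d9
            linarith
          linarith
        linarith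
    have hI : ∀ m : ℕ, IntervalIntegrable (fun x => 2 * (DD (f1 κ) 1 j m x) ^ 2 +
        (DD (f2 κ) 1 j m x) ^ 2) volume u0 (u0 + 1) := by
      intro m
      apply Continuous.intervalIntegrable
      have := hc1 m
      have := hc2 m
      fun_prop
    calc ∑ m ∈ gblk κ j K, (DD (f1 κ) 1 j m u) ^ 2
        ≤ ∑ m ∈ gblk κ j K, ∫ x in u0..(u0 + 1),
            (2 * (DD (f1 κ) 1 j m x) ^ 2 + (DD (f2 κ) 1 j m x) ^ 2) := Finset.sum_le_sum hpt
      _ = ∫ x in u0..(u0 + 1), ∑ m ∈ gblk κ j K,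
            (2 * (DD (f1 κ) 1 j m x) ^ 2 + (DD (f2 κ) 1 j m x) ^ 2) := by
          rw [intervalIntegral.integral_finsetSum]
          intro m _
          exact hI m
      _ ≤ ∫ x in u0..(u0 + 1), ((2 * C1 + C2) * K : ℝ) := by
          apply intervalIntegral.integral_mono_on (by linarith)
          · apply Continuous.intervalIntegrable
            apply continuous_finsetSum
            intro m _
            have := hc1 m
            have := hc2 m
            fun_prop
          · exact intervalIntegrable_const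
          · intro x hx
            rw [Finset.sum_add_distrib, ← Finset.mul_sum]
            have a1 := h1 κ j K x hK (hrange x hx.1)
            have a2 := h2 κ j K x hK (hrange x hx.1)
            nlinarith
      _ = (2 * C1 + C2) * K := by
          rw [intervalIntegral.integral_const]
          simp

end Pool.Agent.RC

namespace Pool.Agent.RC

alias su := su_pr

end Pool.Agent.RC
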