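import Pool.Agent.Lib_helper39.RC.Defs
import Pool.Agent.Lib_helper39.RCA.DER
import Pool.Agent.Lib_helper39.RCA.HATC
import Pool.Agent.Lib_helper39.RCA.REP1
import Pool.Agent.Lib_helper39.RCA.SU
/-!
# Block ONE
-/

namespace Pool.Agent.RC

open Complex MeasureTheory Filter Topology
open scoped ContDiff

theorem rc_one_cc_pos (j : Fin 4) : 0 < cc j := by
  fin_cases j <;> simp [cc]

theorem rc_one_mem {κ : ℕ} {j : Fin 4} {K m : ℕ} (hm : m ∈ gblk κ j K) :
    m ∈ Finset.Ico K (2 * K) ∧ Good κ j m := by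
  classical
  unfold gblk at hm
  exact Finset.mem_filter.1 hm

/-- The quotient `w t / t` is smooth with compact support. -/
theorem rc_one_w1 (w : ℝ → ℝ) (hw : ContDiff ℝ ∞ w) (hc : HasCompactSupport w)
    (h0 : (0 : ℝ) ∉ tsupport w) :
    ContDiff ℝ 2 (fun t => ((w t / t : ℝ) : ℂ)) ∧
      HasCompactSupport (fun t => ((w t / t : ℝ) : ℂ)) := by
  constructor
  · have h1 : ContDiff ℝ 2 (fun t => w t / t) := by
      rw [contDiff_iff_contDiffAt]
      intro t
      by_cases ht : t = 0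
      · subst ht
        have : (fun t => w t / t) =ᶠ[𝓝 0] fun _ => 0 := by
          have h2 : (tsupport w)ᶜ ∈ 𝓝 (0 : ℝ) := (isClosed_tsupport w).isOpen_compl.mem_nhds h0
          filter_upwards [h2] with t ht
          rw [image_eq_zero_of_notMem_tsupport ht, zero_div]
        exact (contDiffAt_const).congr_of_eventuallyEq this
      · exact ((contDiff_infty.1 hw 2).contDiffAt).div contDiffAt_id ht
    exact Complex.ofRealCLM.contDiff.comp h1
  · apply HasCompactSupport.mono hc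
    intro t ht
    simp only [Function.mem_support] at ht ⊢
    intro h
    apply ht
    rw [h]
    simp

/-- Cauchy-Schwarz with a weight. -/
theorem rc_one_cs (D g : ℝ → ℝ) (h : ℝ → ℂ) (hD : Measurable D) (hg : Integrable g)
    (hg0 : ∀ u, 0 ≤ g u) (hh : ∀ u, ‖h u‖ ≤ g u) (hD2 : ∃ M : ℝ, ∀ u, (D u) ^ 2 ≤ M) :
    ‖∫ u : ℝ, (D u : ℂ) * h u‖ ^ 2 ≤ (∫ u : ℝ, g u) * ∫ u : ℝ, g u * (D u) ^ 2 := by
  obtain ⟨M, hM⟩ := hD2
  have hI2 : Integrable fun u => g u * (D u) ^ 2 := by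
    apply Integrable.mono' (hg.mul_const M)
    · exact hg.aestronglyMeasurable.mul (hD.pow_const 2).aestronglyMeasurable
    · refine Filter.Eventually.of_forall fun u => ?_
      rw [Real.norm_eq_abs, abs_of_nonneg (by have := hg0 u; positivity)]
      exact mul_le_mul_of_nonneg_left (hM u) (hg0 u)
  have hI1 : Integrable fun u => g u * |D u| := by
    apply Integrable.mono' (hg.add hI2)
    · exact hg.aestronglyMeasurable.mul (hD.abs).aestronglyMeasurable
    · refine Filter.Eventually.of_forall fun u => ?_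
      have hg0u := hg0 u
      rw [Real.norm_eq_abs, abs_of_nonneg (by positivity)]
      have : |D u| ≤ 1 + (D u) ^ 2 := by
        rw [← sq_abs]
        nlinarith [sq_nonneg (|D u| - 1), abs_nonneg (D u)]
      simp only [Pi.add_apply]
      nlinarith
  have h1 : ‖∫ u : ℝ, (D u : ℂ) * h u‖ ≤ ∫ u : ℝ, g u * |D u| := by
    apply norm_integral_le_of_norm_le hI1
    refine Filter.Eventually.of_forall fun u => ?_
    rw [norm_mul, Complex.norm_real, Real.norm_eq_abs, mul_comm]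
    exact mul_le_mul_of_nonneg_right (hh u) (abs_nonneg _)
  have hA : 0 ≤ ∫ u : ℝ, g u := integral_nonneg hg0
  have hB : 0 ≤ ∫ u : ℝ, g u * (D u) ^ 2 := integral_nonneg fun u => by
    have := hg0 u
    positivity
  -- quadratic trick: for all real s: 0 ≤ ∫ g (|D| - s)^2
  have h2 : ∀ s : ℝ, 0 ≤ (∫ u : ℝ, g u * (D u) ^ 2) - 2 * s * (∫ u : ℝ, g u * |D u|)
      + s ^ 2 * ∫ u : ℝ, g u := by
    intro s
    have e : ∫ u : ℝ, g u * (|D u| - s) ^ 2 = (∫ u : ℝ, g u * (D u) ^ 2)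
        - 2 * s * (∫ u : ℝ, g u * |D u|) + s ^ 2 * ∫ u : ℝ, g u := by
      have ea : ∫ u : ℝ, (g u * (D u) ^ 2 - 2 * s * (g u * |D u|)) =
          (∫ u : ℝ, g u * (D u) ^ 2) - ∫ u : ℝ, 2 * s * (g u * |D u|) :=
        integral_sub hI2 (hI1.const_mul _)
      have eb : ∫ u : ℝ, ((g u * (D u) ^ 2 - 2 * s * (g u * |D u|)) + s ^ 2 * g u) =
          (∫ u : ℝ, (g u * (D u) ^ 2 - 2 * s * (g u * |D u|))) + ∫ u : ℝ, s ^ 2 * g u :=
        integral_add (hI2.sub (hI1.const_mul _)) (hg.const_mul _)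
      rw [ea, integral_const_mul, integral_const_mul] at eb
      rw [← eb]
      congr 1
      ext u
      rw [← sq_abs (D u)]
      ring
    rw [← e]
    exact integral_nonneg fun u => mul_nonneg (hg0 u) (sq_nonneg _)
  have h3 : (∫ u : ℝ, g u * |D u|) ^ 2 ≤ (∫ u : ℝ, g u) * ∫ u : ℝ, g u * (D u) ^ 2 := by
    set A := ∫ u : ℝ, g u
    set B := ∫ u : ℝ, g u * (D u) ^ 2
    set X := ∫ u : ℝ, g u * |D u|
    have := discrim_le_zero (a := A) (b := -2 * X) (c := B) (fun s => by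
      have := h2 s
      nlinarith)
    unfold discrim at this
    nlinarith
  exact le_trans (pow_le_pow_left₀ (norm_nonneg _) h1 2) h3

theorem rc_one_id {κ : ℕ} (w : ℝ → ℝ) (j : Fin 4) (m : ℕ) (hq : 0 < cc j * m)
    (hi : Integrable (DD (f1 κ) 1 j m))
    (hθ : ContDiff ℝ 2 (fun t => ((w t / t : ℝ) : ℂ)))
    (hθc : HasCompactSupport (fun t => ((w t / t : ℝ) : ℂ))) (hw0 : w 0 = 0) :
    ∫ t : ℝ, (w t : ℂ) * (((cc j * m : ℕ) : ℂ) ^ ((t : ℂ) * I / 2) * Lr κ j m t) =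
      I * ∫ u : ℝ, (DD (f1 κ) 1 j m u : ℂ) *
        hatc (fun t => ((w t / t : ℝ) : ℂ)) (u + Real.log ((cc j * m : ℕ) : ℝ) / 2) := by
  set θ : ℝ → ℂ := fun t => ((w t / t : ℝ) : ℂ) with hθdef
  set D := DD (f1 κ) 1 j m with hDdef
  set L : ℝ := Real.log ((cc j * m : ℕ) : ℝ) with hL
  have hθi : Integrable θ := hθ.continuous.integrable_of_hasCompactSupport hθc
  have hpow : ∀ t : ℝ, (((cc j * m : ℕ) : ℂ) ^ ((t : ℂ) * I / 2)) = cexp (t * (L / 2 : ℝ) * I) := by
    intro t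
    rw [Complex.cpow_def_of_ne_zero (by exact_mod_cast hq.ne')]
    congr 1
    rw [← Complex.ofReal_natCast, ← Complex.ofReal_log (by positivity), ← hL]
    push_cast
    ring
  have h1 : ∀ t : ℝ, (w t : ℂ) * (((cc j * m : ℕ) : ℂ) ^ ((t : ℂ) * I / 2) * Lr κ j m t) =
      I * ∫ u : ℝ, θ t * ((D u : ℂ) * cexp (t * (u + L / 2 : ℝ) * I)) := by
    intro t
    rw [hpow]
    unfold Lr
    simp only [← hDdef]
    rw [integral_const_mul]
    have h2 : ∫ u : ℝ, (D u : ℂ) * cexp (t * (u + L / 2 : ℝ) * I) =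
        cexp (t * (L / 2 : ℝ) * I) * ∫ u : ℝ, (D u : ℂ) * cexp (t * u * I) := by
      rw [← integral_const_mul]
      congr 1
      ext u
      rw [mul_left_comm, ← Complex.exp_add]
      congr 2
      push_cast
      ring
    rw [h2]
    by_cases ht : t = 0
    · subst ht
      simp [hw0, hθdef]
    · have ht' : (t : ℂ) ≠ 0 := by exact_mod_cast ht
      simp only [hθdef]
      push_cast
      field_simp
  simp_rw [h1]
  rw [integral_const_mul]
  congr 1
  rw [integral_integral_swap]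
  · congr 1
    ext u
    unfold hatc
    rw [← integral_const_mul]
    congr 1
    ext t
    push_cast
    ring
  · have : Integrable (fun p : ℝ × ℝ => θ p.1 * (D p.2 : ℂ)) (volume.prod volume) :=
      hθi.mul_prod hi.ofReal
    have h3 : (Function.uncurry fun (t u : ℝ) => θ t * ((D u : ℂ) * cexp (t * (u + L / 2 : ℝ) * I)))
        = fun p : ℝ × ℝ => (θ p.1 * (D p.2 : ℂ)) * cexp (p.1 * (p.2 + L / 2 : ℝ) * I) := by
      ext p
      simp only [Function.uncurry]
      ring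
    rw [h3]
    apply this.mul_bdd (c := 1)
    · apply Continuous.aestronglyMeasurable
      fun_prop
    · refine Filter.Eventually.of_forall fun p => ?_
      have : (p.1 : ℂ) * ((p.2 + L / 2 : ℝ) : ℂ) * I = ((p.1 * (p.2 + L / 2) : ℝ) : ℂ) * I := by
        push_cast; ring
      rw [this, Complex.norm_exp_ofReal_mul_I]

/-- ONE: the mean square of the smoothed integral is bounded (cites SU, REP1, HATC). -/
theorem one_pr {κ : ℕ} (hκ : κ ≤ 1) (w : ℝ → ℝ) (hw : ContDiff ℝ ∞ w) (hc : HasCompactSupport w)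
    (h0 : (0 : ℝ) ∉ tsupport w) : ∃ C : ℝ, 0 < C ∧ ∀ (j : Fin 4) (K : ℕ), 2 ≤ K →
    ∑ m ∈ gblk κ j K,
      ‖∫ t : ℝ, (w t : ℂ) * (((cc j * m : ℕ) : ℂ) ^ ((t : ℂ) * I / 2) * Lr κ j m t)‖ ^ 2 ≤
        C * K := by
  obtain ⟨hθ, hθc⟩ := rc_one_w1 w hw hc h0
  obtain ⟨hhc, hhi, C0, hC0⟩ := hat_decay _ hθ hθc
  obtain ⟨C1, hC1, hsu⟩ := su hκ
  have hw0 : w 0 = 0 := image_eq_zero_of_notMem_tsupport h0
  have hC0' : 0 ≤ C0 := by
    have h1 := hC0 0
    have h2 := norm_nonneg (hatc (fun t => ((w t / t : ℝ) : ℂ)) 0)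
    have h3 : 0 ≤ C0 / (1 + (0 : ℝ) ^ 2) := le_trans h2 h1
    simpa using h3
  set G : ℝ → ℝ := fun x => 2 * C0 / (1 + x ^ 2) with hG
  have hGi : Integrable G := by
    have := integrable_inv_one_add_sq.const_mul (2 * C0)
    exact this
  have hG0 : ∀ x, 0 ≤ G x := fun x => by rw [hG]; positivity
  set J : ℝ := ∫ x : ℝ, G x with hJ
  have hJ0 : 0 ≤ J := integral_nonneg hG0
  refine ⟨J ^ 2 * C1 + 1, by positivity, ?_⟩
  intro j K hK
  have hK0 : (0 : ℝ) < K := by exact_mod_cast (by omega : 0 < K)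
  have hcc0 : (0 : ℝ) < cc j := by exact_mod_cast rc_one_cc_pos j
  set L0 : ℝ := Real.log (cc j * K) / 2 with hL0
  set g : ℝ → ℝ := fun u => G (u + L0) with hg
  have hgi : Integrable g := hGi.comp_add_right L0
  have hg0 : ∀ u, 0 ≤ g u := fun u => hG0 _
  have hgJ : ∫ u : ℝ, g u = J := integral_add_right_eq_self G L0
  have hmeas : ∀ m : ℕ, Measurable (DD (f1 κ) 1 j m) := fun m =>
    (continuous_iff_continuousAt.2 fun x => (der hκ 1 j m x).2.1.continuousAt).measurable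
  have hbd : ∀ m ∈ gblk κ j K, ∀ u : ℝ, (DD (f1 κ) 1 j m u) ^ 2 ≤ C1 * K := by
    intro m hm u
    refine le_trans ?_ (hsu j K u hK)
    exact Finset.single_le_sum (f := fun m => (DD (f1 κ) 1 j m u) ^ 2)
      (fun i _ => sq_nonneg _) hm
  have hone : ∀ m ∈ gblk κ j K,
      ‖∫ t : ℝ, (w t : ℂ) * (((cc j * m : ℕ) : ℂ) ^ ((t : ℂ) * I / 2) * Lr κ j m t)‖ ^ 2 ≤
        J * ∫ u : ℝ, g u * (DD (f1 κ) 1 j m u) ^ 2 := by
    intro m hm
    obtain ⟨hmI, hodd, hm2, χ, hχ⟩ := rc_one_mem hm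
    obtain ⟨hmK, hmK2⟩ := Finset.mem_Ico.1 hmI
    have hq : 0 < cc j * m := Nat.mul_pos (rc_one_cc_pos j) (by omega)
    have : NeZero (cc j * m) := ⟨hq.ne'⟩
    obtain ⟨_, hi, _⟩ := rep1 hm2 χ hχ
    rw [rc_one_id w j m hq hi hθ hθc hw0, norm_mul, Complex.norm_I, one_mul, ← hgJ]
    apply rc_one_cs _ _ _ (hmeas m) hgi hg0 _ ⟨C1 * K, hbd m hm⟩
    intro u
    refine le_trans (hC0 _) ?_
    simp only [hg, hG]
    have hmK' : (K : ℝ) ≤ m := by exact_mod_cast hmK
    have hmK2' : (m : ℝ) ≤ 2 * K := by exact_mod_cast hmK2.le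
    have hm0 : (0 : ℝ) < m := lt_of_lt_of_le hK0 hmK'
    push_cast
    have l1 : Real.log (cc j * K) ≤ Real.log (cc j * m) := by
      apply Real.log_le_log (by positivity)
      nlinarith
    have l2 : Real.log (cc j * m) ≤ Real.log (cc j * K) + 1 := by
      have : Real.log (cc j * m) ≤ Real.log (2 * (cc j * K)) := by
        apply Real.log_le_log (by positivity)
        nlinarith
      have e3 : Real.log (2 * (cc j * K)) = Real.log 2 + Real.log (cc j * K) :=
        Real.log_mul (by norm_num) (by positivity)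
      have := Real.log_two_lt_d9
      linarith
    rw [div_le_div_iff₀ (by positivity) (by positivity)]
    set s := Real.log (cc j * m) / 2 - L0 with hs
    have hs0 : 0 ≤ s := by rw [hs, hL0]; linarith
    have hs1 : s ≤ 1 / 2 := by rw [hs, hL0]; linarith
    have e : u + Real.log (cc j * m) / 2 = (u + L0) + s := by rw [hs]; ring
    rw [e]
    set x := u + L0
    have : 1 + x ^ 2 ≤ 2 * (1 + (x + s) ^ 2) := by nlinarith [sq_nonneg (x + 2 * s)]
    nlinarith
  have hI : ∀ m ∈ gblk κ j K, Integrable fun u => g u * (DD (f1 κ) 1 j m u) ^ 2 := by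
    intro m hm
    apply Integrable.mono' (hgi.mul_const (C1 * K))
    · exact hgi.aestronglyMeasurable.mul ((hmeas m).pow_const 2).aestronglyMeasurable
    · refine Filter.Eventually.of_forall fun u => ?_
      rw [Real.norm_eq_abs, abs_of_nonneg (by have := hg0 u; positivity)]
      exact mul_le_mul_of_nonneg_left (hbd m hm u) (hg0 u)
  calc ∑ m ∈ gblk κ j K,
      ‖∫ t : ℝ, (w t : ℂ) * (((cc j * m : ℕ) : ℂ) ^ ((t : ℂ) * I / 2) * Lr κ j m t)‖ ^ 2
      ≤ ∑ m ∈ gblk κ j K, J * ∫ u : ℝ, g u * (DD (f1 κ) 1 j m u) ^ 2 := Finset.sum_le_sum hone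
    _ = J * ∫ u : ℝ, ∑ m ∈ gblk κ j K, g u * (DD (f1 κ) 1 j m u) ^ 2 := by
        rw [← Finset.mul_sum, integral_finsetSum _ hI]
    _ ≤ J * ∫ u : ℝ, g u * (C1 * K) := by
        apply mul_le_mul_of_nonneg_left _ hJ0
        apply integral_mono (integrable_finsetSum _ hI) (hgi.mul_const _)
        intro u
        simp only
        rw [← Finset.mul_sum]
        exact mul_le_mul_of_nonneg_left (hsu j K u hK) (hg0 u)
    _ = J ^ 2 * C1 * K := by
        rw [integral_mul_const, hgJ]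
        ring
    _ ≤ (J ^ 2 * C1 + 1) * K := by nlinarith

end Pool.Agent.RC

namespace Pool.Agent.RC

alias one := one_pr

end Pool.Agent.RC
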