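import Pool.Agent.Lib_helper39.RC.Defs
/-!
# Block MEANR: mean values of the rough divisor sum
-/

namespace Pool.Agent.RC

open Filter Topology

theorem rc_meanr_count {R D c K : ℕ} (hR : 0 < R) (hD : 0 < D) (hcop : D.Coprime R) :
    (((cls R c K).filter (fun m => D ∣ m)).card : ℝ) ≤ K / (R * D) + 1 := by
  rcases Finset.eq_empty_or_nonempty ((cls R c K).filter (fun m => D ∣ m)) with h | ⟨m₀, hm₀⟩
  · rw [h, Finset.card_empty, Nat.cast_zero]
    positivity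
  · have hsub : (cls R c K).filter (fun m => D ∣ m) ⊆
        (Finset.Ico K (2 * K)).filter (fun x => x ≡ m₀ [MOD (R * D)]) := by
      intro m hm
      unfold cls at hm hm₀
      rw [Finset.mem_filter, Finset.mem_filter] at hm hm₀
      rw [Finset.mem_filter]
      refine ⟨hm.1.1, ?_⟩
      have h1 : m ≡ m₀ [MOD R] := hm.1.2.trans hm₀.1.2.symm
      have h2 : m ≡ m₀ [MOD D] :=
        ((Nat.modEq_zero_iff_dvd).2 hm.2).trans ((Nat.modEq_zero_iff_dvd).2 hm₀.2).symm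
      exact (Nat.modEq_and_modEq_iff_modEq_mul hcop.symm).1 ⟨h1, h2⟩
    have hcard := Finset.card_le_card hsub
    have hRD : 0 < R * D := Nat.mul_pos hR hD
    have h3 := Nat.Ico_filter_modEq_card K (2 * K) hRD m₀
    have h4 : ((((Finset.Ico K (2 * K)).filter (fun x => x ≡ m₀ [MOD (R * D)])).card : ℤ) : ℚ) ≤
        (K : ℚ) / (R * D) + 1 := by
      rw [h3]
      push_cast
      rw [max_le_iff]
      constructor
      · have h5 := Int.ceil_lt_add_one (((2 * K : ℕ) - m₀ : ℚ) / ((R * D : ℕ) : ℚ))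
        have h6 := Int.le_ceil (((K : ℕ) - m₀ : ℚ) / ((R * D : ℕ) : ℚ))
        have e : (((2 * K : ℕ) - m₀ : ℚ) / ((R * D : ℕ) : ℚ)) -
            (((K : ℕ) - m₀ : ℚ) / ((R * D : ℕ) : ℚ)) = (K : ℚ) / (R * D) := by
          push_cast
          ring
        push_cast at h5 h6 e
        linarith
      · positivity
    have h7 : (((Finset.Ico K (2 * K)).filter (fun x => x ≡ m₀ [MOD (R * D)])).card : ℝ) ≤
        (K : ℝ) / (R * D) + 1 := by
      have := (Rat.cast_le (K := ℝ)).2 h4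
      push_cast at this
      exact this
    have h8 : (((cls R c K).filter (fun m => D ∣ m)).card : ℝ) ≤
        ((Finset.Ico K (2 * K)).filter (fun x => x ≡ m₀ [MOD (R * D)])).card := by
      exact_mod_cast hcard
    exact h8.trans h7

/-- `d^{-3/2}` -/
noncomputable def rc_meanr_g (d : ℕ) : ℝ := 1 / ((d : ℝ) * √d)

theorem rc_meanr_g_nonneg (d : ℕ) : 0 ≤ rc_meanr_g d := by
  unfold rc_meanr_g
  positivity

theorem rc_meanr_pair {d e : ℕ} (hd : 0 < d) (he : 0 < e) :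
    1 / ((d : ℝ) * e * (Nat.lcm d e : ℝ)) ≤ rc_meanr_g d * rc_meanr_g e := by
  have hd0 : (0 : ℝ) < d := by exact_mod_cast hd
  have he0 : (0 : ℝ) < e := by exact_mod_cast he
  have hl : 0 < Nat.lcm d e := Nat.lcm_pos hd he
  have hl0 : (0 : ℝ) < Nat.lcm d e := by exact_mod_cast hl
  have h1 : (d : ℝ) ≤ Nat.lcm d e := by
    exact_mod_cast Nat.le_of_dvd hl (Nat.dvd_lcm_left d e)
  have h2 : (e : ℝ) ≤ Nat.lcm d e := by
    exact_mod_cast Nat.le_of_dvd hl (Nat.dvd_lcm_right d e)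
  have h3 : √(d : ℝ) * √(e : ℝ) ≤ Nat.lcm d e := by
    rw [← Real.sqrt_mul hd0.le]
    apply Real.sqrt_le_iff.2
    refine ⟨hl0.le, ?_⟩
    rw [pow_two]
    exact mul_le_mul h1 h2 he0.le hl0.le
  have hs1 : 0 < √(d : ℝ) := Real.sqrt_pos.2 hd0
  have hs2 : 0 < √(e : ℝ) := Real.sqrt_pos.2 he0
  unfold rc_meanr_g
  rw [one_div_mul_one_div]
  apply one_div_le_one_div_of_le (by positivity)
  calc (d : ℝ) * √d * (e * √e) = d * e * (√d * √e) := by ring
    _ ≤ d * e * (Nat.lcm d e : ℝ) := mul_le_mul_of_nonneg_left h3 (by positivity)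

theorem rc_meanr_sq {R c K : ℕ} (hR : 0 < R) (T : Finset ℕ)
    (hT : ∀ d ∈ T, 0 < d ∧ d.Coprime R) :
    ∑ m ∈ cls R c K, (∑ d ∈ T, if d ∣ m then 1 / (d : ℝ) else 0) ^ 2 ≤
      K / R * (∑ d ∈ T, rc_meanr_g d) ^ 2 + (∑ d ∈ T, 1 / (d : ℝ)) ^ 2 := by
  have hR0 : (0 : ℝ) < R := by exact_mod_cast hR
  have h1 : ∀ m ∈ cls R c K, (∑ d ∈ T, if d ∣ m then 1 / (d : ℝ) else 0) ^ 2 =
      ∑ d ∈ T, ∑ e ∈ T, if Nat.lcm d e ∣ m then 1 / ((d : ℝ) * e) else 0 := by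
    intro m _
    rw [pow_two, Finset.sum_mul_sum]
    refine Finset.sum_congr rfl fun d _ => Finset.sum_congr rfl fun e _ => ?_
    by_cases hd : d ∣ m <;> by_cases he : e ∣ m
    · rw [if_pos hd, if_pos he, if_pos (Nat.lcm_dvd hd he), one_div_mul_one_div]
    · rw [if_pos hd, if_neg he, if_neg fun h => he ((Nat.dvd_lcm_right d e).trans h), mul_zero]
    · rw [if_neg hd, if_pos he, if_neg fun h => hd ((Nat.dvd_lcm_left d e).trans h), zero_mul]
    · rw [if_neg hd, if_neg he, if_neg fun h => he ((Nat.dvd_lcm_right d e).trans h), mul_zero]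
  rw [Finset.sum_congr rfl h1, Finset.sum_comm]
  have h2 : ∀ d ∈ T, ∑ m ∈ cls R c K, ∑ e ∈ T,
      (if Nat.lcm d e ∣ m then 1 / ((d : ℝ) * e) else 0) ≤
      ∑ e ∈ T, (K / R * (rc_meanr_g d * rc_meanr_g e) + 1 / (d : ℝ) * (1 / (e : ℝ))) := by
    intro d hd
    rw [Finset.sum_comm]
    refine Finset.sum_le_sum fun e he => ?_
    rw [← Finset.sum_filter, Finset.sum_const, nsmul_eq_mul]
    have hd0 : (0 : ℝ) < d := by exact_mod_cast (hT d hd).1
    have he0 : (0 : ℝ) < e := by exact_mod_cast (hT e he).1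
    have hl0 : 0 < Nat.lcm d e := Nat.lcm_pos (hT d hd).1 (hT e he).1
    have hl1 : (0 : ℝ) < Nat.lcm d e := by exact_mod_cast hl0
    have hcop : (Nat.lcm d e).Coprime R :=
      Nat.Coprime.coprime_dvd_left (Nat.lcm_dvd_mul d e)
        (Nat.Coprime.mul_left (hT d hd).2 (hT e he).2)
    have h3 := rc_meanr_count (c := c) (K := K) hR hl0 hcop
    calc (((cls R c K).filter (fun m => Nat.lcm d e ∣ m)).card : ℝ) * (1 / ((d : ℝ) * e))
        ≤ (K / (R * (Nat.lcm d e : ℝ)) + 1) * (1 / ((d : ℝ) * e)) :=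
          mul_le_mul_of_nonneg_right h3 (by positivity)
      _ = K / R * (1 / ((d : ℝ) * e * (Nat.lcm d e : ℝ))) + 1 / (d : ℝ) * (1 / (e : ℝ)) := by
          field_simp
      _ ≤ K / R * (rc_meanr_g d * rc_meanr_g e) + 1 / (d : ℝ) * (1 / (e : ℝ)) := by
          have := mul_le_mul_of_nonneg_left (rc_meanr_pair (hT d hd).1 (hT e he).1)
            (show (0 : ℝ) ≤ K / R by positivity)
          linarith
  refine (Finset.sum_le_sum h2).trans (le_of_eq ?_)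
  rw [pow_two, pow_two, Finset.sum_mul_sum, Finset.sum_mul_sum, Finset.mul_sum,
    ← Finset.sum_add_distrib]
  refine Finset.sum_congr rfl fun d _ => ?_
  rw [Finset.mul_sum, ← Finset.sum_add_distrib]

theorem rc_meanr_step {x : ℝ} (hx : 1 ≤ x) :
    1 / ((x + 1) * √(x + 1)) ≤ 2 / √x - 2 / √(x + 1) := by
  have h0 : (0 : ℝ) < x := by linarith
  have hs : 0 < √x := Real.sqrt_pos.2 h0
  have ht : 0 < √(x + 1) := Real.sqrt_pos.2 (by linarith)
  have hs2 : √x ^ 2 = x := Real.sq_sqrt h0.le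
  have ht2 : √(x + 1) ^ 2 = x + 1 := Real.sq_sqrt (by linarith)
  have hst : √x ≤ √(x + 1) := Real.sqrt_le_sqrt (by linarith)
  rw [div_sub_div _ _ hs.ne' ht.ne', div_le_div_iff₀ (by positivity) (by positivity)]
  set s := √x
  set t := √(x + 1)
  have hts : t ^ 2 - s ^ 2 = 1 := by rw [hs2, ht2]; ring
  rw [← ht2]
  have h5 : 1 ≤ 2 * (t - s) * t := by nlinarith
  calc 1 * (s * t) ≤ (2 * (t - s) * t) * (s * t) :=
        mul_le_mul_of_nonneg_right h5 (by positivity)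
    _ ≤ (2 * (t - s) * t) * (t * t) := by
        refine mul_le_mul_of_nonneg_left ?_ ?_
        · exact mul_le_mul_of_nonneg_right hst ht.le
        · have : 0 ≤ t - s := by linarith
          positivity
    _ = (2 * t - s * 2) * (t ^ 2 * t) := by ring

theorem rc_meanr_tail {y : ℕ} (hy : 1 ≤ y) (n : ℕ) :
    ∑ i ∈ Finset.range n, rc_meanr_g (y + 1 + i) ≤ 2 / √(y : ℝ) - 2 / √((y + n : ℕ) : ℝ) := by
  induction n with
  | zero => simp
  | succ n ih =>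
    rw [Finset.sum_range_succ]
    have hx : (1 : ℝ) ≤ ((y + n : ℕ) : ℝ) := by exact_mod_cast (by omega : 1 ≤ y + n)
    have h := rc_meanr_step hx
    have e1 : rc_meanr_g (y + 1 + n) = 1 / ((((y + n : ℕ) : ℝ) + 1) * √(((y + n : ℕ) : ℝ) + 1)) := by
      unfold rc_meanr_g
      have : ((y + 1 + n : ℕ) : ℝ) = ((y + n : ℕ) : ℝ) + 1 := by push_cast; ring
      rw [this]
    have e2 : ((y + (n + 1) : ℕ) : ℝ) = ((y + n : ℕ) : ℝ) + 1 := by push_cast; ring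
    rw [e1, e2]
    linarith

theorem rc_meanr_tail_le {y : ℕ} (hy : 1 ≤ y) (N : ℕ) :
    ∑ d ∈ Finset.Ico (y + 1) N, rc_meanr_g d ≤ 2 / √(y : ℝ) := by
  rw [Finset.sum_Ico_eq_sum_range]
  refine (rc_meanr_tail hy _).trans ?_
  have : 0 ≤ 2 / √((y + (N - (y + 1)) : ℕ) : ℝ) := by positivity
  linarith

theorem rc_meanr_log (c : ℝ) (hc : 0 < c) : ∃ K0 : ℕ, 1 ≤ K0 ∧ ∀ K ≥ K0,
    (1 + Real.log ((2 * K : ℕ) : ℝ)) ^ 2 ≤ c * K := by
  have h1 := Real.tendsto_pow_log_div_mul_add_atTop 1 0 2 one_ne_zero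
  have h2 := (h1.eventually (gt_mem_nhds (show (0 : ℝ) < c / 8 by positivity))).and
    (eventually_ge_atTop (Real.exp 1))
  obtain ⟨X, hX⟩ := Filter.eventually_atTop.1 h2
  refine ⟨⌈X⌉₊ + 1, by omega, fun K hK => ?_⟩
  have hK1 : (1 : ℝ) ≤ K := by exact_mod_cast (by omega : 1 ≤ K)
  have hXK : X ≤ ((2 * K : ℕ) : ℝ) := by
    have h3 : X ≤ ⌈X⌉₊ := Nat.le_ceil X
    have h4 : (⌈X⌉₊ : ℝ) ≤ ((2 * K : ℕ) : ℝ) := by exact_mod_cast (by omega : ⌈X⌉₊ ≤ 2 * K)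
    linarith
  obtain ⟨h5, h6⟩ := hX _ hXK
  have hpos : (0 : ℝ) < ((2 * K : ℕ) : ℝ) := by push_cast; linarith
  rw [one_mul, add_zero, div_lt_iff₀ hpos] at h5
  have hl : 1 ≤ Real.log ((2 * K : ℕ) : ℝ) := by
    rw [Real.le_log_iff_exp_le hpos]
    exact h6
  have e : ((2 * K : ℕ) : ℝ) = 2 * K := by push_cast; ring
  calc (1 + Real.log ((2 * K : ℕ) : ℝ)) ^ 2 ≤ (2 * Real.log ((2 * K : ℕ) : ℝ)) ^ 2 := by
        apply pow_le_pow_left₀ (by linarith)
        linarith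
    _ = 4 * Real.log ((2 * K : ℕ) : ℝ) ^ 2 := by ring
    _ ≤ 4 * (c / 8 * ((2 * K : ℕ) : ℝ)) := by linarith
    _ = c * K := by rw [e]; ring

theorem rc_meanr_harm (K : ℕ) (T : Finset ℕ) (hT : T ⊆ Finset.Ico 1 (2 * K)) (hK : 1 ≤ K) :
    ∑ d ∈ T, 1 / (d : ℝ) ≤ 1 + Real.log ((2 * K : ℕ) : ℝ) := by
  calc ∑ d ∈ T, 1 / (d : ℝ) ≤ ∑ d ∈ Finset.Ico 1 (2 * K), 1 / (d : ℝ) :=
        Finset.sum_le_sum_of_subset_of_nonneg hT fun d _ _ => by positivity
    _ = ∑ i ∈ Finset.range (2 * K - 1), 1 / ((1 + i : ℕ) : ℝ) := by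
        rw [Finset.sum_Ico_eq_sum_range]
    _ = ((harmonic (2 * K - 1) : ℚ) : ℝ) := by
        unfold harmonic
        push_cast
        refine Finset.sum_congr rfl fun i _ => ?_
        rw [one_div, add_comm]
    _ ≤ 1 + Real.log ((2 * K - 1 : ℕ) : ℝ) := harmonic_le_one_add_log _
    _ ≤ 1 + Real.log ((2 * K : ℕ) : ℝ) := by
        have h1 : (0 : ℝ) < ((2 * K - 1 : ℕ) : ℝ) := by exact_mod_cast (by omega : 0 < 2 * K - 1)
        have h2 : ((2 * K - 1 : ℕ) : ℝ) ≤ ((2 * K : ℕ) : ℝ) := by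
          exact_mod_cast (by omega : 2 * K - 1 ≤ 2 * K)
        linarith [Real.log_le_log h1 h2]

theorem meanr_pr : ∃ C : ℝ, 0 < C ∧ ∀ R y : ℕ, 0 < R → 1 ≤ y →
    (∀ d : ℕ, 1 < d → d.Coprime R → y < d) → ∀ c : ℕ, ∃ K0 : ℕ, ∀ K ≥ K0,
      ∑ m ∈ cls R c K, (sr R m) ^ 2 ≤ C * K / R ∧
      ∑ m ∈ cls R c K, (sr R m - 1) ^ 2 ≤ C * K / (R * y) := by
  refine ⟨10, by norm_num, fun R y hR hy hrough c => ?_⟩
  have hR0 : (0 : ℝ) < R := by exact_mod_cast hR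
  have hy0 : (0 : ℝ) < y := by exact_mod_cast hy
  have hy1 : (1 : ℝ) ≤ y := by exact_mod_cast hy
  obtain ⟨K0, hK01, hK0⟩ := rc_meanr_log (1 / (R * y)) (by positivity)
  refine ⟨K0, fun K hK => ?_⟩
  have hK1 : 1 ≤ K := hK01.trans hK
  have hKR : (1 : ℝ) ≤ K := by exact_mod_cast hK1
  set T1 : Finset ℕ := (Finset.Ico 1 (2 * K)).filter (fun d => d.Coprime R) with hT1
  set T2 : Finset ℕ := (Finset.Ico 2 (2 * K)).filter (fun d => d.Coprime R) with hT2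
  have hT1p : ∀ d ∈ T1, 0 < d ∧ d.Coprime R := by
    intro d hd
    rw [hT1, Finset.mem_filter, Finset.mem_Ico] at hd
    exact ⟨by omega, hd.2⟩
  have hT2p : ∀ d ∈ T2, 0 < d ∧ d.Coprime R := by
    intro d hd
    rw [hT2, Finset.mem_filter, Finset.mem_Ico] at hd
    exact ⟨by omega, hd.2⟩
  have hins : T1 = insert 1 T2 := by
    ext d
    rw [Finset.mem_insert, hT1, hT2, Finset.mem_filter, Finset.mem_filter, Finset.mem_Ico,
      Finset.mem_Ico]
    constructor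
    · rintro ⟨⟨h1, h2⟩, h3⟩
      rcases Nat.lt_or_ge 1 d with h | h
      · exact Or.inr ⟨⟨h, h2⟩, h3⟩
      · exact Or.inl (by omega)
    · rintro (rfl | ⟨⟨h1, h2⟩, h3⟩)
      · exact ⟨⟨le_rfl, by omega⟩, Nat.coprime_one_left R⟩
      · exact ⟨⟨by omega, h2⟩, h3⟩
  have h1T2 : 1 ∉ T2 := by
    rw [hT2, Finset.mem_filter, Finset.mem_Ico]
    omega
  have hsr : ∀ m ∈ cls R c K, sr R m = ∑ d ∈ T1, if d ∣ m then 1 / (d : ℝ) else 0 := by
    intro m hm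
    unfold cls at hm
    rw [Finset.mem_filter, Finset.mem_Ico] at hm
    unfold sr
    rw [← Finset.sum_filter]
    refine Finset.sum_congr ?_ fun _ _ => rfl
    ext d
    rw [Finset.mem_filter, Finset.mem_filter, hT1, Finset.mem_filter, Finset.mem_Ico,
      Nat.mem_divisors]
    constructor
    · rintro ⟨⟨h1, h2⟩, h3⟩
      have h4 := Nat.le_of_dvd (Nat.pos_of_ne_zero h2) h1
      have h5 := Nat.pos_of_dvd_of_pos h1 (Nat.pos_of_ne_zero h2)
      exact ⟨⟨⟨h5, by omega⟩, h3⟩, h1⟩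
    · rintro ⟨⟨⟨h1, h2⟩, h3⟩, h4⟩
      exact ⟨⟨h4, by omega⟩, h3⟩
  have hsr2 : ∀ m ∈ cls R c K, sr R m - 1 = ∑ d ∈ T2, if d ∣ m then 1 / (d : ℝ) else 0 := by
    intro m hm
    rw [hsr m hm, hins, Finset.sum_insert h1T2, if_pos (one_dvd m)]
    simp
  have hg2 : ∑ d ∈ T2, rc_meanr_g d ≤ 2 / √(y : ℝ) := by
    refine le_trans ?_ (rc_meanr_tail_le hy (2 * K))
    refine Finset.sum_le_sum_of_subset_of_nonneg ?_ fun d _ _ => rc_meanr_g_nonneg d
    intro d hd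
    rw [hT2, Finset.mem_filter, Finset.mem_Ico] at hd
    rw [Finset.mem_Ico]
    have := hrough d (by omega) hd.2
    omega
  have hg2' : ∑ d ∈ T2, rc_meanr_g d ≤ 2 := by
    refine hg2.trans ?_
    rw [div_le_iff₀ (Real.sqrt_pos.2 hy0)]
    have : 1 ≤ √(y : ℝ) := Real.one_le_sqrt.2 hy1
    linarith
  have hg2n : 0 ≤ ∑ d ∈ T2, rc_meanr_g d := Finset.sum_nonneg fun d _ => rc_meanr_g_nonneg d
  have hg1 : ∑ d ∈ T1, rc_meanr_g d ≤ 3 := by
    rw [hins, Finset.sum_insert h1T2]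
    have : rc_meanr_g 1 = 1 := by simp [rc_meanr_g]
    linarith
  have hg1n : 0 ≤ ∑ d ∈ T1, rc_meanr_g d := Finset.sum_nonneg fun d _ => rc_meanr_g_nonneg d
  have hT1s : T1 ⊆ Finset.Ico 1 (2 * K) := Finset.filter_subset _ _
  have hT2s : T2 ⊆ Finset.Ico 1 (2 * K) :=
    (Finset.filter_subset _ _).trans (Finset.Ico_subset_Ico_left (by norm_num))
  have hlogK := hK0 K hK
  have hh1 : (∑ d ∈ T1, 1 / (d : ℝ)) ^ 2 ≤ K / (R * y) := by
    have h1 := rc_meanr_harm K T1 hT1s hK1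
    calc (∑ d ∈ T1, 1 / (d : ℝ)) ^ 2 ≤ (1 + Real.log ((2 * K : ℕ) : ℝ)) ^ 2 :=
          pow_le_pow_left₀ (Finset.sum_nonneg fun d _ => by positivity) h1 2
      _ ≤ 1 / (R * y) * K := hlogK
      _ = K / (R * y) := by ring
  have hh2 : (∑ d ∈ T2, 1 / (d : ℝ)) ^ 2 ≤ K / (R * y) := by
    have h1 := rc_meanr_harm K T2 hT2s hK1
    calc (∑ d ∈ T2, 1 / (d : ℝ)) ^ 2 ≤ (1 + Real.log ((2 * K : ℕ) : ℝ)) ^ 2 :=
          pow_le_pow_left₀ (Finset.sum_nonneg fun d _ => by positivity) h1 2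
      _ ≤ 1 / (R * y) * K := hlogK
      _ = K / (R * y) := by ring
  constructor
  · rw [Finset.sum_congr rfl fun m hm => by rw [hsr m hm]]
    refine (rc_meanr_sq hR T1 hT1p).trans ?_
    have h2 : (∑ d ∈ T1, rc_meanr_g d) ^ 2 ≤ 9 := by
      calc (∑ d ∈ T1, rc_meanr_g d) ^ 2 ≤ 3 ^ 2 := pow_le_pow_left₀ hg1n hg1 2
        _ = 9 := by norm_num
    have h3 : (K : ℝ) / (R * y) ≤ K / R := by
      apply div_le_div_of_nonneg_left (by linarith) hR0
      nlinarith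
    calc (K : ℝ) / R * (∑ d ∈ T1, rc_meanr_g d) ^ 2 + (∑ d ∈ T1, 1 / (d : ℝ)) ^ 2
        ≤ K / R * 9 + K / R := by
          refine add_le_add ?_ (hh1.trans h3)
          exact mul_le_mul_of_nonneg_left h2 (by positivity)
      _ = 10 * K / R := by ring
  · rw [Finset.sum_congr rfl fun m hm => by rw [hsr2 m hm]]
    refine (rc_meanr_sq hR T2 hT2p).trans ?_
    have h2 : (∑ d ∈ T2, rc_meanr_g d) ^ 2 ≤ 4 / y := by
      calc (∑ d ∈ T2, rc_meanr_g d) ^ 2 ≤ (2 / √(y : ℝ)) ^ 2 := pow_le_pow_left₀ hg2n hg2 2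
        _ = 4 / y := by
            rw [div_pow, Real.sq_sqrt hy0.le]
            norm_num
    calc (K : ℝ) / R * (∑ d ∈ T2, rc_meanr_g d) ^ 2 + (∑ d ∈ T2, 1 / (d : ℝ)) ^ 2
        ≤ K / R * (4 / y) + K / (R * y) := by
          refine add_le_add ?_ hh2
          exact mul_le_mul_of_nonneg_left h2 (by positivity)
      _ = 5 * (K / (R * y)) := by
          field_simp
          ring
      _ ≤ 10 * (K / (R * y)) := by
          have : (0 : ℝ) ≤ K / (R * y) := by positivity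
          linarith
      _ = 10 * K / (R * y) := by ring

end Pool.Agent.RC

namespace Pool.Agent.RC

alias meanr := meanr_pr

end Pool.Agent.RC
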