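import Pool.Agent.Lib_helper39.RC.Defs
set_option autoImplicit false

namespace Pool.Agent.RC

open Complex MeasureTheory Filter Topology

theorem rc_qvb_moebius (a m : ℕ) (hm : 0 < m) :
    ∑ d ∈ m.divisors, (if d ∣ a then (ArithmeticFunction.moebius d : ℤ) else 0) =
      if a.Coprime m then 1 else 0 := by
  have h1 : ∑ d ∈ m.divisors, (if d ∣ a then (ArithmeticFunction.moebius d : ℤ) else 0) =
      ∑ d ∈ (Nat.gcd a m).divisors, (ArithmeticFunction.moebius d : ℤ) := by
    rw [← Finset.sum_filter]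
    refine Finset.sum_congr ?_ fun _ _ => rfl
    ext d
    simp only [Finset.mem_filter, Nat.mem_divisors]
    constructor
    · rintro ⟨⟨h1, -⟩, h2⟩
      exact ⟨Nat.dvd_gcd h2 h1, (Nat.gcd_pos_of_pos_right a hm).ne'⟩
    · rintro ⟨h1, -⟩
      exact ⟨⟨h1.trans (Nat.gcd_dvd_right a m), hm.ne'⟩, h1.trans (Nat.gcd_dvd_left a m)⟩
  rw [h1, ← ArithmeticFunction.coe_mul_zeta_apply, ArithmeticFunction.moebius_mul_coe_zeta,
    ArithmeticFunction.one_apply]

/-- sum over the multiples of `d` -/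
theorem rc_qvb_mult (X : ℕ → ℂ) (d : ℕ) (hd : 0 < d) :
    ∑' a : ℕ, (if d ∣ a then X a else 0) = ∑' a : ℕ, X (d * a) := by
  have hinj : Function.Injective fun a : ℕ => d * a := fun a b h => Nat.eq_of_mul_eq_mul_left hd h
  have h := hinj.tsum_eq (f := fun a : ℕ => if d ∣ a then X a else 0) (by
    intro a ha
    rw [Function.mem_support] at ha
    have : d ∣ a := by
      by_contra hn
      exact ha (if_neg hn)
    obtain ⟨b, rfl⟩ := this
    exact ⟨b, rfl⟩)
  rw [← h]
  refine tsum_congr fun a => ?_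
  simp

theorem rc_qvb_X {R k : ℕ} (hk : 0 < k) (hkR : k.Coprime R) (g : ℝ → ℂ) (a : ℕ) :
    wt R g (k * a ^ 2) = ((1 / √(k : ℝ) : ℝ) : ℂ) *
      (if 0 < a ∧ a.Coprime R then (1 / (a : ℂ)) * g (Real.log k + 2 * Real.log a) else 0) := by
  unfold wt
  by_cases h : 0 < a ∧ a.Coprime R
  · have h2 : 0 < k * a ^ 2 ∧ (k * a ^ 2).Coprime R :=
      ⟨by have := h.1; positivity, Nat.Coprime.mul_left hkR (Nat.Coprime.pow_left 2 h.2)⟩
    rw [if_pos h, if_pos h2]
    have ha : (0 : ℝ) < a := by exact_mod_cast h.1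
    have hk' : (0 : ℝ) < k := by exact_mod_cast hk
    have h3 : √((k * a ^ 2 : ℕ) : ℝ) = √(k : ℝ) * a := by
      push_cast
      rw [Real.sqrt_mul hk'.le, Real.sqrt_sq ha.le]
    have h4 : Real.log ((k * a ^ 2 : ℕ) : ℝ) = Real.log k + 2 * Real.log a := by
      push_cast
      rw [Real.log_mul hk'.ne' (by positivity), Real.log_pow]
      push_cast
      ring
    rw [h3, h4]
    push_cast
    rw [one_div, mul_inv, ← one_div, ← one_div]
    ring
  · have h2 : ¬ (0 < k * a ^ 2 ∧ (k * a ^ 2).Coprime R) := by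
      rintro ⟨h3, h4⟩
      apply h
      refine ⟨?_, ?_⟩
      · rcases Nat.eq_zero_or_pos a with h5 | h5
        · subst h5
          simp at h3
        · exact h5
      · exact (Nat.Coprime.coprime_mul_left h4).coprime_dvd_left (Dvd.intro_left (a ^ 1) (by ring))
    rw [if_neg h, if_neg h2, mul_zero]

/-- the formula for `sq` -/
theorem rc_qvb_sq {R m k : ℕ} (hm : 0 < m) (hk : 0 < k) (hkR : k.Coprime R) (g : ℝ → ℂ)
    (hs : Summable fun n : ℕ => ‖wt R g n‖) :
    sq (wt R g) m k = ((1 / √(k : ℝ) : ℝ) : ℂ) *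
      ∑ d ∈ m.divisors.filter (fun d => d.Coprime R),
        ((ArithmeticFunction.moebius d : ℤ) : ℂ) * (1 / (d : ℂ)) *
          BB R g (Real.log k + 2 * Real.log d) := by
  have hk' : (0 : ℝ) < k := by exact_mod_cast hk
  have hsk : (0 : ℝ) < √(k : ℝ) := Real.sqrt_pos.2 hk'
  set X : ℕ → ℂ := fun a =>
    if 0 < a ∧ a.Coprime R then (1 / (a : ℂ)) * g (Real.log k + 2 * Real.log a) else 0 with hX
  have hwX : ∀ a, wt R g (k * a ^ 2) = ((1 / √(k : ℝ) : ℝ) : ℂ) * X a := rc_qvb_X hk hkR g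
  have hsX : Summable fun a => ‖X a‖ := by
    have hinj : Function.Injective fun a : ℕ => k * a ^ 2 := by
      intro a b h
      have := Nat.eq_of_mul_eq_mul_left hk h
      exact Nat.pow_left_injective (by norm_num) this
    have h1 := hs.comp_injective hinj
    have h2 := h1.mul_left (√(k : ℝ))
    refine h2.congr fun a => ?_
    simp only [Function.comp]
    rw [hwX, norm_mul, Complex.norm_real, Real.norm_of_nonneg (by positivity), ← mul_assoc,
      mul_one_div_cancel hsk.ne', one_mul]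
  have hsX' : Summable X := hsX.of_norm
  unfold sq
  have h1 : ∀ a : ℕ, (if 0 < a ∧ a.Coprime m then wt R g (k * a ^ 2) else 0) =
      ((1 / √(k : ℝ) : ℝ) : ℂ) * ∑ d ∈ m.divisors,
        ((ArithmeticFunction.moebius d : ℤ) : ℂ) * (if d ∣ a then X a else 0) := by
    intro a
    have h2 := rc_qvb_moebius a m hm
    have h3 : ∑ d ∈ m.divisors, ((ArithmeticFunction.moebius d : ℤ) : ℂ) *
        (if d ∣ a then X a else 0) = (if a.Coprime m then 1 else 0) * X a := by
      have h4 : ((∑ d ∈ m.divisors, (if d ∣ a then (ArithmeticFunction.moebius d : ℤ) else 0) : ℤ) :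
          ℂ) = (if a.Coprime m then 1 else 0) := by
        rw [h2]
        split_ifs <;> simp
      rw [← h4, Int.cast_sum, Finset.sum_mul]
      refine Finset.sum_congr rfl fun d _ => ?_
      split_ifs <;> simp
    rw [h3, hwX]
    by_cases ha : 0 < a
    · by_cases hc : a.Coprime m
      · rw [if_pos ⟨ha, hc⟩, if_pos hc, one_mul]
      · rw [if_neg (fun h => hc h.2), if_neg hc, zero_mul, mul_zero]
    · have : X a = 0 := by
        rw [hX]
        exact if_neg fun h => ha h.1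
      rw [if_neg (fun h => ha h.1), this, mul_zero, mul_zero]
  rw [tsum_congr h1, tsum_mul_left, Summable.tsum_finsetSum]
  swap
  · intro d _
    refine Summable.mul_left _ ?_
    refine Summable.of_norm_bounded hsX fun a => ?_
    split_ifs <;> simp
  congr 1
  rw [Finset.sum_filter]
  refine Finset.sum_congr rfl fun d hd => ?_
  have hd0 : 0 < d := Nat.pos_of_mem_divisors hd
  have hd0' : (0 : ℝ) < d := by exact_mod_cast hd0
  rw [tsum_mul_left, rc_qvb_mult X d hd0]
  split_ifs with hdR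
  · rw [mul_assoc]
    congr 1
    unfold BB
    rw [← tsum_mul_left]
    refine tsum_congr fun a => ?_
    rw [hX]
    simp only
    by_cases h : 0 < a ∧ a.Coprime R
    · have ha' : (0 : ℝ) < a := by exact_mod_cast h.1
      rw [if_pos h, if_pos ⟨by have := h.1; positivity, Nat.Coprime.mul_left hdR h.2⟩]
      have h4 : Real.log k + 2 * Real.log ((d * a : ℕ) : ℝ) =
          Real.log k + 2 * Real.log d + 2 * Real.log a := by
        push_cast
        rw [Real.log_mul hd0'.ne' ha'.ne']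
        ring
      rw [h4]
      push_cast
      rw [one_div, mul_inv, ← one_div, ← one_div]
      ring
    · rw [if_neg h, if_neg, mul_zero]
      rintro ⟨h5, h6⟩
      exact h ⟨Nat.pos_of_mul_pos_left h5 |> fun _ => by
        rcases Nat.eq_zero_or_pos a with h7 | h7
        · subst h7; simp at h5
        · exact h7, Nat.Coprime.coprime_mul_left h6⟩
  · have : (fun a => X (d * a)) = fun _ => 0 := by
      funext a
      rw [hX]
      exact if_neg fun h => hdR (Nat.Coprime.coprime_mul_right h.2)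
    rw [this, tsum_zero, mul_zero]

theorem rc_qvb_sum_le {ι : Type*} (s : Finset ι) (w : ι → ℝ) (x : ι → ℂ) (e : ι → ℂ)
    (hw : ∀ i ∈ s, ‖e i‖ ≤ w i) :
    ‖∑ i ∈ s, e i * x i‖ ≤ ∑ i ∈ s, w i * ‖x i‖ := by
  refine le_trans (norm_sum_le _ _) (Finset.sum_le_sum fun i hi => ?_)
  rw [norm_mul]
  exact mul_le_mul_of_nonneg_right (hw i hi) (norm_nonneg _)

theorem rc_qvb_mu (d : ℕ) : ‖((ArithmeticFunction.moebius d : ℤ) : ℂ) * (1 / (d : ℂ))‖ ≤ 1 / (d : ℝ) := by
  rw [norm_mul]
  have h1 : ‖((ArithmeticFunction.moebius d : ℤ) : ℂ)‖ ≤ 1 := by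
    rw [Complex.norm_intCast]
    have := ArithmeticFunction.abs_moebius_le_one (n := d)
    exact_mod_cast this
  have h2 : ‖(1 / (d : ℂ))‖ = 1 / (d : ℝ) := by
    rw [norm_div, norm_one, Complex.norm_natCast]
  rw [h2]
  calc _ ≤ 1 * (1 / (d : ℝ)) := mul_le_mul_of_nonneg_right h1 (by positivity)
    _ = _ := one_mul _

theorem rc_qvb_sr_nonneg (R m : ℕ) : 0 ≤ sr R m := Finset.sum_nonneg fun d _ => by positivity

theorem qvb_pr {R m : ℕ} (hR : 1 < R) (hm : 0 < m) (g : ℝ → ℂ) (z : ℂ) (V1 V2 V3 : ℝ)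
    (hs : Summable fun n : ℕ => ‖wt R g n‖)
    (h1 : ∀ x : ℝ, 0 ≤ x → Summable (vk R (BB R g) x) ∧ ∑' k : ℕ, vk R (BB R g) x k ≤ V1)
    (h2 : ∀ x : ℝ, 0 ≤ x → ‖BB R g x‖ ^ 2 ≤ V2) (h3 : ‖BB R g 0 - z‖ ^ 2 ≤ V3) :
    QV (fun n => wt R g n - if n = 1 then z else 0) m ≤
      (sr R m) ^ 2 * V1 + 2 * (sr R m - 1) ^ 2 * V2 + 2 * V3 := by
  classical
  set D := m.divisors.filter (fun d => d.Coprime R) with hD
  set b : ℕ → ℂ := fun n => wt R g n - if n = 1 then z else 0 with hb
  have hV2 : 0 ≤ V2 := le_trans (by positivity) (h2 0 le_rfl)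
  have hV3 : 0 ≤ V3 := le_trans (by positivity) h3
  have hDpos : ∀ d ∈ D, 0 < d := fun d hd => Nat.pos_of_mem_divisors (Finset.mem_filter.1 hd).1
  have hlog : ∀ d ∈ D, 0 ≤ 2 * Real.log (d : ℝ) := by
    intro d hd
    have : (1 : ℝ) ≤ d := by exact_mod_cast hDpos d hd
    have := Real.log_nonneg this
    linarith
  have h1D : 1 ∈ D := by
    rw [hD, Finset.mem_filter, Nat.mem_divisors]
    exact ⟨⟨one_dvd _, hm.ne'⟩, Nat.coprime_one_left R⟩
  have hsr : sr R m = ∑ d ∈ D, 1 / (d : ℝ) := rfl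
  have hsr1 : sr R m - 1 = ∑ d ∈ D.erase 1, 1 / (d : ℝ) := by
    rw [hsr, ← Finset.add_sum_erase D _ h1D]
    simp
  -- value for k > 1
  have hsq1 : ∀ k : ℕ, 1 < k → sq b m k = sq (wt R g) m k := by
    intro k hk
    unfold sq
    refine tsum_congr fun a => ?_
    split_ifs with h
    · rw [hb]
      simp only
      rw [if_neg, sub_zero]
      intro h5
      have : k ∣ 1 := ⟨a ^ 2, h5.symm⟩
      have := Nat.le_of_dvd one_pos this
      omega
    · rfl
  have hsq2 : sq b m 1 = sq (wt R g) m 1 - z := by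
    have hinj : Function.Injective fun a : ℕ => 1 * a ^ 2 := by
      intro a b h
      simp only [one_mul] at h
      exact Nat.pow_left_injective (by norm_num) h
    have hsum : Summable fun a : ℕ => if 0 < a ∧ a.Coprime m then wt R g (1 * a ^ 2) else 0 := by
      refine Summable.of_norm_bounded (hs.comp_injective hinj) fun a => ?_
      split_ifs
      · exact le_rfl
      · simp
    have hz : Summable fun a : ℕ => if a = 1 then z else 0 :=
      summable_of_ne_finset_zero (s := {1}) fun a ha => if_neg (by simpa using ha)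
    unfold sq
    have h4 : ∑' a : ℕ, (if a = 1 then z else (0 : ℂ)) = z := tsum_ite_eq 1 (fun _ => z)
    conv_rhs => rw [← h4]
    rw [← hsum.tsum_sub hz]
    refine tsum_congr fun a => ?_
    rw [hb]
    simp only
    by_cases ha1 : a = 1
    · subst ha1
      simp
    · rw [if_neg ha1]
      split_ifs with h5 h6
      · exfalso
        rw [one_mul] at h6
        exact ha1 (by nlinarith [h5.1])
      · rfl
      · simp
  -- the bound for k > 1
  have hbd : ∀ k : ℕ, 1 < k → ‖sq b m k‖ ^ 2 ≤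
      sr R m * ∑ d ∈ D, 1 / (d : ℝ) * vk R (BB R g) (2 * Real.log d) k := by
    intro k hk
    by_cases hkR : k.Coprime R
    · have hk' : (0 : ℝ) < k := by exact_mod_cast (by omega : 0 < k)
      rw [hsq1 k hk, rc_qvb_sq hm (by omega) hkR g hs, norm_mul, Complex.norm_real,
        Real.norm_of_nonneg (by positivity), mul_pow, div_pow, one_pow, Real.sq_sqrt hk'.le]
      have h5 : ‖∑ d ∈ D, ((ArithmeticFunction.moebius d : ℤ) : ℂ) * (1 / (d : ℂ)) *
          BB R g (Real.log k + 2 * Real.log d)‖ ≤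
          ∑ d ∈ D, 1 / (d : ℝ) * ‖BB R g (Real.log k + 2 * Real.log d)‖ :=
        rc_qvb_sum_le D _ _ _ fun d _ => rc_qvb_mu d
      have h6 : (∑ d ∈ D, 1 / (d : ℝ) * ‖BB R g (Real.log k + 2 * Real.log d)‖) ^ 2 ≤
          (∑ d ∈ D, 1 / (d : ℝ)) * ∑ d ∈ D, 1 / (d : ℝ) *
            ‖BB R g (Real.log k + 2 * Real.log d)‖ ^ 2 := by
        have := Finset.sum_mul_sq_le_sq_mul_sq D (fun d : ℕ => √(1 / (d : ℝ)))
          (fun d : ℕ => √(1 / (d : ℝ)) * ‖BB R g (Real.log k + 2 * Real.log d)‖)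
        refine le_trans (le_of_eq ?_) (le_trans this (le_of_eq ?_))
        · congr 1
          refine Finset.sum_congr rfl fun d _ => ?_
          rw [← mul_assoc, Real.mul_self_sqrt (by positivity)]
        · congr 1
          · refine Finset.sum_congr rfl fun d _ => ?_
            rw [Real.sq_sqrt (by positivity)]
          · refine Finset.sum_congr rfl fun d _ => ?_
            rw [mul_pow, Real.sq_sqrt (by positivity)]
      have h7 : ∑ d ∈ D, 1 / (d : ℝ) * vk R (BB R g) (2 * Real.log d) k =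
          1 / (k : ℝ) * ∑ d ∈ D, 1 / (d : ℝ) * ‖BB R g (Real.log k + 2 * Real.log d)‖ ^ 2 := by
        rw [Finset.mul_sum]
        refine Finset.sum_congr rfl fun d _ => ?_
        unfold vk
        rw [if_pos ⟨hk, hkR⟩]
        ring
      rw [h7]
      calc 1 / (k : ℝ) * _ ^ 2 ≤ 1 / (k : ℝ) *
            (∑ d ∈ D, 1 / (d : ℝ) * ‖BB R g (Real.log k + 2 * Real.log d)‖) ^ 2 := by
            gcongr
        _ ≤ 1 / (k : ℝ) * ((∑ d ∈ D, 1 / (d : ℝ)) * ∑ d ∈ D, 1 / (d : ℝ) *
            ‖BB R g (Real.log k + 2 * Real.log d)‖ ^ 2) := by gcongr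
        _ = _ := by rw [hsr]; ring
    · have h5 : sq (wt R g) m k = 0 := by
        unfold sq
        have : ∀ a : ℕ, (if 0 < a ∧ a.Coprime m then wt R g (k * a ^ 2) else 0) = 0 := by
          intro a
          have h6 : wt R g (k * a ^ 2) = 0 := by
            unfold wt
            exact if_neg fun h => hkR (Nat.Coprime.coprime_mul_right h.2)
          rw [h6, ite_self]
        rw [tsum_congr this, tsum_zero]
      rw [hsq1 k hk, h5]
      simp only [norm_zero, ne_eq, OfNat.ofNat_ne_zero, not_false_eq_true, zero_pow]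
      refine mul_nonneg (rc_qvb_sr_nonneg R m) (Finset.sum_nonneg fun d _ => ?_)
      unfold vk
      split_ifs <;> positivity
  -- the bound for k = 1
  have hbd1 : ‖sq b m 1‖ ^ 2 ≤ 2 * (sr R m - 1) ^ 2 * V2 + 2 * V3 := by
    rw [hsq2, rc_qvb_sq hm one_pos (Nat.coprime_one_left R) g hs]
    have h5 : ((1 / √((1 : ℕ) : ℝ) : ℝ) : ℂ) = 1 := by simp
    rw [h5, one_mul, ← Finset.add_sum_erase D _ h1D]
    have h6 : ((ArithmeticFunction.moebius 1 : ℤ) : ℂ) * (1 / ((1 : ℕ) : ℂ)) *
        BB R g (Real.log ((1 : ℕ) : ℝ) + 2 * Real.log ((1 : ℕ) : ℝ)) = BB R g 0 := by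
      simp
    rw [h6]
    set E := ∑ d ∈ D.erase 1, ((ArithmeticFunction.moebius d : ℤ) : ℂ) * (1 / (d : ℂ)) *
      BB R g (Real.log ((1 : ℕ) : ℝ) + 2 * Real.log (d : ℝ)) with hE
    have h7 : ‖E‖ ≤ (sr R m - 1) * √V2 := by
      refine le_trans (rc_qvb_sum_le _ _ _ _ fun d _ => rc_qvb_mu d) ?_
      rw [hsr1, Finset.sum_mul]
      refine Finset.sum_le_sum fun d hd => ?_
      refine mul_le_mul_of_nonneg_left ?_ (by positivity)
      refine Real.le_sqrt_of_sq_le (h2 _ ?_)
      have := hlog d (Finset.mem_of_mem_erase hd)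
      simpa using this
    have h8 : ‖E‖ ^ 2 ≤ (sr R m - 1) ^ 2 * V2 := by
      calc ‖E‖ ^ 2 ≤ ((sr R m - 1) * √V2) ^ 2 := by gcongr
        _ = _ := by rw [mul_pow, Real.sq_sqrt hV2]
    have h9 : ‖BB R g 0 + E - z‖ ≤ ‖BB R g 0 - z‖ + ‖E‖ := by
      have : BB R g 0 + E - z = (BB R g 0 - z) + E := by ring
      rw [this]
      exact norm_add_le _ _
    have h10 : ‖BB R g 0 + E - z‖ ^ 2 ≤ (‖BB R g 0 - z‖ + ‖E‖) ^ 2 := by gcongr
    nlinarith [sq_nonneg (‖BB R g 0 - z‖ - ‖E‖)]
  -- summation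
  set G : ℕ → ℝ := fun k => (if k = 1 then 2 * (sr R m - 1) ^ 2 * V2 + 2 * V3 else 0) +
    sr R m * ∑ d ∈ D, 1 / (d : ℝ) * vk R (BB R g) (2 * Real.log d) k with hG
  have hGs1 : Summable fun k : ℕ => if k = 1 then 2 * (sr R m - 1) ^ 2 * V2 + 2 * V3 else 0 :=
    summable_of_ne_finset_zero (s := {1}) fun a ha => if_neg (by simpa using ha)
  have hGs2 : Summable fun k : ℕ =>
      ∑ d ∈ D, 1 / (d : ℝ) * vk R (BB R g) (2 * Real.log d) k :=
    summable_sum fun d hd => ((h1 _ (hlog d hd)).1).mul_left _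
  have hGs : Summable G := hGs1.add (hGs2.mul_left _)
  have hvk0 : ∀ x k, 0 ≤ vk R (BB R g) x k := by
    intro x k
    unfold vk
    split_ifs <;> positivity
  have hle : ∀ k : ℕ, (if Squarefree k ∧ k.Coprime m then ‖sq b m k‖ ^ 2 else 0) ≤ G k := by
    intro k
    have hG2 : 0 ≤ sr R m * ∑ d ∈ D, 1 / (d : ℝ) * vk R (BB R g) (2 * Real.log d) k :=
      mul_nonneg (rc_qvb_sr_nonneg R m) (Finset.sum_nonneg fun d _ =>
        mul_nonneg (by positivity) (hvk0 _ _))
    have hG1 : 0 ≤ (if k = 1 then 2 * (sr R m - 1) ^ 2 * V2 + 2 * V3 else 0) := by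
      split_ifs <;> positivity
    split_ifs with h
    · rcases Nat.lt_trichotomy k 1 with hk | hk | hk
      · have : k = 0 := by omega
        subst this
        exact absurd h.1 not_squarefree_zero
      · subst hk
        rw [hG]
        simp only [if_true]
        linarith
      · rw [hG]
        simp only
        have := hbd k hk
        linarith
    · rw [hG]
      simp only
      linarith
  have hfs : Summable fun k : ℕ => (if Squarefree k ∧ k.Coprime m then ‖sq b m k‖ ^ 2 else 0) :=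
    Summable.of_nonneg_of_le (fun k => by split_ifs <;> positivity) hle hGs
  unfold QV
  refine le_trans (hfs.tsum_le_tsum hle hGs) ?_
  rw [hG, hGs1.tsum_add (hGs2.mul_left _), tsum_ite_eq, tsum_mul_left,
    Summable.tsum_finsetSum fun d hd => ((h1 _ (hlog d hd)).1).mul_left _]
  have h5 : ∑ d ∈ D, ∑' k : ℕ, 1 / (d : ℝ) * vk R (BB R g) (2 * Real.log d) k ≤
      sr R m * V1 := by
    rw [hsr, Finset.sum_mul]
    refine Finset.sum_le_sum fun d hd => ?_
    rw [tsum_mul_left]
    exact mul_le_mul_of_nonneg_left (h1 _ (hlog d hd)).2 (by positivity)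
  have h6 := mul_le_mul_of_nonneg_left h5 (rc_qvb_sr_nonneg R m)
  nlinarith

end Pool.Agent.RC

namespace Pool.Agent.RC

alias qvb := qvb_pr

end Pool.Agent.RC
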