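import Pool.Agent.Lib_helper39.RC.Defs
import Pool.Agent.Lib_helper39.RCA.DLIM
import Pool.Agent.Lib_helper39.RCA.MEANR
import Pool.Agent.Lib_helper39.RCA.QVB
/-!
# Block PA
-/

namespace Pool.Agent.RC

open Complex MeasureTheory Filter Topology
open scoped ContDiff

theorem rc_pa_rv_one (j : Fin 4) (m : ℕ) : rv j m 1 = 1 := by
  unfold rv psi
  fin_cases j <;> simp [jacobiSym.one_left]

theorem rc_pa_card (R c K : ℕ) (hR : 0 < R) (hK : R ≤ K) :
    ((cls R c K).card : ℝ) ≤ 2 * (K : ℝ) / R := by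
  have h := Nat.Ico_filter_modEq_card K (2 * K) hR c
  have hcls : cls R c K = {x ∈ Finset.Ico K (2 * K) | x ≡ c [MOD R]} := rfl
  rw [← hcls] at h
  have hR' : (0 : ℝ) < R := by exact_mod_cast hR
  have h1 : ((⌈((2 * K : ℕ) - (c : ℚ)) / (R : ℚ)⌉ : ℤ) : ℚ) < ((2 * K : ℕ) - (c : ℚ)) / (R : ℚ) + 1 :=
    Int.ceil_lt_add_one _
  have h2 : ((K : ℚ) - (c : ℚ)) / (R : ℚ) ≤ ((⌈((K : ℚ) - (c : ℚ)) / (R : ℚ)⌉ : ℤ) : ℚ) :=
    Int.le_ceil _
  have h3 : (((cls R c K).card : ℤ) : ℚ) ≤ (K : ℚ) / R + 1 := by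
    rw [h]
    push_cast
    apply max_le
    · push_cast at h1
      have : (2 * (K : ℚ) - c) / R - (K - c) / R = K / R := by
        rw [← sub_div]; congr 1; ring
      linarith
    · positivity
  have h4 : ((cls R c K).card : ℝ) ≤ (K : ℝ) / R + 1 := by
    have : ((((cls R c K).card : ℤ) : ℚ) : ℝ) ≤ (((K : ℚ) / R + 1 : ℚ) : ℝ) := by exact_mod_cast h3
    push_cast at this
    exact this
  have h5 : (1 : ℝ) ≤ K / R := by
    rw [le_div_iff₀ hR']
    have : (R : ℝ) ≤ K := by exact_mod_cast hK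
    linarith
  calc ((cls R c K).card : ℝ) ≤ (K : ℝ) / R + 1 := h4
    _ ≤ (K : ℝ) / R + K / R := by linarith
    _ = 2 * (K : ℝ) / R := by ring

theorem pa_pr : ∃ C : ℝ, 0 < C ∧ ∀ (R y : ℕ), 8 ∣ R → 0 < R → 1 ≤ y →
    (∀ d : ℕ, 1 < d → d.Coprime R → y < d) → ∀ (j : Fin 4) (c : ℕ) (g : ℝ → ℂ) (z : ℂ)
    (V1 V2 V3 : ℝ), Odd c → (Summable fun n : ℕ => ‖wt R g n‖) →
    (∀ x : ℝ, 0 ≤ x → Summable (vk R (BB R g) x) ∧ ∑' k : ℕ, vk R (BB R g) x k ≤ V1) →
    (∀ x : ℝ, 0 ≤ x → ‖BB R g x‖ ^ 2 ≤ V2) → ‖BB R g 0 - z‖ ^ 2 ≤ V3 →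
    ∀ ε : ℝ, 0 < ε → ∃ K0 : ℕ, ∀ K ≥ K0,
      ∑ m ∈ cls R c K, ‖(∑' n : ℕ, (rv j m n : ℂ) * wt R g n) - z‖ ^ 2 ≤
        C * K / R * (V1 + V2 / y + V3) + ε * K := by
  obtain ⟨C0, hC0, hmr⟩ := meanr
  refine ⟨8 * C0 + 16, by positivity, ?_⟩
  intro R y hR8 hR0 hy hrough j c g z V1 V2 V3 hc hs h1 h2 h3 ε hε
  have hR' : (0 : ℝ) < R := by exact_mod_cast hR0
  have hy' : (0 : ℝ) < y := by exact_mod_cast (by omega : 0 < y)
  have hR1 : 1 < R := by
    have := Nat.le_of_dvd hR0 hR8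
    omega
  obtain ⟨K1, hK1⟩ := hmr R y hR0 hy hrough c
  set b : ℕ → ℂ := fun n => wt R g n - if n = 1 then z else 0 with hb
  have hfin : Summable fun n : ℕ => ‖(if n = 1 then z else 0 : ℂ)‖ := by
    apply summable_of_ne_finset_zero (s := {1})
    intro n hn
    have : n ≠ 1 := by simpa using hn
    simp [this]
  have hbs : Summable fun n => ‖b n‖ := by
    apply Summable.of_nonneg_of_le (fun n => norm_nonneg _) (fun n => norm_sub_le _ _) (hs.add hfin)
  have hbR : ∀ n, ¬ n.Coprime R → b n = 0 := by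
    intro n hn
    have h1 : n ≠ 1 := by
      rintro rfl
      exact hn (Nat.coprime_one_left R)
    simp [hb, wt, hn, h1]
  obtain ⟨K2, hK2⟩ := dlim R hR8 hR0 j c hc b hbs hbR ε hε
  have hV1 : 0 ≤ V1 := by
    refine le_trans (tsum_nonneg fun k => ?_) (h1 0 le_rfl).2
    unfold vk
    split_ifs
    · positivity
    · exact le_rfl
  have hV2 : 0 ≤ V2 := le_trans (sq_nonneg _) (h2 0 le_rfl)
  have hV3 : 0 ≤ V3 := le_trans (sq_nonneg _) h3
  refine ⟨max (max K1 K2) (max R 1), ?_⟩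
  intro K hK
  have hKK1 : K1 ≤ K := le_trans (le_trans (le_max_left _ _) (le_max_left _ _)) hK
  have hKK2 : K2 ≤ K := le_trans (le_trans (le_max_right _ _) (le_max_left _ _)) hK
  have hKR : R ≤ K := le_trans (le_trans (le_max_left _ _) (le_max_right _ _)) hK
  have hK1' : 1 ≤ K := le_trans (le_trans (le_max_right _ _) (le_max_right _ _)) hK
  have key : ∀ m : ℕ, (∑' n : ℕ, (rv j m n : ℂ) * wt R g n) - z = ∑' n : ℕ, (rv j m n : ℂ) * b n := by
    intro m
    have hrvb : ∀ n, ‖(rv j m n : ℂ)‖ ≤ 1 := by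
      intro n
      unfold rv
      push_cast
      rw [norm_mul]
      have hj : ‖((jacobiSym (n : ℤ) m : ℤ) : ℂ)‖ ≤ 1 := by
        rcases jacobiSym.trichotomy (n : ℤ) m with h | h | h <;> rw [h] <;> simp
      have hp : ‖((psi j n : ℤ) : ℂ)‖ ≤ 1 := by
        unfold psi
        fin_cases j
        · simp
        · have : ∀ a : ZMod 4, ‖((ZMod.χ₄ a : ℤ) : ℂ)‖ ≤ 1 := by
            intro a
            have : ∀ a : ZMod 4, ZMod.χ₄ a = 0 ∨ ZMod.χ₄ a = 1 ∨ ZMod.χ₄ a = -1 := by decide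
            rcases this a with h | h | h <;> rw [h] <;> simp
          exact this _
        · have : ∀ a : ZMod 8, ‖((ZMod.χ₈ a : ℤ) : ℂ)‖ ≤ 1 := by
            intro a
            have : ∀ a : ZMod 8, ZMod.χ₈ a = 0 ∨ ZMod.χ₈ a = 1 ∨ ZMod.χ₈ a = -1 := by decide
            rcases this a with h | h | h <;> rw [h] <;> simp
          exact this _
        · have : ∀ a : ZMod 8, ‖((ZMod.χ₈' a : ℤ) : ℂ)‖ ≤ 1 := by
            intro a
            have : ∀ a : ZMod 8, ZMod.χ₈' a = 0 ∨ ZMod.χ₈' a = 1 ∨ ZMod.χ₈' a = -1 := by decide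
            rcases this a with h | h | h <;> rw [h] <;> simp
          exact this _
      calc _ ≤ (1 : ℝ) * 1 := mul_le_mul hp hj (norm_nonneg _) zero_le_one
        _ = 1 := by norm_num
    have hs1 : Summable fun n : ℕ => (rv j m n : ℂ) * wt R g n := by
      apply Summable.of_norm
      apply Summable.of_nonneg_of_le (fun n => norm_nonneg _) (fun n => ?_) hs
      rw [norm_mul]
      calc _ ≤ 1 * ‖wt R g n‖ := mul_le_mul_of_nonneg_right (hrvb n) (norm_nonneg _)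
        _ = _ := one_mul _
    have hs2 : Summable fun n : ℕ => (rv j m n : ℂ) * (if n = 1 then z else 0 : ℂ) := by
      apply summable_of_ne_finset_zero (s := {1})
      intro n hn
      have : n ≠ 1 := by simpa using hn
      simp [this]
    have h3 : ∑' n : ℕ, (rv j m n : ℂ) * (if n = 1 then z else 0 : ℂ) = z := by
      rw [tsum_eq_single 1]
      · rw [rc_pa_rv_one]; simp
      · intro n hn
        simp [hn]
    have h4 : ∑' n : ℕ, (rv j m n : ℂ) * b n =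
        (∑' n : ℕ, (rv j m n : ℂ) * wt R g n) - ∑' n : ℕ, (rv j m n : ℂ) * (if n = 1 then z else 0 : ℂ) := by
      rw [← hs1.tsum_sub hs2]
      congr 1
      ext n
      rw [hb]
      ring
    rw [h4, h3]
  have hA : ∑ m ∈ cls R c K, ‖(∑' n : ℕ, (rv j m n : ℂ) * wt R g n) - z‖ ^ 2 ≤
      4 * ∑ m ∈ cls R c K, QV b m + ε * K := by
    have := hK2 K hKK2
    refine le_trans (le_of_eq ?_) this
    apply Finset.sum_congr rfl
    intro m _
    rw [key m]
  have hB : ∑ m ∈ cls R c K, QV b m ≤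
      ∑ m ∈ cls R c K, ((sr R m) ^ 2 * V1 + 2 * (sr R m - 1) ^ 2 * V2 + 2 * V3) := by
    apply Finset.sum_le_sum
    intro m hm
    have hm0 : 0 < m := by
      unfold cls at hm
      simp only [Finset.mem_filter, Finset.mem_Ico] at hm
      omega
    exact qvb hR1 hm0 g z V1 V2 V3 hs h1 h2 h3
  have hC : ∑ m ∈ cls R c K, ((sr R m) ^ 2 * V1 + 2 * (sr R m - 1) ^ 2 * V2 + 2 * V3) =
      (∑ m ∈ cls R c K, (sr R m) ^ 2) * V1 + 2 * (∑ m ∈ cls R c K, (sr R m - 1) ^ 2) * V2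
        + 2 * ((cls R c K).card : ℝ) * V3 := by
    rw [Finset.sum_add_distrib, Finset.sum_add_distrib, Finset.sum_mul, Finset.sum_const,
      nsmul_eq_mul, Finset.mul_sum, Finset.sum_mul]
    ring
  obtain ⟨hD1, hD2⟩ := hK1 K hKK1
  have hE := rc_pa_card R c K hR0 hKR
  have hF : (∑ m ∈ cls R c K, (sr R m) ^ 2) * V1 ≤ C0 * K / R * V1 :=
    mul_le_mul_of_nonneg_right hD1 hV1
  have hG : 2 * (∑ m ∈ cls R c K, (sr R m - 1) ^ 2) * V2 ≤ 2 * (C0 * K / (R * y)) * V2 := by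
    apply mul_le_mul_of_nonneg_right _ hV2
    linarith
  have hH : 2 * ((cls R c K).card : ℝ) * V3 ≤ 2 * (2 * (K : ℝ) / R) * V3 := by
    apply mul_le_mul_of_nonneg_right _ hV3
    linarith
  have hKn : (0 : ℝ) ≤ K := Nat.cast_nonneg K
  calc ∑ m ∈ cls R c K, ‖(∑' n : ℕ, (rv j m n : ℂ) * wt R g n) - z‖ ^ 2
      ≤ 4 * (C0 * K / R * V1 + 2 * (C0 * K / (R * y)) * V2 + 2 * (2 * (K : ℝ) / R) * V3) + ε * K := by
        rw [hC] at hB
        linarith
    _ ≤ (8 * C0 + 16) * K / R * (V1 + V2 / y + V3) + ε * K := by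
        have e1 : C0 * K / (R * y) * V2 = C0 * K / R * (V2 / y) := by
          field_simp
        have e2 : 2 * (C0 * K / (R * y)) * V2 = 2 * (C0 * K / R * (V2 / y)) := by
          rw [← e1]; ring
        rw [e2]
        have hKR' : 0 ≤ (K : ℝ) / R := by positivity
        have hV2y : 0 ≤ V2 / y := by positivity
        have t1 : 0 ≤ (K : ℝ) / R * V1 := by positivity
        have t2 : 0 ≤ (K : ℝ) / R * (V2 / y) := by positivity
        have t3 : 0 ≤ (K : ℝ) / R * V3 := by positivity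
        have u1 : 0 ≤ C0 * ((K : ℝ) / R * V1) := by positivity
        have u3 : 0 ≤ C0 * ((K : ℝ) / R * V3) := by positivity
        have : (8 * C0 + 16) * K / R * (V1 + V2 / y + V3) -
          4 * (C0 * K / R * V1 + 2 * (C0 * K / R * (V2 / y)) + 2 * (2 * (K : ℝ) / R) * V3) =
          4 * (C0 * ((K : ℝ) / R * V1)) + 16 * ((K : ℝ) / R * V1) + 16 * ((K : ℝ) / R * (V2 / y))
            + 8 * (C0 * ((K : ℝ) / R * V3)) := by
          ring
        linarith

end Pool.Agent.RC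

namespace Pool.Agent.RC

alias pa := pa_pr

end Pool.Agent.RC
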