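import Pool.Agent.Lib_helper39.RCA.SV1
/-!
RC, block SV2: rough numbers, counting.
-/

set_option autoImplicit false

namespace Pool.Agent.RC

open Complex MeasureTheory Filter Topology

/-- SV2 (cites SV1). -/
theorem sv2_pr : ∃ C : ℝ, 0 < C ∧ ∀ P N : ℕ, 2 ≤ P → P ≤ N →
    (((Finset.Icc 1 N).filter (fun n => n.Coprime (RR P))).card : ℝ) ≤
      C * N / Real.log P := by
  obtain ⟨C₁, hC₁, h1⟩ := sv1_pr
  refine ⟨(Real.log 4 + 5) * C₁, by positivity, fun P N hP hPN => ?_⟩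
  set A := (Finset.Icc 1 N).filter (fun n => n.Coprime (RR P)) with hA
  have hlogP : 0 < Real.log P := Real.log_pos (by exact_mod_cast hP)
  have hN2 : 2 ≤ N := hP.trans hPN
  have hlogN : 0 < Real.log N := Real.log_pos (by exact_mod_cast hN2)
  have hmem : ∀ n ∈ A, 0 < n ∧ n ≤ N ∧ n.Coprime (RR P) := by
    intro n hn
    simp only [hA, Finset.mem_filter, Finset.mem_Icc] at hn
    exact ⟨by omega, hn.1.2, hn.2⟩
  have h1' := h1 P N hP hPN
  rw [← hA] at h1'
  -- the sum of the logarithms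
  have h2 : ∑ n ∈ A, Real.log n ≤ (Real.log 4 + 4) * N * ∑ n ∈ A, 1 / (n : ℝ) := by
    have e1 : ∑ n ∈ A, Real.log n =
        ∑ x ∈ A.sigma (fun n => n.divisors), ArithmeticFunction.vonMangoldt x.2 := by
      rw [Finset.sum_sigma]
      exact Finset.sum_congr rfl fun n _ => ArithmeticFunction.vonMangoldt_sum.symm
    have hinj : Set.InjOn (fun x : (_ : ℕ) × ℕ => (⟨x.1 / x.2, x.2⟩ : (_ : ℕ) × ℕ))
        (A.sigma (fun n => n.divisors) : Finset ((_ : ℕ) × ℕ)) := by
      rintro ⟨n, d⟩ h ⟨n', d'⟩ h' heq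
      simp only [Finset.coe_sigma, Set.mem_sigma_iff, Finset.mem_coe, Nat.mem_divisors] at h h'
      simp only [Sigma.mk.injEq, heq_eq_eq] at heq
      obtain ⟨heq1, rfl⟩ := heq
      have e : n = n' := by
        rw [← Nat.div_mul_cancel h.2.1, ← Nat.div_mul_cancel h'.2.1, heq1]
      rw [e]
    have e2 : ∑ x ∈ A.sigma (fun n => n.divisors), ArithmeticFunction.vonMangoldt x.2 =
        ∑ y ∈ (A.sigma (fun n => n.divisors)).image
          (fun x : (_ : ℕ) × ℕ => (⟨x.1 / x.2, x.2⟩ : (_ : ℕ) × ℕ)),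
          ArithmeticFunction.vonMangoldt y.2 := by
      rw [Finset.sum_image hinj]
    have e3 : ∑ y ∈ (A.sigma (fun n => n.divisors)).image
          (fun x : (_ : ℕ) × ℕ => (⟨x.1 / x.2, x.2⟩ : (_ : ℕ) × ℕ)),
          ArithmeticFunction.vonMangoldt y.2 ≤
        ∑ y ∈ A.sigma (fun m => Finset.Ioc 0 (N / m)), ArithmeticFunction.vonMangoldt y.2 := by
      refine Finset.sum_le_sum_of_subset_of_nonneg ?_
        (fun _ _ _ => ArithmeticFunction.vonMangoldt_nonneg)
      intro y hy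
      obtain ⟨⟨n, d⟩, hx, rfl⟩ := Finset.mem_image.1 hy
      simp only [Finset.mem_sigma, Nat.mem_divisors] at hx
      obtain ⟨hn, hd, hn0⟩ := hx
      obtain ⟨hn1, hnN, hnc⟩ := hmem n hn
      have hd0 : 0 < d := Nat.pos_of_dvd_of_pos hd hn1
      have hm0 : 0 < n / d := Nat.div_pos (Nat.le_of_dvd hn1 hd) hd0
      have hmd : n / d ∣ n := Nat.div_dvd_of_dvd hd
      simp only [Finset.mem_sigma, Finset.mem_Ioc, hA, Finset.mem_filter, Finset.mem_Icc]
      refine ⟨⟨⟨hm0, (Nat.div_le_self n d).trans hnN⟩, hnc.coprime_dvd_left hmd⟩, hd0, ?_⟩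
      rw [Nat.le_div_iff_mul_le hm0, mul_comm, Nat.div_mul_cancel hd]
      exact hnN
    have e4 : ∑ y ∈ A.sigma (fun m => Finset.Ioc 0 (N / m)), ArithmeticFunction.vonMangoldt y.2 =
        ∑ m ∈ A, Chebyshev.psi ((N / m : ℕ) : ℝ) := by
      rw [Finset.sum_sigma]
      refine Finset.sum_congr rfl fun m _ => ?_
      rw [Chebyshev.psi, Nat.floor_natCast]
    rw [e1, e2]
    refine (e3.trans e4.le).trans ?_
    rw [Finset.mul_sum]
    refine Finset.sum_le_sum fun m hm => ?_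
    refine (Chebyshev.psi_le_const_mul_self (Nat.cast_nonneg _)).trans ?_
    have h4 : ((N / m : ℕ) : ℝ) ≤ (N : ℝ) / m := Nat.cast_div_le
    have h5 : 0 ≤ Real.log 4 + 4 := by positivity
    calc (Real.log 4 + 4) * ((N / m : ℕ) : ℝ) ≤ (Real.log 4 + 4) * ((N : ℝ) / m) :=
          mul_le_mul_of_nonneg_left h4 h5
      _ = (Real.log 4 + 4) * N * (1 / (m : ℝ)) := by ring
  -- the counting
  have h3 : (A.card : ℝ) * Real.log N ≤ (Real.log 4 + 5) * N * ∑ n ∈ A, 1 / (n : ℝ) := by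
    have e5 : (A.card : ℝ) * Real.log N = ∑ n ∈ A, (Real.log n + Real.log ((N : ℝ) / n)) := by
      rw [← nsmul_eq_mul, ← Finset.sum_const]
      refine Finset.sum_congr rfl fun n hn => ?_
      have hn0 : (n : ℝ) ≠ 0 := by exact_mod_cast (hmem n hn).1.ne'
      rw [Real.log_div (by positivity) hn0]
      ring
    rw [e5, Finset.sum_add_distrib]
    have e6 : ∑ n ∈ A, Real.log ((N : ℝ) / n) ≤ N * ∑ n ∈ A, 1 / (n : ℝ) := by
      rw [Finset.mul_sum]
      refine Finset.sum_le_sum fun n hn => ?_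
      have hn0 : (0 : ℝ) < (n : ℝ) := by exact_mod_cast (hmem n hn).1
      rw [mul_one_div]
      exact (Real.log_le_self (by positivity))
    calc _ ≤ (Real.log 4 + 4) * N * ∑ n ∈ A, 1 / (n : ℝ) + N * ∑ n ∈ A, 1 / (n : ℝ) :=
          add_le_add h2 e6
      _ = _ := by ring
  have h4 : (A.card : ℝ) * Real.log N ≤
      (Real.log 4 + 5) * N * (C₁ * Real.log N / Real.log P) :=
    h3.trans (mul_le_mul_of_nonneg_left h1' (by positivity))
  have h5 : (Real.log 4 + 5) * N * (C₁ * Real.log N / Real.log P) =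
      ((Real.log 4 + 5) * C₁ * N / Real.log P) * Real.log N := by ring
  rw [h5] at h4
  exact le_of_mul_le_mul_right h4 hlogN

end Pool.Agent.RC

namespace Pool.Agent.RC

alias sv2 := sv2_pr

end Pool.Agent.RC
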