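import Pool.Agent.Lib_helper39.RC.Defs
import Pool.Agent.Lib_helper24.SQ.PL
import Pool.Agent.Lib_helper39.RCA.SV2
/-!
# RS: rough sums of a Fourier transform
-/

namespace Pool.Agent.RC

open Complex MeasureTheory Filter Topology

theorem rc_rs_normexp (u v : ℝ) : ‖cexp (u * v * I)‖ = 1 := by
  rw [← Complex.ofReal_mul]
  exact Complex.norm_exp_ofReal_mul_I _

theorem rc_rs_cs {a b : ℝ} {α : ℝ → ℂ} (h0 : ∀ t, t ∉ Set.Icc a b → α t = 0) :
    HasCompactSupport α :=
  HasCompactSupport.intro isCompact_Icc h0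

/-- derivative of the transform -/
theorem rc_rs_deriv {α : ℝ → ℂ} (hα : Continuous α) (hc : HasCompactSupport α) (u : ℝ) :
    HasDerivAt (fun u => hatc α u) (I * hatc (fun t : ℝ => (t : ℂ) * α t) u) u := by
  have hα1 : Continuous fun t : ℝ => (t : ℂ) * α t := by fun_prop
  have hi1 : Integrable fun t : ℝ => (t : ℂ) * α t :=
    hα1.integrable_of_hasCompactSupport hc.mul_left
  have h := hasDerivAt_integral_of_dominated_loc_of_deriv_le (𝕜 := ℝ) (μ := volume)
    (F := fun (u t : ℝ) => α t * cexp (t * u * I)) (x₀ := u) (s := Set.univ)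
    (F' := fun (u t : ℝ) => α t * (cexp (t * u * I) * (t * I)))
    (bound := fun t : ℝ => ‖(t : ℂ) * α t‖)
    Filter.univ_mem ?_ ?_ ?_ ?_ hi1.norm ?_
  · have h2 := h.2
    have e : (∫ t : ℝ, α t * (cexp (t * u * I) * (t * I))) =
        I * hatc (fun t : ℝ => (t : ℂ) * α t) u := by
      rw [hatc, ← integral_const_mul]
      refine integral_congr_ae (Filter.Eventually.of_forall fun t => ?_)
      beta_reduce
      ring
    rw [e] at h2
    exact h2
  · refine Filter.Eventually.of_forall fun v => ?_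
    exact Continuous.aestronglyMeasurable (by fun_prop)
  · refine Continuous.integrable_of_hasCompactSupport (by fun_prop) ?_
    exact hc.mul_right
  · exact Continuous.aestronglyMeasurable (by fun_prop)
  · refine Filter.Eventually.of_forall fun t v _ => ?_
    rw [norm_mul, norm_mul, rc_rs_normexp, one_mul, norm_mul, norm_mul, Complex.norm_I, mul_one,
      mul_comm]
  · refine Filter.Eventually.of_forall fun t v _ => ?_
    have h1 : HasDerivAt (fun v : ℝ => (t : ℂ) * (v : ℂ) * I) ((t : ℂ) * 1 * I) v :=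
      ((Complex.ofRealCLM.hasDerivAt (x := v)).const_mul (t : ℂ)).mul_const I
    have h2 := (h1.cexp).const_mul (α t)
    simpa using h2

theorem rc_rs_derivneg {α : ℝ → ℂ} (hα : Continuous α) (hc : HasCompactSupport α) (y : ℝ) :
    HasDerivAt (fun y => hatc α (-y)) (-(I * hatc (fun t : ℝ => (t : ℂ) * α t) (-y))) y := by
  have h1 := rc_rs_deriv hα hc (-y)
  have h2 := h1.scomp y (hasDerivAt_neg y)
  have e : (-1 : ℝ) • (I * hatc (fun t : ℝ => (t : ℂ) * α t) (-y)) =
      -(I * hatc (fun t : ℝ => (t : ℂ) * α t) (-y)) := by simp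
  rw [← e]
  exact h2

theorem rc_rs_cont {α : ℝ → ℂ} (hα : Continuous α) (hc : HasCompactSupport α) :
    Continuous fun y => hatc α (-y) := by
  rw [continuous_iff_continuousAt]
  exact fun y => (rc_rs_derivneg hα hc y).continuousAt

/-- Plancherel in our normalisation -/
theorem rc_rs_pl {α : ℝ → ℂ} (hα : Continuous α) (hc : HasCompactSupport α) :
    Integrable (fun y => ‖hatc α (-y)‖ ^ 2) ∧
      ∫ y : ℝ, ‖hatc α (-y)‖ ^ 2 = 2 * Real.pi * ∫ t : ℝ, ‖α t‖ ^ 2 := by
  have hi : Integrable α := hα.integrable_of_hasCompactSupport hc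
  have hi2 : Integrable fun t => ‖α t‖ ^ 2 := by
    refine Continuous.integrable_of_hasCompactSupport (by fun_prop) ?_
    exact hc.comp_left (g := fun z : ℂ => ‖z‖ ^ 2) (by simp)
  obtain ⟨h1, h2⟩ := SQS.PL1 α hi hi2
  have e : ∀ u, SQS.hat α u = hatc α u := by
    intro u
    rw [SQS.hat, hatc]
    refine integral_congr_ae (Filter.Eventually.of_forall fun t => ?_)
    beta_reduce
    rw [mul_comm (u : ℂ) (t : ℂ)]
  simp only [e] at h1 h2
  constructor
  · exact h1.comp_neg
  · rw [← h2]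
    exact integral_neg_eq_self (fun u => ‖hatc α u‖ ^ 2) volume

/-- Sobolev inequality on a unit interval -/
theorem rc_rs_sob {F F' : ℝ → ℂ} (hd : ∀ y, HasDerivAt F (F' y) y) (hF' : Continuous F')
    (c z : ℝ) (hz : z ∈ Set.Icc c (c + 1)) :
    ‖F z‖ ^ 2 ≤ ∫ y in c..(c + 1), (2 * ‖F y‖ ^ 2 + ‖F' y‖ ^ 2) := by
  have hF : Continuous F := continuous_iff_continuousAt.2 fun y => (hd y).continuousAt
  set D := ∫ y in c..(c + 1), (‖F y‖ ^ 2 + ‖F' y‖ ^ 2) with hD
  have hcc : c ≤ c + 1 := by linarith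
  have hg : Continuous fun y => ‖F y‖ ^ 2 + ‖F' y‖ ^ 2 := by fun_prop
  have key : ∀ y ∈ Set.Icc c (c + 1), ‖F z‖ ^ 2 ≤ ‖F y‖ ^ 2 + D := by
    intro y hy
    have hderiv : ∀ t ∈ Set.uIcc y z, HasDerivAt (fun t => ‖F t‖ ^ 2)
        (2 * inner ℝ (F t) (F' t)) t := fun t _ => (hd t).norm_sq
    have hcont : Continuous fun t => 2 * inner ℝ (F t) (F' t) := by fun_prop
    have h1 := intervalIntegral.integral_eq_sub_of_hasDerivAt hderiv
      (hcont.intervalIntegrable _ _)
    have h2 : |∫ t in y..z, 2 * inner ℝ (F t) (F' t)| ≤ D := by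
      rw [← Real.norm_eq_abs]
      refine intervalIntegral.norm_integral_le_integral_norm_uIoc.trans ?_
      rw [hD, intervalIntegral.integral_of_le hcc]
      have hsub : Set.uIoc y z ⊆ Set.Ioc c (c + 1) := by
        intro t ht
        rcases Set.mem_uIoc.1 ht with h | h
        · exact ⟨by linarith [hy.1, h.1], by linarith [hz.2, h.2]⟩
        · exact ⟨by linarith [hz.1, h.1], by linarith [hy.2, h.2]⟩
      calc ∫ t in Set.uIoc y z, ‖2 * inner ℝ (F t) (F' t)‖
          ≤ ∫ t in Set.uIoc y z, (‖F t‖ ^ 2 + ‖F' t‖ ^ 2) := by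
            refine setIntegral_mono ?_ ?_ fun t => ?_
            · exact (hcont.norm.intervalIntegrable y z).def'
            · exact (hg.intervalIntegrable y z).def'
            · have h3 := abs_real_inner_le_norm (F t) (F' t)
              rw [Real.norm_eq_abs, abs_mul, abs_two]
              nlinarith [sq_nonneg (‖F t‖ - ‖F' t‖)]
        _ ≤ ∫ t in Set.Ioc c (c + 1), (‖F t‖ ^ 2 + ‖F' t‖ ^ 2) := by
            refine setIntegral_mono_set ?_ ?_ (Filter.Eventually.of_forall hsub)
            · exact (intervalIntegrable_iff_integrableOn_Ioc_of_le hcc).1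
                (hg.intervalIntegrable _ _)
            · exact Filter.Eventually.of_forall fun t => by positivity
    have h4 := abs_le.1 h2
    linarith [h4.2]
  have h5 : ∫ y in c..(c + 1), ‖F z‖ ^ 2 ≤ ∫ y in c..(c + 1), (‖F y‖ ^ 2 + D) := by
    refine intervalIntegral.integral_mono_on hcc (by simp) ?_ key
    exact Continuous.intervalIntegrable (by fun_prop) _ _
  have h6 : ∫ y in c..(c + 1), ‖F z‖ ^ 2 = ‖F z‖ ^ 2 := by simp
  have h7 : ∫ y in c..(c + 1), (‖F y‖ ^ 2 + D) = (∫ y in c..(c + 1), ‖F y‖ ^ 2) + D := by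
    rw [intervalIntegral.integral_add]
    · simp
    · exact Continuous.intervalIntegrable (by fun_prop) _ _
    · simp
  have h8 : ∫ y in c..(c + 1), (2 * ‖F y‖ ^ 2 + ‖F' y‖ ^ 2) =
      (∫ y in c..(c + 1), ‖F y‖ ^ 2) + D := by
    rw [hD, ← intervalIntegral.integral_add]
    · congr 1
      funext y
      ring
    · exact Continuous.intervalIntegrable (by fun_prop) _ _
    · exact hg.intervalIntegrable _ _
  rw [h8, ← h7, ← h6]
  exact h5

/-- reciprocals of rough numbers between `e^i` and `e^{i+1}` -/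
theorem rc_rs_block : ∃ C : ℝ, 0 < C ∧ ∀ (P i : ℕ) (s : Finset ℕ), 2 ≤ P →
    (∀ k ∈ s, 1 < k ∧ k.Coprime (RR P) ∧ ⌊Real.log k⌋₊ = i) →
    ∑ k ∈ s, 1 / (k : ℝ) ≤ C / Real.log P := by
  obtain ⟨C, hC, hsv⟩ := sv2
  refine ⟨C * Real.exp 1, by positivity, fun P i s hP hs => ?_⟩
  have hlP : 0 < Real.log P := Real.log_pos (by exact_mod_cast hP)
  set N := ⌊Real.exp (i + 1)⌋₊ with hN
  have hle : ∀ k ∈ s, Real.exp i ≤ k ∧ k ≤ N := by
    intro k hk
    obtain ⟨h1, -, h3⟩ := hs k hk
    have hk0 : (0 : ℝ) < k := by exact_mod_cast (by omega : 0 < k)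
    have hl : 0 ≤ Real.log k := Real.log_nonneg (by exact_mod_cast h1.le)
    have h4 := Nat.floor_le hl
    have h5 := Nat.lt_floor_add_one (Real.log k)
    rw [h3] at h4 h5
    constructor
    · rw [← Real.exp_log hk0]; exact Real.exp_le_exp.2 h4
    · apply Nat.le_floor
      rw [← Real.exp_log hk0]; exact Real.exp_le_exp.2 h5.le
  by_cases hPN : P ≤ N
  · have h1 : ∑ k ∈ s, 1 / (k : ℝ) ≤ ∑ k ∈ s, Real.exp (-i) := by
      refine Finset.sum_le_sum fun k hk => ?_
      rw [Real.exp_neg, ← one_div]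
      exact one_div_le_one_div_of_le (Real.exp_pos _) (hle k hk).1
    have h2 : s ⊆ (Finset.Icc 1 N).filter (fun n => n.Coprime (RR P)) := by
      intro k hk
      rw [Finset.mem_filter, Finset.mem_Icc]
      have := hs k hk
      exact ⟨⟨this.1.le, (hle k hk).2⟩, this.2.1⟩
    have h3 : (s.card : ℝ) ≤ C * N / Real.log P :=
      (by exact_mod_cast Finset.card_le_card h2 : (s.card : ℝ) ≤ _).trans (hsv P N hP hPN)
    have h4 : (N : ℝ) ≤ Real.exp (i + 1) := Nat.floor_le (Real.exp_pos _).le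
    calc ∑ k ∈ s, 1 / (k : ℝ) ≤ ∑ k ∈ s, Real.exp (-i) := h1
      _ = s.card * Real.exp (-i) := by rw [Finset.sum_const, nsmul_eq_mul]
      _ ≤ (C * Real.exp (i + 1) / Real.log P) * Real.exp (-i) := by
          refine mul_le_mul_of_nonneg_right (h3.trans ?_) (Real.exp_pos _).le
          gcongr
      _ = C * Real.exp 1 / Real.log P := by
          have : Real.exp (i + 1) * Real.exp (-i) = Real.exp 1 := by
            rw [← Real.exp_add]; congr 1; ring
          rw [← this]; ring
  · have hemp : s = ∅ := by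
      rw [Finset.eq_empty_iff_forall_notMem]
      intro k hk
      obtain ⟨h1, h2, -⟩ := hs k hk
      have h3 := (hle k hk).2
      have hq : (Nat.minFac k).Prime := Nat.minFac_prime (by omega)
      have hqk : Nat.minFac k ∣ k := Nat.minFac_dvd k
      have hqle : Nat.minFac k ≤ k := Nat.minFac_le (by omega)
      have hmem : Nat.minFac k ∈ pr P := by
        simp only [pr, Finset.mem_filter, Finset.mem_range]
        exact ⟨by omega, hq⟩
      have hd : Nat.minFac k ∣ RR P := (Finset.dvd_prod_of_mem (fun p => p) hmem).mul_left _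
      have := Nat.dvd_gcd hqk hd
      rw [h2] at this
      exact hq.one_lt.ne' (Nat.dvd_one.1 this)
    rw [hemp, Finset.sum_empty]
    positivity

theorem rs_pr {a b : ℝ} (hab : a ≤ b) : ∃ C : ℝ, 0 < C ∧ ∀ (P : ℕ) (α : ℝ → ℂ), 2 ≤ P →
    Continuous α → (∀ t, t ∉ Set.Icc a b → α t = 0) → ∀ x : ℝ,
      Summable (vk (RR P) (fun y => hatc α (-y)) x) ∧
      ∑' k : ℕ, vk (RR P) (fun y => hatc α (-y)) x k ≤
        C / Real.log P * ∫ t : ℝ, ‖α t‖ ^ 2 := by
  obtain ⟨C1, hC1, hblock⟩ := rc_rs_block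
  set M : ℝ := |a| + |b| with hM
  have hM0 : 0 ≤ M := by positivity
  refine ⟨C1 * (2 * Real.pi * (2 + M ^ 2)), by positivity, fun P α hP hα h0 x => ?_⟩
  have hlP : 0 < Real.log P := Real.log_pos (by exact_mod_cast hP)
  have hc := rc_rs_cs h0
  set F : ℝ → ℂ := fun y => hatc α (-y) with hF
  set F' : ℝ → ℂ := fun y => -(I * hatc (fun t : ℝ => (t : ℂ) * α t) (-y)) with hF'
  have hα1 : Continuous fun t : ℝ => (t : ℂ) * α t := by fun_prop
  have hc1 : HasCompactSupport fun t : ℝ => (t : ℂ) * α t := hc.mul_left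
  have hd : ∀ y, HasDerivAt F (F' y) y := rc_rs_derivneg hα hc
  have hF'c : Continuous F' := (continuous_const.mul (rc_rs_cont hα1 hc1)).neg
  have hFc : Continuous F := rc_rs_cont hα hc
  set W : ℝ → ℝ := fun y => 2 * ‖F y‖ ^ 2 + ‖F' y‖ ^ 2 with hW
  have hWc : Continuous W := by
    simp only [hW]; fun_prop
  have hW0 : ∀ y, 0 ≤ W y := fun y => by simp only [hW]; positivity
  obtain ⟨hi0, he0⟩ := rc_rs_pl hα hc
  obtain ⟨hi1, he1⟩ := rc_rs_pl hα1 hc1
  have hF'n : ∀ y, ‖F' y‖ ^ 2 = ‖hatc (fun t => (t : ℂ) * α t) (-y)‖ ^ 2 := by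
    intro y
    simp only [hF', norm_neg, norm_mul, Complex.norm_I, one_mul]
  have hWi : Integrable W := by
    simp only [hW, hF'n]
    exact (hi0.const_mul 2).add hi1
  have hα2 : Integrable fun t => ‖α t‖ ^ 2 := by
    refine Continuous.integrable_of_hasCompactSupport (by fun_prop) ?_
    exact hc.comp_left (g := fun z : ℂ => ‖z‖ ^ 2) (by simp)
  have hα3 : Integrable fun t : ℝ => ‖(t : ℂ) * α t‖ ^ 2 := by
    refine Continuous.integrable_of_hasCompactSupport (by fun_prop) ?_
    exact hc1.comp_left (g := fun z : ℂ => ‖z‖ ^ 2) (by simp)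
  have hWint : ∫ y, W y ≤ 2 * Real.pi * (2 + M ^ 2) * ∫ t : ℝ, ‖α t‖ ^ 2 := by
    have e : ∫ y, W y = 2 * (2 * Real.pi * ∫ t : ℝ, ‖α t‖ ^ 2) +
        2 * Real.pi * ∫ t : ℝ, ‖(t : ℂ) * α t‖ ^ 2 := by
      simp only [hW, hF'n]
      rw [integral_add (hi0.const_mul 2) hi1, integral_const_mul, he0, he1]
    have h2 : ∫ t : ℝ, ‖(t : ℂ) * α t‖ ^ 2 ≤ M ^ 2 * ∫ t : ℝ, ‖α t‖ ^ 2 := by
      rw [← integral_const_mul]
      refine integral_mono hα3 (hα2.const_mul _) fun t => ?_
      by_cases ht : t ∈ Set.Icc a b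
      · beta_reduce
        rw [norm_mul, mul_pow, Complex.norm_real, Real.norm_eq_abs]
        have : |t| ≤ M := by
          rw [hM, abs_le]
          constructor
          · have := neg_abs_le a
            have := abs_nonneg b
            linarith [ht.1]
          · have := le_abs_self b
            have := abs_nonneg a
            linarith [ht.2]
        gcongr
      · simp [h0 t ht]
    rw [e]
    have hpi := Real.pi_pos
    nlinarith
  -- partial sums
  have hpart : ∀ s : Finset ℕ, ∑ k ∈ s, vk (RR P) F x k ≤ C1 / Real.log P * ∫ y, W y := by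
    intro s
    set s' := s.filter (fun k : ℕ => 1 < k ∧ k.Coprime (RR P)) with hs'
    have e1 : ∑ k ∈ s, vk (RR P) F x k =
        ∑ k ∈ s', 1 / (k : ℝ) * ‖F (Real.log k + x)‖ ^ 2 := by
      rw [hs', Finset.sum_filter]
      rfl
    set n := (s'.sup fun k => ⌊Real.log k⌋₊) + 1 with hn
    have hmaps : ∀ k ∈ s', ⌊Real.log k⌋₊ ∈ Finset.range n := by
      intro k hk
      rw [Finset.mem_range, hn]
      exact Nat.lt_succ_of_le (Finset.le_sup (f := fun k : ℕ => ⌊Real.log k⌋₊) hk)
    rw [e1, ← Finset.sum_fiberwise_of_maps_to hmaps]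
    have h2 : ∀ i ∈ Finset.range n,
        ∑ k ∈ s'.filter (fun k : ℕ => ⌊Real.log k⌋₊ = i), 1 / (k : ℝ) * ‖F (Real.log k + x)‖ ^ 2 ≤
        C1 / Real.log P * ∫ y in (x + i)..(x + (i + 1 : ℕ)), W y := by
      intro i _
      have hJ : 0 ≤ ∫ y in (x + i)..(x + (i + 1 : ℕ)), W y :=
        intervalIntegral.integral_nonneg (by push_cast; linarith) fun y _ => hW0 y
      calc ∑ k ∈ s'.filter (fun k : ℕ => ⌊Real.log k⌋₊ = i),
            1 / (k : ℝ) * ‖F (Real.log k + x)‖ ^ 2
          ≤ ∑ k ∈ s'.filter (fun k : ℕ => ⌊Real.log k⌋₊ = i),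
            1 / (k : ℝ) * ∫ y in (x + i)..(x + (i + 1 : ℕ)), W y := by
            refine Finset.sum_le_sum fun k hk => ?_
            refine mul_le_mul_of_nonneg_left ?_ (by positivity)
            obtain ⟨hk1, hk2⟩ := Finset.mem_filter.1 hk
            obtain ⟨-, hk3, -⟩ := Finset.mem_filter.1 hk1
            have hl : 0 ≤ Real.log k := Real.log_nonneg (by exact_mod_cast hk3.le)
            have h4 := Nat.floor_le hl
            have h5 := Nat.lt_floor_add_one (Real.log k)
            rw [hk2] at h4 h5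
            have h6 := rc_rs_sob hd hF'c (x + i) (Real.log k + x)
              ⟨by linarith, by linarith⟩
            have e7 : (x + ((i + 1 : ℕ) : ℝ)) = x + i + 1 := by push_cast; ring
            rw [e7]
            exact h6
        _ = (∑ k ∈ s'.filter (fun k : ℕ => ⌊Real.log k⌋₊ = i), 1 / (k : ℝ)) *
            ∫ y in (x + i)..(x + (i + 1 : ℕ)), W y := by rw [Finset.sum_mul]
        _ ≤ _ := by
            refine mul_le_mul_of_nonneg_right ?_ hJ
            refine hblock P i _ hP fun k hk => ?_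
            obtain ⟨hk1, hk2⟩ := Finset.mem_filter.1 hk
            obtain ⟨-, hk3, hk4⟩ := Finset.mem_filter.1 hk1
            exact ⟨hk3, hk4, hk2⟩
    refine (Finset.sum_le_sum h2).trans ?_
    rw [← Finset.mul_sum]
    refine mul_le_mul_of_nonneg_left ?_ (by positivity)
    have h3 := intervalIntegral.sum_integral_adjacent_intervals (f := W) (μ := volume)
      (a := fun i : ℕ => x + i) (n := n) (fun k _ => hWc.intervalIntegrable _ _)
    beta_reduce at h3
    rw [h3, intervalIntegral.integral_of_le (by push_cast; simp)]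
    exact setIntegral_le_integral hWi (Filter.Eventually.of_forall hW0)
  have hnn : ∀ k, 0 ≤ vk (RR P) F x k := by
    intro k
    rw [vk]
    split_ifs
    · positivity
    · exact le_rfl
  have hsum : Summable (vk (RR P) F x) := summable_of_sum_le hnn hpart
  refine ⟨hsum, ?_⟩
  have h1 := Summable.tsum_le_of_sum_le hsum hpart
  refine h1.trans ?_
  calc C1 / Real.log P * ∫ y, W y
      ≤ C1 / Real.log P * (2 * Real.pi * (2 + M ^ 2) * ∫ t : ℝ, ‖α t‖ ^ 2) := by
        refine mul_le_mul_of_nonneg_left hWint (by positivity)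
    _ = _ := by ring

end Pool.Agent.RC

namespace Pool.Agent.RC

alias rs := rs_pr

end Pool.Agent.RC
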