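import Pool.Agent.Lib_helper39.RC.Defs
/-! # Blocks RGD, TR : rough parts -/

set_option autoImplicit false

namespace Pool.Agent.RC

open Complex MeasureTheory Filter Topology
open scoped ContDiff

theorem rc_rgd_psi_mul (j : Fin 4) (a b : ℕ) : psi j (a * b) = psi j a * psi j b := by
  fin_cases j <;> simp [psi, Nat.cast_mul, map_mul]

theorem rc_rgd_rv_mul (j : Fin 4) (m a b : ℕ) : rv j m (a * b) = rv j m a * rv j m b := by
  simp only [rv, rc_rgd_psi_mul, Nat.cast_mul, jacobiSym.mul_left]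
  ring

theorem rc_rgd_rv_zero (j : Fin 4) {m : ℕ} (hm : 2 ≤ m) : rv j m 0 = 0 := by
  have : jacobiSym ((0 : ℕ) : ℤ) m = 0 := by
    rw [Nat.cast_zero]
    exact jacobiSym.zero_left (by omega)
  simp only [rv, this, mul_zero]

theorem rc_rgd_rv_one (j : Fin 4) (m : ℕ) : rv j m 1 = 1 := by
  fin_cases j <;> simp [rv, psi]

theorem rc_rgd_psi_abs (j : Fin 4) (n : ℕ) : |psi j n| ≤ 1 := by
  fin_cases j
  · simp [psi]
  · have h : ∀ x : ZMod 4, |ZMod.χ₄ x| ≤ 1 := by decide
    exact h _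
  · have h : ∀ x : ZMod 8, |ZMod.χ₈ x| ≤ 1 := by decide
    exact h _
  · have h : ∀ x : ZMod 8, |ZMod.χ₈' x| ≤ 1 := by decide
    exact h _

theorem rc_rgd_rv_abs (j : Fin 4) (m n : ℕ) : |(rv j m n : ℝ)| ≤ 1 := by
  have h1 : |rv j m n| ≤ 1 := by
    rw [rv, abs_mul]
    have h2 : |jacobiSym (n : ℤ) m| ≤ 1 := by
      rcases jacobiSym.trichotomy (n : ℤ) m with h | h | h <;> rw [h] <;> simp
    calc |psi j n| * |jacobiSym (n : ℤ) m| ≤ 1 * 1 :=
          mul_le_mul (rc_rgd_psi_abs j n) h2 (abs_nonneg _) zero_le_one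
      _ = 1 := one_mul 1
  have h3 : ((|rv j m n| : ℤ) : ℝ) ≤ ((1 : ℤ) : ℝ) := by exact_mod_cast h1
  rw [Int.cast_abs] at h3
  simpa using h3

theorem rc_rgd_decay {f : ℝ → ℝ} (hf : Dec f) : ∃ C : ℝ, 0 ≤ C ∧ ∀ (x : ℝ), 0 < x → ∀ n : ℕ,
    |f (n * x)| ≤ C / (1 + n * x) ^ 6 := by
  obtain ⟨C, hC⟩ := hf.bd
  have hC0 : 0 ≤ C := by
    have := (hC 0 le_rfl).1
    have h2 : (0 : ℝ) ≤ C / (1 + 0) ^ 6 := (abs_nonneg _).trans this
    simpa using h2
  exact ⟨C, hC0, fun x hx n => (hC (n * x) (by positivity)).1⟩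

theorem rc_rgd_summable_dec {f : ℝ → ℝ} (hf : Dec f) {x : ℝ} (hx : 0 < x) :
    Summable fun n : ℕ => |f (n * x)| := by
  obtain ⟨C, hC0, hC⟩ := rc_rgd_decay hf
  have hs : Summable fun n : ℕ => C / (x ^ 2) * (1 / (n : ℝ) ^ 2) :=
    (Real.summable_one_div_nat_pow.mpr one_lt_two).mul_left _
  rw [← summable_nat_add_iff 1]
  rw [← summable_nat_add_iff 1] at hs
  refine Summable.of_nonneg_of_le (fun n => abs_nonneg _) (fun n => ?_) hs
  refine (hC x hx (n + 1)).trans ?_
  have hn : (0 : ℝ) < ((n + 1 : ℕ) : ℝ) := by positivity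
  have h1 : (((n + 1 : ℕ) : ℝ) * x) ^ 2 ≤ (1 + ((n + 1 : ℕ) : ℝ) * x) ^ 6 := by
    have h2 : (0 : ℝ) < ((n + 1 : ℕ) : ℝ) * x := by positivity
    calc (((n + 1 : ℕ) : ℝ) * x) ^ 2 ≤ (1 + ((n + 1 : ℕ) : ℝ) * x) ^ 2 :=
          pow_le_pow_left₀ h2.le (by linarith) 2
      _ ≤ (1 + ((n + 1 : ℕ) : ℝ) * x) ^ 6 := pow_le_pow_right₀ (by linarith) (by norm_num)
  have h3 : C / (1 + ((n + 1 : ℕ) : ℝ) * x) ^ 6 ≤ C / (((n + 1 : ℕ) : ℝ) * x) ^ 2 :=
    div_le_div_of_nonneg_left hC0 (by positivity) h1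
  refine h3.trans (le_of_eq ?_)
  field_simp

theorem rc_rgd_summable {f : ℝ → ℝ} (hf : Dec f) (P : ℕ) (j : Fin 4) (m : ℕ) {x : ℝ}
    (hx : 0 < x) :
    Summable fun n : ℕ => (rv j m n : ℝ) * (if n.Coprime P then f (n * x) else 0) := by
  refine Summable.of_norm_bounded (rc_rgd_summable_dec hf hx) (fun n => ?_)
  rw [Real.norm_eq_abs, abs_mul]
  have h1 := rc_rgd_rv_abs j m n
  have h2 : |(if n.Coprime P then f (n * x) else 0)| ≤ |f (n * x)| := by
    split_ifs
    · exact le_rfl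
    · rw [abs_zero]; exact abs_nonneg _
  calc |(rv j m n : ℝ)| * |(if n.Coprime P then f (n * x) else 0)| ≤ 1 * |f (n * x)| :=
        mul_le_mul h1 h2 (abs_nonneg _) zero_le_one
    _ = |f (n * x)| := one_mul _

theorem rc_rgd_moebius (P n : ℕ) (hP : 0 < P) (hn : n ≠ 0) :
    ∑ d ∈ P.divisors, (if d ∣ n then (ArithmeticFunction.moebius d : ℝ) else 0) =
      if n.Coprime P then 1 else 0 := by
  rw [← Finset.sum_filter]
  have h1 : P.divisors.filter (fun d => d ∣ n) = (Nat.gcd n P).divisors := by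
    ext d
    simp only [Finset.mem_filter, Nat.mem_divisors]
    constructor
    · rintro ⟨⟨h1, h2⟩, h3⟩
      exact ⟨Nat.dvd_gcd h3 h1, Nat.gcd_ne_zero_left hn⟩
    · rintro ⟨h1, -⟩
      exact ⟨⟨h1.trans (Nat.gcd_dvd_right n P), hP.ne'⟩, h1.trans (Nat.gcd_dvd_left n P)⟩
  rw [h1]
  have h2 : ((ArithmeticFunction.moebius : ArithmeticFunction ℝ) *
      (ArithmeticFunction.zeta : ArithmeticFunction ℝ)) (Nat.gcd n P) =
      (1 : ArithmeticFunction ℝ) (Nat.gcd n P) := by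
    rw [ArithmeticFunction.coe_moebius_mul_coe_zeta]
  rw [ArithmeticFunction.coe_mul_zeta_apply, ArithmeticFunction.one_apply] at h2
  simp only [ArithmeticFunction.intCoe_apply] at h2
  rw [h2]

theorem rgd_pr {f : ℝ → ℝ} (hf : Dec f) {P m : ℕ} (hP : 0 < P) (hm : 2 ≤ m) (j : Fin 4) (u : ℝ) :
    DD f P j m u = ∑ d ∈ P.divisors, (ArithmeticFunction.moebius d : ℝ) * rv j m d *
      (1 / √(d : ℝ)) * DD f 1 j m (u + Real.log d) := by
  have hx : 0 < Real.exp u := Real.exp_pos u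
  -- term for each divisor
  have hterm : ∀ d ∈ P.divisors, (ArithmeticFunction.moebius d : ℝ) * rv j m d *
      (1 / √(d : ℝ)) * DD f 1 j m (u + Real.log d) =
      Real.exp (u / 2) * ∑' k : ℕ, (if d ∣ k then (ArithmeticFunction.moebius d : ℝ) else 0) *
        ((rv j m k : ℝ) * f (k * Real.exp u)) := by
    intro d hd
    have hd0 : 0 < d := Nat.pos_of_mem_divisors hd
    have hdr : (0 : ℝ) < d := by exact_mod_cast hd0
    have h1 : ∑' k : ℕ, (if d ∣ k then (ArithmeticFunction.moebius d : ℝ) else 0) *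
        ((rv j m k : ℝ) * f (k * Real.exp u)) =
        ∑' n : ℕ, (ArithmeticFunction.moebius d : ℝ) *
          ((rv j m (d * n) : ℝ) * f ((d * n : ℕ) * Real.exp u)) := by
      have hinj : Function.Injective (fun n : ℕ => d * n) := by
        intro a b hab
        exact Nat.eq_of_mul_eq_mul_left hd0 hab
      have hsupp : Function.support (fun k : ℕ =>
          (if d ∣ k then (ArithmeticFunction.moebius d : ℝ) else 0) *
          ((rv j m k : ℝ) * f (k * Real.exp u))) ⊆ Set.range (fun n : ℕ => d * n) := by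
        intro k hk
        rw [Function.mem_support] at hk
        by_cases hdk : d ∣ k
        · obtain ⟨n, rfl⟩ := hdk
          exact ⟨n, rfl⟩
        · rw [if_neg hdk, zero_mul] at hk
          exact absurd rfl hk
      rw [← hinj.tsum_eq hsupp]
      apply tsum_congr
      intro n
      rw [if_pos (Dvd.intro n rfl)]
    rw [h1]
    have h2 : DD f 1 j m (u + Real.log d) = Real.exp (u / 2) * √(d : ℝ) *
        ∑' n : ℕ, (rv j m n : ℝ) * f ((d * n : ℕ) * Real.exp u) := by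
      unfold DD
      have e1 : Real.exp ((u + Real.log d) / 2) = Real.exp (u / 2) * √(d : ℝ) := by
        rw [add_div, Real.exp_add]
        congr 1
        rw [← Real.log_sqrt hdr.le, Real.exp_log (Real.sqrt_pos.mpr hdr)]
      rw [e1]
      congr 1
      apply tsum_congr
      intro n
      rw [if_pos (Nat.coprime_one_right n), Real.exp_add, Real.exp_log hdr]
      congr 2
      push_cast
      ring
    rw [h2]
    have h3 : ∀ n : ℕ, (ArithmeticFunction.moebius d : ℝ) *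
          ((rv j m (d * n) : ℝ) * f ((d * n : ℕ) * Real.exp u)) =
          ((ArithmeticFunction.moebius d : ℝ) * rv j m d) *
          ((rv j m n : ℝ) * f ((d * n : ℕ) * Real.exp u)) := by
      intro n
      rw [rc_rgd_rv_mul]
      push_cast
      ring
    simp_rw [h3]
    rw [tsum_mul_left]
    have h4 : (1 / √(d : ℝ)) * √(d : ℝ) = 1 := by
      rw [one_div, inv_mul_cancel₀ (Real.sqrt_pos.mpr hdr).ne']
    calc (ArithmeticFunction.moebius d : ℝ) * rv j m d * (1 / √(d : ℝ)) *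
          (Real.exp (u / 2) * √(d : ℝ) * ∑' n : ℕ, (rv j m n : ℝ) * f ((d * n : ℕ) * Real.exp u))
        = ((1 / √(d : ℝ)) * √(d : ℝ)) * (Real.exp (u / 2) *
          (((ArithmeticFunction.moebius d : ℝ) * rv j m d) *
            ∑' n : ℕ, (rv j m n : ℝ) * f ((d * n : ℕ) * Real.exp u))) := by ring
      _ = _ := by rw [h4, one_mul]
  rw [Finset.sum_congr rfl hterm, ← Finset.mul_sum]
  unfold DD
  congr 1
  have hsum1 : Summable fun k : ℕ => |f (k * Real.exp u)| := rc_rgd_summable_dec hf hx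
  have hs : ∀ d ∈ P.divisors, Summable fun k : ℕ =>
      (if d ∣ k then (ArithmeticFunction.moebius d : ℝ) else 0) *
        ((rv j m k : ℝ) * f (k * Real.exp u)) := by
    intro d _
    refine Summable.of_norm_bounded (hsum1.mul_left |(ArithmeticFunction.moebius d : ℝ)|)
      (fun k => ?_)
    rw [Real.norm_eq_abs, abs_mul, abs_mul]
    have h1 := rc_rgd_rv_abs j m k
    have h2 : |(if d ∣ k then (ArithmeticFunction.moebius d : ℝ) else 0)| ≤
        |(ArithmeticFunction.moebius d : ℝ)| := by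
      split_ifs
      · exact le_rfl
      · rw [abs_zero]; exact abs_nonneg _
    have h3 : |(rv j m k : ℝ)| * |f (k * Real.exp u)| ≤ |f (k * Real.exp u)| := by
      calc _ ≤ 1 * |f (k * Real.exp u)| := mul_le_mul_of_nonneg_right h1 (abs_nonneg _)
        _ = _ := one_mul _
    exact mul_le_mul h2 h3 (by positivity) (abs_nonneg _)
  rw [← Summable.tsum_finsetSum hs]
  apply tsum_congr
  intro k
  rw [← Finset.sum_mul]
  by_cases hk : k = 0
  · subst hk
    rw [rc_rgd_rv_zero j hm]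
    simp
  · rw [rc_rgd_moebius P k hP hk]
    split_ifs
    · rw [one_mul]
    · rw [zero_mul, mul_zero]

end Pool.Agent.RC

namespace Pool.Agent.RC

alias rgd := rgd_pr

end Pool.Agent.RC
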