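import Pool.Agent.Lib_helper39.RC.Defs
import Pool.Agent.Lib_helper39.RCA.RGD
import Pool.Agent.Lib_helper39.RCA.KERN
import Pool.Agent.Lib_helper39.RCA.SU
/-! # Block TL : tails of the rough part in mean square -/

set_option autoImplicit false

namespace Pool.Agent.RC

open Complex MeasureTheory Filter Topology
open scoped ContDiff

theorem rc_tl_measurable {f : ℝ → ℝ} (hf : Dec f) (P : ℕ) (j : Fin 4) (m : ℕ) :
    Measurable (DD f P j m) := by
  have hfc : Continuous f := hf.smooth.continuous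
  have hcont : ∀ n : ℕ, Continuous fun u : ℝ =>
      (rv j m n : ℝ) * (if n.Coprime P then f (n * Real.exp u) else 0) := by
    intro n
    by_cases h : n.Coprime P
    · simp only [if_pos h]
      fun_prop
    · simp only [if_neg h]
      fun_prop
  have hm : Measurable fun u : ℝ => ∑' n : ℕ,
      (rv j m n : ℝ) * (if n.Coprime P then f (n * Real.exp u) else 0) := by
    refine measurable_of_tendsto_metrizable (f := fun (N : ℕ) (u : ℝ) => ∑ n ∈ Finset.range N,
      (rv j m n : ℝ) * (if n.Coprime P then f (n * Real.exp u) else 0)) ?_ ?_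
    · intro N
      exact (continuous_finsetSum _ (fun n _ => hcont n)).measurable
    · rw [tendsto_pi_nhds]
      intro u
      exact (rc_rgd_summable hf P j m (Real.exp_pos u)).hasSum.tendsto_sum_nat
  have he : Measurable fun u : ℝ => Real.exp (u / 2) := by fun_prop
  exact he.mul hm

theorem rc_tl_pt {f : ℝ → ℝ} (hf : Dec f) {P m : ℕ} (hP : 0 < P) (hm : 2 ≤ m) (j : Fin 4) (u : ℝ) :
    (DD f P j m u) ^ 2 ≤ (P.divisors.card : ℝ) *
      ∑ d ∈ P.divisors, (DD f 1 j m (u + Real.log d)) ^ 2 := by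
  rw [rgd_pr hf hP hm j u]
  refine (sq_sum_le_card_mul_sum_sq).trans ?_
  apply mul_le_mul_of_nonneg_left _ (Nat.cast_nonneg _)
  apply Finset.sum_le_sum
  intro d hd
  have hd0 : 0 < d := Nat.pos_of_mem_divisors hd
  have hd1 : (1 : ℝ) ≤ d := by exact_mod_cast hd0
  rw [mul_pow]
  have h1 : |(ArithmeticFunction.moebius d : ℝ)| ≤ 1 := by
    have := ArithmeticFunction.abs_moebius_le_one (n := d)
    exact_mod_cast this
  have h2 := rc_rgd_rv_abs j m d
  have h3 : |1 / √(d : ℝ)| ≤ 1 := by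
    rw [abs_of_nonneg (by positivity), div_le_one (by positivity)]
    exact Real.one_le_sqrt.mpr hd1
  have h4 : |(ArithmeticFunction.moebius d : ℝ) * rv j m d * (1 / √(d : ℝ))| ≤ 1 := by
    rw [abs_mul, abs_mul]
    calc |(ArithmeticFunction.moebius d : ℝ)| * |(rv j m d : ℝ)| * |1 / √(d : ℝ)| ≤ 1 * 1 * 1 := by
          gcongr
      _ = 1 := by norm_num
  have h5 : ((ArithmeticFunction.moebius d : ℝ) * rv j m d * (1 / √(d : ℝ))) ^ 2 ≤ 1 := by
    rw [← sq_abs]
    exact pow_le_one₀ (abs_nonneg _) h4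
  calc ((ArithmeticFunction.moebius d : ℝ) * rv j m d * (1 / √(d : ℝ))) ^ 2 *
        (DD f 1 j m (u + Real.log d)) ^ 2 ≤ 1 * (DD f 1 j m (u + Real.log d)) ^ 2 := by
        gcongr
    _ = _ := one_mul _

theorem tl_pr {κ : ℕ} (hκ : κ ≤ 1) : ∃ C : ℝ, 0 < C ∧ ∀ (P : ℕ) (j : Fin 4) (K : ℕ) (h : ℝ → ℂ)
    (S : Set ℝ), 0 < P → 2 ≤ K → Integrable h → MeasurableSet S →
    ∑ m ∈ gblk κ j K, ‖∫ u in S, (DD (f1 κ) P j m u : ℂ) * h u‖ ^ 2 ≤
      C * (P.divisors.card : ℝ) ^ 2 * K * (∫ u in S, ‖h u‖) ^ 2 := by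
  obtain ⟨C, hC, hsu⟩ := su hκ
  refine ⟨C, hC, ?_⟩
  intro P j K h S hP hK hh hS
  have hdec : Dec (f1 κ) := (ker_f1 hκ).toDec
  set τ : ℝ := (P.divisors.card : ℝ) with hτ
  have hτ0 : 0 ≤ τ := Nat.cast_nonneg _
  have hgood : ∀ m ∈ gblk κ j K, 2 ≤ m := by
    intro m hm
    classical
    have hm' : m ∈ (Finset.Ico K (2 * K)).filter (Good κ j) := by
      convert hm using 1
      rw [gblk]
    exact (Finset.mem_filter.mp hm').2.2.1
  have hsum : ∀ u : ℝ, ∑ m ∈ gblk κ j K, (DD (f1 κ) P j m u) ^ 2 ≤ C * τ ^ 2 * K := by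
    intro u
    calc ∑ m ∈ gblk κ j K, (DD (f1 κ) P j m u) ^ 2
        ≤ ∑ m ∈ gblk κ j K, τ * ∑ d ∈ P.divisors, (DD (f1 κ) 1 j m (u + Real.log d)) ^ 2 :=
          Finset.sum_le_sum (fun m hm => rc_tl_pt hdec hP (hgood m hm) j u)
      _ = τ * ∑ d ∈ P.divisors, ∑ m ∈ gblk κ j K, (DD (f1 κ) 1 j m (u + Real.log d)) ^ 2 := by
          rw [← Finset.mul_sum, Finset.sum_comm]
      _ ≤ τ * ∑ d ∈ P.divisors, C * K := by
          apply mul_le_mul_of_nonneg_left _ hτ0
          exact Finset.sum_le_sum (fun d _ => hsu j K _ hK)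
      _ = C * τ ^ 2 * K := by
          rw [Finset.sum_const, nsmul_eq_mul]
          ring
  set B : ℝ := C * τ ^ 2 * K with hB
  have hB0 : 0 ≤ B := by positivity
  have hone : ∀ m ∈ gblk κ j K, ∀ u : ℝ, (DD (f1 κ) P j m u) ^ 2 ≤ B := by
    intro m hm u
    exact (Finset.single_le_sum (f := fun m => (DD (f1 κ) P j m u) ^ 2)
      (fun i _ => sq_nonneg _) hm).trans (hsum u)
  have hhn : Integrable (fun u => ‖h u‖) (volume.restrict S) := hh.norm.restrict
  have ha0 : 0 ≤ ∫ u in S, ‖h u‖ := integral_nonneg (fun u => norm_nonneg _)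
  set a : ℝ := ∫ u in S, ‖h u‖ with ha
  have hmeas : ∀ m, Measurable (DD (f1 κ) P j m) := fun m => rc_tl_measurable hdec P j m
  have hi1 : ∀ m ∈ gblk κ j K, Integrable (fun u => |DD (f1 κ) P j m u| * ‖h u‖)
      (volume.restrict S) := by
    intro m hm
    refine hhn.bdd_mul (c := √B) ?_ ?_
    · exact (hmeas m).abs.aestronglyMeasurable
    · refine Filter.Eventually.of_forall (fun u => ?_)
      rw [Real.norm_eq_abs, abs_abs]
      exact Real.abs_le_sqrt (hone m hm u)
  have hi2 : ∀ m ∈ gblk κ j K, Integrable (fun u => (DD (f1 κ) P j m u) ^ 2 * ‖h u‖)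
      (volume.restrict S) := by
    intro m hm
    refine hhn.bdd_mul (c := B) ?_ ?_
    · exact ((hmeas m).pow_const 2).aestronglyMeasurable
    · refine Filter.Eventually.of_forall (fun u => ?_)
      rw [Real.norm_eq_abs, abs_of_nonneg (sq_nonneg _)]
      exact hone m hm u
  have hcs : ∀ m ∈ gblk κ j K, ‖∫ u in S, (DD (f1 κ) P j m u : ℂ) * h u‖ ^ 2 ≤
      a * ∫ u in S, (DD (f1 κ) P j m u) ^ 2 * ‖h u‖ := by
    intro m hm
    have h1 : ‖∫ u in S, (DD (f1 κ) P j m u : ℂ) * h u‖ ≤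
        ∫ u in S, |DD (f1 κ) P j m u| * ‖h u‖ := by
      refine (norm_integral_le_integral_norm _).trans (le_of_eq ?_)
      congr 1
      funext u
      rw [norm_mul, Complex.norm_real, Real.norm_eq_abs]
    set b : ℝ := ∫ u in S, |DD (f1 κ) P j m u| * ‖h u‖ with hb
    set c : ℝ := ∫ u in S, (DD (f1 κ) P j m u) ^ 2 * ‖h u‖ with hc
    have hb0 : 0 ≤ b := integral_nonneg (fun u => mul_nonneg (abs_nonneg _) (norm_nonneg _))
    have hbb : ‖∫ u in S, (DD (f1 κ) P j m u : ℂ) * h u‖ ^ 2 ≤ b ^ 2 :=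
      pow_le_pow_left₀ (norm_nonneg _) h1 2
    refine hbb.trans ?_
    have hba : b ≤ √B * a := by
      rw [hb, ha, ← integral_const_mul]
      refine integral_mono (hi1 m hm) (hhn.const_mul _) (fun u => ?_)
      exact mul_le_mul_of_nonneg_right (Real.abs_le_sqrt (hone m hm u)) (norm_nonneg _)
    have hkey : 0 ≤ a * (a * c - b ^ 2) := by
      have h2 : ∫ u in S, (a * |DD (f1 κ) P j m u| - b) ^ 2 * ‖h u‖ = a * (a * c - b ^ 2) := by
        have h3 : (fun u => (a * |DD (f1 κ) P j m u| - b) ^ 2 * ‖h u‖) = fun u =>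
            a ^ 2 * ((DD (f1 κ) P j m u) ^ 2 * ‖h u‖) -
              2 * a * b * (|DD (f1 κ) P j m u| * ‖h u‖) + b ^ 2 * ‖h u‖ := by
          funext u
          rw [sub_sq, mul_pow, sq_abs]
          ring
        rw [h3]
        have h4 := integral_add (μ := volume.restrict S)
          (((hi2 m hm).const_mul (a ^ 2)).sub ((hi1 m hm).const_mul (2 * a * b)))
          (hhn.const_mul (b ^ 2))
        have h5 := integral_sub (μ := volume.restrict S)
          ((hi2 m hm).const_mul (a ^ 2)) ((hi1 m hm).const_mul (2 * a * b))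
        simp only [Pi.sub_apply] at h4
        rw [h4, h5, integral_const_mul, integral_const_mul, integral_const_mul, ← hb, ← hc, ← ha]
        ring
      rw [← h2]
      exact integral_nonneg (fun u => mul_nonneg (sq_nonneg _) (norm_nonneg _))
    rcases eq_or_lt_of_le ha0 with h0 | h0
    · have hb1 : b = 0 := by
        rw [← h0, mul_zero] at hba
        exact le_antisymm hba hb0
      rw [hb1, ← h0]
      simp
    · have := nonneg_of_mul_nonneg_right hkey h0
      linarith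
  calc ∑ m ∈ gblk κ j K, ‖∫ u in S, (DD (f1 κ) P j m u : ℂ) * h u‖ ^ 2
      ≤ ∑ m ∈ gblk κ j K, a * ∫ u in S, (DD (f1 κ) P j m u) ^ 2 * ‖h u‖ := Finset.sum_le_sum hcs
    _ = a * ∫ u in S, ∑ m ∈ gblk κ j K, (DD (f1 κ) P j m u) ^ 2 * ‖h u‖ := by
        rw [← Finset.mul_sum, integral_finsetSum _ hi2]
    _ ≤ a * ∫ u in S, B * ‖h u‖ := by
        apply mul_le_mul_of_nonneg_left _ ha0
        refine integral_mono (integrable_finsetSum _ hi2) (hhn.const_mul _) (fun u => ?_)
        simp only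
        rw [← Finset.sum_mul]
        exact mul_le_mul_of_nonneg_right (hsum u) (norm_nonneg _)
    _ = C * τ ^ 2 * K * a ^ 2 := by
        rw [integral_const_mul, ← ha]
        ring

end Pool.Agent.RC

namespace Pool.Agent.RC

alias tl := tl_pr

end Pool.Agent.RC
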