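import Pool.Agent.Lib_helper39.RC.Defs
import Pool.Agent.Lib_helper39.RCA.RGD
import Pool.Agent.Lib_helper39.RCA.KERN
/-! # Block TR : transform of the rough part -/

set_option autoImplicit false

namespace Pool.Agent.RC

open Complex MeasureTheory Filter Topology
open scoped ContDiff

/-- The product over the primes dividing `P`. -/
theorem rc_tr_prod (P : ℕ) (hP : 0 < P) (g : ℕ → ℂ) (h1 : g 1 = 1)
    (hg : ∀ a b : ℕ, 0 < a → 0 < b → g (a * b) = g a * g b) :
    ∑ d ∈ P.divisors, (ArithmeticFunction.moebius d : ℂ) * g d = ∏ p ∈ P.primeFactors, (1 - g p) := by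
  classical
  set R : ℕ := ∏ p ∈ P.primeFactors, p with hR
  have hRpf : R.primeFactors = P.primeFactors := Nat.primeFactors_prod_primeFactors P
  have hRsq : Squarefree R := by
    rw [hR]
    refine Finset.squarefree_prod_of_pairwise_isCoprime ?_ ?_
    · intro p hp q hq hpq
      have hp' := Nat.prime_of_mem_primeFactors hp
      have hq' := Nat.prime_of_mem_primeFactors hq
      exact Nat.coprime_iff_isRelPrime.mp ((Nat.coprime_primes hp' hq').mpr hpq)
    · intro p hp
      exact (Nat.prime_of_mem_primeFactors hp).squarefree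
  have hR0 : R ≠ 0 := hRsq.ne_zero
  have hRP : R ∣ P := Nat.prod_primeFactors_dvd P
  let gA : ArithmeticFunction ℂ := ⟨fun n => if n = 0 then 0 else g n, by simp⟩
  have hgA : ∀ n : ℕ, n ≠ 0 → gA n = g n := by
    intro n hn
    change (if n = 0 then 0 else g n) = g n
    rw [if_neg hn]
  have hmult : gA.IsMultiplicative := by
    refine ⟨?_, ?_⟩
    · rw [hgA 1 one_ne_zero, h1]
    · intro a b hab
      by_cases ha : a = 0
      · subst ha
        rw [zero_mul, ArithmeticFunction.map_zero, zero_mul]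
      by_cases hb : b = 0
      · subst hb
        rw [mul_zero, ArithmeticFunction.map_zero, mul_zero]
      rw [hgA _ (mul_ne_zero ha hb), hgA a ha, hgA b hb,
        hg a b (Nat.pos_of_ne_zero ha) (Nat.pos_of_ne_zero hb)]
  have h2 := hmult.prodPrimeFactors_one_sub_of_squarefree gA hRsq
  rw [hRpf] at h2
  have h3 : ∏ p ∈ P.primeFactors, (1 - gA p) = ∏ p ∈ P.primeFactors, (1 - g p) := by
    apply Finset.prod_congr rfl
    intro p hp
    rw [hgA p (Nat.prime_of_mem_primeFactors hp).ne_zero]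
  rw [← h3, h2]
  symm
  have h4 : ∑ d ∈ R.divisors, (ArithmeticFunction.moebius d : ℂ) * gA d =
      ∑ d ∈ R.divisors, (ArithmeticFunction.moebius d : ℂ) * g d := by
    apply Finset.sum_congr rfl
    intro d hd
    rw [hgA d (Nat.pos_of_mem_divisors hd).ne']
  rw [h4]
  apply Finset.sum_subset (Nat.divisors_subset_of_dvd hP.ne' hRP)
  intro d hd hdR
  have hd0 : d ≠ 0 := (Nat.pos_of_mem_divisors hd).ne'
  have hns : ¬ Squarefree d := by
    intro hs
    apply hdR
    rw [Nat.mem_divisors]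
    refine ⟨?_, hR0⟩
    rw [← Nat.prod_primeFactors_of_squarefree hs, hR]
    apply Finset.prod_dvd_prod_of_subset
    exact Nat.primeFactors_mono (Nat.dvd_of_mem_divisors hd) hP.ne'
  rw [ArithmeticFunction.moebius_eq_zero_of_not_squarefree hns]
  simp

theorem rc_tr_shift (j : Fin 4) (m : ℕ) (f : ℝ → ℝ) (a t : ℝ) :
    ∫ u : ℝ, (DD f 1 j m (u + a) : ℂ) * cexp (t * u * I) =
      cexp (-(t * a * I)) * ∫ u : ℝ, (DD f 1 j m u : ℂ) * cexp (t * u * I) := by
  have h1 := integral_add_right_eq_self (μ := volume)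
    (fun u : ℝ => (DD f 1 j m u : ℂ) * cexp (t * (u - a) * I)) a
  have h2 : (fun u : ℝ => (DD f 1 j m (u + a) : ℂ) * cexp (t * (((u + a : ℝ) : ℂ) - a) * I)) =
      fun u : ℝ => (DD f 1 j m (u + a) : ℂ) * cexp (t * u * I) := by
    funext u
    congr 2
    push_cast
    ring
  rw [h2] at h1
  rw [h1, ← integral_const_mul]
  congr 1
  funext u
  rw [mul_left_comm, ← Complex.exp_add]
  congr 2
  ring

theorem tr_pr {κ : ℕ} (hκ : κ ≤ 1) {P m : ℕ} (hP : 0 < P) (hm : 2 ≤ m) (j : Fin 4)
    (hi : Integrable (DD (f1 κ) 1 j m)) (t : ℝ) :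
    Integrable (DD (f1 κ) P j m) ∧
    ∫ u : ℝ, (DD (f1 κ) P j m u : ℂ) * cexp (t * u * I) =
      (∏ p ∈ P.primeFactors, (1 - (rv j m p : ℂ) * (p : ℂ) ^ (-(1 / 2 + t * I) : ℂ))) *
        ∫ u : ℝ, (DD (f1 κ) 1 j m u : ℂ) * cexp (t * u * I) := by
  have hdec : Dec (f1 κ) := (ker_f1 hκ).toDec
  have hfun : DD (f1 κ) P j m = fun u => ∑ d ∈ P.divisors,
      (ArithmeticFunction.moebius d : ℝ) * rv j m d * (1 / √(d : ℝ)) *
        DD (f1 κ) 1 j m (u + Real.log d) := by
    funext u
    exact rgd_pr hdec hP hm j u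
  have hint : ∀ d ∈ P.divisors, Integrable fun u : ℝ =>
      (ArithmeticFunction.moebius d : ℝ) * rv j m d * (1 / √(d : ℝ)) *
        DD (f1 κ) 1 j m (u + Real.log d) :=
    fun d _ => (hi.comp_add_right (Real.log d)).const_mul _
  refine ⟨?_, ?_⟩
  · rw [hfun]
    exact integrable_finsetSum _ hint
  · have hexp : ∀ u : ℝ, ‖cexp (t * u * I)‖ = 1 := by
      intro u
      have : (t * u * I : ℂ) = ((t * u : ℝ) : ℂ) * I := by push_cast; ring
      rw [this, Complex.norm_exp_ofReal_mul_I]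
    have hcont : Continuous fun u : ℝ => cexp (t * u * I) := by fun_prop
    have h1 : ∀ u : ℝ, (DD (f1 κ) P j m u : ℂ) * cexp (t * u * I) = ∑ d ∈ P.divisors,
        (((ArithmeticFunction.moebius d : ℂ) * rv j m d * (1 / √(d : ℝ) : ℝ)) *
          ((DD (f1 κ) 1 j m (u + Real.log d) : ℂ) * cexp (t * u * I))) := by
      intro u
      rw [hfun]
      simp only
      push_cast
      rw [Finset.sum_mul]
      apply Finset.sum_congr rfl
      intro d _
      ring
    simp_rw [h1]
    have hint2 : ∀ a : ℝ, Integrable fun u : ℝ =>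
        (DD (f1 κ) 1 j m (u + a) : ℂ) * cexp (t * u * I) := by
      intro a
      have h2 : Integrable fun u : ℝ => ((DD (f1 κ) 1 j m (u + a) : ℝ) : ℂ) :=
        (hi.comp_add_right a).ofReal
      refine h2.mul_bdd (c := 1) hcont.aestronglyMeasurable ?_
      exact Filter.Eventually.of_forall (fun u => (hexp u).le)
    have hsw := integral_finsetSum (μ := volume) P.divisors
      (f := fun (d : ℕ) (u : ℝ) => ((ArithmeticFunction.moebius d : ℂ) * rv j m d *
        (1 / √(d : ℝ) : ℝ)) * ((DD (f1 κ) 1 j m (u + Real.log d) : ℂ) * cexp (t * u * I)))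
      (fun d _ => (hint2 (Real.log d)).const_mul _)
    rw [hsw]
    simp_rw [integral_const_mul]
    have h3 : ∀ d : ℕ, ∫ u : ℝ, (DD (f1 κ) 1 j m (u + Real.log d) : ℂ) * cexp (t * u * I) =
        cexp (-(t * Real.log d * I)) * ∫ u : ℝ, (DD (f1 κ) 1 j m u : ℂ) * cexp (t * u * I) :=
      fun d => rc_tr_shift j m (f1 κ) (Real.log d) t
    simp_rw [h3]
    have h4 : ∀ d ∈ P.divisors, (ArithmeticFunction.moebius d : ℂ) * rv j m d *
        ((1 / √(d : ℝ) : ℝ) : ℂ) * (cexp (-(t * Real.log d * I)) *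
          ∫ u : ℝ, (DD (f1 κ) 1 j m u : ℂ) * cexp (t * u * I)) =
        ((ArithmeticFunction.moebius d : ℂ) * ((rv j m d : ℂ) * (d : ℂ) ^ (-(1 / 2 + t * I) : ℂ))) *
          ∫ u : ℝ, (DD (f1 κ) 1 j m u : ℂ) * cexp (t * u * I) := by
      intro d hd
      have hd0 : 0 < d := Nat.pos_of_mem_divisors hd
      have hdr : (0 : ℝ) < d := by exact_mod_cast hd0
      have h5 : ((1 / √(d : ℝ) : ℝ) : ℂ) * cexp (-(t * Real.log d * I)) =
          (d : ℂ) ^ (-(1 / 2 + t * I) : ℂ) := by
        have hdc : (d : ℂ) ≠ 0 := by exact_mod_cast hd0.ne'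
        rw [Complex.cpow_def_of_ne_zero hdc, ← Complex.natCast_log]
        have h6 : ((1 / √(d : ℝ) : ℝ) : ℂ) = cexp (-(Real.log d) / 2) := by
          have h7 : (1 / √(d : ℝ) : ℝ) = Real.exp (-(Real.log d) / 2) := by
            rw [neg_div, Real.exp_neg, ← Real.log_sqrt hdr.le, Real.exp_log (Real.sqrt_pos.mpr hdr),
              one_div]
          rw [h7]
          push_cast
          rfl
        rw [h6, ← Complex.exp_add]
        congr 1
        ring
      rw [← h5]
      ring
    rw [Finset.sum_congr rfl h4, ← Finset.sum_mul]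
    congr 1
    apply rc_tr_prod P hP (fun d => (rv j m d : ℂ) * (d : ℂ) ^ (-(1 / 2 + t * I) : ℂ))
    · simp [rc_rgd_rv_one]
    · intro a b ha hb
      simp only [rc_rgd_rv_mul]
      have := Complex.natCast_mul_natCast_cpow a b (-(1 / 2 + t * I) : ℂ)
      push_cast
      rw [this]
      ring

end Pool.Agent.RC

namespace Pool.Agent.RC

alias tr := tr_pr

end Pool.Agent.RC
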