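import Pool.Agent.Lib_helper39.RC.Defs
import Pool.Agent.Lib_helper39.RCA.HATC
/-!
# ZS: the sum over rough squares is a factor `zr P`
-/

namespace Pool.Agent.RC

open Complex MeasureTheory Filter Topology

theorem rc_zs_sum1 : Summable fun a : ℕ => 1 / ((a : ℝ) * (1 + Real.log a) ^ 2) := by
  rw [← summable_condensed_iff_of_nonneg]
  · have h2 : Summable fun k : ℕ => (1 / (Real.log 2) ^ 2) * (1 / ((k : ℝ) + 1) ^ 2) := by
      apply Summable.mul_left
      have h : Summable fun n : ℕ => 1 / (n : ℝ) ^ 2 :=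
        Real.summable_one_div_nat_pow.2 (by norm_num)
      have := (summable_nat_add_iff 1).2 h
      refine this.congr fun k => ?_
      push_cast
      rfl
    have hl : 0 < Real.log 2 := Real.log_pos (by norm_num)
    have hl1 : Real.log 2 ≤ 1 := by
      have := Real.log_two_lt_d9
      linarith
    refine Summable.of_nonneg_of_le (fun k => by positivity) (fun k => ?_) h2
    have e : (2 : ℝ) ^ k * (1 / (((2 ^ k : ℕ) : ℝ) * (1 + Real.log ((2 ^ k : ℕ) : ℝ)) ^ 2)) =
        1 / (1 + k * Real.log 2) ^ 2 := by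
      push_cast
      rw [Real.log_pow]
      have : (2 : ℝ) ^ k ≠ 0 := by positivity
      field_simp
    rw [e, one_div_mul_one_div, ← mul_pow]
    apply one_div_le_one_div_of_le (by positivity)
    apply pow_le_pow_left₀ (by positivity)
    nlinarith
  · intro n; positivity
  · intro m n hm hmn
    have hm' : (1 : ℝ) ≤ m := by exact_mod_cast hm
    have hmn' : (m : ℝ) ≤ n := by exact_mod_cast hmn
    have hl : 0 ≤ Real.log m := Real.log_nonneg hm'
    have hll : Real.log m ≤ Real.log n := Real.log_le_log (by linarith) hmn'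
    apply one_div_le_one_div_of_le (by positivity)
    gcongr

theorem rc_zs_sum (y C : ℝ) (hC : 0 ≤ C) :
    Summable fun a : ℕ => (1 / (a : ℝ)) * (C / (1 + (y + 2 * Real.log a) ^ 2)) := by
  have h := (rc_zs_sum1).mul_left (C * (2 + y ^ 2))
  refine Summable.of_nonneg_of_le (fun a => by positivity) (fun a => ?_) h
  rcases Nat.eq_zero_or_pos a with rfl | ha
  · simp
  have ha' : (1 : ℝ) ≤ a := by exact_mod_cast ha
  have hl : 0 ≤ Real.log a := Real.log_nonneg ha'
  have key : (1 + Real.log a) ^ 2 ≤ (2 + y ^ 2) * (1 + (y + 2 * Real.log a) ^ 2) := by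
    nlinarith [sq_nonneg (Real.log a - 1), sq_nonneg (y + 2 * Real.log a + y),
      mul_nonneg (sq_nonneg y) (sq_nonneg (y + 2 * Real.log a)), sq_nonneg (2 * y + 2 * Real.log a)]
  have e : (1 / (a : ℝ)) * (C / (1 + (y + 2 * Real.log a) ^ 2)) =
      C / (a * (1 + (y + 2 * Real.log a) ^ 2)) := by
    field_simp
  rw [e, mul_one_div]
  rw [div_le_div_iff₀ (by positivity) (by positivity)]
  calc C * (a * (1 + Real.log a) ^ 2) ≤ C * (a * ((2 + y ^ 2) * (1 + (y + 2 * Real.log a) ^ 2))) := by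
        gcongr
    _ = C * (2 + y ^ 2) * (a * (1 + (y + 2 * Real.log a) ^ 2)) := by ring

/-- the zeta function without the primes up to `P`. -/
noncomputable def rc_zs_Z (P : ℕ) (s : ℂ) : ℂ :=
  riemannZeta s * ∏ p ∈ pr P, (1 - (p : ℂ) ^ (-s))

theorem rc_zs_cont (P : ℕ) {s : ℂ} (hs : s ≠ 1) : ContinuousAt (rc_zs_Z P) s := by
  refine (differentiableAt_riemannZeta hs).continuousAt.mul ?_
  refine tendsto_finsetProd _ fun p hp => ?_
  have hp0 : (p : ℂ) ≠ 0 := by
    have := (Finset.mem_filter.1 hp).2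
    exact_mod_cast this.ne_zero
  have : Continuous fun s : ℂ => 1 - (p : ℂ) ^ (-s) := by
    refine continuous_const.sub ?_
    exact (continuous_neg).const_cpow (Or.inl hp0)
  exact this.continuousAt

theorem rc_zs_primes {P : ℕ} (hP : 2 ≤ P) : (RR P).primeFactors = pr P := by
  have hne : ∏ p ∈ pr P, p ≠ 0 := Finset.prod_ne_zero_iff.2 fun p hp =>
    (Finset.mem_filter.1 hp).2.ne_zero
  ext q
  rw [Nat.mem_primeFactors]
  constructor
  · rintro ⟨hq, hd, -⟩
    rw [RR, hq.dvd_mul] at hd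
    rcases hd with hd | hd
    · have h2 : q ∣ 2 ^ 3 := by simpa using hd
      have := (Nat.prime_dvd_prime_iff_eq hq Nat.prime_two).1 (hq.dvd_of_dvd_pow h2)
      subst this
      simp only [pr, Finset.mem_filter, Finset.mem_range]
      exact ⟨by omega, hq⟩
    · obtain ⟨p, hp, hqp⟩ := (Prime.dvd_finsetProd_iff hq.prime _).1 hd
      have := (Nat.prime_dvd_prime_iff_eq hq (Finset.mem_filter.1 hp).2).1 hqp
      rw [this]; exact hp
  · intro hq
    refine ⟨(Finset.mem_filter.1 hq).2, ?_, ?_⟩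
    · exact (Finset.dvd_prod_of_mem _ hq).mul_left _
    · exact mul_ne_zero (by norm_num) hne

theorem rc_zs_RR0 (P : ℕ) : RR P ≠ 0 := by
  have hne : ∏ p ∈ pr P, p ≠ 0 := Finset.prod_ne_zero_iff.2 fun p hp =>
    (Finset.mem_filter.1 hp).2.ne_zero
  exact mul_ne_zero (by norm_num) hne

theorem rc_zs_LS {P : ℕ} (hP : 2 ≤ P) {s : ℂ} (hs : 1 < s.re) :
    ∑' a : ℕ, (if 0 < a ∧ a.Coprime (RR P) then (a : ℂ) ^ (-s) else 0) = rc_zs_Z P s := by
  have : NeZero (RR P) := ⟨rc_zs_RR0 P⟩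
  have hs1 : s ≠ 1 := by
    rintro rfl; simp at hs
  have h1 := DirichletCharacter.LFunctionTrivChar_eq_mul_riemannZeta (N := RR P) hs1
  have h2 := DirichletCharacter.LFunction_eq_LSeries (1 : DirichletCharacter ℂ (RR P)) hs
  rw [DirichletCharacter.LFunctionTrivChar, h2, rc_zs_primes hP] at h1
  rw [rc_zs_Z, mul_comm, ← h1, LSeries]
  refine tsum_congr fun a => ?_
  rw [LSeries.term_def]
  rcases Nat.eq_zero_or_pos a with rfl | ha
  · simp
  · rw [if_neg ha.ne']
    by_cases hc : a.Coprime (RR P)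
    · have hu : IsUnit (a : ZMod (RR P)) := (ZMod.isUnit_iff_coprime _ _).2 hc
      rw [if_pos ⟨ha, hc⟩, MulChar.one_apply hu, Complex.cpow_neg, one_div]
    · have hu : ¬ IsUnit (a : ZMod (RR P)) := fun h => hc ((ZMod.isUnit_iff_coprime _ _).1 h)
      rw [if_neg (fun h => hc h.2), MulChar.map_nonunit _ hu, zero_div]

theorem rc_zs_point (a : ℕ) (ha : 0 < a) (y σ t : ℝ) :
    (1 / (a : ℂ)) * (((a : ℝ) ^ (-σ) : ℝ) : ℂ) *
      cexp (t * ((-(y + 2 * Real.log a) : ℝ) : ℂ) * I) =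
    cexp (t * ((-y : ℝ) : ℂ) * I) * (a : ℂ) ^ (-(1 + σ + 2 * t * I) : ℂ) := by
  have ha0 : (a : ℂ) ≠ 0 := by exact_mod_cast ha.ne'
  have ha' : (0 : ℝ) < a := by exact_mod_cast ha
  have e1 : (1 / (a : ℂ)) = cexp (-(Real.log a : ℂ)) := by
    rw [← Complex.ofReal_neg, ← Complex.ofReal_exp, Real.exp_neg, Real.exp_log ha']
    push_cast
    rw [one_div]
  have e2 : (((a : ℝ) ^ (-σ) : ℝ) : ℂ) = cexp ((Real.log a : ℂ) * (-σ)) := by
    rw [Real.rpow_def_of_pos ha', Complex.ofReal_exp]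
    push_cast
    rfl
  have e3 : (a : ℂ) ^ (-(1 + σ + 2 * t * I) : ℂ) =
      cexp ((Real.log a : ℂ) * (-(1 + σ + 2 * t * I))) := by
    rw [Complex.cpow_def_of_ne_zero ha0, ← Complex.ofReal_natCast, ← Complex.ofReal_log
      (Nat.cast_nonneg a)]
  rw [e1, e2, e3, ← Complex.exp_add, ← Complex.exp_add, ← Complex.exp_add]
  congr 1
  push_cast
  ring

theorem rc_zs_normexp (u v : ℝ) : ‖cexp (u * ((v : ℝ) : ℂ) * I)‖ = 1 := by
  rw [← Complex.ofReal_mul]
  exact Complex.norm_exp_ofReal_mul_I _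

theorem rc_zs_normcpow (a : ℕ) (ha : 0 < a) (σ t : ℝ) :
    ‖(a : ℂ) ^ (-(1 + σ + 2 * t * I) : ℂ)‖ = (a : ℝ) ^ (-(1 + σ)) := by
  rw [Complex.norm_natCast_cpow_of_pos ha]
  congr 1
  simp

theorem rc_zs_pos {P : ℕ} (hP : 2 ≤ P) (ψ : ℝ → ℂ) (hi : Integrable ψ) (y σ : ℝ) (hσ : 0 < σ) :
    ∑' a : ℕ, (if 0 < a ∧ a.Coprime (RR P) then
      (1 / (a : ℂ)) * (((a : ℝ) ^ (-σ) : ℝ) : ℂ) * hatc ψ (-(y + 2 * Real.log a)) else 0) =
    ∫ t : ℝ, ψ t * cexp (t * ((-y : ℝ) : ℂ) * I) * rc_zs_Z P (1 + σ + 2 * t * I) := by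
  set F : ℕ → ℝ → ℂ := fun a t => if 0 < a ∧ a.Coprime (RR P) then
    ψ t * (cexp (t * ((-y : ℝ) : ℂ) * I) * (a : ℂ) ^ (-(1 + σ + 2 * t * I) : ℂ)) else 0 with hF
  have hterm : ∀ a : ℕ, (if 0 < a ∧ a.Coprime (RR P) then
      (1 / (a : ℂ)) * (((a : ℝ) ^ (-σ) : ℝ) : ℂ) * hatc ψ (-(y + 2 * Real.log a)) else 0) =
      ∫ t : ℝ, F a t := by
    intro a
    by_cases h : 0 < a ∧ a.Coprime (RR P)
    · simp only [hF, if_pos h]
      rw [hatc, ← integral_const_mul]
      refine integral_congr_ae (Filter.Eventually.of_forall fun t => ?_)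
      beta_reduce
      rw [← rc_zs_point a h.1]
      ring
    · simp only [hF, if_neg h, integral_zero]
  have hcont : ∀ a : ℕ, 0 < a → Continuous fun t : ℝ =>
      cexp (t * ((-y : ℝ) : ℂ) * I) * (a : ℂ) ^ (-(1 + σ + 2 * t * I) : ℂ) := by
    intro a ha
    have ha0 : (a : ℂ) ≠ 0 := by exact_mod_cast ha.ne'
    refine Continuous.mul (by fun_prop) ?_
    exact Continuous.const_cpow (by fun_prop) (Or.inl ha0)
  have hnorm : ∀ (a : ℕ) (t : ℝ), ‖F a t‖ ≤ ‖ψ t‖ * (a : ℝ) ^ (-(1 + σ)) := by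
    intro a t
    by_cases h : 0 < a ∧ a.Coprime (RR P)
    · simp only [hF, if_pos h]
      rw [norm_mul, norm_mul, rc_zs_normexp, one_mul, rc_zs_normcpow a h.1]
    · simp only [hF, if_neg h, norm_zero]
      positivity
  have hint : ∀ a, Integrable (F a) := by
    intro a
    refine Integrable.mono' (hi.norm.mul_const ((a : ℝ) ^ (-(1 + σ)))) ?_
      (Filter.Eventually.of_forall (hnorm a))
    by_cases h : 0 < a ∧ a.Coprime (RR P)
    · simp only [hF, if_pos h]
      exact hi.1.mul (hcont a h.1).aestronglyMeasurable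
    · simp only [hF, if_neg h]
      exact aestronglyMeasurable_const
  have hsum : Summable fun a : ℕ => ∫ t : ℝ, ‖F a t‖ := by
    have h1 : Summable fun a : ℕ => (∫ t : ℝ, ‖ψ t‖) * (a : ℝ) ^ (-(1 + σ)) :=
      (Real.summable_nat_rpow.2 (by linarith)).mul_left _
    refine Summable.of_nonneg_of_le (fun a => integral_nonneg fun t => norm_nonneg _)
      (fun a => ?_) h1
    rw [← integral_mul_const]
    exact integral_mono (hint a).norm (hi.norm.mul_const _) (hnorm a)
  rw [tsum_congr hterm, integral_tsum_of_summable_integral_norm hint hsum]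
  refine integral_congr_ae (Filter.Eventually.of_forall fun t => ?_)
  beta_reduce
  have hre : 1 < (1 + σ + 2 * t * I : ℂ).re := by simp [hσ]
  rw [← rc_zs_LS hP hre, ← tsum_mul_left]
  refine tsum_congr fun a => ?_
  by_cases h : 0 < a ∧ a.Coprime (RR P)
  · simp only [hF, if_pos h]; ring
  · simp only [hF, if_neg h, mul_zero]

theorem zs_pr {P : ℕ} (hP : 2 ≤ P) (ψ : ℝ → ℂ) (hψ : ContDiff ℝ 2 ψ) (hc : HasCompactSupport ψ)
    (h0 : (0 : ℝ) ∉ tsupport ψ) (y : ℝ) :
    BB (RR P) (fun x => hatc ψ (-x)) y = hatc (fun t => ψ t * zr P t) (-y) := by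
  obtain ⟨-, -, C, hC⟩ := hat_decay ψ hψ hc
  have hC0 : 0 ≤ C := by
    have := (norm_nonneg _).trans (hC 0)
    simpa using this
  have hi : Integrable ψ := hψ.continuous.integrable_of_hasCompactSupport hc
  -- left hand side
  have hL : Tendsto (fun σ : ℝ => ∑' a : ℕ, (if 0 < a ∧ a.Coprime (RR P) then
      (1 / (a : ℂ)) * (((a : ℝ) ^ (-σ) : ℝ) : ℂ) * hatc ψ (-(y + 2 * Real.log a)) else 0))
      (𝓝[>] 0) (𝓝 (BB (RR P) (fun x => hatc ψ (-x)) y)) := by
    rw [BB]
    refine tendsto_tsum_of_dominated_convergence (rc_zs_sum y C hC0) ?_ ?_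
    · intro a
      by_cases h : 0 < a ∧ a.Coprime (RR P)
      · simp only [if_pos h]
        have ha' : (0 : ℝ) < a := by exact_mod_cast h.1
        have hc1 : Continuous fun σ : ℝ => (1 / (a : ℂ)) * (((a : ℝ) ^ (-σ) : ℝ) : ℂ) *
            hatc ψ (-(y + 2 * Real.log a)) := by
          have : Continuous fun σ : ℝ => (a : ℝ) ^ (-σ) :=
            Continuous.rpow continuous_const continuous_neg (fun x => Or.inl ha'.ne')
          fun_prop
        have := (hc1.tendsto 0).mono_left (nhdsWithin_le_nhds (s := Set.Ioi 0))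
        simpa using this
      · simp only [if_neg h]
        exact tendsto_const_nhds
    · filter_upwards [self_mem_nhdsWithin] with σ hσ
      intro a
      by_cases h : 0 < a ∧ a.Coprime (RR P)
      · rw [if_pos h, norm_mul, norm_mul]
        have ha1 : (1 : ℝ) ≤ a := by exact_mod_cast h.1
        have e1 : ‖(1 / (a : ℂ))‖ = 1 / a := by simp
        have e2 : ‖(((a : ℝ) ^ (-σ) : ℝ) : ℂ)‖ ≤ 1 := by
          rw [Complex.norm_real, Real.norm_eq_abs, abs_of_nonneg (by positivity)]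
          exact Real.rpow_le_one_of_one_le_of_nonpos ha1 (by
            have : (0 : ℝ) < σ := hσ
            linarith)
        have e3 := hC (-(y + 2 * Real.log a))
        rw [neg_sq] at e3
        rw [e1]
        calc 1 / (a : ℝ) * ‖(((a : ℝ) ^ (-σ) : ℝ) : ℂ)‖ * ‖hatc ψ (-(y + 2 * Real.log a))‖
            ≤ 1 / (a : ℝ) * 1 * (C / (1 + (y + 2 * Real.log a) ^ 2)) := by gcongr
          _ = _ := by ring
      · rw [if_neg h, norm_zero]; positivity
  -- right hand side
  have hK : IsCompact (tsupport ψ) := hc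
  have hne : ∀ σ t : ℝ, t ∈ tsupport ψ → (1 + σ + 2 * t * I : ℂ) ≠ 1 := by
    intro σ t ht h
    have him := congrArg Complex.im h
    simp at him
    exact h0 (him ▸ ht)
  have hcZ : ContinuousOn (fun q : ℝ × ℝ => rc_zs_Z P (1 + q.1 + 2 * q.2 * I))
      (Set.Icc 0 1 ×ˢ tsupport ψ) := by
    rintro ⟨σ, t⟩ ⟨-, ht⟩
    have h1 := rc_zs_cont P (hne σ t ht)
    have h2 : ContinuousAt (fun q : ℝ × ℝ => (1 + q.1 + 2 * q.2 * I : ℂ)) (σ, t) := by
      fun_prop
    exact (ContinuousAt.comp (x := (σ, t)) (f := fun q : ℝ × ℝ => (1 + q.1 + 2 * q.2 * I : ℂ))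
      h1 h2).continuousWithinAt
  obtain ⟨B, hB⟩ := (isCompact_Icc.prod hK).exists_bound_of_continuousOn hcZ
  have hsup : ∀ t : ℝ, t ∉ tsupport ψ → ψ t = 0 := fun t ht => image_eq_zero_of_notMem_tsupport ht
  have hR : Tendsto (fun σ : ℝ => ∫ t : ℝ, ψ t * cexp (t * ((-y : ℝ) : ℂ) * I) *
      rc_zs_Z P (1 + σ + 2 * t * I)) (𝓝[>] 0)
      (𝓝 (∫ t : ℝ, ψ t * cexp (t * ((-y : ℝ) : ℂ) * I) *
      rc_zs_Z P (1 + (0 : ℝ) + 2 * t * I))) := by
    refine tendsto_integral_filter_of_dominated_convergence (fun t => ‖ψ t‖ * B) ?_ ?_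
      (hi.norm.mul_const B) ?_
    · filter_upwards [Ioo_mem_nhdsGT (show (0 : ℝ) < 1 by norm_num)] with σ hσ
      refine Continuous.aestronglyMeasurable ?_
      rw [continuous_iff_continuousAt]
      intro t
      by_cases ht : t ∈ tsupport ψ
      · refine ContinuousAt.mul ?_ ?_
        · have := hψ.continuous
          fun_prop
        · exact ContinuousAt.comp (x := t) (f := fun t : ℝ => (1 + σ + 2 * t * I : ℂ))
            (rc_zs_cont P (hne σ t ht)) (by fun_prop)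
      · have : (fun t : ℝ => ψ t * cexp (t * ((-y : ℝ) : ℂ) * I) *
            rc_zs_Z P (1 + σ + 2 * t * I)) =ᶠ[𝓝 t] fun _ => 0 := by
          filter_upwards [(isClosed_tsupport ψ).isOpen_compl.mem_nhds ht] with s hs
          rw [hsup s hs, zero_mul, zero_mul]
        exact (continuousAt_congr this).2 continuousAt_const
    · filter_upwards [Ioo_mem_nhdsGT (show (0 : ℝ) < 1 by norm_num)] with σ hσ
      refine Filter.Eventually.of_forall fun t => ?_
      by_cases ht : t ∈ tsupport ψ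
      · rw [norm_mul, norm_mul, rc_zs_normexp, mul_one]
        exact mul_le_mul_of_nonneg_left (hB (σ, t) ⟨⟨hσ.1.le, hσ.2.le⟩, ht⟩) (norm_nonneg _)
      · rw [hsup t ht]; simp
    · refine Filter.Eventually.of_forall fun t => ?_
      by_cases ht : t ∈ tsupport ψ
      · refine Tendsto.mul tendsto_const_nhds ?_
        have h1 : ContinuousAt (fun σ : ℝ => rc_zs_Z P (1 + σ + 2 * t * I)) 0 :=
          ContinuousAt.comp (x := (0 : ℝ)) (f := fun σ : ℝ => (1 + σ + 2 * t * I : ℂ))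
            (rc_zs_cont P (hne 0 t ht)) (by fun_prop)
        exact h1.tendsto.mono_left nhdsWithin_le_nhds
      · simp only [hsup t ht, zero_mul]
        exact tendsto_const_nhds
  have heq : (fun σ : ℝ => ∑' a : ℕ, (if 0 < a ∧ a.Coprime (RR P) then
      (1 / (a : ℂ)) * (((a : ℝ) ^ (-σ) : ℝ) : ℂ) * hatc ψ (-(y + 2 * Real.log a)) else 0))
      =ᶠ[𝓝[>] 0] (fun σ : ℝ => ∫ t : ℝ, ψ t * cexp (t * ((-y : ℝ) : ℂ) * I) *
      rc_zs_Z P (1 + σ + 2 * t * I)) := by
    filter_upwards [self_mem_nhdsWithin] with σ hσ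
    exact rc_zs_pos hP ψ hi y σ hσ
  rw [tendsto_nhds_unique (hL.congr' heq) hR, hatc]
  refine integral_congr_ae (Filter.Eventually.of_forall fun t => ?_)
  beta_reduce
  rw [rc_zs_Z, zr, Complex.ofReal_zero, add_zero]
  ring

end Pool.Agent.RC

namespace Pool.Agent.RC

alias zs := zs_pr

end Pool.Agent.RC
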