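import Pool.Agent.Lib_helper39.RCA.TWOA
import Pool.Agent.Lib_helper39.RCA.BLIM
import Pool.Agent.Lib_helper39.RCA.EX
import Pool.Agent.Lib_helper39.RCA.GK
import Pool.Agent.Lib_helper39.RCA.HATC
import Pool.Agent.Lib_helper39.RCA.PA
import Pool.Agent.Lib_helper39.RCA.REP1
import Pool.Agent.Lib_helper39.RCA.RS
import Pool.Agent.Lib_helper39.RCA.TL
import Pool.Agent.Lib_helper39.RCA.TR
import Pool.Agent.Lib_helper39.RCA.ZS
/-!
# Block PB
-/

namespace Pool.Agent.RC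

open Complex MeasureTheory Filter Topology
open scoped ContDiff

theorem rc_pb_gm {κ : ℕ} : ContDiff ℝ 2 (gm κ) := by
  have h1 : ContDiff ℂ 2 fun z : ℂ => (Gammaℝ z)⁻¹ := differentiable_Gammaℝ_inv.contDiff
  have h2 : ContDiff ℝ 2 fun t : ℝ => (Gammaℝ (1 / 2 + κ + t * I))⁻¹ := by
    have h3 : ContDiff ℝ 2 fun t : ℝ => (1 / 2 + κ + t * I : ℂ) :=
      contDiff_const.add (ofRealCLM.contDiff.mul contDiff_const)
    exact (h1.restrict_scalars ℝ).comp h3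
  have h4 : (gm κ) = fun t : ℝ => ((Gammaℝ (1 / 2 + κ + t * I))⁻¹)⁻¹ := by
    funext t
    rw [gm, inv_inv]
  rw [h4]
  refine h2.inv fun t => inv_ne_zero (Gammaℝ_ne_zero_of_re_pos ?_)
  simp
  positivity

theorem rc_pb_zr_cont (P : ℕ) {t : ℝ} (ht : t ≠ 0) : ContinuousAt (zr P) t := by
  unfold zr
  refine ContinuousAt.mul ?_ ?_
  · have h1 : (1 + 2 * t * I : ℂ) ≠ 1 := by
      intro h
      have h2 : (2 * t * I : ℂ) = 0 := by linear_combination h
      have h3 := congrArg Complex.im h2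
      simp at h3
      exact ht h3
    have h2 : ContinuousAt riemannZeta (1 + 2 * t * I) :=
      (differentiableAt_riemannZeta h1).continuousAt
    exact ContinuousAt.comp (f := fun t : ℝ => (1 + 2 * t * I : ℂ)) h2
      (Continuous.continuousAt (by fun_prop))
  · refine Continuous.continuousAt ?_
    refine continuous_finsetProd _ fun p hp => ?_
    have hp2 := (rc_two_mem_pr.mp hp).2.two_le
    have hpc : (p : ℂ) ≠ 0 := by exact_mod_cast (by omega : p ≠ 0)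
    refine continuous_const.sub ?_
    exact Continuous.const_cpow (by fun_prop) (Or.inl hpc)

theorem rc_pb_alpha_cont {κ : ℕ} {a b : ℝ} (h0 : 0 < a ∨ b < 0) (P : ℕ) (θ : ℝ → ℂ)
    (hθ : Continuous θ) (hθs : ∀ t, t ∉ Set.Icc a b → θ t = 0) :
    Continuous fun t : ℝ => -I * t * gm κ t * θ t * zr P t := by
  rw [continuous_iff_continuousAt]
  intro t
  by_cases ht : t = 0
  · have hn : (Set.Icc a b)ᶜ ∈ 𝓝 t := by
      refine isClosed_Icc.isOpen_compl.mem_nhds ?_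
      rw [ht]
      intro h
      rcases h0 with h2 | h2
      · exact absurd h.1 (not_le.mpr h2)
      · exact absurd h.2 (not_le.mpr h2)
    have he : (fun t : ℝ => -I * t * gm κ t * θ t * zr P t) =ᶠ[𝓝 t] fun _ => 0 := by
      filter_upwards [hn] with s hs
      rw [hθs s hs]
      ring
    exact (continuousAt_const (y := (0 : ℂ))).congr he.symm
  · refine ContinuousAt.mul ?_ (rc_pb_zr_cont P ht)
    refine ContinuousAt.mul ?_ hθ.continuousAt
    refine ContinuousAt.mul ?_ rc_pb_gm.continuous.continuousAt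
    exact Continuous.continuousAt (by fun_prop)

theorem rc_pb_norm_hatc (α : ℝ → ℂ) (u : ℝ) : ‖hatc α u‖ ≤ ∫ t : ℝ, ‖α t‖ := by
  unfold hatc
  refine (norm_integral_le_integral_norm _).trans (le_of_eq ?_)
  congr 1
  funext t
  have h2 : ‖cexp ((t : ℂ) * (u : ℂ) * I)‖ = 1 := by
    rw [← ofReal_mul]
    exact norm_exp_ofReal_mul_I _
  rw [norm_mul, h2, mul_one]

theorem rc_pb_sq_add (x y : ℂ) : ‖x + y‖ ^ 2 ≤ 2 * ‖x‖ ^ 2 + 2 * ‖y‖ ^ 2 := by
  have h1 := norm_add_le x y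
  have h2 : ‖x + y‖ ^ 2 ≤ (‖x‖ + ‖y‖) ^ 2 := pow_le_pow_left₀ (norm_nonneg _) h1 2
  nlinarith [sq_nonneg (‖x‖ - ‖y‖)]

theorem rc_pb_gt {P d : ℕ} (hd : 1 < d) (hc : d.Coprime (RR P)) : P < d := by
  have hp : d.minFac.Prime := Nat.minFac_prime (by omega)
  have hpd : d.minFac ∣ d := Nat.minFac_dvd d
  by_contra hcon
  have hle : d.minFac ≤ P := (Nat.minFac_le (by omega)).trans (not_lt.mp hcon)
  have h1 : d.minFac ∣ RR P :=
    (Dvd.intro_left 4 rfl).trans (rc_two_dvd (rc_two_mem_pr.mpr ⟨hle, hp⟩))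
  have h2 := Nat.dvd_gcd hpd h1
  rw [hc] at h2
  exact hp.one_lt.ne' (Nat.dvd_one.mp h2)

theorem rc_pb_good {κ : ℕ} {j : Fin 4} {K m : ℕ} (hm : m ∈ gblk κ j K) : Good κ j m := by
  simp only [gblk, Finset.mem_filter] at hm
  exact hm.2

theorem rc_pb_ico {κ : ℕ} {j : Fin 4} {K m : ℕ} (hm : m ∈ gblk κ j K) :
    m ∈ Finset.Ico K (2 * K) := by
  simp only [gblk, Finset.mem_filter] at hm
  exact hm.1

/-- tails of an integrable function. -/
theorem rc_pb_tail (h : ℝ → ℂ) (hi : Integrable h) (δ : ℝ) (hδ : 0 < δ) :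
    ∃ U1 : ℝ, ∀ U ≥ U1, ∫ u in (Set.Ioc (-U) U)ᶜ, ‖h u‖ ≤ δ := by
  have h1 : Tendsto (fun U : ℝ => ∫ u in (-U)..U, ‖h u‖) atTop (𝓝 (∫ u : ℝ, ‖h u‖)) :=
    intervalIntegral_tendsto_integral hi.norm tendsto_neg_atTop_atBot tendsto_id
  have h2 := (h1.eventually (lt_mem_nhds (show (∫ u : ℝ, ‖h u‖) - δ < ∫ u : ℝ, ‖h u‖ by
    linarith))).and (eventually_ge_atTop (0 : ℝ))
  obtain ⟨U1, hU1⟩ := eventually_atTop.mp h2
  refine ⟨U1, fun U hU => ?_⟩
  obtain ⟨h3, h4⟩ := hU1 U hU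
  have h5 := integral_add_compl (measurableSet_Ioc (a := -U) (b := U)) hi.norm
  rw [intervalIntegral.integral_of_le (by linarith)] at h3
  linarith

theorem rc_pb_arith {Cp Cr K R P L I2 I1 ε ε1 V1 V2 : ℝ} (hCp : 0 < Cp) (hCr : 0 < Cr)
    (hK : 0 ≤ K) (hR1 : 1 ≤ R) (hP1 : 1 ≤ P) (hL : 0 < L) (hI2 : 0 ≤ I2) (hε : 0 < ε)
    (hV1 : V1 = 2 * (Cr / L * I2) + 2 * ε1) (hV2 : V2 = 2 * I1 ^ 2 + 2 * ε1)
    (hε1 : ε1 = ε / (80 * Cp)) :
    2 * (Cp * K / R * (V1 + V2 / P + ε1) + ε / 8 * K) + 2 * (ε / 8 * K) ≤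
      4 * Cp * (Cr + 1) * K / R * (1 / L * I2 + 1 / P * I1 ^ 2) + ε * K := by
  have hε1' : 0 < ε1 := by rw [hε1]; positivity
  have hR0 : 0 < R := by linarith
  have hP0 : 0 < P := by linarith
  have e1 : V1 + V2 / P + ε1 ≤ 2 * (Cr / L * I2) + 2 * (1 / P * I1 ^ 2) + 5 * ε1 := by
    have h2 : 2 * ε1 / P ≤ 2 * ε1 := div_le_self (by positivity) hP1
    rw [hV1, hV2, add_div]
    have h3 : 2 * I1 ^ 2 / P = 2 * (1 / P * I1 ^ 2) := by ring
    linarith
  have hKR : 0 ≤ Cp * K / R := by positivity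
  have e2 := mul_le_mul_of_nonneg_left e1 hKR
  have e3 : Cp * K / R * (5 * ε1) ≤ ε / 16 * K := by
    have h2 : Cp * K / R * (5 * ε1) ≤ Cp * K * (5 * ε1) := by
      refine mul_le_mul_of_nonneg_right ?_ (by positivity)
      exact div_le_self (by positivity) hR1
    refine h2.trans (le_of_eq ?_)
    rw [hε1]
    field_simp
    ring
  have e4 : 2 * (Cp * K / R * (2 * (Cr / L * I2) + 2 * (1 / P * I1 ^ 2))) ≤
      4 * Cp * (Cr + 1) * K / R * (1 / L * I2 + 1 / P * I1 ^ 2) := by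
    have h2 : 2 * (Cp * K / R * (2 * (Cr / L * I2) + 2 * (1 / P * I1 ^ 2))) =
        4 * Cp * K / R * (Cr * (1 / L * I2) + 1 * (1 / P * I1 ^ 2)) := by ring
    have h3 : 4 * Cp * (Cr + 1) * K / R * (1 / L * I2 + 1 / P * I1 ^ 2) =
        4 * Cp * K / R * ((Cr + 1) * (1 / L * I2) + (Cr + 1) * (1 / P * I1 ^ 2)) := by
      ring
    rw [h2, h3]
    refine mul_le_mul_of_nonneg_left ?_ (by positivity)
    have h4 : 0 ≤ 1 / L * I2 := by positivity
    have h5 : 0 ≤ 1 / P * I1 ^ 2 := by positivity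
    have h6 : 0 ≤ Cr * (1 / P * I1 ^ 2) := by positivity
    linarith
  have e5 : 0 ≤ ε * K := by positivity
  have e6 : Cp * K / R * (2 * (Cr / L * I2) + 2 * (1 / P * I1 ^ 2) + 5 * ε1) =
      Cp * K / R * (2 * (Cr / L * I2) + 2 * (1 / P * I1 ^ 2)) +
        Cp * K / R * (5 * ε1) := by ring
  rw [e6] at e2
  have e7 : ε / 8 * K = (ε * K) / 8 := by ring
  have e8 : ε / 16 * K = (ε * K) / 16 := by ring
  rw [e7]
  rw [e8] at e3
  linarith

/-- PB. -/
theorem pb_pr {κ : ℕ} (hκ : κ ≤ 1) {a b : ℝ} (hab : a < b) (h0 : 0 < a ∨ b < 0) :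
    ∃ C : ℝ, 0 < C ∧ ∀ (P : ℕ) (θ : ℝ → ℂ) (j : Fin 4) (c : ℕ), 2 ≤ P → ContDiff ℝ 2 θ →
    (∀ t, t ∉ Set.Icc a b → θ t = 0) → Odd c → ∀ ε : ℝ, 0 < ε → ∃ K0 : ℕ, ∀ K ≥ K0,
      ∑ m ∈ (gblk κ j K).filter (fun m => m % RR P = c % RR P),
        ‖(∫ u : ℝ, (DD (f1 κ) (RR P) j m u : ℂ) * hatc θ u) -
          ∫ t : ℝ, -I * t * gm κ t * θ t * zr P t‖ ^ 2 ≤
        C * K / RR P * (1 / Real.log P * (∫ t : ℝ, ‖-I * t * gm κ t * θ t * zr P t‖ ^ 2) +
          1 / P * (∫ t : ℝ, ‖-I * t * gm κ t * θ t * zr P t‖) ^ 2) + ε * K := by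
  obtain ⟨Cp, hCp, hpa⟩ := pa
  obtain ⟨Cr, hCr, hrs⟩ := rs hab.le
  obtain ⟨Ct, hCt, htl⟩ := tl hκ
  refine ⟨4 * Cp * (Cr + 1), by positivity, ?_⟩
  intro P θ j c hP hθ hθs hc ε hε
  set R : ℕ := RR P with hR
  have hR0 : 0 < R := rc_two_RR_pos P
  have hR0' : (0 : ℝ) < R := by exact_mod_cast hR0
  have hR1 : (1 : ℝ) ≤ R := by exact_mod_cast hR0
  have h8 : 8 ∣ R := by rw [hR, RR]; exact Dvd.intro _ rfl
  have hlogP : 0 < Real.log P := Real.log_pos (by exact_mod_cast (by omega : 1 < P))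
  have hP0 : (0 : ℝ) < P := by positivity
  have hP1 : (1 : ℝ) ≤ P := by exact_mod_cast (by omega : 1 ≤ P)
  have hcs : HasCompactSupport θ := HasCompactSupport.of_support_subset_isCompact isCompact_Icc
    (fun t ht => by
      by_contra hn
      exact ht (hθs t hn))
  obtain ⟨hhc, hhi, Ch, hhb⟩ := hat_decay θ hθ hcs
  -- the function α
  set α : ℝ → ℂ := fun t => -I * t * gm κ t * θ t * zr P t with hα
  have hαc : Continuous α := rc_pb_alpha_cont h0 P θ hθ.continuous hθs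
  have hαs : ∀ t, t ∉ Set.Icc a b → α t = 0 := by
    intro t ht
    simp only [hα]
    rw [hθs t ht]
    ring
  set ψ : ℝ → ℂ := fun t => -I * t * gm κ t * θ t with hψ
  have hψ2 : ContDiff ℝ 2 ψ := by
    refine ContDiff.mul (ContDiff.mul ?_ rc_pb_gm) hθ
    exact contDiff_const.mul ofRealCLM.contDiff
  have hψs : Function.support ψ ⊆ Set.Icc a b := by
    intro t ht
    by_contra hn
    apply ht
    simp only [hψ]
    rw [hθs t hn]
    ring
  have hψc : HasCompactSupport ψ :=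
    HasCompactSupport.of_support_subset_isCompact isCompact_Icc hψs
  have hψ0 : (0 : ℝ) ∉ tsupport ψ := by
    intro h
    have h1 := closure_minimal hψs isClosed_Icc h
    rcases h0 with h2 | h2
    · exact absurd h1.1 (not_le.mpr h2)
    · exact absurd h1.2 (not_le.mpr h2)
  have hgI : gI κ (hatc θ) = fun x => hatc ψ (-x) := by
    funext x
    exact gk hκ θ hθ hcs x
  have hBI : ∀ y, BB R (gI κ (hatc θ)) y = hatc α (-y) := by
    intro y
    rw [hgI]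
    exact zs hP ψ hψ2 hψc hψ0 y
  set z : ℂ := ∫ t : ℝ, α t with hz
  have hz0 : hatc α (-0) = z := by
    rw [hatc, hz]
    congr 1
    funext t
    simp
  set I2 : ℝ := ∫ t : ℝ, ‖α t‖ ^ 2 with hI2
  set I1 : ℝ := ∫ t : ℝ, ‖α t‖ with hI1
  have hI2' : 0 ≤ I2 := integral_nonneg fun t => sq_nonneg _
  have hI1' : 0 ≤ I1 := integral_nonneg fun t => norm_nonneg _
  -- parameters
  set ε1 : ℝ := ε / (80 * Cp) with hε1
  have hε1' : 0 < ε1 := by positivity
  set τ : ℝ := (R.divisors.card : ℝ) with hτ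
  set δ : ℝ := √(ε / (8 * Ct * (τ ^ 2 + 1))) with hδ
  have hδ2 : δ ^ 2 = ε / (8 * Ct * (τ ^ 2 + 1)) := Real.sq_sqrt (by positivity)
  have hδ0 : 0 < δ := Real.sqrt_pos.mpr (by positivity)
  obtain ⟨U0, hU0, hbl⟩ := blim hκ hR0 (hatc θ) hhc hhi ε1 hε1'
  obtain ⟨U1, hU1⟩ := rc_pb_tail (hatc θ) hhi δ hδ0
  set U : ℝ := max U0 U1 with hU
  have hUp : 0 < U := lt_max_of_lt_left hU0
  have hbU := hbl U (le_max_left _ _)
  have htail := hU1 U (le_max_right _ _)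
  set g : ℝ → ℂ := gU κ U (hatc θ) with hg
  have hs : Summable fun n : ℕ => ‖wt R g n‖ := (ex hκ hR0 (le_refl 2) j hUp (hatc θ) hhc).1
  set V1 : ℝ := 2 * (Cr / Real.log P * I2) + 2 * ε1 with hV1
  set V2 : ℝ := 2 * I1 ^ 2 + 2 * ε1 with hV2
  have H1 : ∀ x : ℝ, 0 ≤ x → Summable (vk R (BB R g) x) ∧ ∑' k : ℕ, vk R (BB R g) x k ≤ V1 := by
    intro x _
    obtain ⟨s1, t1⟩ := hrs P α hP hαc hαs x
    obtain ⟨_, s2, t2⟩ := hbU x
    have hle : ∀ k, vk R (BB R g) x k ≤ 2 * vk R (fun y => hatc α (-y)) x k +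
        2 * vk R (fun y => BB R (gU κ U (hatc θ)) y - BB R (gI κ (hatc θ)) y) x k := by
      intro k
      unfold vk
      split_ifs with hk
      · have h3 : BB R g (Real.log k + x) = hatc α (-(Real.log k + x)) +
            (BB R (gU κ U (hatc θ)) (Real.log k + x) - BB R (gI κ (hatc θ)) (Real.log k + x)) := by
          rw [hBI, hg]; ring
        have h4 := rc_pb_sq_add (hatc α (-(Real.log k + x)))
          (BB R (gU κ U (hatc θ)) (Real.log k + x) - BB R (gI κ (hatc θ)) (Real.log k + x))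
        rw [← h3] at h4
        have h5 : (0 : ℝ) ≤ 1 / (k : ℝ) := by positivity
        have h6 := mul_le_mul_of_nonneg_left h4 h5
        linarith
      · simp
    have hnn : ∀ k, 0 ≤ vk R (BB R g) x k := by
      intro k
      unfold vk
      split_ifs
      · positivity
      · exact le_rfl
    have hsum := (s1.mul_left 2).add (s2.mul_left 2)
    have hS := Summable.of_nonneg_of_le hnn hle hsum
    refine ⟨hS, ?_⟩
    calc ∑' k : ℕ, vk R (BB R g) x k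
        ≤ ∑' k : ℕ, (2 * vk R (fun y => hatc α (-y)) x k +
        2 * vk R (fun y => BB R (gU κ U (hatc θ)) y - BB R (gI κ (hatc θ)) y) x k) :=
          hS.tsum_le_tsum hle hsum
      _ = 2 * ∑' k : ℕ, vk R (fun y => hatc α (-y)) x k +
        2 * ∑' k : ℕ, vk R (fun y => BB R (gU κ U (hatc θ)) y - BB R (gI κ (hatc θ)) y) x k := by
          rw [(s1.mul_left 2).tsum_add (s2.mul_left 2), tsum_mul_left, tsum_mul_left]
      _ ≤ V1 := by
          rw [hV1]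
          linarith
  have H2 : ∀ x : ℝ, 0 ≤ x → ‖BB R g x‖ ^ 2 ≤ V2 := by
    intro x _
    obtain ⟨t1, _, _⟩ := hbU x
    have h3 : BB R g x = hatc α (-x) +
        (BB R (gU κ U (hatc θ)) x - BB R (gI κ (hatc θ)) x) := by
      rw [hBI, hg]; ring
    have h4 := rc_pb_sq_add (hatc α (-x)) (BB R (gU κ U (hatc θ)) x - BB R (gI κ (hatc θ)) x)
    rw [← h3] at h4
    have h5 : ‖hatc α (-x)‖ ^ 2 ≤ I1 ^ 2 :=
      pow_le_pow_left₀ (norm_nonneg _) (rc_pb_norm_hatc α (-x)) 2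
    rw [hV2]
    linarith
  have H3 : ‖BB R g 0 - z‖ ^ 2 ≤ ε1 := by
    have h3 := (hbU 0).1
    rw [hBI, hz0] at h3
    exact h3
  obtain ⟨K1, hK1⟩ := hpa R P h8 hR0 (by omega) (fun d hd1 hd2 => rc_pb_gt hd1 hd2) j c g z
    V1 V2 ε1 hc hs H1 H2 H3 (ε / 8) (by positivity)
  refine ⟨max K1 2, fun K hK => ?_⟩
  have hK1' := hK1 K ((le_max_left _ _).trans hK)
  have hK2 : 2 ≤ K := (le_max_right _ _).trans hK
  have htl' := htl R j K (hatc θ) (Set.Ioc (-U) U)ᶜ hR0 hK2 hhi measurableSet_Ioc.compl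
  have hKn : (0 : ℝ) ≤ K := Nat.cast_nonneg _
  -- pointwise splitting
  have hsplit : ∀ m ∈ gblk κ j K, ∫ u : ℝ, (DD (f1 κ) R j m u : ℂ) * hatc θ u =
      (∑' n : ℕ, (rv j m n : ℂ) * wt R g n) +
        ∫ u in (Set.Ioc (-U) U)ᶜ, (DD (f1 κ) R j m u : ℂ) * hatc θ u := by
    intro m hm
    obtain ⟨hodd, hm2, χ, hχ⟩ := rc_pb_good hm
    have : NeZero (cc j * m) := ⟨by
      have : 0 < cc j := by fin_cases j <;> simp [cc]
      exact (Nat.mul_pos this (by omega)).ne'⟩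
    have hi := (rep1 hm2 χ hχ).2.1
    have hRi := (tr hκ hR0 hm2 j hi 0).1
    have hint : Integrable fun u => (DD (f1 κ) R j m u : ℂ) * hatc θ u := by
      have h1 : Integrable fun u => hatc θ u * (DD (f1 κ) R j m u : ℂ) := by
        refine hRi.ofReal.bdd_mul (c := Ch) hhc.aestronglyMeasurable
          (Filter.Eventually.of_forall fun u => ?_)
        refine (hhb u).trans ?_
        have hCh : 0 ≤ Ch := by
          have := (norm_nonneg _).trans (hhb 0)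
          simpa using this
        exact div_le_self hCh (by nlinarith [sq_nonneg u])
      simpa only [mul_comm] using h1
    have h1 := integral_add_compl (measurableSet_Ioc (a := -U) (b := U)) hint
    rw [← h1]
    congr 1
    rw [← intervalIntegral.integral_of_le (by linarith)]
    exact (ex hκ hR0 hm2 j hUp (hatc θ) hhc).2
  have hle : ∀ m ∈ (gblk κ j K).filter (fun m => m % R = c % R),
      ‖(∫ u : ℝ, (DD (f1 κ) R j m u : ℂ) * hatc θ u) - z‖ ^ 2 ≤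
        2 * ‖(∑' n : ℕ, (rv j m n : ℂ) * wt R g n) - z‖ ^ 2 +
        2 * ‖∫ u in (Set.Ioc (-U) U)ᶜ, (DD (f1 κ) R j m u : ℂ) * hatc θ u‖ ^ 2 := by
    intro m hm
    rw [hsplit m (Finset.mem_filter.mp hm).1]
    have e : (∑' n : ℕ, (rv j m n : ℂ) * wt R g n) +
        (∫ u in (Set.Ioc (-U) U)ᶜ, (DD (f1 κ) R j m u : ℂ) * hatc θ u) - z =
        ((∑' n : ℕ, (rv j m n : ℂ) * wt R g n) - z) +
        ∫ u in (Set.Ioc (-U) U)ᶜ, (DD (f1 κ) R j m u : ℂ) * hatc θ u := by ring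
    rw [e]
    exact rc_pb_sq_add _ _
  have hsubcls : (gblk κ j K).filter (fun m => m % R = c % R) ⊆ cls R c K := by
    intro m hm
    obtain ⟨h1, h2⟩ := Finset.mem_filter.mp hm
    exact Finset.mem_filter.mpr ⟨rc_pb_ico h1, h2⟩
  have hA : ∑ m ∈ (gblk κ j K).filter (fun m => m % R = c % R),
      ‖(∑' n : ℕ, (rv j m n : ℂ) * wt R g n) - z‖ ^ 2 ≤
        Cp * K / R * (V1 + V2 / P + ε1) + ε / 8 * K :=
    (Finset.sum_le_sum_of_subset_of_nonneg hsubcls fun _ _ _ => sq_nonneg _).trans hK1'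
  have hB : ∑ m ∈ (gblk κ j K).filter (fun m => m % R = c % R),
      ‖∫ u in (Set.Ioc (-U) U)ᶜ, (DD (f1 κ) R j m u : ℂ) * hatc θ u‖ ^ 2 ≤ ε / 8 * K := by
    refine ((Finset.sum_le_sum_of_subset_of_nonneg (Finset.filter_subset _ _)
      fun _ _ _ => sq_nonneg _).trans htl').trans ?_
    have h1 : (∫ u in (Set.Ioc (-U) U)ᶜ, ‖hatc θ u‖) ^ 2 ≤ δ ^ 2 :=
      pow_le_pow_left₀ (integral_nonneg fun _ => norm_nonneg _) htail 2
    calc Ct * τ ^ 2 * K * (∫ u in (Set.Ioc (-U) U)ᶜ, ‖hatc θ u‖) ^ 2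
        ≤ Ct * τ ^ 2 * K * δ ^ 2 := mul_le_mul_of_nonneg_left h1 (by positivity)
      _ ≤ Ct * (τ ^ 2 + 1) * K * δ ^ 2 := by
          refine mul_le_mul_of_nonneg_right ?_ (sq_nonneg _)
          refine mul_le_mul_of_nonneg_right ?_ hKn
          exact mul_le_mul_of_nonneg_left (by linarith) hCt.le
      _ = ε / 8 * K := by
          rw [hδ2]
          field_simp
  have hgoal1 : ∑ m ∈ (gblk κ j K).filter (fun m => m % R = c % R),
      ‖(∫ u : ℝ, (DD (f1 κ) R j m u : ℂ) * hatc θ u) - z‖ ^ 2 ≤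
        2 * (Cp * K / R * (V1 + V2 / P + ε1) + ε / 8 * K) + 2 * (ε / 8 * K) := by
    refine (Finset.sum_le_sum hle).trans ?_
    rw [Finset.sum_add_distrib, ← Finset.mul_sum, ← Finset.mul_sum]
    linarith
  refine hgoal1.trans ?_
  exact rc_pb_arith hCp hCr hKn hR1 hP1 hlogP hI2' hε hV1 hV2 hε1

end Pool.Agent.RC

namespace Pool.Agent.RC

alias pb := pb_pr

end Pool.Agent.RC
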