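import Pool.Agent.Lib_helper39.RC.Defs
import Pool.Agent.Lib_helper39.RCA.GLB
/-!
# Block TF: the test functions
-/

namespace Pool.Agent.RC

open Complex MeasureTheory Filter Topology
open scoped ContDiff

theorem rc_tf_zz_ne {j : Fin 4} {c p : ℕ} (hp : 2 ≤ p) (t : ℝ) :
    1 - (rv j c p : ℂ) * (p : ℂ) ^ (-(1 / 2 + t * I) : ℂ) ≠ 0 := by
  intro h
  have h1 : (rv j c p : ℂ) * (p : ℂ) ^ (-(1 / 2 + t * I) : ℂ) = 1 := (sub_eq_zero.1 h).symm
  have hp0 : (0 : ℝ) < p := by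
    have : 0 < p := by omega
    exact_mod_cast this
  have h2 : ‖(p : ℂ) ^ (-(1 / 2 + t * I) : ℂ)‖ = (p : ℝ) ^ (-(1 / 2) : ℝ) := by
    have : (p : ℂ) = ((p : ℝ) : ℂ) := by push_cast; rfl
    rw [this, Complex.norm_cpow_eq_rpow_re_of_pos hp0]
    congr 1
    simp
  have h3 : (p : ℝ) ^ (-(1 / 2) : ℝ) < 1 := by
    apply Real.rpow_lt_one_of_one_lt_of_neg
    · have : 1 < p := by omega
      exact_mod_cast this
    · norm_num
  have hpsi : ∀ n : ℕ, |psi j n| ≤ 1 := by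
    intro n
    have h4 : ∀ a : ZMod 4, |ZMod.χ₄ a| ≤ 1 := by decide
    have h8 : ∀ a : ZMod 8, |ZMod.χ₈ a| ≤ 1 := by decide
    have h8' : ∀ a : ZMod 8, |ZMod.χ₈' a| ≤ 1 := by decide
    unfold psi
    fin_cases j
    · simp
    · exact h4 _
    · exact h8 _
    · exact h8' _
  have hJ : ∀ n m : ℕ, |jacobiSym n m| ≤ 1 := by
    intro n m
    rcases jacobiSym.trichotomy (n : ℤ) m with h | h | h <;> rw [h] <;> norm_num
  have h5 : |rv j c p| ≤ 1 := by
    unfold rv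
    rw [abs_mul]
    calc |psi j p| * |jacobiSym p c| ≤ 1 * 1 :=
          mul_le_mul (hpsi p) (hJ p c) (abs_nonneg _) zero_le_one
      _ = 1 := one_mul 1
  have h6 : ‖(rv j c p : ℂ)‖ ≤ 1 := by
    rw [Complex.norm_intCast]
    exact_mod_cast h5
  have h7 := congrArg norm h1
  rw [norm_mul, h2, norm_one] at h7
  have h8 : (0 : ℝ) ≤ (p : ℝ) ^ (-(1 / 2) : ℝ) := by positivity
  nlinarith

theorem rc_tf_EP_ne (j : Fin 4) (P c : ℕ) (t : ℝ) : EP j P c t ≠ 0 := by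
  unfold EP
  refine Finset.prod_ne_zero_iff.2 fun p hp => inv_ne_zero (rc_tf_zz_ne ?_ t)
  unfold pr at hp
  exact (Finset.mem_filter.1 hp).2.two_le

theorem rc_tf_cpow_smooth {p : ℕ} (hp : 2 ≤ p) (f : ℝ → ℂ) (hf : ContDiff ℝ 2 f) :
    ContDiff ℝ 2 fun t => (p : ℂ) ^ f t := by
  have hp0 : (p : ℂ) ≠ 0 := by
    have : p ≠ 0 := by omega
    exact_mod_cast this
  have : (fun t => (p : ℂ) ^ f t) = fun t => cexp (Complex.log p * f t) := by
    funext t
    rw [Complex.cpow_def_of_ne_zero hp0]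
  rw [this]
  exact (contDiff_const.mul hf).cexp

theorem rc_tf_EP_smooth (j : Fin 4) (P c : ℕ) : ContDiff ℝ 2 (EP j P c) := by
  unfold EP
  refine contDiff_prod fun p hp => ?_
  have hp2 : 2 ≤ p := by
    unfold pr at hp
    exact (Finset.mem_filter.1 hp).2.two_le
  refine ContDiff.inv ?_ fun t => rc_tf_zz_ne hp2 t
  refine contDiff_const.sub (contDiff_const.mul (rc_tf_cpow_smooth hp2 _ ?_))
  exact (contDiff_const.add (Complex.ofRealCLM.contDiff.mul contDiff_const)).neg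

theorem rc_tf_gm_smooth (κ : ℕ) : ContDiff ℝ 2 fun t => (gm κ t)⁻¹ := by
  have h1 : ContDiff ℂ 2 (fun s : ℂ => (Gammaℝ s)⁻¹) := differentiable_Gammaℝ_inv.contDiff
  have h2 : ContDiff ℝ 2 (fun s : ℂ => (Gammaℝ s)⁻¹) := h1.restrict_scalars ℝ
  have h3 : ContDiff ℝ 2 (fun t : ℝ => (1 / 2 + (κ : ℂ) + t * I)) :=
    contDiff_const.add (Complex.ofRealCLM.contDiff.mul contDiff_const)
  exact h2.comp h3

theorem rc_tf_zr_smooth (P : ℕ) {t : ℝ} (ht : t ≠ 0) : ContDiffAt ℝ 2 (zr P) t := by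
  unfold zr
  have harg : ContDiff ℝ 2 (fun t : ℝ => (1 + 2 * (t : ℂ) * I)) :=
    contDiff_const.add ((contDiff_const.mul Complex.ofRealCLM.contDiff).mul contDiff_const)
  refine ContDiffAt.mul ?_ ?_
  · have hne : (1 + 2 * (t : ℂ) * I) ≠ 1 := by
      intro h
      have h2 : 2 * (t : ℂ) * I = 0 := by linear_combination h
      have h3 := congrArg Complex.im h2
      simp at h3
      exact ht h3
    have hd : DifferentiableOn ℂ riemannZeta {1}ᶜ := fun s hs =>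
      (differentiableAt_riemannZeta hs).differentiableWithinAt
    have ha : AnalyticAt ℂ riemannZeta (1 + 2 * (t : ℂ) * I) :=
      hd.analyticAt (isOpen_compl_singleton.mem_nhds hne)
    have hc : ContDiffAt ℝ 2 riemannZeta (1 + 2 * (t : ℂ) * I) :=
      (ha.contDiffAt (n := 2)).restrict_scalars ℝ
    exact hc.comp t harg.contDiffAt
  · refine ContDiff.contDiffAt ?_
    refine contDiff_prod fun p hp => ?_
    have hp2 : 2 ≤ p := by
      unfold pr at hp
      exact (Finset.mem_filter.1 hp).2.two_le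
    exact contDiff_const.sub (rc_tf_cpow_smooth hp2 _ harg.neg)

theorem tf_pr {κ : ℕ} (hκ : κ ≤ 1) {a b : ℝ} (hab : a < b) (h0 : 0 < a ∨ b < 0) (w : ℝ → ℝ)
    (hw : ContDiff ℝ ∞ w) (hw0 : ∀ t, 0 ≤ w t) (hs : ∀ t, t ∉ Set.Icc a b → w t = 0) :
    ∃ c2 : ℝ, 0 < c2 ∧ ∀ (P : ℕ) (j : Fin 4) (c : ℕ), 2 ≤ P → ∃ θ : ℝ → ℂ,
      ContDiff ℝ 2 θ ∧ (∀ t, t ∉ Set.Icc a b → θ t = 0) ∧
      (∀ t : ℝ, -I * t * gm κ t * θ t * zr P t = ((c2 * ‖EP j P c t‖ * w t : ℝ) : ℂ)) ∧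
      ∀ t : ℝ, ‖(t : ℂ) * θ t‖ ≤ w t * ‖EP j P c t‖ := by
  obtain ⟨c₀, C₀, hc₀, hz⟩ := glb hab h0
  obtain ⟨M, hM⟩ := isCompact_Icc.exists_bound_of_continuousOn (s := Set.Icc a b)
    (rc_tf_gm_smooth κ).continuous.continuousOn
  set M' : ℝ := max M 1 with hM'
  have hM'0 : 0 < M' := lt_of_lt_of_le one_pos (le_max_right _ _)
  have ht0 : ∀ t ∈ Set.Icc a b, t ≠ 0 := by
    rintro t ⟨h1, h2⟩ rfl
    rcases h0 with h | h <;> linarith
  have hgm : ∀ t : ℝ, gm κ t ≠ 0 := by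
    intro t
    unfold gm
    apply Gammaℝ_ne_zero_of_re_pos
    simp
    positivity
  refine ⟨c₀ / M', by positivity, fun P j c hP => ?_⟩
  set c2 : ℝ := c₀ / M' with hc2
  have hzr : ∀ t ∈ Set.Icc a b, zr P t ≠ 0 := by
    intro t ht h
    have := (hz P hP t ht).1
    rw [h, norm_zero] at this
    linarith
  set θ : ℝ → ℂ := fun t => ((c2 * ‖EP j P c t‖ * w t : ℝ) : ℂ) *
    ((-I * t)⁻¹ * (gm κ t)⁻¹ * (zr P t)⁻¹) with hθ
  have hθ0 : ∀ t, t ∉ Set.Icc a b → θ t = 0 := by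
    intro t ht
    simp only [hθ, hs t ht, mul_zero, Complex.ofReal_zero, zero_mul]
  refine ⟨θ, ?_, hθ0, ?_, ?_⟩
  · rw [contDiff_iff_contDiffAt]
    intro t
    by_cases ht : t ∈ Set.Icc a b
    · refine ContDiffAt.mul ?_ (ContDiffAt.mul (ContDiffAt.mul ?_ ?_) ?_)
      · have h1 : ContDiffAt ℝ 2 (fun t => c2 * ‖EP j P c t‖ * w t) t := by
          refine ContDiffAt.mul (ContDiffAt.mul contDiffAt_const ?_) ?_
          · exact (rc_tf_EP_smooth j P c).contDiffAt.norm ℝ (rc_tf_EP_ne j P c t)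
          · exact (hw.of_le (WithTop.coe_le_coe.2 le_top)).contDiffAt
        exact (Complex.ofRealCLM.contDiff (n := 2)).contDiffAt.comp t h1
      · refine ContDiffAt.inv ?_ ?_
        · exact (contDiff_const.mul Complex.ofRealCLM.contDiff).contDiffAt
        · refine mul_ne_zero (neg_ne_zero.2 I_ne_zero) ?_
          exact_mod_cast ht0 t ht
      · exact (rc_tf_gm_smooth κ).contDiffAt
      · exact (rc_tf_zr_smooth P (ht0 t ht)).inv (hzr t ht)
    · have hev : θ =ᶠ[𝓝 t] fun _ => 0 := by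
        filter_upwards [isClosed_Icc.isOpen_compl.mem_nhds ht] with x hx
        exact hθ0 x hx
      exact (contDiffAt_const (c := (0 : ℂ))).congr_of_eventuallyEq hev
  · intro t
    by_cases ht : t ∈ Set.Icc a b
    · have h1 : (t : ℂ) ≠ 0 := by exact_mod_cast ht0 t ht
      have h2 := hgm t
      have h3 := hzr t ht
      have h4 : (I : ℂ) ≠ 0 := I_ne_zero
      simp only [hθ]
      field_simp
    · rw [hθ0 t ht, hs t ht]
      simp
  · intro t
    by_cases ht : t ∈ Set.Icc a b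
    · have h1 : (t : ℂ) ≠ 0 := by exact_mod_cast ht0 t ht
      have hM1 : ‖(gm κ t)⁻¹‖ ≤ M' := (hM t ht).trans (le_max_left _ _)
      have hz1 : ‖(zr P t)⁻¹‖ ≤ c₀⁻¹ := by
        rw [norm_inv]
        exact inv_anti₀ hc₀ (hz P hP t ht).1
      have e : (t : ℂ) * θ t = ((c2 * ‖EP j P c t‖ * w t : ℝ) : ℂ) *
          ((-I)⁻¹ * (gm κ t)⁻¹ * (zr P t)⁻¹) := by
        simp only [hθ]
        rw [mul_inv]
        field_simp
      have hw1 := hw0 t
      have hc2p : 0 < c2 := by positivity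
      rw [e, norm_mul, norm_mul, norm_mul, norm_inv, norm_neg, norm_I, inv_one, one_mul,
        Complex.norm_real, Real.norm_of_nonneg (by positivity)]
      calc c2 * ‖EP j P c t‖ * w t * (‖(gm κ t)⁻¹‖ * ‖(zr P t)⁻¹‖)
          ≤ c2 * ‖EP j P c t‖ * w t * (M' * c₀⁻¹) := by
            refine mul_le_mul_of_nonneg_left ?_ (by positivity)
            exact mul_le_mul hM1 hz1 (norm_nonneg _) hM'0.le
        _ = w t * ‖EP j P c t‖ := by
            rw [hc2]
            field_simp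
    · rw [hθ0 t ht, mul_zero, norm_zero]
      exact mul_nonneg (hw0 t) (norm_nonneg _)

end Pool.Agent.RC

namespace Pool.Agent.RC

alias tf := tf_pr

end Pool.Agent.RC
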