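import Pool.Agent.Lib_helper39.RCA.TWOA
import Pool.Agent.Lib_helper39.RCA.ABD
import Pool.Agent.Lib_helper39.RCA.CHAOS
import Pool.Agent.Lib_helper39.RCA.PB
import Pool.Agent.Lib_helper39.RCA.TF
/-!
# Block TWO
-/

namespace Pool.Agent.RC

open Complex MeasureTheory Filter Topology
open scoped ContDiff

open Classical in
/-- TWO. -/
theorem two_pr {κ : ℕ} (hκ : κ ≤ 1) {a b : ℝ} (hab : a < b) (h0 : 0 < a ∨ b < 0) (w : ℝ → ℝ)
    (hw : ContDiff ℝ ∞ w) (hw0 : ∀ t, 0 ≤ w t) (hs : ∀ t, t ∉ Set.Icc a b → w t = 0)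
    (hpos : 0 < ∫ t : ℝ, w t) (j : Fin 4) (A ε : ℝ) (hε : 0 < ε) : ∃ K0 : ℕ, ∀ K ≥ K0,
      (((gblk κ j K).filter fun m => ∫ t : ℝ, ‖Lr κ j m t‖ * w t ≤ A).card : ℝ) ≤ ε * K := by
  have hwc : Continuous w := hw.continuous
  have hcw : HasCompactSupport w := HasCompactSupport.of_support_subset_isCompact isCompact_Icc
    (fun t ht => by
      by_contra hn
      exact ht (hs t hn))
  obtain ⟨c2, hc2, htf⟩ := tf hκ hab h0 w hw hw0 hs
  obtain ⟨C, hC, hpb⟩ := pb hκ hab h0
  obtain ⟨Ca, hCa, habd⟩ := abd hab h0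
  set W2 : ℝ := ∫ t : ℝ, w t ^ 2 with hW2d
  have hW2 : 0 ≤ W2 := integral_nonneg fun t => sq_nonneg _
  have hba : 0 < b - a := by linarith
  set C3 : ℝ := C * (1 + (b - a)) * (c2 ^ 2 * Ca * W2) + 1 with hC3d
  have hC3 : 0 < C3 := by positivity
  set L : ℝ := √(4 * C3 / ε) with hLd
  have hL2 : L ^ 2 = 4 * C3 / ε := Real.sq_sqrt (by positivity)
  have hL0 : 0 < L := Real.sqrt_pos.mpr (by positivity)
  obtain ⟨P1, hP1⟩ := chaos hab h0 w hwc hw0 hs hpos ((A + L) / c2) (ε / 8) (by positivity)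
  set P : ℕ := max P1 2 with hPd
  have hP2 : 2 ≤ P := le_max_right _ _
  have hPP : P1 ≤ P := le_max_left _ _
  set R : ℕ := RR P with hRd
  have hR0 : 0 < R := rc_two_RR_pos P
  have hR0' : (0 : ℝ) < R := by exact_mod_cast hR0
  have hReven : 2 ∣ R := by
    rw [hRd, RR]
    exact Dvd.dvd.mul_right (by norm_num) _
  have hlogP : 0 < Real.log P := Real.log_pos (by exact_mod_cast (by omega : 1 < P))
  have hchaos := hP1 P hPP j
  choose θ hθ using fun c => htf P j c hP2
  have H : ∀ c : ℕ, ∃ K0 : ℕ, Odd c → ∀ K ≥ K0,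
      ∑ m ∈ (gblk κ j K).filter (fun m => m % RR P = c % RR P),
        ‖(∫ u : ℝ, (DD (f1 κ) (RR P) j m u : ℂ) * hatc (θ c) u) -
          ∫ t : ℝ, -I * t * gm κ t * θ c t * zr P t‖ ^ 2 ≤
        C * K / RR P * (1 / Real.log P *
          (∫ t : ℝ, ‖-I * t * gm κ t * θ c t * zr P t‖ ^ 2) +
          1 / P * (∫ t : ℝ, ‖-I * t * gm κ t * θ c t * zr P t‖) ^ 2) + 1 / R * K := by
    intro c
    by_cases hc : Odd c
    · obtain ⟨K0, hK0⟩ := hpb P (θ c) j c hP2 (hθ c).1 (hθ c).2.1 hc (1 / R) (by positivity)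
      exact ⟨K0, fun _ => hK0⟩
    · exact ⟨0, fun h => absurd h hc⟩
  choose K0 hK0 using H
  -- the real test functions
  set α : ℕ → ℝ → ℝ := fun c t => c2 * ‖EP j P c t‖ * w t with hαd
  have hα0 : ∀ c t, 0 ≤ α c t := fun c t =>
    mul_nonneg (mul_nonneg hc2.le (norm_nonneg _)) (hw0 t)
  have hαc : ∀ c, Continuous (α c) := fun c =>
    ((continuous_const.mul (rc_two_EP_cont j P c).norm).mul hwc)
  have hαs : ∀ c t, t ∉ Set.Icc a b → α c t = 0 := fun c t ht => by
    simp only [hαd]; rw [hs t ht, mul_zero]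
  have hαeq : ∀ c t, -I * t * gm κ t * θ c t * zr P t = ((α c t : ℝ) : ℂ) :=
    fun c t => (hθ c).2.2.1 t
  have hI2 : ∀ c, ∫ t : ℝ, ‖-I * t * gm κ t * θ c t * zr P t‖ ^ 2 = ∫ t : ℝ, α c t ^ 2 := by
    intro c
    congr 1
    funext t
    rw [hαeq, Complex.norm_real, Real.norm_of_nonneg (hα0 c t)]
  have hI1 : ∀ c, ∫ t : ℝ, ‖-I * t * gm κ t * θ c t * zr P t‖ = ∫ t : ℝ, α c t := by
    intro c
    congr 1
    funext t
    rw [hαeq, Complex.norm_real, Real.norm_of_nonneg (hα0 c t)]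
  have hZ : ∀ c, ∫ t : ℝ, -I * t * gm κ t * θ c t * zr P t = ((∫ t : ℝ, α c t : ℝ) : ℂ) := by
    intro c
    rw [← integral_complex_ofReal]
    congr 1
    funext t
    exact hαeq c t
  -- sum of the `L²` norms
  have hsumI2 : ∑ c ∈ odds R, ∫ t : ℝ, α c t ^ 2 ≤ c2 ^ 2 * (Ca * R * Real.log P) * W2 := by
    have hint : ∀ c ∈ odds R, Integrable fun t => α c t ^ 2 := by
      intro c _
      refine ((hαc c).pow 2).integrable_of_hasCompactSupport ?_
      refine HasCompactSupport.of_support_subset_isCompact (isCompact_Icc (a := a) (b := b)) ?_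
      intro t ht
      by_contra hn
      apply ht
      show α c t ^ 2 = 0
      rw [hαs c t hn]; ring
    rw [← integral_finsetSum _ hint]
    have hw2i : Integrable fun t => w t ^ 2 := by
      refine (hwc.pow 2).integrable_of_hasCompactSupport ?_
      refine HasCompactSupport.of_support_subset_isCompact (isCompact_Icc (a := a) (b := b)) ?_
      intro t ht
      by_contra hn
      apply ht
      show w t ^ 2 = 0
      rw [hs t hn]; ring
    rw [hW2d, ← integral_const_mul]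
    refine integral_mono (integrable_finsetSum _ hint) (hw2i.const_mul _) fun t => ?_
    by_cases ht : t ∈ Set.Icc a b
    · have h1 := habd P hP2 j t ht
      have h2 : ∑ c ∈ odds R, α c t ^ 2 = c2 ^ 2 * (∑ c ∈ odds (RR P), ‖EP j P c t‖ ^ 2) *
          w t ^ 2 := by
        rw [Finset.mul_sum, Finset.sum_mul]
        refine Finset.sum_congr rfl fun c _ => ?_
        simp only [hαd]; ring
      show ∑ c ∈ odds R, α c t ^ 2 ≤ c2 ^ 2 * (Ca * R * Real.log P) * w t ^ 2
      rw [h2]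
      exact mul_le_mul_of_nonneg_right (mul_le_mul_of_nonneg_left h1 (sq_nonneg _)) (sq_nonneg _)
    · show ∑ c ∈ odds R, α c t ^ 2 ≤ c2 ^ 2 * (Ca * R * Real.log P) * w t ^ 2
      rw [hs t ht]
      have : ∑ c ∈ odds R, α c t ^ 2 = 0 := Finset.sum_eq_zero fun c _ => by
        rw [hαs c t ht]; ring
      rw [this]
      simp
  have hcs : ∀ c, (∫ t : ℝ, α c t) ^ 2 ≤ (b - a) * ∫ t : ℝ, α c t ^ 2 := fun c =>
    rc_two_cs hab (α c) (hαc c) (hαs c)
  have hPlog : 1 / (P : ℝ) ≤ 1 / Real.log P := by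
    refine one_div_le_one_div_of_le hlogP ?_
    have := Real.log_le_sub_one_of_pos (show (0 : ℝ) < P by positivity)
    linarith
  -- the total second moment
  set T : ℕ → ℕ → ℂ := fun c m => ∫ u : ℝ, (DD (f1 κ) (RR P) j m u : ℂ) * hatc (θ c) u with hTd
  set Z : ℕ → ℂ := fun c => ((∫ t : ℝ, α c t : ℝ) : ℂ) with hZd
  refine ⟨(∑ c ∈ odds R, K0 c) + R, fun K hK => ?_⟩
  have hKR : R ≤ K := by omega
  have hKc : ∀ c ∈ odds R, K0 c ≤ K := fun c hc => by
    have := Finset.single_le_sum (f := K0) (fun _ _ => Nat.zero_le _) hc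
    omega
  have hK0' : (0 : ℝ) ≤ K := Nat.cast_nonneg _
  have hKRr : (R : ℝ) ≤ K := by exact_mod_cast hKR
  have hgodd : ∀ m ∈ gblk κ j K, Good κ j m := fun m hm => (Finset.mem_filter.mp hm).2
  have hmodd : ∀ m ∈ gblk κ j K, m % R ∈ odds R := by
    intro m hm
    refine Finset.mem_filter.mpr ⟨Finset.mem_range.mpr (Nat.mod_lt _ hR0), ?_⟩
    have h1 := (hgodd m hm).1
    rw [Nat.odd_iff] at h1 ⊢
    rw [Nat.mod_mod_of_dvd _ hReven, h1]
  have htot : ∑ m ∈ gblk κ j K, ‖T (m % R) m - Z (m % R)‖ ^ 2 ≤ C3 * K := by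
    rw [← Finset.sum_fiberwise_of_maps_to hmodd]
    have h1 : ∀ c ∈ odds R, ∑ m ∈ (gblk κ j K).filter (fun m => m % R = c),
        ‖T (m % R) m - Z (m % R)‖ ^ 2 ≤
        C * K / R * ((1 + (b - a)) * (1 / Real.log P) * ∫ t : ℝ, α c t ^ 2) + 1 / R * K := by
      intro c hc
      obtain ⟨hc1, hc2'⟩ := Finset.mem_filter.mp hc
      have hcR : c % R = c := Nat.mod_eq_of_lt (Finset.mem_range.mp hc1)
      have h2 := hK0 c hc2' K (hKc c hc)
      have h3 : ∑ m ∈ (gblk κ j K).filter (fun m => m % R = c),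
          ‖T (m % R) m - Z (m % R)‖ ^ 2 =
          ∑ m ∈ (gblk κ j K).filter (fun m => m % RR P = c % RR P),
            ‖(∫ u : ℝ, (DD (f1 κ) (RR P) j m u : ℂ) * hatc (θ c) u) -
              ∫ t : ℝ, -I * t * gm κ t * θ c t * zr P t‖ ^ 2 := by
        have e1 : (gblk κ j K).filter (fun m => m % RR P = c % RR P) =
            (gblk κ j K).filter (fun m => m % R = c) := by
          rw [← hRd, hcR]
        rw [e1]
        refine Finset.sum_congr rfl fun m hm => ?_
        rw [(Finset.mem_filter.mp hm).2, hZ c]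
      rw [h3]
      refine h2.trans ?_
      rw [hI2 c, hI1 c, ← hRd]
      have h4 : 1 / Real.log P * (∫ t : ℝ, α c t ^ 2) + 1 / P * (∫ t : ℝ, α c t) ^ 2 ≤
          (1 + (b - a)) * (1 / Real.log P) * ∫ t : ℝ, α c t ^ 2 := by
        have h5 : 0 ≤ ∫ t : ℝ, α c t ^ 2 := integral_nonneg fun t => sq_nonneg _
        have h6 : 1 / (P : ℝ) * (∫ t : ℝ, α c t) ^ 2 ≤
            1 / Real.log P * ((b - a) * ∫ t : ℝ, α c t ^ 2) :=
          mul_le_mul hPlog (hcs c) (sq_nonneg _) (by positivity)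
        calc 1 / Real.log P * (∫ t : ℝ, α c t ^ 2) + 1 / P * (∫ t : ℝ, α c t) ^ 2
            ≤ 1 / Real.log P * (∫ t : ℝ, α c t ^ 2) +
              1 / Real.log P * ((b - a) * ∫ t : ℝ, α c t ^ 2) := by linarith
          _ = (1 + (b - a)) * (1 / Real.log P) * ∫ t : ℝ, α c t ^ 2 := by ring
      have h7 : (0 : ℝ) ≤ C * K / R := by positivity
      have h8 := mul_le_mul_of_nonneg_left h4 h7
      linarith
    refine (Finset.sum_le_sum h1).trans ?_
    rw [Finset.sum_add_distrib, Finset.sum_const, nsmul_eq_mul]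
    have h9 : ∑ c ∈ odds R, C * K / R * ((1 + (b - a)) * (1 / Real.log P) *
        ∫ t : ℝ, α c t ^ 2) = C * K / R * ((1 + (b - a)) * (1 / Real.log P)) *
          ∑ c ∈ odds R, ∫ t : ℝ, α c t ^ 2 := by
      rw [Finset.mul_sum]
      refine Finset.sum_congr rfl fun c _ => ?_
      ring
    rw [h9]
    have h10 : C * K / R * ((1 + (b - a)) * (1 / Real.log P)) *
          ∑ c ∈ odds R, ∫ t : ℝ, α c t ^ 2 ≤
        C * K / R * ((1 + (b - a)) * (1 / Real.log P)) *
          (c2 ^ 2 * (Ca * R * Real.log P) * W2) :=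
      mul_le_mul_of_nonneg_left hsumI2 (by positivity)
    have h11 : C * K / R * ((1 + (b - a)) * (1 / Real.log P)) *
          (c2 ^ 2 * (Ca * R * Real.log P) * W2) =
        C * (1 + (b - a)) * (c2 ^ 2 * Ca * W2) * K := by
      field_simp
    have h12 : ((odds R).card : ℝ) * (1 / R * K) ≤ K := by
      have h13 : ((odds R).card : ℝ) ≤ R := by
        have := Finset.card_filter_le (Finset.range R) Odd
        rw [Finset.card_range] at this
        exact_mod_cast this
      calc ((odds R).card : ℝ) * (1 / R * K) ≤ R * (1 / R * K) :=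
            mul_le_mul_of_nonneg_right h13 (by positivity)
        _ = K := by field_simp
    rw [h11] at h10
    calc _ ≤ C * (1 + (b - a)) * (c2 ^ 2 * Ca * W2) * K + K := add_le_add h10 h12
      _ = C3 * K := by rw [hC3d]; ring
  -- bad classes
  set Cb : Finset ℕ := (odds R).filter fun c => ∫ t : ℝ, w t * ‖EP j P c t‖ ≤ (A + L) / c2
    with hCb
  set Bd1 : Finset ℕ := (gblk κ j K).filter fun m => m % R ∈ Cb with hBd1
  set Bd2 : Finset ℕ := (gblk κ j K).filter fun m =>
    m % R ∉ Cb ∧ ∫ t : ℝ, ‖Lr κ j m t‖ * w t ≤ A with hBd2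
  have hc1 : (Bd1.card : ℝ) ≤ ε / 4 * K := by
    have hsub : Bd1 ⊆ Cb.biUnion fun c => cls R c K := by
      intro m hm
      obtain ⟨hm1, hm2⟩ := Finset.mem_filter.mp hm
      refine Finset.mem_biUnion.mpr ⟨m % R, hm2, ?_⟩
      refine Finset.mem_filter.mpr ⟨(Finset.mem_filter.mp hm1).1, ?_⟩
      rw [Nat.mod_mod]
    have h1 : (Bd1.card : ℝ) ≤ ∑ c ∈ Cb, ((cls R c K).card : ℝ) := by
      have := (Finset.card_le_card hsub).trans Finset.card_biUnion_le
      exact_mod_cast this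
    have h2 : ∑ c ∈ Cb, ((cls R c K).card : ℝ) ≤ (Cb.card : ℝ) * (2 * K / R) := by
      rw [← nsmul_eq_mul, ← Finset.sum_const]
      refine Finset.sum_le_sum fun c _ => (rc_two_cls_card R c K).trans ?_
      have : (1 : ℝ) ≤ K / R := by rw [le_div_iff₀ hR0']; linarith
      calc (K : ℝ) / R + 1 ≤ K / R + K / R := by linarith
        _ = 2 * K / R := by ring
    have h3 : (Cb.card : ℝ) ≤ ε / 8 * R := by
      have := hchaos
      rw [hCb, hRd]
      convert this using 2
    calc (Bd1.card : ℝ) ≤ (Cb.card : ℝ) * (2 * K / R) := h1.trans h2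
      _ ≤ ε / 8 * R * (2 * K / R) := mul_le_mul_of_nonneg_right h3 (by positivity)
      _ = ε / 4 * K := by field_simp; ring
  have hc2' : (Bd2.card : ℝ) ≤ ε / 4 * K := by
    have h1 : (Bd2.card : ℝ) * L ^ 2 ≤ C3 * K := by
      calc (Bd2.card : ℝ) * L ^ 2 = ∑ m ∈ Bd2, L ^ 2 := by
            rw [Finset.sum_const, nsmul_eq_mul]
        _ ≤ ∑ m ∈ Bd2, ‖T (m % R) m - Z (m % R)‖ ^ 2 := by
            refine Finset.sum_le_sum fun m hm => ?_
            obtain ⟨hm1, hm2, hm3⟩ := Finset.mem_filter.mp hm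
            have hmo := hmodd m hm1
            have hcodd : Odd (m % R) := (Finset.mem_filter.mp hmo).2
            have hT : ‖T (m % R) m‖ ≤ A := by
              refine le_trans ?_ hm3
              refine rc_two_test hκ h0 w hwc hw0 hs hP2 (hgodd m hm1) hcodd ?_ (θ (m % R))
                (hθ (m % R)).1.continuous (hθ (m % R)).2.1 (hθ (m % R)).2.2.2
              rw [← hRd, Nat.mod_mod]
            have hI : (A + L) < ∫ t : ℝ, α (m % R) t := by
              have h4 : ¬ ∫ t : ℝ, w t * ‖EP j P (m % R) t‖ ≤ (A + L) / c2 := by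
                intro h5
                exact hm2 (Finset.mem_filter.mpr ⟨hmo, h5⟩)
              have h5 : ∫ t : ℝ, α (m % R) t = c2 * ∫ t : ℝ, w t * ‖EP j P (m % R) t‖ := by
                rw [← integral_const_mul]
                congr 1
                funext t
                simp only [hαd]; ring
              rw [h5]
              rw [not_le, div_lt_iff₀ hc2] at h4
              linarith
            have hZn : (A + L) < ‖Z (m % R)‖ := by
              rw [hZd]
              simp only [Complex.norm_real]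
              exact hI.trans_le (le_abs_self _)
            have h6 : L ≤ ‖T (m % R) m - Z (m % R)‖ := by
              have h7 := norm_sub_norm_le (Z (m % R)) (T (m % R) m)
              rw [norm_sub_rev] at h7
              linarith
            exact pow_le_pow_left₀ hL0.le h6 2
        _ ≤ ∑ m ∈ gblk κ j K, ‖T (m % R) m - Z (m % R)‖ ^ 2 :=
            Finset.sum_le_sum_of_subset_of_nonneg (Finset.filter_subset _ _)
              fun _ _ _ => sq_nonneg _
        _ ≤ C3 * K := htot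
    rw [hL2] at h1
    have h5 : 0 < 4 * C3 / ε := by positivity
    have h6 : (Bd2.card : ℝ) ≤ C3 * K / (4 * C3 / ε) := by
      rw [le_div_iff₀ h5]; exact h1
    refine h6.trans (le_of_eq ?_)
    field_simp
  have hsub : ((gblk κ j K).filter fun m => ∫ t : ℝ, ‖Lr κ j m t‖ * w t ≤ A) ⊆ Bd1 ∪ Bd2 := by
    intro m hm
    obtain ⟨hm1, hm2⟩ := Finset.mem_filter.mp hm
    rw [Finset.mem_union]
    by_cases h : m % R ∈ Cb
    · exact Or.inl (Finset.mem_filter.mpr ⟨hm1, h⟩)
    · exact Or.inr (Finset.mem_filter.mpr ⟨hm1, h, hm2⟩)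
  calc (((gblk κ j K).filter fun m => ∫ t : ℝ, ‖Lr κ j m t‖ * w t ≤ A).card : ℝ)
      ≤ ((Bd1 ∪ Bd2).card : ℝ) := by exact_mod_cast Finset.card_le_card hsub
    _ ≤ (Bd1.card : ℝ) + (Bd2.card : ℝ) := by exact_mod_cast Finset.card_union_le _ _
    _ ≤ ε / 4 * K + ε / 4 * K := add_le_add hc1 hc2'
    _ ≤ ε * K := by
      have : 0 ≤ ε * K := by positivity
      linarith

end Pool.Agent.RC

namespace Pool.Agent.RC

alias two := two_pr

end Pool.Agent.RC
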