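import Pool.Agent.Lib_helper39.RC.Defs
import Pool.Agent.Lib_helper39.RCA.CLS
import Pool.Agent.Lib_helper39.RCA.ONE
import Pool.Agent.Lib_helper39.RCA.REP1
import Pool.Agent.Lib_helper39.RCA.TWO
/-!
# Critical zeros of almost all real Dirichlet L-functions: final assembly
-/

namespace Pool.Agent.RC

open Complex MeasureTheory Filter Topology
open scoped ContDiff

/-- `χ` has no odd order critical zero with ordinate in `(a, b)`. -/
def NoOdd {q : ℕ} [NeZero q] (χ : DirichletCharacter ℂ q) (a b : ℝ) : Prop :=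
  ∀ t ∈ Set.Ioo a b, ¬ Odd (analyticOrderNatAt (DirichletCharacter.completedLFunction χ)
    (1 / 2 + t * I))

/-- The real character attached to `(j, m)` has parity `κ` and no odd zero in `(a, b)`. -/
def BadJM (κ : ℕ) (j : Fin 4) (a b : ℝ) (m : ℕ) : Prop :=
  2 ≤ m ∧ Odd m ∧ ∃ (_ : NeZero (cc j * m)) (χ : DirichletCharacter ℂ (cc j * m)),
    IsRC κ j m χ ∧ NoOdd χ a b

theorem cc_pos (j : Fin 4) : 0 < cc j := by
  fin_cases j <;> simp [cc]

theorem Lr_eq {κ : ℕ} {j : Fin 4} {m : ℕ} (hm : 2 ≤ m) [NeZero (cc j * m)]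
    (χ : DirichletCharacter ℂ (cc j * m)) (h : IsRC κ j m χ) {t : ℝ} (ht : t ≠ 0) :
    Lr κ j m t = DirichletCharacter.completedLFunction χ (1 / 2 + t * I) := by
  have h1 := (rep1 hm χ h).2.2 t
  have ht' : (t : ℂ) ≠ 0 := by exact_mod_cast ht
  rw [Lr, div_mul_eq_mul_div, ← h1, mul_div_cancel_left₀ _ ht']

/-- a smooth bump inside `(a, b)`. -/
theorem exists_bump {a b : ℝ} (hab : a < b) : ∃ w : ℝ → ℝ, ContDiff ℝ ∞ w ∧ (∀ t, 0 ≤ w t) ∧
    (∀ t, t ∉ Set.Icc ((2 * a + b) / 3) ((a + 2 * b) / 3) → w t = 0) ∧ 0 < ∫ t : ℝ, w t := by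
  have h1 : 0 < (b - a) / 12 := by linarith
  have h2 : (b - a) / 12 < (b - a) / 6 := by linarith
  let f : ContDiffBump ((a + b) / 2 : ℝ) := ⟨(b - a) / 12, (b - a) / 6, h1, h2⟩
  refine ⟨f, f.contDiff, fun t => f.nonneg, ?_, ?_⟩
  · intro t ht
    by_contra hne
    have h3 : t ∈ Function.support f := hne
    rw [f.support_eq, Metric.mem_ball, Real.dist_eq, abs_lt] at h3
    apply ht
    have e : f.rOut = (b - a) / 6 := rfl
    rw [e] at h3
    constructor <;> linarith [h3.1, h3.2]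
  · exact f.integral_pos

open Classical in
/-- One window. -/
theorem fin1 {κ : ℕ} (hκ : κ ≤ 1) {a b : ℝ} (hab : a < b) (h0 : 0 < a ∨ b < 0) (j : Fin 4)
    (ε : ℝ) (hε : 0 < ε) : ∃ K0 : ℕ, ∀ K ≥ K0,
      (((Finset.Ico K (2 * K)).filter (BadJM κ j a b)).card : ℝ) ≤ ε * K := by
  obtain ⟨w, hw, hw0, hws, hpos⟩ := exists_bump hab
  set a' : ℝ := (2 * a + b) / 3 with ha'
  set b' : ℝ := (a + 2 * b) / 3 with hb'
  have hab' : a' < b' := by rw [ha', hb']; linarith
  have haa : a < a' := by rw [ha']; linarith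
  have hbb : b' < b := by rw [hb']; linarith
  have h0' : 0 < a' ∨ b' < 0 := by
    rcases h0 with h | h
    · exact Or.inl (by linarith)
    · exact Or.inr (by linarith)
  have hsub : tsupport w ⊆ Set.Icc a' b' := by
    refine closure_minimal ?_ isClosed_Icc
    intro t ht
    by_contra hn
    exact ht (hws t hn)
  have hc : HasCompactSupport w := HasCompactSupport.of_support_subset_isCompact isCompact_Icc
    (fun t ht => by
      by_contra hn
      exact ht (hws t hn))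
  have hn0 : (0 : ℝ) ∉ tsupport w := by
    intro h
    have h1 := hsub h
    rcases h0' with h2 | h2
    · exact absurd h1.1 (not_le.mpr h2)
    · exact absurd h1.2 (not_le.mpr h2)
  obtain ⟨C, hC, hone⟩ := one hκ w hw hc hn0
  set A : ℝ := √(2 * C / ε) with hA
  have hA2 : A ^ 2 = 2 * C / ε := Real.sq_sqrt (by positivity)
  have hA0 : 0 < A := Real.sqrt_pos.mpr (by positivity)
  obtain ⟨K0, hK0⟩ := two hκ hab' h0' w hw hw0 hws hpos j A (ε / 2) (by positivity)
  refine ⟨max K0 2, fun K hK => ?_⟩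
  have hK1 : K0 ≤ K := (le_max_left _ _).trans hK
  have hK2 : 2 ≤ K := (le_max_right _ _).trans hK
  have h1 := hK0 K hK1
  have h2 := hone j K hK2
  -- for bad `m`: the two integrals agree
  have key : ∀ m, BadJM κ j a b m → Good κ j m ∧
      ‖∫ t : ℝ, (w t : ℂ) * (((cc j * m : ℕ) : ℂ) ^ ((t : ℂ) * I / 2) * Lr κ j m t)‖ =
        ∫ t : ℝ, ‖Lr κ j m t‖ * w t := by
    rintro m ⟨hm, hodd, hne, χ, hχ, hno⟩
    refine ⟨⟨hodd, hm, χ, hχ⟩, ?_⟩
    have hq : 2 ≤ cc j * m := le_trans hm (Nat.le_mul_of_pos_left _ (cc_pos j))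
    obtain ⟨θ, hθ, hph⟩ := GRH.phase_odd hq χ hχ.1 a b hno
    have e1 : (fun t : ℝ => (w t : ℂ) * (((cc j * m : ℕ) : ℂ) ^ ((t : ℂ) * I / 2) *
        Lr κ j m t)) = fun t : ℝ => θ * ((‖Lr κ j m t‖ * w t : ℝ) : ℂ) := by
      funext t
      by_cases ht : t ∈ Set.Icc a' b'
      · have ht0 : t ≠ 0 := by
          rintro rfl
          rcases h0' with h2 | h2
          · exact absurd ht.1 (not_le.mpr h2)
          · exact absurd ht.2 (not_le.mpr h2)
        have hin : t ∈ Set.Ioo a b := ⟨haa.trans_le ht.1, ht.2.trans_lt hbb⟩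
        rw [Lr_eq hm χ hχ ht0, hph t hin]
        push_cast
        ring
      · rw [hws t ht]
        simp
    rw [e1, integral_const_mul, norm_mul, hθ, one_mul, integral_complex_ofReal, Complex.norm_real,
      Real.norm_of_nonneg]
    exact integral_nonneg fun t => mul_nonneg (norm_nonneg _) (hw0 t)
  -- split the bad set
  set S := (gblk κ j K) with hS
  set F : ℕ → ℝ := fun m => ‖∫ t : ℝ, (w t : ℂ) * (((cc j * m : ℕ) : ℂ) ^ ((t : ℂ) * I / 2) *
    Lr κ j m t)‖ with hF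
  have hcard2 : ((S.filter fun m => A < F m).card : ℝ) ≤ ε / 2 * K := by
    have h3 : ((S.filter fun m => A < F m).card : ℝ) * A ^ 2 ≤ C * K := by
      calc ((S.filter fun m => A < F m).card : ℝ) * A ^ 2
          = ∑ m ∈ S.filter (fun m => A < F m), A ^ 2 := by
            rw [Finset.sum_const, nsmul_eq_mul]
        _ ≤ ∑ m ∈ S.filter (fun m => A < F m), F m ^ 2 := by
            refine Finset.sum_le_sum fun m hm => ?_
            have := (Finset.mem_filter.mp hm).2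
            exact pow_le_pow_left₀ hA0.le this.le 2
        _ ≤ ∑ m ∈ S, F m ^ 2 :=
            Finset.sum_le_sum_of_subset_of_nonneg (Finset.filter_subset _ _)
              fun m _ _ => sq_nonneg _
        _ ≤ C * K := h2
    rw [hA2] at h3
    have h4 : ((S.filter fun m => A < F m).card : ℝ) * (2 * C / ε) = 2 * C / ε *
      ((S.filter fun m => A < F m).card : ℝ) := by ring
    have h5 : 0 < 2 * C / ε := by positivity
    have h6 : ((S.filter fun m => A < F m).card : ℝ) ≤ C * K / (2 * C / ε) := by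
      rw [le_div_iff₀ h5]; exact h3
    refine h6.trans (le_of_eq ?_)
    field_simp
  have hsubset : (Finset.Ico K (2 * K)).filter (BadJM κ j a b) ⊆
      (S.filter fun m => ∫ t : ℝ, ‖Lr κ j m t‖ * w t ≤ A) ∪ (S.filter fun m => A < F m) := by
    intro m hm
    obtain ⟨hmI, hbad⟩ := Finset.mem_filter.mp hm
    obtain ⟨hg, heq⟩ := key m hbad
    have hmS : m ∈ S := by
      rw [hS, gblk]
      exact Finset.mem_filter.mpr ⟨hmI, hg⟩
    rw [Finset.mem_union, Finset.mem_filter, Finset.mem_filter]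
    rcases le_or_gt (∫ t : ℝ, ‖Lr κ j m t‖ * w t) A with h | h
    · exact Or.inl ⟨hmS, h⟩
    · refine Or.inr ⟨hmS, ?_⟩
      simp only [hF]
      rw [heq]
      exact h
  calc (((Finset.Ico K (2 * K)).filter (BadJM κ j a b)).card : ℝ)
      ≤ (((S.filter fun m => ∫ t : ℝ, ‖Lr κ j m t‖ * w t ≤ A) ∪
          (S.filter fun m => A < F m)).card : ℝ) := by
        exact_mod_cast Finset.card_le_card hsubset
    _ ≤ ((S.filter fun m => ∫ t : ℝ, ‖Lr κ j m t‖ * w t ≤ A).card : ℝ) +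
          ((S.filter fun m => A < F m).card : ℝ) := by
        exact_mod_cast Finset.card_union_le _ _
    _ ≤ ε / 2 * K + ε / 2 * K := add_le_add h1 hcard2
    _ = ε * K := by ring

/-- From dyadic blocks to all `m < X`. -/
theorem dyadic (B : ℕ → Prop) [DecidablePred B] (ε : ℝ) (hε : 0 < ε) (K0 : ℕ)
    (h : ∀ K ≥ K0, (((Finset.Ico K (2 * K)).filter B).card : ℝ) ≤ ε * K) (X : ℕ) :
    (((Finset.range X).filter B).card : ℝ) ≤ 2 * K0 + 4 + 2 * ε * X := by
  induction X using Nat.strong_induction_on with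
  | _ X ih =>
    rcases lt_or_ge X (2 * K0 + 4) with hX | hX
    · have h1 : (((Finset.range X).filter B).card : ℝ) ≤ X := by
        have := Finset.card_filter_le (Finset.range X) B
        rw [Finset.card_range] at this
        exact_mod_cast this
      have h2 : (X : ℝ) ≤ 2 * K0 + 4 := by exact_mod_cast hX.le
      have h3 : 0 ≤ 2 * ε * X := by positivity
      linarith
    · set K : ℕ := (X + 1) / 2 with hK
      have hKX : K < X := by omega
      have hXK : X ≤ 2 * K := by omega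
      have hKK : K0 ≤ K := by omega
      have h1 := ih K hKX
      have h2 := h K hKK
      have hsub : (Finset.range X).filter B ⊆
          (Finset.range K).filter B ∪ (Finset.Ico K (2 * K)).filter B := by
        intro m hm
        obtain ⟨hm1, hm2⟩ := Finset.mem_filter.mp hm
        rw [Finset.mem_range] at hm1
        rw [Finset.mem_union, Finset.mem_filter, Finset.mem_filter, Finset.mem_range,
          Finset.mem_Ico]
        rcases lt_or_ge m K with h3 | h3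
        · exact Or.inl ⟨h3, hm2⟩
        · exact Or.inr ⟨⟨h3, by omega⟩, hm2⟩
      have h3 : (((Finset.range X).filter B).card : ℝ) ≤
          (((Finset.range K).filter B).card : ℝ) +
            (((Finset.Ico K (2 * K)).filter B).card : ℝ) := by
        have := (Finset.card_le_card hsub).trans (Finset.card_union_le _ _)
        exact_mod_cast this
      have h4 : (3 : ℝ) * K ≤ 2 * X := by
        have : 3 * K ≤ 2 * X := by omega
        exact_mod_cast this
      have h5 : ε * (3 * K) ≤ ε * (2 * X) := mul_le_mul_of_nonneg_left h4 hε.le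
      linarith

/-- `k` disjoint windows give `k` points. -/
theorem encard_windows (S : Set ℝ) (x y g : ℝ) (hg : 0 < g) (i0 : ℤ) (k : ℕ)
    (h1 : x ≤ i0 * g) (h2 : (i0 + k) * g ≤ y)
    (h : ∀ i : ℕ, i < k → (S ∩ Set.Ioo ((i0 + i) * g) ((i0 + i + 1) * g)).Nonempty) :
    (k : ℕ∞) ≤ (S ∩ Set.Ioo x y).encard := by
  have h' : ∀ i : Fin k, ∃ t : ℝ, t ∈ S ∧ (i0 + (i : ℕ)) * g < t ∧ t < (i0 + (i : ℕ) + 1) * g := by
    intro i
    obtain ⟨t, ht1, ht2⟩ := h i i.2
    exact ⟨t, ht1, ht2.1, ht2.2⟩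
  choose f hf1 hf2 hf3 using h'
  have hinj : Function.Injective f := by
    intro i l hil
    by_contra hne
    rcases lt_or_gt_of_ne hne with hlt | hlt
    · have h5 : ((i : ℕ) : ℝ) + 1 ≤ ((l : ℕ) : ℝ) := by exact_mod_cast hlt
      have h6 := hf3 i
      have h7 := hf2 l
      rw [hil] at h6
      have h8 : (i0 + ((i : ℕ) : ℝ) + 1) * g ≤ (i0 + ((l : ℕ) : ℝ)) * g :=
        mul_le_mul_of_nonneg_right (by linarith) hg.le
      linarith
    · have h5 : ((l : ℕ) : ℝ) + 1 ≤ ((i : ℕ) : ℝ) := by exact_mod_cast hlt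
      have h6 := hf3 l
      have h7 := hf2 i
      rw [hil] at h7
      have h8 : (i0 + ((l : ℕ) : ℝ) + 1) * g ≤ (i0 + ((i : ℕ) : ℝ)) * g :=
        mul_le_mul_of_nonneg_right (by linarith) hg.le
      linarith
  have hsub : Set.range f ⊆ S ∩ Set.Ioo x y := by
    rintro _ ⟨i, rfl⟩
    refine ⟨hf1 i, ?_, ?_⟩
    · have h9 : (i0 : ℝ) * g ≤ (i0 + ((i : ℕ) : ℝ)) * g :=
        mul_le_mul_of_nonneg_right (by linarith [Nat.cast_nonneg (α := ℝ) (i : ℕ)]) hg.le
      linarith [hf2 i]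
    · have h5 : ((i : ℕ) : ℝ) + 1 ≤ (k : ℝ) := by exact_mod_cast i.2
      have h8 : (i0 + ((i : ℕ) : ℝ) + 1) * g ≤ (i0 + (k : ℝ)) * g :=
        mul_le_mul_of_nonneg_right (by linarith) hg.le
      linarith [hf3 i]
  refine le_trans (le_of_eq ?_) (Set.encard_le_encard hsub)
  rw [← Set.image_univ, hinj.encard_image, Set.encard_univ]
  simp

/-- A finite grid of windows avoiding `0`. -/
theorem grid (T h : ℝ) (hh : 0 < h) (k : ℕ) : ∃ W : Finset (ℝ × ℝ),
    (∀ p ∈ W, p.1 < p.2 ∧ (0 < p.1 ∨ p.2 < 0)) ∧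
    ∀ S : Set ℝ, (∀ p ∈ W, (S ∩ Set.Ioo p.1 p.2).Nonempty) →
      ∀ x : ℝ, -T ≤ x → x + h ≤ T → (k : ℕ∞) ≤ (S ∩ Set.Ioo x (x + h)).encard := by
  classical
  set g : ℝ := h / (2 * (k + 2)) with hg
  have hk : (0 : ℝ) < 2 * (k + 2) := by positivity
  have hg0 : 0 < g := by positivity
  have hgh : (k + 2) * g = h / 2 := by rw [hg]; field_simp
  set M : ℤ := ⌈T / g⌉ + 1 with hM
  have hTM : T ≤ M * g := by
    have h1 : T / g ≤ (⌈T / g⌉ : ℝ) := Int.le_ceil _
    have h2 : T / g ≤ (M : ℝ) := by rw [hM]; push_cast; linarith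
    rwa [div_le_iff₀ hg0] at h2
  set W : Finset (ℝ × ℝ) := ((Finset.Icc (-M) M).filter
    (fun i : ℤ => 0 < (i : ℝ) * g ∨ ((i : ℝ) + 1) * g < 0)).image
      (fun i : ℤ => ((i : ℝ) * g, ((i : ℝ) + 1) * g)) with hW
  refine ⟨W, ?_, ?_⟩
  · intro p hp
    obtain ⟨i, hi, rfl⟩ := Finset.mem_image.mp hp
    refine ⟨?_, (Finset.mem_filter.mp hi).2⟩
    show (i : ℝ) * g < ((i : ℝ) + 1) * g
    linarith [add_mul (i : ℝ) 1 g]
  · intro S hS x hx1 hx2
    have hwin : ∀ i : ℤ, x ≤ i * g → (i + 1) * g ≤ x + h →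
        (0 < (i : ℝ) * g ∨ ((i : ℝ) + 1) * g < 0) →
        (S ∩ Set.Ioo ((i : ℝ) * g) (((i : ℝ) + 1) * g)).Nonempty := by
      intro i hi1 hi2 hi3
      refine hS ((i : ℝ) * g, ((i : ℝ) + 1) * g) ?_
      refine Finset.mem_image.mpr ⟨i, ?_, rfl⟩
      refine Finset.mem_filter.mpr ⟨Finset.mem_Icc.mpr ⟨?_, ?_⟩, hi3⟩
      · have h1 : (-(M : ℝ)) * g ≤ i * g := by linarith
        have h2 : (-(M : ℝ)) ≤ i := le_of_mul_le_mul_right h1 hg0
        exact_mod_cast h2
      · have h1 : (i : ℝ) * g ≤ M * g := by nlinarith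
        have h2 : (i : ℝ) ≤ M := le_of_mul_le_mul_right h1 hg0
        exact_mod_cast h2
    rcases le_or_gt 0 (x + h / 2) with hpos | hneg
    · -- windows to the right
      set i0 : ℤ := ⌈(x + h / 2) / g⌉ + 1 with hi0
      have hc1 : (x + h / 2) / g ≤ (⌈(x + h / 2) / g⌉ : ℝ) := Int.le_ceil _
      have hc2 : (⌈(x + h / 2) / g⌉ : ℝ) < (x + h / 2) / g + 1 := Int.ceil_lt_add_one _
      have e0 : (i0 : ℝ) = (⌈(x + h / 2) / g⌉ : ℝ) + 1 := by rw [hi0]; push_cast; ring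
      have hlow : x + h / 2 + g ≤ (i0 : ℝ) * g := by
        have h1 : (x + h / 2) / g + 1 ≤ (i0 : ℝ) := by rw [e0]; linarith
        have h2 := mul_le_mul_of_nonneg_right h1 hg0.le
        have h3 : ((x + h / 2) / g + 1) * g = x + h / 2 + g := by field_simp
        linarith
      have hup : (i0 : ℝ) * g ≤ x + h / 2 + 2 * g := by
        have h1 : (i0 : ℝ) ≤ (x + h / 2) / g + 2 := by rw [e0]; linarith
        have h2 := mul_le_mul_of_nonneg_right h1 hg0.le
        have h3 : ((x + h / 2) / g + 2) * g = x + h / 2 + 2 * g := by field_simp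
        linarith
      have hkk : ((i0 : ℝ) + k) * g ≤ x + h := by
        have : ((i0 : ℝ) + k) * g = i0 * g + k * g := by ring
        have h2 : (k + 2) * g = k * g + 2 * g := by ring
        linarith
      refine encard_windows S x (x + h) g hg0 i0 k (by linarith) hkk ?_
      intro i hi
      have hik : ((i : ℕ) : ℝ) + 1 ≤ k := by exact_mod_cast hi
      have hi0' : (0 : ℝ) ≤ (i : ℝ) := Nat.cast_nonneg _
      have hge : (i0 : ℝ) * g ≤ ((i0 : ℝ) + i) * g :=
        mul_le_mul_of_nonneg_right (by linarith) hg0.le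
      have hle : ((i0 : ℝ) + i + 1) * g ≤ ((i0 : ℝ) + k) * g :=
        mul_le_mul_of_nonneg_right (by linarith) hg0.le
      have := hwin (i0 + i) (by push_cast; linarith) (by push_cast; linarith)
        (Or.inl (by push_cast; linarith))
      push_cast at this
      exact this
    · -- windows to the left
      set i0 : ℤ := ⌈x / g⌉ with hi0
      have hc1 : x / g ≤ (i0 : ℝ) := Int.le_ceil _
      have hc2 : (i0 : ℝ) < x / g + 1 := Int.ceil_lt_add_one _
      have hlow : x ≤ (i0 : ℝ) * g := by rwa [div_le_iff₀ hg0] at hc1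
      have hup : (i0 : ℝ) * g ≤ x + g := by
        have h2 := mul_le_mul_of_nonneg_right hc2.le hg0.le
        have h3 : (x / g + 1) * g = x + g := by field_simp
        linarith
      have h2g : (k + 2) * g = k * g + 2 * g := by ring
      have hkk' : ((i0 : ℝ) + k) * g = i0 * g + k * g := by ring
      have hkk : ((i0 : ℝ) + k) * g ≤ x + h := by linarith
      have hkn : ((i0 : ℝ) + k) * g < 0 := by linarith
      refine encard_windows S x (x + h) g hg0 i0 k hlow hkk ?_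
      intro i hi
      have hik : ((i : ℕ) : ℝ) + 1 ≤ k := by exact_mod_cast hi
      have hi0' : (0 : ℝ) ≤ (i : ℝ) := Nat.cast_nonneg _
      have hge : (i0 : ℝ) * g ≤ ((i0 : ℝ) + i) * g :=
        mul_le_mul_of_nonneg_right (by linarith) hg0.le
      have hle : ((i0 : ℝ) + i + 1) * g ≤ ((i0 : ℝ) + k) * g :=
        mul_le_mul_of_nonneg_right (by linarith) hg0.le
      have := hwin (i0 + i) (by push_cast; linarith) (by push_cast; linarith)
        (Or.inr (by push_cast; linarith))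
      push_cast at this
      exact this

/-- The odd order zeros of `Λ(s, χ)` on the critical line. -/
def oddSet {q : ℕ} [NeZero q] (χ : DirichletCharacter ℂ q) : Set ℝ :=
  {t : ℝ | Odd (analyticOrderNatAt (DirichletCharacter.completedLFunction χ) (1 / 2 + t * I))}

/-- Some interval of length `h` in `[-T, T]` contains fewer than `k` odd zeros. -/
def BadC (T h : ℝ) (k : ℕ) {q : ℕ} [NeZero q] (χ : DirichletCharacter ℂ q) : Prop :=
  ∃ x : ℝ, -T ≤ x ∧ x + h ≤ T ∧ (oddSet χ ∩ Set.Ioo x (x + h)).encard < k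

/-- A bad character gives a bad `(j, m)`. -/
theorem bad_to (T h : ℝ) (k : ℕ) (W : Finset (ℝ × ℝ))
    (hW : ∀ S : Set ℝ, (∀ p ∈ W, (S ∩ Set.Ioo p.1 p.2).Nonempty) →
      ∀ x : ℝ, -T ≤ x → x + h ≤ T → (k : ℕ∞) ≤ (S ∩ Set.Ioo x (x + h)).encard)
    {q : ℕ} [NeZero q] (χ : DirichletCharacter ℂ q) (hp : χ.IsPrimitive)
    (h2 : MulChar.IsQuadratic χ) (hb : BadC T h k χ) :
    ∃ (j : Fin 4) (m : ℕ), q = cc j * m ∧ (∀ n : ℕ, χ (n : ZMod q) = (rv j m n : ℂ)) ∧
      (m ≤ 1 ∨ ∃ κ ∈ Finset.range 2, ∃ p ∈ W, BadJM κ j p.1 p.2 m) := by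
  obtain ⟨j, m, hodd, hq, hv⟩ := classify q χ hp h2
  subst hq
  refine ⟨j, m, rfl, hv, ?_⟩
  rcases le_or_gt m 1 with hm | hm
  · exact Or.inl hm
  right
  obtain ⟨x, hx1, hx2, hx3⟩ := hb
  have h3 : ∃ p ∈ W, ¬ (oddSet χ ∩ Set.Ioo p.1 p.2).Nonempty := by
    by_contra hcon
    push Not at hcon
    exact absurd (hW _ hcon x hx1 hx2) (not_le.mpr hx3)
  obtain ⟨p, hpW, hpe⟩ := h3
  rcases χ.even_or_odd with he | ho
  · refine ⟨0, by simp, p, hpW, hm, hodd, inferInstance, χ, ⟨hp, hv, Or.inl ⟨rfl, he⟩⟩, ?_⟩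
    intro t ht hto
    exact hpe ⟨t, hto, ht⟩
  · refine ⟨1, by simp, p, hpW, hm, hodd, inferInstance, χ, ⟨hp, hv, Or.inr ⟨rfl, ho⟩⟩, ?_⟩
    intro t ht hto
    exact hpe ⟨t, hto, ht⟩

open Classical in
/-- Almost all real primitive characters: main theorem. -/
theorem fin_all (T h : ℝ) (hh : 0 < h) (k : ℕ) (ε : ℝ) (hε : 0 < ε) : ∃ X0 : ℕ, ∀ X ≥ X0,
    ∑ q ∈ Finset.range X, (Nat.card {χ : DirichletCharacter ℂ (q + 1) //
      χ.IsPrimitive ∧ MulChar.IsQuadratic χ ∧ BadC T h k χ} : ℝ) ≤ ε * X := by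
  obtain ⟨W, hW1, hW2⟩ := grid T h hh k
  set ε' : ℝ := ε / (64 * (W.card + 1)) with hε'
  have hε0 : 0 < ε' := by positivity
  have H : ∀ (κ : ℕ) (j : Fin 4) (p : ℝ × ℝ), ∃ K0 : ℕ, κ ≤ 1 → p ∈ W → ∀ K ≥ K0,
      (((Finset.Ico K (2 * K)).filter (BadJM κ j p.1 p.2)).card : ℝ) ≤ ε' * K := by
    intro κ j p
    by_cases h1 : κ ≤ 1 ∧ p ∈ W
    · obtain ⟨K0, hK0⟩ := fin1 h1.1 (hW1 p h1.2).1 (hW1 p h1.2).2 j ε' hε0
      exact ⟨K0, fun _ _ => hK0⟩
    · exact ⟨0, fun h2 h3 => absurd ⟨h2, h3⟩ h1⟩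
  choose K0 hK0 using H
  -- a uniform bound
  set N : ℕ := ∑ κ ∈ Finset.range 2, ∑ j : Fin 4, ∑ p ∈ W, K0 κ j p with hN
  have hKN : ∀ κ ∈ Finset.range 2, ∀ j : Fin 4, ∀ p ∈ W, K0 κ j p ≤ N := by
    intro κ hκ j p hp
    calc K0 κ j p ≤ ∑ p ∈ W, K0 κ j p :=
          Finset.single_le_sum (f := fun p => K0 κ j p) (fun _ _ => Nat.zero_le _) hp
      _ ≤ ∑ j : Fin 4, ∑ p ∈ W, K0 κ j p :=
          Finset.single_le_sum (f := fun j => ∑ p ∈ W, K0 κ j p)
            (fun _ _ => Nat.zero_le _) (Finset.mem_univ j)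
      _ ≤ N := Finset.single_le_sum (f := fun κ => ∑ j : Fin 4, ∑ p ∈ W, K0 κ j p)
            (fun _ _ => Nat.zero_le _) hκ
  set A : ℝ := 8 + 8 * W.card * (2 * N + 4 + 2 * ε') with hA
  obtain ⟨X0, hX0⟩ := exists_nat_ge (2 * A / ε)
  refine ⟨X0, fun X hX => ?_⟩
  -- rewrite the count
  set B : (q : ℕ) → Finset (DirichletCharacter ℂ (q + 1)) := fun q =>
    Finset.univ.filter fun χ => χ.IsPrimitive ∧ MulChar.IsQuadratic χ ∧ BadC T h k χ with hB
  have hcard : ∀ q : ℕ, (Nat.card {χ : DirichletCharacter ℂ (q + 1) //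
      χ.IsPrimitive ∧ MulChar.IsQuadratic χ ∧ BadC T h k χ}) = (B q).card := by
    intro q
    rw [Nat.card_eq_fintype_card, Fintype.card_subtype]
  simp only [hcard]
  set S : Finset (Σ q : ℕ, DirichletCharacter ℂ (q + 1)) := (Finset.range X).sigma B with hS
  have hScard : ((∑ q ∈ Finset.range X, (B q).card : ℕ) : ℝ) = (S.card : ℝ) := by
    rw [hS, Finset.card_sigma]
  have hex : ∀ x ∈ S, ∃ y : Fin 4 × ℕ, x.1 + 1 = cc y.1 * y.2 ∧
      (∀ n : ℕ, x.2 (n : ZMod (x.1 + 1)) = (rv y.1 y.2 n : ℂ)) ∧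
      (y.2 ≤ 1 ∨ ∃ κ ∈ Finset.range 2, ∃ p ∈ W, BadJM κ y.1 p.1 p.2 y.2) := by
    intro x hx
    obtain ⟨_, hx2⟩ := Finset.mem_sigma.mp hx
    obtain ⟨_, hx3, hx4, hx5⟩ := Finset.mem_filter.mp hx2
    obtain ⟨j, m, h1, h2, h3⟩ := bad_to T h k W hW2 x.2 hx3 hx4 hx5
    exact ⟨(j, m), h1, h2, h3⟩
  choose! Φ hΦ1 hΦ2 hΦ3 using hex
  have hinj : Set.InjOn Φ S := by
    intro x hx y hy hxy
    have h1 := hΦ1 x hx
    have h2 := hΦ1 y hy
    rw [hxy] at h1
    have h3 : x.1 = y.1 := by omega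
    obtain ⟨q, χ⟩ := x
    obtain ⟨q', χ'⟩ := y
    simp only at h3
    subst h3
    congr 1
    have h4 := hΦ2 _ hx
    have h5 := hΦ2 _ hy
    rw [hxy] at h4
    simp only at h4 h5
    ext a
    obtain ⟨n, hn⟩ := ZMod.natCast_zmod_surjective (a : ZMod (q + 1))
    rw [← hn, h4, h5]
  set Tx : Finset (Fin 4 × ℕ) := (Finset.univ ×ˢ Finset.range 2) ∪
    (Finset.range 2).biUnion fun κ => (Finset.univ : Finset (Fin 4)).biUnion fun j =>
      W.biUnion fun p => ((Finset.range (X + 1)).filter (BadJM κ j p.1 p.2)).image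
        (fun m => (j, m)) with hTx
  have hmap : ∀ x ∈ S, Φ x ∈ Tx := by
    intro x hx
    rw [hTx, Finset.mem_union]
    rcases hΦ3 x hx with h3 | ⟨κ, hκ, p, hp, h3⟩
    · left
      rw [Finset.mem_product]
      exact ⟨Finset.mem_univ _, Finset.mem_range.mpr (by omega)⟩
    · right
      refine Finset.mem_biUnion.mpr ⟨κ, hκ, Finset.mem_biUnion.mpr
        ⟨(Φ x).1, Finset.mem_univ _, Finset.mem_biUnion.mpr ⟨p, hp, ?_⟩⟩⟩
      refine Finset.mem_image.mpr ⟨(Φ x).2, Finset.mem_filter.mpr ⟨?_, h3⟩, rfl⟩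
      rw [Finset.mem_range]
      have h4 := hΦ1 x hx
      have h5 : x.1 < X := Finset.mem_range.mp (Finset.mem_sigma.mp hx).1
      have h6 : (Φ x).2 ≤ cc (Φ x).1 * (Φ x).2 := Nat.le_mul_of_pos_left _ (cc_pos _)
      omega
  have h1 : S.card ≤ Tx.card := Finset.card_le_card_of_injOn Φ hmap hinj
  have h2 : (Tx.card : ℝ) ≤ 8 + ∑ κ ∈ Finset.range 2, ∑ j : Fin 4, ∑ p ∈ W,
      (((Finset.range (X + 1)).filter (BadJM κ j p.1 p.2)).card : ℝ) := by
    have e1 : Tx.card ≤ 8 + ∑ κ ∈ Finset.range 2, ∑ j : Fin 4, ∑ p ∈ W,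
      ((Finset.range (X + 1)).filter (BadJM κ j p.1 p.2)).card := by
      rw [hTx]
      refine (Finset.card_union_le _ _).trans ?_
      refine Nat.add_le_add ?_ ?_
      · rw [Finset.card_product]; simp
      · refine Finset.card_biUnion_le.trans (Finset.sum_le_sum fun κ _ => ?_)
        refine Finset.card_biUnion_le.trans (Finset.sum_le_sum fun j _ => ?_)
        refine Finset.card_biUnion_le.trans (Finset.sum_le_sum fun p _ => ?_)
        exact Finset.card_image_le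
    exact_mod_cast e1
  have h3 : ∀ κ ∈ Finset.range 2, ∀ j : Fin 4, ∀ p ∈ W,
      (((Finset.range (X + 1)).filter (BadJM κ j p.1 p.2)).card : ℝ) ≤
        2 * N + 4 + 2 * ε' * (X + 1) := by
    intro κ hκ j p hp
    have hκ1 : κ ≤ 1 := by have := Finset.mem_range.mp hκ; omega
    have h4 := dyadic (BadJM κ j p.1 p.2) ε' hε0 (K0 κ j p) (hK0 κ j p hκ1 hp) (X + 1)
    have h5 : ((K0 κ j p : ℕ) : ℝ) ≤ N := by exact_mod_cast hKN κ hκ j p hp
    push_cast at h4
    linarith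
  have h4 : ∑ κ ∈ Finset.range 2, ∑ j : Fin 4, ∑ p ∈ W,
      (((Finset.range (X + 1)).filter (BadJM κ j p.1 p.2)).card : ℝ) ≤
        8 * W.card * (2 * N + 4 + 2 * ε' * (X + 1)) := by
    calc ∑ κ ∈ Finset.range 2, ∑ j : Fin 4, ∑ p ∈ W,
      (((Finset.range (X + 1)).filter (BadJM κ j p.1 p.2)).card : ℝ)
        ≤ ∑ κ ∈ Finset.range 2, ∑ j : Fin 4, ∑ p ∈ W, (2 * N + 4 + 2 * ε' * (X + 1) : ℝ) :=
          Finset.sum_le_sum fun κ hκ => Finset.sum_le_sum fun j _ =>
            Finset.sum_le_sum fun p hp => h3 κ hκ j p hp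
      _ = 8 * W.card * (2 * N + 4 + 2 * ε' * (X + 1)) := by
          simp only [Finset.sum_const, Finset.card_range, Finset.card_univ, Fintype.card_fin,
            nsmul_eq_mul]
          push_cast
          ring
  have h5 : (2 : ℝ) * A / ε ≤ X := hX0.trans (by exact_mod_cast hX)
  have h6 : A ≤ ε / 2 * X := by
    rw [div_le_iff₀ hε] at h5
    linarith
  have h7 : 8 * (W.card : ℝ) * (2 * ε' * X) ≤ ε / 4 * X := by
    have h8 : 16 * (W.card : ℝ) * ε' ≤ ε / 4 := by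
      rw [hε']
      have h9 : (0 : ℝ) < 64 * (W.card + 1) := by positivity
      rw [mul_div_assoc', div_le_iff₀ h9]
      nlinarith [Nat.cast_nonneg (α := ℝ) W.card]
    have h9 := mul_le_mul_of_nonneg_right h8 (Nat.cast_nonneg (α := ℝ) X)
    linarith
  have h8 : (0 : ℝ) ≤ ε * X := by positivity
  calc ∑ q ∈ Finset.range X, ((B q).card : ℝ)
      = (S.card : ℝ) := by rw [← hScard]; push_cast; rfl
    _ ≤ (Tx.card : ℝ) := by exact_mod_cast h1
    _ ≤ 8 + 8 * W.card * (2 * N + 4 + 2 * ε' * (X + 1)) := h2.trans (by linarith)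
    _ = A + 8 * (W.card : ℝ) * (2 * ε' * X) := by rw [hA]; ring
    _ ≤ ε * X := by linarith

end Pool.Agent.RC
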