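import Pool.Agent.Lib_helper39.RC.Defs
namespace Pool.Agent.RC

open Complex MeasureTheory Filter Topology

section

variable {Q : ℕ} [NeZero Q]

/-- `min(h, Q - h)` -/
def rc_spv_mu (h : ZMod Q) : ℕ := min h.val (-h).val

lemma rc_spv_mu_pos {h : ZMod Q} (hh : h ≠ 0) : 0 < rc_spv_mu h := by
  unfold rc_spv_mu
  exact lt_min (ZMod.val_pos.2 hh) (ZMod.val_pos.2 (neg_ne_zero.2 hh))

lemma rc_spv_mu_neg (h : ZMod Q) : rc_spv_mu (-h) = rc_spv_mu h := by
  unfold rc_spv_mu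
  rw [neg_neg, min_comm]

lemma rc_spv_fiber (h h' : ZMod Q) (hh : h ≠ 0) :
    (Finset.univ.filter fun x : ZMod Q => x * h = h').card ≤ h.val := by
  have hQ : 0 < Q := Nat.pos_of_ne_zero (NeZero.ne Q)
  have hv : 0 < h.val := ZMod.val_pos.2 hh
  rw [← Finset.card_range h.val]
  apply Finset.card_le_card_of_injOn (fun x => x.val * h.val / Q)
  · intro x _
    simp only [Finset.coe_range, Set.mem_Iio]
    apply Nat.div_lt_of_lt_mul
    exact Nat.mul_lt_mul_of_pos_right (ZMod.val_lt x) hv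
  · intro x hx y hy hxy
    simp only [Finset.coe_filter, Finset.mem_univ, true_and, Set.mem_setOf_eq] at hx hy
    simp only at hxy
    have h1 : (x.val * h.val) % Q = (y.val * h.val) % Q := by
      rw [← ZMod.val_mul, ← ZMod.val_mul, hx, hy]
    have h2 : x.val * h.val = y.val * h.val := by
      rw [← Nat.div_add_mod (x.val * h.val) Q, ← Nat.div_add_mod (y.val * h.val) Q, hxy, h1]
    exact ZMod.val_injective Q (Nat.eq_of_mul_eq_mul_right hv h2)

lemma rc_spv_fiber' (h h' : ZMod Q) (hh : h ≠ 0) :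
    (Finset.univ.filter fun x : ZMod Q => x * h = h').card ≤ rc_spv_mu h := by
  unfold rc_spv_mu
  refine le_min (rc_spv_fiber h h' hh) ?_
  have := rc_spv_fiber (-h) (-h') (neg_ne_zero.2 hh)
  refine le_trans (le_of_eq ?_) this
  congr 1
  ext x
  simp only [Finset.mem_filter, Finset.mem_univ, true_and, mul_neg, neg_inj]

/-- Fourier coefficients -/
noncomputable def rc_spv_c (χ : DirichletCharacter ℂ Q) (h : ZMod Q) : ℂ :=
  ∑ x : ZMod Q, χ x * ZMod.stdAddChar (x * h)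

lemma rc_spv_inv (χ : DirichletCharacter ℂ Q) (y : ZMod Q) :
    ∑ h : ZMod Q, rc_spv_c χ h * ZMod.stdAddChar (-(y * h)) = Q * χ y := by
  classical
  unfold rc_spv_c
  simp only [Finset.sum_mul]
  rw [Finset.sum_comm]
  have h1 : ∀ x : ZMod Q, ∑ h : ZMod Q, χ x * ZMod.stdAddChar (x * h) *
      ZMod.stdAddChar (-(y * h)) = χ x * (if x - y = 0 then (Q : ℂ) else 0) := by
    intro x
    have := AddChar.sum_mulShift (x - y) (ZMod.isPrimitive_stdAddChar Q)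
    rw [ZMod.card] at this
    have e : ((if x - y = 0 then Q else 0 : ℕ) : ℂ) = if x - y = 0 then (Q : ℂ) else 0 := by
      split_ifs <;> simp
    rw [← e, ← this, Finset.mul_sum]
    apply Finset.sum_congr rfl
    intro h _
    rw [mul_assoc, ← AddChar.map_add_eq_mul]
    congr 2
    ring
  rw [Finset.sum_congr rfl fun x _ => h1 x, Finset.sum_eq_single y]
  · simp; ring
  · intro x _ hx
    rw [if_neg (sub_ne_zero.2 hx), mul_zero]
  · intro h; exact absurd (Finset.mem_univ _) h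

lemma rc_spv_parseval (χ : DirichletCharacter ℂ Q) :
    ∑ h : ZMod Q, ‖rc_spv_c χ h‖ ^ 2 = Q * ∑ x : ZMod Q, ‖χ x‖ ^ 2 := by
  have key : ((∑ h : ZMod Q, ‖rc_spv_c χ h‖ ^ 2 : ℝ) : ℂ) =
      ((Q * ∑ x : ZMod Q, ‖χ x‖ ^ 2 : ℝ) : ℂ) := by
    push_cast
    have h1 : ∀ h : ZMod Q, ((‖rc_spv_c χ h‖ : ℝ) : ℂ) ^ 2 =
        ∑ y : ZMod Q, (starRingEnd ℂ) (χ y) * (rc_spv_c χ h * ZMod.stdAddChar (-(y * h))) := by
      intro h
      rw [← Complex.mul_conj']
      conv_lhs => rw [show (starRingEnd ℂ) (rc_spv_c χ h) =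
        ∑ y : ZMod Q, (starRingEnd ℂ) (χ y) * ZMod.stdAddChar (-(y * h)) from by
          unfold rc_spv_c
          rw [map_sum]
          apply Finset.sum_congr rfl
          intro y _
          rw [map_mul, AddChar.map_neg_eq_conj]]
      rw [Finset.mul_sum]
      apply Finset.sum_congr rfl
      intro y _
      ring
    rw [Finset.sum_congr rfl fun h _ => h1 h, Finset.sum_comm, Finset.mul_sum]
    apply Finset.sum_congr rfl
    intro y _
    rw [← Finset.mul_sum, rc_spv_inv, ← Complex.conj_mul']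
    ring
  exact_mod_cast key

lemma rc_spv_unit (χ : DirichletCharacter ℂ Q) (u : (ZMod Q)ˣ) (h : ZMod Q) :
    ‖rc_spv_c χ (u * h)‖ = ‖rc_spv_c χ h‖ := by
  have h1 : rc_spv_c χ h = χ u * rc_spv_c χ (u * h) := by
    unfold rc_spv_c
    rw [Finset.mul_sum]
    rw [← Equiv.sum_comp (Units.mulRight u)]
    apply Finset.sum_congr rfl
    intro x _
    simp only [Units.mulRight_apply, map_mul]
    rw [show x * (u : ZMod Q) * h = x * (u * h) by ring]
    ring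
  rw [h1, norm_mul, DirichletCharacter.unit_norm_eq_one, one_mul]

lemma rc_spv_key (χ : DirichletCharacter ℂ Q) {h : ZMod Q} (hh : h ≠ 0) :
    ‖rc_spv_c χ h‖ ^ 2 ≤ Q * rc_spv_mu h := by
  classical
  obtain ⟨Φ, hΦ⟩ : ∃ Φ : ℝ, Φ = ((Fintype.card (ZMod Q)ˣ : ℕ) : ℝ) := ⟨_, rfl⟩
  have hΦ0 : 0 < Φ := by
    rw [hΦ]; exact_mod_cast Fintype.card_pos
  have h1 : Φ * ‖rc_spv_c χ h‖ ^ 2 = ∑ u : (ZMod Q)ˣ, ‖rc_spv_c χ (u * h)‖ ^ 2 := by
    rw [Finset.sum_congr rfl fun u _ => by rw [rc_spv_unit], Finset.sum_const, nsmul_eq_mul]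
    simp [hΦ]
  have himg : (Finset.univ.filter fun x : ZMod Q => IsUnit x) =
      Finset.univ.map ⟨fun u : (ZMod Q)ˣ => (u : ZMod Q), Units.val_injective⟩ := by
    ext x
    simp only [Finset.mem_filter, Finset.mem_univ, true_and, Finset.mem_map,
      Function.Embedding.coeFn_mk]
    exact Iff.rfl
  have h2 : ∑ u : (ZMod Q)ˣ, ‖rc_spv_c χ (u * h)‖ ^ 2 ≤ ∑ x : ZMod Q, ‖rc_spv_c χ (x * h)‖ ^ 2 := by
    have : ∑ u : (ZMod Q)ˣ, ‖rc_spv_c χ (u * h)‖ ^ 2 =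
        ∑ x ∈ Finset.univ.filter (fun x : ZMod Q => IsUnit x), ‖rc_spv_c χ (x * h)‖ ^ 2 := by
      rw [himg, Finset.sum_map]; rfl
    rw [this]
    exact Finset.sum_le_sum_of_subset_of_nonneg (Finset.filter_subset _ _)
      (fun x _ _ => by positivity)
  have h3 : ∑ x : ZMod Q, ‖rc_spv_c χ (x * h)‖ ^ 2 ≤
      rc_spv_mu h * ∑ y : ZMod Q, ‖rc_spv_c χ y‖ ^ 2 := by
    rw [← Finset.sum_fiberwise (s := Finset.univ) (g := fun x : ZMod Q => x * h)
      (f := fun x => ‖rc_spv_c χ (x * h)‖ ^ 2), Finset.mul_sum]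
    apply Finset.sum_le_sum
    intro y _
    have : ∑ x ∈ Finset.univ.filter (fun x : ZMod Q => x * h = y), ‖rc_spv_c χ (x * h)‖ ^ 2 =
        ((Finset.univ.filter (fun x : ZMod Q => x * h = y)).card : ℝ) * ‖rc_spv_c χ y‖ ^ 2 := by
      rw [← nsmul_eq_mul, ← Finset.sum_const]
      apply Finset.sum_congr rfl
      intro x hx
      rw [(Finset.mem_filter.1 hx).2]
    rw [this]
    apply mul_le_mul_of_nonneg_right _ (by positivity)
    exact_mod_cast rc_spv_fiber' h y hh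
  have h4 : ∑ x : ZMod Q, ‖χ x‖ ^ 2 ≤ Φ := by
    have e : Φ = ∑ x : ZMod Q, if IsUnit x then (1 : ℝ) else 0 := by
      rw [← Finset.sum_filter, Finset.sum_const, himg, Finset.card_map]
      simp [hΦ]
    rw [e]
    apply Finset.sum_le_sum
    intro x _
    split_ifs with hx
    · exact pow_le_one₀ (norm_nonneg _) (DirichletCharacter.norm_le_one χ x)
    · rw [χ.map_nonunit hx]; simp
  have h5 : Φ * ‖rc_spv_c χ h‖ ^ 2 ≤ Φ * (Q * rc_spv_mu h) := by
    calc Φ * ‖rc_spv_c χ h‖ ^ 2 ≤ rc_spv_mu h * ∑ y : ZMod Q, ‖rc_spv_c χ y‖ ^ 2 := by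
          rw [h1]; exact h2.trans h3
      _ = rc_spv_mu h * (Q * ∑ x : ZMod Q, ‖χ x‖ ^ 2) := by rw [rc_spv_parseval]
      _ ≤ rc_spv_mu h * (Q * Φ) := by
          apply mul_le_mul_of_nonneg_left _ (by positivity)
          exact mul_le_mul_of_nonneg_left h4 (by positivity)
      _ = _ := by ring
  exact le_of_mul_le_mul_left h5 hΦ0

lemma rc_spv_sub_one {k : ZMod Q} (hk : k ≠ 0) :
    4 * (rc_spv_mu k : ℝ) / Q ≤ ‖ZMod.stdAddChar k - (1 : ℂ)‖ := by
  have hQ : 0 < (Q : ℝ) := by exact_mod_cast Nat.pos_of_ne_zero (NeZero.ne Q)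
  rw [ZMod.stdAddChar_apply, ZMod.toCircle_apply]
  have e : (2 * (Real.pi : ℂ) * I * (k.val : ℂ) / (Q : ℂ)) =
      I * ((2 * Real.pi * k.val / Q : ℝ) : ℂ) := by
    push_cast; ring
  rw [e, Complex.norm_exp_I_mul_ofReal_sub_one]
  have e2 : 2 * Real.pi * (k.val : ℝ) / Q / 2 = Real.pi * (k.val / Q) := by ring
  rw [e2]
  have hμ1 : (rc_spv_mu k : ℝ) ≤ k.val := by
    exact_mod_cast min_le_left _ _
  have hμ2 : (rc_spv_mu k : ℝ) ≤ Q - k.val := by
    have h1 : rc_spv_mu k ≤ (-k).val := min_le_right _ _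
    haveI : NeZero k := ⟨hk⟩
    rw [ZMod.val_neg_of_ne_zero] at h1
    have h2 := ZMod.val_lt k
    have h3 : rc_spv_mu k + k.val ≤ Q := by omega
    have : ((rc_spv_mu k + k.val : ℕ) : ℝ) ≤ Q := by exact_mod_cast h3
    push_cast at this
    linarith
  have hlt : (k.val : ℝ) ≤ Q := by exact_mod_cast (ZMod.val_lt k).le
  set v : ℝ := k.val / Q with hv
  have hvQ : v * Q = k.val := by rw [hv]; field_simp
  have hv0 : 0 ≤ v := by positivity
  have hv1 : v ≤ 1 := by rw [hv, div_le_one hQ]; exact hlt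
  have hpi := Real.pi_pos
  have key : 2 * (rc_spv_mu k : ℝ) / Q ≤ Real.sin (Real.pi * v) := by
    rcases le_total v (1 / 2) with h | h
    · have h1 := Real.mul_le_sin (x := Real.pi * v) (by positivity) (by nlinarith)
      have h2 : 2 / Real.pi * (Real.pi * v) = 2 * v := by field_simp
      rw [h2] at h1
      refine le_trans ?_ h1
      rw [div_le_iff₀ hQ]
      nlinarith
    · have h1 := Real.mul_le_sin (x := Real.pi * (1 - v)) (by nlinarith) (by nlinarith)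
      have h2 : 2 / Real.pi * (Real.pi * (1 - v)) = 2 * (1 - v) := by field_simp
      rw [h2] at h1
      have h3 : Real.sin (Real.pi * (1 - v)) = Real.sin (Real.pi * v) := by
        rw [show Real.pi * (1 - v) = Real.pi - Real.pi * v by ring, Real.sin_pi_sub]
      rw [h3] at h1
      refine le_trans ?_ h1
      rw [div_le_iff₀ hQ]
      nlinarith
  have hnn : 0 ≤ 2 * (rc_spv_mu k : ℝ) / Q := by positivity
  rw [Real.norm_of_nonneg (by linarith)]
  calc 4 * (rc_spv_mu k : ℝ) / Q = 2 * (2 * (rc_spv_mu k : ℝ) / Q) := by ring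
    _ ≤ _ := by linarith

lemma rc_spv_geom {h : ZMod Q} (hh : h ≠ 0) (A : ℕ) :
    ‖∑ i ∈ Finset.range A, ZMod.stdAddChar (-((i : ZMod Q) * h))‖ ≤ Q / (2 * rc_spv_mu h) := by
  have hQ : 0 < (Q : ℝ) := by exact_mod_cast Nat.pos_of_ne_zero (NeZero.ne Q)
  have hμ : 0 < (rc_spv_mu h : ℝ) := by exact_mod_cast rc_spv_mu_pos hh
  set z : ℂ := ZMod.stdAddChar (-h) with hz
  have h1 : ∀ i : ℕ, ZMod.stdAddChar (-((i : ZMod Q) * h)) = z ^ i := by
    intro i
    rw [hz, ← AddChar.map_nsmul_eq_pow, nsmul_eq_mul, mul_neg]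
  rw [Finset.sum_congr rfl fun i _ => h1 i]
  have h2 := rc_spv_sub_one (neg_ne_zero.2 hh)
  rw [rc_spv_mu_neg, ← hz] at h2
  have h3 : 0 < ‖z - 1‖ := lt_of_lt_of_le (by positivity) h2
  have h4 : z ≠ 1 := fun e => by rw [e, sub_self, norm_zero] at h3; exact lt_irrefl _ h3
  rw [geom_sum_eq h4, norm_div]
  have h5 : ‖z ^ A - 1‖ ≤ 2 := by
    refine (norm_sub_le _ _).trans ?_
    rw [norm_pow, hz, AddChar.norm_apply, one_pow, norm_one]
    norm_num
  calc ‖z ^ A - 1‖ / ‖z - 1‖ ≤ 2 / (4 * (rc_spv_mu h : ℝ) / Q) := by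
        apply div_le_div₀ (by norm_num) h5 (by positivity) h2
    _ = Q / (2 * rc_spv_mu h) := by field_simp; norm_num

lemma rc_spv_sum_mu : ∑ h ∈ Finset.univ.filter (fun h : ZMod Q => h ≠ 0),
    1 / (rc_spv_mu h : ℝ) ^ (3 / 2 : ℝ) ≤ 2 * ∑' n : ℕ, 1 / (n : ℝ) ^ (3 / 2 : ℝ) := by
  classical
  have hs : Summable fun n : ℕ => 1 / (n : ℝ) ^ (3 / 2 : ℝ) :=
    Real.summable_one_div_nat_rpow.2 (by norm_num)
  set S := Finset.univ.filter (fun h : ZMod Q => h ≠ 0) with hS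
  have h1 : ∑ h ∈ S, 1 / (h.val : ℝ) ^ (3 / 2 : ℝ) ≤ ∑' n : ℕ, 1 / (n : ℝ) ^ (3 / 2 : ℝ) := by
    rw [← Finset.sum_image (s := S) (g := fun h : ZMod Q => h.val)
      (f := fun n : ℕ => 1 / (n : ℝ) ^ (3 / 2 : ℝ))
      (fun x _ y _ hxy => ZMod.val_injective Q hxy)]
    exact hs.sum_le_tsum _ (fun n _ => by positivity)
  have h2 : ∑ h ∈ S, 1 / ((-h).val : ℝ) ^ (3 / 2 : ℝ) ≤ ∑' n : ℕ, 1 / (n : ℝ) ^ (3 / 2 : ℝ) := by
    rw [← Finset.sum_image (s := S) (g := fun h : ZMod Q => (-h).val)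
      (f := fun n : ℕ => 1 / (n : ℝ) ^ (3 / 2 : ℝ))
      (fun x _ y _ hxy => neg_injective (ZMod.val_injective Q hxy))]
    exact hs.sum_le_tsum _ (fun n _ => by positivity)
  have h3 : ∀ h ∈ S, 1 / (rc_spv_mu h : ℝ) ^ (3 / 2 : ℝ) ≤
      1 / (h.val : ℝ) ^ (3 / 2 : ℝ) + 1 / ((-h).val : ℝ) ^ (3 / 2 : ℝ) := by
    intro h _
    rcases min_choice h.val (-h).val with e | e
    · have : rc_spv_mu h = h.val := e
      rw [this]
      have : 0 ≤ 1 / ((-h).val : ℝ) ^ (3 / 2 : ℝ) := by positivity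
      linarith
    · have : rc_spv_mu h = (-h).val := e
      rw [this]
      have : 0 ≤ 1 / (h.val : ℝ) ^ (3 / 2 : ℝ) := by positivity
      linarith
  have h4 := Finset.sum_le_sum h3
  rw [Finset.sum_add_distrib] at h4
  linarith

end

theorem spv_pr : ∃ C : ℝ, 0 < C ∧ ∀ (Q : ℕ) [NeZero Q] (χ : DirichletCharacter ℂ Q), χ ≠ 1 →
    ∀ A B : ℕ, ‖∑ i ∈ Finset.range A, ∑ l ∈ Finset.range B, χ ((i + l : ℕ) : ZMod Q)‖ ≤
      C * (Q : ℝ) ^ (3 / 2 : ℝ) := by
  classical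
  set Z := ∑' n : ℕ, 1 / (n : ℝ) ^ (3 / 2 : ℝ) with hZ
  have hZ0 : 0 ≤ Z := tsum_nonneg fun n => by positivity
  refine ⟨Z + 1, by linarith, ?_⟩
  intro Q _ χ hχ A B
  have hQn : 0 < Q := Nat.pos_of_ne_zero (NeZero.ne Q)
  have hQ : 0 < (Q : ℝ) := by exact_mod_cast hQn
  set S := ∑ i ∈ Finset.range A, ∑ l ∈ Finset.range B, χ ((i + l : ℕ) : ZMod Q) with hS
  have h1 : (Q : ℂ) * S = ∑ h : ZMod Q, rc_spv_c χ h *
      ((∑ i ∈ Finset.range A, ZMod.stdAddChar (-((i : ZMod Q) * h))) *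
        ∑ l ∈ Finset.range B, ZMod.stdAddChar (-((l : ZMod Q) * h))) := by
    have e1 : ∀ h : ZMod Q, rc_spv_c χ h *
      ((∑ i ∈ Finset.range A, ZMod.stdAddChar (-((i : ZMod Q) * h))) *
        ∑ l ∈ Finset.range B, ZMod.stdAddChar (-((l : ZMod Q) * h))) =
        ∑ i ∈ Finset.range A, ∑ l ∈ Finset.range B,
          rc_spv_c χ h * ZMod.stdAddChar (-(((i + l : ℕ) : ZMod Q) * h)) := by
      intro h
      rw [Finset.sum_mul_sum, Finset.mul_sum]
      apply Finset.sum_congr rfl; intro i _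
      rw [Finset.mul_sum]
      apply Finset.sum_congr rfl; intro l _
      rw [← AddChar.map_add_eq_mul]
      congr 2
      push_cast; ring
    rw [Finset.sum_congr rfl fun h _ => e1 h, Finset.sum_comm, hS, Finset.mul_sum]
    apply Finset.sum_congr rfl; intro i _
    rw [Finset.sum_comm, Finset.mul_sum]
    apply Finset.sum_congr rfl; intro l _
    rw [rc_spv_inv]
  have h0 : rc_spv_c χ 0 = 0 := by
    unfold rc_spv_c
    simp only [mul_zero, AddChar.map_zero_eq_one, mul_one]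
    exact MulChar.sum_eq_zero_of_ne_one hχ
  have h2 : (Q : ℝ) * ‖S‖ ≤ ∑ h ∈ Finset.univ.filter (fun h : ZMod Q => h ≠ 0),
      ((Q : ℝ) ^ 2 * √Q / 4) * (1 / (rc_spv_mu h : ℝ) ^ (3 / 2 : ℝ)) := by
    have e : (Q : ℝ) * ‖S‖ = ‖(Q : ℂ) * S‖ := by
      rw [norm_mul, Complex.norm_natCast]
    rw [e, h1]
    refine (norm_sum_le _ _).trans ?_
    rw [← Finset.sum_filter_add_sum_filter_not Finset.univ (fun h : ZMod Q => h ≠ 0)]
    have e0 : ∑ x ∈ Finset.univ.filter (fun h : ZMod Q => ¬ h ≠ 0), ‖rc_spv_c χ x *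
      ((∑ i ∈ Finset.range A, ZMod.stdAddChar (-((i : ZMod Q) * x))) *
        ∑ l ∈ Finset.range B, ZMod.stdAddChar (-((l : ZMod Q) * x)))‖ = 0 := by
      apply Finset.sum_eq_zero
      intro x hx
      have : x = 0 := by simpa using hx
      rw [this, h0, zero_mul, norm_zero]
    rw [e0, add_zero]
    apply Finset.sum_le_sum
    intro h hh
    have hh0 : h ≠ 0 := (Finset.mem_filter.1 hh).2
    have hμ : 0 < (rc_spv_mu h : ℝ) := by exact_mod_cast rc_spv_mu_pos hh0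
    have a1 : ‖rc_spv_c χ h‖ ≤ √(Q * rc_spv_mu h) := by
      apply Real.le_sqrt_of_sq_le
      exact rc_spv_key χ hh0
    have a2 := rc_spv_geom hh0 A
    have a3 := rc_spv_geom hh0 B
    rw [norm_mul, norm_mul]
    calc _ ≤ √(Q * rc_spv_mu h) * ((Q / (2 * rc_spv_mu h)) * (Q / (2 * rc_spv_mu h))) := by
          gcongr
      _ = _ := by
          have b1 : (rc_spv_mu h : ℝ) ^ (3 / 2 : ℝ) = rc_spv_mu h * √(rc_spv_mu h) := by
            rw [show (3 / 2 : ℝ) = 1 + 1 / 2 by norm_num, Real.rpow_add hμ, Real.rpow_one,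
              ← Real.sqrt_eq_rpow]
          have b2 : √(rc_spv_mu h : ℝ) * √(rc_spv_mu h : ℝ) = rc_spv_mu h :=
            Real.mul_self_sqrt hμ.le
          have b3 : 0 < √(rc_spv_mu h : ℝ) := Real.sqrt_pos.2 hμ
          rw [b1, Real.sqrt_mul hQ.le]
          set m := √(rc_spv_mu h : ℝ) with hm
          rw [← b2]
          field_simp
          norm_num
  rw [← Finset.mul_sum] at h2
  have h3 := rc_spv_sum_mu (Q := Q)
  rw [← hZ] at h3
  have h4 : (Q : ℝ) * ‖S‖ ≤ ((Q : ℝ) ^ 2 * √Q / 4) * (2 * Z) :=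
    h2.trans (mul_le_mul_of_nonneg_left h3 (by positivity))
  have h5 : (Q : ℝ) ^ (3 / 2 : ℝ) = Q * √Q := by
    rw [show (3 / 2 : ℝ) = 1 + 1 / 2 by norm_num, Real.rpow_add hQ, Real.rpow_one,
      ← Real.sqrt_eq_rpow]
  rw [h5]
  have h6 : (Q : ℝ) * ‖S‖ ≤ Q * ((Z + 1) * (Q * √Q)) := by
    refine h4.trans ?_
    have hs := Real.sqrt_nonneg (Q : ℝ)
    have : (Q : ℝ) * ((Z + 1) * (Q * √Q)) - ((Q : ℝ) ^ 2 * √Q / 4) * (2 * Z) =
      (Q : ℝ) ^ 2 * √Q * (Z / 2 + 1) := by ring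
    have h7 : 0 ≤ (Q : ℝ) ^ 2 * √Q * (Z / 2 + 1) := by positivity
    linarith
  exact le_of_mul_le_mul_left h6 hQ

end Pool.Agent.RC

namespace Pool.Agent.RC

alias spv := spv_pr

end Pool.Agent.RC
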