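import Pool.Agent.Lib_helper39.RC.Defs
/-!
RC, block SV1: rough numbers, logarithmic density.
-/

set_option autoImplicit false

namespace Pool.Agent.RC

open Complex MeasureTheory Filter Topology

theorem rc_SV1_prime_dvd_RR {P p : ℕ} (hp : p.Prime) (h : p ≤ P) : p ∣ RR P := by
  refine Dvd.dvd.mul_left (Finset.dvd_prod_of_mem (fun p => p) ?_) 8
  simp only [pr, Finset.mem_filter, Finset.mem_range]
  exact ⟨Nat.lt_succ_of_le h, hp⟩

theorem rc_SV1_coprime {P n l : ℕ} (hn : n.Coprime (RR P)) (hl0 : 0 < l) (hl : l ≤ P) :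
    n.Coprime l := by
  refine Nat.Coprime.symm (Nat.coprime_of_dvd fun p hp hpl hpn => ?_)
  have h1 : p ∣ RR P := rc_SV1_prime_dvd_RR hp ((Nat.le_of_dvd hl0 hpl).trans hl)
  have h2 : p ∣ Nat.gcd n (RR P) := Nat.dvd_gcd hpn h1
  rw [hn] at h2
  exact hp.one_lt.ne' (Nat.dvd_one.1 h2)

theorem rc_SV1_inj {P n l n' l' : ℕ} (hn : n.Coprime (RR P)) (hn' : n'.Coprime (RR P))
    (hl0 : 0 < l) (hl : l ≤ P) (hl0' : 0 < l') (hl' : l' ≤ P) (hn0 : 0 < n)
    (h : n * l = n' * l') : n = n' ∧ l = l' := by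
  have h1 : n ∣ n' := (rc_SV1_coprime hn hl0' hl').dvd_of_dvd_mul_right (h ▸ Dvd.intro l rfl)
  have h2 : n' ∣ n := (rc_SV1_coprime hn' hl0 hl).dvd_of_dvd_mul_right
    (h.symm ▸ Dvd.intro l' rfl)
  have h3 : n = n' := Nat.dvd_antisymm h1 h2
  refine ⟨h3, ?_⟩
  subst h3
  exact Nat.eq_of_mul_eq_mul_left hn0 h

theorem rc_SV1_harm_le {N : ℕ} : ∑ i ∈ Finset.Icc 1 N, 1 / (i : ℝ) ≤ 1 + Real.log N := by
  have h := harmonic_le_one_add_log N
  rw [harmonic_eq_sum_Icc] at h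
  push_cast at h
  simpa only [one_div] using h

theorem rc_SV1_le_harm {N : ℕ} (hN : 1 ≤ N) : Real.log N ≤ ∑ i ∈ Finset.Icc 1 N, 1 / (i : ℝ) := by
  have h := log_add_one_le_harmonic N
  rw [harmonic_eq_sum_Icc] at h
  push_cast at h
  have h2 : Real.log N ≤ Real.log ((N : ℝ) + 1) :=
    Real.log_le_log (by exact_mod_cast hN) (by linarith)
  simpa only [one_div] using h2.trans h

/-- SV1. -/
theorem sv1_pr : ∃ C : ℝ, 0 < C ∧ ∀ P N : ℕ, 2 ≤ P → P ≤ N →
    ∑ n ∈ (Finset.Icc 1 N).filter (fun n => n.Coprime (RR P)), 1 / (n : ℝ) ≤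
      C * Real.log N / Real.log P := by
  refine ⟨4, by norm_num, fun P N hP hPN => ?_⟩
  set A := (Finset.Icc 1 N).filter (fun n => n.Coprime (RR P)) with hA
  have hlogP : 0 < Real.log P := Real.log_pos (by exact_mod_cast hP)
  have hN2 : 2 ≤ N := hP.trans hPN
  have hlogN : Real.log 2 ≤ Real.log N := Real.log_le_log (by norm_num) (by exact_mod_cast hN2)
  have hlogPN : Real.log P ≤ Real.log N :=
    Real.log_le_log (by positivity) (by exact_mod_cast hPN)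
  have h1 : (∑ n ∈ A, 1 / (n : ℝ)) * ∑ l ∈ Finset.Icc 1 P, 1 / (l : ℝ) ≤
      ∑ m ∈ Finset.Icc 1 (N * P), 1 / (m : ℝ) := by
    rw [Finset.sum_mul_sum, ← Finset.sum_product']
    have hinj : Set.InjOn (fun x : ℕ × ℕ => x.1 * x.2) (A ×ˢ Finset.Icc 1 P : Finset (ℕ × ℕ)) := by
      rintro ⟨n, l⟩ h ⟨n', l'⟩ h' heq
      simp only [Finset.coe_product, Set.mem_prod, Finset.mem_coe, hA, Finset.mem_filter,
        Finset.mem_Icc] at h h'
      have := rc_SV1_inj h.1.2 h'.1.2 (by omega) h.2.2 (by omega) h'.2.2 (by omega) heq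
      rw [this.1, this.2]
    calc ∑ x ∈ A ×ˢ Finset.Icc 1 P, 1 / (x.1 : ℝ) * (1 / (x.2 : ℝ)) =
          ∑ x ∈ A ×ˢ Finset.Icc 1 P, 1 / ((x.1 * x.2 : ℕ) : ℝ) := by
          refine Finset.sum_congr rfl fun x _ => ?_
          push_cast
          rw [one_div_mul_one_div]
      _ = ∑ m ∈ (A ×ˢ Finset.Icc 1 P).image (fun x : ℕ × ℕ => x.1 * x.2), 1 / (m : ℝ) := by
          rw [Finset.sum_image hinj]
      _ ≤ ∑ m ∈ Finset.Icc 1 (N * P), 1 / (m : ℝ) := by
          refine Finset.sum_le_sum_of_subset_of_nonneg ?_ (fun _ _ _ => by positivity)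
          intro m hm
          obtain ⟨⟨n, l⟩, hx, rfl⟩ := Finset.mem_image.1 hm
          simp only [Finset.mem_product, hA, Finset.mem_filter, Finset.mem_Icc] at hx
          rw [Finset.mem_Icc]
          exact ⟨Nat.mul_pos (by omega) (by omega), Nat.mul_le_mul hx.1.1.2 hx.2.2⟩
  have h2 : ∑ m ∈ Finset.Icc 1 (N * P), 1 / (m : ℝ) ≤ 4 * Real.log N := by
    refine rc_SV1_harm_le.trans ?_
    push_cast
    rw [Real.log_mul (by positivity) (by positivity)]
    have := Real.log_two_gt_d9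
    linarith
  have h3 : (∑ n ∈ A, 1 / (n : ℝ)) * Real.log P ≤ 4 * Real.log N := by
    refine le_trans ?_ (h1.trans h2)
    refine mul_le_mul_of_nonneg_left (rc_SV1_le_harm (by omega)) ?_
    exact Finset.sum_nonneg fun _ _ => by positivity
  rw [le_div_iff₀ hlogP]
  exact h3

end Pool.Agent.RC

namespace Pool.Agent.RC

alias sv1 := sv1_pr

end Pool.Agent.RC
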