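import Pool.Agent.Lib_helper39.RC.Defs
import Pool.Agent.Lib_helper39.RCA.REP1
import Pool.Agent.Lib_helper39.RCA.TR
/-!
# Block TWO: auxiliary lemmas
-/

namespace Pool.Agent.RC

open Complex MeasureTheory Filter Topology
open scoped ContDiff

theorem rc_two_zz_norm {p : ℕ} (hp : 2 ≤ p) (t : ℝ) :
    ‖(p : ℂ) ^ (-(1 / 2 + t * I) : ℂ)‖ < 1 := by
  have hp0 : 0 < p := by omega
  rw [Complex.norm_natCast_cpow_of_pos hp0]
  have h1 : (-(1 / 2 + t * I) : ℂ).re = -(1 / 2 : ℝ) := by simp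
  rw [h1]
  exact Real.rpow_lt_one_of_one_lt_of_neg (by exact_mod_cast (show 1 < p by omega)) (by norm_num)

theorem rc_two_rv_abs (j : Fin 4) (c p : ℕ) : ‖(rv j c p : ℂ)‖ ≤ 1 := by
  have h1 : |rv j c p| ≤ 1 := by
    rw [rv, abs_mul]
    have h2 : |psi j p| ≤ 1 := by
      fin_cases j
      · simp [psi]
      · show |ZMod.χ₄ (p : ZMod 4)| ≤ 1
        generalize (p : ZMod 4) = x
        revert x; decide
      · show |ZMod.χ₈ (p : ZMod 8)| ≤ 1
        generalize (p : ZMod 8) = x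
        revert x; decide
      · show |ZMod.χ₈' (p : ZMod 8)| ≤ 1
        generalize (p : ZMod 8) = x
        revert x; decide
    have h3 : |jacobiSym (p : ℤ) c| ≤ 1 := by
      rcases jacobiSym.trichotomy (p : ℤ) c with h | h | h <;> rw [h] <;> norm_num
    calc |psi j p| * |jacobiSym (p : ℤ) c| ≤ 1 * 1 :=
          mul_le_mul h2 h3 (abs_nonneg _) (by norm_num)
      _ = 1 := by norm_num
  rw [Complex.norm_intCast]
  exact_mod_cast h1

theorem rc_two_fac_ne (j : Fin 4) (c : ℕ) {p : ℕ} (hp : 2 ≤ p) (t : ℝ) :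
    (1 - (rv j c p : ℂ) * (p : ℂ) ^ (-(1 / 2 + t * I) : ℂ)) ≠ 0 := by
  intro h
  have h1 : (rv j c p : ℂ) * (p : ℂ) ^ (-(1 / 2 + t * I) : ℂ) = 1 := (sub_eq_zero.mp h).symm
  have h2 : ‖(rv j c p : ℂ) * (p : ℂ) ^ (-(1 / 2 + t * I) : ℂ)‖ < 1 := by
    rw [norm_mul]
    calc ‖(rv j c p : ℂ)‖ * ‖(p : ℂ) ^ (-(1 / 2 + t * I) : ℂ)‖
        ≤ 1 * ‖(p : ℂ) ^ (-(1 / 2 + t * I) : ℂ)‖ :=
          mul_le_mul_of_nonneg_right (rc_two_rv_abs j c p) (norm_nonneg _)
      _ < 1 := by rw [one_mul]; exact rc_two_zz_norm hp t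
  rw [h1] at h2
  simp at h2

theorem rc_two_mem_pr {P p : ℕ} : p ∈ pr P ↔ p ≤ P ∧ p.Prime := by
  rw [pr, Finset.mem_filter, Finset.mem_range, Nat.lt_succ_iff]

theorem rc_two_EP_cont (j : Fin 4) (P c : ℕ) : Continuous (EP j P c) := by
  unfold EP
  refine continuous_finsetProd _ fun p hp => ?_
  have hp2 := (rc_two_mem_pr.mp hp).2.two_le
  have hpc : (p : ℂ) ≠ 0 := by exact_mod_cast (by omega : p ≠ 0)
  refine Continuous.inv₀ ?_ (fun t => rc_two_fac_ne j c hp2 t)
  refine continuous_const.sub (continuous_const.mul ?_)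
  exact Continuous.const_cpow (by fun_prop) (Or.inl hpc)

theorem rc_two_RR_pos (P : ℕ) : 0 < RR P := by
  unfold RR
  have : 0 < ∏ p ∈ pr P, p := Finset.prod_pos fun p hp => (rc_two_mem_pr.mp hp).2.pos
  omega

theorem rc_two_dvd {P p : ℕ} (hp : p ∈ pr P) : 4 * p ∣ RR P := by
  unfold RR
  have h1 : p ∣ ∏ p ∈ pr P, p := Finset.dvd_prod_of_mem _ hp
  exact Nat.mul_dvd_mul (by norm_num) h1

theorem rc_two_rv_eq {P p m c : ℕ} (j : Fin 4) (hp : p ∈ pr P) (hm : Odd m) (hc : Odd c)
    (h : m % RR P = c % RR P) : rv j m p = rv j c p := by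
  have hd := rc_two_dvd hp
  unfold rv
  rw [jacobiSym.mod_right (p : ℤ) hm, jacobiSym.mod_right (p : ℤ) hc]
  have h1 : m % (4 * (p : ℤ).natAbs) = c % (4 * (p : ℤ).natAbs) := by
    rw [Int.natAbs_natCast]
    have h2 := congrArg (· % (4 * p)) h
    simp only [Nat.mod_mod_of_dvd _ hd] at h2
    exact h2
  rw [h1]

theorem rc_two_primeFactors {P : ℕ} (hP : 2 ≤ P) : (RR P).primeFactors = pr P := by
  ext p
  rw [Nat.mem_primeFactors, rc_two_mem_pr]
  constructor
  · rintro ⟨hp, hd, _⟩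
    refine ⟨?_, hp⟩
    unfold RR at hd
    rcases (Nat.Prime.dvd_mul hp).mp hd with h1 | h1
    · have h2 : p ∣ 2 := by
        have : (8 : ℕ) = 2 ^ 3 := by norm_num
        rw [this] at h1
        exact hp.dvd_of_dvd_pow h1
      have := Nat.le_of_dvd (by norm_num) h2
      omega
    · obtain ⟨q, hq, hpq⟩ := (Prime.dvd_finsetProd_iff hp.prime _).mp h1
      obtain ⟨hq1, hq2⟩ := rc_two_mem_pr.mp hq
      rw [(Nat.prime_dvd_prime_iff_eq hp hq2).mp hpq]
      exact hq1
  · rintro ⟨h1, hp⟩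
    refine ⟨hp, (Dvd.intro_left 4 rfl).trans (rc_two_dvd (rc_two_mem_pr.mpr ⟨h1, hp⟩)),
      (rc_two_RR_pos P).ne'⟩

/-- number of integers in a class. -/
theorem rc_two_cls_card (R c K : ℕ) : ((cls R c K).card : ℝ) ≤ K / R + 1 := by
  have h1 : (cls R c K).card ≤ (Finset.range (K / R + 1)).card := by
    refine Finset.card_le_card_of_injOn (fun m => (m - K) / R) ?_ ?_
    · intro m hm
      obtain ⟨hm1, _⟩ := Finset.mem_filter.mp hm
      rw [Finset.mem_Ico] at hm1
      have : (m - K) / R ≤ K / R := Nat.div_le_div_right (by omega)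
      simp only [Finset.coe_range, Set.mem_Iio]
      omega
    · intro m hm m' hm' h
      obtain ⟨hm1, hm2⟩ := Finset.mem_filter.mp hm
      obtain ⟨hm3, hm4⟩ := Finset.mem_filter.mp hm'
      rw [Finset.mem_Ico] at hm1 hm3
      simp only at h
      have h5 : m % R = m' % R := hm2.trans hm4.symm
      have h6 : (m - K) % R = (m' - K) % R := by
        have h7 : (m - K + K) ≡ (m' - K + K) [MOD R] := by
          rw [Nat.sub_add_cancel hm1.1, Nat.sub_add_cancel hm3.1]; exact h5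
        exact Nat.ModEq.add_right_cancel' K h7
      have h8 := Nat.div_add_mod (m - K) R
      have h9 := Nat.div_add_mod (m' - K) R
      rw [h, h6] at h8
      omega
  rw [Finset.card_range] at h1
  have h2 : ((cls R c K).card : ℝ) ≤ ((K / R : ℕ) : ℝ) + 1 := by exact_mod_cast h1
  have h3 : ((K / R : ℕ) : ℝ) ≤ (K : ℝ) / R := Nat.cast_div_le
  linarith

/-- Fubini for complex test functions. -/
theorem rc_two_flip (w : ℝ → ℂ) (hw : Continuous w) (hc : HasCompactSupport w) (f : ℝ → ℂ)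
    (hf : Integrable f) :
    ∫ t : ℝ, w t * (∫ u : ℝ, f u * cexp (t * u * I)) = ∫ u : ℝ, f u * hatc w u := by
  have hwi : Integrable w := hw.integrable_of_hasCompactSupport hc
  have hprod : Integrable (fun z : ℝ × ℝ => w z.1 * f z.2) (volume.prod volume) :=
    hwi.mul_prod hf
  have hcont : Continuous (fun z : ℝ × ℝ => cexp ((z.1 : ℂ) * (z.2 : ℂ) * I)) := by
    fun_prop
  have hint : Integrable (Function.uncurry fun (t u : ℝ) => w t * (f u * cexp (t * u * I)))
      (volume.prod volume) := by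
    refine hprod.mono ?_ ?_
    · have h1 := hprod.1.mul hcont.aestronglyMeasurable
      refine h1.congr (ae_of_all _ ?_)
      intro z
      simp only [Pi.mul_apply, Function.uncurry]
      ring
    · refine ae_of_all _ ?_
      intro z
      have h2 : ‖cexp ((z.1 : ℂ) * (z.2 : ℂ) * I)‖ = 1 := by
        rw [← ofReal_mul]
        exact norm_exp_ofReal_mul_I _
      simp only [Function.uncurry, norm_mul, h2, mul_one]
      exact le_rfl
  calc ∫ t : ℝ, w t * (∫ u : ℝ, f u * cexp (t * u * I))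
      = ∫ t : ℝ, ∫ u : ℝ, w t * (f u * cexp (t * u * I)) := by
        congr 1
        ext t
        rw [integral_const_mul]
    _ = ∫ u : ℝ, ∫ t : ℝ, w t * (f u * cexp (t * u * I)) :=
        integral_integral_swap hint
    _ = ∫ u : ℝ, f u * hatc w u := by
        congr 1
        ext u
        rw [hatc, ← integral_const_mul]
        congr 1
        ext t
        ring

theorem rc_two_hat_cont (f : ℝ → ℂ) (hf : Integrable f) :
    Continuous fun t : ℝ => ∫ u : ℝ, f u * cexp (t * u * I) := by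
  refine continuous_of_dominated (bound := fun u => ‖f u‖) ?_ ?_ hf.norm ?_
  · intro t
    exact hf.1.mul (Continuous.aestronglyMeasurable (by fun_prop))
  · intro t
    refine ae_of_all _ fun u => ?_
    have h2 : ‖cexp ((t : ℂ) * (u : ℂ) * I)‖ = 1 := by
      rw [← ofReal_mul]
      exact norm_exp_ofReal_mul_I _
    rw [norm_mul, h2, mul_one]
  · refine ae_of_all _ fun u => ?_
    fun_prop

/-- For a good `m` in the class of `c`, the test integral is at most `∫ |Lr| w`. -/
theorem rc_two_test {κ : ℕ} (hκ : κ ≤ 1) {a b : ℝ} (h0 : 0 < a ∨ b < 0) (w : ℝ → ℝ)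
    (hw : Continuous w) (hw0 : ∀ t, 0 ≤ w t) (hs : ∀ t, t ∉ Set.Icc a b → w t = 0)
    {P : ℕ} (hP : 2 ≤ P) {j : Fin 4} {m c : ℕ} (hm : Good κ j m) (hc : Odd c)
    (hmc : m % RR P = c % RR P) (θ : ℝ → ℂ) (hθ : Continuous θ)
    (hθs : ∀ t, t ∉ Set.Icc a b → θ t = 0)
    (hθb : ∀ t : ℝ, ‖(t : ℂ) * θ t‖ ≤ w t * ‖EP j P c t‖) :
    ‖∫ u : ℝ, (DD (f1 κ) (RR P) j m u : ℂ) * hatc θ u‖ ≤ ∫ t : ℝ, ‖Lr κ j m t‖ * w t := by
  obtain ⟨hodd, hm2, χ, hχ⟩ := hm
  have : NeZero (cc j * m) := ⟨by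
    have : 0 < cc j := by fin_cases j <;> simp [cc]
    exact (Nat.mul_pos this (by omega)).ne'⟩
  have hi := (rep1 hm2 χ hχ).2.1
  have hRi := (tr hκ (rc_two_RR_pos P) hm2 j hi 0).1
  have hcs : HasCompactSupport θ := HasCompactSupport.of_support_subset_isCompact isCompact_Icc
    (fun t ht => by
      by_contra hn
      exact ht (hθs t hn))
  have hcw : HasCompactSupport w := HasCompactSupport.of_support_subset_isCompact isCompact_Icc
    (fun t ht => by
      by_contra hn
      exact ht (hs t hn))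
  rw [← rc_two_flip θ hθ hcs (fun u => (DD (f1 κ) (RR P) j m u : ℂ)) hRi.ofReal]
  set J : ℝ → ℂ := fun t => ∫ u : ℝ, (DD (f1 κ) 1 j m u : ℂ) * cexp (t * u * I) with hJ
  have hJc : Continuous J := rc_two_hat_cont _ hi.ofReal
  -- pointwise bound
  have hpt : ∀ t : ℝ, ‖θ t * ∫ u : ℝ, (DD (f1 κ) (RR P) j m u : ℂ) * cexp (t * u * I)‖ ≤
      ‖Lr κ j m t‖ * w t := by
    intro t
    by_cases ht : t ∈ Set.Icc a b
    · have ht0 : t ≠ 0 := by
        rintro rfl
        rcases h0 with h2 | h2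
        · exact absurd ht.1 (not_le.mpr h2)
        · exact absurd ht.2 (not_le.mpr h2)
      have htc : (t : ℂ) ≠ 0 := by exact_mod_cast ht0
      rw [(tr hκ (rc_two_RR_pos P) hm2 j hi t).2, rc_two_primeFactors hP]
      have hE : ∏ p ∈ pr P, (1 - (rv j m p : ℂ) * (p : ℂ) ^ (-(1 / 2 + t * I) : ℂ)) =
          (EP j P c t)⁻¹ := by
        rw [EP, ← Finset.prod_inv_distrib]
        refine Finset.prod_congr rfl fun p hp => ?_
        rw [inv_inv, rc_two_rv_eq j hp hodd hc hmc]
      rw [hE]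
      have hEn : EP j P c t ≠ 0 := by
        rw [EP]
        refine Finset.prod_ne_zero_iff.mpr fun p hp => ?_
        exact inv_ne_zero (rc_two_fac_ne j c (rc_two_mem_pr.mp hp).2.two_le t)
      have hLr : ‖Lr κ j m t‖ = ‖J t‖ / |t| := by
        rw [Lr, norm_mul, norm_div, Complex.norm_I, Complex.norm_real, Real.norm_eq_abs]
        rw [hJ]
        ring
      have h1 : ‖θ t‖ ≤ w t * ‖EP j P c t‖ / |t| := by
        rw [le_div_iff₀ (abs_pos.mpr ht0)]
        have := hθb t
        rw [norm_mul, Complex.norm_real, Real.norm_eq_abs] at this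
        linarith
      rw [norm_mul, norm_mul, norm_inv]
      have hEp : 0 < ‖EP j P c t‖ := norm_pos_iff.mpr hEn
      calc ‖θ t‖ * (‖EP j P c t‖⁻¹ * ‖J t‖)
          ≤ w t * ‖EP j P c t‖ / |t| * (‖EP j P c t‖⁻¹ * ‖J t‖) :=
            mul_le_mul_of_nonneg_right h1 (by positivity)
        _ = ‖J t‖ / |t| * w t * (‖EP j P c t‖ * ‖EP j P c t‖⁻¹) := by ring
        _ = ‖Lr κ j m t‖ * w t := by
            rw [mul_inv_cancel₀ hEp.ne', mul_one, hLr]
    · rw [hθs t ht, zero_mul, norm_zero, hs t ht, mul_zero]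
  refine (norm_integral_le_integral_norm _).trans ?_
  have hint : Integrable fun t => ‖Lr κ j m t‖ * w t := by
    -- bound by a constant times `w`
    set δ : ℝ := max a (-b) with hδ
    have hδ0 : 0 < δ := by
      rcases h0 with h2 | h2
      · exact lt_max_of_lt_left h2
      · exact lt_max_of_lt_right (by linarith)
    have hJb : ∀ t, ‖J t‖ ≤ ∫ u : ℝ, ‖(DD (f1 κ) 1 j m u : ℂ)‖ := by
      intro t
      refine (norm_integral_le_integral_norm _).trans (le_of_eq ?_)
      congr 1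
      funext u
      have h2 : ‖cexp ((t : ℂ) * (u : ℂ) * I)‖ = 1 := by
        rw [← ofReal_mul]
        exact norm_exp_ofReal_mul_I _
      rw [norm_mul, h2, mul_one]
    set B : ℝ := ∫ u : ℝ, ‖(DD (f1 κ) 1 j m u : ℂ)‖ with hB
    have hB0 : 0 ≤ B := integral_nonneg fun _ => norm_nonneg _
    have hwi : Integrable w := hw.integrable_of_hasCompactSupport hcw
    refine (hwi.const_mul (B / δ)).mono' ?_ ?_
    · have hm1 : Measurable fun t : ℝ => Lr κ j m t := by
        unfold Lr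
        exact (Measurable.mul (measurable_const.div (by fun_prop)) hJc.measurable)
      exact (hm1.norm.mul hw.measurable).aestronglyMeasurable
    · refine ae_of_all _ fun t => ?_
      rw [Real.norm_of_nonneg (mul_nonneg (norm_nonneg _) (hw0 t))]
      by_cases ht : t ∈ Set.Icc a b
      · have hab : δ ≤ |t| := by
          rcases h0 with h2 | h2
          · have e : δ = a := max_eq_left (by linarith [ht.1, ht.2])
            rw [e]
            exact ht.1.trans (le_abs_self t)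
          · have e : δ ≤ |t| := by
              refine max_le ?_ ?_
              · linarith [abs_nonneg t, ht.1, ht.2]
              · exact le_trans (by linarith [ht.2]) (neg_le_abs t)
            exact e
        have hLr : ‖Lr κ j m t‖ = ‖J t‖ / |t| := by
          rw [Lr, norm_mul, norm_div, Complex.norm_I, Complex.norm_real, Real.norm_eq_abs]
          rw [hJ]
          ring
        have h3 : ‖Lr κ j m t‖ ≤ B / δ := by
          rw [hLr]
          exact div_le_div₀ hB0 (hJb t) hδ0 hab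
        exact mul_le_mul_of_nonneg_right h3 (hw0 t)
      · rw [hs t ht, mul_zero, mul_zero]
  refine integral_mono ?_ hint hpt
  refine hint.mono' ?_ (ae_of_all _ fun t => ?_)
  · have hJR : Continuous fun t : ℝ => ∫ u : ℝ, (DD (f1 κ) (RR P) j m u : ℂ) * cexp (t * u * I) :=
      rc_two_hat_cont _ hRi.ofReal
    exact ((hθ.mul hJR).norm).aestronglyMeasurable
  · rw [Real.norm_of_nonneg (norm_nonneg _)]
    exact hpt t

/-- Cauchy-Schwarz on `[a, b]`. -/
theorem rc_two_cs {a b : ℝ} (hab : a < b) (f : ℝ → ℝ) (hf : Continuous f)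
    (hs : ∀ t, t ∉ Set.Icc a b → f t = 0) :
    (∫ t : ℝ, f t) ^ 2 ≤ (b - a) * ∫ t : ℝ, f t ^ 2 := by
  have hc : HasCompactSupport f := HasCompactSupport.of_support_subset_isCompact isCompact_Icc
    (fun t ht => by
      by_contra hn
      exact ht (hs t hn))
  have e1 : ∫ t : ℝ, f t = ∫ t in Set.Icc a b, f t := by
    rw [setIntegral_eq_integral_of_forall_compl_eq_zero]
    exact hs
  have e2 : ∫ t : ℝ, f t ^ 2 = ∫ t in Set.Icc a b, f t ^ 2 := by
    rw [setIntegral_eq_integral_of_forall_compl_eq_zero]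
    intro t ht
    rw [hs t ht]; ring
  have hba : 0 < b - a := by linarith
  set μ : ℝ := (∫ t : ℝ, f t) / (b - a) with hμ
  have h1 : 0 ≤ ∫ t in Set.Icc a b, (f t - μ) ^ 2 := integral_nonneg fun t => sq_nonneg _
  have i1 : IntegrableOn (fun t => f t ^ 2) (Set.Icc a b) :=
    (hf.pow 2).continuousOn.integrableOn_compact isCompact_Icc
  have i2 : IntegrableOn (fun t => 2 * μ * f t) (Set.Icc a b) :=
    (continuous_const.mul hf).continuousOn.integrableOn_compact isCompact_Icc
  have i3 : IntegrableOn (fun _ : ℝ => μ ^ 2) (Set.Icc a b) :=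
    continuous_const.continuousOn.integrableOn_compact isCompact_Icc
  have h2 : ∫ t in Set.Icc a b, (f t - μ) ^ 2 =
      (∫ t in Set.Icc a b, f t ^ 2) - 2 * μ * (∫ t in Set.Icc a b, f t) + μ ^ 2 * (b - a) := by
    have e3 : (fun t => (f t - μ) ^ 2) = fun t => (f t ^ 2 - 2 * μ * f t) + μ ^ 2 := by
      funext t; ring
    have e4 : ∫ t in Set.Icc a b, ((f t ^ 2 - 2 * μ * f t) + μ ^ 2) =
        (∫ t in Set.Icc a b, (f t ^ 2 - 2 * μ * f t)) + ∫ _ in Set.Icc a b, μ ^ 2 :=
      integral_add (i1.sub i2) i3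
    have e5 : ∫ t in Set.Icc a b, (f t ^ 2 - 2 * μ * f t) =
        (∫ t in Set.Icc a b, f t ^ 2) - ∫ t in Set.Icc a b, 2 * μ * f t := integral_sub i1 i2
    rw [e3, e4, e5, integral_const_mul]
    simp only [integral_const, measureReal_restrict_apply_univ, Real.volume_real_Icc,
      smul_eq_mul]
    rw [max_eq_left hba.le]
    ring
  rw [h2, ← e1, ← e2] at h1
  have h3 : μ * (b - a) = ∫ t : ℝ, f t := by rw [hμ]; field_simp
  have h4 : 2 * μ * (∫ t : ℝ, f t) = 2 * μ ^ 2 * (b - a) := by rw [← h3]; ring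
  have h5 : (∫ t : ℝ, f t) ^ 2 = (b - a) * (μ ^ 2 * (b - a)) := by rw [← h3]; ring
  rw [h5]
  refine mul_le_mul_of_nonneg_left ?_ hba.le
  linarith

end Pool.Agent.RC
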